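import Pool.Agent.HLA.AdmP

/-!
# HLA.TTl: the main terms and the sums over primes

PROOF. `δ = κ e^(-w)`. (1) `gsm δ (up w (h e^(-w)) (muL 1 w)) y = κ ∫ exp(-s²/2) WW 1 w (y - h e^(-w) - δ s) ds` (`gsm_up`, `muL_int`, substitution), for `y = w + t + θ` it tends to
`κ √(2π) WW 1 0 (t + θ)` and is `≤ κ √(2π)`; substitute `x = w + t` in `TT` and use dominated convergence (majorant `WW σ c t`). This gives `tt_lim`. Also
`|gsm δ (up w (h e^(-w)) (muL 1 w)) y - √(2π) κ WW 1 w y| ≤ C e^(-w)` uniformly in `y` (`WW` is Lipschitz with constant `1`) (*).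
(2) `p3_eq`: `muS_int` three times (bounded continuous integrands) and `tsum_prod`; `exp(-(x+θ-log q - h e^(-w))²/(2κ²e^(-2w))) = WW κ h (e^w (x+θ-log q))`.
(3) `p2_lim0`: `TT δ (muP ..) (up .. (muP ..)) (up .. (muL ..)) θ - √(2π) κ P2` is by (*) at most `C e^(-w) ∑ tw tw e^w WW WW WW`, and the sum is
`∫ gsm δ (up w (h1 e^(-w)) (muP 1 w)) (x + θ) d muP(x) ≤ w^(E') C (1 + |w + c|)^6` (`adm_P`, `muP_mass`).
-/

namespace HLA

open MeasureTheory ArithmeticFunction SMC Filter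

/-- The substitution. -/
private theorem gL_eq {κ : ℝ} (hκ : 0 < κ) (w h y : ℝ) :
    gsm (κ * Real.exp (-w)) (up w (h * Real.exp (-w)) (muL 1 w)) y =
      κ * ∫ s, WW 1 0 s * WW 1 w (y - h * Real.exp (-w) - κ * Real.exp (-w) * s) := by
  rw [gsm_up]
  unfold gsm
  rw [muL_int]
  set δ : ℝ := κ * Real.exp (-w) with hδd
  have hδ : 0 < δ := by positivity
  set z : ℝ := y - h * Real.exp (-w) with hzd
  set F : ℝ → ℝ := fun x => WW 1 w x • Real.exp (-(z - x) ^ 2 / (2 * δ ^ 2)) with hF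
  have h1 : ∫ x, F x = ∫ u, F (z - u) := (integral_sub_left_eq_self F volume z).symm
  have h2 : ∫ s, F (z - δ * s) = |δ⁻¹| • ∫ u, F (z - u) :=
    Measure.integral_comp_mul_left (fun u => F (z - u)) δ
  have h3 : (fun s => F (z - δ * s)) = fun s => WW 1 0 s * WW 1 w (z - δ * s) := by
    funext s
    simp only [hF, smul_eq_mul]
    rw [mul_comm]
    congr 1
    unfold WW
    congr 1
    field_simp
    ring
  rw [h3, abs_of_pos (inv_pos.mpr hδ), smul_eq_mul] at h2
  have h4 : ∫ x, F x = δ * ∫ s, WW 1 0 s * WW 1 w (z - δ * s) := by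
    rw [h2, h1, ← mul_assoc, mul_inv_cancel₀ hδ.ne', one_mul]
  rw [h4, ← mul_assoc]
  congr 1
  rw [hδd, mul_comm κ, ← mul_assoc, ← Real.exp_add, add_neg_cancel, Real.exp_zero, one_mul]

private theorem ww_intg (w y a : ℝ) : Integrable fun s => WW 1 0 s * WW 1 w (y - a * s) := by
  refine (WW_int one_pos 0).1.mono' ?_ (Eventually.of_forall fun s => ?_)
  · refine Continuous.aestronglyMeasurable ?_
    exact (WW_cont 1 0).mul ((WW_cont 1 w).comp (by fun_prop))
  · rw [norm_mul, Real.norm_eq_abs, Real.norm_eq_abs, abs_of_nonneg (WW_nonneg _ _ _), abs_of_nonneg (WW_nonneg _ _ _)]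
    exact mul_le_of_le_one_right (WW_nonneg _ _ _) (WW_le_one _ _ _)

private theorem gL_le {κ : ℝ} (hκ : 0 < κ) (w h y : ℝ) :
    gsm (κ * Real.exp (-w)) (up w (h * Real.exp (-w)) (muL 1 w)) y ≤ Real.sqrt (2 * Real.pi) * κ := by
  rw [gL_eq hκ, mul_comm]
  refine mul_le_mul_of_nonneg_right ?_ hκ.le
  have h1 := (WW_int one_pos 0)
  rw [← mul_one (Real.sqrt (2 * Real.pi)), ← h1.2]
  refine integral_mono (ww_intg w (y - h * Real.exp (-w)) (κ * Real.exp (-w))) h1.1 fun s => ?_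
  exact mul_le_of_le_one_right (WW_nonneg _ _ _) (WW_le_one _ _ _)

/-- The Gaussian is Lipschitz. -/
private theorem ww_lip (w a b : ℝ) : |WW 1 w a - WW 1 w b| ≤ |a - b| := by
  have hd : ∀ x : ℝ, HasDerivAt (WW 1 w) (-(x - w) * WW 1 w x) x := by
    intro x
    have h1 : HasDerivAt (fun x : ℝ => -(x - w) ^ 2 / (2 * 1 ^ 2)) (-(x - w)) x := by
      have h2 := (((hasDerivAt_id x).sub_const w).pow 2).neg.div_const (2 * 1 ^ 2 : ℝ)
      refine h2.congr_deriv ?_
      simp only [id]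
      ring
    have h3 := h1.exp
    refine h3.congr_deriv ?_
    unfold WW
    ring
  have hb : ∀ x : ℝ, |-(x - w) * WW 1 w x| ≤ 1 := by
    intro x
    rw [abs_mul, abs_neg, abs_of_nonneg (WW_nonneg _ _ _)]
    unfold WW
    have h1 : |x - w| ≤ Real.exp ((x - w) ^ 2 / 2) := by
      have h2 := Real.add_one_le_exp ((x - w) ^ 2 / 2)
      have h3 : |x - w| ≤ (x - w) ^ 2 / 2 + 1 := by
        rw [← sq_abs (x - w)]
        nlinarith [sq_nonneg (|x - w| - 1)]
      linarith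
    calc |x - w| * Real.exp (-(x - w) ^ 2 / (2 * 1 ^ 2))
        ≤ Real.exp ((x - w) ^ 2 / 2) * Real.exp (-(x - w) ^ 2 / (2 * 1 ^ 2)) :=
          mul_le_mul_of_nonneg_right h1 (Real.exp_pos _).le
      _ = 1 := by
          rw [← Real.exp_add]
          have : (x - w) ^ 2 / 2 + -(x - w) ^ 2 / (2 * 1 ^ 2) = 0 := by ring
          rw [this, Real.exp_zero]
  have h := convex_univ.norm_image_sub_le_of_norm_hasDerivWithin_le (f := WW 1 w)
    (f' := fun x => -(x - w) * WW 1 w x) (C := 1) (s := Set.univ) (x := b) (y := a)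
    (fun x _ => (hd x).hasDerivWithinAt) (fun x _ => by rw [Real.norm_eq_abs]; exact hb x) (Set.mem_univ _) (Set.mem_univ _)
  rwa [Real.norm_eq_abs, Real.norm_eq_abs, one_mul] at h

/-- The statement (*). -/
private theorem gL_star {κ : ℝ} (hκ : 0 < κ) (h : ℝ) : ∃ C : ℝ, 0 ≤ C ∧ ∀ w y : ℝ,
    |gsm (κ * Real.exp (-w)) (up w (h * Real.exp (-w)) (muL 1 w)) y - Real.sqrt (2 * Real.pi) * κ * WW 1 w y| ≤
      C * Real.exp (-w) := by
  have hI : Integrable fun s : ℝ => WW 1 0 s * |s| := by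
    have h1 := (integrable_mul_exp_neg_mul_sq (by norm_num : (0 : ℝ) < 1 / 2)).abs
    refine h1.congr (Eventually.of_forall fun s => ?_)
    simp only
    rw [abs_mul, abs_of_pos (Real.exp_pos _), mul_comm]
    congr 1
    unfold WW
    congr 1
    ring
  have hJ : 0 ≤ ∫ s, WW 1 0 s * |s| := integral_nonneg fun s => mul_nonneg (WW_nonneg _ _ _) (abs_nonneg _)
  refine ⟨κ * (|h| * Real.sqrt (2 * Real.pi) + κ * ∫ s, WW 1 0 s * |s|), by positivity, fun w y => ?_⟩
  have h1 := (WW_int one_pos 0)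
  have e1 : gsm (κ * Real.exp (-w)) (up w (h * Real.exp (-w)) (muL 1 w)) y - Real.sqrt (2 * Real.pi) * κ * WW 1 w y =
      κ * ∫ s, WW 1 0 s * (WW 1 w (y - h * Real.exp (-w) - κ * Real.exp (-w) * s) - WW 1 w y) := by
    rw [gL_eq hκ]
    have e2 : (fun s => WW 1 0 s * (WW 1 w (y - h * Real.exp (-w) - κ * Real.exp (-w) * s) - WW 1 w y)) =
        fun s => WW 1 0 s * WW 1 w (y - h * Real.exp (-w) - κ * Real.exp (-w) * s) - WW 1 0 s * WW 1 w y := by
      funext s
      ring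
    rw [e2, integral_sub (ww_intg w (y - h * Real.exp (-w)) (κ * Real.exp (-w))) (h1.1.mul_const _), integral_mul_const,
      h1.2]
    ring
  rw [e1, abs_mul, abs_of_pos hκ]
  have h2 : |∫ s, WW 1 0 s * (WW 1 w (y - h * Real.exp (-w) - κ * Real.exp (-w) * s) - WW 1 w y)| ≤
      ∫ s, (|h| * Real.exp (-w) * WW 1 0 s + κ * Real.exp (-w) * (WW 1 0 s * |s|)) := by
    rw [← Real.norm_eq_abs]
    refine norm_integral_le_of_norm_le ((h1.1.const_mul _).add (hI.const_mul _)) (Eventually.of_forall fun s => ?_)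
    rw [norm_mul, Real.norm_eq_abs, Real.norm_eq_abs, abs_of_nonneg (WW_nonneg _ _ _)]
    have h3 := ww_lip w (y - h * Real.exp (-w) - κ * Real.exp (-w) * s) y
    have h4 : |y - h * Real.exp (-w) - κ * Real.exp (-w) * s - y| ≤ |h| * Real.exp (-w) + κ * Real.exp (-w) * |s| := by
      have e3 : y - h * Real.exp (-w) - κ * Real.exp (-w) * s - y = -(h * Real.exp (-w) + κ * Real.exp (-w) * s) := by ring
      rw [e3, abs_neg]
      refine (abs_add_le _ _).trans (le_of_eq ?_)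
      rw [abs_mul, abs_mul, abs_mul, abs_of_pos (Real.exp_pos _), abs_of_pos hκ]
    calc WW 1 0 s * |WW 1 w (y - h * Real.exp (-w) - κ * Real.exp (-w) * s) - WW 1 w y|
        ≤ WW 1 0 s * (|h| * Real.exp (-w) + κ * Real.exp (-w) * |s|) :=
          mul_le_mul_of_nonneg_left (h3.trans h4) (WW_nonneg _ _ _)
      _ = _ := by ring
  rw [integral_add (h1.1.const_mul _) (hI.const_mul _), integral_const_mul, integral_const_mul, h1.2] at h2
  calc κ * |∫ s, WW 1 0 s * (WW 1 w (y - h * Real.exp (-w) - κ * Real.exp (-w) * s) - WW 1 w y)|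
      ≤ κ * (|h| * Real.exp (-w) * (Real.sqrt (2 * Real.pi) * 1) + κ * Real.exp (-w) * ∫ s, WW 1 0 s * |s|) :=
        mul_le_mul_of_nonneg_left h2 hκ.le
    _ = _ := by ring

private theorem exp_neg_lim : Tendsto (fun w : ℝ => Real.exp (-w)) atTop (nhds 0) :=
  Real.tendsto_exp_neg_atTop_nhds_zero

private theorem gL_lim {κ : ℝ} (hκ : 0 < κ) (h t : ℝ) :
    Tendsto (fun w : ℝ => gsm (κ * Real.exp (-w)) (up w (h * Real.exp (-w)) (muL 1 w)) (w + t)) atTop
      (nhds (Real.sqrt (2 * Real.pi) * κ * WW 1 0 t)) := by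
  obtain ⟨C, -, hC⟩ := gL_star hκ h
  rw [tendsto_iff_norm_sub_tendsto_zero]
  have h1 : Tendsto (fun w : ℝ => C * Real.exp (-w)) atTop (nhds 0) := by
    have := exp_neg_lim.const_mul C
    rwa [mul_zero] at this
  refine squeeze_zero (fun w => norm_nonneg _) (fun w => ?_) h1
  have h2 := hC w (w + t)
  have h3 : WW 1 w (w + t) = WW 1 0 t := by
    unfold WW
    congr 2
    ring
  rw [h3] at h2
  rwa [Real.norm_eq_abs]

private theorem upP_fin (w h : ℝ) : IsFiniteMeasure (up w h (muP 1 w)) := by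
  have : IsFiniteMeasure (muP 1 w) := (muS_fin tw_nonneg (muP_summ one_pos le_rfl w)).1
  have := Measure.smul_finite (muP 1 w) (c := ENNReal.ofReal (Real.exp w)) ENNReal.ofReal_ne_top
  unfold up
  infer_instance

private theorem upL_fin (w h : ℝ) : IsFiniteMeasure (up w h (muL 1 w)) := by
  have := (muL_fin one_pos w).1
  have := Measure.smul_finite (muL 1 w) (c := ENNReal.ofReal (Real.exp w)) ENNReal.ofReal_ne_top
  unfold up
  infer_instance

theorem tt_lim {σ κ : ℝ} (θ c h1 h2 : ℝ) (hσ : 0 < σ) (hκ : 0 < κ) :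
    Tendsto (fun w : ℝ => TT (κ * Real.exp (-w)) (muL σ (w + c)) (up w (h1 * Real.exp (-w)) (muL 1 w))
        (up w (h2 * Real.exp (-w)) (muL 1 w)) θ) atTop (nhds (2 * Real.pi * κ ^ 2 * lim3 σ θ c)) := by
  have e1 : ∀ w : ℝ, TT (κ * Real.exp (-w)) (muL σ (w + c)) (up w (h1 * Real.exp (-w)) (muL 1 w))
        (up w (h2 * Real.exp (-w)) (muL 1 w)) θ =
      ∫ t, WW σ c t * (gsm (κ * Real.exp (-w)) (up w (h1 * Real.exp (-w)) (muL 1 w)) (w + (t + θ)) *
        gsm (κ * Real.exp (-w)) (up w (h2 * Real.exp (-w)) (muL 1 w)) (w + (t + 2 * θ))) := by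
    intro w
    unfold TT
    rw [muL_int, ← integral_add_left_eq_self _ w]
    refine integral_congr_ae (Eventually.of_forall fun t => ?_)
    simp only [smul_eq_mul]
    rw [add_assoc w t, add_assoc w t]
    congr 1
    unfold WW
    congr 2
    ring
  have e2 : 2 * Real.pi * κ ^ 2 * lim3 σ θ c =
      ∫ t, WW σ c t * ((Real.sqrt (2 * Real.pi) * κ * WW 1 0 (t + θ)) * (Real.sqrt (2 * Real.pi) * κ * WW 1 0 (t + 2 * θ))) := by
    unfold lim3
    rw [← integral_const_mul]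
    refine integral_congr_ae (Eventually.of_forall fun t => ?_)
    simp only
    have h3 : Real.sqrt (2 * Real.pi) * Real.sqrt (2 * Real.pi) = 2 * Real.pi := Real.mul_self_sqrt (by positivity)
    calc 2 * Real.pi * κ ^ 2 * (WW σ c t * WW 1 0 (t + θ) * WW 1 0 (t + 2 * θ))
        = (Real.sqrt (2 * Real.pi) * Real.sqrt (2 * Real.pi)) * κ ^ 2 * (WW σ c t * WW 1 0 (t + θ) * WW 1 0 (t + 2 * θ)) := by
          rw [h3]
      _ = _ := by ring
  rw [e2]
  have hf : ∀ w h : ℝ, IsFiniteMeasure (up w h (muL 1 w)) := upL_fin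
  have hfun : (fun w : ℝ => TT (κ * Real.exp (-w)) (muL σ (w + c)) (up w (h1 * Real.exp (-w)) (muL 1 w))
        (up w (h2 * Real.exp (-w)) (muL 1 w)) θ) = fun w =>
      ∫ t, WW σ c t * (gsm (κ * Real.exp (-w)) (up w (h1 * Real.exp (-w)) (muL 1 w)) (w + (t + θ)) *
        gsm (κ * Real.exp (-w)) (up w (h2 * Real.exp (-w)) (muL 1 w)) (w + (t + 2 * θ))) := funext e1
  rw [hfun]
  refine tendsto_integral_filter_of_dominated_convergence
    (fun t => WW σ c t * ((Real.sqrt (2 * Real.pi) * κ) * (Real.sqrt (2 * Real.pi) * κ))) ?_ ?_ ?_ ?_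
  · refine Eventually.of_forall fun w => Continuous.aestronglyMeasurable ?_
    have := hf w (h1 * Real.exp (-w))
    have := hf w (h2 * Real.exp (-w))
    have c1 := gsm_cont (κ * Real.exp (-w)) (up w (h1 * Real.exp (-w)) (muL 1 w))
    have c2 := gsm_cont (κ * Real.exp (-w)) (up w (h2 * Real.exp (-w)) (muL 1 w))
    exact (WW_cont σ c).mul ((c1.comp (by fun_prop)).mul (c2.comp (by fun_prop)))
  · refine Eventually.of_forall fun w => Eventually.of_forall fun t => ?_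
    rw [norm_mul, norm_mul, Real.norm_eq_abs, Real.norm_eq_abs, Real.norm_eq_abs, abs_of_nonneg (WW_nonneg _ _ _),
      abs_of_nonneg (gsm_nonneg _ _ _), abs_of_nonneg (gsm_nonneg _ _ _)]
    exact mul_le_mul_of_nonneg_left (mul_le_mul (gL_le hκ _ _ _) (gL_le hκ _ _ _) (gsm_nonneg _ _ _) (by positivity))
      (WW_nonneg _ _ _)
  · exact (WW_int hσ c).1.mul_const _
  · exact Eventually.of_forall fun t => ((gL_lim hκ h1 (t + θ)).mul (gL_lim hκ h2 (t + 2 * θ))).const_mul _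

theorem p3_summ {σ κ : ℝ} (w θ c h1 h2 : ℝ) (hσ : 0 < σ) (hσ1 : σ ≤ 1) (hκ : 0 < κ) :
    Summable fun q : ℕ × ℕ × ℕ => tw q.1 * tw q.2.1 * tw q.2.2 * Real.exp (2 * w) *
    (WW σ (w + c) (Real.log q.1) * WW 1 w (Real.log q.2.1) * WW 1 w (Real.log q.2.2)) *
    (WW κ h1 (Real.exp w * (Real.log q.1 + θ - Real.log q.2.1)) *
      WW κ h2 (Real.exp w * (Real.log q.1 + 2 * θ - Real.log q.2.2))) := by
  have s1 := muP_summ hσ hσ1 (w + c)
  have s2 := muP_summ one_pos le_rfl w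
  have n1 : ∀ (σ c : ℝ) (n : ℕ), 0 ≤ tw n * WW σ c (Real.log n) := fun σ c n => mul_nonneg (tw_nonneg n) (WW_nonneg _ _ _)
  have s3 := s2.mul_of_nonneg s2 (n1 _ _) (n1 _ _)
  have s4 := s1.mul_of_nonneg s3 (n1 _ _) (fun q => mul_nonneg (n1 _ _ q.1) (n1 _ _ q.2))
  refine Summable.of_nonneg_of_le (fun q => ?_) (fun q => ?_) (s4.mul_left (Real.exp (2 * w)))
  · have := tw_nonneg q.1
    have := tw_nonneg q.2.1
    have := tw_nonneg q.2.2
    have := WW_nonneg σ (w + c) (Real.log q.1)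
    have := WW_nonneg 1 w (Real.log q.2.1)
    have := WW_nonneg 1 w (Real.log q.2.2)
    have := WW_nonneg κ h1 (Real.exp w * (Real.log q.1 + θ - Real.log q.2.1))
    have := WW_nonneg κ h2 (Real.exp w * (Real.log q.1 + 2 * θ - Real.log q.2.2))
    positivity
  · have e0 : Real.exp (2 * w) * ((tw q.1 * WW σ (w + c) (Real.log q.1)) *
        ((tw q.2.1 * WW 1 w (Real.log q.2.1)) * (tw q.2.2 * WW 1 w (Real.log q.2.2)))) =
        tw q.1 * tw q.2.1 * tw q.2.2 * Real.exp (2 * w) *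
          (WW σ (w + c) (Real.log q.1) * WW 1 w (Real.log q.2.1) * WW 1 w (Real.log q.2.2)) := by ring
    rw [e0]
    refine mul_le_of_le_one_right ?_ (mul_le_one₀ (WW_le_one _ _ _) (WW_nonneg _ _ _) (WW_le_one _ _ _))
    have := tw_nonneg q.1
    have := tw_nonneg q.2.1
    have := tw_nonneg q.2.2
    have := WW_nonneg σ (w + c) (Real.log q.1)
    have := WW_nonneg 1 w (Real.log q.2.1)
    have := WW_nonneg 1 w (Real.log q.2.2)
    positivity

theorem p2_summ {σ κ : ℝ} (w θ c h1 : ℝ) (hσ : 0 < σ) (hσ1 : σ ≤ 1) (hκ : 0 < κ) :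
    Summable fun q : ℕ × ℕ => tw q.1 * tw q.2 * Real.exp w *
    (WW σ (w + c) (Real.log q.1) * WW 1 w (Real.log q.2) * WW 1 w (Real.log q.1 + 2 * θ)) *
    WW κ h1 (Real.exp w * (Real.log q.1 + θ - Real.log q.2)) := by
  have s1 := muP_summ hσ hσ1 (w + c)
  have s2 := muP_summ one_pos le_rfl w
  have n1 : ∀ (σ c : ℝ) (n : ℕ), 0 ≤ tw n * WW σ c (Real.log n) := fun σ c n => mul_nonneg (tw_nonneg n) (WW_nonneg _ _ _)
  have s3 := s1.mul_of_nonneg s2 (n1 _ _) (n1 _ _)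
  refine Summable.of_nonneg_of_le (fun q => ?_) (fun q => ?_) (s3.mul_left (Real.exp w))
  · have := tw_nonneg q.1
    have := tw_nonneg q.2
    have := WW_nonneg σ (w + c) (Real.log q.1)
    have := WW_nonneg 1 w (Real.log q.2)
    have := WW_nonneg 1 w (Real.log q.1 + 2 * θ)
    have := WW_nonneg κ h1 (Real.exp w * (Real.log q.1 + θ - Real.log q.2))
    positivity
  · have e0 : tw q.1 * tw q.2 * Real.exp w *
        (WW σ (w + c) (Real.log q.1) * WW 1 w (Real.log q.2) * WW 1 w (Real.log q.1 + 2 * θ)) *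
        WW κ h1 (Real.exp w * (Real.log q.1 + θ - Real.log q.2)) =
        Real.exp w * ((tw q.1 * WW σ (w + c) (Real.log q.1)) * (tw q.2 * WW 1 w (Real.log q.2))) *
        (WW 1 w (Real.log q.1 + 2 * θ) * WW κ h1 (Real.exp w * (Real.log q.1 + θ - Real.log q.2))) := by ring
    rw [e0]
    refine mul_le_of_le_one_right ?_ (mul_le_one₀ (WW_le_one _ _ _) (WW_nonneg _ _ _) (WW_le_one _ _ _))
    have := tw_nonneg q.1
    have := tw_nonneg q.2
    have := WW_nonneg σ (w + c) (Real.log q.1)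
    have := WW_nonneg 1 w (Real.log q.2)
    positivity

/-- The smoothing of the primes as a series. -/
private theorem gP_eq {κ : ℝ} (hκ : 0 < κ) (w h y : ℝ) :
    gsm (κ * Real.exp (-w)) (up w (h * Real.exp (-w)) (muP 1 w)) y =
      Real.exp w * ∑' m : ℕ, tw m * WW 1 w (Real.log m) * WW κ h (Real.exp w * (y - Real.log m)) := by
  rw [gsm_up]
  congr 1
  unfold gsm
  have : IsFiniteMeasure (muP 1 w) := (muS_fin tw_nonneg (muP_summ one_pos le_rfl w)).1
  have h1 := muS_int tw_nonneg (muP_summ one_pos le_rfl w) (f := fun x : ℝ =>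
    Real.exp (-(y - h * Real.exp (-w) - x) ^ 2 / (2 * (κ * Real.exp (-w)) ^ 2)))
    (gsm_intble (κ * Real.exp (-w)) (muP 1 w) (y - h * Real.exp (-w)))
  have h0 : muP 1 w = muS tw 1 w := rfl
  rw [h0, h1]
  refine tsum_congr fun m => ?_
  rw [smul_eq_mul]
  congr 1
  unfold WW
  congr 1
  have hE : Real.exp (-w) = (Real.exp w)⁻¹ := Real.exp_neg w
  have hE0 : Real.exp w ≠ 0 := (Real.exp_pos w).ne'
  rw [hE]
  field_simp
  ring

private theorem gP_summ {κ : ℝ} (w h y : ℝ) :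
    Summable fun m : ℕ => tw m * WW 1 w (Real.log m) * WW κ h (Real.exp w * (y - Real.log m)) := by
  refine Summable.of_nonneg_of_le (fun m => ?_) (fun m => ?_) (muP_summ one_pos le_rfl w)
  · exact mul_nonneg (mul_nonneg (tw_nonneg m) (WW_nonneg _ _ _)) (WW_nonneg _ _ _)
  · exact mul_le_of_le_one_right (mul_nonneg (tw_nonneg m) (WW_nonneg _ _ _)) (WW_le_one _ _ _)

theorem p3_eq {σ κ : ℝ} (w θ c h1 h2 : ℝ) (hσ : 0 < σ) (hσ1 : σ ≤ 1) (hκ : 0 < κ) :
    TT (κ * Real.exp (-w)) (muP σ (w + c)) (up w (h1 * Real.exp (-w)) (muP 1 w))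
        (up w (h2 * Real.exp (-w)) (muP 1 w)) θ = P3 σ κ w θ c h1 h2 := by
  have := upP_fin w (h1 * Real.exp (-w))
  have := upP_fin w (h2 * Real.exp (-w))
  have : IsFiniteMeasure (muP σ (w + c)) := (muS_fin tw_nonneg (muP_summ hσ hσ1 (w + c))).1
  have c1 := gsm_cont (κ * Real.exp (-w)) (up w (h1 * Real.exp (-w)) (muP 1 w))
  have c2 := gsm_cont (κ * Real.exp (-w)) (up w (h2 * Real.exp (-w)) (muP 1 w))
  have hi : Integrable (fun x => gsm (κ * Real.exp (-w)) (up w (h1 * Real.exp (-w)) (muP 1 w)) (x + θ) *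
      gsm (κ * Real.exp (-w)) (up w (h2 * Real.exp (-w)) (muP 1 w)) (x + 2 * θ)) (muP σ (w + c)) := by
    refine bdd_intble (B := (up w (h1 * Real.exp (-w)) (muP 1 w) Set.univ).toReal *
      (up w (h2 * Real.exp (-w)) (muP 1 w) Set.univ).toReal) ?_ fun x => ?_
    · exact ((c1.comp (by fun_prop)).mul (c2.comp (by fun_prop))).stronglyMeasurable
    · rw [norm_mul, Real.norm_eq_abs, Real.norm_eq_abs, abs_of_nonneg (gsm_nonneg _ _ _), abs_of_nonneg (gsm_nonneg _ _ _)]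
      exact mul_le_mul (gsm_le_mass _ _ _) (gsm_le_mass _ _ _) (gsm_nonneg _ _ _) ENNReal.toReal_nonneg
  unfold TT P3
  rw [(p3_summ w θ c h1 h2 hσ hσ1 hκ).tsum_prod]
  have h0 : muP σ (w + c) = muS tw σ (w + c) := rfl
  rw [h0] at hi ⊢
  rw [muS_int tw_nonneg (muP_summ hσ hσ1 (w + c)) hi]
  refine tsum_congr fun n => ?_
  rw [gP_eq hκ, gP_eq hκ, smul_eq_mul]
  have e1 : ∀ q : ℕ × ℕ, tw n * tw q.1 * tw q.2 * Real.exp (2 * w) *
      (WW σ (w + c) (Real.log n) * WW 1 w (Real.log q.1) * WW 1 w (Real.log q.2)) *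
      (WW κ h1 (Real.exp w * (Real.log n + θ - Real.log q.1)) *
        WW κ h2 (Real.exp w * (Real.log n + 2 * θ - Real.log q.2))) =
      (tw n * WW σ (w + c) (Real.log n) * Real.exp (2 * w)) *
        ((tw q.1 * WW 1 w (Real.log q.1) * WW κ h1 (Real.exp w * (Real.log n + θ - Real.log q.1))) *
        (tw q.2 * WW 1 w (Real.log q.2) * WW κ h2 (Real.exp w * (Real.log n + 2 * θ - Real.log q.2)))) := by
    intro q
    ring
  simp only [e1]
  rw [tsum_mul_left, ← tsum_mul_tsum_of_summable_norm (gP_summ w h1 (Real.log n + θ)).norm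
    (gP_summ w h2 (Real.log n + 2 * θ)).norm]
  have e2 : Real.exp (2 * w) = Real.exp w * Real.exp w := by
    rw [← Real.exp_add]
    congr 1
    ring
  rw [e2]
  ring

/-- `P2` as an integral. -/
private theorem p2_eq {σ κ : ℝ} (w θ c h1 : ℝ) (hσ : 0 < σ) (hσ1 : σ ≤ 1) (hκ : 0 < κ) :
    ∫ x, gsm (κ * Real.exp (-w)) (up w (h1 * Real.exp (-w)) (muP 1 w)) (x + θ) * WW 1 w (x + 2 * θ) ∂(muP σ (w + c)) =
      P2 σ κ w θ c h1 := by
  have := upP_fin w (h1 * Real.exp (-w))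
  have : IsFiniteMeasure (muP σ (w + c)) := (muS_fin tw_nonneg (muP_summ hσ hσ1 (w + c))).1
  have c1 := gsm_cont (κ * Real.exp (-w)) (up w (h1 * Real.exp (-w)) (muP 1 w))
  have c2 := WW_cont 1 w
  have hi : Integrable (fun x => gsm (κ * Real.exp (-w)) (up w (h1 * Real.exp (-w)) (muP 1 w)) (x + θ) *
      WW 1 w (x + 2 * θ)) (muP σ (w + c)) := by
    refine bdd_intble (B := (up w (h1 * Real.exp (-w)) (muP 1 w) Set.univ).toReal * 1) ?_ fun x => ?_
    · exact ((c1.comp (by fun_prop)).mul (c2.comp (by fun_prop))).stronglyMeasurable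
    · rw [norm_mul, Real.norm_eq_abs, Real.norm_eq_abs, abs_of_nonneg (gsm_nonneg _ _ _), abs_of_nonneg (WW_nonneg _ _ _)]
      exact mul_le_mul (gsm_le_mass _ _ _) (WW_le_one _ _ _) (WW_nonneg _ _ _) ENNReal.toReal_nonneg
  unfold P2
  rw [(p2_summ w θ c h1 hσ hσ1 hκ).tsum_prod]
  have h0 : muP σ (w + c) = muS tw σ (w + c) := rfl
  rw [h0] at hi ⊢
  rw [muS_int tw_nonneg (muP_summ hσ hσ1 (w + c)) hi]
  refine tsum_congr fun n => ?_
  rw [gP_eq hκ, smul_eq_mul]
  have e1 : ∀ m : ℕ, tw n * tw m * Real.exp w *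
      (WW σ (w + c) (Real.log n) * WW 1 w (Real.log m) * WW 1 w (Real.log n + 2 * θ)) *
      WW κ h1 (Real.exp w * (Real.log n + θ - Real.log m)) =
      (tw n * WW σ (w + c) (Real.log n) * Real.exp w * WW 1 w (Real.log n + 2 * θ)) *
        (tw m * WW 1 w (Real.log m) * WW κ h1 (Real.exp w * (Real.log n + θ - Real.log m))) := by
    intro m
    ring
  simp only [e1]
  rw [tsum_mul_left]
  ring

theorem p2_lim0 {σ κ : ℝ} (θ c h1 h2 : ℝ) (hσ : 0 < σ) (hσ1 : σ ≤ 1) (hκ : 0 < κ) :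
    Tendsto (fun w : ℝ => TT (κ * Real.exp (-w)) (muP σ (w + c)) (up w (h1 * Real.exp (-w)) (muP 1 w))
        (up w (h2 * Real.exp (-w)) (muL 1 w)) θ - Real.sqrt (2 * Real.pi) * κ * P2 σ κ w θ c h1) atTop (nhds 0) := by
  obtain ⟨C1, hC1, hs⟩ := gL_star hκ h2
  obtain ⟨C2, hC2, hm⟩ := muP_mass
  obtain ⟨E', w0, hw0, hA⟩ := adm_P (σ := 1) |Real.log κ| one_pos le_rfl
  -- the bound
  have hb : ∀ w : ℝ, w0 ≤ w → |c| ≤ w → |TT (κ * Real.exp (-w)) (muP σ (w + c)) (up w (h1 * Real.exp (-w)) (muP 1 w))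
        (up w (h2 * Real.exp (-w)) (muL 1 w)) θ - Real.sqrt (2 * Real.pi) * κ * P2 σ κ w θ c h1| ≤
      (C1 * C2 * 3 ^ 6) * (w ^ (E' + 6) * Real.exp (-1 * w)) := by
    intro w hw hcw
    have := upP_fin w (h1 * Real.exp (-w))
    have := upL_fin w (h2 * Real.exp (-w))
    have hfin : IsFiniteMeasure (muP σ (w + c)) := (hm σ (w + c) hσ hσ1).1
    have c1 := gsm_cont (κ * Real.exp (-w)) (up w (h1 * Real.exp (-w)) (muP 1 w))
    have c2 := gsm_cont (κ * Real.exp (-w)) (up w (h2 * Real.exp (-w)) (muL 1 w))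
    have c3 := WW_cont 1 w
    have hi1 : Integrable (fun x => gsm (κ * Real.exp (-w)) (up w (h1 * Real.exp (-w)) (muP 1 w)) (x + θ) *
        gsm (κ * Real.exp (-w)) (up w (h2 * Real.exp (-w)) (muL 1 w)) (x + 2 * θ)) (muP σ (w + c)) := by
      refine bdd_intble (B := (up w (h1 * Real.exp (-w)) (muP 1 w) Set.univ).toReal *
        (up w (h2 * Real.exp (-w)) (muL 1 w) Set.univ).toReal) ?_ fun x => ?_
      · exact ((c1.comp (by fun_prop)).mul (c2.comp (by fun_prop))).stronglyMeasurable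
      · rw [norm_mul, Real.norm_eq_abs, Real.norm_eq_abs, abs_of_nonneg (gsm_nonneg _ _ _), abs_of_nonneg (gsm_nonneg _ _ _)]
        exact mul_le_mul (gsm_le_mass _ _ _) (gsm_le_mass _ _ _) (gsm_nonneg _ _ _) ENNReal.toReal_nonneg
    have hi2 : Integrable (fun x => gsm (κ * Real.exp (-w)) (up w (h1 * Real.exp (-w)) (muP 1 w)) (x + θ) *
        WW 1 w (x + 2 * θ)) (muP σ (w + c)) := by
      refine bdd_intble (B := (up w (h1 * Real.exp (-w)) (muP 1 w) Set.univ).toReal * 1) ?_ fun x => ?_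
      · exact ((c1.comp (by fun_prop)).mul (c3.comp (by fun_prop))).stronglyMeasurable
      · rw [norm_mul, Real.norm_eq_abs, Real.norm_eq_abs, abs_of_nonneg (gsm_nonneg _ _ _), abs_of_nonneg (WW_nonneg _ _ _)]
        exact mul_le_mul (gsm_le_mass _ _ _) (WW_le_one _ _ _) (WW_nonneg _ _ _) ENNReal.toReal_nonneg
    rw [← p2_eq w θ c h1 hσ hσ1 hκ, ← integral_const_mul]
    unfold TT
    rw [← integral_sub hi1 (hi2.const_mul _)]
    have hw1 : (1 : ℝ) ≤ w := hw0.trans hw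
    have hw00 : (0 : ℝ) < w := by linarith
    -- admissibility
    have hadm : Adm (κ * Real.exp (-w)) (w ^ E') (up w (h1 * Real.exp (-w)) (muP 1 w)) := by
      refine hA w w (κ * Real.exp (-w)) (h1 * Real.exp (-w)) hw ?_ ?_ ?_
      · rw [sub_self, abs_zero]
        exact abs_nonneg _
      · have : Real.exp (-w - |Real.log κ|) = Real.exp (-|Real.log κ|) * Real.exp (-w) := by
          rw [← Real.exp_add]
          congr 1
          ring
        rw [this]
        refine mul_le_mul_of_nonneg_right ?_ (Real.exp_pos _).le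
        calc Real.exp (-|Real.log κ|) ≤ Real.exp (Real.log κ) := Real.exp_le_exp.mpr (neg_abs_le _)
          _ = κ := Real.exp_log hκ
      · have : Real.exp (-w + |Real.log κ|) = Real.exp |Real.log κ| * Real.exp (-w) := by
          rw [← Real.exp_add]
          congr 1
          ring
        rw [this]
        refine mul_le_mul_of_nonneg_right ?_ (Real.exp_pos _).le
        calc κ = Real.exp (Real.log κ) := (Real.exp_log hκ).symm
          _ ≤ Real.exp |Real.log κ| := Real.exp_le_exp.mpr (le_abs_self _)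
    have hE0 : 0 ≤ w ^ E' := Real.rpow_nonneg hw00.le _
    have hpt : ∀ x : ℝ, ‖gsm (κ * Real.exp (-w)) (up w (h1 * Real.exp (-w)) (muP 1 w)) (x + θ) *
        gsm (κ * Real.exp (-w)) (up w (h2 * Real.exp (-w)) (muL 1 w)) (x + 2 * θ) - Real.sqrt (2 * Real.pi) * κ *
        (gsm (κ * Real.exp (-w)) (up w (h1 * Real.exp (-w)) (muP 1 w)) (x + θ) * WW 1 w (x + 2 * θ))‖ ≤
        w ^ E' * (C1 * Real.exp (-w)) := by
      intro x
      have e1 : gsm (κ * Real.exp (-w)) (up w (h1 * Real.exp (-w)) (muP 1 w)) (x + θ) *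
        gsm (κ * Real.exp (-w)) (up w (h2 * Real.exp (-w)) (muL 1 w)) (x + 2 * θ) - Real.sqrt (2 * Real.pi) * κ *
        (gsm (κ * Real.exp (-w)) (up w (h1 * Real.exp (-w)) (muP 1 w)) (x + θ) * WW 1 w (x + 2 * θ)) =
        gsm (κ * Real.exp (-w)) (up w (h1 * Real.exp (-w)) (muP 1 w)) (x + θ) *
        (gsm (κ * Real.exp (-w)) (up w (h2 * Real.exp (-w)) (muL 1 w)) (x + 2 * θ) - Real.sqrt (2 * Real.pi) * κ *
        WW 1 w (x + 2 * θ)) := by ring
      rw [e1, norm_mul, Real.norm_eq_abs, Real.norm_eq_abs, abs_of_nonneg (gsm_nonneg _ _ _)]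
      exact mul_le_mul (hadm.2.1 _) (hs w _) (abs_nonneg _) hE0
    have h3 : ‖∫ x, (gsm (κ * Real.exp (-w)) (up w (h1 * Real.exp (-w)) (muP 1 w)) (x + θ) *
        gsm (κ * Real.exp (-w)) (up w (h2 * Real.exp (-w)) (muL 1 w)) (x + 2 * θ) - Real.sqrt (2 * Real.pi) * κ *
        (gsm (κ * Real.exp (-w)) (up w (h1 * Real.exp (-w)) (muP 1 w)) (x + θ) * WW 1 w (x + 2 * θ))) ∂(muP σ (w + c))‖ ≤
        w ^ E' * (C1 * Real.exp (-w)) * (muP σ (w + c) Set.univ).toReal :=
      norm_integral_le_of_norm_le_const (Eventually.of_forall hpt)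
    rw [Real.norm_eq_abs] at h3
    refine h3.trans ?_
    have h4 : (muP σ (w + c) Set.univ).toReal ≤ C2 * (3 * w) ^ 6 := by
      refine (hm σ (w + c) hσ hσ1).2.trans ?_
      refine mul_le_mul_of_nonneg_left ?_ (by linarith)
      refine pow_le_pow_left₀ (by positivity) ?_ 6
      have h5 : |w + c| ≤ |w| + |c| := abs_add_le _ _
      rw [abs_of_pos hw00] at h5
      linarith
    calc w ^ E' * (C1 * Real.exp (-w)) * (muP σ (w + c) Set.univ).toReal
        ≤ w ^ E' * (C1 * Real.exp (-w)) * (C2 * (3 * w) ^ 6) := mul_le_mul_of_nonneg_left h4 (by positivity)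
      _ = (C1 * C2 * 3 ^ 6) * (w ^ (E' + 6) * Real.exp (-1 * w)) := by
          have h6 : w ^ (E' + 6) = w ^ E' * w ^ (6 : ℕ) := by
            rw [← Real.rpow_natCast w 6, ← Real.rpow_add hw00]
            norm_num
          rw [h6, neg_one_mul]
          ring
  have hl : Tendsto (fun w : ℝ => (C1 * C2 * 3 ^ 6) * (w ^ (E' + 6) * Real.exp (-1 * w))) atTop (nhds 0) := by
    have := (tendsto_rpow_mul_exp_neg_mul_atTop_nhds_zero (E' + 6) 1 one_pos).const_mul (C1 * C2 * 3 ^ 6)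
    rwa [mul_zero] at this
  refine squeeze_zero_norm' ?_ hl
  filter_upwards [eventually_ge_atTop w0, eventually_ge_atTop |c|] with w h3 h4
  rw [Real.norm_eq_abs]
  exact hb w h3 h4

end HLA
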