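import Pool.Agent.HLA.E3
import Pool.Agent.HLA.TTl

/-!
# HLA.AE: almost every `θ` is good

PROOF. Fix `n`, `σ`, `κ`, `c`, `h1`, `h2` (countably many) and `m ∈ ℕ`; `w_j = j/n`. By `e3` (with `A = 2`) `∑_j ∫_{[-m,m]} |TT(P,P,P) - TT(L,L,L)| dθ < ∞` (from some `j` on the terms are
`≤ (j/n)^(-2)`), so `∑_j |..|(θ) < ∞` for almost every `θ ∈ [-m, m]` (`lintegral_tsum`, `ae_lt_top`; the functions are continuous, `tt_cont` with `adm_P`, `adm_L`), so the difference tends to `0`;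
`tt_lim` and `p3_eq`. The same with `e2`, `p2_lim0` for `P2`: `√(2π) κ P2 → 2π κ² lim3`, divide by `√(2π) κ`. (`h2 = 0` there.)
-/

namespace HLA

open MeasureTheory ArithmeticFunction SMC Filter

/-- Borel-Cantelli on one interval. -/
private theorem AE_bc1 (D : ℕ → ℝ → ℝ) (s : Set ℝ) (hs : IsCompact s) {n : ℕ} (hn : 1 ≤ n) (j0 : ℕ)
    (hc : ∀ j, j0 ≤ j → Continuous (D j))
    (hi : ∀ j, j0 ≤ j → ∫ θ in s, |D j θ| ≤ ((j : ℝ) / n) ^ (-2 : ℝ)) :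
    ∀ᵐ θ ∂(volume.restrict s), Tendsto (fun j => D j θ) atTop (nhds 0) := by
  have hn0 : (0 : ℝ) < n := by exact_mod_cast hn
  have hint : ∀ j, j0 ≤ j → IntegrableOn (fun θ => |D j θ|) s := fun j hj =>
    ((hc j hj).abs.continuousOn).integrableOn_compact hs
  have hsum : Summable fun j : ℕ => ((j + (j0 + 1) : ℕ) : ℝ) ^ (-2 : ℝ) := by
    have h1 : Summable fun j : ℕ => (j : ℝ) ^ (-2 : ℝ) := Real.summable_nat_rpow.2 (by norm_num)
    exact (summable_nat_add_iff (j0 + 1)).2 h1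
  have hsum2 : Summable fun j : ℕ => ((((j + (j0 + 1) : ℕ) : ℝ)) / n) ^ (-2 : ℝ) := by
    refine (hsum.mul_right ((n : ℝ) ^ (2 : ℝ))).congr fun j => ?_
    rw [Real.div_rpow (Nat.cast_nonneg _) hn0.le, Real.rpow_neg hn0.le, div_inv_eq_mul]
  have hF : ∀ j : ℕ, AEMeasurable (fun θ => ENNReal.ofReal |D (j + (j0 + 1)) θ|) (volume.restrict s) := fun j =>
    (((hc (j + (j0 + 1)) (by omega)).abs).measurable.ennreal_ofReal).aemeasurable
  have hfin : ∫⁻ θ in s, ∑' j : ℕ, ENNReal.ofReal |D (j + (j0 + 1)) θ| ≠ ⊤ := by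
    rw [lintegral_tsum hF]
    have hle : ∀ j : ℕ, ∫⁻ θ in s, ENNReal.ofReal |D (j + (j0 + 1)) θ| ≤
        ENNReal.ofReal (((((j + (j0 + 1) : ℕ) : ℝ)) / n) ^ (-2 : ℝ)) := by
      intro j
      rw [← ofReal_integral_eq_lintegral_ofReal (hint _ (by omega)) (Eventually.of_forall fun θ => abs_nonneg _)]
      exact ENNReal.ofReal_le_ofReal (hi _ (by omega))
    refine ne_top_of_le_ne_top ?_ (ENNReal.tsum_le_tsum hle)
    exact hsum2.tsum_ofReal_ne_top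
  have hlt : ∀ᵐ θ ∂(volume.restrict s), ∑' j : ℕ, ENNReal.ofReal |D (j + (j0 + 1)) θ| < ⊤ :=
    ae_lt_top' (AEMeasurable.ennreal_tsum hF) hfin
  filter_upwards [hlt] with θ hθ
  have h1 : Tendsto (fun j : ℕ => ENNReal.ofReal |D (j + (j0 + 1)) θ|) atTop (nhds 0) :=
    ENNReal.tendsto_atTop_zero_of_tsum_ne_top hθ.ne
  have h2 : Tendsto (fun j : ℕ => (ENNReal.ofReal |D (j + (j0 + 1)) θ|).toReal) atTop (nhds (0 : ENNReal).toReal) :=
    (ENNReal.tendsto_toReal ENNReal.zero_ne_top).comp h1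
  simp only [ENNReal.toReal_ofReal (abs_nonneg _), ENNReal.toReal_zero] at h2
  have h3 : Tendsto (fun j : ℕ => D (j + (j0 + 1)) θ) atTop (nhds 0) := (tendsto_zero_iff_abs_tendsto_zero _).2 h2
  exact (tendsto_add_atTop_iff_nat (j0 + 1)).1 h3

/-- Borel-Cantelli. -/
private theorem AE_bc (D : ℕ → ℝ → ℝ) {n : ℕ} (hn : 1 ≤ n) (j0 : ℕ) (hc : ∀ j, j0 ≤ j → Continuous (D j))
    (hi : ∀ m : ℕ, ∃ j1 : ℕ, ∀ j, j1 ≤ j → ∫ θ in Set.Icc (-(m : ℝ)) m, |D j θ| ≤ ((j : ℝ) / n) ^ (-2 : ℝ)) :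
    ∀ᵐ θ : ℝ, Tendsto (fun j => D j θ) atTop (nhds 0) := by
  have h1 : ∀ m : ℕ, ∀ᵐ θ : ℝ, θ ∈ Set.Icc (-(m : ℝ)) m → Tendsto (fun j => D j θ) atTop (nhds 0) := by
    intro m
    obtain ⟨j1, hj1⟩ := hi m
    have h2 := AE_bc1 D (Set.Icc (-(m : ℝ)) m) isCompact_Icc hn (max j0 j1)
      (fun j hj => hc j ((le_max_left _ _).trans hj)) (fun j hj => hj1 j ((le_max_right _ _).trans hj))
    exact (ae_restrict_iff' measurableSet_Icc).1 h2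
  filter_upwards [ae_all_iff.2 h1] with θ hθ
  obtain ⟨m, hm⟩ := exists_nat_ge |θ|
  exact hθ m ⟨(abs_le.1 hm).1, (abs_le.1 hm).2⟩

/-- Admissibility of the measures in the slots. -/
private theorem AE_adm {κ : ℝ} (hκ : 0 < κ) : ∃ w0 : ℝ, 1 ≤ w0 ∧ ∀ w : ℝ, w0 ≤ w → ∃ B : ℝ, ∀ h : ℝ,
    Adm (κ * Real.exp (-w)) B (up w h (muP 1 w)) ∧ Adm (κ * Real.exp (-w)) B (up w h (muL 1 w)) := by
  obtain ⟨E', w1, hw1, hA⟩ := adm_P (σ := 1) |Real.log κ| one_pos le_rfl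
  obtain ⟨w2, hw2, hL⟩ := adm_L (σ := 1) |Real.log κ| one_pos le_rfl
  refine ⟨max w1 w2, hw1.trans (le_max_left _ _), fun w hw => ⟨max (w ^ E') w, fun h => ?_⟩⟩
  have a1 : Real.exp (-w - |Real.log κ|) ≤ κ * Real.exp (-w) := by
    have : Real.exp (-w - |Real.log κ|) = Real.exp (-|Real.log κ|) * Real.exp (-w) := by
      rw [← Real.exp_add]
      congr 1
      ring
    rw [this]
    refine mul_le_mul_of_nonneg_right ?_ (Real.exp_pos _).le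
    calc Real.exp (-|Real.log κ|) ≤ Real.exp (Real.log κ) := Real.exp_le_exp.mpr (neg_abs_le _)
      _ = κ := Real.exp_log hκ
  have a2 : κ * Real.exp (-w) ≤ Real.exp (-w + |Real.log κ|) := by
    have : Real.exp (-w + |Real.log κ|) = Real.exp |Real.log κ| * Real.exp (-w) := by
      rw [← Real.exp_add]
      congr 1
      ring
    rw [this]
    refine mul_le_mul_of_nonneg_right ?_ (Real.exp_pos _).le
    calc κ = Real.exp (Real.log κ) := (Real.exp_log hκ).symm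
      _ ≤ Real.exp |Real.log κ| := Real.exp_le_exp.mpr (le_abs_self _)
  refine ⟨adm_mono (hA w w _ h ((le_max_left _ _).trans hw) ?_ a1 a2) (le_max_left _ _),
    adm_mono (hL w w _ h ((le_max_right _ _).trans hw) a1 a2) (le_max_right _ _)⟩
  rw [sub_self, abs_zero]
  exact abs_nonneg _

/-- `j / n` is eventually large. -/
private theorem AE_div {n : ℕ} (hn : 1 ≤ n) (w0 : ℝ) : ∃ j0 : ℕ, ∀ j : ℕ, j0 ≤ j → w0 ≤ (j : ℝ) / n := by
  have hn0 : (0 : ℝ) < n := by exact_mod_cast hn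
  obtain ⟨j0, hj0⟩ := exists_nat_ge (w0 * n)
  refine ⟨j0, fun j hj => ?_⟩
  rw [le_div_iff₀ hn0]
  exact hj0.trans (by exact_mod_cast hj)

private theorem AE_tend {n : ℕ} (hn : 1 ≤ n) : Tendsto (fun j : ℕ => (j : ℝ) / n) atTop atTop := by
  have hn0 : (0 : ℝ) < n := by exact_mod_cast hn
  exact tendsto_natCast_atTop_atTop.atTop_div_const hn0

private theorem AE_p3 {n : ℕ} (hn : 1 ≤ n) {σ κ : ℝ} (c h1 h2 : ℝ) (hσ : 0 < σ) (hσ1 : σ ≤ 1) (hκ : 0 < κ) :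
    ∀ᵐ θ : ℝ, Tendsto (fun j : ℕ => P3 σ κ ((j : ℝ) / n) θ c h1 h2) atTop (nhds (2 * Real.pi * κ ^ 2 * lim3 σ θ c)) := by
  obtain ⟨w0, hw0, hadm⟩ := AE_adm hκ
  obtain ⟨j0, hj0⟩ := AE_div hn w0
  have hfP : ∀ w : ℝ, IsFiniteMeasure (muP σ (w + c)) := by
    obtain ⟨C, -, hC⟩ := muP_mass
    exact fun w => (hC σ (w + c) hσ hσ1).1
  have hfL : ∀ w : ℝ, IsFiniteMeasure (muL σ (w + c)) := fun w => (muL_fin hσ (w + c)).1
  have h3 := AE_bc (fun (j : ℕ) θ => TT (κ * Real.exp (-((j : ℝ) / n))) (muP σ ((j : ℝ) / n + c))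
      (up ((j : ℝ) / n) (h1 * Real.exp (-((j : ℝ) / n))) (muP 1 ((j : ℝ) / n)))
      (up ((j : ℝ) / n) (h2 * Real.exp (-((j : ℝ) / n))) (muP 1 ((j : ℝ) / n))) θ -
    TT (κ * Real.exp (-((j : ℝ) / n))) (muL σ ((j : ℝ) / n + c))
      (up ((j : ℝ) / n) (h1 * Real.exp (-((j : ℝ) / n))) (muL 1 ((j : ℝ) / n)))
      (up ((j : ℝ) / n) (h2 * Real.exp (-((j : ℝ) / n))) (muL 1 ((j : ℝ) / n))) θ) hn j0 ?_ ?_
  · filter_upwards [h3] with θ hθ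
    have h4 := (tt_lim (σ := σ) (κ := κ) θ c h1 h2 hσ hκ).comp (AE_tend hn)
    have h5 := hθ.add h4
    rw [zero_add] at h5
    refine h5.congr fun j => ?_
    simp only [Function.comp_apply]
    rw [sub_add_cancel, p3_eq _ _ _ _ _ hσ hσ1 hκ]
  · intro j hj
    obtain ⟨B, hB⟩ := hadm _ (hj0 j hj)
    have hδ0 : 0 < κ * Real.exp (-((j : ℝ) / n)) := mul_pos hκ (Real.exp_pos _)
    have := hfP ((j : ℝ) / n)
    have := hfL ((j : ℝ) / n)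
    exact (tt_cont hδ0 (hB _).1 (hB _).1).sub (tt_cont hδ0 (hB _).2 (hB _).2)
  · intro m
    obtain ⟨w1, hw1, he⟩ := e3 (σ := σ) (κ := κ) c h1 h2 (-(m : ℝ)) m 2 hσ hσ1 hκ
    obtain ⟨j1, hj1⟩ := AE_div hn w1
    exact ⟨j1, fun j hj => he _ (hj1 j hj)⟩

private theorem AE_p2 {n : ℕ} (hn : 1 ≤ n) {σ κ : ℝ} (c h1 : ℝ) (hσ : 0 < σ) (hσ1 : σ ≤ 1) (hκ : 0 < κ) :
    ∀ᵐ θ : ℝ, Tendsto (fun j : ℕ => P2 σ κ ((j : ℝ) / n) θ c h1) atTop
      (nhds (Real.sqrt (2 * Real.pi) * κ * lim3 σ θ c)) := by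
  obtain ⟨w0, hw0, hadm⟩ := AE_adm hκ
  obtain ⟨j0, hj0⟩ := AE_div hn w0
  have hfP : ∀ w : ℝ, IsFiniteMeasure (muP σ (w + c)) := by
    obtain ⟨C, -, hC⟩ := muP_mass
    exact fun w => (hC σ (w + c) hσ hσ1).1
  have hfL : ∀ w : ℝ, IsFiniteMeasure (muL σ (w + c)) := fun w => (muL_fin hσ (w + c)).1
  have h3 := AE_bc (fun (j : ℕ) θ => TT (κ * Real.exp (-((j : ℝ) / n))) (muP σ ((j : ℝ) / n + c))
      (up ((j : ℝ) / n) (h1 * Real.exp (-((j : ℝ) / n))) (muP 1 ((j : ℝ) / n)))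
      (up ((j : ℝ) / n) (0 * Real.exp (-((j : ℝ) / n))) (muL 1 ((j : ℝ) / n))) θ -
    TT (κ * Real.exp (-((j : ℝ) / n))) (muL σ ((j : ℝ) / n + c))
      (up ((j : ℝ) / n) (h1 * Real.exp (-((j : ℝ) / n))) (muL 1 ((j : ℝ) / n)))
      (up ((j : ℝ) / n) (0 * Real.exp (-((j : ℝ) / n))) (muL 1 ((j : ℝ) / n))) θ) hn j0 ?_ ?_
  · filter_upwards [h3] with θ hθ
    have h4 := (tt_lim (σ := σ) (κ := κ) θ c h1 0 hσ hκ).comp (AE_tend hn)
    have h5 := (p2_lim0 (σ := σ) (κ := κ) θ c h1 0 hσ hσ1 hκ).comp (AE_tend hn)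
    have h6 := (hθ.add h4).sub h5
    have hp : (0 : ℝ) < Real.sqrt (2 * Real.pi) * κ := by positivity
    have h7 := h6.const_mul (Real.sqrt (2 * Real.pi) * κ)⁻¹
    have e1 : (Real.sqrt (2 * Real.pi) * κ)⁻¹ * (0 + 2 * Real.pi * κ ^ 2 * lim3 σ θ c - 0) =
        Real.sqrt (2 * Real.pi) * κ * lim3 σ θ c := by
      have h8 : 2 * Real.pi = Real.sqrt (2 * Real.pi) * Real.sqrt (2 * Real.pi) :=
        (Real.mul_self_sqrt (by positivity)).symm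
      rw [inv_mul_eq_iff_eq_mul₀ hp.ne', zero_add, sub_zero]
      calc 2 * Real.pi * κ ^ 2 * lim3 σ θ c = (Real.sqrt (2 * Real.pi) * Real.sqrt (2 * Real.pi)) * κ ^ 2 * lim3 σ θ c := by
            rw [← h8]
        _ = _ := by ring
    rw [e1] at h7
    refine h7.congr fun j => ?_
    simp only [Function.comp_apply]
    rw [inv_mul_eq_iff_eq_mul₀ hp.ne']
    ring
  · intro j hj
    obtain ⟨B, hB⟩ := hadm _ (hj0 j hj)
    have hδ0 : 0 < κ * Real.exp (-((j : ℝ) / n)) := mul_pos hκ (Real.exp_pos _)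
    have := hfP ((j : ℝ) / n)
    have := hfL ((j : ℝ) / n)
    exact (tt_cont hδ0 (hB _).1 (hB _).2).sub (tt_cont hδ0 (hB _).2 (hB _).2)
  · intro m
    obtain ⟨w1, hw1, he⟩ := e2 (σ := σ) (κ := κ) c h1 0 (-(m : ℝ)) m 2 hσ hσ1 hκ
    obtain ⟨j1, hj1⟩ := AE_div hn w1
    exact ⟨j1, fun j hj => he _ (hj1 j hj)⟩

theorem ae_good : ∀ᵐ θ : ℝ, Good θ := by
  unfold Good
  refine ae_all_iff.2 fun n => eventually_imp_distrib_left.2 fun hn => ?_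
  refine ae_all_iff.2 fun σ => ae_all_iff.2 fun κ => ae_all_iff.2 fun c => ae_all_iff.2 fun h1 =>
    ae_all_iff.2 fun h2 => ?_
  refine eventually_imp_distrib_left.2 fun hσ => eventually_imp_distrib_left.2 fun hσ1 =>
    eventually_imp_distrib_left.2 fun hκ => eventually_imp_distrib_left.2 fun _ => ?_
  have a1 : (0 : ℝ) < (σ : ℝ) := by exact_mod_cast hσ
  have a2 : (σ : ℝ) ≤ 1 := by exact_mod_cast hσ1
  have a3 : (0 : ℝ) < (κ : ℝ) := by exact_mod_cast hκ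
  exact (AE_p3 hn (c : ℝ) h1 h2 a1 a2 a3).and (AE_p2 hn (c : ℝ) h1 a1 a2 a3)

end HLA
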