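import Pool.Agent.HLA.MMl
import Pool.Agent.SMD.SecM4

/-!
# HLA.MFour: few chains of at least four primes

PROOF. `m4_rat`: fix `A = 1 + 1/(i+1) < B = i + 3`, `β` rational, `γ = β - r`, `r` a natural number. `SMD.sec_m4` with `μ = 1`, `σ = 1/12`, `a = A`, `b = B`: for large `w`
`∫_{[A,B]} N4 β γ (1/12) w 1 t ² dt ≤ C e^(2w)/w^8`. With `w = j/2` the sum over `j` of the integrals of `N4 ² e^(-j) j^6` is finite: for almost every `t`
`N4 β γ (1/12) (j/2) 1 t j^3 e^(-j/2) → 0` for all the (countably many) `β`, `r`. Chains `q0, q1, q2, q3` of primes of `T = T t β`, `q0 ≤ X`: with `m = q1`: `q2 = ⌊t m + β⌋₊`,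
`q0 = ⌈(m - β)/t⌉₊`, `q3 = ⌊t q2 + β⌋₊ = ⌊t² m + t β + (β - r)⌋₊` with `0 ≤ r < t + 1`, `m ≤ t X + |β|`; `m` determines `q0`, and `|log m - j/2| ≤ 1/3` for some `j`. So
`MM t β 4 X ≤ ∑_r ∑_{j ≤ J} N4 β (β-r) (1/12) (j/2) 1 t`, `J = ⌊2 log (t X + |β|) + 1/2⌋`, and this is `o (e^(J/2) J^(-3))`.
`m4_all`: `δ > 0`, choose a rational `β1 ∈ (β - δ, β)`. Let `q0, .., q3` be primes, `q_{i+1} = T α β q_i`, `q0 ≤ X`. If `α q_i + β1 ≥ q_{i+1}` for `i = 0, 1, 2`, then `T α β1 q_i = q_{i+1}`, counted by `MM α β1 4 X`. Otherwise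
`α q_i - q_{i+1} ∈ [-β, -β + δ]` for some `i`; `i = 0, 1`: the triple `(q0, q1, q2)` is counted by `Tr3 α (-β) (-β+δ) (-β) (1-β) (X+1)` or `Tr3 α (-β) (1-β) (-β) (-β+δ) (X+1)`; `i = 2`: `(q1, q2, q3)` is counted by
`Tr3 α (-β) (1-β) (-β) (-β+δ) (α X + |β| + 1)`, and `q0` is determined by `q1`.
-/

namespace HLA

open MeasureTheory ArithmeticFunction SMC Filter

/-! ### chains -/

private theorem mf_step {α β : ℝ} {q : ℕ} (h : (T α β q).Prime) :
    (T α β q : ℝ) ≤ α * q + β ∧ α * q + β < T α β q + 1 := by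
  unfold T at *
  have h1 : 0 < ⌊α * q + β⌋₊ := h.pos
  have h2 : 1 ≤ α * q + β := Nat.floor_pos.1 h1
  exact ⟨Nat.floor_le (by linarith), Nat.lt_floor_add_one _⟩

private theorem mf_pred {α β : ℝ} {p m : ℕ} (hα : 1 < α) (hp : p ≠ 0) (h1 : (m : ℝ) ≤ α * p + β)
    (h2 : α * p + β < m + 1) : ⌈((m : ℝ) - β) / α⌉₊ = p := by
  have ht0 : 0 < α := by linarith
  have hp1 : 1 ≤ p := Nat.one_le_iff_ne_zero.mpr hp
  rw [Nat.ceil_eq_iff hp]
  constructor
  · rw [Nat.cast_sub hp1, Nat.cast_one, lt_div_iff₀ ht0]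
    nlinarith
  · rw [div_le_iff₀ ht0]
    nlinarith

private theorem mf_iter {α β : ℝ} {p : ℕ} (h : ∀ i < 4, ((T α β)^[i] p).Prime) :
    p.Prime ∧ (T α β p).Prime ∧ (T α β (T α β p)).Prime ∧ (T α β (T α β (T α β p))).Prime :=
  ⟨h 0 (by norm_num), h 1 (by norm_num), h 2 (by norm_num), h 3 (by norm_num)⟩

open Classical in
/-- the starting points of the chains -/
private noncomputable def mfA (α β X : ℝ) : Finset ℕ :=
  (Finset.Icc 1 ⌊X⌋₊).filter fun p : ℕ => ∀ i < 4, ((T α β)^[i] p).Prime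

private theorem mfA_card (α β X : ℝ) : MM α β 4 X = (mfA α β X).card := by
  unfold MM mfA
  congr

private theorem mfA_mem {α β X : ℝ} {p : ℕ} :
    p ∈ mfA α β X ↔ (1 ≤ p ∧ p ≤ ⌊X⌋₊) ∧ ∀ i < 4, ((T α β)^[i] p).Prime := by
  simp only [mfA, Finset.mem_filter, Finset.mem_Icc]

open Classical in
private noncomputable def mfS (β γ w t : ℝ) : Finset ℕ :=
  (Finset.Icc 1 ⌊Real.exp (w + Real.log 1 + 4 * (1 / 12))⌋₊).filter fun m : ℕ =>
    m.Prime ∧ |Real.log m - w - Real.log 1| ≤ 4 * (1 / 12) ∧ (⌊t * m + β⌋₊).Prime ∧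
      (⌈(m - β) / t⌉₊).Prime ∧ (⌊t ^ 2 * m + t * β + γ⌋₊).Prime

private theorem mfS_card (β γ w t : ℝ) : (mfS β γ w t).card = SMD.N4 β γ (1 / 12) w 1 t := rfl

private theorem mf_mem {t β : ℝ} (ht : 1 < t) {p : ℕ} (hp : p.Prime) (h1 : (T t β p).Prime)
    (h2 : (T t β (T t β p)).Prime) (h3 : (T t β (T t β (T t β p))).Prime) :
    ∃ r : ℕ, (r : ℝ) < t + 1 ∧
      T t β p ∈ mfS β (β - r) ((⌊2 * Real.log (T t β p : ℝ) + 1 / 2⌋₊ : ℝ) / 2) t := by
  set m := T t β p with hm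
  set l := T t β m with hl
  set s := T t β l with hs
  obtain ⟨a1, a2⟩ := mf_step h1
  obtain ⟨b1, b2⟩ := mf_step h2
  obtain ⟨c1, c2⟩ := mf_step h3
  rw [← hm] at a1 a2
  rw [← hl] at b1 b2
  rw [← hs] at c1 c2
  have ht0 : 0 < t := by linarith
  have e1 : (s : ℝ) ≤ t ^ 2 * m + t * β + β := by
    have : t * l ≤ t * (t * m + β) := mul_le_mul_of_nonneg_left b1 ht0.le
    nlinarith
  have e2 : t ^ 2 * m + t * β + β < s + (t + 1) := by
    have : t * (t * m + β) ≤ t * (l + 1) := mul_le_mul_of_nonneg_left b2.le ht0.le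
    nlinarith
  have e3 : 0 ≤ t ^ 2 * m + t * β + β - s := by linarith
  set r := ⌊t ^ 2 * m + t * β + β - s⌋₊ with hr
  have e4 := Nat.floor_le e3
  have e5 := Nat.lt_floor_add_one (t ^ 2 * m + t * β + β - s)
  rw [← hr] at e4 e5
  have hs0 : (0 : ℝ) ≤ s := Nat.cast_nonneg s
  refine ⟨r, by linarith, ?_⟩
  have hm2 : (2 : ℝ) ≤ m := by exact_mod_cast h1.two_le
  have hm0 : (0 : ℝ) < m := by linarith
  have hlog : 0 ≤ Real.log (m : ℝ) := Real.log_nonneg (by linarith)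
  have f1 := Nat.floor_le (show 0 ≤ 2 * Real.log (m : ℝ) + 1 / 2 by linarith)
  have f2 := Nat.lt_floor_add_one (2 * Real.log (m : ℝ) + 1 / 2)
  set j := ⌊2 * Real.log (m : ℝ) + 1 / 2⌋₊ with hj
  unfold mfS
  rw [Finset.mem_filter, Finset.mem_Icc]
  refine ⟨⟨h1.one_lt.le, ?_⟩, h1, ?_, ?_, ?_, ?_⟩
  · apply Nat.le_floor
    rw [← Real.exp_log hm0]
    apply Real.exp_le_exp.2
    rw [Real.log_one]
    linarith
  · rw [Real.log_one, abs_le]
    constructor <;> linarith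
  · exact h2
  · rw [mf_pred ht hp.ne_zero a1 a2]
    exact hp
  · have e6 : ⌊t ^ 2 * m + t * β + (β - r)⌋₊ = s := by
      rw [Nat.floor_eq_iff (by linarith)]
      constructor <;> linarith
    rw [e6]
    exact h3

private theorem mf_count {t β : ℝ} (ht : 1 < t) {X : ℝ} (hX : 0 ≤ X) :
    MM t β 4 X ≤ ∑ j ∈ Finset.range (⌊2 * Real.log (t * X + |β|) + 1 / 2⌋₊ + 1),
      ∑ r ∈ Finset.range ⌈t + 1⌉₊, SMD.N4 β (β - r) (1 / 12) ((j : ℝ) / 2) 1 t := by
  rw [mfA_card]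
  set B := (Finset.range (⌊2 * Real.log (t * X + |β|) + 1 / 2⌋₊ + 1)).biUnion fun j =>
    (Finset.range ⌈t + 1⌉₊).biUnion fun r => mfS β (β - r) ((j : ℝ) / 2) t with hB
  have hcard : B.card ≤ ∑ j ∈ Finset.range (⌊2 * Real.log (t * X + |β|) + 1 / 2⌋₊ + 1),
      ∑ r ∈ Finset.range ⌈t + 1⌉₊, SMD.N4 β (β - r) (1 / 12) ((j : ℝ) / 2) 1 t := by
    refine Finset.card_biUnion_le.trans (Finset.sum_le_sum fun j _ => ?_)
    refine Finset.card_biUnion_le.trans (Finset.sum_le_sum fun r _ => ?_)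
    rw [mfS_card]
  refine le_trans ?_ hcard
  apply Finset.card_le_card_of_injOn (fun p => T t β p)
  · intro p hp
    obtain ⟨⟨hp1, hp2⟩, hp3⟩ := mfA_mem.1 (Finset.mem_coe.1 hp)
    obtain ⟨g0, g1, g2, g3⟩ := mf_iter hp3
    obtain ⟨r, hr, hmem⟩ := mf_mem ht g0 g1 g2 g3
    apply Finset.mem_coe.2
    rw [hB, Finset.mem_biUnion]
    refine ⟨⌊2 * Real.log (T t β p : ℝ) + 1 / 2⌋₊, ?_, ?_⟩
    · rw [Finset.mem_range, Nat.lt_succ_iff]
      apply Nat.floor_le_floor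
      have h1 := (mf_step g1).1
      have h2 : (p : ℝ) ≤ X := (Nat.le_floor_iff hX).1 hp2
      have h3 : (2 : ℝ) ≤ T t β p := by exact_mod_cast g1.two_le
      have h4 : (T t β p : ℝ) ≤ t * X + |β| := by
        have h5 := le_abs_self β
        have h6 : t * p ≤ t * X := mul_le_mul_of_nonneg_left h2 (by linarith)
        linarith
      have h5 : Real.log (T t β p : ℝ) ≤ Real.log (t * X + |β|) :=
        Real.log_le_log (by linarith) h4
      linarith
    · rw [Finset.mem_biUnion]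
      exact ⟨r, Finset.mem_range.2 (Nat.lt_ceil.2 hr), hmem⟩
  · intro p hp q hq hpq
    have hp' := mfA_mem.1 (Finset.mem_coe.1 hp)
    have hq' := mfA_mem.1 (Finset.mem_coe.1 hq)
    obtain ⟨g0, g1, -⟩ := mf_iter hp'.2
    obtain ⟨k0, k1, -⟩ := mf_iter hq'.2
    have hpq' : T t β p = T t β q := hpq
    rw [← mf_pred ht g0.ne_zero (mf_step g1).1 (mf_step g1).2,
      ← mf_pred ht k0.ne_zero (mf_step k1).1 (mf_step k1).2, hpq']

/-! ### sequences -/

private theorem mf_rec {v u : ℕ → ℝ} (hv : ∀ n, 0 ≤ v n) (hu : Tendsto u atTop (nhds 0))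
    (h : ∀ᶠ n in atTop, v (n + 1) ≤ 3 / 4 * v n + u n) : Tendsto v atTop (nhds 0) := by
  rw [Metric.tendsto_atTop]
  intro ε hε
  have h1 : ∀ᶠ n in atTop, u n < ε / 8 := hu.eventually_lt_const (by linarith)
  obtain ⟨N, hN⟩ := eventually_atTop.1 (h.and h1)
  have h2 : ∀ k : ℕ, v (N + k) ≤ (3 / 4) ^ k * v N + ε / 2 := by
    intro k
    induction k with
    | zero =>
      rw [pow_zero, one_mul, add_zero]
      linarith
    | succ k ih =>
      have h3 := (hN (N + k) (by omega)).1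
      have h4 := (hN (N + k) (by omega)).2
      have h5 : N + (k + 1) = N + k + 1 := by ring
      rw [h5, pow_succ]
      nlinarith
  have h3 : Tendsto (fun k : ℕ => (3 / 4 : ℝ) ^ k * v N + ε / 2) atTop (nhds (0 * v N + ε / 2)) :=
    ((tendsto_pow_atTop_nhds_zero_of_lt_one (by norm_num) (by norm_num)).mul_const _).add_const _
  have h4 : 0 * v N + ε / 2 < ε := by linarith
  obtain ⟨K, hK⟩ := eventually_atTop.1 (h3.eventually_lt_const h4)
  refine ⟨N + K, fun n hn => ?_⟩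
  obtain ⟨k, rfl⟩ := Nat.exists_eq_add_of_le (show N ≤ n by omega)
  rw [Real.dist_eq, sub_zero, abs_of_nonneg (hv _)]
  exact lt_of_le_of_lt (h2 k) (hK k (by omega))

private theorem mf_exp_half : Real.exp (-(1 / 2)) ≤ 5 / 8 := by
  have h1 : |(-(1 / 2) : ℝ)| ≤ 1 := by rw [abs_neg]; norm_num [abs_of_pos]
  have h2 := Real.exp_bound h1 (n := 4) (by norm_num)
  rw [abs_le] at h2
  have h3 := h2.2
  norm_num [Finset.sum_range_succ, Nat.factorial, abs_of_pos] at h3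
  linarith

private theorem mf_sum {F : ℕ → ℝ} (hF : ∀ j, 0 ≤ F j)
    (h : Tendsto (fun j : ℕ => F j * (j : ℝ) ^ 3 * Real.exp (-((j : ℝ) / 2))) atTop (nhds 0)) :
    Tendsto (fun J : ℕ => (∑ j ∈ Finset.range (J + 1), F j) * (J : ℝ) ^ 3 *
      Real.exp (-((J : ℝ) / 2))) atTop (nhds 0) := by
  apply mf_rec (u := fun J : ℕ => F (J + 1) * ((J + 1 : ℕ) : ℝ) ^ 3 *
    Real.exp (-(((J + 1 : ℕ) : ℝ) / 2)))
  · intro n
    have := Finset.sum_nonneg fun j (_ : j ∈ Finset.range (n + 1)) => hF j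
    positivity
  · exact (tendsto_add_atTop_iff_nat 1).2 h
  · filter_upwards [eventually_ge_atTop 30] with n hn
    have hn' : (30 : ℝ) ≤ n := by exact_mod_cast hn
    have hS : 0 ≤ ∑ j ∈ Finset.range (n + 1), F j := Finset.sum_nonneg fun j _ => hF j
    set S := ∑ j ∈ Finset.range (n + 1), F j with hSd
    rw [Finset.sum_range_succ, ← hSd]
    push_cast
    have e1 : Real.exp (-(((n : ℝ) + 1) / 2)) = Real.exp (-((n : ℝ) / 2)) * Real.exp (-(1 / 2)) := by
      rw [← Real.exp_add]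
      congr 1
      ring
    have e2 : ((n : ℝ) + 1) ^ 3 * Real.exp (-(1 / 2)) ≤ 3 / 4 * (n : ℝ) ^ 3 := by
      have h1 := mf_exp_half
      have h2 : (n : ℝ) + 1 ≤ 31 / 30 * n := by linarith
      have h3 : ((n : ℝ) + 1) ^ 3 ≤ (31 / 30 * n) ^ 3 := by gcongr
      have h4 : 0 ≤ (n : ℝ) ^ 3 := by positivity
      calc ((n : ℝ) + 1) ^ 3 * Real.exp (-(1 / 2)) ≤ (31 / 30 * n) ^ 3 * (5 / 8) := by
            apply mul_le_mul h3 h1 (Real.exp_pos _).le (by positivity)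
        _ ≤ 3 / 4 * (n : ℝ) ^ 3 := by
            rw [mul_pow]
            nlinarith
    have e3 : 0 ≤ S * Real.exp (-((n : ℝ) / 2)) := mul_nonneg hS (Real.exp_pos _).le
    have e4 := mul_le_mul_of_nonneg_left e2 e3
    calc (S + F (n + 1)) * ((n : ℝ) + 1) ^ 3 * Real.exp (-(((n : ℝ) + 1) / 2))
        = S * Real.exp (-((n : ℝ) / 2)) * (((n : ℝ) + 1) ^ 3 * Real.exp (-(1 / 2))) +
          F (n + 1) * ((n : ℝ) + 1) ^ 3 * Real.exp (-(((n : ℝ) + 1) / 2)) := by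
            rw [add_mul, add_mul, e1]
            ring
      _ ≤ S * Real.exp (-((n : ℝ) / 2)) * (3 / 4 * (n : ℝ) ^ 3) +
          F (n + 1) * ((n : ℝ) + 1) ^ 3 * Real.exp (-(((n : ℝ) + 1) / 2)) := by linarith
      _ = 3 / 4 * (S * (n : ℝ) ^ 3 * Real.exp (-((n : ℝ) / 2))) +
          F (n + 1) * ((n : ℝ) + 1) ^ 3 * Real.exp (-(((n : ℝ) + 1) / 2)) := by ring

/-! ### almost every multiplier -/

private theorem mf_ae {A B : ℝ} (hA : 0 < A) (hAB : A < B) (β γ : ℝ) :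
    ∀ᵐ t : ℝ, t ∈ Set.Icc A B →
      Tendsto (fun j : ℕ => (SMD.N4 β γ (1 / 12) ((j : ℝ) / 2) 1 t : ℝ) * (j : ℝ) ^ 3 *
        Real.exp (-((j : ℝ) / 2))) atTop (nhds 0) := by
  obtain ⟨C, hC, h⟩ := SMD.sec_m4 (le_refl 1)
  have h1 := h β γ A B 1 (1 / 12) hA hAB le_rfl le_rfl (by norm_num) le_rfl
  have h2 : ∀ᶠ j : ℕ in atTop,
      ∫⁻ t in Set.Icc A B, (SMD.N4 β γ (1 / 12) ((j : ℝ) / 2) 1 t : ENNReal) ^ 2 ≤
        ENNReal.ofReal (C * (1 / 12) ^ 2 * (B - A) * Real.exp (2 * ((j : ℝ) / 2)) /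
          ((j : ℝ) / 2) ^ 8) :=
    (tendsto_natCast_atTop_atTop.atTop_div_const two_pos).eventually h1
  obtain ⟨j0, hj0⟩ := eventually_atTop.1 h2
  set f : ℕ → ℝ → ENNReal := fun j t =>
    ENNReal.ofReal (((j + (j0 + 1) : ℕ) : ℝ) ^ 6 * Real.exp (-((j + (j0 + 1) : ℕ) : ℝ))) *
      (SMD.N4 β γ (1 / 12) (((j + (j0 + 1) : ℕ) : ℝ) / 2) 1 t : ENNReal) ^ 2 with hf
  have hNm : ∀ w : ℝ, Measurable fun t : ℝ => (SMD.N4 β γ (1 / 12) w 1 t : ENNReal) ^ 2 := by
    intro w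
    have h3 : Measurable fun n : ℕ => (n : ENNReal) ^ 2 := measurable_from_nat
    exact h3.comp (SMD.N4_meas β γ (1 / 12) w 1)
  have hfm : ∀ j, Measurable (f j) := fun j => (hNm _).const_mul _
  have hint : ∀ j, ∫⁻ t in Set.Icc A B, f j t ≤
      ENNReal.ofReal (C * (1 / 12) ^ 2 * (B - A) * 2 ^ 8 * (1 / ((j + (j0 + 1) : ℕ) : ℝ) ^ 2)) := by
    intro j
    have hn := hj0 (j + (j0 + 1)) (by omega)
    set n : ℝ := ((j + (j0 + 1) : ℕ) : ℝ) with hnd
    have hn0 : 0 < n := by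
      rw [hnd]
      exact_mod_cast (by omega : 0 < j + (j0 + 1))
    rw [hf]
    simp only
    rw [← hnd, lintegral_const_mul _ (hNm _)]
    refine (mul_le_mul_right hn _).trans ?_
    rw [← ENNReal.ofReal_mul (by positivity)]
    apply ENNReal.ofReal_le_ofReal
    have e1 : Real.exp (2 * (n / 2)) = Real.exp n := by
      congr 1
      ring
    have e2 : Real.exp (-n) * Real.exp n = 1 := by
      rw [← Real.exp_add, neg_add_cancel, Real.exp_zero]
    rw [e1]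
    apply le_of_eq
    calc n ^ 6 * Real.exp (-n) * (C * (1 / 12) ^ 2 * (B - A) * Real.exp n / (n / 2) ^ 8)
        = (Real.exp (-n) * Real.exp n) * (n ^ 6 * (C * (1 / 12) ^ 2 * (B - A) / (n / 2) ^ 8)) := by
          ring
      _ = C * (1 / 12) ^ 2 * (B - A) * 2 ^ 8 * (1 / n ^ 2) := by
          rw [e2]
          field_simp
  have hsum : Summable fun j : ℕ => C * (1 / 12) ^ 2 * (B - A) * 2 ^ 8 *
      (1 / ((j + (j0 + 1) : ℕ) : ℝ) ^ 2) := by
    apply Summable.mul_left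
    exact (summable_nat_add_iff (j0 + 1)).2 (Real.summable_one_div_nat_pow.2 (by norm_num))
  have hfin : ∫⁻ t in Set.Icc A B, ∑' j, f j t ≠ ⊤ := by
    rw [lintegral_tsum fun j => (hfm j).aemeasurable]
    exact ne_top_of_le_ne_top hsum.tsum_ofReal_ne_top (ENNReal.tsum_le_tsum hint)
  have hae := ae_lt_top (Measurable.tsum hfm) hfin
  rw [ae_restrict_iff' measurableSet_Icc] at hae
  filter_upwards [hae] with t ht htI
  have h3 := ENNReal.tendsto_atTop_zero_of_tsum_ne_top (ht htI).ne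
  set x : ℕ → ℝ := fun j => (SMD.N4 β γ (1 / 12) ((j : ℝ) / 2) 1 t : ℝ) * (j : ℝ) ^ 3 *
    Real.exp (-((j : ℝ) / 2)) with hx
  have hx0 : ∀ j, 0 ≤ x j := fun j => by
    rw [hx]
    positivity
  have h4 : ∀ j, f j t = ENNReal.ofReal (x (j + (j0 + 1)) ^ 2) := by
    intro j
    rw [hf, hx]
    simp only
    set n : ℝ := ((j + (j0 + 1) : ℕ) : ℝ) with hnd
    have e1 : ((SMD.N4 β γ (1 / 12) (n / 2) 1 t : ℕ) : ENNReal) ^ 2 =
        ENNReal.ofReal (((SMD.N4 β γ (1 / 12) (n / 2) 1 t : ℕ) : ℝ) ^ 2) := by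
      rw [ENNReal.ofReal_pow (Nat.cast_nonneg _), ENNReal.ofReal_natCast]
    rw [e1, ← ENNReal.ofReal_mul (by positivity)]
    congr 1
    have e2 : Real.exp (-n) = Real.exp (-(n / 2)) ^ 2 := by
      rw [← Real.exp_nat_mul]
      congr 1
      push_cast
      ring
    rw [e2]
    ring
  have h5 : Tendsto (fun j => x (j + (j0 + 1)) ^ 2) atTop (nhds 0) := by
    have h6 := (ENNReal.tendsto_toReal ENNReal.zero_ne_top).comp h3
    rw [ENNReal.toReal_zero] at h6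
    refine h6.congr fun j => ?_
    show (f j t).toReal = _
    rw [h4, ENNReal.toReal_ofReal (sq_nonneg _)]
  have h6 : Tendsto (fun j => x (j + (j0 + 1))) atTop (nhds 0) := by
    have h7 := (Real.continuous_sqrt.tendsto 0).comp h5
    rw [Real.sqrt_zero] at h7
    refine h7.congr fun j => ?_
    show √(x (j + (j0 + 1)) ^ 2) = _
    rw [Real.sqrt_sq (hx0 _)]
  exact (tendsto_add_atTop_iff_nat (j0 + 1)).1 h6

private theorem mf_det {t β : ℝ} (ht : 1 < t)
    (h : ∀ r : ℕ, Tendsto (fun j : ℕ => (SMD.N4 β (β - r) (1 / 12) ((j : ℝ) / 2) 1 t : ℝ) *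
      (j : ℝ) ^ 3 * Real.exp (-((j : ℝ) / 2))) atTop (nhds 0)) :
    Tendsto (fun X : ℝ => (MM t β 4 X : ℝ) * Real.log X ^ 3 / X) atTop (nhds 0) := by
  set F : ℕ → ℝ := fun j => ∑ r ∈ Finset.range ⌈t + 1⌉₊,
    (SMD.N4 β (β - r) (1 / 12) ((j : ℝ) / 2) 1 t : ℝ) with hF
  have hF0 : ∀ j, 0 ≤ F j := fun j => Finset.sum_nonneg fun r _ => Nat.cast_nonneg _
  have hFt : Tendsto (fun j : ℕ => F j * (j : ℝ) ^ 3 * Real.exp (-((j : ℝ) / 2))) atTop (nhds 0) := by
    have h1 := tendsto_finsetSum (Finset.range ⌈t + 1⌉₊) fun r _ => h r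
    rw [Finset.sum_const_zero] at h1
    refine h1.congr fun j => ?_
    rw [hF]
    simp only
    rw [Finset.sum_mul, Finset.sum_mul]
  have hv := mf_sum hF0 hFt
  set c : ℝ := t + |β| with hc
  have hc1 : 1 < c := by
    have := abs_nonneg β
    linarith
  have hY : Tendsto (fun X : ℝ => t * X + |β|) atTop atTop :=
    tendsto_atTop_add_const_right _ _ (tendsto_id.const_mul_atTop (by linarith))
  have hJ : Tendsto (fun X : ℝ => ⌊2 * Real.log (t * X + |β|) + 1 / 2⌋₊) atTop atTop :=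
    tendsto_nat_floor_atTop.comp (tendsto_atTop_add_const_right _ _
      ((Real.tendsto_log_atTop.comp hY).const_mul_atTop two_pos))
  have h1 := (hv.comp hJ).const_mul (2 * c)
  rw [mul_zero] at h1
  refine tendsto_of_tendsto_of_tendsto_of_le_of_le' tendsto_const_nhds h1 ?_ ?_
  · filter_upwards [eventually_ge_atTop 1] with X hX
    have := Real.log_nonneg hX
    positivity
  · filter_upwards [eventually_ge_atTop 3] with X hX
    have hX0 : 0 < X := by linarith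
    have hlog : 1 ≤ Real.log X := by
      rw [← Real.log_exp 1]
      apply Real.log_le_log (Real.exp_pos 1)
      have := Real.exp_one_lt_d9
      linarith
    have hYX : X ≤ t * X + |β| := by
      have := abs_nonneg β
      nlinarith
    set Y := t * X + |β| with hYd
    have hY0 : 0 < Y := by linarith
    have hlogY : Real.log X ≤ Real.log Y := Real.log_le_log hX0 hYX
    have hYc : Y ≤ c * X := by
      have := abs_nonneg β
      rw [hYd, hc]
      nlinarith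
    have f1 := Nat.floor_le (show 0 ≤ 2 * Real.log Y + 1 / 2 by linarith)
    have f2 := Nat.lt_floor_add_one (2 * Real.log Y + 1 / 2)
    have hcnt := mf_count (β := β) ht hX0.le
    rw [← hYd] at hcnt
    set J := ⌊2 * Real.log Y + 1 / 2⌋₊ with hJd
    have hcnt' : (MM t β 4 X : ℝ) ≤ ∑ j ∈ Finset.range (J + 1), F j := by
      have h2 : ((MM t β 4 X : ℕ) : ℝ) ≤ ((∑ j ∈ Finset.range (J + 1),
          ∑ r ∈ Finset.range ⌈t + 1⌉₊, SMD.N4 β (β - r) (1 / 12) ((j : ℝ) / 2) 1 t : ℕ) : ℝ) := by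
        exact_mod_cast hcnt
      refine h2.trans (le_of_eq ?_)
      push_cast
      rfl
    have hS0 : 0 ≤ ∑ j ∈ Finset.range (J + 1), F j := Finset.sum_nonneg fun j _ => hF0 j
    have hJl : Real.log X ≤ J := by linarith
    have hexp : Real.exp ((J : ℝ) / 2) ≤ 2 * c * X := by
      have h3 : (J : ℝ) / 2 ≤ Real.log Y + 1 / 4 := by linarith
      have h4 := Real.exp_le_exp.2 h3
      rw [Real.exp_add, Real.exp_log hY0] at h4
      have h5 : Real.exp (1 / 4) ≤ 2 := by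
        have h6 : |(1 / 4 : ℝ)| ≤ 1 := by norm_num [abs_of_pos]
        have h7 := Real.abs_exp_sub_one_sub_id_le h6
        rw [abs_le] at h7
        nlinarith [h7.2]
      calc Real.exp ((J : ℝ) / 2) ≤ Y * Real.exp (1 / 4) := h4
        _ ≤ Y * 2 := mul_le_mul_of_nonneg_left h5 hY0.le
        _ ≤ 2 * c * X := by linarith
    have hinv : 1 / X ≤ 2 * c * Real.exp (-((J : ℝ) / 2)) := by
      rw [Real.exp_neg, div_le_iff₀ hX0]
      have h3 := Real.exp_pos ((J : ℝ) / 2)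
      have h4 : 2 * c * (Real.exp ((J : ℝ) / 2))⁻¹ * X = 2 * c * X / Real.exp ((J : ℝ) / 2) := by
        rw [div_eq_mul_inv]
        ring
      rw [h4, le_div_iff₀ h3, one_mul]
      exact hexp
    show (MM t β 4 X : ℝ) * Real.log X ^ 3 / X ≤
      2 * c * ((∑ j ∈ Finset.range (J + 1), F j) * (J : ℝ) ^ 3 * Real.exp (-((J : ℝ) / 2)))
    calc (MM t β 4 X : ℝ) * Real.log X ^ 3 / X = (MM t β 4 X : ℝ) * Real.log X ^ 3 * (1 / X) := by
          ring
      _ ≤ (∑ j ∈ Finset.range (J + 1), F j) * (J : ℝ) ^ 3 *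
          (2 * c * Real.exp (-((J : ℝ) / 2))) := by
          have h3 : Real.log X ^ 3 ≤ (J : ℝ) ^ 3 := by gcongr
          apply mul_le_mul _ hinv (by positivity) (by positivity)
          exact mul_le_mul hcnt' h3 (by positivity) hS0
      _ = 2 * c * ((∑ j ∈ Finset.range (J + 1), F j) * (J : ℝ) ^ 3 *
          Real.exp (-((J : ℝ) / 2))) := by ring

theorem m4_rat : ∀ᵐ α : ℝ, 1 < α → ∀ β : ℚ,
    Tendsto (fun X : ℝ => (MM α β 4 X : ℝ) * Real.log X ^ 3 / X) atTop (nhds 0) := by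
  have key : ∀ i : ℕ, ∀ β : ℚ, ∀ r : ℕ, ∀ᵐ t : ℝ,
      t ∈ Set.Icc (1 + 1 / ((i : ℝ) + 1)) ((i : ℝ) + 3) →
      Tendsto (fun j : ℕ => (SMD.N4 (β : ℝ) ((β : ℝ) - r) (1 / 12) ((j : ℝ) / 2) 1 t : ℝ) *
        (j : ℝ) ^ 3 * Real.exp (-((j : ℝ) / 2))) atTop (nhds 0) := by
    intro i β r
    have hi : (0 : ℝ) ≤ i := Nat.cast_nonneg i
    have h1 : 1 / ((i : ℝ) + 1) ≤ 1 := by
      rw [div_le_one (by linarith)]
      linarith
    exact mf_ae (by positivity) (by linarith) _ _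
  filter_upwards [ae_all_iff.2 fun i => ae_all_iff.2 fun β => ae_all_iff.2 fun r => key i β r]
    with t ht h1 β
  apply mf_det h1
  intro r
  obtain ⟨i, hi⟩ := exists_nat_gt (max (1 / (t - 1)) t)
  have hi1 := (le_max_left _ _).trans_lt hi
  have hi2 := (le_max_right _ _).trans_lt hi
  have ht1 : 0 < t - 1 := by linarith
  refine ht i β r ⟨?_, by linarith⟩
  have hi0 : (0 : ℝ) ≤ i := Nat.cast_nonneg i
  rw [div_lt_iff₀ ht1] at hi1
  have h2 : 1 / ((i : ℝ) + 1) ≤ t - 1 := by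
    rw [div_le_iff₀ (by linarith)]
    nlinarith
  linarith

/-! ### all shifts -/

private theorem mf_split {α β β1 δ : ℝ} (hα : 1 < α) (h1 : β1 < β) (h2 : β - δ < β1) (X : ℝ)
    (hX : 0 ≤ X) :
    MM α β 4 X ≤ MM α β1 4 X + Tr3 α (-β) (-β + δ) (-β) (1 - β) (X + 1) +
      Tr3 α (-β) (1 - β) (-β) (-β + δ) (X + 1) +
      Tr3 α (-β) (1 - β) (-β) (-β + δ) (α * X + |β| + 1) := by
  classical
  rw [mfA_card, mfA_card]
  set A := mfA α β X with hA
  set A1 := mfA α β1 X with hA1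
  set A2 := A.filter fun p : ℕ => α * p + β1 < T α β p with hA2
  set A3 := A.filter fun p : ℕ => α * T α β p + β1 < T α β (T α β p) with hA3
  set A4 := A.filter fun p : ℕ => α * T α β (T α β p) + β1 < T α β (T α β (T α β p)) with hA4
  have hmemA : ∀ p ∈ A, (p : ℝ) ≤ X ∧ p.Prime ∧ (T α β p).Prime ∧ (T α β (T α β p)).Prime ∧
      (T α β (T α β (T α β p))).Prime := by
    intro p hp
    rw [hA, mfA_mem] at hp
    obtain ⟨g0, g1, g2, g3⟩ := mf_iter hp.2
    exact ⟨(Nat.le_floor_iff hX).1 hp.1.2, g0, g1, g2, g3⟩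
  have hstep : ∀ q : ℕ, (T α β q).Prime → ¬ (α * q + β1 < T α β q) → T α β1 q = T α β q := by
    intro q hq hn
    have h3 := (mf_step hq).2
    rw [T, Nat.floor_eq_iff (by
      have : (0 : ℝ) ≤ T α β q := Nat.cast_nonneg _
      linarith)]
    constructor <;> linarith
  have hsub : A ⊆ A1 ∪ A2 ∪ A3 ∪ A4 := by
    intro p hp
    obtain ⟨g, g0, g1, g2, g3⟩ := hmemA p hp
    by_cases k2 : α * p + β1 < T α β p
    · have : p ∈ A2 := Finset.mem_filter.2 ⟨hp, k2⟩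
      simp only [Finset.mem_union, this, true_or, or_true]
    by_cases k3 : α * T α β p + β1 < T α β (T α β p)
    · have : p ∈ A3 := Finset.mem_filter.2 ⟨hp, k3⟩
      simp only [Finset.mem_union, this, true_or, or_true]
    by_cases k4 : α * T α β (T α β p) + β1 < T α β (T α β (T α β p))
    · have : p ∈ A4 := Finset.mem_filter.2 ⟨hp, k4⟩
      simp only [Finset.mem_union, this, or_true]
    have e1 := hstep p g1 k2
    have e2 := hstep (T α β p) g2 k3
    have e3 := hstep (T α β (T α β p)) g3 k4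
    have : p ∈ A1 := by
      rw [hA, mfA_mem] at hp
      rw [hA1, mfA_mem]
      refine ⟨hp.1, ?_⟩
      intro i hi
      interval_cases i
      · exact g0
      · show (T α β1 p).Prime
        rw [e1]
        exact g1
      · show (T α β1 (T α β1 p)).Prime
        rw [e1, e2]
        exact g2
      · show (T α β1 (T α β1 (T α β1 p))).Prime
        rw [e1, e2, e3]
        exact g3
    simp only [Finset.mem_union, this, true_or]
  have hc2 : A2.card ≤ Tr3 α (-β) (-β + δ) (-β) (1 - β) (X + 1) := by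
    rw [← Set.ncard_coe_finset A2]
    refine Set.ncard_le_ncard_of_injOn (fun p : ℕ => (p, T α β p, T α β (T α β p))) ?_ ?_
      (tr3_fin α (-β) (-β + δ) (-β) (1 - β) (X + 1))
    · intro p hp
      obtain ⟨hpA, k⟩ := Finset.mem_filter.1 (Finset.mem_coe.1 hp)
      obtain ⟨g, g0, g1, g2, g3⟩ := hmemA p hpA
      obtain ⟨a1, a2⟩ := mf_step g1
      obtain ⟨b1, b2⟩ := mf_step g2
      exact ⟨g0, g1, g2, by show (p : ℝ) < X + 1; linarith,
        by show -β ≤ α * (p : ℝ) - (T α β p : ℕ); linarith,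
        by show α * (p : ℝ) - (T α β p : ℕ) ≤ -β + δ; linarith,
        by show -β ≤ α * ((T α β p : ℕ) : ℝ) - (T α β (T α β p) : ℕ); linarith,
        by show α * ((T α β p : ℕ) : ℝ) - (T α β (T α β p) : ℕ) ≤ 1 - β; linarith⟩
    · intro p _ q _ hpq
      exact congrArg Prod.fst hpq
  have hc3 : A3.card ≤ Tr3 α (-β) (1 - β) (-β) (-β + δ) (X + 1) := by
    rw [← Set.ncard_coe_finset A3]
    refine Set.ncard_le_ncard_of_injOn (fun p : ℕ => (p, T α β p, T α β (T α β p))) ?_ ?_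
      (tr3_fin α (-β) (1 - β) (-β) (-β + δ) (X + 1))
    · intro p hp
      obtain ⟨hpA, k⟩ := Finset.mem_filter.1 (Finset.mem_coe.1 hp)
      obtain ⟨g, g0, g1, g2, g3⟩ := hmemA p hpA
      obtain ⟨a1, a2⟩ := mf_step g1
      obtain ⟨b1, b2⟩ := mf_step g2
      exact ⟨g0, g1, g2, by show (p : ℝ) < X + 1; linarith,
        by show -β ≤ α * (p : ℝ) - (T α β p : ℕ); linarith,
        by show α * (p : ℝ) - (T α β p : ℕ) ≤ 1 - β; linarith,
        by show -β ≤ α * ((T α β p : ℕ) : ℝ) - (T α β (T α β p) : ℕ); linarith,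
        by show α * ((T α β p : ℕ) : ℝ) - (T α β (T α β p) : ℕ) ≤ -β + δ; linarith⟩
    · intro p _ q _ hpq
      exact congrArg Prod.fst hpq
  have hc4 : A4.card ≤ Tr3 α (-β) (1 - β) (-β) (-β + δ) (α * X + |β| + 1) := by
    rw [← Set.ncard_coe_finset A4]
    refine Set.ncard_le_ncard_of_injOn
      (fun p : ℕ => (T α β p, T α β (T α β p), T α β (T α β (T α β p)))) ?_ ?_
      (tr3_fin α (-β) (1 - β) (-β) (-β + δ) (α * X + |β| + 1))
    · intro p hp
      obtain ⟨hpA, k⟩ := Finset.mem_filter.1 (Finset.mem_coe.1 hp)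
      obtain ⟨g, g0, g1, g2, g3⟩ := hmemA p hpA
      obtain ⟨a1, a2⟩ := mf_step g1
      obtain ⟨b1, b2⟩ := mf_step g2
      obtain ⟨c1, c2⟩ := mf_step g3
      have h5 := le_abs_self β
      have h6 : α * p ≤ α * X := mul_le_mul_of_nonneg_left g (by linarith)
      exact ⟨g1, g2, g3, by show ((T α β p : ℕ) : ℝ) < α * X + |β| + 1; linarith,
        by show -β ≤ α * ((T α β p : ℕ) : ℝ) - (T α β (T α β p) : ℕ); linarith,
        by show α * ((T α β p : ℕ) : ℝ) - (T α β (T α β p) : ℕ) ≤ 1 - β; linarith,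
        by show -β ≤ α * ((T α β (T α β p) : ℕ) : ℝ) - (T α β (T α β (T α β p)) : ℕ); linarith,
        by show α * ((T α β (T α β p) : ℕ) : ℝ) - (T α β (T α β (T α β p)) : ℕ) ≤ -β + δ; linarith⟩
    · intro p hp q hq hpq
      obtain ⟨hpA, -⟩ := Finset.mem_filter.1 (Finset.mem_coe.1 hp)
      obtain ⟨hqA, -⟩ := Finset.mem_filter.1 (Finset.mem_coe.1 hq)
      obtain ⟨-, g0, g1, -⟩ := hmemA p hpA
      obtain ⟨-, k0, k1, -⟩ := hmemA q hqA
      have hpq' : T α β p = T α β q := congrArg Prod.fst hpq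
      rw [← mf_pred hα g0.ne_zero (mf_step g1).1 (mf_step g1).2,
        ← mf_pred hα k0.ne_zero (mf_step k1).1 (mf_step k1).2, hpq']
  have hu := Finset.card_le_card hsub
  have u1 := Finset.card_union_le (A1 ∪ A2 ∪ A3) A4
  have u2 := Finset.card_union_le (A1 ∪ A2) A3
  have u3 := Finset.card_union_le A1 A2
  omega

private theorem mf_up {α u1 v1 u2 v2 L c d η : ℝ}
    (h : Tendsto (fun X : ℝ => (Tr3 α u1 v1 u2 v2 X : ℝ) * Real.log X ^ 3 / X) atTop (nhds L))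
    (hc : 1 ≤ c) (hd : 0 ≤ d) (hη : L * c < η) :
    ∀ᶠ X : ℝ in atTop, (Tr3 α u1 v1 u2 v2 (c * X + d) : ℝ) * Real.log X ^ 3 / X < η := by
  have hY : Tendsto (fun X : ℝ => c * X + d) atTop atTop :=
    tendsto_atTop_add_const_right _ _ (tendsto_id.const_mul_atTop (by linarith))
  have h1 : Tendsto (fun X : ℝ => c + d / X) atTop (nhds (c + 0)) :=
    (tendsto_const_nhds.div_atTop tendsto_id).const_add c
  rw [add_zero] at h1
  have h2 := (h.comp hY).mul h1
  filter_upwards [h2.eventually_lt_const hη, eventually_ge_atTop 1] with X hX hX1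
  refine lt_of_le_of_lt ?_ hX
  have hX0 : 0 < X := by linarith
  have hYX : X ≤ c * X + d := by nlinarith
  have hY0 : 0 < c * X + d := by linarith
  have hl : 0 ≤ Real.log X := Real.log_nonneg hX1
  have hlY : Real.log X ≤ Real.log (c * X + d) := Real.log_le_log hX0 hYX
  show (Tr3 α u1 v1 u2 v2 (c * X + d) : ℝ) * Real.log X ^ 3 / X ≤
    (Tr3 α u1 v1 u2 v2 (c * X + d) : ℝ) * Real.log (c * X + d) ^ 3 / (c * X + d) * (c + d / X)
  have e1 : (Tr3 α u1 v1 u2 v2 (c * X + d) : ℝ) * Real.log (c * X + d) ^ 3 / (c * X + d) *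
      (c + d / X) = (Tr3 α u1 v1 u2 v2 (c * X + d) : ℝ) * Real.log (c * X + d) ^ 3 / X := by
    field_simp
  rw [e1]
  gcongr

theorem m4_all {α : ℝ} (hα : 1 < α) (hθ : Good (Real.log α))
    (h : ∀ β : ℚ, Tendsto (fun X : ℝ => (MM α β 4 X : ℝ) * Real.log X ^ 3 / X) atTop (nhds 0)) (β : ℝ) :
    Tendsto (fun X : ℝ => (MM α β 4 X : ℝ) * Real.log X ^ 3 / X) atTop (nhds 0) := by
  have hα0 : 0 < α := by linarith
  rw [Metric.tendsto_nhds]
  intro ε hε
  set δ : ℝ := min (1 / 2) (ε / (5 + 2 * α)) with hδ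
  have hδ0 : 0 < δ := lt_min (by norm_num) (by positivity)
  have hδ1 : δ ≤ 1 / 2 := min_le_left _ _
  have hδ2 : (5 + 2 * α) * δ ≤ ε := by
    have := min_le_right (1 / 2) (ε / (5 + 2 * α))
    rw [← hδ, le_div_iff₀ (by linarith)] at this
    linarith
  obtain ⟨β1, hb1, hb2⟩ := exists_rat_btwn (show β - δ < β by linarith)
  have t2 := tri3 (u1 := -β) (v1 := -β + δ) (u2 := -β) (v2 := 1 - β) hθ (by linarith) (by linarith)
  have t3 := tri3 (u1 := -β) (v1 := 1 - β) (u2 := -β) (v2 := -β + δ) hθ (by linarith) (by linarith)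
  rw [Real.exp_log hα0] at t2 t3
  have m1 := (h β1).eventually_lt_const hδ0
  have m2 := mf_up (c := 1) (d := 1) (η := 2 * δ) t2 le_rfl zero_le_one (by nlinarith)
  have m3 := mf_up (c := 1) (d := 1) (η := 2 * δ) t3 le_rfl zero_le_one (by nlinarith)
  have m4 := mf_up (c := α) (d := |β| + 1) (η := 2 * α * δ) t3 hα.le (by positivity) (by nlinarith)
  filter_upwards [m1, m2, m3, m4, eventually_ge_atTop 1] with X k1 k2 k3 k4 hX
  have hX0 : 0 < X := by linarith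
  have hl : 0 ≤ Real.log X := Real.log_nonneg hX
  have hs := mf_split hα hb2 hb1 X hX0.le
  rw [Real.dist_eq, sub_zero, abs_of_nonneg (by positivity)]
  have hs' : (MM α β 4 X : ℝ) ≤ (MM α β1 4 X : ℝ) +
      (Tr3 α (-β) (-β + δ) (-β) (1 - β) (X + 1) : ℝ) +
      (Tr3 α (-β) (1 - β) (-β) (-β + δ) (X + 1) : ℝ) +
      (Tr3 α (-β) (1 - β) (-β) (-β + δ) (α * X + |β| + 1) : ℝ) := by exact_mod_cast hs
  rw [one_mul] at k2 k3
  rw [← add_assoc] at k4
  have hw : 0 ≤ Real.log X ^ 3 / X := by positivity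
  have h5 := mul_le_mul_of_nonneg_right hs' hw
  have h6 : (MM α β 4 X : ℝ) * Real.log X ^ 3 / X = (MM α β 4 X : ℝ) * (Real.log X ^ 3 / X) :=
    mul_div_assoc _ _ _
  rw [mul_div_assoc] at k1 k2 k3 k4
  rw [h6]
  nlinarith

end HLA
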