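import Mathlib.MeasureTheory.Function.Jacobian
import Pool.Agent.HLA.MFour
import Pool.Agent.HLA.AE
import Pool.Agent.SMC.FinQ

/-!
# HLA.FinA: asymptotics for the exact lengths 1, 2, 3

PROOF. `ae_good` transfers to `α`: for almost every `α > 1` `Good (log α)` (the image of a null set under `exp` is a null set: `exp` is locally Lipschitz/differentiable,
`MeasureTheory.addHaar_image_eq_zero_of_differentiableOn_addHaar_eq_zero`; `{α > 0 : ¬ Good (log α)} = exp '' {θ : ¬ Good θ}`). Together with `m4_rat`, `m4_all`. For such an `α`, all `β`, `1 ≤ k ≤ 3`: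
`count α β k X = MM α β k X - MM α β (k+1) X - R`, `R` = the number of the `p ≤ X` with `k` primes `p, .., q = T^(k-1) p` and `T q ≤ 1`: then `α q + β < 2`, so `q` is bounded, and as `T` is injective where it is positive
(`α > 1`), or as `T x ≥ x - |β| - 1`, the number of such `p` is bounded independently of `X`. `MM α β k X ~ X/(log X)^k` (`mm_lim`), `MM α β (k+1) X = o(X/(log X)^k)` (`mm_lim` for `k ≤ 2`, `m4_all` for `k = 3`). (`X` natural: compose with
`tendsto_natCast_atTop_atTop`.)
-/

namespace HLA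

open MeasureTheory ArithmeticFunction SMC Filter

/-- Almost every `α` is good. -/
private theorem fa_good : ∀ᵐ α : ℝ, 1 < α → Good (Real.log α) := by
  have h0 : volume {θ : ℝ | ¬ Good θ} = 0 := ae_iff.1 ae_good
  have h1 : volume (Real.exp '' {θ : ℝ | ¬ Good θ}) = 0 :=
    addHaar_image_eq_zero_of_differentiableOn_of_addHaar_eq_zero volume
      Real.differentiable_exp.differentiableOn h0
  rw [ae_iff]
  refine measure_mono_null ?_ h1
  intro α hα
  have hα' : ¬ (1 < α → Good (Real.log α)) := hα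
  rw [Classical.not_imp] at hα'
  exact ⟨Real.log α, hα'.2, Real.exp_log (by linarith [hα'.1])⟩

/-- The map decreases at most by a constant. -/
private theorem fa_T {α β : ℝ} (hα : 1 < α) (k p : ℕ) : (p : ℝ) ≤ (T α β)^[k] p + k * (|β| + 1) := by
  induction k with
  | zero => simp
  | succ k ih =>
    rw [Function.iterate_succ_apply']
    set q := (T α β)^[k] p with hq
    have h1 : α * q + β < T α β q + 1 := by
      unfold T
      exact Nat.lt_floor_add_one _
    have h2 : (q : ℝ) ≤ α * q := by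
      have : (0 : ℝ) ≤ q := Nat.cast_nonneg q
      nlinarith
    have h3 := neg_abs_le β
    push_cast
    nlinarith

open Classical in
/-- The chains which stop at `0` or `1`. -/
private noncomputable def faR (α β : ℝ) (k X : ℕ) : ℕ :=
  ((Finset.Icc 1 X).filter fun p : ℕ => (∀ i < k, ((T α β)^[i] p).Prime) ∧ (T α β)^[k] p ≤ 1).card

private theorem faR_le {α β : ℝ} (hα : 1 < α) (k X : ℕ) : faR α β k X ≤ ⌊1 + k * (|β| + 1)⌋₊ := by
  classical
  have h1 : faR α β k X ≤ (Finset.Icc 1 ⌊1 + k * (|β| + 1)⌋₊).card := by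
    unfold faR
    apply Finset.card_le_card
    intro p hp
    rw [Finset.mem_filter, Finset.mem_Icc] at hp
    rw [Finset.mem_Icc]
    refine ⟨hp.1.1, Nat.le_floor ?_⟩
    have h2 := fa_T (β := β) hα k p
    have h3 : (((T α β)^[k] p : ℕ) : ℝ) ≤ 1 := by exact_mod_cast hp.2.2
    linarith
  rwa [Nat.card_Icc, Nat.add_sub_cancel] at h1

open Classical in
private theorem fa_split (α β : ℝ) (k X : ℕ) :
    MM α β k X = count α β k X + MM α β (k + 1) X + faR α β k X := by
  unfold MM count faR
  rw [Nat.floor_natCast]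
  have e1 : ((Finset.Icc 1 X).filter fun p : ℕ => ∀ i < k, ((T α β)^[i] p).Prime) =
      (((Finset.Icc 1 X).filter fun p : ℕ => StartsExact α β p k) ∪
        ((Finset.Icc 1 X).filter fun p : ℕ => ∀ i < k + 1, ((T α β)^[i] p).Prime)) ∪
        ((Finset.Icc 1 X).filter fun p : ℕ => (∀ i < k, ((T α β)^[i] p).Prime) ∧ (T α β)^[k] p ≤ 1) := by
    ext p
    simp only [Finset.mem_union, Finset.mem_filter]
    constructor
    · rintro ⟨h1, h2⟩
      by_cases h3 : ((T α β)^[k] p).Prime
      · refine Or.inl (Or.inr ⟨h1, fun i hi => ?_⟩)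
        rcases Nat.lt_succ_iff_lt_or_eq.1 hi with h4 | h4
        · exact h2 i h4
        · rw [h4]; exact h3
      · by_cases h4 : 1 < (T α β)^[k] p
        · exact Or.inl (Or.inl ⟨h1, h2, h4, h3⟩)
        · exact Or.inr ⟨h1, h2, not_lt.1 h4⟩
    · rintro ((⟨h1, h2⟩ | ⟨h1, h2⟩) | ⟨h1, h2⟩)
      · exact ⟨h1, h2.1⟩
      · exact ⟨h1, fun i hi => h2 i (Nat.lt_succ_of_lt hi)⟩
      · exact ⟨h1, h2.1⟩
  rw [e1, Finset.card_union_of_disjoint, Finset.card_union_of_disjoint]
  · rw [Finset.disjoint_left]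
    intro p h1 h2
    rw [Finset.mem_filter] at h1 h2
    exact h1.2.2.2 (h2.2 k (Nat.lt_succ_self k))
  · rw [Finset.disjoint_left]
    intro p h1 h2
    rw [Finset.mem_filter] at h2
    rcases Finset.mem_union.1 h1 with h3 | h3
    · rw [Finset.mem_filter] at h3
      exact absurd h3.2.2.1 (not_lt.2 h2.2.2)
    · rw [Finset.mem_filter] at h3
      have h4 := (h3.2 k (Nat.lt_succ_self k)).one_lt
      exact absurd h4 (not_lt.2 h2.2.2)

/-- Powers of the logarithm are small. -/
private theorem fa_log (k : ℕ) : Tendsto (fun X : ℝ => Real.log X ^ k / X) atTop (nhds 0) :=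
  (Real.isLittleO_pow_log_id_atTop (n := k)).tendsto_div_nhds_zero

/-- One more prime costs a logarithm. -/
private theorem fa_next {f : ℝ → ℝ} {k : ℕ} {c : ℝ}
    (h : Tendsto (fun X : ℝ => f X * Real.log X ^ (k + 1) / X) atTop (nhds c)) :
    Tendsto (fun X : ℝ => f X * Real.log X ^ k / X) atTop (nhds 0) := by
  have h1 : Tendsto (fun X : ℝ => (Real.log X)⁻¹) atTop (nhds 0) :=
    Real.tendsto_log_atTop.inv_tendsto_atTop
  have h2 := h.mul h1
  rw [mul_zero] at h2
  refine h2.congr' ?_
  filter_upwards [eventually_gt_atTop (1 : ℝ)] with X hX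
  have h3 : Real.log X ≠ 0 := (Real.log_pos hX).ne'
  have h4 : X ≠ 0 := by linarith
  field_simp
  ring

theorem finA : ∀ᵐ α : ℝ, 1 < α → ∀ β : ℝ, ∀ k : ℕ, 1 ≤ k → k ≤ 3 →
    Tendsto (fun X : ℕ => (count α β k X : ℝ) * Real.log X ^ k / X) atTop (nhds 1) := by
  filter_upwards [fa_good, m4_rat] with α h1 h2 hα β k hk hk3
  have hG := h1 hα
  have hM4 := m4_all hα hG (h2 hα) β
  have a1 := mm_lim hα hG β k hk hk3
  have a2 : Tendsto (fun X : ℝ => (MM α β (k + 1) X : ℝ) * Real.log X ^ k / X) atTop (nhds 0) := by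
    rcases Nat.lt_or_ge k 3 with h3 | h3
    · exact fa_next (mm_lim hα hG β (k + 1) (by omega) (by omega))
    · have h4 : k = 3 := le_antisymm hk3 h3
      subst h4
      exact hM4
  have b1 := a1.comp tendsto_natCast_atTop_atTop
  have b2 := a2.comp tendsto_natCast_atTop_atTop
  have b3 := (fa_log k).comp tendsto_natCast_atTop_atTop
  have b4 : Tendsto (fun X : ℕ => (faR α β k X : ℝ) * Real.log X ^ k / X) atTop (nhds 0) := by
    have b5 := b3.const_mul (⌊1 + k * (|β| + 1)⌋₊ : ℝ)
    rw [mul_zero] at b5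
    refine squeeze_zero' ?_ ?_ b5
    · filter_upwards [eventually_ge_atTop 1] with X hX
      have : (1 : ℝ) ≤ X := by exact_mod_cast hX
      have := Real.log_nonneg this
      positivity
    · filter_upwards [eventually_ge_atTop 1] with X hX
      have h5 : (1 : ℝ) ≤ X := by exact_mod_cast hX
      have h6 := Real.log_nonneg h5
      have h7 : (faR α β k X : ℝ) ≤ ⌊1 + k * (|β| + 1)⌋₊ := by exact_mod_cast faR_le hα k X
      show (faR α β k X : ℝ) * Real.log X ^ k / X ≤ (⌊1 + k * (|β| + 1)⌋₊ : ℝ) * (Real.log X ^ k / X)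
      rw [mul_div_assoc]
      exact mul_le_mul_of_nonneg_right h7 (by positivity)
  have b6 := (b1.sub b2).sub b4
  rw [sub_zero, sub_zero] at b6
  refine b6.congr fun X => ?_
  show (MM α β k X : ℝ) * Real.log X ^ k / X - (MM α β (k + 1) X : ℝ) * Real.log X ^ k / X -
    (faR α β k X : ℝ) * Real.log X ^ k / X = (count α β k X : ℝ) * Real.log X ^ k / X
  rw [fa_split α β k X]
  push_cast
  ring

end HLA
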