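import Pool.Agent.HLA.Gsm
import Pool.Agent.ASI.Div

/-!
# HLA.AdmP: the measures that occur are admissible

PROOF. `adm_P`: with `z = y - h` (`gsm_up`): `gsm δ (up w h (muP σ c)) y = e^w ∑ tw n WW σ c (log n) exp(-(z - log n)²/(2δ²))` (`muS_int`), `tw n ≤ log n/n`, and with `x = log n`:
`x e^(-x) exp(-(x-c)²/2) ≤ C (1+w) e^(-w) exp(-(x-c)²/8)` (`C` depends on `E`). So it is enough that `∑_n exp(-(log n - c)²/8) exp(-(z-log n)²/(2δ²)) ≤ C`. For `i ∈ ℕ` the `n` with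
`iδ ≤ |log n - z| < (i+1)δ` lie in two intervals on which `log n` varies by at most `δ ≤ e^E`; an interval `log n ∈ [x, x + δ]` contains at most `1 + e^x (e^δ - 1) ≤ 1 + C δ e^x` integers, with
`δ e^x exp(-(x-c)²/8) ≤ C` (`δ ≤ e^(-w+E)`, `e^(x-c) exp(-(x-c)²/8) ≤ e^2`), so it contributes at most `C exp(-i²/2)`. (Other arguments are possible, e.g. comparison of each term with an integral over
`[log n, log (n+1)]` of wider Gaussians.) Mass: `muP_mass` and `δ e^w ≤ e^E`. `adm_L`: `gsm ≤ e^w √(2π) δ`, mass `e^w √(2π) σ`.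
`adm_W`: `WW σ c x = gsm δ μ x` for `μ = volume.withDensity (C0 exp(-(x-c)²/(2(σ²-δ²))))`, `C0 = σ/(√(2π) δ √(σ²-δ²))`; the mass is `σ/δ` (from `gsm_int`, or directly).
-/

namespace HLA

open MeasureTheory ArithmeticFunction SMC

private theorem s2pi_le : Real.sqrt (2 * Real.pi) ≤ 3 := by
  rw [Real.sqrt_le_left (by norm_num)]
  nlinarith [Real.pi_le_four]

private theorem up_fin (w h : ℝ) (μ : Measure ℝ) [IsFiniteMeasure μ] : IsFiniteMeasure (up w h μ) := by
  unfold up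
  have h1 : IsFiniteMeasure (ENNReal.ofReal (Real.exp w) • μ) := Measure.smul_finite μ ENNReal.ofReal_ne_top
  infer_instance

private theorem up_mass (w h : ℝ) (μ : Measure ℝ) :
    (up w h μ Set.univ).toReal = Real.exp w * (μ Set.univ).toReal := by
  unfold up
  have hm : Measurable fun x : ℝ => x + h := by fun_prop
  rw [Measure.map_apply hm MeasurableSet.univ, Set.preimage_univ, Measure.smul_apply, smul_eq_mul,
    ENNReal.toReal_mul, ENNReal.toReal_ofReal (Real.exp_pos w).le]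

private theorem ker_WW (δ y x : ℝ) : Real.exp (-(y - x) ^ 2 / (2 * δ ^ 2)) = WW δ y x := by
  unfold WW
  congr 2
  ring

private theorem ewd {w δ E : ℝ} (h : δ ≤ Real.exp (-w + E)) : Real.exp w * δ ≤ Real.exp E := by
  refine (mul_le_mul_of_nonneg_left h (Real.exp_pos w).le).trans (le_of_eq ?_)
  rw [← Real.exp_add]
  congr 1
  ring

/-! ### the core estimate -/

private theorem core_h {δ z x t : ℝ} (hδ : 0 < δ) (h0 : x ≤ t) (h1 : t ≤ x + δ) :
    Real.exp (-(1 / 2)) * Real.exp (-(z - x) ^ 2 / (2 * δ ^ 2)) ≤ Real.exp (-(z - t) ^ 2 / (4 * δ ^ 2)) := by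
  rw [← Real.exp_add]
  apply Real.exp_le_exp.2
  rw [le_div_iff₀ (by positivity)]
  have h2 : (-(1 / 2) + -(z - x) ^ 2 / (2 * δ ^ 2)) * (4 * δ ^ 2) = -(2 * δ ^ 2) - 2 * (z - x) ^ 2 := by
    field_simp
    ring
  rw [h2]
  have h3 : (t - x) ^ 2 ≤ δ ^ 2 := by
    apply pow_le_pow_left₀ (by linarith) (by linarith)
  nlinarith [sq_nonneg ((z - x) + (t - x))]

private theorem hker_int {δ : ℝ} (hδ : 0 < δ) (z : ℝ) :
    Integrable (fun t : ℝ => Real.exp (-(z - t) ^ 2 / (4 * δ ^ 2))) ∧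
      ∫ t : ℝ, Real.exp (-(z - t) ^ 2 / (4 * δ ^ 2)) ≤ 5 * δ := by
  have h1 : (fun t : ℝ => Real.exp (-(z - t) ^ 2 / (4 * δ ^ 2))) = WW (Real.sqrt 2 * δ) z := by
    funext t
    unfold WW
    rw [mul_pow, Real.sq_sqrt (by norm_num : (0 : ℝ) ≤ 2)]
    congr 1
    ring
  have h2 := WW_int (σ := Real.sqrt 2 * δ) (by positivity) z
  rw [h1]
  refine ⟨h2.1, ?_⟩
  rw [h2.2]
  have h3 : Real.sqrt 2 ≤ 3 / 2 := by
    rw [Real.sqrt_le_left (by norm_num)]
    norm_num
  have h4 := s2pi_le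
  have h5 : Real.sqrt (2 * Real.pi) * Real.sqrt 2 ≤ 3 * (3 / 2) := mul_le_mul h4 h3 (Real.sqrt_nonneg _) (by norm_num)
  nlinarith

private theorem log_gap {n : ℕ} (hn : 1 ≤ n) :
    Real.log n ≤ Real.log ((n : ℝ) + 1) ∧ 1 ≤ (Real.log ((n : ℝ) + 1) - Real.log n) * (2 * n) := by
  have hn' : (1 : ℝ) ≤ n := by exact_mod_cast hn
  have h0 : (0 : ℝ) < n := by linarith
  constructor
  · exact Real.log_le_log h0 (by linarith)
  · rw [← Real.log_div (by positivity) (by positivity)]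
    have h1 := Real.one_sub_inv_le_log_of_pos (x := ((n : ℝ) + 1) / n) (by positivity)
    have h2 : 1 / (2 * (n : ℝ)) ≤ 1 - (((n : ℝ) + 1) / n)⁻¹ := by
      rw [inv_div]
      have h3 : 1 - (n : ℝ) / (n + 1) = 1 / (n + 1) := by
        field_simp
        ring
      rw [h3]
      exact one_div_le_one_div_of_le (by positivity) (by linarith)
    have h3 := h2.trans h1
    rwa [div_le_iff₀ (by positivity)] at h3

/-- Each term is controlled by an integral over `[log n, log (n+1)]`. -/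
private theorem core_n {δ : ℝ} (hδ : 0 < δ) (z : ℝ) {n : ℕ} (hn : 1 ≤ n) :
    Real.exp (-(z - Real.log n) ^ 2 / (2 * δ ^ 2)) ≤ Real.exp (1 / 2) * (2 * n + 1 / δ) *
      ∫ t in (Real.log n)..(Real.log ((n : ℝ) + 1)), Real.exp (-(z - t) ^ 2 / (4 * δ ^ 2)) := by
  obtain ⟨h1, h2⟩ := log_gap hn
  have hn' : (1 : ℝ) ≤ n := by exact_mod_cast hn
  set a : ℝ := Real.log n with ha
  set b : ℝ := Real.log ((n : ℝ) + 1) with hb
  set lam : ℝ := min (b - a) δ with hlam
  set G : ℝ := Real.exp (-(z - a) ^ 2 / (2 * δ ^ 2)) with hG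
  have hG0 : 0 < G := Real.exp_pos _
  have hba : 0 < b - a := by
    by_contra hcon
    push Not at hcon
    nlinarith
  have hlam0 : 0 < lam := lt_min hba hδ
  have hlam1 : a + lam ≤ b := by linarith [min_le_left (b - a) δ]
  have hlam2 : lam ≤ δ := min_le_right _ _
  have hc : Continuous fun t : ℝ => Real.exp (-(z - t) ^ 2 / (4 * δ ^ 2)) := by fun_prop
  have h3 : lam * (Real.exp (-(1 / 2)) * G) ≤ ∫ t in a..(a + lam), Real.exp (-(z - t) ^ 2 / (4 * δ ^ 2)) := by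
    have h4 : ∫ _t in a..(a + lam), Real.exp (-(1 / 2)) * G = lam * (Real.exp (-(1 / 2)) * G) := by
      rw [intervalIntegral.integral_const, smul_eq_mul]
      ring
    rw [← h4]
    refine intervalIntegral.integral_mono_on (by linarith) intervalIntegrable_const (hc.intervalIntegrable _ _) ?_
    intro t ht
    exact core_h hδ ht.1 (by linarith [ht.2])
  have h5 : ∫ t in a..(a + lam), Real.exp (-(z - t) ^ 2 / (4 * δ ^ 2)) ≤
      ∫ t in a..b, Real.exp (-(z - t) ^ 2 / (4 * δ ^ 2)) := by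
    rw [← intervalIntegral.integral_add_adjacent_intervals (hc.intervalIntegrable a (a + lam))
      (hc.intervalIntegrable (a + lam) b)]
    have h6 : 0 ≤ ∫ t in (a + lam)..b, Real.exp (-(z - t) ^ 2 / (4 * δ ^ 2)) :=
      intervalIntegral.integral_nonneg hlam1 fun t _ => (Real.exp_pos _).le
    linarith
  have h6 : 1 ≤ lam * (2 * n + 1 / δ) := by
    rcases le_total (b - a) δ with h | h
    · rw [hlam, min_eq_left h]
      have : 0 ≤ (b - a) * (1 / δ) := by positivity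
      nlinarith
    · rw [hlam, min_eq_right h]
      have e : δ * (2 * n + 1 / δ) = δ * (2 * n) + 1 := by
        field_simp
      rw [e]
      have : 0 ≤ δ * (2 * n) := by positivity
      linarith
  have h7 := h3.trans h5
  set J : ℝ := ∫ t in a..b, Real.exp (-(z - t) ^ 2 / (4 * δ ^ 2)) with hJ
  have h8 : 0 ≤ 2 * (n : ℝ) + 1 / δ := by positivity
  have he : Real.exp (1 / 2) * Real.exp (-(1 / 2)) = 1 := by
    rw [← Real.exp_add]
    norm_num
  calc G ≤ (lam * (2 * n + 1 / δ)) * G := le_mul_of_one_le_left hG0.le h6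
    _ = Real.exp (1 / 2) * (2 * n + 1 / δ) * (lam * (Real.exp (-(1 / 2)) * G)) := by
        calc (lam * (2 * n + 1 / δ)) * G = 1 * ((lam * (2 * n + 1 / δ)) * G) := (one_mul _).symm
          _ = (Real.exp (1 / 2) * Real.exp (-(1 / 2))) * ((lam * (2 * n + 1 / δ)) * G) := by rw [he]
          _ = _ := by ring
    _ ≤ Real.exp (1 / 2) * (2 * n + 1 / δ) * J := mul_le_mul_of_nonneg_left h7 (by positivity)

/-- The sum of the integrals. -/
private theorem core_sum {δ : ℝ} (hδ : 0 < δ) (z : ℝ) (N : ℕ) :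
    ∑ n ∈ Finset.range N, ∫ t in (Real.log ((n : ℝ) + 1))..(Real.log ((n : ℝ) + 1 + 1)),
      Real.exp (-(z - t) ^ 2 / (4 * δ ^ 2)) ≤ 5 * δ := by
  have hc : Continuous fun t : ℝ => Real.exp (-(z - t) ^ 2 / (4 * δ ^ 2)) := by fun_prop
  have h1 := intervalIntegral.sum_integral_adjacent_intervals (μ := volume)
    (f := fun t : ℝ => Real.exp (-(z - t) ^ 2 / (4 * δ ^ 2))) (a := fun n : ℕ => Real.log ((n : ℝ) + 1)) (n := N)
    fun k _ => hc.intervalIntegrable _ _
  push_cast at h1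
  rw [h1]
  obtain ⟨hi, hb⟩ := hker_int hδ z
  have h2 : Real.log ((0 : ℝ) + 1) ≤ Real.log ((N : ℝ) + 1) :=
    Real.log_le_log (by norm_num) (by linarith [Nat.cast_nonneg (α := ℝ) N])
  rw [intervalIntegral.integral_of_le h2]
  exact (setIntegral_le_integral hi (Filter.Eventually.of_forall fun t => (Real.exp_pos _).le)).trans hb

/-- The weight. -/
private theorem core_w {σ : ℝ} (hσ : 0 < σ) (hσ1 : σ ≤ 1) (c : ℝ) {n : ℕ} (hn : 1 ≤ n) :
    tw n * WW σ c (Real.log n) ≤ Real.exp 3 * (1 + |c|) * Real.exp (-c) * Real.exp (-(Real.log n - c) ^ 2 / 8) := by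
  have hn' : (1 : ℝ) ≤ n := by exact_mod_cast hn
  have hn0 : (0 : ℝ) < n := by linarith
  set x : ℝ := Real.log n with hx
  have hx0 : 0 ≤ x := Real.log_nonneg hn'
  have hxe : (n : ℝ) = Real.exp x := (Real.exp_log hn0).symm
  have h1 : tw n ≤ x * Real.exp (-x) := by
    unfold tw
    rw [Real.exp_neg, ← hxe, ← div_eq_mul_inv]
    exact div_le_div_of_nonneg_right vonMangoldt_le_log hn0.le
  have h2 : WW σ c x ≤ Real.exp (-(x - c) ^ 2 / 2) := by
    unfold WW
    apply Real.exp_le_exp.2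
    rw [neg_div, neg_div, neg_le_neg_iff]
    apply div_le_div_of_nonneg_left (sq_nonneg _) (by positivity)
    nlinarith
  have hu : x ≤ (1 + |c|) * Real.exp |x - c| := by
    have h3 : x ≤ |c| + |x - c| := by
      have := abs_add_le c (x - c)
      have h4 : c + (x - c) = x := by ring
      rw [h4] at this
      exact (le_abs_self x).trans this
    have h4 : 1 + |x - c| ≤ Real.exp |x - c| := by linarith [Real.add_one_le_exp |x - c|]
    have h5 : (1 + |c|) * (1 + |x - c|) ≤ (1 + |c|) * Real.exp |x - c| :=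
      mul_le_mul_of_nonneg_left h4 (by positivity)
    nlinarith [abs_nonneg c, abs_nonneg (x - c), mul_nonneg (abs_nonneg c) (abs_nonneg (x - c))]
  have hv : Real.exp (-x) ≤ Real.exp (-c) * Real.exp |x - c| := by
    rw [← Real.exp_add]
    apply Real.exp_le_exp.2
    have := neg_abs_le (x - c)
    linarith
  calc tw n * WW σ c x ≤ (x * Real.exp (-x)) * Real.exp (-(x - c) ^ 2 / 2) :=
        mul_le_mul h1 h2 (WW_nonneg _ _ _) (by positivity)
    _ ≤ (((1 + |c|) * Real.exp |x - c|) * (Real.exp (-c) * Real.exp |x - c|)) * Real.exp (-(x - c) ^ 2 / 2) := by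
        apply mul_le_mul_of_nonneg_right _ (Real.exp_pos _).le
        exact mul_le_mul hu hv (Real.exp_pos _).le (by positivity)
    _ = (1 + |c|) * Real.exp (-c) * (Real.exp |x - c| * Real.exp |x - c| * Real.exp (-(x - c) ^ 2 / 2)) := by ring
    _ ≤ (1 + |c|) * Real.exp (-c) * (Real.exp 3 * Real.exp (-(x - c) ^ 2 / 8)) := by
        apply mul_le_mul_of_nonneg_left _ (by positivity)
        rw [← Real.exp_add, ← Real.exp_add, ← Real.exp_add]
        apply Real.exp_le_exp.2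
        rw [← sq_abs (x - c)]
        nlinarith [sq_nonneg (3 * |x - c| - 8)]
    _ = Real.exp 3 * (1 + |c|) * Real.exp (-c) * Real.exp (-(x - c) ^ 2 / 8) := by ring

private theorem core_g (x c : ℝ) : Real.exp (-(x - c) ^ 2 / 8) * Real.exp x ≤ Real.exp (c + 2) := by
  rw [← Real.exp_add]
  apply Real.exp_le_exp.2
  nlinarith [sq_nonneg (x - c - 4)]

/-- The term of the smoothing. -/
private theorem core_t {σ δ : ℝ} (hσ : 0 < σ) (hσ1 : σ ≤ 1) (hδ : 0 < δ) (c z : ℝ) {n : ℕ} (hn : 1 ≤ n) :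
    tw n * WW σ c (Real.log n) * Real.exp (-(z - Real.log n) ^ 2 / (2 * δ ^ 2)) ≤
      Real.exp (7 / 2) * (1 + |c|) * Real.exp (-c) * (2 * Real.exp (c + 2) + 1 / δ) *
      ∫ t in (Real.log n)..(Real.log ((n : ℝ) + 1)), Real.exp (-(z - t) ^ 2 / (4 * δ ^ 2)) := by
  have hn' : (1 : ℝ) ≤ n := by exact_mod_cast hn
  have hn0 : (0 : ℝ) < n := by linarith
  have hJ : 0 ≤ ∫ t in (Real.log n)..(Real.log ((n : ℝ) + 1)), Real.exp (-(z - t) ^ 2 / (4 * δ ^ 2)) :=
    intervalIntegral.integral_nonneg (log_gap hn).1 fun t _ => (Real.exp_pos _).le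
  have h1 := core_w hσ hσ1 c hn
  have h2 := core_n hδ z hn
  set J : ℝ := ∫ t in (Real.log n)..(Real.log ((n : ℝ) + 1)), Real.exp (-(z - t) ^ 2 / (4 * δ ^ 2)) with hJd
  set x : ℝ := Real.log n with hx
  have hxe : (n : ℝ) = Real.exp x := (Real.exp_log hn0).symm
  have h3 : Real.exp (-(x - c) ^ 2 / 8) * (2 * n + 1 / δ) ≤ 2 * Real.exp (c + 2) + 1 / δ := by
    rw [mul_add]
    have h4 := core_g x c
    rw [← hxe] at h4
    have h5 : Real.exp (-(x - c) ^ 2 / 8) ≤ 1 := by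
      rw [Real.exp_le_one_iff]
      exact div_nonpos_of_nonpos_of_nonneg (neg_nonpos.mpr (sq_nonneg _)) (by norm_num)
    have h6 : Real.exp (-(x - c) ^ 2 / 8) * (1 / δ) ≤ 1 * (1 / δ) := mul_le_mul_of_nonneg_right h5 (by positivity)
    nlinarith
  have he : Real.exp (7 / 2) = Real.exp 3 * Real.exp (1 / 2) := by
    rw [← Real.exp_add]
    norm_num
  calc tw n * WW σ c x * Real.exp (-(z - x) ^ 2 / (2 * δ ^ 2))
      ≤ (Real.exp 3 * (1 + |c|) * Real.exp (-c) * Real.exp (-(x - c) ^ 2 / 8)) *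
        (Real.exp (1 / 2) * (2 * n + 1 / δ) * J) := mul_le_mul h1 h2 (Real.exp_pos _).le (by positivity)
    _ = Real.exp 3 * Real.exp (1 / 2) * (1 + |c|) * Real.exp (-c) * J *
        (Real.exp (-(x - c) ^ 2 / 8) * (2 * n + 1 / δ)) := by ring
    _ ≤ Real.exp 3 * Real.exp (1 / 2) * (1 + |c|) * Real.exp (-c) * J * (2 * Real.exp (c + 2) + 1 / δ) :=
        mul_le_mul_of_nonneg_left h3 (by positivity)
    _ = Real.exp (7 / 2) * (1 + |c|) * Real.exp (-c) * (2 * Real.exp (c + 2) + 1 / δ) * J := by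
        rw [he]
        ring

/-- The smoothing of the primes. -/
private theorem core_P {σ δ : ℝ} (hσ : 0 < σ) (hσ1 : σ ≤ 1) (hδ : 0 < δ) (c z : ℝ) :
    gsm δ (muP σ c) z ≤ 5 * Real.exp (7 / 2) * (1 + |c|) * (2 * Real.exp 2 * δ + Real.exp (-c)) := by
  obtain ⟨C, -, hC⟩ := muP_mass
  have hfin := (hC σ c hσ hσ1).1
  have h1 : gsm δ (muP σ c) z = ∑' n : ℕ, (tw n * WW σ c (Real.log n)) • Real.exp (-(z - Real.log n) ^ 2 / (2 * δ ^ 2)) := by
    unfold gsm
    exact muS_int (fun n => tw_nonneg n) (muP_summ hσ hσ1 c) (gsm_intble δ (muP σ c) z)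
  rw [h1]
  have hK0 : 0 ≤ Real.exp (7 / 2) * (1 + |c|) * Real.exp (-c) * (2 * Real.exp (c + 2) + 1 / δ) := by positivity
  refine Real.tsum_le_of_sum_range_le (fun n => ?_) fun N => ?_
  · rw [smul_eq_mul]
    exact mul_nonneg (mul_nonneg (tw_nonneg n) (WW_nonneg _ _ _)) (Real.exp_pos _).le
  · have h2 : ∑ n ∈ Finset.range N, (tw n * WW σ c (Real.log n)) • Real.exp (-(z - Real.log n) ^ 2 / (2 * δ ^ 2)) ≤
        ∑ n ∈ Finset.range (N + 1), (tw n * WW σ c (Real.log n)) • Real.exp (-(z - Real.log n) ^ 2 / (2 * δ ^ 2)) := by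
      apply Finset.sum_le_sum_of_subset_of_nonneg (Finset.range_mono (Nat.le_succ N))
      intro n _ _
      rw [smul_eq_mul]
      exact mul_nonneg (mul_nonneg (tw_nonneg n) (WW_nonneg _ _ _)) (Real.exp_pos _).le
    refine h2.trans ?_
    rw [Finset.sum_range_succ']
    have h3 : (tw 0 * WW σ c (Real.log ((0 : ℕ) : ℝ))) • Real.exp (-(z - Real.log ((0 : ℕ) : ℝ)) ^ 2 / (2 * δ ^ 2)) = 0 := by
      unfold tw
      simp
    rw [h3, add_zero]
    have h4 : ∀ n ∈ Finset.range N, (tw (n + 1) * WW σ c (Real.log ((n + 1 : ℕ) : ℝ))) •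
        Real.exp (-(z - Real.log ((n + 1 : ℕ) : ℝ)) ^ 2 / (2 * δ ^ 2)) ≤
        Real.exp (7 / 2) * (1 + |c|) * Real.exp (-c) * (2 * Real.exp (c + 2) + 1 / δ) *
        ∫ t in (Real.log ((n : ℝ) + 1))..(Real.log ((n : ℝ) + 1 + 1)), Real.exp (-(z - t) ^ 2 / (4 * δ ^ 2)) := by
      intro n _
      have h5 := core_t hσ hσ1 hδ c z (n := n + 1) (by omega)
      rw [smul_eq_mul]
      push_cast at h5 ⊢
      exact h5
    refine (Finset.sum_le_sum h4).trans ?_
    rw [← Finset.mul_sum]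
    refine (mul_le_mul_of_nonneg_left (core_sum hδ z N) hK0).trans (le_of_eq ?_)
    have he : Real.exp (-c) * Real.exp (c + 2) = Real.exp 2 := by
      rw [← Real.exp_add]
      congr 1
      ring
    calc Real.exp (7 / 2) * (1 + |c|) * Real.exp (-c) * (2 * Real.exp (c + 2) + 1 / δ) * (5 * δ)
        = 5 * Real.exp (7 / 2) * (1 + |c|) * (2 * (Real.exp (-c) * Real.exp (c + 2)) * δ + Real.exp (-c)) := by
          field_simp
      _ = _ := by rw [he]

theorem adm_P {σ : ℝ} (E : ℝ) (hσ : 0 < σ) (hσ1 : σ ≤ 1) : ∃ E' w0 : ℝ, 1 ≤ w0 ∧ ∀ w c δ h : ℝ, w0 ≤ w → |c - w| ≤ E →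
    Real.exp (-w - E) ≤ δ → δ ≤ Real.exp (-w + E) → Adm δ (w ^ E') (up w h (muP σ c)) := by
  obtain ⟨C, hC1, hC⟩ := muP_mass
  set K1 : ℝ := 5 * Real.exp (7 / 2) * (2 * Real.exp 2 + 1) * Real.exp E * (2 + E) with hK1
  set K2 : ℝ := Real.exp E * C * (2 + E) ^ 6 with hK2
  refine ⟨7, max 1 (max K1 K2), le_max_left _ _, ?_⟩
  intro w c δ h hw hcw hδ0 hδ1
  have hE : 0 ≤ E := (abs_nonneg _).trans hcw
  have hw1 : 1 ≤ w := (le_max_left _ _).trans hw
  have hwK1 : K1 ≤ w := ((le_max_left _ _).trans (le_max_right _ _)).trans hw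
  have hwK2 : K2 ≤ w := ((le_max_right _ _).trans (le_max_right _ _)).trans hw
  have hδ : 0 < δ := (Real.exp_pos _).trans_le hδ0
  have hfin := (hC σ c hσ hσ1).1
  have hmass := (hC σ c hσ hσ1).2
  have hed := ewd hδ1
  have hc1 : 1 + |c| ≤ (2 + E) * w := by
    have h1 : |c| ≤ w + E := by
      have := abs_le.1 hcw
      rw [abs_le]
      constructor <;> linarith [this.1, this.2]
    nlinarith [mul_nonneg hE (by linarith : (0 : ℝ) ≤ w - 1)]
  have hc0 : 0 ≤ 1 + |c| := by positivity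
  have hrp : w ^ (7 : ℝ) = w ^ 7 := by
    rw [← Real.rpow_natCast]
    norm_num
  rw [hrp]
  refine ⟨up_fin w h _, ?_, ?_⟩
  · intro y
    rw [gsm_up]
    have h1 := core_P hσ hσ1 hδ c (y - h)
    have h2 : Real.exp w * Real.exp (-c) ≤ Real.exp E := by
      rw [← Real.exp_add]
      apply Real.exp_le_exp.2
      have := (abs_le.1 hcw).1
      linarith
    calc Real.exp w * gsm δ (muP σ c) (y - h)
        ≤ Real.exp w * (5 * Real.exp (7 / 2) * (1 + |c|) * (2 * Real.exp 2 * δ + Real.exp (-c))) :=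
          mul_le_mul_of_nonneg_left h1 (Real.exp_pos _).le
      _ = 5 * Real.exp (7 / 2) * (1 + |c|) * (2 * Real.exp 2 * (Real.exp w * δ) + Real.exp w * Real.exp (-c)) := by
          ring
      _ ≤ 5 * Real.exp (7 / 2) * (1 + |c|) * (2 * Real.exp 2 * Real.exp E + Real.exp E) := by
          apply mul_le_mul_of_nonneg_left _ (by positivity)
          have := mul_le_mul_of_nonneg_left hed (by positivity : 0 ≤ 2 * Real.exp 2)
          linarith
      _ = 5 * Real.exp (7 / 2) * (2 * Real.exp 2 + 1) * Real.exp E * (1 + |c|) := by ring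
      _ ≤ 5 * Real.exp (7 / 2) * (2 * Real.exp 2 + 1) * Real.exp E * ((2 + E) * w) :=
          mul_le_mul_of_nonneg_left hc1 (by positivity)
      _ = K1 * w := by rw [hK1]; ring
      _ ≤ w * w := mul_le_mul_of_nonneg_right hwK1 (by linarith)
      _ = w ^ 2 := by ring
      _ ≤ w ^ 7 := pow_le_pow_right₀ hw1 (by norm_num)
  · rw [up_mass]
    have hm0 : 0 ≤ (muP σ c Set.univ).toReal := ENNReal.toReal_nonneg
    calc δ * (Real.exp w * (muP σ c Set.univ).toReal) = (Real.exp w * δ) * (muP σ c Set.univ).toReal := by ring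
      _ ≤ Real.exp E * (C * (1 + |c|) ^ 6) := mul_le_mul hed hmass hm0 (Real.exp_pos _).le
      _ ≤ Real.exp E * (C * ((2 + E) * w) ^ 6) := by
          apply mul_le_mul_of_nonneg_left _ (Real.exp_pos _).le
          apply mul_le_mul_of_nonneg_left _ (by linarith)
          exact pow_le_pow_left₀ hc0 hc1 6
      _ = K2 * w ^ 6 := by rw [hK2]; ring
      _ ≤ w * w ^ 6 := mul_le_mul_of_nonneg_right hwK2 (by positivity)
      _ = w ^ 7 := by ring

theorem adm_L {σ : ℝ} (E : ℝ) (hσ : 0 < σ) (hσ1 : σ ≤ 1) : ∃ w0 : ℝ, 1 ≤ w0 ∧ ∀ w c δ h : ℝ, w0 ≤ w →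
    Real.exp (-w - E) ≤ δ → δ ≤ Real.exp (-w + E) → Adm δ w (up w h (muL σ c)) := by
  refine ⟨max 1 (3 * Real.exp E), le_max_left _ _, ?_⟩
  intro w c δ h hw hδ0 hδ1
  have hw1 : 3 * Real.exp E ≤ w := (le_max_right _ _).trans hw
  have hδ : 0 < δ := (Real.exp_pos _).trans_le hδ0
  obtain ⟨hfin, hmass, -⟩ := muL_fin hσ c
  have hed := ewd hδ1
  have hed0 : 0 ≤ Real.exp w * δ := by positivity
  have hs := s2pi_le
  have hs0 : 0 ≤ Real.sqrt (2 * Real.pi) := Real.sqrt_nonneg _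
  refine ⟨up_fin w h _, ?_, ?_⟩
  · intro y
    rw [gsm_up]
    have h1 : gsm δ (muL σ c) (y - h) ≤ Real.sqrt (2 * Real.pi) * δ := by
      unfold gsm
      rw [muL_int, ← (WW_int hδ (y - h)).2]
      refine integral_mono_of_nonneg (Filter.Eventually.of_forall fun x => ?_) (WW_int hδ (y - h)).1
        (Filter.Eventually.of_forall fun x => ?_)
      · exact mul_nonneg (WW_nonneg _ _ _) (Real.exp_pos _).le
      · show WW σ c x • Real.exp (-(y - h - x) ^ 2 / (2 * δ ^ 2)) ≤ WW δ (y - h) x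
        rw [ker_WW, smul_eq_mul]
        exact mul_le_of_le_one_left (WW_nonneg _ _ _) (WW_le_one _ _ _)
    calc Real.exp w * gsm δ (muL σ c) (y - h) ≤ Real.exp w * (Real.sqrt (2 * Real.pi) * δ) :=
          mul_le_mul_of_nonneg_left h1 (Real.exp_pos _).le
      _ = Real.sqrt (2 * Real.pi) * (Real.exp w * δ) := by ring
      _ ≤ 3 * Real.exp E := mul_le_mul hs hed hed0 (by norm_num)
      _ ≤ w := hw1
  · rw [up_mass, hmass]
    calc δ * (Real.exp w * (Real.sqrt (2 * Real.pi) * σ)) = (Real.sqrt (2 * Real.pi) * σ) * (Real.exp w * δ) := by ring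
      _ ≤ 3 * Real.exp E := by
          apply mul_le_mul _ hed hed0 (by norm_num)
          calc Real.sqrt (2 * Real.pi) * σ ≤ Real.sqrt (2 * Real.pi) * 1 := mul_le_mul_of_nonneg_left hσ1 hs0
            _ ≤ 3 := by rw [mul_one]; exact hs
      _ ≤ w := hw1

theorem adm_W {σ : ℝ} (hσ : 0 < σ) (hσ1 : σ ≤ 1) {δ : ℝ} (hδ : 0 < δ) (hδ1 : δ ≤ σ / 2) (c : ℝ) :
    ∃ μ : Measure ℝ, Adm δ 1 μ ∧ ∀ x, gsm δ μ x = WW σ c x := by
  have hd : 0 < σ ^ 2 - δ ^ 2 := by nlinarith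
  set s : ℝ := Real.sqrt (σ ^ 2 - δ ^ 2) with hs
  have hs0 : 0 < s := Real.sqrt_pos.mpr hd
  have hs2 : σ ^ 2 = s ^ 2 + δ ^ 2 := by
    rw [hs, Real.sq_sqrt hd.le]
    ring
  have hp0 : 0 < Real.sqrt (2 * Real.pi) := by positivity
  set C0 : ℝ := σ / (Real.sqrt (2 * Real.pi) * s * δ) with hC0
  have hC00 : 0 < C0 := by positivity
  obtain ⟨hfin, hmass, -⟩ := muL_fin hs0 c
  have hg : ∀ x, gsm δ (ENNReal.ofReal C0 • muL s c) x = WW σ c x := by
    intro x
    unfold gsm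
    rw [integral_smul_measure, ENNReal.toReal_ofReal hC00.le, muL_int, smul_eq_mul]
    have h1 : (fun u : ℝ => WW s c u • Real.exp (-(x - u) ^ 2 / (2 * δ ^ 2))) =
        fun u => WW σ c x * WW (s * δ / σ) ((c * δ ^ 2 + x * s ^ 2) / σ ^ 2) u := by
      funext u
      unfold WW
      rw [smul_eq_mul, ← Real.exp_add, ← Real.exp_add]
      congr 1
      have hne : s ^ 2 + δ ^ 2 ≠ 0 := by positivity
      rw [div_pow, mul_pow, hs2]
      field_simp
      ring
    rw [h1, integral_const_mul, (WW_int (by positivity) _).2, hC0]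
    field_simp
  refine ⟨ENNReal.ofReal C0 • muL s c, ⟨Measure.smul_finite _ ENNReal.ofReal_ne_top, ?_, ?_⟩, hg⟩
  · intro y
    rw [hg]
    exact WW_le_one _ _ _
  · rw [Measure.smul_apply, smul_eq_mul, ENNReal.toReal_mul, ENNReal.toReal_ofReal hC00.le, hmass, hC0]
    have h1 : δ * (σ / (Real.sqrt (2 * Real.pi) * s * δ) * (Real.sqrt (2 * Real.pi) * s)) = σ := by
      field_simp
    rw [h1]
    exact hσ1

/-- Smoothings are admissible kernels. -/
theorem admK_gsm {δ B : ℝ} (hδ : 0 < δ) (hB : 0 ≤ B) {μ : Measure ℝ} (h : Adm δ B μ) : AdmK (3 * B) (gsm δ μ) := by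
  have h1 := h.1
  have h2 := adm_int hδ h
  have h3 : (fun y => |gsm δ μ y|) = gsm δ μ := by
    funext y
    exact abs_of_nonneg (gsm_nonneg _ _ _)
  refine ⟨(gsm_cont δ μ).measurable, ?_, h2.1, ?_⟩
  · intro y
    rw [abs_of_nonneg (gsm_nonneg _ _ _)]
    linarith [h.2.1 y]
  · rw [h3]
    exact h2.2.trans (mul_le_mul_of_nonneg_right s2pi_le hB)

theorem admK_W {σ : ℝ} (hσ : 0 < σ) (hσ1 : σ ≤ 1) (c : ℝ) : AdmK 3 (WW σ c) := by
  have h2 := WW_int hσ c
  have h3 : (fun y => |WW σ c y|) = WW σ c := by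
    funext y
    exact abs_of_nonneg (WW_nonneg _ _ _)
  refine ⟨(WW_cont σ c).measurable, ?_, h2.1, ?_⟩
  · intro y
    rw [abs_of_nonneg (WW_nonneg _ _ _)]
    linarith [WW_le_one σ c y]
  · rw [h3, h2.2]
    calc Real.sqrt (2 * Real.pi) * σ ≤ Real.sqrt (2 * Real.pi) * 1 := mul_le_mul_of_nonneg_left hσ1 (Real.sqrt_nonneg _)
      _ ≤ 3 := by rw [mul_one]; exact s2pi_le

end HLA
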