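import Pool.Agent.HLA.Defs

/-!
# HLA.Trp: trapezoid functions

PROOF. Elementary. The integral: `trp a b τ` is `1` on `[a,b]` and linear on `[a-τ, a]`, `[b, b+τ]`: `b - a + τ`.
-/

namespace HLA

open MeasureTheory

theorem trp_cont (a b : ℝ) {τ : ℝ} (hτ : 0 < τ) : Continuous (trp a b τ) := by
  have _ := hτ
  unfold trp
  fun_prop

theorem trp_bd (a b τ x : ℝ) : 0 ≤ trp a b τ x ∧ trp a b τ x ≤ 1 := by
  unfold trp
  exact ⟨le_max_left _ _, max_le zero_le_one (min_le_left _ _)⟩

theorem trp_one {a b τ x : ℝ} (hτ : 0 < τ) (h1 : a ≤ x) (h2 : x ≤ b) : trp a b τ x = 1 := by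
  unfold trp
  have e1 : 0 ≤ (x - a) / τ := div_nonneg (by linarith) hτ.le
  have e2 : 0 ≤ (b - x) / τ := div_nonneg (by linarith) hτ.le
  rw [min_eq_left (le_min (by linarith) (by linarith)), max_eq_right zero_le_one]

theorem trp_zero {a b τ x : ℝ} (hτ : 0 < τ) (h : x ≤ a - τ ∨ b + τ ≤ x) : trp a b τ x = 0 := by
  unfold trp
  refine max_eq_left ?_
  rcases h with h | h
  · refine (min_le_right _ _).trans ((min_le_left _ _).trans ?_)
    have : (x - a) / τ ≤ -1 := by
      rw [div_le_iff₀ hτ]
      linarith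
    linarith
  · refine (min_le_right _ _).trans ((min_le_right _ _).trans ?_)
    have : (b - x) / τ ≤ -1 := by
      rw [div_le_iff₀ hτ]
      linarith
    linarith

theorem trp_supp (a b : ℝ) {τ : ℝ} (hτ : 0 < τ) : HasCompactSupport (trp a b τ) := by
  refine HasCompactSupport.intro (isCompact_Icc (a := a - τ) (b := b + τ)) fun x hx => ?_
  rw [Set.mem_Icc, not_and_or, not_le, not_le] at hx
  exact trp_zero hτ (hx.imp le_of_lt le_of_lt)

theorem trp_int {a b τ : ℝ} (hab : a ≤ b) (hτ : 0 < τ) : Integrable (trp a b τ) ∧ ∫ x, trp a b τ x = b - a + τ := by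
  have hc := trp_cont a b hτ
  refine ⟨hc.integrable_of_hasCompactSupport (trp_supp a b hτ), ?_⟩
  have hs : Function.support (trp a b τ) ⊆ Set.Ioc (a - τ) (b + τ) := by
    intro x hx
    by_contra hn
    rw [Set.mem_Ioc, not_and_or, not_lt, not_le] at hn
    exact hx (trp_zero hτ (hn.imp id le_of_lt))
  rw [← intervalIntegral.integral_eq_integral_of_support_subset hs]
  have hi : ∀ u v : ℝ, IntervalIntegrable (trp a b τ) volume u v := fun u v =>
    hc.intervalIntegrable u v
  rw [← intervalIntegral.integral_add_adjacent_intervals (hi (a - τ) a) (hi a (b + τ)),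
    ← intervalIntegral.integral_add_adjacent_intervals (hi a b) (hi b (b + τ))]
  have e1 : ∫ x in (a - τ)..a, trp a b τ x = ∫ x in (a - τ)..a, (x * (1 / τ) + (1 - a / τ)) := by
    refine intervalIntegral.integral_congr fun x hx => ?_
    rw [Set.uIcc_of_le (by linarith), Set.mem_Icc] at hx
    have h1 : (x - a) / τ ≤ 0 := div_nonpos_of_nonpos_of_nonneg (by linarith) hτ.le
    have h2 : 0 ≤ (b - x) / τ := div_nonneg (by linarith) hτ.le
    have h3 : -1 ≤ (x - a) / τ := by
      rw [le_div_iff₀ hτ]
      linarith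
    show max 0 (min 1 (min ((x - a) / τ + 1) ((b - x) / τ + 1))) = _
    rw [min_eq_left (by linarith : (x - a) / τ + 1 ≤ (b - x) / τ + 1),
      min_eq_right (by linarith : (x - a) / τ + 1 ≤ 1), max_eq_right (by linarith)]
    show (x - a) / τ + 1 = x * (1 / τ) + (1 - a / τ)
    ring
  have e2 : ∫ x in a..b, trp a b τ x = ∫ x in a..b, (1 : ℝ) := by
    refine intervalIntegral.integral_congr fun x hx => ?_
    rw [Set.uIcc_of_le hab, Set.mem_Icc] at hx
    exact trp_one hτ hx.1 hx.2
  have e3 : ∫ x in b..(b + τ), trp a b τ x =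
      ∫ x in b..(b + τ), (x * (-(1 / τ)) + (1 + b / τ)) := by
    refine intervalIntegral.integral_congr fun x hx => ?_
    rw [Set.uIcc_of_le (by linarith), Set.mem_Icc] at hx
    have h1 : (b - x) / τ ≤ 0 := div_nonpos_of_nonpos_of_nonneg (by linarith) hτ.le
    have h2 : 0 ≤ (x - a) / τ := div_nonneg (by linarith) hτ.le
    have h3 : -1 ≤ (b - x) / τ := by
      rw [le_div_iff₀ hτ]
      linarith
    show max 0 (min 1 (min ((x - a) / τ + 1) ((b - x) / τ + 1))) = _
    rw [min_eq_right (by linarith : (b - x) / τ + 1 ≤ (x - a) / τ + 1),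
      min_eq_right (by linarith : (b - x) / τ + 1 ≤ 1), max_eq_right (by linarith)]
    show (b - x) / τ + 1 = x * (-(1 / τ)) + (1 + b / τ)
    ring
  have i1 : ∀ c u v : ℝ, IntervalIntegrable (fun x : ℝ => x * c) volume u v := fun c u v =>
    (by fun_prop : Continuous fun x : ℝ => x * c).intervalIntegrable u v
  rw [e1, e2, e3, intervalIntegral.integral_add (i1 _ _ _) intervalIntegrable_const,
    intervalIntegral.integral_add (i1 _ _ _) intervalIntegrable_const,
    intervalIntegral.integral_mul_const, intervalIntegral.integral_mul_const, integral_id,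
    integral_id, intervalIntegral.integral_const, intervalIntegral.integral_const,
    intervalIntegral.integral_const]
  simp only [smul_eq_mul]
  field_simp
  ring

end HLA
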