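import Pool.Agent.HLA.Vag
import Pool.Agent.HLA.Trp

/-!
# HLA.Blk2: the number of the prime pairs with `q0` in a short block

PROOF. See the header of `Blk3` (the same with pairs). `α = e^θ`, `w = j/n`, `η = 1/n`; `B_j` = the number of the prime pairs with `e^w ≤ q0 < e^(w+η)`, `y = α q0 - q1 ∈ [u, v]`. `t = log q0 - w`,
`a = e^w (log q0 + θ - log q1)`: `e^(t+θ) a = α q0 (-log(1 - y/(α q0))) = y + O(e^(-w))`, `q0 q1 = e^(2w+2t+θ)(1 + O(e^(-w)))`, so for primes `tw tw e^w e^(2t+θ) = w² e^(-w)(1 + O(1/w))`.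
`f± (t, a) = χ±(t) ψ±(e^(t+θ) a) e^(2t+θ)/WW 1 0 (t+θ)`, trapezoids as in `Blk3`; `V2 w θ f± → ∫ f± WW = ∫ χ±(t) e^(2t+θ) e^(-(t+θ)) dt ∫ψ± = ∫ χ± e^t dt ∫ψ±` (`vag2`). Pairs with a proper prime power: `≤ C w e^(w/2)`.
-/

namespace HLA

open MeasureTheory ArithmeticFunction SMC Filter

private theorem b2_fin (α u X : ℝ) : {q : ℕ × ℕ | (q.1 : ℝ) < X ∧ u ≤ α * q.1 - q.2}.Finite := by
  refine ((Set.finite_Iic ⌊|X|⌋₊).prod (Set.finite_Iic ⌊|α| * |X| + |u|⌋₊)).subset ?_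
  rintro q ⟨h1, h2⟩
  have h3 : (q.1 : ℝ) ≤ |X| := h1.le.trans (le_abs_self X)
  refine ⟨Nat.le_floor h3, Nat.le_floor ?_⟩
  have h4 : α * q.1 ≤ |α| * |X| := by
    refine (le_abs_self _).trans ?_
    rw [abs_mul, Nat.abs_cast]
    exact mul_le_mul_of_nonneg_left h3 (abs_nonneg α)
  linarith [neg_abs_le u]

theorem tr2_fin (α u v X : ℝ) : {q : ℕ × ℕ | q.1.Prime ∧ q.2.Prime ∧ (q.1 : ℝ) < X ∧ u ≤ α * q.1 - q.2 ∧
    α * q.1 - q.2 ≤ v}.Finite :=
  (b2_fin α u X).subset fun _ h => ⟨h.2.2.1, h.2.2.2.1⟩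

/-- The proper prime powers up to `Y`. -/
private noncomputable def b2L (Y : ℝ) : Finset ℕ :=
  open Classical in (Finset.Ioc 0 ⌊Y⌋₊).filter fun n => ¬ n.Prime ∧ vonMangoldt n ≠ 0

private theorem b2L_card {Y : ℝ} (hY : 1 ≤ Y) : ((b2L Y).card : ℝ) ≤ 4 * √Y * Real.log Y := by
  classical
  have h1 : ((b2L Y).card : ℝ) * Real.log 2 ≤ Chebyshev.psi Y - Chebyshev.theta Y := by
    rw [Chebyshev.psi_sub_theta_eq_sum_not_prime, ← nsmul_eq_mul]
    calc (b2L Y).card • Real.log 2 ≤ ∑ n ∈ b2L Y, vonMangoldt n := by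
          refine Finset.card_nsmul_le_sum _ _ _ fun n hn => ?_
          have h2 : ¬ n.Prime ∧ vonMangoldt n ≠ 0 := (Finset.mem_filter.1 hn).2
          have h3 : IsPrimePow n := vonMangoldt_ne_zero_iff.1 h2.2
          rw [vonMangoldt_apply, if_pos h3]
          have h4 : 2 ≤ n.minFac := (Nat.minFac_prime h3.ne_one).two_le
          exact Real.log_le_log (by norm_num) (by exact_mod_cast h4)
      _ ≤ _ := by
          refine Finset.sum_le_sum_of_subset_of_nonneg ?_ fun _ _ _ => vonMangoldt_nonneg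
          intro n hn
          obtain ⟨h2, h3, -⟩ := Finset.mem_filter.1 hn
          exact Finset.mem_filter.2 ⟨h2, h3⟩
  have h2 := Chebyshev.psi_sub_theta_le hY
  have h3 : (1 : ℝ) / 2 ≤ Real.log 2 := by
    have := Real.log_two_gt_d9; linarith
  have h4 : (0 : ℝ) ≤ (b2L Y).card := by positivity
  nlinarith

/-- A finite set of natural numbers of small diameter. -/
private theorem b2_diam {S : Finset ℕ} {D : ℕ} (h : ∀ x ∈ S, ∀ y ∈ S, (y : ℝ) - x ≤ D) :
    S.card ≤ D + 1 := by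
  rcases S.eq_empty_or_nonempty with rfl | hne
  · simp
  · have h1 : S ⊆ Finset.Icc (S.min' hne) (S.min' hne + D) := by
      intro y hy
      rw [Finset.mem_Icc]
      refine ⟨S.min'_le y hy, ?_⟩
      have h2 := h _ (S.min'_mem hne) y hy
      have h3 : (y : ℝ) ≤ ((S.min' hne + D : ℕ) : ℝ) := by push_cast; linarith
      exact_mod_cast h3
    refine (Finset.card_le_card h1).trans ?_
    rw [Nat.card_Icc]; omega

private theorem b2_fib {S : Finset (ℕ × ℕ)} {L : Finset ℕ} {D : ℕ} (f g : ℕ × ℕ → ℕ)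
    (hfg : ∀ p q, f p = f q → g p = g q → p = q) (h1 : ∀ q ∈ S, f q ∈ L)
    (h2 : ∀ p ∈ S, ∀ q ∈ S, f p = f q → (g q : ℝ) - g p ≤ D) : S.card ≤ (D + 1) * L.card := by
  classical
  refine (Finset.card_le_mul_card_image (f := f) S (D + 1) fun a ha => ?_).trans
    (Nat.mul_le_mul_left _ (Finset.card_le_card (Finset.image_subset_iff.2 h1)))
  have hinj : Set.InjOn g (S.filter fun x => f x = a : Finset (ℕ × ℕ)) := by
    intro p hp q hq hpq
    have e1 := (Finset.mem_filter.1 hp).2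
    have e2 := (Finset.mem_filter.1 hq).2
    exact hfg p q (e1.trans e2.symm) hpq
  rw [← Finset.card_image_of_injOn hinj]
  refine b2_diam ?_
  intro x hx y hy
  obtain ⟨p, hp, rfl⟩ := Finset.mem_image.1 hx
  obtain ⟨q, hq, rfl⟩ := Finset.mem_image.1 hy
  obtain ⟨hp1, hp2⟩ := Finset.mem_filter.1 hp
  obtain ⟨hq1, hq2⟩ := Finset.mem_filter.1 hq
  exact h2 p hp1 q hq1 (hp2.trans hq2.symm)

/-- The pairs of prime powers in the block. -/
private def b2S (θ u v η w : ℝ) : Set (ℕ × ℕ) :=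
  {q | vonMangoldt q.1 ≠ 0 ∧ vonMangoldt q.2 ≠ 0 ∧ Real.exp w ≤ q.1 ∧ (q.1 : ℝ) < Real.exp (w + η) ∧
    u ≤ Real.exp θ * q.1 - q.2 ∧ Real.exp θ * q.1 - q.2 ≤ v}

/-- The pairs of primes in the block. -/
private def b2B (θ u v η w : ℝ) : Set (ℕ × ℕ) :=
  {q | q.1.Prime ∧ q.2.Prime ∧ Real.exp w ≤ q.1 ∧ (q.1 : ℝ) < Real.exp (w + η) ∧
    u ≤ Real.exp θ * q.1 - q.2 ∧ Real.exp θ * q.1 - q.2 ≤ v}

private theorem b2S_fin (θ u v η w : ℝ) : (b2S θ u v η w).Finite :=
  (b2_fin _ u _).subset fun _ h => ⟨h.2.2.2.1, h.2.2.2.2.1⟩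

private theorem b2B_sub (θ u v η w : ℝ) : b2B θ u v η w ⊆ b2S θ u v η w := by
  rintro q ⟨h1, h2, h3⟩
  refine ⟨?_, ?_, h3⟩
  · exact vonMangoldt_ne_zero_iff.2 h1.isPrimePow
  · exact vonMangoldt_ne_zero_iff.2 h2.isPrimePow

private theorem b2_aux (C : ℝ) :
    Tendsto (fun w : ℝ => C * (w ^ 3 * Real.exp (-(w / 2)))) atTop (nhds 0) := by
  have h1 := Real.tendsto_pow_mul_exp_neg_atTop_nhds_zero 3
  have h2 : Tendsto (fun w : ℝ => w / 2) atTop atTop := tendsto_id.atTop_div_const (by norm_num)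
  have h3 := (h1.comp h2).const_mul (C * 8)
  rw [mul_zero] at h3
  refine h3.congr fun w => ?_
  simp only [Function.comp_apply]
  ring

private theorem b2_bad (θ u v : ℝ) {η : ℝ} (hη : η ≤ 1) : Tendsto
    (fun w => ((b2S θ u v η w \ b2B θ u v η w).ncard : ℝ) * (w ^ 2 * Real.exp (-w))) atTop (nhds 0) := by
  classical
  set D : ℕ := ⌈|v - u| * (1 + Real.exp (-θ))⌉₊ with hD
  set K : ℝ := Real.exp 1 + Real.exp θ * Real.exp 1 + |u| with hK
  have hK1 : 1 ≤ K := by
    have h1 : 1 ≤ Real.exp 1 := Real.one_le_exp zero_le_one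
    have h2 : 0 < Real.exp θ * Real.exp 1 := by positivity
    have h3 := abs_nonneg u
    rw [hK]; linarith
  have hK0 : 0 < K := lt_of_lt_of_le one_pos hK1
  have hDle : |v - u| * (1 + Real.exp (-θ)) ≤ D := Nat.le_ceil _
  have hD1 : v - u ≤ D := by
    have h1 : 0 ≤ |v - u| * Real.exp (-θ) := by positivity
    have h2 := le_abs_self (v - u)
    linarith
  have hD2 : (v - u) * Real.exp (-θ) ≤ D := by
    have h1 : 0 ≤ |v - u| := abs_nonneg _
    have h2 := mul_le_mul_of_nonneg_right (le_abs_self (v - u)) (Real.exp_pos (-θ)).le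
    linarith
  set C : ℝ := 2 * ((D : ℝ) + 1) * (4 * √K * 2) with hC
  refine squeeze_zero' (Eventually.of_forall fun w => by positivity) ?_ (b2_aux C)
  filter_upwards [eventually_ge_atTop (1 : ℝ), eventually_ge_atTop (Real.log K)] with w hw1 hw2
  set Y : ℝ := K * Real.exp w with hY
  have hew : 1 ≤ Real.exp w := Real.one_le_exp (by linarith)
  have hY1 : 1 ≤ Y := by
    rw [hY]; nlinarith
  have hlY : Real.log Y ≤ 2 * w := by
    rw [hY, Real.log_mul hK0.ne' (Real.exp_pos w).ne', Real.log_exp]; linarith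
  have hsY : √Y = √K * Real.exp (w / 2) := by
    rw [hY, Real.sqrt_mul hK0.le]
    congr 1
    rw [← Real.exp_half]
  have hfin : (b2S θ u v η w \ b2B θ u v η w).Finite := (b2S_fin θ u v η w).sdiff
  set F := hfin.toFinset with hF
  have hcard : (b2S θ u v η w \ b2B θ u v η w).ncard = F.card := Set.ncard_eq_toFinset_card _ hfin
  have hmem : ∀ q ∈ F, q ∈ b2S θ u v η w ∧ q ∉ b2B θ u v η w := fun q hq =>
    (Set.Finite.mem_toFinset hfin).1 hq
  have hbd : ∀ q ∈ F, (q.1 : ℝ) ≤ Y ∧ (q.2 : ℝ) ≤ Y ∧ 0 < q.1 ∧ 0 < q.2 := by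
    intro q hq
    obtain ⟨⟨a1, a2, a3, a4, a5, a6⟩, -⟩ := hmem q hq
    have b1 : (q.1 : ℝ) ≤ Real.exp 1 * Real.exp w := by
      rw [← Real.exp_add]
      exact a4.le.trans (Real.exp_le_exp.2 (by linarith))
    have b2 : Real.exp θ * q.1 ≤ Real.exp θ * Real.exp 1 * Real.exp w := by
      rw [mul_assoc]; exact mul_le_mul_of_nonneg_left b1 (Real.exp_pos θ).le
    have b3 : |u| ≤ |u| * Real.exp w := le_mul_of_one_le_right (abs_nonneg u) hew
    have b4 : 0 < Real.exp θ * Real.exp 1 * Real.exp w := by positivity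
    have b5 : 0 < Real.exp 1 * Real.exp w := by positivity
    have b6 := neg_abs_le u
    have b7 := abs_nonneg u
    refine ⟨?_, ?_, ?_, ?_⟩
    · rw [hY, hK]; linarith
    · rw [hY, hK]; linarith
    · exact (vonMangoldt_ne_zero_iff.1 a1).pos
    · exact (vonMangoldt_ne_zero_iff.1 a2).pos
  have hL : ∀ q ∈ F, q.1 ∈ b2L Y ∨ q.2 ∈ b2L Y := by
    intro q hq
    obtain ⟨hq1, hq2⟩ := hmem q hq
    obtain ⟨c1, c2, c3, c4⟩ := hbd q hq
    by_cases p1 : q.1.Prime
    · by_cases p2 : q.2.Prime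
      · exact absurd ⟨p1, p2, hq1.2.2⟩ hq2
      · exact Or.inr (Finset.mem_filter.2 ⟨Finset.mem_Ioc.2 ⟨c4, Nat.le_floor c2⟩, p2, hq1.2.1⟩)
    · exact Or.inl (Finset.mem_filter.2 ⟨Finset.mem_Ioc.2 ⟨c3, Nat.le_floor c1⟩, p1, hq1.1⟩)
  have hcov : F ⊆ (F.filter fun q => q.1 ∈ b2L Y) ∪ F.filter fun q => q.2 ∈ b2L Y := by
    intro q hq
    rcases hL q hq with h | h
    · exact Finset.mem_union_left _ (Finset.mem_filter.2 ⟨hq, h⟩)
    · exact Finset.mem_union_right _ (Finset.mem_filter.2 ⟨hq, h⟩)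
  have k1 : (F.filter fun q => q.1 ∈ b2L Y).card ≤ (D + 1) * (b2L Y).card := by
    refine b2_fib (fun q => q.1) (fun q => q.2) (fun p q h1 h2 => Prod.ext h1 h2)
      (fun q hq => (Finset.mem_filter.1 hq).2) fun p hp q hq hpq => ?_
    obtain ⟨⟨-, -, -, -, a5, a6⟩, -⟩ := hmem p (Finset.mem_filter.1 hp).1
    obtain ⟨⟨-, -, -, -, c5, c6⟩, -⟩ := hmem q (Finset.mem_filter.1 hq).1
    have hpq' : p.1 = q.1 := hpq
    show (q.2 : ℝ) - p.2 ≤ D
    rw [hpq'] at a5 a6
    linarith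
  have k2 : (F.filter fun q => q.2 ∈ b2L Y).card ≤ (D + 1) * (b2L Y).card := by
    refine b2_fib (fun q => q.2) (fun q => q.1) (fun p q h1 h2 => Prod.ext h2 h1)
      (fun q hq => (Finset.mem_filter.1 hq).2) fun p hp q hq hpq => ?_
    obtain ⟨⟨-, -, -, -, a5, a6⟩, -⟩ := hmem p (Finset.mem_filter.1 hp).1
    obtain ⟨⟨-, -, -, -, c5, c6⟩, -⟩ := hmem q (Finset.mem_filter.1 hq).1
    have hpq' : p.2 = q.2 := hpq
    show (q.1 : ℝ) - p.1 ≤ D
    rw [hpq'] at a5 a6
    have e1 : Real.exp θ * ((q.1 : ℝ) - p.1) ≤ v - u := by linarith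
    have e2 := mul_le_mul_of_nonneg_right e1 (Real.exp_pos (-θ)).le
    have e3 : Real.exp θ * Real.exp (-θ) = 1 := by rw [← Real.exp_add, add_neg_cancel, Real.exp_zero]
    have e4 : Real.exp θ * ((q.1 : ℝ) - p.1) * Real.exp (-θ) = (q.1 : ℝ) - p.1 := by
      calc _ = ((q.1 : ℝ) - p.1) * (Real.exp θ * Real.exp (-θ)) := by ring
        _ = _ := by rw [e3, mul_one]
    linarith
  have k3 : (F.card : ℝ) ≤ 2 * ((D : ℝ) + 1) * (b2L Y).card := by
    have h1 := (Finset.card_le_card hcov).trans (Finset.card_union_le _ _)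
    have h2 : F.card ≤ 2 * ((D + 1) * (b2L Y).card) := by omega
    have h3 : (F.card : ℝ) ≤ ((2 * ((D + 1) * (b2L Y).card) : ℕ) : ℝ) := by exact_mod_cast h2
    push_cast at h3
    linarith
  have k4 : ((b2L Y).card : ℝ) ≤ 4 * √K * 2 * (w * Real.exp (w / 2)) := by
    refine (b2L_card hY1).trans ?_
    rw [hsY]
    have h1 : 0 ≤ 4 * (√K * Real.exp (w / 2)) := by positivity
    have h2 := mul_le_mul_of_nonneg_left hlY h1
    linarith
  rw [hcard]
  have hD0 : 0 ≤ 2 * ((D : ℝ) + 1) := by positivity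
  have k5 : (F.card : ℝ) ≤ C * (w * Real.exp (w / 2)) := by
    refine k3.trans ((mul_le_mul_of_nonneg_left k4 hD0).trans (le_of_eq ?_))
    rw [hC]; ring
  have hw0 : 0 ≤ w ^ 2 * Real.exp (-w) := by positivity
  refine (mul_le_mul_of_nonneg_right k5 hw0).trans (le_of_eq ?_)
  have e1 : Real.exp (w / 2) * Real.exp (-w) = Real.exp (-(w / 2)) := by
    rw [← Real.exp_add]; congr 1; ring
  calc _ = C * (w ^ 3 * (Real.exp (w / 2) * Real.exp (-w))) := by ring
    _ = _ := by rw [e1]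

/-- The test function. -/
private noncomputable def b2f (θ : ℝ) (χ ψ : ℝ → ℝ) (x : ℝ × ℝ) : ℝ :=
  χ x.1 * ψ (Real.exp (x.1 + θ) * x.2) * (Real.exp (2 * x.1 + θ) / WW 1 0 (x.1 + θ))

private theorem b2_WW_pos (x : ℝ) : 0 < WW 1 0 x := Real.exp_pos _

private theorem b2f_cont (θ : ℝ) {χ ψ : ℝ → ℝ} (h1 : Continuous χ) (h2 : Continuous ψ) :
    Continuous (b2f θ χ ψ) := by
  have h3 := WW_cont 1 0
  unfold b2f
  refine Continuous.mul (by fun_prop) (Continuous.div (by fun_prop) (by fun_prop) fun x => ?_)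
  exact (b2_WW_pos _).ne'

private theorem b2f_bd (θ : ℝ) {χ ψ : ℝ → ℝ} {C : ℝ} (h1 : ∀ t, C < |t| → χ t = 0)
    (h2 : ∀ y, C < |y| → ψ y = 0) {x : ℝ × ℝ} (hx : b2f θ χ ψ x ≠ 0) :
    |x.1| ≤ C ∧ |x.2| ≤ C * Real.exp (C - θ) := by
  have a1 : |x.1| ≤ C := by
    by_contra h
    exact hx (by unfold b2f; rw [h1 _ (not_le.1 h)]; ring)
  have a2 : |Real.exp (x.1 + θ) * x.2| ≤ C := by
    by_contra h
    exact hx (by unfold b2f; rw [h2 _ (not_le.1 h)]; ring)
  refine ⟨a1, ?_⟩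
  rw [abs_mul, abs_of_pos (Real.exp_pos _)] at a2
  have a3 := mul_le_mul_of_nonneg_right a2 (Real.exp_pos (-(x.1 + θ))).le
  have a4 : Real.exp (x.1 + θ) * Real.exp (-(x.1 + θ)) = 1 := by
    rw [← Real.exp_add, add_neg_cancel, Real.exp_zero]
  have a5 : Real.exp (x.1 + θ) * |x.2| * Real.exp (-(x.1 + θ)) = |x.2| := by
    calc _ = |x.2| * (Real.exp (x.1 + θ) * Real.exp (-(x.1 + θ))) := by ring
      _ = _ := by rw [a4, mul_one]
  rw [a5] at a3
  refine a3.trans (mul_le_mul_of_nonneg_left (Real.exp_le_exp.2 ?_) ((abs_nonneg _).trans a1))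
  linarith [neg_abs_le x.1]

private theorem b2f_supp (θ : ℝ) {χ ψ : ℝ → ℝ} {C : ℝ} (h1 : ∀ t, C < |t| → χ t = 0)
    (h2 : ∀ y, C < |y| → ψ y = 0) : HasCompactSupport (b2f θ χ ψ) := by
  refine HasCompactSupport.intro ((isCompact_Icc (a := -C) (b := C)).prod
    (isCompact_Icc (a := -(C * Real.exp (C - θ))) (b := C * Real.exp (C - θ)))) fun x hx => ?_
  by_contra h
  obtain ⟨a1, a2⟩ := b2f_bd θ h1 h2 h
  exact hx ⟨abs_le.1 a1, abs_le.1 a2⟩

private theorem b2f_int (θ : ℝ) {χ ψ : ℝ → ℝ} {C : ℝ} (hχ : Continuous χ) (hψ : Continuous ψ)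
    (h1 : ∀ t, C < |t| → χ t = 0) (h2 : ∀ y, C < |y| → ψ y = 0) :
    ∫ x : ℝ × ℝ, b2f θ χ ψ x * WW 1 0 (x.1 + θ) = (∫ t, χ t * Real.exp t) * ∫ y, ψ y := by
  have hW := WW_cont 1 0
  have hI : Integrable (fun x : ℝ × ℝ => b2f θ χ ψ x * WW 1 0 (x.1 + θ)) := by
    refine Continuous.integrable_of_hasCompactSupport ?_ (b2f_supp θ h1 h2).mul_right
    exact (b2f_cont θ hχ hψ).mul (by fun_prop)
  rw [Measure.volume_eq_prod] at hI ⊢
  rw [integral_prod _ hI, ← integral_mul_const]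
  refine integral_congr_ae (Eventually.of_forall fun t => ?_)
  show ∫ a, b2f θ χ ψ (t, a) * WW 1 0 (t + θ) = χ t * Real.exp t * ∫ y, ψ y
  have e1 : ∀ a : ℝ, b2f θ χ ψ (t, a) * WW 1 0 (t + θ) =
      χ t * Real.exp (2 * t + θ) * ψ (Real.exp (t + θ) * a) := by
    intro a
    unfold b2f
    have := (b2_WW_pos (t + θ)).ne'
    simp only
    field_simp
  simp only [e1]
  rw [integral_const_mul, Measure.integral_comp_mul_left, abs_of_pos (inv_pos.2 (Real.exp_pos _)),
    smul_eq_mul, ← Real.exp_neg]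
  have e2 : Real.exp t = Real.exp (2 * t + θ) * Real.exp (-(t + θ)) := by
    rw [← Real.exp_add]; congr 1; ring
  rw [e2]
  ring

private theorem b2_term {θ w t s : ℝ} (χ ψ : ℝ → ℝ) {q : ℕ × ℕ} (h1 : 0 < q.1) (h2 : 0 < q.2)
    (ht : t = Real.log q.1 - w) (hs : s = Real.log q.2 - Real.log q.1 - θ) :
    tw q.1 * tw q.2 * Real.exp w * WW 1 w (Real.log q.2) *
      b2f θ χ ψ (Real.log q.1 - w, Real.exp w * (Real.log q.1 + θ - Real.log q.2)) =
    vonMangoldt q.1 * vonMangoldt q.2 * (Real.exp (-w) * Real.exp (-(s * (1 + t + θ + s / 2)))) *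
      (χ t * ψ (-(Real.exp (w + t + θ) * s))) := by
  have p1 : (0 : ℝ) < q.1 := by exact_mod_cast h1
  have p2 : (0 : ℝ) < q.2 := by exact_mod_cast h2
  have l1 : Real.log q.1 = w + t := by rw [ht]; ring
  have l2 : Real.log q.2 = w + t + θ + s := by rw [hs, ht]; ring
  have e1 : ((q.1 : ℝ))⁻¹ = Real.exp (-(w + t)) := by
    rw [Real.exp_neg, ← l1, Real.exp_log p1]
  have e2 : ((q.2 : ℝ))⁻¹ = Real.exp (-(w + t + θ + s)) := by
    rw [Real.exp_neg, ← l2, Real.exp_log p2]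
  have e3 : Real.exp (t + θ) * (Real.exp w * (w + t + θ - (w + t + θ + s))) =
      -(Real.exp (w + t + θ) * s) := by
    have : Real.exp (w + t + θ) = Real.exp (t + θ) * Real.exp w := by
      rw [← Real.exp_add]; congr 1; ring
    rw [this]; ring
  unfold b2f tw
  rw [div_eq_mul_inv, div_eq_mul_inv, e1, e2, l1, l2]
  simp only
  rw [show w + t - w = t by ring, e3]
  unfold WW
  rw [← Real.exp_sub]
  have e4 : Real.exp (-(w + t)) * Real.exp (-(w + t + θ + s)) * Real.exp w *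
      Real.exp (-(w + t + θ + s - w) ^ 2 / (2 * 1 ^ 2)) *
      Real.exp (2 * t + θ - -(t + θ - 0) ^ 2 / (2 * 1 ^ 2)) =
      Real.exp (-w) * Real.exp (-(s * (1 + t + θ + s / 2))) := by
    rw [← Real.exp_add, ← Real.exp_add, ← Real.exp_add, ← Real.exp_add, ← Real.exp_add]
    congr 1; ring
  rw [← e4]
  ring

private theorem b2_unif (θ : ℝ) {C τ : ℝ} (hC : 0 ≤ C) (hτ : 0 < τ) : ∀ᶠ w : ℝ in atTop,
    ∀ t s : ℝ, |t| ≤ 2 → |s| ≤ C * Real.exp (-w) →
      |(w + t) * (w + t + θ + s) * Real.exp (-(s * (1 + t + θ + s / 2))) - w ^ 2| ≤ τ * w ^ 2 := by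
  have hG : ContinuousAt (fun p : ℝ × ℝ × ℝ => (1 + p.1) * (1 + p.2.1) * Real.exp p.2.2) 0 := by
    refine Continuous.continuousAt ?_
    fun_prop
  rw [Metric.continuousAt_iff] at hG
  obtain ⟨δ, hδ, h1⟩ := hG τ hτ
  set K : ℝ := (2 + |θ| + C + 1) * (C + 1) with hK
  have hK0 : 0 < K := by positivity
  have t1 : Tendsto (fun w : ℝ => K / w) atTop (nhds 0) := tendsto_const_nhds.div_atTop tendsto_id
  have t2 : Tendsto (fun w : ℝ => K * Real.exp (-w)) atTop (nhds 0) := by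
    have := (Real.tendsto_exp_atBot.comp tendsto_neg_atTop_atBot).const_mul K
    rwa [mul_zero] at this
  filter_upwards [t1.eventually_lt_const hδ, t2.eventually_lt_const hδ,
    eventually_ge_atTop (1 : ℝ)] with w hw1 hw2 hw3
  intro t s ht hs
  have hw0 : 0 < w := by linarith
  have hs1 : |s| ≤ C := by
    refine hs.trans (mul_le_of_le_one_right hC ?_)
    rw [Real.exp_le_one_iff]; linarith
  have a1 : |t / w| ≤ K / w := by
    rw [abs_div, abs_of_pos hw0]
    refine div_le_div_of_nonneg_right (ht.trans ?_) hw0.le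
    rw [hK]; nlinarith [abs_nonneg θ]
  have a2 : |(t + θ + s) / w| ≤ K / w := by
    rw [abs_div, abs_of_pos hw0]
    refine div_le_div_of_nonneg_right ?_ hw0.le
    have e1 : |t + θ + s| ≤ |t| + |θ| + |s| := abs_add_three _ _ _
    rw [hK]; nlinarith [abs_nonneg θ]
  have a3 : |-(s * (1 + t + θ + s / 2))| ≤ K * Real.exp (-w) := by
    rw [abs_neg, abs_mul]
    have e1 : |1 + t + θ + s / 2| ≤ 1 + |t| + |θ| + |s| / 2 := by
      have b1 := abs_add_le (1 + t + θ) (s / 2)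
      have b2 := abs_add_three 1 t θ
      rw [abs_one] at b2
      rw [abs_div, abs_two] at b1
      linarith
    have e2 : |1 + t + θ + s / 2| ≤ 2 + |θ| + C + 1 := by linarith [abs_nonneg s]
    have e3 : 0 ≤ C * Real.exp (-w) := by positivity
    calc |s| * |1 + t + θ + s / 2| ≤ C * Real.exp (-w) * (2 + |θ| + C + 1) :=
          mul_le_mul hs e2 (abs_nonneg _) e3
      _ ≤ K * Real.exp (-w) := by
          rw [hK]
          have b1 : 0 < Real.exp (-w) := Real.exp_pos _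
          have b2 : 0 ≤ (2 + |θ| + C + 1) * Real.exp (-w) := by positivity
          nlinarith
  have h2 := h1 (x := (t / w, (t + θ + s) / w, -(s * (1 + t + θ + s / 2)))) (by
    rw [dist_zero_right, Prod.norm_def, Prod.norm_def]
    simp only [Real.norm_eq_abs]
    exact max_lt (a1.trans_lt hw1) (max_lt (a2.trans_lt hw1) (a3.trans_lt hw2)))
  rw [Real.dist_eq] at h2
  simp only [Prod.fst_zero, Prod.snd_zero, add_zero, Real.exp_zero, mul_one] at h2
  have e1 : (w + t) * (w + t + θ + s) * Real.exp (-(s * (1 + t + θ + s / 2))) - w ^ 2 =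
      w ^ 2 * ((1 + t / w) * (1 + (t + θ + s) / w) * Real.exp (-(s * (1 + t + θ + s / 2))) - 1) := by
    have b1 : w + t = w * (1 + t / w) := by field_simp
    have b2 : w + t + θ + s = w * (1 + (t + θ + s) / w) := by field_simp; ring
    rw [b2, b1]
    ring
  rw [e1, abs_mul, abs_of_pos (by positivity : 0 < w ^ 2), mul_comm τ]
  exact mul_le_mul_of_nonneg_left h2.le (by positivity)

private theorem b2_lin {P s : ℝ} (hP : 0 < P) (hs : |s| ≤ 1) :
    |-(P * s) - P * (1 - Real.exp s)| ≤ P * s ^ 2 := by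
  have e1 : -(P * s) - P * (1 - Real.exp s) = P * (Real.exp s - 1 - s) := by ring
  rw [e1, abs_mul, abs_of_pos hP]
  exact mul_le_mul_of_nonneg_left (Real.abs_exp_sub_one_sub_id_le hs) hP.le

private theorem b2_log {z : ℝ} (hz : |z| ≤ 1 / 2) : |Real.log (1 - z)| ≤ 2 * |z| := by
  rw [abs_le] at hz
  have h0 : 0 < 1 - z := by linarith [hz.2]
  have h1 := Real.log_le_sub_one_of_pos h0
  have h2 := Real.one_sub_inv_le_log_of_pos h0
  have h3 : 1 - (1 - z)⁻¹ = -(z / (1 - z)) := by field_simp; ring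
  have h4 : |z / (1 - z)| ≤ 2 * |z| := by
    rw [abs_div, abs_of_pos h0, div_le_iff₀ h0]
    nlinarith [abs_nonneg z, hz.2]
  rw [abs_le]
  constructor
  · rw [h3] at h2
    linarith [(abs_le.1 h4).2]
  · linarith [neg_abs_le z, abs_nonneg z]

private theorem b2_trp_zero {a b τ C : ℝ} (hτ : 0 < τ) (h1 : -C ≤ a - τ) (h2 : b + τ ≤ C) :
    ∀ t, C < |t| → trp a b τ t = 0 := by
  intro t ht
  refine trp_zero hτ ?_
  rcases lt_abs.1 ht with h | h
  · right; linarith
  · left; linarith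

private theorem b2_summ (θ w : ℝ) {χ ψ : ℝ → ℝ} {C : ℝ} (h1 : ∀ t, C < |t| → χ t = 0)
    (h2 : ∀ y, C < |y| → ψ y = 0) :
    Summable fun q : ℕ × ℕ => tw q.1 * tw q.2 * Real.exp w * WW 1 w (Real.log q.2) *
      b2f θ χ ψ (Real.log q.1 - w, Real.exp w * (Real.log q.1 + θ - Real.log q.2)) := by
  refine summable_of_hasFiniteSupport (((Set.finite_Iic ⌊Real.exp (w + C)⌋₊).prod (Set.finite_Iic
    ⌊Real.exp (w + C + θ + C * Real.exp (C - θ) * Real.exp (-w))⌋₊)).subset ?_)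
  intro q hq
  have hf : b2f θ χ ψ (Real.log q.1 - w, Real.exp w * (Real.log q.1 + θ - Real.log q.2)) ≠ 0 :=
    fun h => hq (by simp only [h, mul_zero])
  obtain ⟨a1, a2⟩ := b2f_bd θ h1 h2 hf
  simp only at a1 a2
  have a3 : Real.log q.1 ≤ w + C := by linarith [(abs_le.1 a1).2]
  have a4 : Real.log q.2 ≤ w + C + θ + C * Real.exp (C - θ) * Real.exp (-w) := by
    have b1 := (abs_le.1 a2).1
    have b2 := mul_le_mul_of_nonneg_right b1 (Real.exp_pos (-w)).le
    have b3 : Real.exp w * Real.exp (-w) = 1 := by rw [← Real.exp_add, add_neg_cancel, Real.exp_zero]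
    have b4 : Real.exp w * (Real.log q.1 + θ - Real.log q.2) * Real.exp (-w) =
        Real.log q.1 + θ - Real.log q.2 := by
      calc _ = (Real.log q.1 + θ - Real.log q.2) * (Real.exp w * Real.exp (-w)) := by ring
        _ = _ := by rw [b3, mul_one]
    rw [b4] at b2
    linarith
  refine ⟨Nat.le_floor ?_, Nat.le_floor ?_⟩
  · exact (Real.le_exp_log _).trans (Real.exp_le_exp.2 a3)
  · exact (Real.le_exp_log _).trans (Real.exp_le_exp.2 a4)

private theorem b2_ts (θ w : ℝ) {q : ℕ × ℕ} (h1 : 0 < q.1) (h2 : 0 < q.2) {t s : ℝ}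
    (ht : t = Real.log q.1 - w) (hs : s = Real.log q.2 - Real.log q.1 - θ) :
    Real.log q.1 = w + t ∧ Real.log q.2 = w + t + θ + s ∧ (q.1 : ℝ) = Real.exp (w + t) ∧
      Real.exp θ * q.1 - q.2 = Real.exp (w + t + θ) * (1 - Real.exp s) := by
  have p1 : (0 : ℝ) < q.1 := by exact_mod_cast h1
  have p2 : (0 : ℝ) < q.2 := by exact_mod_cast h2
  have l1 : Real.log q.1 = w + t := by rw [ht]; ring
  have l2 : Real.log q.2 = w + t + θ + s := by rw [hs, ht]; ring
  have e1 : (q.1 : ℝ) = Real.exp (w + t) := by rw [← l1, Real.exp_log p1]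
  have e2 : (q.2 : ℝ) = Real.exp (w + t + θ + s) := by rw [← l2, Real.exp_log p2]
  refine ⟨l1, l2, e1, ?_⟩
  rw [e1, e2, Real.exp_add (w + t + θ), Real.exp_add (w + t)]
  ring

private theorem b2_K (K : ℝ) : Tendsto (fun w : ℝ => K * Real.exp (-w)) atTop (nhds 0) := by
  have := (Real.tendsto_exp_atBot.comp tendsto_neg_atTop_atBot).const_mul K
  rwa [mul_zero] at this

private theorem b2f_nonneg (θ : ℝ) {χ ψ : ℝ → ℝ} (h1 : ∀ t, 0 ≤ χ t) (h2 : ∀ t, 0 ≤ ψ t) (x : ℝ × ℝ) :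
    0 ≤ b2f θ χ ψ x := by
  unfold b2f
  have := h1 x.1
  have := h2 (Real.exp (x.1 + θ) * x.2)
  have := b2_WW_pos (x.1 + θ)
  positivity

private theorem b2_up {θ u v η τ : ℝ} (hη : 0 < η) (hη1 : η ≤ 1) (hτ : 0 < τ) :
    ∀ᶠ w : ℝ in atTop, (1 - τ) * (((b2B θ u v η w).ncard : ℝ) * (w ^ 2 * Real.exp (-w))) ≤
      V2 w θ (b2f θ (trp 0 η τ) (trp (u - τ) (v + τ) τ)) := by
  set C0 : ℝ := |u| + |v| with hC0
  have hC00 : 0 ≤ C0 := by positivity
  have q1 := neg_abs_le u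
  have q2 := le_abs_self v
  have q3 := abs_nonneg u
  have q4 := abs_nonneg v
  filter_upwards [b2_unif θ (C := 2 * (C0 * Real.exp (-θ))) (by positivity) hτ,
    (b2_K (C0 * Real.exp (-θ))).eventually_lt_const (show (0 : ℝ) < 1 / 2 by norm_num),
    (b2_K (4 * C0 ^ 2 * Real.exp (-θ))).eventually_lt_const hτ,
    eventually_ge_atTop (1 : ℝ)] with w hu e1 e2 hw
  have hz1 := b2_trp_zero (a := 0) (b := η) (C := |u| + |v| + 1 + 2 * τ) hτ (by linarith) (by linarith)
  have hz2 := b2_trp_zero (a := u - τ) (b := v + τ) (C := |u| + |v| + 1 + 2 * τ) hτ (by linarith)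
    (by linarith)
  have hfin : (b2B θ u v η w).Finite := (b2S_fin θ u v η w).subset (b2B_sub θ u v η w)
  rw [Set.ncard_eq_toFinset_card _ hfin]
  unfold V2
  refine le_trans ?_ ((b2_summ θ w hz1 hz2).sum_le_tsum hfin.toFinset fun q _ => ?_)
  · have key : ∀ q ∈ hfin.toFinset, (1 - τ) * (w ^ 2 * Real.exp (-w)) ≤
        tw q.1 * tw q.2 * Real.exp w * WW 1 w (Real.log q.2) *
          b2f θ (trp 0 η τ) (trp (u - τ) (v + τ) τ)
            (Real.log q.1 - w, Real.exp w * (Real.log q.1 + θ - Real.log q.2)) := by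
      intro q hq
      obtain ⟨p1, p2, c1, c2, c3, c4⟩ := (Set.Finite.mem_toFinset hfin).1 hq
      set t : ℝ := Real.log q.1 - w with ht
      set s : ℝ := Real.log q.2 - Real.log q.1 - θ with hs
      obtain ⟨l1, l2, l3, l4⟩ := b2_ts θ w p1.pos p2.pos ht hs
      rw [l3, Real.exp_le_exp] at c1
      rw [l3, Real.exp_lt_exp] at c2
      rw [l4] at c3 c4
      set P : ℝ := Real.exp (w + t + θ) with hP
      have hP0 : 0 < P := Real.exp_pos _
      have hPi : P⁻¹ ≤ Real.exp (-θ) * Real.exp (-w) := by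
        rw [hP, ← Real.exp_neg, ← Real.exp_add]
        exact Real.exp_le_exp.2 (by linarith)
      set y : ℝ := P * (1 - Real.exp s) with hy
      have hyC : |y| ≤ C0 := abs_le.2 ⟨by linarith, by linarith⟩
      set z : ℝ := y / P with hz
      have hzC : |z| ≤ C0 * Real.exp (-θ) * Real.exp (-w) := by
        rw [hz, abs_div, abs_of_pos hP0, div_eq_mul_inv, mul_assoc]
        exact mul_le_mul hyC hPi (by positivity) hC00
      have hes : Real.exp s = 1 - z := by
        rw [hz, hy]; field_simp; ring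
      have hsl : s = Real.log (1 - z) := by rw [← hes, Real.log_exp]
      have hsz : |s| ≤ 2 * |z| := by
        rw [hsl]; exact b2_log (hzC.trans e1.le)
      have hs1 : |s| ≤ 2 * (C0 * Real.exp (-θ)) * Real.exp (-w) := by linarith
      have hs2 : |s| ≤ 1 := by linarith
      have hPs : P * s ^ 2 ≤ τ := by
        have b1 : s ^ 2 ≤ 4 * z ^ 2 := by
          rw [← sq_abs s, ← sq_abs z]
          nlinarith [abs_nonneg s, abs_nonneg z]
        have b2 : P * z ^ 2 = y ^ 2 * P⁻¹ := by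
          rw [hz]; field_simp
        have b3 : y ^ 2 ≤ C0 ^ 2 := by
          rw [← sq_abs y]; exact pow_le_pow_left₀ (abs_nonneg y) hyC 2
        have b4 : y ^ 2 * P⁻¹ ≤ C0 ^ 2 * (Real.exp (-θ) * Real.exp (-w)) :=
          mul_le_mul b3 hPi (by positivity) (by positivity)
        calc P * s ^ 2 ≤ P * (4 * z ^ 2) := mul_le_mul_of_nonneg_left b1 hP0.le
          _ = 4 * (y ^ 2 * P⁻¹) := by rw [← b2]; ring
          _ ≤ 4 * (C0 ^ 2 * (Real.exp (-θ) * Real.exp (-w))) := by linarith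
          _ = 4 * C0 ^ 2 * Real.exp (-θ) * Real.exp (-w) := by ring
          _ ≤ τ := e2.le
      have hlin := (b2_lin hP0 hs2).trans hPs
      rw [← hy, abs_le] at hlin
      have hχ : trp 0 η τ t = 1 := trp_one hτ (by linarith) (by linarith)
      have hψ : trp (u - τ) (v + τ) τ (-(P * s)) = 1 := trp_one hτ (by linarith) (by linarith)
      have hun := hu t s (abs_le.2 ⟨by linarith, by linarith⟩) hs1
      rw [abs_le] at hun
      have hT := b2_term (θ := θ) (w := w) (trp 0 η τ) (trp (u - τ) (v + τ) τ) p1.pos p2.pos ht hs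
      rw [← ht] at hT
      rw [hT, ← hP, hχ, hψ, vonMangoldt_apply_prime p1, vonMangoldt_apply_prime p2, l1, l2]
      have b5 : (1 - τ) * w ^ 2 ≤ (w + t) * (w + t + θ + s) *
          Real.exp (-(s * (1 + t + θ + s / 2))) := by linarith [hun.1]
      have b6 := mul_le_mul_of_nonneg_right b5 (Real.exp_pos (-w)).le
      calc _ = (1 - τ) * w ^ 2 * Real.exp (-w) := by ring
        _ ≤ _ := b6
        _ = _ := by ring
    calc _ = hfin.toFinset.card • ((1 - τ) * (w ^ 2 * Real.exp (-w))) := by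
          rw [nsmul_eq_mul]; ring
      _ ≤ _ := Finset.card_nsmul_le_sum _ _ _ key
  · have := tw_nonneg q.1
    have := tw_nonneg q.2
    have := WW_nonneg 1 w (Real.log q.2)
    have := b2f_nonneg θ (fun t => (trp_bd 0 η τ t).1) (fun t => (trp_bd (u - τ) (v + τ) τ t).1)
      (Real.log q.1 - w, Real.exp w * (Real.log q.1 + θ - Real.log q.2))
    positivity

private theorem b2_low {θ u v η τ : ℝ} (hη1 : η ≤ 1) (hτ : 0 < τ) :
    ∀ᶠ w : ℝ in atTop, V2 w θ (b2f θ (trp τ (η - τ) τ) (trp (u + 2 * τ) (v - 2 * τ) τ)) ≤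
      (1 + τ) * (((b2S θ u v η w).ncard : ℝ) * (w ^ 2 * Real.exp (-w))) := by
  set C0 : ℝ := |u| + |v| with hC0
  have hC00 : 0 ≤ C0 := by positivity
  have q1 := neg_abs_le u
  have q2 := le_abs_self v
  have q3 := abs_nonneg u
  have q4 := abs_nonneg v
  filter_upwards [b2_unif θ (C := C0 * Real.exp (-θ)) (by positivity) hτ,
    (b2_K (C0 * Real.exp (-θ))).eventually_lt_const (show (0 : ℝ) < 1 by norm_num),
    (b2_K (C0 ^ 2 * Real.exp (-θ))).eventually_lt_const hτ,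
    eventually_ge_atTop (1 : ℝ)] with w hu e1 e2 hw
  have key : ∀ q : ℕ × ℕ, tw q.1 * tw q.2 * Real.exp w * WW 1 w (Real.log q.2) *
        b2f θ (trp τ (η - τ) τ) (trp (u + 2 * τ) (v - 2 * τ) τ)
          (Real.log q.1 - w, Real.exp w * (Real.log q.1 + θ - Real.log q.2)) ≠ 0 →
      q ∈ b2S θ u v η w ∧ tw q.1 * tw q.2 * Real.exp w * WW 1 w (Real.log q.2) *
        b2f θ (trp τ (η - τ) τ) (trp (u + 2 * τ) (v - 2 * τ) τ)
          (Real.log q.1 - w, Real.exp w * (Real.log q.1 + θ - Real.log q.2)) ≤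
        (1 + τ) * (w ^ 2 * Real.exp (-w)) := by
    intro q hq
    have v1 : vonMangoldt q.1 ≠ 0 := fun h => hq (by unfold tw; rw [h]; ring)
    have v2 : vonMangoldt q.2 ≠ 0 := fun h => hq (by unfold tw; rw [h]; ring)
    have p1 : 0 < q.1 := (vonMangoldt_ne_zero_iff.1 v1).pos
    have p2 : 0 < q.2 := (vonMangoldt_ne_zero_iff.1 v2).pos
    set t : ℝ := Real.log q.1 - w with ht
    set s : ℝ := Real.log q.2 - Real.log q.1 - θ with hs
    obtain ⟨l1, l2, l3, l4⟩ := b2_ts θ w p1 p2 ht hs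
    have hT := b2_term (θ := θ) (w := w) (trp τ (η - τ) τ) (trp (u + 2 * τ) (v - 2 * τ) τ) p1 p2 ht hs
    rw [← ht] at hT
    rw [hT] at hq ⊢
    set P : ℝ := Real.exp (w + t + θ) with hP
    have hP0 : 0 < P := Real.exp_pos _
    have c1 : 0 < t ∧ t < η := by
      by_contra h
      refine hq ?_
      rw [trp_zero (x := t) hτ, zero_mul, mul_zero]
      rw [not_and_or, not_lt, not_lt] at h
      rcases h with h | h
      · left; linarith
      · right; linarith
    have c2 : u + τ < -(P * s) ∧ -(P * s) < v - τ := by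
      by_contra h
      refine hq ?_
      rw [trp_zero (x := -(P * s)) hτ, mul_zero, mul_zero]
      rw [not_and_or, not_lt, not_lt] at h
      rcases h with h | h
      · left; linarith
      · right; linarith
    have hPi : P⁻¹ ≤ Real.exp (-θ) * Real.exp (-w) := by
      rw [hP, ← Real.exp_neg, ← Real.exp_add]
      exact Real.exp_le_exp.2 (by linarith [c1.1])
    have hx : |P * s| ≤ C0 := abs_le.2 ⟨by linarith [c2.2], by linarith [c2.1]⟩
    have hsP : |s| = |P * s| * P⁻¹ := by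
      rw [abs_mul, abs_of_pos hP0]; field_simp
    have hs1 : |s| ≤ C0 * Real.exp (-θ) * Real.exp (-w) := by
      rw [hsP, mul_assoc]
      exact mul_le_mul hx hPi (by positivity) hC00
    have hs2 : |s| ≤ 1 := by linarith
    have hPs : P * s ^ 2 ≤ τ := by
      have b1 : P * s ^ 2 = |P * s| * |s| := by
        rw [← abs_mul, abs_of_nonneg]
        · ring
        · nlinarith [mul_nonneg hP0.le (sq_nonneg s)]
      rw [b1]
      calc |P * s| * |s| ≤ C0 * (C0 * Real.exp (-θ) * Real.exp (-w)) :=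
            mul_le_mul hx hs1 (abs_nonneg s) hC00
        _ = C0 ^ 2 * Real.exp (-θ) * Real.exp (-w) := by ring
        _ ≤ τ := e2.le
    have hlin := (b2_lin hP0 hs2).trans hPs
    rw [abs_le] at hlin
    refine ⟨⟨v1, v2, ?_, ?_, ?_, ?_⟩, ?_⟩
    · rw [l3, Real.exp_le_exp]; linarith [c1.1]
    · rw [l3, Real.exp_lt_exp]; linarith [c1.2]
    · rw [l4]; linarith [c2.1, hlin.2]
    · rw [l4]; linarith [c2.2, hlin.1]
    · have hun := hu t s (abs_le.2 ⟨by linarith [c1.1], by linarith [c1.2]⟩) hs1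
      rw [abs_le] at hun
      have f1 : vonMangoldt q.1 ≤ w + t := l1 ▸ vonMangoldt_le_log
      have f2 : vonMangoldt q.2 ≤ w + t + θ + s := l2 ▸ vonMangoldt_le_log
      have g1 : 0 ≤ vonMangoldt q.1 := vonMangoldt_nonneg
      have g2 : 0 ≤ vonMangoldt q.2 := vonMangoldt_nonneg
      have f3 : vonMangoldt q.1 * vonMangoldt q.2 ≤ (w + t) * (w + t + θ + s) :=
        mul_le_mul f1 f2 g2 (g1.trans f1)
      have f4 : trp τ (η - τ) τ t * trp (u + 2 * τ) (v - 2 * τ) τ (-(P * s)) ≤ 1 :=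
        mul_le_one₀ (trp_bd _ _ _ _).2 (trp_bd _ _ _ _).1 (trp_bd _ _ _ _).2
      have f5 : (w + t) * (w + t + θ + s) * Real.exp (-(s * (1 + t + θ + s / 2))) ≤
          (1 + τ) * w ^ 2 := by linarith [hun.2]
      have f6 : 0 ≤ vonMangoldt q.1 * vonMangoldt q.2 *
          (Real.exp (-w) * Real.exp (-(s * (1 + t + θ + s / 2)))) := by positivity
      refine (mul_le_of_le_one_right f6 f4).trans ?_
      have f7 : 0 ≤ Real.exp (-w) * Real.exp (-(s * (1 + t + θ + s / 2))) := by positivity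
      refine (mul_le_mul_of_nonneg_right f3 f7).trans ?_
      have f8 := mul_le_mul_of_nonneg_right f5 (Real.exp_pos (-w)).le
      calc _ = (w + t) * (w + t + θ + s) * Real.exp (-(s * (1 + t + θ + s / 2))) *
            Real.exp (-w) := by ring
        _ ≤ _ := f8
        _ = _ := by ring
  unfold V2
  have hfin := b2S_fin θ u v η w
  rw [tsum_eq_sum (s := hfin.toFinset), Set.ncard_eq_toFinset_card _ hfin]
  · calc _ ≤ hfin.toFinset.card • ((1 + τ) * (w ^ 2 * Real.exp (-w))) := by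
          refine Finset.sum_le_card_nsmul _ _ _ fun q _ => ?_
          by_cases h0 : tw q.1 * tw q.2 * Real.exp w * WW 1 w (Real.log q.2) *
            b2f θ (trp τ (η - τ) τ) (trp (u + 2 * τ) (v - 2 * τ) τ)
              (Real.log q.1 - w, Real.exp w * (Real.log q.1 + θ - Real.log q.2)) = 0
          · rw [h0]; positivity
          · exact (key q h0).2
      _ = _ := by rw [nsmul_eq_mul]; ring
  · intro q hq
    by_contra h0
    exact hq ((Set.Finite.mem_toFinset hfin).2 (key q h0).1)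

private theorem b2_chi_up {η τ : ℝ} (hη : 0 < η) (hτ : 0 < τ) :
    ∫ t, trp 0 η τ t * Real.exp t ≤ Real.exp (η + τ) - Real.exp (-τ) := by
  have hc := trp_cont 0 η hτ
  have hs : Function.support (fun t => trp 0 η τ t * Real.exp t) ⊆ Set.Ioc (-τ) (η + τ) := by
    intro x hx
    by_contra hn
    rw [Set.mem_Ioc, not_and_or, not_lt, not_le] at hn
    refine hx ?_
    show trp 0 η τ x * Real.exp x = 0
    rw [trp_zero hτ, zero_mul]
    rcases hn with h | h
    · left; linarith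
    · right; linarith
  rw [← intervalIntegral.integral_eq_integral_of_support_subset hs, ← integral_exp]
  refine intervalIntegral.integral_mono_on (by linarith)
    ((by fun_prop : Continuous fun t => trp 0 η τ t * Real.exp t).intervalIntegrable _ _)
    (Real.continuous_exp.intervalIntegrable _ _) fun t _ => ?_
  exact mul_le_of_le_one_left (Real.exp_pos t).le (trp_bd _ _ _ _).2

private theorem b2_chi_low {η τ : ℝ} (hτ : 0 < τ) (h : 2 * τ ≤ η) :
    Real.exp (η - τ) - Real.exp τ ≤ ∫ t, trp τ (η - τ) τ t * Real.exp t := by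
  have hc := trp_cont τ (η - τ) hτ
  have hI : Integrable (fun t => trp τ (η - τ) τ t * Real.exp t) :=
    (by fun_prop : Continuous fun t => trp τ (η - τ) τ t * Real.exp t).integrable_of_hasCompactSupport
      (trp_supp τ (η - τ) hτ).mul_right
  rw [← integral_exp, intervalIntegral.integral_of_le (by linarith)]
  refine le_trans (le_of_eq ?_) (setIntegral_le_integral (s := Set.Ioc τ (η - τ)) hI
    (Eventually.of_forall fun t => mul_nonneg (trp_bd _ _ _ _).1 (Real.exp_pos t).le))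
  refine setIntegral_congr_fun measurableSet_Ioc fun t ht => ?_
  show Real.exp t = trp τ (η - τ) τ t * Real.exp t
  rw [trp_one hτ ht.1.le ht.2, one_mul]

private theorem b2_ncard (θ u v w : ℝ) {η : ℝ} (hη : 0 < η) :
    ((Tr2 (Real.exp θ) u v (Real.exp (w + η)) : ℝ) - Tr2 (Real.exp θ) u v (Real.exp w)) =
      ((b2B θ u v η w).ncard : ℝ) := by
  have hB : (b2B θ u v η w).Finite := (b2S_fin θ u v η w).subset (b2B_sub θ u v η w)
  have hd : Disjoint {q : ℕ × ℕ | q.1.Prime ∧ q.2.Prime ∧ (q.1 : ℝ) < Real.exp w ∧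
      u ≤ Real.exp θ * q.1 - q.2 ∧ Real.exp θ * q.1 - q.2 ≤ v} (b2B θ u v η w) := by
    rw [Set.disjoint_left]
    rintro q ⟨-, -, h1, -⟩ ⟨-, -, h2, -⟩
    linarith
  have hU : {q : ℕ × ℕ | q.1.Prime ∧ q.2.Prime ∧ (q.1 : ℝ) < Real.exp (w + η) ∧
      u ≤ Real.exp θ * q.1 - q.2 ∧ Real.exp θ * q.1 - q.2 ≤ v} =
      {q : ℕ × ℕ | q.1.Prime ∧ q.2.Prime ∧ (q.1 : ℝ) < Real.exp w ∧
      u ≤ Real.exp θ * q.1 - q.2 ∧ Real.exp θ * q.1 - q.2 ≤ v} ∪ b2B θ u v η w := by
    ext q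
    constructor
    · rintro ⟨h1, h2, h3, h4⟩
      by_cases h5 : (q.1 : ℝ) < Real.exp w
      · exact Or.inl ⟨h1, h2, h5, h4⟩
      · exact Or.inr ⟨h1, h2, not_lt.1 h5, h3, h4⟩
    · rintro (⟨h1, h2, h3, h4⟩ | ⟨h1, h2, h3, h4, h5⟩)
      · exact ⟨h1, h2, h3.trans (Real.exp_lt_exp.2 (by linarith)), h4⟩
      · exact ⟨h1, h2, h4, h5⟩
  unfold Tr2
  rw [hU, Set.ncard_union_eq hd (tr2_fin _ _ _ _) hB]
  push_cast
  ring

theorem blk2 {θ u v : ℝ} (hθ : Good θ) (h : u ≤ v) {n : ℕ} (hn : 1 ≤ n) :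
    Tendsto (fun j : ℕ => ((Tr2 (Real.exp θ) u v (Real.exp (((j : ℝ) + 1) / n)) : ℝ) -
        Tr2 (Real.exp θ) u v (Real.exp ((j : ℝ) / n))) * ((j : ℝ) / n) ^ 2 / Real.exp ((j : ℝ) / n)) atTop
      (nhds ((v - u) * (Real.exp (1 / (n : ℝ)) - 1))) := by
  have hn0 : (0 : ℝ) < n := by exact_mod_cast hn
  have hn1 : (1 : ℝ) ≤ n := by exact_mod_cast hn
  set η : ℝ := 1 / (n : ℝ) with hη
  have hη0 : 0 < η := by positivity
  have hη1 : η ≤ 1 := by rw [hη, div_le_one hn0]; exact hn1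
  have hw : Tendsto (fun j : ℕ => (j : ℝ) / n) atTop atTop :=
    tendsto_natCast_atTop_atTop.atTop_div_const hn0
  have hfun : ∀ j : ℕ, ((Tr2 (Real.exp θ) u v (Real.exp (((j : ℝ) + 1) / n)) : ℝ) -
        Tr2 (Real.exp θ) u v (Real.exp ((j : ℝ) / n))) * ((j : ℝ) / n) ^ 2 / Real.exp ((j : ℝ) / n) =
      ((b2B θ u v η ((j : ℝ) / n)).ncard : ℝ) * (((j : ℝ) / n) ^ 2 * Real.exp (-((j : ℝ) / n))) := by
    intro j
    have e1 : ((j : ℝ) + 1) / n = (j : ℝ) / n + η := by rw [hη]; ring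
    rw [e1, b2_ncard θ u v _ hη0, Real.exp_neg]
    ring
  simp only [hfun]
  have hexp : 1 < Real.exp η := by
    have := Real.add_one_lt_exp hη0.ne'
    linarith
  rw [tendsto_order]
  constructor
  · intro a0 ha0
    by_cases hneg : a0 < 0
    · exact Eventually.of_forall fun j => hneg.trans_le (by positivity)
    have huv : u < v := by
      rcases h.lt_or_eq with h1 | h1
      · exact h1
      · rw [h1, sub_self, zero_mul] at ha0
        exact absurd ha0 hneg
    have hc1 : Tendsto (fun τ : ℝ => (Real.exp (η - τ) - Real.exp τ) * (v - u - 3 * τ) -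
        a0 * (1 + τ)) (nhds 0) (nhds ((v - u) * (Real.exp η - 1) - a0)) := by
      refine Continuous.tendsto' (by fun_prop) 0 _ ?_
      rw [sub_zero, Real.exp_zero]
      ring
    have hev := (hc1.eventually_const_lt (sub_pos.2 ha0)).filter_mono
      (nhdsWithin_le_nhds (s := Set.Ioi 0))
    have hev2 : ∀ᶠ τ : ℝ in nhdsWithin 0 (Set.Ioi 0), τ < min ((v - u) / 4) (η / 2) :=
      (eventually_lt_nhds (by
        refine lt_min ?_ (by positivity)
        have := sub_pos.2 huv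
        positivity)).filter_mono nhdsWithin_le_nhds
    obtain ⟨τ, ⟨t1, t2⟩, t3⟩ := ((hev.and hev2).and self_mem_nhdsWithin).exists
    obtain ⟨t4, t5⟩ := lt_min_iff.1 t2
    have hz1 := b2_trp_zero (a := τ) (b := η - τ) (C := |u| + |v| + 1 + 2 * τ) t3
      (by linarith [abs_nonneg u, abs_nonneg v]) (by linarith [abs_nonneg u, abs_nonneg v])
    have hz2 := b2_trp_zero (a := u + 2 * τ) (b := v - 2 * τ) (C := |u| + |v| + 1 + 2 * τ) t3
      (by linarith [neg_abs_le u, abs_nonneg v]) (by linarith [le_abs_self v, abs_nonneg u])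
    have hV := vag2 hθ (b2f_cont θ (trp_cont τ (η - τ) t3) (trp_cont (u + 2 * τ) (v - 2 * τ) t3))
      (b2f_supp θ hz1 hz2) hn
    rw [b2f_int θ (trp_cont τ (η - τ) t3) (trp_cont (u + 2 * τ) (v - 2 * τ) t3) hz1 hz2,
      (trp_int (a := u + 2 * τ) (b := v - 2 * τ) (by linarith) t3).2] at hV
    have hbad := ((b2_bad θ u v hη1).comp hw).const_mul (1 + τ)
    have hlim := hV.sub hbad
    have hI : a0 * (1 + τ) < (∫ t, trp τ (η - τ) τ t * Real.exp t) *
        (v - 2 * τ - (u + 2 * τ) + τ) - (1 + τ) * 0 := by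
      have b1 := b2_chi_low (η := η) t3 (by linarith)
      have b2 : 0 ≤ v - u - 3 * τ := by linarith
      have b3 := mul_le_mul_of_nonneg_right b1 b2
      have b4 : v - 2 * τ - (u + 2 * τ) + τ = v - u - 3 * τ := by ring
      rw [b4]
      linarith
    filter_upwards [hlim.eventually_const_lt hI, hw.eventually (b2_low (θ := θ) (u := u) (v := v) hη1 t3)]
      with j k1 k2
    simp only [Function.comp_apply] at k1
    have k3 : ((b2S θ u v η ((j : ℝ) / n)).ncard : ℝ) = (b2B θ u v η ((j : ℝ) / n)).ncard +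
        (b2S θ u v η ((j : ℝ) / n) \ b2B θ u v η ((j : ℝ) / n)).ncard := by
      have := Set.ncard_sdiff_add_ncard_of_subset (b2B_sub θ u v η ((j : ℝ) / n))
        (b2S_fin θ u v η ((j : ℝ) / n))
      rw [← this]
      push_cast
      ring
    rw [k3] at k2
    have hτ1 : 0 < 1 + τ := by linarith
    refine lt_of_mul_lt_mul_left (a := 1 + τ) ?_ hτ1.le
    linarith
  · intro b hb
    have hc1 : Tendsto (fun τ : ℝ => (Real.exp (η + τ) - Real.exp (-τ)) * (v - u + 3 * τ) -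
        b * (1 - τ)) (nhds 0) (nhds ((v - u) * (Real.exp η - 1) - b)) := by
      refine Continuous.tendsto' (by fun_prop) 0 _ ?_
      rw [add_zero, neg_zero, Real.exp_zero]
      ring
    have hev := (hc1.eventually_lt_const (sub_neg.2 hb)).filter_mono
      (nhdsWithin_le_nhds (s := Set.Ioi 0))
    have hev2 : ∀ᶠ τ : ℝ in nhdsWithin 0 (Set.Ioi 0), τ < 1 :=
      (eventually_lt_nhds one_pos).filter_mono nhdsWithin_le_nhds
    obtain ⟨τ, ⟨t1, t2⟩, t3⟩ := ((hev.and hev2).and self_mem_nhdsWithin).exists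
    have hz1 := b2_trp_zero (a := 0) (b := η) (C := |u| + |v| + 1 + 2 * τ) t3
      (by linarith [abs_nonneg u, abs_nonneg v]) (by linarith [abs_nonneg u, abs_nonneg v])
    have hz2 := b2_trp_zero (a := u - τ) (b := v + τ) (C := |u| + |v| + 1 + 2 * τ) t3
      (by linarith [neg_abs_le u, abs_nonneg v]) (by linarith [le_abs_self v, abs_nonneg u])
    have hV := vag2 hθ (b2f_cont θ (trp_cont 0 η t3) (trp_cont (u - τ) (v + τ) t3))
      (b2f_supp θ hz1 hz2) hn
    rw [b2f_int θ (trp_cont 0 η t3) (trp_cont (u - τ) (v + τ) t3) hz1 hz2,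
      (trp_int (a := u - τ) (b := v + τ) (by linarith) t3).2] at hV
    have hI : (∫ t, trp 0 η τ t * Real.exp t) * (v + τ - (u - τ) + τ) < b * (1 - τ) := by
      have b1 := b2_chi_up (τ := τ) hη0 t3
      have b2 : 0 ≤ v - u + 3 * τ := by linarith
      have b3 := mul_le_mul_of_nonneg_right b1 b2
      have b4 : v + τ - (u - τ) + τ = v - u + 3 * τ := by ring
      rw [b4]
      linarith
    filter_upwards [hV.eventually_lt_const hI, hw.eventually (b2_up (θ := θ) (u := u) (v := v) hη0 hη1 t3)]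
      with j k1 k2
    have hτ1 : 0 < 1 - τ := by linarith
    refine lt_of_mul_lt_mul_left (a := 1 - τ) ?_ hτ1.le
    linarith

end HLA
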