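import Pool.Agent.HLA.Vag
import Pool.Agent.HLA.Trp

/-!
# HLA.Blk3: the number of the prime triples with `q0` in a short block

PROOF. `α = e^θ`, `w = j/n`, `η = 1/n`; block: `e^w ≤ q0 < e^(w+η)`; `B_j` = the number in question (difference of the two `Tr3`) = the number of the prime triples in the block with `y1 = α q0 - q1 ∈ [u1, v1]`,
`y2 = α q1 - q2 ∈ [u2, v2]`. `t = log q0 - w ∈ [0, η)`, `a = e^w (log q0 + θ - log q1)`, `b = e^w (log q0 + 2θ - log q2)`. As `q1 = α q0 - y1`: `e^(t+θ) a = α q0 (-log(1 - y1/(α q0))) = y1 + O(e^(-w))`, and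
`e^(t+2θ)(b - a) = e^(t+2θ+w) (-log(1 - y2/(α q1))) = y2 + O(e^(-w))` (as `α q1 = e^(w+t+2θ) (1 + O(e^(-w)))`). `q0 q1 q2 = e^(3w+3t+3θ) (1 + O(e^(-w)))`, so for primes
`tw tw tw e^(2w) e^(3t+3θ) = w³ e^(-w) (1 + O(1/w))`, and `WW 1 w (log q1)/WW 1 0 (t+θ) → 1`, `WW 1 w (log q2)/WW 1 0 (t+2θ) → 1` uniformly. For `τ > 0` put
`f± (t, a, b) = χ±(t) ψ1±(e^(t+θ) a) ψ2±(e^(t+2θ) (b-a)) e^(3t+3θ)/(WW 1 0 (t+θ) WW 1 0 (t+2θ))` with trapezoids: `χ+ = trp 0 η τ`, `ψi+ = trp (ui - τ) (vi + τ) τ`; `χ- = trp τ (η-τ) τ`, `ψi- = trp (ui + 2τ) (vi - 2τ) τ` (if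
`vi - ui ≥ 4τ`; continuous, compact support). For large `w`:
upper bound: `B_j w³ e^(-w) ≤ (1+τ) V3 w θ f+`; lower bound: `V3 w θ f- ≤ (1+τ) w³ e^(-w) (B_j + PP_j)`, `PP_j` = the number of the triples of prime powers, at least one of them not prime, with `log q0 - w ∈ [0, η]` and
`y1`, `y2` bounded: each of the three numbers determines the other two up to `C` possibilities, and there are at most `C e^(w/2) w` proper prime powers up to `C e^w`, so `PP_j ≤ C w e^(w/2)`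
(see the proof of `SMC.pt_count` in `Pool/Agent/SMC/LocB.lean` for prime powers). By `vag3` `V3 w θ f± → ∫ f± WW WW = ∫ χ±(t) e^(3t+3θ) e^(-(t+θ)) e^(-(t+2θ)) dt ∫ψ1± ∫ψ2± = ∫ χ± e^t dt ∫ψ1± ∫ψ2±`
(substitutions `a`, `b`; `trp_int`), which tends to `(e^η - 1)(v1-u1)(v2-u2)` for `τ → 0`. If `v1 = u1` or `v2 = u2`, the upper bound is enough.
-/

namespace HLA

open MeasureTheory ArithmeticFunction SMC Filter

private theorem b3_np {x : ℝ} (hx : 1 ≤ x) :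
    ∑ m ∈ (Finset.Ioc 0 ⌊x⌋₊).filter (fun m => ¬ m.Prime), (vonMangoldt m : ℝ) ≤
      2 * √x * Real.log x := by
  have h := Chebyshev.psi_sub_theta_le hx
  unfold Chebyshev.psi Chebyshev.theta at h
  rw [← Finset.sum_filter_add_sum_filter_not (Finset.Ioc 0 ⌊x⌋₊) (fun m => m.Prime)] at h
  have h2 : ∑ p ∈ (Finset.Ioc 0 ⌊x⌋₊).filter (fun m => m.Prime), (vonMangoldt p : ℝ) =
      ∑ p ∈ (Finset.Ioc 0 ⌊x⌋₊).filter (fun m => m.Prime), Real.log p :=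
    Finset.sum_congr rfl fun p hp => vonMangoldt_apply_prime (Finset.mem_filter.1 hp).2
  rw [h2] at h
  linarith

private theorem b3_box (s : Finset (ℕ × ℕ × ℕ)) (D : ℕ)
    (hD : ∀ q ∈ s, ∀ q' ∈ s, q.1 ≤ q'.1 + D ∧ q.2.1 ≤ q'.2.1 + D ∧ q.2.2 ≤ q'.2.2 + D) :
    s.card ≤ (2 * D + 1) ^ 3 := by
  rcases s.eq_empty_or_nonempty with h | ⟨c, hc⟩
  · rw [h, Finset.card_empty]
    exact Nat.zero_le _
  · have hsub : s ⊆ Finset.Icc (c.1 - D) (c.1 + D) ×ˢ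
        (Finset.Icc (c.2.1 - D) (c.2.1 + D) ×ˢ Finset.Icc (c.2.2 - D) (c.2.2 + D)) := by
      intro q hq
      have h1 := hD q hq c hc
      have h2 := hD c hc q hq
      simp only [Finset.mem_product, Finset.mem_Icc]
      omega
    refine (Finset.card_le_card hsub).trans ?_
    rw [Finset.card_product, Finset.card_product, Nat.card_Icc, Nat.card_Icc, Nat.card_Icc]
    have e : ∀ x : ℕ, x + D + 1 - (x - D) ≤ 2 * D + 1 := fun x => by omega
    calc _ ≤ (2 * D + 1) * ((2 * D + 1) * (2 * D + 1)) :=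
          Nat.mul_le_mul (e _) (Nat.mul_le_mul (e _) (e _))
      _ = (2 * D + 1) ^ 3 := by ring

private theorem b3_fib (s : Finset (ℕ × ℕ × ℕ)) (D : ℕ) (g : ℕ × ℕ × ℕ → ℕ)
    (hD : ∀ q ∈ s, ∀ q' ∈ s, g q = g q' →
      q.1 ≤ q'.1 + D ∧ q.2.1 ≤ q'.2.1 + D ∧ q.2.2 ≤ q'.2.2 + D) (v : ℕ → ℝ)
    (hv : ∀ n, 0 ≤ v n) (S : Finset ℕ) (hS : ∀ q ∈ s, g q ∈ S) :
    ∑ q ∈ s, v (g q) ≤ ((2 * D + 1) ^ 3 : ℕ) * ∑ m ∈ S, v m := by
  classical
  rw [← Finset.sum_fiberwise_of_maps_to hS, Finset.mul_sum]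
  refine Finset.sum_le_sum fun m _ => ?_
  have h1 : ∑ q ∈ s.filter (fun q => g q = m), v (g q) = (s.filter (fun q => g q = m)).card * v m := by
    rw [← nsmul_eq_mul, ← Finset.sum_const]
    refine Finset.sum_congr rfl fun q hq => ?_
    rw [(Finset.mem_filter.1 hq).2]
  rw [h1]
  refine mul_le_mul_of_nonneg_right ?_ (hv m)
  have h2 := b3_box (s.filter (fun q => g q = m)) D (fun q hq q' hq' => by
    rw [Finset.mem_filter] at hq hq'
    exact hD q hq.1 q' hq'.1 (hq.2.trans hq'.2.symm))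
  exact_mod_cast h2

private theorem b3_log {y : ℝ} (hy : |y - 1| ≤ 1 / 2) : |Real.log y| ≤ 2 * |y - 1| := by
  rw [abs_le] at hy
  have h0 : 0 < y := by linarith [hy.1]
  have h1 := Real.log_le_sub_one_of_pos h0
  have h2 := Real.one_sub_inv_le_log_of_pos h0
  have h3 : 1 - y⁻¹ = (y - 1) / y := by field_simp
  rw [h3] at h2
  have h4 : |(y - 1) / y| ≤ 2 * |y - 1| := by
    rw [abs_div, abs_of_pos h0, div_le_iff₀ h0]
    nlinarith [abs_nonneg (y - 1), hy.1]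
  rw [abs_le] at h4 ⊢
  constructor
  · linarith [h4.1]
  · have := le_abs_self (y - 1)
    have := abs_nonneg (y - 1)
    linarith

/-- the exponent of the weight -/
private noncomputable def b3rho (θ w a0 a1 a2 : ℝ) : ℝ :=
  2 * (Real.log a0 + θ - Real.log a1) + (Real.log a1 + θ - Real.log a2) +
    ((Real.log a0 + θ - Real.log a1) * (Real.log a0 - w + θ) - (Real.log a0 + θ - Real.log a1) ^ 2 / 2) +
    ((Real.log a0 + 2 * θ - Real.log a2) * (Real.log a0 - w + 2 * θ) -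
      (Real.log a0 + 2 * θ - Real.log a2) ^ 2 / 2)

private theorem b3_ev (θ Y ε : ℝ) (hε : 0 < ε) : ∀ᶠ w : ℝ in atTop,
    1 ≤ w ∧ Y * Real.exp (1 + 2 * |θ|) * Real.exp (-w) ≤ 1 / 2 ∧
    6 * Y * (Y * Real.exp (1 + 2 * |θ|) * Real.exp (-w)) ≤ ε ∧
    2 * ((Y * Real.exp (1 + 2 * |θ|) * Real.exp (-w)) * (12 + 5 * |θ|)) ≤ ε ∧
    (Y * Real.exp (1 + 2 * |θ|) * Real.exp (-w)) * (12 + 5 * |θ|) ≤ 1 ∧
    7 * (4 + 2 * |θ|) ≤ ε * w ∧ 4 + 2 * |θ| ≤ w := by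
  have h0 : Tendsto (fun w : ℝ => Real.exp (-w)) atTop (nhds 0) :=
    Real.tendsto_exp_neg_atTop_nhds_zero
  have hc : ∀ C b : ℝ, 0 < b → ∀ᶠ w : ℝ in atTop, C * Real.exp (-w) ≤ b := by
    intro C b hb
    have h1 := h0.const_mul C
    rw [mul_zero] at h1
    exact (h1.eventually_lt_const hb).mono fun w hw => hw.le
  have hl : ∀ᶠ w : ℝ in atTop, 7 * (4 + 2 * |θ|) ≤ ε * w := by
    filter_upwards [eventually_ge_atTop (7 * (4 + 2 * |θ|) / ε)] with w hw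
    rw [div_le_iff₀ hε] at hw
    linarith
  filter_upwards [eventually_ge_atTop (1 : ℝ), hc (Y * Real.exp (1 + 2 * |θ|)) (1 / 2) (by norm_num),
    hc (6 * Y * (Y * Real.exp (1 + 2 * |θ|))) ε hε,
    hc (2 * ((Y * Real.exp (1 + 2 * |θ|)) * (12 + 5 * |θ|))) ε hε,
    hc ((Y * Real.exp (1 + 2 * |θ|)) * (12 + 5 * |θ|)) 1 one_pos, hl,
    eventually_ge_atTop (4 + 2 * |θ|)] with w h1 h2 h3 h4 h5 h6 h7
  refine ⟨h1, h2, ?_, ?_, ?_, h6, h7⟩
  · linarith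
  · linarith
  · linarith

private theorem b3_cub {w H ε : ℝ} (hH : 0 ≤ H) (h1 : 7 * H ≤ ε * w) (h2 : H ≤ w) :
    (1 - ε) * w ^ 3 ≤ (w - H) ^ 3 ∧ (w + H) ^ 3 ≤ (1 + ε) * w ^ 3 := by
  have hw : 0 ≤ w := hH.trans h2
  have h3 : 7 * H * w ^ 2 ≤ ε * w * w ^ 2 := mul_le_mul_of_nonneg_right h1 (by positivity)
  have h4 : H ^ 2 * H ≤ H ^ 2 * w := mul_le_mul_of_nonneg_left h2 (by positivity)
  have h5 : w * H * H ≤ w * H * w := mul_le_mul_of_nonneg_left h2 (by positivity)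
  have h6 : H * H * H ≤ w * w * H := by
    have := mul_le_mul h2 h2 hH hw
    exact mul_le_mul_of_nonneg_right this hH
  have h7 : 0 ≤ H ^ 2 * w := by positivity
  have h8 : 0 ≤ H * w ^ 2 := by positivity
  constructor <;> nlinarith

/-- the geometry of a triple -/
private theorem b3_geo (θ Y ε : ℝ) (hY : 0 < Y) (hε : 0 < ε) : ∀ᶠ w : ℝ in atTop,
    ∀ a0 a1 a2 : ℝ, 0 < a0 → 0 < a1 → 0 < a2 → -1 ≤ Real.log a0 - w → Real.log a0 - w ≤ 2 →
      |Real.exp θ * a0 * (Real.log a0 + θ - Real.log a1)| ≤ Y →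
      |Real.exp (2 * θ) * a0 * (Real.log a1 + θ - Real.log a2)| ≤ Y →
      |(Real.exp θ * a0 - a1) - Real.exp θ * a0 * (Real.log a0 + θ - Real.log a1)| ≤ ε ∧
      |(Real.exp θ * a1 - a2) - Real.exp (2 * θ) * a0 * (Real.log a1 + θ - Real.log a2)| ≤ ε ∧
      1 - ε ≤ Real.exp (b3rho θ w a0 a1 a2) ∧ Real.exp (b3rho θ w a0 a1 a2) ≤ 1 + ε ∧
      (1 - ε) * w ^ 3 ≤ Real.log a0 * Real.log a1 * Real.log a2 ∧
      Real.log a0 * Real.log a1 * Real.log a2 ≤ (1 + ε) * w ^ 3 ∧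
      0 ≤ Real.log a0 ∧ 0 ≤ Real.log a1 ∧ 0 ≤ Real.log a2 ∧
      Real.log a0 ≤ w + (4 + 2 * |θ|) ∧ Real.log a1 ≤ w + (4 + 2 * |θ|) ∧
      Real.log a2 ≤ w + (4 + 2 * |θ|) := by
  filter_upwards [b3_ev θ Y ε hε] with w hw a0 a1 a2 ha0 ha1 ha2 ht1 ht2 hE1 hE2
  obtain ⟨hw1, hk1, hk2, hk3, hk4, hw2, hw3⟩ := hw
  set κ : ℝ := Y * Real.exp (1 + 2 * |θ|) * Real.exp (-w) with hκ
  have hκ0 : 0 ≤ κ := by positivity
  set l1 : ℝ := Real.log a0 + θ - Real.log a1 with hl1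
  set l2 : ℝ := Real.log a1 + θ - Real.log a2 with hl2
  set t : ℝ := Real.log a0 - w with ht
  have hθ := neg_abs_le θ
  have hθ' := le_abs_self θ
  have hθ0 := abs_nonneg θ
  have hea0 : a0 = Real.exp (w + t) := by
    rw [ht, add_sub_cancel, Real.exp_log ha0]
  -- the bounds of l1, l2
  have hb : ∀ c l : ℝ, -(2 * |θ|) ≤ c → |Real.exp c * a0 * l| ≤ Y → |l| ≤ κ := by
    intro c l hc h
    rw [abs_mul, abs_of_pos (by positivity : 0 < Real.exp c * a0)] at h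
    have h1 : Real.exp (-(1 + 2 * |θ|)) * Real.exp w ≤ Real.exp c * a0 := by
      rw [hea0, ← Real.exp_add, ← Real.exp_add]
      exact Real.exp_le_exp.2 (by linarith)
    have h2 : Real.exp (-(1 + 2 * |θ|)) * Real.exp w * |l| ≤ Y :=
      (mul_le_mul_of_nonneg_right h1 (abs_nonneg l)).trans h
    have h3 := mul_le_mul_of_nonneg_left h2
      (by positivity : 0 ≤ Real.exp (1 + 2 * |θ|) * Real.exp (-w))
    have e1 : Real.exp (1 + 2 * |θ|) * Real.exp (-w) *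
        (Real.exp (-(1 + 2 * |θ|)) * Real.exp w * |l|) = |l| := by
      have e2 : Real.exp (1 + 2 * |θ|) * Real.exp (-(1 + 2 * |θ|)) = 1 := by
        rw [← Real.exp_add, add_neg_cancel, Real.exp_zero]
      have e3 : Real.exp (-w) * Real.exp w = 1 := by
        rw [← Real.exp_add, neg_add_cancel, Real.exp_zero]
      calc _ = (Real.exp (1 + 2 * |θ|) * Real.exp (-(1 + 2 * |θ|))) *
            (Real.exp (-w) * Real.exp w) * |l| := by ring
        _ = |l| := by rw [e2, e3]; ring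
    rw [e1] at h3
    rw [hκ]
    linarith
  have hL1 : |l1| ≤ κ := hb θ l1 (by linarith) hE1
  have hL2 : |l2| ≤ κ := hb (2 * θ) l2 (by linarith) hE2
  have hL1' := abs_le.1 hL1
  have hL2' := abs_le.1 hL2
  have hκ1 : κ ≤ 1 := by linarith
  -- the logarithms
  have e1 : Real.log a1 = w + t + θ - l1 := by rw [hl1, ht]; ring
  have e2 : Real.log a2 = w + t + 2 * θ - l1 - l2 := by rw [hl2, hl1, ht]; ring
  have e0 : Real.log a0 = w + t := by rw [ht]; ring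
  have hH : 0 ≤ 4 + 2 * |θ| := by positivity
  obtain ⟨c1, c2⟩ := b3_cub hH hw2 hw3
  have b0 : w - (4 + 2 * |θ|) ≤ Real.log a0 ∧ Real.log a0 ≤ w + (4 + 2 * |θ|) := by
    rw [e0]; constructor <;> linarith
  have b1 : w - (4 + 2 * |θ|) ≤ Real.log a1 ∧ Real.log a1 ≤ w + (4 + 2 * |θ|) := by
    rw [e1]; constructor <;> linarith [hL1'.1, hL1'.2]
  have b2 : w - (4 + 2 * |θ|) ≤ Real.log a2 ∧ Real.log a2 ≤ w + (4 + 2 * |θ|) := by
    rw [e2]; constructor <;> linarith [hL1'.1, hL1'.2, hL2'.1, hL2'.2]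
  have hwH : 0 ≤ w - (4 + 2 * |θ|) := by linarith
  -- the first difference
  have ex1 : |Real.exp (-l1) - 1 - -l1| ≤ l1 ^ 2 := by
    have := Real.abs_exp_sub_one_sub_id_le (x := -l1) (by rw [abs_neg]; linarith)
    rwa [neg_sq] at this
  have ex2 : |Real.exp (-l2) - 1 - -l2| ≤ l2 ^ 2 := by
    have := Real.abs_exp_sub_one_sub_id_le (x := -l2) (by rw [abs_neg]; linarith)
    rwa [neg_sq] at this
  have ha1e : a1 = Real.exp θ * a0 * Real.exp (-l1) := by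
    rw [hea0, ← Real.exp_add, ← Real.exp_add, ← Real.exp_log ha1, e1]
    congr 1; ring
  have ha2e : a2 = Real.exp θ * a1 * Real.exp (-l2) := by
    have e6 : Real.exp θ * a1 * Real.exp (-l2) = Real.exp (θ + Real.log a1 + -l2) := by
      rw [Real.exp_add, Real.exp_add, Real.exp_log ha1]
    rw [e6, e1, ← Real.exp_log ha2, e2]
    congr 1; ring
  have hd1 : |(Real.exp θ * a0 - a1) - Real.exp θ * a0 * l1| ≤ Y * κ := by
    have e3 : (Real.exp θ * a0 - a1) - Real.exp θ * a0 * l1 =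
        -(Real.exp θ * a0 * (Real.exp (-l1) - 1 - -l1)) := by
      rw [ha1e]; ring
    rw [e3, abs_neg, abs_mul, abs_of_pos (by positivity : 0 < Real.exp θ * a0)]
    have h3 : Real.exp θ * a0 * |Real.exp (-l1) - 1 - -l1| ≤ Real.exp θ * a0 * (|l1| * |l1|) := by
      refine mul_le_mul_of_nonneg_left ?_ (by positivity)
      rw [← abs_mul, abs_mul_self, ← pow_two]
      exact ex1
    refine h3.trans ?_
    rw [abs_mul, abs_of_pos (by positivity : 0 < Real.exp θ * a0)] at hE1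
    rw [← mul_assoc]
    exact mul_le_mul hE1 hL1 (abs_nonneg _) hY.le
  have hd2 : |(Real.exp θ * a1 - a2) - Real.exp (2 * θ) * a0 * l2| ≤ 6 * Y * κ := by
    have e4 : Real.exp (2 * θ) * a0 = Real.exp θ * a1 * Real.exp l1 := by
      rw [ha1e, two_mul, Real.exp_add]
      have : Real.exp (-l1) * Real.exp l1 = 1 := by
        rw [← Real.exp_add, neg_add_cancel, Real.exp_zero]
      calc _ = Real.exp θ * Real.exp θ * a0 * 1 := by ring
        _ = _ := by rw [← this]; ring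
    have e3 : (Real.exp θ * a1 - a2) - Real.exp (2 * θ) * a0 * l2 =
        -(Real.exp θ * a1 * ((Real.exp (-l2) - 1 - -l2) + l2 * (Real.exp l1 - 1))) := by
      rw [e4, ha2e]
      ring
    have ex3 : |Real.exp l1 - 1| ≤ 2 * |l1| := Real.abs_exp_sub_one_le (by linarith)
    have h5 : |(Real.exp (-l2) - 1 - -l2) + l2 * (Real.exp l1 - 1)| ≤ |l2| * (3 * κ) := by
      refine (abs_add_le _ _).trans ?_
      rw [abs_mul]
      have h6 : |l2| * |Real.exp l1 - 1| ≤ |l2| * (2 * κ) :=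
        mul_le_mul_of_nonneg_left (ex3.trans (by linarith)) (abs_nonneg _)
      have h7 : l2 ^ 2 ≤ |l2| * κ := by
        rw [← sq_abs, pow_two]
        exact mul_le_mul_of_nonneg_left hL2 (abs_nonneg _)
      linarith [ex2]
    have h8 : Real.exp θ * a1 ≤ 2 * (Real.exp (2 * θ) * a0) := by
      rw [e4]
      have h9 : 1 / 2 ≤ Real.exp l1 := by
        have := Real.add_one_le_exp l1
        linarith [hL1'.1]
      have h10 : 0 < Real.exp θ * a1 := by positivity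
      have h11 := mul_le_mul_of_nonneg_left h9 h10.le
      linarith
    rw [e3, abs_neg, abs_mul, abs_of_pos (by positivity : 0 < Real.exp θ * a1)]
    rw [abs_mul, abs_of_pos (by positivity : 0 < Real.exp (2 * θ) * a0)] at hE2
    calc Real.exp θ * a1 * |(Real.exp (-l2) - 1 - -l2) + l2 * (Real.exp l1 - 1)|
        ≤ 2 * (Real.exp (2 * θ) * a0) * (|l2| * (3 * κ)) :=
          mul_le_mul h8 h5 (abs_nonneg _) (by positivity)
      _ = 6 * (Real.exp (2 * θ) * a0 * |l2|) * κ := by ring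
      _ ≤ 6 * Y * κ := by
          refine mul_le_mul_of_nonneg_right ?_ hκ0
          linarith
  -- the weight
  have hr : |b3rho θ w a0 a1 a2| ≤ κ * (12 + 5 * |θ|) := by
    have e5 : b3rho θ w a0 a1 a2 = 2 * l1 + l2 + (l1 * (t + θ) - l1 ^ 2 / 2) +
        ((l1 + l2) * (t + 2 * θ) - (l1 + l2) ^ 2 / 2) := by
      unfold b3rho
      have : Real.log a0 + 2 * θ - Real.log a2 = l1 + l2 := by rw [hl1, hl2]; ring
      rw [this]
    rw [e5]
    have ht0 : |t + θ| ≤ 2 + |θ| := (abs_add_le _ _).trans (add_le_add (abs_le.2 ⟨by linarith, ht2⟩) le_rfl)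
    have ht3 : |t + 2 * θ| ≤ 2 + 2 * |θ| := by
      refine (abs_add_le _ _).trans (add_le_add (abs_le.2 ⟨by linarith, ht2⟩) ?_)
      rw [abs_mul, abs_two]
    have hl12 : |l1 + l2| ≤ 2 * κ := (abs_add_le _ _).trans (by linarith)
    have p1 : |l1 * (t + θ)| ≤ κ * (2 + |θ|) := by
      rw [abs_mul]; exact mul_le_mul hL1 ht0 (abs_nonneg _) hκ0
    have p2 : |(l1 + l2) * (t + 2 * θ)| ≤ 2 * κ * (2 + 2 * |θ|) := by
      rw [abs_mul]; exact mul_le_mul hl12 ht3 (abs_nonneg _) (by positivity)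
    have p3 : |l1 ^ 2| ≤ κ := by
      rw [abs_pow, pow_two]
      calc |l1| * |l1| ≤ κ * 1 := mul_le_mul hL1 (hL1.trans hκ1) (abs_nonneg _) hκ0
        _ = κ := mul_one κ
    have p4 : |(l1 + l2) ^ 2| ≤ 2 * κ := by
      rw [abs_pow, pow_two]
      calc |l1 + l2| * |l1 + l2| ≤ 2 * κ * 1 :=
            mul_le_mul hl12 (hl12.trans (by linarith)) (abs_nonneg _) (by positivity)
        _ = 2 * κ := mul_one _
    rw [abs_le] at p1 p2 p3 p4 ⊢
    have q1 : 0 ≤ κ * |θ| := by positivity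
    constructor
    · linarith [p1.1, p2.1, p3.2, p4.2, hL1'.1, hL2'.1]
    · linarith [p1.2, p2.2, p3.1, p4.1, hL1'.2, hL2'.2]
  have hx : |Real.exp (b3rho θ w a0 a1 a2) - 1| ≤ ε := by
    refine (Real.abs_exp_sub_one_le (hr.trans hk4)).trans ?_
    linarith
  have hx' := abs_le.1 hx
  have hYκ : 0 ≤ Y * κ := mul_nonneg hY.le hκ0
  refine ⟨hd1.trans (by linarith), hd2.trans hk2, by linarith [hx'.1], by linarith [hx'.2], ?_, ?_,
    hwH.trans b0.1, hwH.trans b1.1, hwH.trans b2.1, b0.2, b1.2, b2.2⟩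
  · refine c1.trans ?_
    calc (w - (4 + 2 * |θ|)) ^ 3 = (w - (4 + 2 * |θ|)) * (w - (4 + 2 * |θ|)) * (w - (4 + 2 * |θ|)) := by
          ring
      _ ≤ _ := mul_le_mul (mul_le_mul b0.1 b1.1 hwH (hwH.trans b0.1)) b2.1 hwH
          (mul_nonneg (hwH.trans b0.1) (hwH.trans b1.1))
  · refine le_trans ?_ c2
    calc Real.log a0 * Real.log a1 * Real.log a2
        ≤ (w + (4 + 2 * |θ|)) * (w + (4 + 2 * |θ|)) * (w + (4 + 2 * |θ|)) :=
          mul_le_mul (mul_le_mul b0.2 b1.2 (hwH.trans b1.1) (by linarith)) b2.2 (hwH.trans b2.1)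
            (mul_self_nonneg _)
      _ = _ := by ring

private theorem b3_log2 {x y Y : ℝ} (hx : 0 < x) (hy : 0 < y) (h : |x - y| ≤ Y) (h2 : 2 * Y ≤ x) :
    x * |Real.log x - Real.log y| ≤ 2 * Y := by
  have e1 : Real.log x - Real.log y = -Real.log (y / x) := by
    rw [Real.log_div hy.ne' hx.ne']; ring
  have e2 : y / x - 1 = -((x - y) / x) := by field_simp; ring
  have h3 : |y / x - 1| = |x - y| / x := by rw [e2, abs_neg, abs_div, abs_of_pos hx]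
  have h4 : |y / x - 1| ≤ 1 / 2 := by
    rw [h3, div_le_iff₀ hx]; linarith
  have h5 := b3_log h4
  rw [h3] at h5
  rw [e1, abs_neg]
  have h6 := mul_le_mul_of_nonneg_left h5 hx.le
  have h7 : x * (2 * (|x - y| / x)) = 2 * |x - y| := by field_simp
  linarith

/-- the inverse direction -/
private theorem b3_inv (θ Y : ℝ) (hY : 0 < Y) : ∀ᶠ w : ℝ in atTop,
    ∀ a0 a1 a2 : ℝ, 0 < a0 → 0 < a1 → 0 < a2 → -1 ≤ Real.log a0 - w →
      |Real.exp θ * a0 - a1| ≤ Y → |Real.exp θ * a1 - a2| ≤ Y →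
      |Real.exp θ * a0 * (Real.log a0 + θ - Real.log a1)| ≤ 4 * Y ∧
      |Real.exp (2 * θ) * a0 * (Real.log a1 + θ - Real.log a2)| ≤ 4 * Y := by
  have h0 : Tendsto (fun w : ℝ => Real.exp (w - 1)) atTop atTop :=
    Real.tendsto_exp_atTop.comp (tendsto_atTop_add_const_right _ _ tendsto_id)
  filter_upwards [h0.eventually_ge_atTop (2 * Y / Real.exp θ),
    h0.eventually_ge_atTop (4 * Y / Real.exp (2 * θ))] with w hw1 hw2 a0 a1 a2 ha0 ha1 ha2 ht h1 h2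
  have ha : Real.exp (w - 1) ≤ a0 := by
    rw [← Real.exp_log ha0]
    exact Real.exp_le_exp.2 (by linarith)
  have g1 : 2 * Y ≤ Real.exp θ * a0 := by
    have := (div_le_iff₀ (Real.exp_pos θ)).1 (hw1.trans ha)
    linarith
  have g2 : 4 * Y ≤ Real.exp (2 * θ) * a0 := by
    have := (div_le_iff₀ (Real.exp_pos (2 * θ))).1 (hw2.trans ha)
    linarith
  have e1 : Real.log (Real.exp θ * a0) = Real.log a0 + θ := by
    rw [Real.log_mul (Real.exp_pos θ).ne' ha0.ne', Real.log_exp]; ring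
  have e2 : Real.log (Real.exp θ * a1) = Real.log a1 + θ := by
    rw [Real.log_mul (Real.exp_pos θ).ne' ha1.ne', Real.log_exp]; ring
  have e3 : Real.exp (2 * θ) * a0 = Real.exp θ * (Real.exp θ * a0) := by
    rw [two_mul, Real.exp_add]; ring
  have h3 := b3_log2 (by positivity) ha1 h1 g1
  rw [e1] at h3
  -- `exp θ a0 ≤ 2 a1`
  have h4 : Real.exp θ * a0 ≤ 2 * a1 := by
    have := (abs_le.1 h1).2
    linarith
  have h5 : Real.exp (2 * θ) * a0 ≤ 2 * (Real.exp θ * a1) := by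
    rw [e3]
    have := mul_le_mul_of_nonneg_left h4 (Real.exp_pos θ).le
    linarith
  have h6 := b3_log2 (by positivity) ha2 h2 (by linarith : 2 * Y ≤ Real.exp θ * a1)
  rw [e2] at h6
  constructor
  · rw [abs_mul, abs_of_pos (by positivity : 0 < Real.exp θ * a0)]
    linarith
  · rw [abs_mul, abs_of_pos (by positivity : 0 < Real.exp (2 * θ) * a0)]
    have := mul_le_mul_of_nonneg_right h5 (abs_nonneg (Real.log a1 + θ - Real.log a2))
    linarith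

/-- the test functions -/
private noncomputable def b3f (θ : ℝ) (χ ψ1 ψ2 : ℝ → ℝ) (x : ℝ × ℝ × ℝ) : ℝ :=
  χ x.1 * ψ1 (Real.exp (x.1 + θ) * x.2.1) * ψ2 (Real.exp (x.1 + 2 * θ) * (x.2.2 - x.2.1)) *
    Real.exp (3 * x.1 + 3 * θ) / (WW 1 0 (x.1 + θ) * WW 1 0 (x.1 + 2 * θ))

private theorem b3_WW_pos (σ c x : ℝ) : 0 < WW σ c x := Real.exp_pos _

private theorem b3_f_cont {θ : ℝ} {χ ψ1 ψ2 : ℝ → ℝ} (h : Continuous χ) (h1 : Continuous ψ1)
    (h2 : Continuous ψ2) : Continuous (b3f θ χ ψ1 ψ2) := by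
  unfold b3f
  refine Continuous.div ?_ ?_ fun x => (mul_pos (b3_WW_pos _ _ _) (b3_WW_pos _ _ _)).ne'
  · fun_prop
  · unfold WW
    fun_prop

private theorem b3_f_supp {θ : ℝ} {χ ψ1 ψ2 : ℝ → ℝ} {R : ℝ} (hR : 0 ≤ R)
    (h : ∀ x, R < |x| → χ x = 0) (h1 : ∀ x, R < |x| → ψ1 x = 0)
    (h2 : ∀ x, R < |x| → ψ2 x = 0) : HasCompactSupport (b3f θ χ ψ1 ψ2) := by
  set R' : ℝ := R * Real.exp (R + 2 * |θ|) with hR'
  have hR'0 : 0 ≤ R' := by positivity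
  refine HasCompactSupport.intro (K := Set.Icc (-R) R ×ˢ (Set.Icc (-R') R' ×ˢ Set.Icc (-(2 * R')) (2 * R')))
    (isCompact_Icc.prod (isCompact_Icc.prod isCompact_Icc)) fun x hx => ?_
  by_contra hne
  apply hx
  unfold b3f at hne
  have c0 : χ x.1 ≠ 0 := fun h0 => hne (by rw [h0]; simp)
  have c1 : ψ1 (Real.exp (x.1 + θ) * x.2.1) ≠ 0 := fun h0 => hne (by rw [h0]; simp)
  have c2 : ψ2 (Real.exp (x.1 + 2 * θ) * (x.2.2 - x.2.1)) ≠ 0 := fun h0 => hne (by rw [h0]; simp)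
  have d0 : |x.1| ≤ R := not_lt.1 fun h0 => c0 (h _ h0)
  have d1 : |Real.exp (x.1 + θ) * x.2.1| ≤ R := not_lt.1 fun h0 => c1 (h1 _ h0)
  have d2 : |Real.exp (x.1 + 2 * θ) * (x.2.2 - x.2.1)| ≤ R := not_lt.1 fun h0 => c2 (h2 _ h0)
  have d0' := abs_le.1 d0
  have hθ1 := neg_abs_le θ
  have hθ2 := abs_nonneg θ
  have key : ∀ c y : ℝ, -(2 * |θ|) ≤ c → |Real.exp (x.1 + c) * y| ≤ R → |y| ≤ R' := by
    intro c y hc hy
    rw [abs_mul, abs_of_pos (Real.exp_pos _)] at hy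
    have e1 : Real.exp (-(R + 2 * |θ|)) ≤ Real.exp (x.1 + c) := Real.exp_le_exp.2 (by linarith [d0'.1])
    have e2 : Real.exp (-(R + 2 * |θ|)) * |y| ≤ R :=
      (mul_le_mul_of_nonneg_right e1 (abs_nonneg y)).trans hy
    have e3 := mul_le_mul_of_nonneg_left e2 (Real.exp_pos (R + 2 * |θ|)).le
    rw [← mul_assoc, ← Real.exp_add, add_neg_cancel, Real.exp_zero, one_mul] at e3
    rw [hR']
    linarith
  have k1 := abs_le.1 (key θ x.2.1 (by linarith) d1)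
  have k2 := abs_le.1 (key (2 * θ) (x.2.2 - x.2.1) (by linarith) d2)
  refine Set.mk_mem_prod (Set.mem_Icc.2 d0') (Set.mk_mem_prod (Set.mem_Icc.2 k1) (Set.mem_Icc.2 ⟨?_, ?_⟩))
  · linarith [k1.1, k2.1]
  · linarith [k1.2, k2.2]

private theorem b3_int2 {ψ1 ψ2 : ℝ → ℝ} {R c1 c2 : ℝ} (h1 : Continuous ψ1) (h2 : Continuous ψ2)
    (hz1 : ∀ x, R < |x| → ψ1 x = 0) (hz2 : ∀ x, R < |x| → ψ2 x = 0) (hc1 : 0 < c1) (hc2 : 0 < c2) :
    ∫ y : ℝ × ℝ, ψ1 (c1 * y.1) * ψ2 (c2 * (y.2 - y.1)) = c1⁻¹ * c2⁻¹ * ((∫ t, ψ1 t) * ∫ t, ψ2 t) := by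
  have hcont : Continuous fun y : ℝ × ℝ => ψ1 (c1 * y.1) * ψ2 (c2 * (y.2 - y.1)) := by fun_prop
  have hs : HasCompactSupport fun y : ℝ × ℝ => ψ1 (c1 * y.1) * ψ2 (c2 * (y.2 - y.1)) := by
    refine HasCompactSupport.intro
      (K := Set.Icc (-(R / c1)) (R / c1) ×ˢ Set.Icc (-(R / c1 + R / c2)) (R / c1 + R / c2))
      (isCompact_Icc.prod isCompact_Icc) fun y hy => ?_
    by_contra hne
    apply hy
    have d1 : |c1 * y.1| ≤ R := not_lt.1 fun h0 => hne (by rw [hz1 _ h0, zero_mul])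
    have d2 : |c2 * (y.2 - y.1)| ≤ R := not_lt.1 fun h0 => hne (by rw [hz2 _ h0, mul_zero])
    rw [abs_mul, abs_of_pos hc1] at d1
    rw [abs_mul, abs_of_pos hc2] at d2
    have k1 := abs_le.1 ((le_div_iff₀' hc1).2 d1)
    have k2 := abs_le.1 ((le_div_iff₀' hc2).2 d2)
    refine Set.mk_mem_prod (Set.mem_Icc.2 k1) (Set.mem_Icc.2 ⟨?_, ?_⟩)
    · linarith [k1.1, k2.1]
    · linarith [k1.2, k2.2]
  have hi := hcont.integrable_of_hasCompactSupport (μ := (volume : Measure (ℝ × ℝ))) hs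
  rw [Measure.volume_eq_prod, integral_prod _ (by rw [← Measure.volume_eq_prod]; exact hi)]
  have hin : ∀ a : ℝ, ∫ b : ℝ, ψ1 (c1 * a) * ψ2 (c2 * (b - a)) = ψ1 (c1 * a) * (c2⁻¹ * ∫ t, ψ2 t) := by
    intro a
    rw [integral_const_mul, integral_sub_right_eq_self (fun b => ψ2 (c2 * b)) a,
      Measure.integral_comp_mul_left ψ2 c2, abs_of_pos (inv_pos.2 hc2), smul_eq_mul]
  calc _ = ∫ a : ℝ, ψ1 (c1 * a) * (c2⁻¹ * ∫ t, ψ2 t) :=
        integral_congr_ae (Eventually.of_forall fun a => hin a)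
    _ = _ := by
        rw [integral_mul_const, Measure.integral_comp_mul_left ψ1 c1, abs_of_pos (inv_pos.2 hc1),
          smul_eq_mul]
        ring

private theorem b3_f_int {θ : ℝ} {χ ψ1 ψ2 : ℝ → ℝ} {R : ℝ} (h : Continuous χ) (h1 : Continuous ψ1)
    (h2 : Continuous ψ2) (hs : HasCompactSupport (b3f θ χ ψ1 ψ2))
    (hz1 : ∀ x, R < |x| → ψ1 x = 0) (hz2 : ∀ x, R < |x| → ψ2 x = 0) :
    ∫ x : ℝ × ℝ × ℝ, b3f θ χ ψ1 ψ2 x * (WW 1 0 (x.1 + θ) * WW 1 0 (x.1 + 2 * θ)) =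
      (∫ t, χ t * Real.exp t) * (∫ t, ψ1 t) * ∫ t, ψ2 t := by
  have hcW : Continuous fun x : ℝ × ℝ × ℝ => WW 1 0 (x.1 + θ) * WW 1 0 (x.1 + 2 * θ) := by
    unfold WW
    fun_prop
  have hi : Integrable (fun x : ℝ × ℝ × ℝ => b3f θ χ ψ1 ψ2 x *
      (WW 1 0 (x.1 + θ) * WW 1 0 (x.1 + 2 * θ))) :=
    ((b3_f_cont h h1 h2).mul hcW).integrable_of_hasCompactSupport hs.mul_right
  rw [Measure.volume_eq_prod, integral_prod _ (by rw [← Measure.volume_eq_prod]; exact hi)]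
  have hin : ∀ t : ℝ, ∫ y : ℝ × ℝ, b3f θ χ ψ1 ψ2 (t, y) *
      (WW 1 0 (t + θ) * WW 1 0 (t + 2 * θ)) =
      χ t * Real.exp t * ((∫ t, ψ1 t) * ∫ t, ψ2 t) := by
    intro t
    have e1 : ∀ y : ℝ × ℝ, b3f θ χ ψ1 ψ2 (t, y) * (WW 1 0 (t + θ) * WW 1 0 (t + 2 * θ)) =
        χ t * Real.exp (3 * t + 3 * θ) *
          (ψ1 (Real.exp (t + θ) * y.1) * ψ2 (Real.exp (t + 2 * θ) * (y.2 - y.1))) := by
      intro y
      unfold b3f
      have hp := (mul_pos (b3_WW_pos 1 0 (t + θ)) (b3_WW_pos 1 0 (t + 2 * θ))).ne'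
      rw [div_mul_cancel₀ _ hp]
      ring
    simp_rw [e1]
    rw [integral_const_mul]
    have e2 : ∫ y : ℝ × ℝ, ψ1 (Real.exp (t + θ) * y.1) * ψ2 (Real.exp (t + 2 * θ) * (y.2 - y.1)) =
        Real.exp (-(t + θ)) * Real.exp (-(t + 2 * θ)) * ((∫ t, ψ1 t) * ∫ t, ψ2 t) := by
      rw [b3_int2 h1 h2 hz1 hz2 (Real.exp_pos _) (Real.exp_pos _), Real.exp_neg, Real.exp_neg]
    rw [e2]
    have e3 : Real.exp (3 * t + 3 * θ) * (Real.exp (-(t + θ)) * Real.exp (-(t + 2 * θ))) =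
        Real.exp t := by
      rw [← Real.exp_add, ← Real.exp_add]; congr 1; ring
    rw [← e3]; ring
  calc _ = ∫ t : ℝ, χ t * Real.exp t * ((∫ t, ψ1 t) * ∫ t, ψ2 t) := by
        refine integral_congr_ae (Eventually.of_forall fun t => ?_)
        exact hin t
    _ = _ := by
        rw [integral_mul_const]; ring

private theorem b3_fin (α u1 u2 X : ℝ) : {q : ℕ × ℕ × ℕ | (q.1 : ℝ) < X ∧
    u1 ≤ α * q.1 - q.2.1 ∧ u2 ≤ α * q.2.1 - q.2.2}.Finite := by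
  refine (Set.finite_Iic ((⌈|X|⌉₊, ⌈|α| * |X| + |u1|⌉₊,
    ⌈|α| * (|α| * |X| + |u1|) + |u2|⌉₊) : ℕ × ℕ × ℕ)).subset fun q hq => ?_
  obtain ⟨h1, h2, h3⟩ := hq
  have k0 : (q.1 : ℝ) ≤ |X| := h1.le.trans (le_abs_self X)
  have k1 : (q.2.1 : ℝ) ≤ |α| * |X| + |u1| := by
    have e1 : α * q.1 ≤ |α| * |X| :=
      (mul_le_mul_of_nonneg_right (le_abs_self α) (Nat.cast_nonneg _)).trans
        (mul_le_mul_of_nonneg_left k0 (abs_nonneg α))
    have e2 := neg_abs_le u1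
    linarith
  have k2 : (q.2.2 : ℝ) ≤ |α| * (|α| * |X| + |u1|) + |u2| := by
    have e1 : α * q.2.1 ≤ |α| * (|α| * |X| + |u1|) :=
      (mul_le_mul_of_nonneg_right (le_abs_self α) (Nat.cast_nonneg _)).trans
        (mul_le_mul_of_nonneg_left k1 (abs_nonneg α))
    have e2 := neg_abs_le u2
    linarith
  rw [Set.mem_Iic, Prod.le_def, Prod.le_def]
  exact ⟨by exact_mod_cast k0.trans (Nat.le_ceil _), by exact_mod_cast k1.trans (Nat.le_ceil _),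
    by exact_mod_cast k2.trans (Nat.le_ceil _)⟩

theorem tr3_fin (α u1 v1 u2 v2 X : ℝ) : {q : ℕ × ℕ × ℕ | q.1.Prime ∧ q.2.1.Prime ∧ q.2.2.Prime ∧ (q.1 : ℝ) < X ∧
    u1 ≤ α * q.1 - q.2.1 ∧ α * q.1 - q.2.1 ≤ v1 ∧ u2 ≤ α * q.2.1 - q.2.2 ∧ α * q.2.1 - q.2.2 ≤ v2}.Finite :=
  (b3_fin α u1 u2 X).subset fun _ hq => ⟨hq.2.2.2.1, hq.2.2.2.2.1, hq.2.2.2.2.2.2.1⟩

/-- the summand of `V3` -/
private noncomputable def b3t (w θ : ℝ) (f : ℝ × ℝ × ℝ → ℝ) (q : ℕ × ℕ × ℕ) : ℝ :=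
  tw q.1 * tw q.2.1 * tw q.2.2 * Real.exp (2 * w) *
    (WW 1 w (Real.log q.2.1) * WW 1 w (Real.log q.2.2)) *
    f (Real.log q.1 - w, Real.exp w * (Real.log q.1 + θ - Real.log q.2.1),
      Real.exp w * (Real.log q.1 + 2 * θ - Real.log q.2.2))

private theorem b3_tw_zero : tw 0 = 0 := by
  unfold tw
  simp

private theorem b3_t_pos {w θ : ℝ} {f : ℝ × ℝ × ℝ → ℝ} {q : ℕ × ℕ × ℕ} (h : b3t w θ f q ≠ 0) :
    1 ≤ q.1 ∧ 1 ≤ q.2.1 ∧ 1 ≤ q.2.2 := by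
  unfold b3t at h
  refine ⟨?_, ?_, ?_⟩
  · by_contra h0
    have : q.1 = 0 := by omega
    exact h (by rw [this, b3_tw_zero]; ring)
  · by_contra h0
    have : q.2.1 = 0 := by omega
    exact h (by rw [this, b3_tw_zero]; ring)
  · by_contra h0
    have : q.2.2 = 0 := by omega
    exact h (by rw [this, b3_tw_zero]; ring)

private theorem b3_t_eq (w θ : ℝ) (χ ψ1 ψ2 : ℝ → ℝ) (q : ℕ × ℕ × ℕ) (h0 : 1 ≤ q.1)
    (h1 : 1 ≤ q.2.1) (h2 : 1 ≤ q.2.2) :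
    b3t w θ (b3f θ χ ψ1 ψ2) q =
      (vonMangoldt q.1 * vonMangoldt q.2.1 * vonMangoldt q.2.2) *
        (Real.exp (-w) * Real.exp (b3rho θ w q.1 q.2.1 q.2.2)) *
        (χ (Real.log q.1 - w) * ψ1 (Real.exp θ * q.1 * (Real.log q.1 + θ - Real.log q.2.1)) *
          ψ2 (Real.exp (2 * θ) * q.1 * (Real.log q.2.1 + θ - Real.log q.2.2))) := by
  have p0 : (0 : ℝ) < q.1 := by exact_mod_cast h0
  have p1 : (0 : ℝ) < q.2.1 := by exact_mod_cast h1
  have p2 : (0 : ℝ) < q.2.2 := by exact_mod_cast h2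
  have hc : ∀ c : ℝ, Real.exp (Real.log q.1 - w + c) * Real.exp w = Real.exp c * q.1 := by
    intro c
    rw [← Real.exp_add, show Real.log q.1 - w + c + w = c + Real.log q.1 by ring, Real.exp_add,
      Real.exp_log p0]
  have hE1 : Real.exp (Real.log q.1 - w + θ) *
      (Real.exp w * (Real.log q.1 + θ - Real.log q.2.1)) =
      Real.exp θ * q.1 * (Real.log q.1 + θ - Real.log q.2.1) := by
    rw [← mul_assoc, hc]
  have hE2 : Real.exp (Real.log q.1 - w + 2 * θ) *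
      (Real.exp w * (Real.log q.1 + 2 * θ - Real.log q.2.2) -
        Real.exp w * (Real.log q.1 + θ - Real.log q.2.1)) =
      Real.exp (2 * θ) * q.1 * (Real.log q.2.1 + θ - Real.log q.2.2) := by
    rw [← hc]; ring
  unfold b3t b3f
  simp only
  rw [hE1, hE2]
  have htw : ∀ n : ℕ, (0 : ℝ) < n → tw n = vonMangoldt n * Real.exp (-Real.log n) := by
    intro n hn
    unfold tw
    rw [Real.exp_neg, Real.exp_log hn, div_eq_mul_inv]
  rw [htw _ p0, htw _ p1, htw _ p2]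
  unfold WW
  have e1 : Real.exp (-Real.log q.1) * Real.exp (-Real.log q.2.1) * Real.exp (-Real.log q.2.2) *
      Real.exp (2 * w) * (Real.exp (-(Real.log q.2.1 - w) ^ 2 / (2 * 1 ^ 2)) *
        Real.exp (-(Real.log q.2.2 - w) ^ 2 / (2 * 1 ^ 2))) *
      Real.exp (3 * (Real.log q.1 - w) + 3 * θ) /
      (Real.exp (-(Real.log q.1 - w + θ - 0) ^ 2 / (2 * 1 ^ 2)) *
        Real.exp (-(Real.log q.1 - w + 2 * θ - 0) ^ 2 / (2 * 1 ^ 2))) =
      Real.exp (-w) * Real.exp (b3rho θ w q.1 q.2.1 q.2.2) := by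
    rw [← Real.exp_add, ← Real.exp_add, ← Real.exp_add, ← Real.exp_add, ← Real.exp_add,
      ← Real.exp_add, ← Real.exp_add, ← Real.exp_sub, ← Real.exp_add]
    congr 1
    unfold b3rho
    ring
  rw [← e1]
  ring

private theorem b3_t_fin {w θ : ℝ} {f : ℝ × ℝ × ℝ → ℝ} (hs : HasCompactSupport f) :
    (Function.support (b3t w θ f)).Finite := by
  obtain ⟨R, hR⟩ := hs.isCompact.isBounded.exists_norm_le
  set N : ℕ := ⌊Real.exp (w + R + 2 * |θ| + R * Real.exp (-w))⌋₊ with hN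
  refine (Set.finite_Iic ((N, N, N) : ℕ × ℕ × ℕ)).subset fun q hq => ?_
  have hq' : b3t w θ f q ≠ 0 := hq
  obtain ⟨h0, h1, h2⟩ := b3_t_pos hq'
  have hf : f (Real.log q.1 - w, Real.exp w * (Real.log q.1 + θ - Real.log q.2.1),
      Real.exp w * (Real.log q.1 + 2 * θ - Real.log q.2.2)) ≠ 0 := by
    intro h3
    unfold b3t at hq'
    exact hq' (by rw [h3, mul_zero])
  have hb := hR _ (subset_tsupport f hf)
  rw [Prod.norm_def, Prod.norm_def, Real.norm_eq_abs, Real.norm_eq_abs, Real.norm_eq_abs] at hb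
  have c0 := (le_max_left _ _).trans hb
  have c1 := ((le_max_left _ _).trans (le_max_right _ _)).trans hb
  have c2 := ((le_max_right _ _).trans (le_max_right _ _)).trans hb
  simp only at c0 c1 c2
  have hR0 : 0 ≤ R := (abs_nonneg _).trans c0
  rw [abs_mul, abs_of_pos (Real.exp_pos w)] at c1 c2
  have hinv : ∀ x : ℝ, Real.exp w * |x| ≤ R → |x| ≤ R * Real.exp (-w) := by
    intro x hx
    have h3 := mul_le_mul_of_nonneg_left hx (Real.exp_pos (-w)).le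
    rw [← mul_assoc, ← Real.exp_add, neg_add_cancel, Real.exp_zero, one_mul] at h3
    linarith
  have d0 := abs_le.1 c0
  have d1 := abs_le.1 (hinv _ c1)
  have d2 := abs_le.1 (hinv _ c2)
  have hθ1 := le_abs_self θ
  have hθ2 := abs_nonneg θ
  have hRe : 0 ≤ R * Real.exp (-w) := by positivity
  have key : ∀ n : ℕ, 1 ≤ n → Real.log n ≤ w + R + 2 * |θ| + R * Real.exp (-w) → n ≤ N := by
    intro n hn hl
    have hn0 : (0 : ℝ) < n := by exact_mod_cast hn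
    rw [hN]
    refine Nat.le_floor ?_
    rw [← Real.exp_log hn0]
    exact Real.exp_le_exp.2 hl
  rw [Set.mem_Iic, Prod.le_def, Prod.le_def]
  exact ⟨key _ h0 (by linarith [d0.2]), key _ h1 (by linarith [d0.2, d1.1]),
    key _ h2 (by linarith [d0.2, d2.1])⟩

private theorem b3_trp_zero {a b τ R x : ℝ} (hτ : 0 < τ) (h1 : |a - τ| ≤ R) (h2 : |b + τ| ≤ R)
    (hx : R < |x|) : trp a b τ x = 0 := by
  rw [abs_le] at h1 h2
  refine trp_zero hτ ?_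
  rcases lt_abs.1 hx with h | h
  · right; linarith [h2.2]
  · left; linarith [h1.1]

private theorem b3_trp_ne {a b τ x : ℝ} (hτ : 0 < τ) (h : trp a b τ x ≠ 0) :
    a - τ < x ∧ x < b + τ := by
  constructor
  · by_contra h1
    exact h (trp_zero hτ (Or.inl (not_lt.1 h1)))
  · by_contra h1
    exact h (trp_zero hτ (Or.inr (not_lt.1 h1)))

private theorem b3_chi_up {η τ : ℝ} (hη : 0 ≤ η) (hτ : 0 < τ) :
    ∫ t, trp 0 η τ t * Real.exp t ≤ Real.exp (η + τ) - Real.exp (-τ) := by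
  have hs : Function.support (fun t => trp 0 η τ t * Real.exp t) ⊆ Set.Ioc (-τ) (η + τ) := by
    intro t ht
    have h1 : trp 0 η τ t ≠ 0 := fun h0 => ht (by simp only [h0, zero_mul])
    have h2 := b3_trp_ne hτ h1
    exact ⟨by linarith [h2.1], h2.2.le⟩
  rw [← intervalIntegral.integral_eq_integral_of_support_subset hs, ← integral_exp]
  refine intervalIntegral.integral_mono_on (by linarith) ?_ ?_ fun t _ => ?_
  · exact ((trp_cont 0 η hτ).mul Real.continuous_exp).intervalIntegrable _ _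
  · exact Real.continuous_exp.intervalIntegrable _ _
  · exact (mul_le_mul_of_nonneg_right (trp_bd 0 η τ t).2 (Real.exp_pos t).le).trans_eq (one_mul _)

private theorem b3_chi_lo {η τ : ℝ} (hτ : 0 < τ) (h : τ ≤ η - τ) :
    Real.exp (η - τ) - Real.exp τ ≤ ∫ t, trp τ (η - τ) τ t * Real.exp t := by
  have hc : Continuous fun t => trp τ (η - τ) τ t * Real.exp t :=
    (trp_cont τ (η - τ) hτ).mul Real.continuous_exp
  have hi : Integrable (fun t => trp τ (η - τ) τ t * Real.exp t) :=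
    hc.integrable_of_hasCompactSupport (trp_supp τ (η - τ) hτ).mul_right
  rw [← integral_exp]
  have e1 : ∫ t in τ..(η - τ), Real.exp t = ∫ t in τ..(η - τ), trp τ (η - τ) τ t * Real.exp t := by
    refine intervalIntegral.integral_congr fun t ht => ?_
    rw [Set.uIcc_of_le h, Set.mem_Icc] at ht
    rw [trp_one hτ ht.1 ht.2, one_mul]
  rw [e1, intervalIntegral.integral_of_le h]
  refine setIntegral_le_integral hi (Eventually.of_forall fun t => ?_)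
  exact mul_nonneg (trp_bd _ _ _ t).1 (Real.exp_pos t).le

private theorem b3_r_lim (C H : ℝ) : Tendsto (fun w : ℝ => C * (((w + H) / 2) ^ 3 *
    Real.exp (-((w + H) / 2)))) atTop (nhds 0) := by
  have h1 := Real.tendsto_pow_mul_exp_neg_atTop_nhds_zero 3
  have h2 : Tendsto (fun w : ℝ => (w + H) / 2) atTop atTop :=
    (tendsto_atTop_add_const_right _ H tendsto_id).atTop_div_const (by norm_num)
  have h3 := (h1.comp h2).const_mul C
  rwa [mul_zero] at h3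


/-- the prime triples in the block -/
private def b3P (θ u1 v1 u2 v2 w η : ℝ) : Set (ℕ × ℕ × ℕ) :=
  {q | (q.1.Prime ∧ q.2.1.Prime ∧ q.2.2.Prime) ∧ (Real.exp w ≤ (q.1 : ℝ) ∧ (q.1 : ℝ) < Real.exp (w + η)) ∧
    (u1 ≤ Real.exp θ * q.1 - q.2.1 ∧ Real.exp θ * q.1 - q.2.1 ≤ v1) ∧
    (u2 ≤ Real.exp θ * q.2.1 - q.2.2 ∧ Real.exp θ * q.2.1 - q.2.2 ≤ v2)}

/-- all the triples in the block -/
private def b3R (θ u1 v1 u2 v2 w η : ℝ) : Set (ℕ × ℕ × ℕ) :=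
  {q | (1 ≤ q.1 ∧ 1 ≤ q.2.1 ∧ 1 ≤ q.2.2) ∧ (Real.exp w ≤ (q.1 : ℝ) ∧ (q.1 : ℝ) < Real.exp (w + η)) ∧
    (u1 ≤ Real.exp θ * q.1 - q.2.1 ∧ Real.exp θ * q.1 - q.2.1 ≤ v1) ∧
    (u2 ≤ Real.exp θ * q.2.1 - q.2.2 ∧ Real.exp θ * q.2.1 - q.2.2 ≤ v2)}

private theorem b3R_fin (θ u1 v1 u2 v2 w η : ℝ) : (b3R θ u1 v1 u2 v2 w η).Finite :=
  (b3_fin (Real.exp θ) u1 u2 (Real.exp (w + η))).subset fun _ hq =>
    ⟨hq.2.1.2, hq.2.2.1.1, hq.2.2.2.1⟩

private theorem b3P_sub (θ u1 v1 u2 v2 w η : ℝ) : b3P θ u1 v1 u2 v2 w η ⊆ b3R θ u1 v1 u2 v2 w η :=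
  fun _ hq => ⟨⟨hq.1.1.one_le, hq.1.2.1.one_le, hq.1.2.2.one_le⟩, hq.2⟩

private theorem b3P_fin (θ u1 v1 u2 v2 w η : ℝ) : (b3P θ u1 v1 u2 v2 w η).Finite :=
  (b3R_fin θ u1 v1 u2 v2 w η).subset (b3P_sub θ u1 v1 u2 v2 w η)

private theorem b3P_card (θ u1 v1 u2 v2 w η : ℝ) (hη : 0 ≤ η) :
    ((Tr3 (Real.exp θ) u1 v1 u2 v2 (Real.exp (w + η)) : ℝ) -
      Tr3 (Real.exp θ) u1 v1 u2 v2 (Real.exp w)) = ((b3P θ u1 v1 u2 v2 w η).ncard : ℝ) := by
  have hsub : {q : ℕ × ℕ × ℕ | q.1.Prime ∧ q.2.1.Prime ∧ q.2.2.Prime ∧ (q.1 : ℝ) < Real.exp w ∧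
      u1 ≤ Real.exp θ * q.1 - q.2.1 ∧ Real.exp θ * q.1 - q.2.1 ≤ v1 ∧
      u2 ≤ Real.exp θ * q.2.1 - q.2.2 ∧ Real.exp θ * q.2.1 - q.2.2 ≤ v2} ⊆
      {q : ℕ × ℕ × ℕ | q.1.Prime ∧ q.2.1.Prime ∧ q.2.2.Prime ∧ (q.1 : ℝ) < Real.exp (w + η) ∧
      u1 ≤ Real.exp θ * q.1 - q.2.1 ∧ Real.exp θ * q.1 - q.2.1 ≤ v1 ∧
      u2 ≤ Real.exp θ * q.2.1 - q.2.2 ∧ Real.exp θ * q.2.1 - q.2.2 ≤ v2} := by
    rintro q ⟨a1, a2, a3, a4, a5⟩
    exact ⟨a1, a2, a3, a4.trans_le (Real.exp_le_exp.2 (by linarith)), a5⟩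
  have h := Set.ncard_sdiff_add_ncard_of_subset hsub (tr3_fin (Real.exp θ) u1 v1 u2 v2 (Real.exp (w + η)))
  have e : b3P θ u1 v1 u2 v2 w η =
      {q : ℕ × ℕ × ℕ | q.1.Prime ∧ q.2.1.Prime ∧ q.2.2.Prime ∧ (q.1 : ℝ) < Real.exp (w + η) ∧
      u1 ≤ Real.exp θ * q.1 - q.2.1 ∧ Real.exp θ * q.1 - q.2.1 ≤ v1 ∧
      u2 ≤ Real.exp θ * q.2.1 - q.2.2 ∧ Real.exp θ * q.2.1 - q.2.2 ≤ v2} \
      {q : ℕ × ℕ × ℕ | q.1.Prime ∧ q.2.1.Prime ∧ q.2.2.Prime ∧ (q.1 : ℝ) < Real.exp w ∧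
      u1 ≤ Real.exp θ * q.1 - q.2.1 ∧ Real.exp θ * q.1 - q.2.1 ≤ v1 ∧
      u2 ≤ Real.exp θ * q.2.1 - q.2.2 ∧ Real.exp θ * q.2.1 - q.2.2 ≤ v2} := by
    ext q
    constructor
    · rintro ⟨⟨a1, a2, a3⟩, ⟨a4, a5⟩, ⟨a6, a7⟩, a8, a9⟩
      refine ⟨⟨a1, a2, a3, a5, a6, a7, a8, a9⟩, fun hh => ?_⟩
      exact absurd hh.2.2.2.1 (not_lt.2 a4)
    · rintro ⟨⟨a1, a2, a3, a5, a6, a7, a8, a9⟩, hh⟩
      refine ⟨⟨a1, a2, a3⟩, ⟨?_, a5⟩, ⟨a6, a7⟩, a8, a9⟩
      by_contra h4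
      exact hh ⟨a1, a2, a3, not_le.1 h4, a6, a7, a8, a9⟩
  rw [e]
  unfold Tr3
  have h' : ((_ : ℕ) : ℝ) = ((_ : ℕ) : ℝ) := congrArg (Nat.cast : ℕ → ℝ) h
  push_cast at h'
  linarith

/-- the geometry for the elements of the block -/
private theorem b3_blk (θ u1 v1 u2 v2 Y ε : ℝ) (hY : 0 < Y) (hu1 : |u1| ≤ Y) (hv1 : |v1| ≤ Y)
    (hu2 : |u2| ≤ Y) (hv2 : |v2| ≤ Y) (hε : 0 < ε) {η : ℝ} (hη1 : η ≤ 1) :
    ∀ᶠ w : ℝ in atTop, ∀ q ∈ b3R θ u1 v1 u2 v2 w η,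
      (0 ≤ Real.log q.1 - w ∧ Real.log q.1 - w ≤ η) ∧
      |(Real.exp θ * q.1 - q.2.1) - Real.exp θ * q.1 * (Real.log q.1 + θ - Real.log q.2.1)| ≤ ε ∧
      |(Real.exp θ * q.2.1 - q.2.2) - Real.exp (2 * θ) * q.1 * (Real.log q.2.1 + θ - Real.log q.2.2)| ≤ ε ∧
      1 - ε ≤ Real.exp (b3rho θ w q.1 q.2.1 q.2.2) ∧ Real.exp (b3rho θ w q.1 q.2.1 q.2.2) ≤ 1 + ε ∧
      (1 - ε) * w ^ 3 ≤ Real.log q.1 * Real.log q.2.1 * Real.log q.2.2 ∧
      Real.log q.1 * Real.log q.2.1 * Real.log q.2.2 ≤ (1 + ε) * w ^ 3 ∧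
      0 ≤ Real.log q.1 ∧ 0 ≤ Real.log q.2.1 ∧ 0 ≤ Real.log q.2.2 ∧
      Real.log q.1 ≤ w + (4 + 2 * |θ|) ∧ Real.log q.2.1 ≤ w + (4 + 2 * |θ|) ∧
      Real.log q.2.2 ≤ w + (4 + 2 * |θ|) := by
  filter_upwards [b3_geo θ (4 * Y) ε (by linarith) hε, b3_inv θ Y hY] with w hw1 hw2 q hq
  obtain ⟨⟨p0, p1, p2⟩, ⟨h1, h2⟩, ⟨h3, h4⟩, h5, h6⟩ := hq
  have p0' : (0 : ℝ) < q.1 := by exact_mod_cast p0
  have p1' : (0 : ℝ) < q.2.1 := by exact_mod_cast p1
  have p2' : (0 : ℝ) < q.2.2 := by exact_mod_cast p2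
  have t1 : 0 ≤ Real.log q.1 - w := by
    have := Real.log_le_log (Real.exp_pos w) h1
    rw [Real.log_exp] at this
    linarith
  have t2 : Real.log q.1 - w ≤ η := by
    have := Real.log_le_log p0' h2.le
    rw [Real.log_exp] at this
    linarith
  rw [abs_le] at hu1 hv1 hu2 hv2
  obtain ⟨g1, g2⟩ := hw2 q.1 q.2.1 q.2.2 p0' p1' p2' (by linarith) (abs_le.2 ⟨by linarith, by linarith⟩)
    (abs_le.2 ⟨by linarith, by linarith⟩)
  exact ⟨⟨t1, t2⟩, hw1 q.1 q.2.1 q.2.2 p0' p1' p2' (by linarith) (by linarith) g1 g2⟩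

private theorem b3_upper (θ u1 v1 u2 v2 : ℝ) {η τ : ℝ} (hη : 0 ≤ η) (hη1 : η ≤ 1) (hτ : 0 < τ)
    (hτ1 : τ < 1) : ∀ᶠ w : ℝ in atTop,
      (1 - τ) ^ 2 * (((b3P θ u1 v1 u2 v2 w η).ncard : ℝ) * w ^ 3 / Real.exp w) ≤
        V3 w θ (b3f θ (trp 0 η τ) (trp (u1 - τ) (v1 + τ) τ) (trp (u2 - τ) (v2 + τ) τ)) := by
  set Y : ℝ := |u1| + |v1| + |u2| + |v2| + 4 with hY
  have a1 := abs_nonneg u1
  have a2 := abs_nonneg v1
  have a3 := abs_nonneg u2
  have a4 := abs_nonneg v2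
  set f := b3f θ (trp 0 η τ) (trp (u1 - τ) (v1 + τ) τ) (trp (u2 - τ) (v2 + τ) τ) with hf
  have hs : HasCompactSupport f := by
    refine b3_f_supp (R := Y) (by positivity) (fun x hx => ?_) (fun x hx => ?_) fun x hx => ?_
    · exact b3_trp_zero hτ (by rw [zero_sub, abs_neg, abs_of_pos hτ]; linarith)
        (by rw [abs_of_nonneg (by linarith)]; linarith) hx
    · refine b3_trp_zero hτ (abs_le.2 ⟨?_, ?_⟩) (abs_le.2 ⟨?_, ?_⟩) hx
      · linarith [neg_abs_le u1]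
      · linarith [le_abs_self u1]
      · linarith [neg_abs_le v1]
      · linarith [le_abs_self v1]
    · refine b3_trp_zero hτ (abs_le.2 ⟨?_, ?_⟩) (abs_le.2 ⟨?_, ?_⟩) hx
      · linarith [neg_abs_le u2]
      · linarith [le_abs_self u2]
      · linarith [neg_abs_le v2]
      · linarith [le_abs_self v2]
  filter_upwards [b3_blk θ u1 v1 u2 v2 Y τ (by positivity) (by linarith) (by linarith) (by linarith)
    (by linarith) hτ hη1, eventually_ge_atTop (1 : ℝ)] with w hw hw1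
  have hfin := b3P_fin θ u1 v1 u2 v2 w η
  have hnn : ∀ q, 0 ≤ b3t w θ f q := by
    intro q
    by_cases h0 : 1 ≤ q.1 ∧ 1 ≤ q.2.1 ∧ 1 ≤ q.2.2
    · rw [hf, b3_t_eq w θ _ _ _ q h0.1 h0.2.1 h0.2.2]
      refine mul_nonneg (mul_nonneg (mul_nonneg (mul_nonneg vonMangoldt_nonneg vonMangoldt_nonneg)
        vonMangoldt_nonneg) (by positivity)) (mul_nonneg (mul_nonneg (trp_bd _ _ _ _).1
        (trp_bd _ _ _ _).1) (trp_bd _ _ _ _).1)
    · by_contra h1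
      exact h0 (b3_t_pos (ne_of_lt (not_le.1 h1)))
  have hsum : Summable (b3t w θ f) := summable_of_hasFiniteSupport (b3_t_fin hs)
  have h1 : ∑ q ∈ hfin.toFinset, b3t w θ f q ≤ V3 w θ f :=
    hsum.sum_le_tsum _ fun q _ => hnn q
  refine le_trans ?_ h1
  have h2 : ∀ q ∈ hfin.toFinset, (1 - τ) ^ 2 * (w ^ 3 / Real.exp w) ≤ b3t w θ f q := by
    intro q hq
    rw [Set.Finite.mem_toFinset] at hq
    obtain ⟨⟨t1, t2⟩, g1, g2, g3, g4, g5, g6, g7, g8, g9, -⟩ := hw q (b3P_sub _ _ _ _ _ _ _ hq)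
    obtain ⟨⟨p0, p1, p2⟩, -, ⟨y1, y2⟩, y3, y4⟩ := hq
    rw [hf, b3_t_eq w θ _ _ _ q p0.one_le p1.one_le p2.one_le, vonMangoldt_apply_prime p0,
      vonMangoldt_apply_prime p1, vonMangoldt_apply_prime p2]
    rw [abs_le] at g1 g2
    rw [trp_one hτ t1 t2, trp_one hτ (by linarith [g1.2]) (by linarith [g1.1]),
      trp_one hτ (by linarith [g2.2]) (by linarith [g2.1])]
    have e1 : (1 - τ) ^ 2 * (w ^ 3 / Real.exp w) = ((1 - τ) * w ^ 3) * (Real.exp (-w) * (1 - τ)) := by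
      rw [Real.exp_neg]; ring
    rw [e1, one_mul, one_mul, mul_one]
    refine mul_le_mul g5 (mul_le_mul_of_nonneg_left g3 (Real.exp_pos _).le)
      (mul_nonneg (Real.exp_pos _).le (by linarith)) (mul_nonneg (mul_nonneg g7 g8) g9)
  have h3 := Finset.card_nsmul_le_sum _ _ _ h2
  rw [nsmul_eq_mul, ← Set.ncard_eq_toFinset_card _ hfin] at h3
  refine le_trans (le_of_eq ?_) h3
  ring

/-- differences of two elements of the block -/
private theorem b3_diff (θ u1 v1 u2 v2 η : ℝ) : ∃ D : ℕ, ∀ w : ℝ, ∀ q ∈ b3R θ u1 v1 u2 v2 w η,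
    ∀ q' ∈ b3R θ u1 v1 u2 v2 w η, (q.1 = q'.1 ∨ q.2.1 = q'.2.1 ∨ q.2.2 = q'.2.2) →
      q.1 ≤ q'.1 + D ∧ q.2.1 ≤ q'.2.1 + D ∧ q.2.2 ≤ q'.2.2 + D := by
  set α : ℝ := Real.exp θ with hα
  have hα0 : 0 < α := Real.exp_pos θ
  set d1 : ℝ := |v1 - u1| with hd1
  set d2 : ℝ := |v2 - u2| with hd2
  have hd1' : 0 ≤ d1 := abs_nonneg _
  have hd2' : 0 ≤ d2 := abs_nonneg _
  set Dr : ℝ := d1 + d2 + α * d1 + d1 / α + d2 / α + d2 / α / α with hDr
  refine ⟨⌈Dr⌉₊, fun w q hq q' hq' h => ?_⟩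
  obtain ⟨-, -, ⟨y1, y2⟩, y3, y4⟩ := hq
  obtain ⟨-, -, ⟨z1, z2⟩, z3, z4⟩ := hq'
  have hle1 : v1 - u1 ≤ d1 := le_abs_self _
  have hle2 : v2 - u2 ≤ d2 := le_abs_self _
  have x1 : |α * ((q.1 : ℝ) - q'.1) - ((q.2.1 : ℝ) - q'.2.1)| ≤ d1 := by
    rw [abs_le]; constructor <;> linarith
  have x2 : |α * ((q.2.1 : ℝ) - q'.2.1) - ((q.2.2 : ℝ) - q'.2.2)| ≤ d2 := by
    rw [abs_le]; constructor <;> linarith
  have hdiv : ∀ x d : ℝ, α * x ≤ d → x ≤ d / α := fun x d hx => by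
    rw [le_div_iff₀ hα0]; linarith
  have n1 : 0 ≤ α * d1 := by positivity
  have n2 : 0 ≤ d1 / α := by positivity
  have n3 : 0 ≤ d2 / α := by positivity
  have n4 : 0 ≤ d2 / α / α := by positivity
  rw [abs_le] at x1 x2
  have main : (q.1 : ℝ) - q'.1 ≤ Dr ∧ (q.2.1 : ℝ) - q'.2.1 ≤ Dr ∧ (q.2.2 : ℝ) - q'.2.2 ≤ Dr := by
    rcases h with h | h | h
    · have e : (q.1 : ℝ) = q'.1 := by rw [h]
      have k1 : (q.2.1 : ℝ) - q'.2.1 ≤ d1 := by
        rw [e, sub_self, mul_zero] at x1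
        linarith [x1.1]
      have k2 : α * ((q.2.1 : ℝ) - q'.2.1) ≤ α * d1 := mul_le_mul_of_nonneg_left k1 hα0.le
      refine ⟨?_, ?_, ?_⟩
      · rw [e]; linarith
      · linarith
      · linarith [x2.1]
    · have e : (q.2.1 : ℝ) = q'.2.1 := by rw [h]
      rw [e, sub_self] at x1 x2
      refine ⟨?_, ?_, ?_⟩
      · have := hdiv _ _ (by linarith [x1.2] : α * ((q.1 : ℝ) - q'.1) ≤ d1)
        linarith
      · rw [e]; linarith
      · linarith [x2.1]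
    · have e : (q.2.2 : ℝ) = q'.2.2 := by rw [h]
      rw [e, sub_self, sub_zero] at x2
      have k1 := hdiv _ _ x2.2
      have k2 := hdiv _ _ (by linarith [x1.2] : α * ((q.1 : ℝ) - q'.1) ≤ d1 + d2 / α)
      rw [add_div] at k2
      refine ⟨?_, ?_, ?_⟩
      · linarith
      · linarith
      · rw [e]; linarith
  have hc := Nat.le_ceil Dr
  refine ⟨?_, ?_, ?_⟩
  · have : (q.1 : ℝ) ≤ q'.1 + ⌈Dr⌉₊ := by linarith [main.1]
    exact_mod_cast this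
  · have : (q.2.1 : ℝ) ≤ q'.2.1 + ⌈Dr⌉₊ := by linarith [main.2.1]
    exact_mod_cast this
  · have : (q.2.2 : ℝ) ≤ q'.2.2 + ⌈Dr⌉₊ := by linarith [main.2.2]
    exact_mod_cast this

/-- the sum of the weights over all triples of the block -/
private theorem b3_wsum (θ u1 v1 u2 v2 : ℝ) {η τ : ℝ} (hη1 : η ≤ 1) (hτ : 0 < τ) : ∃ C : ℝ,
    ∀ᶠ w : ℝ in atTop, Real.exp (-w) * ∑ q ∈ (b3R_fin θ u1 v1 u2 v2 w η).toFinset,
        (vonMangoldt q.1 * vonMangoldt q.2.1 * vonMangoldt q.2.2) ≤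
      (1 + τ) * (((b3P θ u1 v1 u2 v2 w η).ncard : ℝ) * w ^ 3 / Real.exp w) +
        C * (((w + (4 + 2 * |θ|)) / 2) ^ 3 * Real.exp (-((w + (4 + 2 * |θ|)) / 2))) := by
  classical
  set H : ℝ := 4 + 2 * |θ| with hH
  have hH0 : 0 ≤ H := by positivity
  obtain ⟨D, hD⟩ := b3_diff θ u1 v1 u2 v2 η
  set K : ℕ := (2 * D + 1) ^ 3 with hK
  set Y : ℝ := |u1| + |v1| + |u2| + |v2| + 4 with hY
  have a1 := abs_nonneg u1
  have a2 := abs_nonneg v1
  have a3 := abs_nonneg u2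
  have a4 := abs_nonneg v2
  refine ⟨48 * K * Real.exp H, ?_⟩
  filter_upwards [b3_blk θ u1 v1 u2 v2 Y τ (by positivity) (by linarith) (by linarith) (by linarith)
    (by linarith) hτ hη1, eventually_ge_atTop (1 : ℝ)] with w hw hw1
  set F := (b3R_fin θ u1 v1 u2 v2 w η).toFinset with hF
  have hmF : ∀ q, q ∈ F ↔ q ∈ b3R θ u1 v1 u2 v2 w η := fun q => Set.Finite.mem_toFinset _
  have hwH : 0 ≤ w + H := by linarith
  set S : Finset ℕ := (Finset.Ioc 0 ⌊Real.exp (w + H)⌋₊).filter (fun m => ¬ m.Prime) with hS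
  have hSb : ∑ m ∈ S, (vonMangoldt m : ℝ) ≤ 2 * Real.exp ((w + H) / 2) * (w + H) := by
    have h := b3_np (x := Real.exp (w + H)) (Real.one_le_exp hwH)
    rw [Real.log_exp, ← Real.exp_half] at h
    exact h
  have hmem : ∀ n : ℕ, 1 ≤ n → Real.log n ≤ w + H → ¬ n.Prime → n ∈ S := by
    intro n h1 h2 h3
    have hn0 : (0 : ℝ) < n := by exact_mod_cast h1
    refine Finset.mem_filter.2 ⟨Finset.mem_Ioc.2 ⟨h1, Nat.le_floor ?_⟩, h3⟩
    rw [← Real.exp_log hn0]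
    exact Real.exp_le_exp.2 h2
  -- one coordinate which is not a prime
  have hone : ∀ g : ℕ × ℕ × ℕ → ℕ, (∀ q q' : ℕ × ℕ × ℕ, g q = g q' → (q.1 = q'.1 ∨ q.2.1 = q'.2.1 ∨ q.2.2 = q'.2.2)) →
      (∀ q ∈ b3R θ u1 v1 u2 v2 w η, 1 ≤ g q ∧ Real.log (g q) ≤ w + H) →
      ∑ q ∈ F.filter (fun q => ¬ (g q).Prime), (vonMangoldt (g q) : ℝ) ≤
        K * (2 * Real.exp ((w + H) / 2) * (w + H)) := by
    intro g hg1 hg2
    have h1 := b3_fib (F.filter (fun q => ¬ (g q).Prime)) D g (fun q hq q' hq' he =>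
      hD w q ((hmF q).1 (Finset.mem_filter.1 hq).1) q' ((hmF q').1 (Finset.mem_filter.1 hq').1)
        (hg1 q q' he)) (fun n => vonMangoldt n) (fun n => vonMangoldt_nonneg) S (fun q hq => by
        rw [Finset.mem_filter] at hq
        obtain ⟨b1, b2⟩ := hg2 q ((hmF q).1 hq.1)
        exact hmem _ b1 b2 hq.2)
    refine h1.trans (mul_le_mul_of_nonneg_left hSb (Nat.cast_nonneg _))
  have s0 := hone (fun q => q.1) (fun q q' h => Or.inl h) (fun q hq => by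
    obtain ⟨-, -, -, -, -, -, -, -, -, -, g10, -, -⟩ := hw q hq
    exact ⟨hq.1.1, g10⟩)
  have s1 := hone (fun q => q.2.1) (fun q q' h => Or.inr (Or.inl h)) (fun q hq => by
    obtain ⟨-, -, -, -, -, -, -, -, -, -, -, g11, -⟩ := hw q hq
    exact ⟨hq.1.2.1, g11⟩)
  have s2 := hone (fun q => q.2.2) (fun q q' h => Or.inr (Or.inr h)) (fun q hq => by
    obtain ⟨-, -, -, -, -, -, -, -, -, -, -, -, g12⟩ := hw q hq
    exact ⟨hq.1.2.2, g12⟩)
  -- pointwise bound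
  have hpt : ∀ q ∈ F, (vonMangoldt q.1 * vonMangoldt q.2.1 * vonMangoldt q.2.2 : ℝ) ≤
      (if q.1.Prime ∧ q.2.1.Prime ∧ q.2.2.Prime then (1 + τ) * w ^ 3 else 0) +
      (w + H) ^ 2 * ((if ¬ q.1.Prime then (vonMangoldt q.1 : ℝ) else 0) +
        (if ¬ q.2.1.Prime then (vonMangoldt q.2.1 : ℝ) else 0) +
        (if ¬ q.2.2.Prime then (vonMangoldt q.2.2 : ℝ) else 0)) := by
    intro q hq
    obtain ⟨-, -, -, -, -, -, g6, g7, g8, g9, g10, g11, g12⟩ := hw q ((hmF q).1 hq)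
    have L0 : (vonMangoldt q.1 : ℝ) ≤ Real.log q.1 := vonMangoldt_le_log
    have L1 : (vonMangoldt q.2.1 : ℝ) ≤ Real.log q.2.1 := vonMangoldt_le_log
    have L2 : (vonMangoldt q.2.2 : ℝ) ≤ Real.log q.2.2 := vonMangoldt_le_log
    have N0 : (0 : ℝ) ≤ vonMangoldt q.1 := vonMangoldt_nonneg
    have N1 : (0 : ℝ) ≤ vonMangoldt q.2.1 := vonMangoldt_nonneg
    have N2 : (0 : ℝ) ≤ vonMangoldt q.2.2 := vonMangoldt_nonneg
    have M0 := L0.trans g10
    have M1 := L1.trans g11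
    have M2 := L2.trans g12
    have i0 : (0 : ℝ) ≤ (if ¬ q.1.Prime then (vonMangoldt q.1 : ℝ) else 0) := by
      split_ifs
      · exact le_rfl
      · exact N0
    have i1 : (0 : ℝ) ≤ (if ¬ q.2.1.Prime then (vonMangoldt q.2.1 : ℝ) else 0) := by
      split_ifs
      · exact le_rfl
      · exact N1
    have i2 : (0 : ℝ) ≤ (if ¬ q.2.2.Prime then (vonMangoldt q.2.2 : ℝ) else 0) := by
      split_ifs
      · exact le_rfl
      · exact N2
    have hsq : 0 ≤ (w + H) ^ 2 := sq_nonneg _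
    by_cases hp : q.1.Prime ∧ q.2.1.Prime ∧ q.2.2.Prime
    · rw [if_pos hp]
      have h1 : (vonMangoldt q.1 * vonMangoldt q.2.1 * vonMangoldt q.2.2 : ℝ) ≤ (1 + τ) * w ^ 3 :=
        (mul_le_mul (mul_le_mul L0 L1 N1 g7) L2 N2 (mul_nonneg g7 g8)).trans g6
      have h2 := mul_nonneg hsq (add_nonneg (add_nonneg i0 i1) i2)
      linarith
    · rw [if_neg hp, zero_add]
      have hcase : ¬ q.1.Prime ∨ ¬ q.2.1.Prime ∨ ¬ q.2.2.Prime := by
        by_contra hcon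
        push Not at hcon
        exact hp hcon
      rcases hcase with h | h | h
      · have h1 : (vonMangoldt q.1 * vonMangoldt q.2.1 * vonMangoldt q.2.2 : ℝ) ≤
            (w + H) ^ 2 * vonMangoldt q.1 := by
          calc _ = (vonMangoldt q.2.1 * vonMangoldt q.2.2 : ℝ) * vonMangoldt q.1 := by ring
            _ ≤ ((w + H) * (w + H)) * vonMangoldt q.1 :=
              mul_le_mul_of_nonneg_right (mul_le_mul M1 M2 N2 hwH) N0
            _ = _ := by ring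
        refine h1.trans (mul_le_mul_of_nonneg_left ?_ hsq)
        rw [if_pos h]
        linarith
      · have h1 : (vonMangoldt q.1 * vonMangoldt q.2.1 * vonMangoldt q.2.2 : ℝ) ≤
            (w + H) ^ 2 * vonMangoldt q.2.1 := by
          calc _ = (vonMangoldt q.1 * vonMangoldt q.2.2 : ℝ) * vonMangoldt q.2.1 := by ring
            _ ≤ ((w + H) * (w + H)) * vonMangoldt q.2.1 :=
              mul_le_mul_of_nonneg_right (mul_le_mul M0 M2 N2 hwH) N1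
            _ = _ := by ring
        refine h1.trans (mul_le_mul_of_nonneg_left ?_ hsq)
        rw [if_pos h]
        linarith
      · have h1 : (vonMangoldt q.1 * vonMangoldt q.2.1 * vonMangoldt q.2.2 : ℝ) ≤
            (w + H) ^ 2 * vonMangoldt q.2.2 := by
          calc _ = (vonMangoldt q.1 * vonMangoldt q.2.1 : ℝ) * vonMangoldt q.2.2 := by ring
            _ ≤ ((w + H) * (w + H)) * vonMangoldt q.2.2 :=
              mul_le_mul_of_nonneg_right (mul_le_mul M0 M1 N1 hwH) N2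
            _ = _ := by ring
        refine h1.trans (mul_le_mul_of_nonneg_left ?_ hsq)
        rw [if_pos h]
        linarith
  have hsum := Finset.sum_le_sum hpt
  rw [Finset.sum_add_distrib, ← Finset.sum_filter, Finset.sum_const, nsmul_eq_mul, ← Finset.mul_sum,
    Finset.sum_add_distrib, Finset.sum_add_distrib, ← Finset.sum_filter, ← Finset.sum_filter,
    ← Finset.sum_filter] at hsum
  have hcard : ((F.filter fun q => q.1.Prime ∧ q.2.1.Prime ∧ q.2.2.Prime).card : ℝ) =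
      ((b3P θ u1 v1 u2 v2 w η).ncard : ℝ) := by
    rw [Set.ncard_eq_toFinset_card _ (b3P_fin θ u1 v1 u2 v2 w η)]
    congr 2
    ext q
    rw [Finset.mem_filter, hmF, Set.Finite.mem_toFinset]
    constructor
    · rintro ⟨h1, h2⟩
      exact ⟨h2, h1.2⟩
    · intro h
      exact ⟨b3P_sub _ _ _ _ _ _ _ h, h.1⟩
  rw [hcard] at hsum
  have hfin : ∑ q ∈ F, (vonMangoldt q.1 * vonMangoldt q.2.1 * vonMangoldt q.2.2 : ℝ) ≤
      ((b3P θ u1 v1 u2 v2 w η).ncard : ℝ) * ((1 + τ) * w ^ 3) +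
        (w + H) ^ 2 * (3 * (K * (2 * Real.exp ((w + H) / 2) * (w + H)))) := by
    refine hsum.trans (add_le_add le_rfl (mul_le_mul_of_nonneg_left ?_ (sq_nonneg _)))
    linarith
  have hmul := mul_le_mul_of_nonneg_left hfin (Real.exp_pos (-w)).le
  refine hmul.trans (le_of_eq ?_)
  have e1 : Real.exp (-w) * Real.exp ((w + H) / 2) = Real.exp H * Real.exp (-((w + H) / 2)) := by
    rw [← Real.exp_add, ← Real.exp_add]; congr 1; ring
  have e2 : (1 : ℝ) / Real.exp w = Real.exp (-w) := by rw [Real.exp_neg]; ring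
  calc Real.exp (-w) * (((b3P θ u1 v1 u2 v2 w η).ncard : ℝ) * ((1 + τ) * w ^ 3) +
        (w + H) ^ 2 * (3 * (K * (2 * Real.exp ((w + H) / 2) * (w + H)))))
      = (1 + τ) * (((b3P θ u1 v1 u2 v2 w η).ncard : ℝ) * w ^ 3) * Real.exp (-w) +
        6 * K * (w + H) ^ 3 * (Real.exp (-w) * Real.exp ((w + H) / 2)) := by ring
    _ = _ := by
      rw [e1, ← e2]
      ring

private theorem b3_lower (θ u1 v1 u2 v2 : ℝ) {η τ : ℝ} (hη1 : η ≤ 1) (hτ : 0 < τ)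
    (hτ1 : τ < 1) : ∃ C : ℝ, ∀ᶠ w : ℝ in atTop,
      V3 w θ (b3f θ (trp τ (η - τ) τ) (trp (u1 + 2 * τ) (v1 - 2 * τ) τ)
        (trp (u2 + 2 * τ) (v2 - 2 * τ) τ)) ≤
      (1 + τ) ^ 2 * (((b3P θ u1 v1 u2 v2 w η).ncard : ℝ) * w ^ 3 / Real.exp w) +
        C * (((w + (4 + 2 * |θ|)) / 2) ^ 3 * Real.exp (-((w + (4 + 2 * |θ|)) / 2))) := by
  obtain ⟨C, hC⟩ := b3_wsum θ u1 v1 u2 v2 hη1 hτ
  set Y : ℝ := |u1| + |v1| + |u2| + |v2| + 4 with hY
  have a1 := abs_nonneg u1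
  have a2 := abs_nonneg v1
  have a3 := abs_nonneg u2
  have a4 := abs_nonneg v2
  set f := b3f θ (trp τ (η - τ) τ) (trp (u1 + 2 * τ) (v1 - 2 * τ) τ)
        (trp (u2 + 2 * τ) (v2 - 2 * τ) τ) with hf
  refine ⟨(1 + τ) * C, ?_⟩
  filter_upwards [b3_geo θ Y τ (by positivity) hτ, hC] with w hw hCw
  set F := (b3R_fin θ u1 v1 u2 v2 w η).toFinset with hF
  have hmF : ∀ q, q ∈ F ↔ q ∈ b3R θ u1 v1 u2 v2 w η := fun q => Set.Finite.mem_toFinset _
  -- the nonzero summands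
  have hnz : ∀ q, b3t w θ f q ≠ 0 → q ∈ F ∧
      b3t w θ f q ≤ (1 + τ) * (Real.exp (-w) * (vonMangoldt q.1 * vonMangoldt q.2.1 * vonMangoldt q.2.2)) := by
    intro q hq
    obtain ⟨p0, p1, p2⟩ := b3_t_pos hq
    have heq := b3_t_eq w θ (trp τ (η - τ) τ) (trp (u1 + 2 * τ) (v1 - 2 * τ) τ)
        (trp (u2 + 2 * τ) (v2 - 2 * τ) τ) q p0 p1 p2
    rw [← hf] at heq
    have p0' : (0 : ℝ) < q.1 := by exact_mod_cast p0
    have p1' : (0 : ℝ) < q.2.1 := by exact_mod_cast p1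
    have p2' : (0 : ℝ) < q.2.2 := by exact_mod_cast p2
    have n0 := b3_trp_ne hτ (x := Real.log q.1 - w) (a := τ) (b := η - τ) fun h0 => hq (by
      rw [heq, h0]; ring)
    have n1 := b3_trp_ne hτ (x := Real.exp θ * q.1 * (Real.log q.1 + θ - Real.log q.2.1))
      (a := u1 + 2 * τ) (b := v1 - 2 * τ) fun h0 => hq (by rw [heq, h0]; ring)
    have n2 := b3_trp_ne hτ (x := Real.exp (2 * θ) * q.1 * (Real.log q.2.1 + θ - Real.log q.2.2))
      (a := u2 + 2 * τ) (b := v2 - 2 * τ) fun h0 => hq (by rw [heq, h0]; ring)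
    obtain ⟨g1, g2, -, g4, -⟩ := hw q.1 q.2.1 q.2.2 p0' p1' p2' (by linarith [n0.1])
      (by linarith [n0.2])
      (abs_le.2 ⟨by linarith [n1.1, neg_abs_le u1], by linarith [n1.2, le_abs_self v1]⟩)
      (abs_le.2 ⟨by linarith [n2.1, neg_abs_le u2], by linarith [n2.2, le_abs_self v2]⟩)
    rw [abs_le] at g1 g2
    constructor
    · rw [hmF]
      refine ⟨⟨p0, p1, p2⟩, ⟨?_, ?_⟩, ⟨by linarith [g1.1, n1.1], by linarith [g1.2, n1.2]⟩,
        by linarith [g2.1, n2.1], by linarith [g2.2, n2.2]⟩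
      · rw [← Real.exp_log p0']
        exact Real.exp_le_exp.2 (by linarith [n0.1])
      · rw [← Real.exp_log p0']
        exact Real.exp_lt_exp.2 (by linarith [n0.2])
    · rw [heq]
      have hL : (0 : ℝ) ≤ vonMangoldt q.1 * vonMangoldt q.2.1 * vonMangoldt q.2.2 :=
        mul_nonneg (mul_nonneg vonMangoldt_nonneg vonMangoldt_nonneg) vonMangoldt_nonneg
      have hχ : ∀ a b a' b' a'' b'' x y z : ℝ, trp a b τ x * trp a' b' τ y * trp a'' b'' τ z ≤ 1 := by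
        intro a b a' b' a'' b'' x y z
        have t1 := trp_bd a b τ x
        have t2 := trp_bd a' b' τ y
        have t3 := trp_bd a'' b'' τ z
        calc trp a b τ x * trp a' b' τ y * trp a'' b'' τ z ≤ 1 * 1 * 1 :=
              mul_le_mul (mul_le_mul t1.2 t2.2 t2.1 zero_le_one) t3.2 t3.1 (by norm_num)
          _ = 1 := by norm_num
      have hw0 : 0 ≤ Real.exp (-w) := (Real.exp_pos _).le
      have hA : 0 ≤ (vonMangoldt q.1 * vonMangoldt q.2.1 * vonMangoldt q.2.2 : ℝ) *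
          (Real.exp (-w) * Real.exp (b3rho θ w q.1 q.2.1 q.2.2)) :=
        mul_nonneg hL (mul_nonneg hw0 (Real.exp_pos _).le)
      refine (mul_le_of_le_one_right hA (hχ _ _ _ _ _ _ _ _ _)).trans ?_
      have h5 := mul_le_mul_of_nonneg_left (mul_le_mul_of_nonneg_left g4 hw0) hL
      refine h5.trans (le_of_eq ?_)
      ring
  have h1 : V3 w θ f = ∑ q ∈ F, b3t w θ f q := by
    show ∑' q, b3t w θ f q = _
    refine tsum_eq_sum fun q hq => ?_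
    by_contra h0
    exact hq (hnz q h0).1
  rw [h1]
  have h2 : ∑ q ∈ F, b3t w θ f q ≤ ∑ q ∈ F, (1 + τ) *
      (Real.exp (-w) * (vonMangoldt q.1 * vonMangoldt q.2.1 * vonMangoldt q.2.2)) := by
    refine Finset.sum_le_sum fun q _ => ?_
    by_cases h0 : b3t w θ f q = 0
    · rw [h0]
      have hL : (0 : ℝ) ≤ vonMangoldt q.1 * vonMangoldt q.2.1 * vonMangoldt q.2.2 :=
        mul_nonneg (mul_nonneg vonMangoldt_nonneg vonMangoldt_nonneg) vonMangoldt_nonneg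
      have hw0 : 0 ≤ Real.exp (-w) := (Real.exp_pos _).le
      exact mul_nonneg (by linarith) (mul_nonneg hw0 hL)
    · exact (hnz q h0).2
  rw [← Finset.mul_sum, ← Finset.mul_sum] at h2
  refine h2.trans ?_
  have h3 := mul_le_mul_of_nonneg_left hCw (by linarith : (0 : ℝ) ≤ 1 + τ)
  refine h3.trans (le_of_eq ?_)
  ring

private theorem b3_lim {θ : ℝ} (hθ : Good θ) {χ ψ1 ψ2 : ℝ → ℝ} {R : ℝ} (hR : 0 ≤ R)
    (h : Continuous χ) (h1 : Continuous ψ1) (h2 : Continuous ψ2)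
    (hz : ∀ x, R < |x| → χ x = 0) (hz1 : ∀ x, R < |x| → ψ1 x = 0)
    (hz2 : ∀ x, R < |x| → ψ2 x = 0) {n : ℕ} (hn : 1 ≤ n) :
    Tendsto (fun j : ℕ => V3 ((j : ℝ) / n) θ (b3f θ χ ψ1 ψ2)) atTop
      (nhds ((∫ t, χ t * Real.exp t) * (∫ t, ψ1 t) * ∫ t, ψ2 t)) := by
  have hs : HasCompactSupport (b3f θ χ ψ1 ψ2) := b3_f_supp hR hz hz1 hz2
  have hl := vag3 hθ (b3_f_cont (θ := θ) h h1 h2) hs hn
  rwa [b3_f_int h h1 h2 hs hz1 hz2] at hl

theorem blk3 {θ u1 v1 u2 v2 : ℝ} (hθ : Good θ) (h1 : u1 ≤ v1) (h2 : u2 ≤ v2) {n : ℕ} (hn : 1 ≤ n) :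
    Tendsto (fun j : ℕ => ((Tr3 (Real.exp θ) u1 v1 u2 v2 (Real.exp (((j : ℝ) + 1) / n)) : ℝ) -
        Tr3 (Real.exp θ) u1 v1 u2 v2 (Real.exp ((j : ℝ) / n))) * ((j : ℝ) / n) ^ 3 / Real.exp ((j : ℝ) / n)) atTop
      (nhds ((v1 - u1) * (v2 - u2) * (Real.exp (1 / (n : ℝ)) - 1))) := by
  have hn0 : (0 : ℝ) < n := by exact_mod_cast hn
  set η : ℝ := 1 / (n : ℝ) with hη
  have hη0 : 0 < η := by positivity
  have hη1 : η ≤ 1 := by
    rw [hη, div_le_one hn0]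
    exact_mod_cast hn
  have hre : ∀ j : ℕ, ((Tr3 (Real.exp θ) u1 v1 u2 v2 (Real.exp (((j : ℝ) + 1) / n)) : ℝ) -
        Tr3 (Real.exp θ) u1 v1 u2 v2 (Real.exp ((j : ℝ) / n))) * ((j : ℝ) / n) ^ 3 / Real.exp ((j : ℝ) / n) =
      ((b3P θ u1 v1 u2 v2 ((j : ℝ) / n) η).ncard : ℝ) * ((j : ℝ) / n) ^ 3 / Real.exp ((j : ℝ) / n) := by
    intro j
    rw [← b3P_card θ u1 v1 u2 v2 ((j : ℝ) / n) η hη0.le, hη, ← add_div]
  simp_rw [hre]
  have hjn : Tendsto (fun j : ℕ => (j : ℝ) / n) atTop atTop :=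
    tendsto_natCast_atTop_atTop.atTop_div_const hn0
  set B : ℕ → ℝ := fun j => ((b3P θ u1 v1 u2 v2 ((j : ℝ) / n) η).ncard : ℝ) * ((j : ℝ) / n) ^ 3 /
    Real.exp ((j : ℝ) / n) with hB
  have hB0 : ∀ j, 0 ≤ B j := fun j => by rw [hB]; positivity
  set Y : ℝ := |u1| + |v1| + |u2| + |v2| + 4 with hY
  have a1 := abs_nonneg u1
  have a2 := abs_nonneg v1
  have a3 := abs_nonneg u2
  have a4 := abs_nonneg v2
  have hd1 : 0 ≤ v1 - u1 := by linarith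
  have hd2 : 0 ≤ v2 - u2 := by linarith
  have hY0 : 0 ≤ Y := by positivity
  have hz : ∀ u v τ x : ℝ, 0 < τ → τ < 1 → |u| + |v| + 4 ≤ Y → ∀ s : ℝ, |s| ≤ 2 * τ →
      Y < |x| → trp (u - s) (v + s) τ x = 0 := by
    intro u v τ x hτ hτ1 huv s hs hx
    have b1 := abs_nonneg u
    have b2 := abs_nonneg v
    rw [abs_le] at hs
    refine b3_trp_zero hτ (abs_le.2 ⟨?_, ?_⟩) (abs_le.2 ⟨?_, ?_⟩) hx
    · linarith [neg_abs_le u, hs.2]
    · linarith [le_abs_self u, hs.1]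
    · linarith [neg_abs_le v, hs.1]
    · linarith [le_abs_self v, hs.2]
  refine tendsto_order.2 ⟨fun c hc => ?_, fun c hc => ?_⟩
  · -- lower bound
    rcases hd1.eq_or_lt with hz1 | hp1
    · rw [← hz1, zero_mul, zero_mul] at hc
      exact Eventually.of_forall fun j => hc.trans_le (hB0 j)
    rcases hd2.eq_or_lt with hz2 | hp2
    · rw [← hz2, mul_zero, zero_mul] at hc
      exact Eventually.of_forall fun j => hc.trans_le (hB0 j)
    have hcont : ContinuousAt (fun τ : ℝ => (Real.exp (η - τ) - Real.exp τ) *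
        (v1 - u1 - 3 * τ) * (v2 - u2 - 3 * τ) / (1 + τ) ^ 2) 0 := by
      refine ContinuousAt.div ?_ ?_ (by norm_num)
      · fun_prop
      · fun_prop
    have hlim : c < (fun τ : ℝ => (Real.exp (η - τ) - Real.exp τ) *
        (v1 - u1 - 3 * τ) * (v2 - u2 - 3 * τ) / (1 + τ) ^ 2) 0 := by
      simp only [sub_zero, Real.exp_zero, mul_zero, add_zero, one_pow, div_one]
      linarith
    set τ0 : ℝ := min 1 (min ((v1 - u1) / 4) (min ((v2 - u2) / 4) (η / 2))) with hτ0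
    have hτ0p : 0 < τ0 :=
      lt_min one_pos (lt_min (by linarith) (lt_min (by linarith) (by linarith)))
    have hev : ∀ᶠ τ : ℝ in nhdsWithin 0 (Set.Ioi 0), c < (fun τ : ℝ => (Real.exp (η - τ) - Real.exp τ) *
        (v1 - u1 - 3 * τ) * (v2 - u2 - 3 * τ) / (1 + τ) ^ 2) τ ∧ τ ∈ Set.Ioo 0 τ0 :=
      ((hcont.eventually (lt_mem_nhds hlim)).filter_mono nhdsWithin_le_nhds).and
        (Ioo_mem_nhdsGT hτ0p)
    obtain ⟨τ, hcτ, hτ, hττ⟩ := hev.exists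
    simp only at hcτ
    have hτ1 : τ < 1 := hττ.trans_le (min_le_left _ _)
    have hτ2 : τ < (v1 - u1) / 4 := hττ.trans_le ((min_le_right _ _).trans (min_le_left _ _))
    have hτ3 : τ < (v2 - u2) / 4 :=
      hττ.trans_le ((min_le_right _ _).trans ((min_le_right _ _).trans (min_le_left _ _)))
    have hτ4 : τ < η / 2 :=
      hττ.trans_le ((min_le_right _ _).trans ((min_le_right _ _).trans (min_le_right _ _)))
    rw [lt_div_iff₀ (by positivity)] at hcτ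
    obtain ⟨C, hC⟩ := b3_lower θ u1 v1 u2 v2 hη1 hτ hτ1
    have hl := b3_lim hθ hY0 (trp_cont τ (η - τ) hτ) (trp_cont (u1 + 2 * τ) (v1 - 2 * τ) hτ)
      (trp_cont (u2 + 2 * τ) (v2 - 2 * τ) hτ) (fun x hx => by
        refine b3_trp_zero hτ (abs_le.2 ⟨?_, ?_⟩) (abs_le.2 ⟨?_, ?_⟩) hx <;> linarith) (fun x hx => by
        have := hz u1 v1 τ x hτ hτ1 (by linarith) (-(2 * τ)) (by
          rw [abs_neg, abs_of_pos (by linarith)]) hx
        rwa [sub_neg_eq_add, ← sub_eq_add_neg] at this) (fun x hx => by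
        have := hz u2 v2 τ x hτ hτ1 (by linarith) (-(2 * τ)) (by
          rw [abs_neg, abs_of_pos (by linarith)]) hx
        rwa [sub_neg_eq_add, ← sub_eq_add_neg] at this) hn
    have hr := (b3_r_lim C (4 + 2 * |θ|)).comp hjn
    have hsub := hl.sub hr
    rw [sub_zero, (trp_int (by linarith) hτ).2, (trp_int (by linarith) hτ).2] at hsub
    have hI : c * (1 + τ) ^ 2 < (∫ t, trp τ (η - τ) τ t * Real.exp t) *
        (v1 - 2 * τ - (u1 + 2 * τ) + τ) * (v2 - 2 * τ - (u2 + 2 * τ) + τ) := by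
      refine hcτ.trans_le ?_
      have e1 : v1 - 2 * τ - (u1 + 2 * τ) + τ = v1 - u1 - 3 * τ := by ring
      have e2 : v2 - 2 * τ - (u2 + 2 * τ) + τ = v2 - u2 - 3 * τ := by ring
      rw [e1, e2]
      refine mul_le_mul_of_nonneg_right (mul_le_mul_of_nonneg_right (b3_chi_lo hτ (by linarith)) ?_) ?_
      · linarith
      · linarith
    filter_upwards [hsub.eventually (lt_mem_nhds hI), hjn.eventually hC] with j hj1 hj2
    simp only [Function.comp_apply] at hj1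
    have h5 : c * (1 + τ) ^ 2 < (1 + τ) ^ 2 * B j := by
      rw [hB]
      linarith
    have h6 : 0 < (1 + τ) ^ 2 := by positivity
    rw [mul_comm] at h5
    exact lt_of_mul_lt_mul_left h5 h6.le
  · -- upper bound
    have hcont : ContinuousAt (fun τ : ℝ => (Real.exp (η + τ) - Real.exp (-τ)) *
        (v1 - u1 + 3 * τ) * (v2 - u2 + 3 * τ) / (1 - τ) ^ 2) 0 := by
      refine ContinuousAt.div ?_ ?_ (by norm_num)
      · fun_prop
      · fun_prop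
    have hlim : (fun τ : ℝ => (Real.exp (η + τ) - Real.exp (-τ)) *
        (v1 - u1 + 3 * τ) * (v2 - u2 + 3 * τ) / (1 - τ) ^ 2) 0 < c := by
      simp only [sub_zero, neg_zero, Real.exp_zero, mul_zero, add_zero, one_pow, div_one]
      linarith
    have hev : ∀ᶠ τ : ℝ in nhdsWithin 0 (Set.Ioi 0), (fun τ : ℝ => (Real.exp (η + τ) - Real.exp (-τ)) *
        (v1 - u1 + 3 * τ) * (v2 - u2 + 3 * τ) / (1 - τ) ^ 2) τ < c ∧ τ ∈ Set.Ioo (0 : ℝ) 1 :=
      ((hcont.eventually (gt_mem_nhds hlim)).filter_mono nhdsWithin_le_nhds).and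
        (Ioo_mem_nhdsGT one_pos)
    obtain ⟨τ, hcτ, hτ, hτ1⟩ := hev.exists
    simp only at hcτ
    have h6 : 0 < (1 - τ) ^ 2 := by
      have : 0 < 1 - τ := by linarith
      positivity
    rw [div_lt_iff₀ h6] at hcτ
    have hl := b3_lim hθ hY0 (trp_cont 0 η hτ) (trp_cont (u1 - τ) (v1 + τ) hτ)
      (trp_cont (u2 - τ) (v2 + τ) hτ) (fun x hx => by
        refine b3_trp_zero hτ (abs_le.2 ⟨?_, ?_⟩) (abs_le.2 ⟨?_, ?_⟩) hx <;> linarith)
      (fun x hx => hz u1 v1 τ x hτ hτ1 (by linarith) τ (by rw [abs_of_pos hτ]; linarith) hx)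
      (fun x hx => hz u2 v2 τ x hτ hτ1 (by linarith) τ (by rw [abs_of_pos hτ]; linarith) hx) hn
    rw [(trp_int (by linarith) hτ).2, (trp_int (by linarith) hτ).2] at hl
    have hI : (∫ t, trp 0 η τ t * Real.exp t) *
        (v1 + τ - (u1 - τ) + τ) * (v2 + τ - (u2 - τ) + τ) < c * (1 - τ) ^ 2 := by
      refine lt_of_le_of_lt ?_ hcτ
      have e1 : v1 + τ - (u1 - τ) + τ = v1 - u1 + 3 * τ := by ring
      have e2 : v2 + τ - (u2 - τ) + τ = v2 - u2 + 3 * τ := by ring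
      rw [e1, e2]
      refine mul_le_mul_of_nonneg_right (mul_le_mul_of_nonneg_right (b3_chi_up hη0.le hτ) ?_) ?_
      · linarith
      · linarith
    filter_upwards [hl.eventually (gt_mem_nhds hI),
      hjn.eventually (b3_upper θ u1 v1 u2 v2 hη0.le hη1 hτ hτ1)] with j hj1 hj2
    have h5 : (1 - τ) ^ 2 * B j < (1 - τ) ^ 2 * c := by
      rw [hB]
      linarith
    exact lt_of_mul_lt_mul_left h5 h6.le

end HLA
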