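import Pool.Agent.HLA.Mu
import Pool.Agent.SMC.GaussS
import Pool.Agent.ASI.Div

/-!
# HLA.Bs: the Fourier transform of the `Λ` variable of the type II sum is small at large frequencies

PROOF. As `As_sup` in `Pool/Agent/ASI/Sup.lean` (copy: `Sup_exch`, `Sup_int_bound`), with `SMC.gp_gauss` instead of `VKZ.prime_gauss`. `U = w/200`. `hL U x = (4π)^(-1/2) ∫_{v>U} exp(-(x-v)²/4) dv` and
`exp(-(x-v)²/4) exp(-(x-c)²/(2s²)) = exp(-(v-c)²/(2(2+s²))) exp(-(x-m)²/(2 s1²))`, `s1² = 2s²/(2+s²) ≤ 1`, `m = (s² v + 2c)/(2 + s²) ≥ w/400` for `v > U`, `c ≥ w/400`. So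
`cf .. τ = (4π)^(-1/2) ∫_{v>U} exp(-(v-c)²/(2(2+s²))) gp s1 m τ dv` and `|gp s1 m τ| ≤ m^(-A') + 3 exp(-s1² τ²/2) ≤ (w/400)^(-A') + 3 exp(-s1² w²/2)` (`gp_gauss` with `σ = s1`, `K' = 400 |K|`).
`bM_mass`: `coef_sum` (`Mu.lean`) with `0 ≤ hL ≤ 1`.
-/

namespace HLA

open MeasureTheory ArithmeticFunction SMC

private theorem bs_gint (q c : ℝ) (hq : 0 < q) :
    Integrable (fun w : ℝ => Real.exp (-(q * (w - c) ^ 2))) := by
  have h := (integrable_exp_neg_mul_sq hq).comp_sub_right c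
  refine h.congr (Filter.Eventually.of_forall fun w => ?_)
  simp only [neg_mul]

private theorem bs_gval (q c : ℝ) :
    ∫ w : ℝ, Real.exp (-(q * (w - c) ^ 2)) = Real.sqrt (Real.pi / q) := by
  rw [integral_sub_right_eq_self (fun x : ℝ => Real.exp (-(q * x ^ 2))) c]
  have h := integral_gaussian q
  simp only [neg_mul] at h
  exact h

private theorem bs_gint' (c : ℝ) :
    Integrable (fun w : ℝ => Real.exp (-(c - w) ^ 2 / 4)) := by
  refine (bs_gint (1 / 4) c (by norm_num)).congr (Filter.Eventually.of_forall fun w => ?_)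
  show Real.exp (-(1 / 4 * (w - c) ^ 2)) = Real.exp (-(c - w) ^ 2 / 4)
  congr 1
  ring

private theorem bs_gval' (c : ℝ) :
    ∫ w : ℝ, Real.exp (-(c - w) ^ 2 / 4) = Real.sqrt (Real.pi / (1 / 4)) := by
  rw [← bs_gval (1 / 4) c]
  congr 1
  ext w
  congr 1
  ring

private theorem bs_int_bound {f : ℝ → ℂ} {U B q c : ℝ} (hq : 0 < q) (hB : 0 ≤ B)
    (h : ∀ w, U < w → ‖f w‖ ≤ B * Real.exp (-(q * (w - c) ^ 2))) :
    ‖∫ w in Set.Ioi U, f w‖ ≤ B * Real.sqrt (Real.pi / q) := by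
  have h1 : Integrable (fun w : ℝ => B * Real.exp (-(q * (w - c) ^ 2))) :=
    (bs_gint q c hq).const_mul B
  calc ‖∫ w in Set.Ioi U, f w‖ ≤ ∫ w in Set.Ioi U, B * Real.exp (-(q * (w - c) ^ 2)) :=
        norm_integral_le_of_norm_le h1.restrict (ae_restrict_of_forall_mem measurableSet_Ioi h)
    _ ≤ ∫ w, B * Real.exp (-(q * (w - c) ^ 2)) :=
        setIntegral_le_integral h1
          (Filter.Eventually.of_forall fun w => mul_nonneg hB (Real.exp_pos _).le)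
    _ = _ := by rw [integral_const_mul, bs_gval]

private theorem bs_fin (A D κ b : ℝ) (hD : 0 ≤ D) (hκ : 0 < κ) (hb : 0 < b) :
    ∃ L0 : ℝ, 1 ≤ L0 ∧ ∀ L : ℝ, L0 ≤ L →
      D * ((L / b) ^ (-(|A| + 1)) + Real.exp (-(κ * L ^ 2))) ≤ L ^ (-A) := by
  have h1 : Filter.Tendsto (fun L : ℝ => D * b ^ (|A| + 1) * L⁻¹) Filter.atTop
      (nhds (D * b ^ (|A| + 1) * 0)) := tendsto_inv_atTop_zero.const_mul _
  have h2 : Filter.Tendsto (fun L : ℝ => D * (L ^ |A| * Real.exp (-κ * L))) Filter.atTop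
      (nhds (D * 0)) :=
    (tendsto_rpow_mul_exp_neg_mul_atTop_nhds_zero |A| κ hκ).const_mul D
  rw [mul_zero] at h1 h2
  have h3 := (h1.eventually (gt_mem_nhds (show (0 : ℝ) < 1 / 2 by norm_num))).and
    (h2.eventually (gt_mem_nhds (show (0 : ℝ) < 1 / 2 by norm_num)))
  obtain ⟨L1, hL1⟩ := Filter.eventually_atTop.1 h3
  refine ⟨max L1 1, le_max_right _ _, fun L hL => ?_⟩
  obtain ⟨h4, h5⟩ := hL1 L ((le_max_left _ _).trans hL)
  have hL1' : 1 ≤ L := (le_max_right _ _).trans hL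
  have hL0 : 0 < L := by linarith
  have h6 : L ^ (-|A|) ≤ L ^ (-A) :=
    Real.rpow_le_rpow_of_exponent_le hL1' (by linarith [le_abs_self A])
  have h7 : (L / b) ^ (-(|A| + 1)) = b ^ (|A| + 1) * L⁻¹ * L ^ (-|A|) := by
    rw [Real.div_rpow hL0.le hb.le, Real.rpow_neg hb.le, div_inv_eq_mul,
      show -(|A| + 1) = -1 + -|A| by ring, Real.rpow_add hL0, Real.rpow_neg_one]
    ring
  have h8 : Real.exp (-(κ * L ^ 2)) ≤ (L ^ |A| * Real.exp (-κ * L)) * L ^ (-|A|) := by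
    have h9 : L ^ |A| * L ^ (-|A|) = 1 := by
      rw [← Real.rpow_add hL0]
      simp
    calc Real.exp (-(κ * L ^ 2)) ≤ Real.exp (-κ * L) :=
          Real.exp_le_exp.2 (by nlinarith [mul_nonneg (mul_pos hκ hL0).le (sub_nonneg.2 hL1')])
      _ = (L ^ |A| * L ^ (-|A|)) * Real.exp (-κ * L) := by rw [h9, one_mul]
      _ = _ := by ring
  have h10 : 0 < L ^ (-|A|) := Real.rpow_pos_of_pos hL0 _
  calc D * ((L / b) ^ (-(|A| + 1)) + Real.exp (-(κ * L ^ 2)))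
      ≤ D * (b ^ (|A| + 1) * L⁻¹ * L ^ (-|A|) +
          (L ^ |A| * Real.exp (-κ * L)) * L ^ (-|A|)) := by
        rw [h7]
        exact mul_le_mul_of_nonneg_left (by linarith) hD
    _ = (D * b ^ (|A| + 1) * L⁻¹ + D * (L ^ |A| * Real.exp (-κ * L))) * L ^ (-|A|) := by ring
    _ ≤ 1 * L ^ (-|A|) := mul_le_mul_of_nonneg_right (by linarith) h10.le
    _ = L ^ (-|A|) := one_mul _
    _ ≤ _ := h6

private theorem bs_tw_le (n : ℕ) : tw n ≤ (n.divisors.card : ℝ) ^ 2 * (1 + Real.log n) ^ 2 / n :=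
  div_le_div_of_nonneg_right (vm_le n) (Nat.cast_nonneg n)

private theorem bs_co_nonneg (U : ℝ) (n : ℕ) : 0 ≤ tw n * ASI.hL U (Real.log n) :=
  mul_nonneg (tw_nonneg n) (ASI.hL_nonneg _ _)

private theorem bs_co_le (U : ℝ) (n : ℕ) : tw n * ASI.hL U (Real.log n) ≤
    (n.divisors.card : ℝ) ^ 2 * (1 + Real.log n) ^ 2 / n :=
  (mul_le_of_le_one_right (tw_nonneg n) (ASI.hL_le _ _)).trans (bs_tw_le n)

private theorem bs_norm_exp (τ x : ℝ) : ‖Complex.exp (-(τ * x * Complex.I))‖ = 1 := by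
  have : -((τ : ℂ) * x * Complex.I) = ((-(τ * x) : ℝ) : ℂ) * Complex.I := by
    push_cast
    ring
  rw [this, Complex.norm_exp_ofReal_mul_I]

private theorem bs_cpow {n : ℕ} (hn : 0 < n) (τ : ℝ) :
    (n : ℂ) ^ (-(τ * Complex.I)) = Complex.exp (-(τ * Real.log n * Complex.I)) := by
  have h0 : (n : ℂ) ≠ 0 := by exact_mod_cast hn.ne'
  rw [Complex.cpow_def_of_ne_zero h0, Complex.ofReal_log (Nat.cast_nonneg n)]
  congr 1
  push_cast
  ring

/-- the Gaussian product -/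
private theorem bs_gauss {s : ℝ} (hs : 0 < s) (x v c : ℝ) :
    Real.exp (-(x - v) ^ 2 / 4) * WW s c x =
      Real.exp (-(1 / (2 * (2 + s ^ 2)) * (v - c) ^ 2)) *
        Real.exp (-(x - (s ^ 2 * v + 2 * c) / (2 + s ^ 2)) ^ 2 /
          (2 * Real.sqrt (2 * s ^ 2 / (2 + s ^ 2)) ^ 2)) := by
  have hs2 : 0 < s ^ 2 := by positivity
  have h2 : (0 : ℝ) < 2 + s ^ 2 := by positivity
  unfold WW
  rw [← Real.exp_add, ← Real.exp_add, Real.sq_sqrt (by positivity)]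
  congr 1
  field_simp
  ring

private theorem bs_rep {s : ℝ} (hs : 0 < s) (hs1 : s ≤ 1) (U c τ : ℝ) :
    cf (bM U s c) τ = ((1 / Real.sqrt (4 * Real.pi) : ℝ) : ℂ) *
      ∫ v in Set.Ioi U, ((Real.exp (-(1 / (2 * (2 + s ^ 2)) * (v - c) ^ 2)) : ℝ) : ℂ) *
        gp (Real.sqrt (2 * s ^ 2 / (2 + s ^ 2))) ((s ^ 2 * v + 2 * c) / (2 + s ^ 2)) τ := by
  obtain ⟨C, hC, hco⟩ := coef_sum
  obtain ⟨hsum, -⟩ := hco (fun n => tw n * ASI.hL U (Real.log n)) s c hs hs1 (bs_co_nonneg U)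
    (bs_co_le U)
  obtain ⟨hsum1, -⟩ := hco tw s c hs hs1 tw_nonneg bs_tw_le
  obtain ⟨hfin, -⟩ := muS_fin (bs_co_nonneg U) hsum
  have := hfin
  have hint0 : Integrable (fun x : ℝ => Complex.exp (-(τ * x * Complex.I)))
      (muS (fun n => tw n * ASI.hL U (Real.log n)) s c) := by
    refine bdd_intble (B := 1) ?_ (fun x => (bs_norm_exp τ x).le)
    refine Continuous.stronglyMeasurable ?_
    fun_prop
  have e0 : cf (bM U s c) τ = ∑' n : ℕ, (tw n * ASI.hL U (Real.log n) * WW s c (Real.log n)) •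
      Complex.exp (-(τ * Real.log n * Complex.I)) := by
    unfold cf bM
    exact muS_int (bs_co_nonneg U) hsum hint0
  set F : ℕ → ℝ → ℂ := fun n v =>
    (((tw n * WW s c (Real.log n) : ℝ) : ℂ) * Complex.exp (-(τ * Real.log n * Complex.I))) *
    ((Real.exp (-(Real.log n - v) ^ 2 / 4) : ℝ) : ℂ) with hF
  have hFint : ∀ n, Integrable (F n) (volume.restrict (Set.Ioi U)) := by
    intro n
    have h2 : Integrable (fun v : ℝ => ((Real.exp (-(Real.log n - v) ^ 2 / 4) : ℝ) : ℂ)) :=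
      (bs_gint' (Real.log n)).ofReal
    exact (h2.const_mul _).restrict
  have hFnorm : ∀ n v, ‖F n v‖ =
      (tw n * WW s c (Real.log n)) * Real.exp (-(Real.log n - v) ^ 2 / 4) := by
    intro n v
    simp only [hF]
    rw [norm_mul, norm_mul, bs_norm_exp, Complex.norm_real, Complex.norm_real,
      Real.norm_of_nonneg (Real.exp_pos _).le,
      Real.norm_of_nonneg (mul_nonneg (tw_nonneg n) (WW_nonneg _ _ _)), mul_one]
  have hsumF : Summable (fun n => ∫ v in Set.Ioi U, ‖F n v‖) := by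
    refine Summable.of_nonneg_of_le (fun n => integral_nonneg fun w => norm_nonneg _)
      (fun n => ?_) (hsum1.mul_right (Real.sqrt (Real.pi / (1 / 4))))
    simp only [hFnorm]
    rw [integral_const_mul]
    refine mul_le_mul_of_nonneg_left ?_ (mul_nonneg (tw_nonneg n) (WW_nonneg _ _ _))
    rw [← bs_gval' (Real.log n)]
    exact setIntegral_le_integral (bs_gint' _)
      (Filter.Eventually.of_forall fun w => (Real.exp_pos _).le)
  have h2 := (hasSum_integral_of_summable_integral_norm hFint hsumF).tsum_eq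
  have h3 : ∀ n : ℕ, (tw n * ASI.hL U (Real.log n) * WW s c (Real.log n)) •
      Complex.exp (-(τ * Real.log n * Complex.I)) =
      ((1 / Real.sqrt (4 * Real.pi) : ℝ) : ℂ) * ∫ v in Set.Ioi U, F n v := by
    intro n
    simp only [hF]
    rw [integral_const_mul, integral_complex_ofReal, Complex.real_smul]
    unfold ASI.hL
    push_cast
    ring
  have h4 : ∀ v, ∑' n, F n v =
      ((Real.exp (-(1 / (2 * (2 + s ^ 2)) * (v - c) ^ 2)) : ℝ) : ℂ) *
        gp (Real.sqrt (2 * s ^ 2 / (2 + s ^ 2))) ((s ^ 2 * v + 2 * c) / (2 + s ^ 2)) τ := by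
    intro v
    rw [gp_eq, ← tsum_mul_left]
    refine tsum_congr fun n => ?_
    simp only [hF]
    rcases Nat.eq_zero_or_pos n with hn | hn
    · subst hn
      simp [bb, tw]
    · rw [bs_cpow hn]
      have h5 := bs_gauss hs (Real.log n) v c
      have h6 := congrArg (fun x : ℝ => (x : ℂ)) h5
      simp only [Complex.ofReal_mul] at h6
      unfold bb
      simp only [Complex.ofReal_mul]
      linear_combination ((tw n : ℂ) * Complex.exp (-(τ * Real.log n * Complex.I))) * h6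
  rw [e0, tsum_congr h3, tsum_mul_left, h2]
  simp only [h4]

theorem bs {s : ℝ} (K A : ℝ) (hs : 0 < s) (hs1 : s ≤ 1) : ∃ w0 : ℝ, 1 ≤ w0 ∧ ∀ w c τ : ℝ, w0 ≤ w → w / 400 ≤ c →
    w ≤ |τ| → |τ| ≤ Real.exp (K * w) → ‖cf (bM (w / 200) s c) τ‖ ≤ w ^ (-A) := by
  obtain ⟨s1, hs1d⟩ : ∃ s1 : ℝ, s1 = Real.sqrt (2 * s ^ 2 / (2 + s ^ 2)) := ⟨_, rfl⟩
  have hs2 : 0 < s ^ 2 := by positivity
  have hss : s ^ 2 ≤ 1 := pow_le_one₀ hs.le hs1
  have h20 : (0 : ℝ) < 2 + s ^ 2 := by positivity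
  have hs1p : 0 < s1 := by
    rw [hs1d]
    exact Real.sqrt_pos.2 (by positivity)
  have hs1sq : s1 ^ 2 = 2 * s ^ 2 / (2 + s ^ 2) := by
    rw [hs1d]
    exact Real.sq_sqrt (by positivity)
  have hs1le : s1 ≤ 1 := by
    rw [hs1d, Real.sqrt_le_iff]
    refine ⟨by norm_num, ?_⟩
    rw [one_pow, div_le_one h20]
    linarith
  obtain ⟨w1, hw1, hpg⟩ := gp_gauss hs1p hs1le (400 * |K|) (|A| + 1)
  obtain ⟨w2, hw2, hfin⟩ := bs_fin A 15 (s1 ^ 2 / 2) 400 (by norm_num) (by positivity) (by norm_num)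
  refine ⟨max w2 (400 * w1), hw2.trans (le_max_left _ _), fun w c τ hw hc hτ1 hτ2 => ?_⟩
  have hww2 : w2 ≤ w := (le_max_left _ _).trans hw
  have hww1 : 400 * w1 ≤ w := (le_max_right _ _).trans hw
  have hw0 : 1 ≤ w := hw2.trans hww2
  refine le_trans ?_ (hfin w hww2)
  have hpi := Real.pi_gt_three
  have hB1 : 0 ≤ (w / 400) ^ (-(|A| + 1)) := Real.rpow_nonneg (by linarith) _
  have hB2 : 0 < Real.exp (-(s1 ^ 2 / 2 * w ^ 2)) := Real.exp_pos _
  obtain ⟨B, hB⟩ : ∃ B : ℝ, B = (w / 400) ^ (-(|A| + 1)) +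
    3 * Real.exp (-(s1 ^ 2 / 2 * w ^ 2)) := ⟨_, rfl⟩
  have hBnn : 0 ≤ B := by rw [hB]; positivity
  have hq : 0 < 1 / (2 * (2 + s ^ 2)) := by positivity
  have hbd : ∀ v, w / 200 < v →
      ‖((Real.exp (-(1 / (2 * (2 + s ^ 2)) * (v - c) ^ 2)) : ℝ) : ℂ) *
        gp (Real.sqrt (2 * s ^ 2 / (2 + s ^ 2))) ((s ^ 2 * v + 2 * c) / (2 + s ^ 2)) τ‖ ≤
      B * Real.exp (-(1 / (2 * (2 + s ^ 2)) * (v - c) ^ 2)) := by
    intro v hv
    rw [norm_mul, Complex.norm_real, Real.norm_eq_abs, abs_of_pos (Real.exp_pos _), ← hs1d,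
      mul_comm]
    refine mul_le_mul_of_nonneg_right ?_ (Real.exp_pos _).le
    obtain ⟨m, hm⟩ : ∃ m : ℝ, m = (s ^ 2 * v + 2 * c) / (2 + s ^ 2) := ⟨_, rfl⟩
    rw [← hm]
    have hmw : w / 400 ≤ m := by
      rw [hm, le_div_iff₀ h20]
      nlinarith
    have hτm : |τ| ≤ Real.exp (400 * |K| * m) := by
      refine hτ2.trans (Real.exp_le_exp.2 ?_)
      have h1 : K * w ≤ |K| * w := mul_le_mul_of_nonneg_right (le_abs_self K) (by linarith)
      have h2 : |K| * w ≤ |K| * (400 * m) :=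
        mul_le_mul_of_nonneg_left (by linarith) (abs_nonneg K)
      linarith
    have h3 := hpg m τ (by linarith) hτm
    have h4 : ‖gm s1 m τ‖ ≤ 3 * Real.exp (-(s1 ^ 2 / 2 * w ^ 2)) := by
      unfold gm
      rw [norm_mul, bs_norm_exp, mul_one, Complex.norm_real, Real.norm_of_nonneg (by positivity)]
      have h6 : Real.sqrt (2 * Real.pi) ≤ 3 := by
        rw [Real.sqrt_le_iff]
        have := Real.pi_lt_d2
        constructor <;> [norm_num; linarith]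
      have h7 : Real.sqrt (2 * Real.pi) * s1 ≤ 3 :=
        (mul_le_mul h6 hs1le hs1p.le (by norm_num)).trans (by norm_num)
      refine mul_le_mul h7 (Real.exp_le_exp.2 ?_) (Real.exp_pos _).le (by norm_num)
      have h8 : w ^ 2 ≤ τ ^ 2 := by
        rw [← sq_abs τ]
        exact pow_le_pow_left₀ (by linarith) hτ1 2
      have h9 : s1 ^ 2 * w ^ 2 ≤ s1 ^ 2 * τ ^ 2 := mul_le_mul_of_nonneg_left h8 (sq_nonneg s1)
      linarith
    have h8 : m ^ (-(|A| + 1)) ≤ (w / 400) ^ (-(|A| + 1)) :=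
      Real.rpow_le_rpow_of_nonpos (by linarith) hmw (by linarith [abs_nonneg A])
    calc ‖gp s1 m τ‖ = ‖(gp s1 m τ - gm s1 m τ) + gm s1 m τ‖ := by rw [sub_add_cancel]
      _ ≤ ‖gp s1 m τ - gm s1 m τ‖ + ‖gm s1 m τ‖ := norm_add_le _ _
      _ ≤ (w / 400) ^ (-(|A| + 1)) + 3 * Real.exp (-(s1 ^ 2 / 2 * w ^ 2)) :=
          add_le_add (h3.trans h8) h4
      _ = B := hB.symm
  have hint := bs_int_bound hq hBnn hbd
  rw [bs_rep hs hs1, norm_mul, Complex.norm_real, Real.norm_eq_abs,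
    abs_of_nonneg (by positivity : (0 : ℝ) ≤ 1 / Real.sqrt (4 * Real.pi))]
  have h1 : 1 / Real.sqrt (4 * Real.pi) ≤ 1 := by
    rw [div_le_one (Real.sqrt_pos.2 (by linarith))]
    exact Real.one_le_sqrt.2 (by linarith)
  have h2 : Real.sqrt (Real.pi / (1 / (2 * (2 + s ^ 2)))) ≤ 5 := by
    rw [Real.sqrt_le_iff]
    constructor
    · norm_num
    · have := Real.pi_lt_d2
      rw [div_le_iff₀ hq, mul_one_div, le_div_iff₀ (by positivity)]
      nlinarith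
  calc _ ≤ 1 * (B * 5) := by
        refine mul_le_mul h1 (hint.trans (mul_le_mul_of_nonneg_left h2 hBnn)) (norm_nonneg _)
          (by norm_num)
    _ ≤ _ := by
        rw [hB]
        linarith

theorem bM_mass : ∃ C : ℝ, 1 ≤ C ∧ ∀ U s t : ℝ, 0 < s → s ≤ 1 → IsFiniteMeasure (bM U s t) ∧
    (bM U s t Set.univ).toReal ≤ C * (1 + |t|) ^ 6 := by
  obtain ⟨C, hC, hco⟩ := coef_sum
  refine ⟨C, hC, fun U s t hs hs1 => ?_⟩
  obtain ⟨hsum, hle⟩ := hco (fun n => tw n * ASI.hL U (Real.log n)) s t hs hs1 (bs_co_nonneg U)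
    (bs_co_le U)
  obtain ⟨h1, h2⟩ := muS_fin (bs_co_nonneg U) hsum
  refine ⟨h1, ?_⟩
  unfold bM
  rw [h2]
  exact hle

end HLA
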