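import Pool.Agent.HLA.Gsm

/-!
# HLA.De: smoothing of bounded continuous functions

PROOF. `De η D x = ∫ ga s · D(x + η s) ds`, `ga` is a probability density (`Real.sqrt (2π)` normalisation, `integral_gaussian`). `de_bd`, `de_cont`: dominated convergence.
`de_dd`: `dd_shift` under the integral. `de_int`: Fubini on `μ ⊗ volume` (bounded integrand, `μ` finite), then for fixed `x` substitute `z = x + η s`:
`∫ (∫ ga(s) D(x+ηs) ds) dμ(x) = ∫ D(z) (1/(η√(2π))) (∫ exp(-(z-x)²/(2η²)) dμ(x)) dz`.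
-/

namespace HLA

open MeasureTheory ArithmeticFunction SMC

private theorem ga_nn (s : ℝ) : 0 ≤ ga s := by
  unfold ga
  exact div_nonneg (Real.exp_pos _).le (Real.sqrt_nonneg _)

private theorem ga_ct : Continuous ga := by
  unfold ga
  fun_prop

private theorem ga_eq : ga = fun s => Real.exp (-(1 / 2 : ℝ) * s ^ 2) / Real.sqrt (2 * Real.pi) := by
  funext s
  unfold ga
  congr 2
  ring

private theorem ga_itb : Integrable ga := by
  rw [ga_eq]
  exact (integrable_exp_neg_mul_sq (by norm_num : (0 : ℝ) < 1 / 2)).div_const _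

private theorem ga_one : ∫ s, ga s = 1 := by
  rw [ga_eq, integral_div, integral_gaussian]
  have h : Real.pi / (1 / 2) = 2 * Real.pi := by ring
  rw [h]
  have h2 : 0 < Real.sqrt (2 * Real.pi) := Real.sqrt_pos.mpr (by positivity)
  exact div_self h2.ne'

private theorem abs_exp_int : Integrable (fun s : ℝ => |s| * Real.exp (-(1 / 2 : ℝ) * s ^ 2)) ∧
    ∫ s : ℝ, |s| * Real.exp (-(1 / 2 : ℝ) * s ^ 2) = 2 := by
  have h1 := integrable_mul_exp_neg_mul_sq (by norm_num : (0 : ℝ) < 1 / 2)
  have h2 : (fun s : ℝ => |s| * Real.exp (-(1 / 2 : ℝ) * s ^ 2)) =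
      fun s => |s * Real.exp (-(1 / 2 : ℝ) * s ^ 2)| := by
    funext s
    rw [abs_mul, abs_of_pos (Real.exp_pos _)]
  refine ⟨by rw [h2]; exact h1.abs, ?_⟩
  have h3 : ∫ s : ℝ, |s| * Real.exp (-(1 / 2 : ℝ) * s ^ 2) =
      ∫ s : ℝ, (fun t : ℝ => t * Real.exp (-(1 / 2 : ℝ) * t ^ 2)) |s| := by
    refine integral_congr_ae (Filter.Eventually.of_forall fun s => ?_)
    simp only [sq_abs]
  rw [h3, integral_comp_abs (f := fun t : ℝ => t * Real.exp (-(1 / 2 : ℝ) * t ^ 2))]
  have h4 : ∫ t in Set.Ioi (0 : ℝ), t * Real.exp (-(1 / 2 : ℝ) * t ^ 2) = 1 := by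
    have h5 := integral_mul_cexp_neg_mul_sq (b := ((1 / 2 : ℝ) : ℂ)) (by simp)
    have h6 : ∫ r : ℝ in Set.Ioi 0, (r : ℂ) * Complex.exp (-((1 / 2 : ℝ) : ℂ) * (r : ℂ) ^ 2) =
        ((∫ t in Set.Ioi (0 : ℝ), t * Real.exp (-(1 / 2 : ℝ) * t ^ 2) : ℝ) : ℂ) := by
      rw [← integral_complex_ofReal]
      refine integral_congr_ae (Filter.Eventually.of_forall fun s => ?_)
      simp
    rw [h6] at h5
    have h7 : (2 * (((1 / 2 : ℝ) : ℂ)))⁻¹ = ((1 : ℝ) : ℂ) := by
      push_cast
      norm_num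
    rw [h7] at h5
    exact_mod_cast h5
  rw [h4]
  norm_num

theorem ga_int : Integrable ga ∧ ∫ s, ga s = 1 ∧ Continuous ga ∧ (∀ s, 0 ≤ ga s) ∧
    Integrable (fun s => |s| * ga s) ∧ ∫ s, |s| * ga s ≤ 1 := by
  obtain ⟨h1, h2⟩ := abs_exp_int
  have h3 : (fun s => |s| * ga s) = fun s => |s| * Real.exp (-(1 / 2 : ℝ) * s ^ 2) / Real.sqrt (2 * Real.pi) := by
    funext s
    rw [ga_eq]
    ring
  refine ⟨ga_itb, ga_one, ga_ct, ga_nn, ?_, ?_⟩
  · rw [h3]
    exact h1.div_const _
  · rw [h3, integral_div, h2]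
    have hp : (4 : ℝ) ≤ 2 * Real.pi := by
      have := Real.pi_gt_three
      linarith
    have h4 : (2 : ℝ) ≤ Real.sqrt (2 * Real.pi) := by
      refine Real.le_sqrt_of_sq_le ?_
      norm_num
      linarith
    rw [div_le_one (by linarith)]
    exact h4

private theorem ga_bnd {D : ℝ → ℝ} {B : ℝ} (hB : ∀ x, |D x| ≤ B) (s z : ℝ) : ‖ga s * D z‖ ≤ ga s * B := by
  rw [norm_mul, Real.norm_eq_abs, Real.norm_eq_abs, abs_of_nonneg (ga_nn s)]
  exact mul_le_mul_of_nonneg_left (hB z) (ga_nn s)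

private theorem ga_D_int {D : ℝ → ℝ} {B : ℝ} (hD : Continuous D) (hB : ∀ x, |D x| ≤ B) (η x : ℝ) :
    Integrable (fun s => ga s * D (x + η * s)) := by
  refine (ga_itb.mul_const B).mono' ?_ (Filter.Eventually.of_forall fun s => ga_bnd hB s _)
  exact (ga_ct.mul (hD.comp (by fun_prop))).aestronglyMeasurable

theorem de_bd {D : ℝ → ℝ} {B : ℝ} (hD : Continuous D) (hB : ∀ x, |D x| ≤ B) (η x : ℝ) :
    |De η D x| ≤ B ∧ Integrable (fun s => ga s * D (x + η * s)) := by
  refine ⟨?_, ga_D_int hD hB η x⟩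
  unfold De
  have h := norm_integral_le_of_norm_le (ga_itb.mul_const B)
    (Filter.Eventually.of_forall fun s => ga_bnd hB s (x + η * s))
  rw [integral_mul_const, ga_one, one_mul, Real.norm_eq_abs] at h
  exact h

theorem de_cont {D : ℝ → ℝ} {B : ℝ} (hD : Continuous D) (hB : ∀ x, |D x| ≤ B) (η : ℝ) : Continuous (De η D) := by
  unfold De
  refine continuous_of_dominated (bound := fun s => ga s * B) ?_ ?_ (ga_itb.mul_const B) ?_
  · intro x
    exact (ga_D_int hD hB η x).aestronglyMeasurable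
  · intro x
    exact Filter.Eventually.of_forall fun s => ga_bnd hB s _
  · refine Filter.Eventually.of_forall fun s => ?_
    exact continuous_const.mul (hD.comp (by fun_prop))

theorem de_int {D : ℝ → ℝ} {B η : ℝ} (hD : Continuous D) (hB : ∀ x, |D x| ≤ B) (hη : 0 < η) (μ : Measure ℝ)
    [IsFiniteMeasure μ] : ∫ x, De η D x ∂μ = ∫ z, D z * ((η * Real.sqrt (2 * Real.pi))⁻¹ * gsm η μ z) := by
  set c : ℝ := (η * Real.sqrt (2 * Real.pi))⁻¹ with hc
  have hs : 0 < Real.sqrt (2 * Real.pi) := Real.sqrt_pos.mpr (by positivity)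
  have hc0 : 0 ≤ c := by positivity
  -- substitution
  have h1 : ∀ x : ℝ, De η D x = ∫ z, D z * (c * Real.exp (-(z - x) ^ 2 / (2 * η ^ 2))) := by
    intro x
    have h2 : (fun s : ℝ => ga s * D (x + η * s)) =
        fun s => (fun z : ℝ => ga ((z - x) / η) * D z) (η * s + x) := by
      funext s
      simp only
      have e1 : (η * s + x - x) / η = s := by
        field_simp
        ring
      rw [e1, add_comm x]
    have h3 : De η D x = ∫ s, (fun s => (fun z : ℝ => ga ((z - x) / η) * D z) (s + x)) (η * s) := by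
      unfold De
      rw [h2]
    rw [h3, Measure.integral_comp_mul_left (fun s => (fun z : ℝ => ga ((z - x) / η) * D z) (s + x)) η,
      integral_add_right_eq_self (fun z : ℝ => ga ((z - x) / η) * D z) x,
      abs_of_pos (inv_pos.mpr hη), smul_eq_mul, ← integral_const_mul]
    refine integral_congr_ae (Filter.Eventually.of_forall fun z => ?_)
    simp only
    unfold ga
    have e2 : -((z - x) / η) ^ 2 / 2 = -(z - x) ^ 2 / (2 * η ^ 2) := by
      field_simp
    rw [e2, hc]
    field_simp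
  have hI0 : Integrable (fun q : ℝ × ℝ => Real.exp (-(q.1 - q.2) ^ 2 / (2 * η ^ 2))) (volume.prod μ) := by
    have hg : Continuous fun q : ℝ × ℝ => Real.exp (-(q.1 - q.2) ^ 2 / (2 * η ^ 2)) := by fun_prop
    rw [integrable_prod_iff' hg.aestronglyMeasurable]
    constructor
    · refine Filter.Eventually.of_forall fun x => ?_
      exact (WW_int hη x).1
    · have h1 : (fun x : ℝ => ∫ y : ℝ, ‖Real.exp (-((y, x).1 - (y, x).2) ^ 2 / (2 * η ^ 2))‖) =
          fun _ => Real.sqrt (2 * Real.pi) * η := by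
        funext x
        have h2 : (fun y : ℝ => ‖Real.exp (-((y, x).1 - (y, x).2) ^ 2 / (2 * η ^ 2))‖) = WW η x := by
          funext y
          rw [Real.norm_eq_abs, abs_of_pos (Real.exp_pos _)]
          rfl
        rw [h2]
        exact (WW_int hη x).2
      rw [h1]
      exact integrable_const _
  have hI : Integrable (fun q : ℝ × ℝ => D q.1 * (c * Real.exp (-(q.1 - q.2) ^ 2 / (2 * η ^ 2)))) (volume.prod μ) := by
    refine ((hI0.const_mul c).const_mul B).mono' ?_ (Filter.Eventually.of_forall fun q => ?_)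
    · refine Continuous.aestronglyMeasurable ?_
      fun_prop
    · rw [norm_mul, Real.norm_eq_abs, Real.norm_eq_abs, abs_of_nonneg (mul_nonneg hc0 (Real.exp_pos _).le)]
      exact mul_le_mul_of_nonneg_right (hB _) (mul_nonneg hc0 (Real.exp_pos _).le)
  calc ∫ x, De η D x ∂μ = ∫ x, (∫ z, D z * (c * Real.exp (-(z - x) ^ 2 / (2 * η ^ 2)))) ∂μ := by simp only [h1]
    _ = ∫ z, (∫ x, D z * (c * Real.exp (-(z - x) ^ 2 / (2 * η ^ 2))) ∂μ) := (integral_integral_swap hI).symm
    _ = ∫ z, D z * (c * gsm η μ z) := by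
        refine integral_congr_ae (Filter.Eventually.of_forall fun z => ?_)
        simp only
        unfold gsm
        rw [integral_const_mul, integral_const_mul]

/-- Fubini for a finite measure and the smoothing. -/
theorem de_fub {D : ℝ → ℝ} {B : ℝ} (hD : Continuous D) (hB : ∀ x, |D x| ≤ B) (η v : ℝ) (μ : Measure ℝ)
    [IsFiniteMeasure μ] : ∫ x, De η D (x + v) ∂μ = ∫ s, ga s * ∫ x, D (x + v + η * s) ∂μ := by
  have hI : Integrable (fun q : ℝ × ℝ => ga q.2 * D (q.1 + v + η * q.2)) (μ.prod volume) := by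
    have h1 : Integrable (fun q : ℝ × ℝ => (B : ℝ) * ga q.2) (μ.prod volume) :=
      (integrable_const B).mul_prod ga_itb
    refine h1.mono' ?_ (Filter.Eventually.of_forall fun q => ?_)
    · refine Continuous.aestronglyMeasurable ?_
      have := ga_ct
      fun_prop
    · rw [mul_comm B]
      exact ga_bnd hB q.2 _
  unfold De
  rw [integral_integral_swap hI]
  refine integral_congr_ae (Filter.Eventually.of_forall fun s => ?_)
  simp only
  rw [integral_const_mul]

/-- Fubini for a summable family of points. -/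
theorem de_tsum {ι : Type*} [Countable ι] {D : ℝ → ℝ} {B : ℝ} (hD : Continuous D) (hB : ∀ x, |D x| ≤ B) (η : ℝ) (a x : ι → ℝ)
    (ha : Summable a) : ∑' i, a i * De η D (x i) = ∫ s, ga s * ∑' i, a i * D (x i + η * s) := by
  have hB0 : 0 ≤ B := (abs_nonneg _).trans (hB 0)
  have h1 : ∀ i, Integrable (fun s => a i * (ga s * D (x i + η * s))) := fun i =>
    (ga_D_int hD hB η (x i)).const_mul (a i)
  have h2 : Summable fun i => ∫ s, ‖a i * (ga s * D (x i + η * s))‖ := by
    refine Summable.of_nonneg_of_le (fun i => integral_nonneg fun s => norm_nonneg _) (fun i => ?_) (ha.abs.mul_right B)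
    have h3 : ∫ s, ‖a i * (ga s * D (x i + η * s))‖ ≤ ∫ s, |a i| * (ga s * B) := by
      refine integral_mono (h1 i).norm ((ga_itb.mul_const B).const_mul _) fun s => ?_
      simp only
      rw [norm_mul, Real.norm_eq_abs]
      exact mul_le_mul_of_nonneg_left (ga_bnd hB s _) (abs_nonneg _)
    refine h3.trans (le_of_eq ?_)
    rw [integral_const_mul, integral_mul_const, ga_one, one_mul]
  have h4 := hasSum_integral_of_summable_integral_norm h1 h2
  have h5 : (fun i => ∫ s, a i * (ga s * D (x i + η * s))) = fun i => a i * De η D (x i) := by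
    funext i
    rw [integral_const_mul]
    rfl
  rw [h5] at h4
  rw [h4.tsum_eq]
  refine integral_congr_ae (Filter.Eventually.of_forall fun s => ?_)
  simp only
  rw [← tsum_mul_left]
  refine tsum_congr fun i => ?_
  ring

end HLA
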