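import Pool.Agent.SMC.GMean

/-!
# HLA: Theorem A of bet 302 for Q1 (MP_77cbc6): asymptotics for chains of exact length 1, 2, 3 for almost every single multiplier.
Definitions

THEOREM A. For almost every `α > 1`, with `T q = ⌊α q + β⌋₊`: for EVERY real `β` and `k = 1, 2, 3` the number of `p ≤ X` which start a
`T`-chain of exact length `k` is `~ X/(log X)^k` as `X → ∞`; and there is `c > 0` such that for every `β` for infinitely many `X` at least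
`c X/(log X)^4` of the `p ≤ X` start a `T`-chain of exact length `4` (the latter: folder SMD, with the first moment `t4_lim` from here).

METHOD. Everything in the variable `x = log q`, at the scale `w`, with precision `δ ≍ e^(-w)`. `gsm δ μ` is a Gaussian smoothing of a measure.
ORTHOGONALITY THEOREM (`OT.ot`): for `D x = ∫ K(y) g1(a1 y + b1 x) g2(a2 y + b2 x) dy`, `g_i = gsm δ μ_i`, with `a1, a2, b1, b2, a1 b2 - a2 b1 ≠ 0` and
essentially bounded `K, g1, g2`: `∫ D dmuP = ∫ D dmuL + O(w^(-A))`, `muP` = the primes with weight `Λ(n)/n` times a Gaussian in `log n`, `muL` = its continuous model.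
PROOF of `ot`. Vaughan's identity. Type II sums: Cauchy-Schwarz removes `K` and the coefficients `bt`; the sum over the free integer variable is
replaced by an integral (`Nu`, `Smp`), and then the Fourier transform decouples the two linear forms, so that only
`sup_t |∑ Λ(m) m^(-1-it) ...|` is needed (`Bs`, Vinogradov-Korobov region, folder VKZ). Type I sums: Poisson summation and two applications of the
Cauchy-Schwarz inequality, which remove `K` and `g1`, then `g2`, with `∫ e(N (1-e^h)(1-e^k) e^t) dt` (`Osc`).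
-/

namespace HLA

open MeasureTheory ArithmeticFunction SMC

/-- Gaussian smoothing of a measure at the scale `δ`. -/
noncomputable def gsm (δ : ℝ) (μ : Measure ℝ) (y : ℝ) : ℝ :=
  ∫ x, Real.exp (-(y - x) ^ 2 / (2 * δ ^ 2)) ∂μ

/-- Fourier transform of a measure. -/
noncomputable def cf (μ : Measure ℝ) (t : ℝ) : ℂ := ∫ x, Complex.exp (-(t * x * Complex.I)) ∂μ

/-- Gaussian weight. -/
noncomputable def WW (σ c x : ℝ) : ℝ := Real.exp (-(x - c) ^ 2 / (2 * σ ^ 2))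

/-- The measure with the point masses `a n · WW σ c (log n)` at `log n`. -/
noncomputable def muS (a : ℕ → ℝ) (σ c : ℝ) : Measure ℝ :=
  Measure.sum fun n : ℕ => ENNReal.ofReal (a n * WW σ c (Real.log n)) • Measure.dirac (Real.log n)

/-- The primes. -/
noncomputable def muP (σ c : ℝ) : Measure ℝ := muS tw σ c

/-- The continuous model of the primes. -/
noncomputable def muL (σ c : ℝ) : Measure ℝ := volume.withDensity fun x => ENNReal.ofReal (WW σ c x)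

/-- Admissible measures: finite, smoothing at most `B`, mass at most `B/δ`. -/
def Adm (δ B : ℝ) (μ : Measure ℝ) : Prop :=
  IsFiniteMeasure μ ∧ (∀ y, gsm δ μ y ≤ B) ∧ δ * (μ Set.univ).toReal ≤ B

/-- Admissible kernels. -/
def AdmK (B : ℝ) (K : ℝ → ℝ) : Prop :=
  Measurable K ∧ (∀ y, |K y| ≤ B) ∧ Integrable K ∧ ∫ y, |K y| ≤ B

/-- `D x = ∫ K(y) g1(a1 y + b1 x) g2(a2 y + b2 x) dy`. -/
noncomputable def DD (δ : ℝ) (μ1 μ2 : Measure ℝ) (K : ℝ → ℝ) (a1 b1 a2 b2 x : ℝ) : ℝ :=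
  ∫ y, K y * (gsm δ μ1 (a1 * y + b1 * x) * gsm δ μ2 (a2 * y + b2 * x))

/-- `g1(a1 y + b1 x) g2(a2 y + b2 x)`. -/
noncomputable def gg (δ : ℝ) (μ1 μ2 : Measure ℝ) (a1 b1 a2 b2 y x : ℝ) : ℝ :=
  gsm δ μ1 (a1 * y + b1 * x) * gsm δ μ2 (a2 * y + b2 * x)

/-- The difference of the two convolutions. -/
noncomputable def JJ (δ : ℝ) (μ1 μ2 : Measure ℝ) (a1 b1 a2 b2 : ℝ) (μ μ' : Measure ℝ) (v y : ℝ) : ℝ :=
  (∫ u, gg δ μ1 μ2 a1 b1 a2 b2 y (u + v) ∂μ) - ∫ u, gg δ μ1 μ2 a1 b1 a2 b2 y (u + v) ∂μ'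

/-- `n ↦ (1/n) W(log n) D(log n)`. -/
noncomputable def ph (σ c : ℝ) (D : ℝ → ℝ) (n : ℕ) : ℝ :=
  (n : ℝ)⁻¹ * WW σ c (Real.log n) * D (Real.log n)

/-- Type II sum. -/
noncomputable def S4 (U : ℝ) (φ : ℕ → ℝ) : ℝ :=
  ∑' q : ℕ × ℕ, vonMangoldt q.1 * ASI.hL U (Real.log q.1) * ASI.bt U q.2 * φ (q.1 * q.2)

/-- The other parts in Vaughan's identity: `F`. -/
noncomputable def S1 (U : ℝ) (φ : ℕ → ℝ) : ℝ :=
  ∑' n : ℕ, vonMangoldt n * (1 - ASI.hL U (Real.log n)) * φ n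

/-- `log * G`. -/
noncomputable def S2 (U : ℝ) (φ : ℕ → ℝ) : ℝ :=
  ∑' q : ℕ × ℕ, (moebius q.1 : ℝ) * (1 - ASI.hM U (Real.log q.1)) * Real.log q.2 * φ (q.1 * q.2)

/-- `1 * F * G`. -/
noncomputable def S3 (U : ℝ) (φ : ℕ → ℝ) : ℝ :=
  ∑' q : ℕ × ℕ × ℕ, vonMangoldt q.1 * (1 - ASI.hL U (Real.log q.1)) *
    ((moebius q.2.1 : ℝ) * (1 - ASI.hM U (Real.log q.2.1))) * φ (q.1 * (q.2.1 * q.2.2))

/-- The standard Gaussian density. -/
noncomputable def ga (s : ℝ) : ℝ := Real.exp (-s ^ 2 / 2) / Real.sqrt (2 * Real.pi)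

/-- Smoothing of a function at the scale `η`. -/
noncomputable def De (η : ℝ) (D : ℝ → ℝ) (x : ℝ) : ℝ := ∫ s, ga s * D (x + η * s)

/-- The measure of the variable with `Λ` in the type II sum. -/
noncomputable def bM (U s t : ℝ) : Measure ℝ := muS (fun n => tw n * ASI.hL U (Real.log n)) s t

/-- The type II sum after the separation of the weight. -/
noncomputable def TI (U s c t : ℝ) (D : ℝ → ℝ) : ℝ :=
  ∑' k : ℕ, ASI.bt U k * (k : ℝ)⁻¹ * WW s (c - t) (Real.log k) * ∫ u, D (u + Real.log k) ∂(bM U s t)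

/-- The exponent of the weight of a quadruple. -/
noncomputable def ex4 (σ κ w μ h1 h2 : ℝ) (q : ℕ × ℕ × ℕ × ℕ) : ℝ :=
  ((Real.log q.1 - w) ^ 2 + (Real.log q.2.1 - w - Real.log μ) ^ 2 +
      (Real.log q.2.2.1 - w - 2 * Real.log μ) ^ 2 + (Real.log q.2.2.2 - w - 3 * Real.log μ) ^ 2) / (2 * σ ^ 2) +
    ((Real.exp w * (Real.log q.1 - 2 * Real.log q.2.1 + Real.log q.2.2.1) - h1) ^ 2 +
      (Real.exp w * (2 * Real.log q.1 - 3 * Real.log q.2.1 + Real.log q.2.2.2) - h2) ^ 2 -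
      (2 * (Real.exp w * (Real.log q.1 - 2 * Real.log q.2.1 + Real.log q.2.2.1) - h1) +
        3 * (Real.exp w * (2 * Real.log q.1 - 3 * Real.log q.2.1 + Real.log q.2.2.2) - h2)) ^ 2 / 14) / (2 * κ ^ 2)

/-- The weighted number of the quadruples. -/
noncomputable def T4 (σ κ w μ h1 h2 : ℝ) : ℝ :=
  ∑' q : ℕ × ℕ × ℕ × ℕ, tw q.1 * tw q.2.1 * tw q.2.2.1 * tw q.2.2.2 * Real.exp (-ex4 σ κ w μ h1 h2 q)

/-- A measure in the slot `i`: multiplied by `e^w` and shifted. -/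
noncomputable def up (w h : ℝ) (μ : Measure ℝ) : Measure ℝ :=
  (ENNReal.ofReal (Real.exp w) • μ).map (fun x => x + h)

/-- `∫ g1(x+θ) g2(x+2θ) dμ0(x)`. -/
noncomputable def TT (δ : ℝ) (μ0 μ1 μ2 : Measure ℝ) (θ : ℝ) : ℝ :=
  ∫ x, gsm δ μ1 (x + θ) * gsm δ μ2 (x + 2 * θ) ∂μ0

/-- `∫∫ g1(x+θ) g2(x+2θ) g3(x+3θ) dμ0(x) dθ`. -/
noncomputable def TF (δ : ℝ) (μ0 μ1 μ2 μ3 : Measure ℝ) : ℝ :=
  ∫ θ, ∫ x, gsm δ μ1 (x + θ) * gsm δ μ2 (x + 2 * θ) * gsm δ μ3 (x + 3 * θ) ∂μ0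

/-- Gaussian test functions. -/
noncomputable def gt (σ κ c h1 h2 : ℝ) (x : ℝ × ℝ × ℝ) : ℝ := WW σ c x.1 * (WW κ h1 x.2.1 * WW κ h2 x.2.2)

/-- Weighted number of the prime triples at the scale `w` for the multiplier `e^θ`. -/
noncomputable def P3 (σ κ w θ c h1 h2 : ℝ) : ℝ :=
  ∑' q : ℕ × ℕ × ℕ, tw q.1 * tw q.2.1 * tw q.2.2 * Real.exp (2 * w) *
    (WW σ (w + c) (Real.log q.1) * WW 1 w (Real.log q.2.1) * WW 1 w (Real.log q.2.2)) *
    (WW κ h1 (Real.exp w * (Real.log q.1 + θ - Real.log q.2.1)) *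
      WW κ h2 (Real.exp w * (Real.log q.1 + 2 * θ - Real.log q.2.2)))

/-- The same for pairs. -/
noncomputable def P2 (σ κ w θ c h1 : ℝ) : ℝ :=
  ∑' q : ℕ × ℕ, tw q.1 * tw q.2 * Real.exp w *
    (WW σ (w + c) (Real.log q.1) * WW 1 w (Real.log q.2) * WW 1 w (Real.log q.1 + 2 * θ)) *
    WW κ h1 (Real.exp w * (Real.log q.1 + θ - Real.log q.2))

/-- The limit of both (without the powers of `√(2π) κ`). -/
noncomputable def lim3 (σ θ c : ℝ) : ℝ := ∫ t, WW σ c t * WW 1 0 (t + θ) * WW 1 0 (t + 2 * θ)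

/-- Weighted sum of a test function over the triples. -/
noncomputable def V3 (w θ : ℝ) (f : ℝ × ℝ × ℝ → ℝ) : ℝ :=
  ∑' q : ℕ × ℕ × ℕ, tw q.1 * tw q.2.1 * tw q.2.2 * Real.exp (2 * w) *
    (WW 1 w (Real.log q.2.1) * WW 1 w (Real.log q.2.2)) *
    f (Real.log q.1 - w, Real.exp w * (Real.log q.1 + θ - Real.log q.2.1),
      Real.exp w * (Real.log q.1 + 2 * θ - Real.log q.2.2))

/-- The same for pairs. -/
noncomputable def V2 (w θ : ℝ) (f : ℝ × ℝ → ℝ) : ℝ :=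
  ∑' q : ℕ × ℕ, tw q.1 * tw q.2 * Real.exp w * WW 1 w (Real.log q.2) *
    f (Real.log q.1 - w, Real.exp w * (Real.log q.1 + θ - Real.log q.2))

/-- Trapezoid: `1` on `[a, b]`, `0` outside of `(a - τ, b + τ)`. -/
noncomputable def trp (a b τ x : ℝ) : ℝ := max 0 (min 1 (min ((x - a) / τ + 1) ((b - x) / τ + 1)))

/-- The property of `θ` which holds almost everywhere. -/
def Good (θ : ℝ) : Prop := ∀ n : ℕ, 1 ≤ n → ∀ σ κ c h1 h2 : ℚ, 0 < σ → σ ≤ 1 → 0 < κ → κ ≤ 1 →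
  Filter.Tendsto (fun j : ℕ => P3 σ κ ((j : ℝ) / n) θ c h1 h2) Filter.atTop
    (nhds (2 * Real.pi * (κ : ℝ) ^ 2 * lim3 σ θ c)) ∧
  Filter.Tendsto (fun j : ℕ => P2 σ κ ((j : ℝ) / n) θ c h1) Filter.atTop
    (nhds (Real.sqrt (2 * Real.pi) * κ * lim3 σ θ c))

/-- The triples of primes `(q0, q1, q2)` with `q0 < X`, `α q0 - q1 ∈ [u1, v1]`, `α q1 - q2 ∈ [u2, v2]`. -/
noncomputable def Tr3 (α u1 v1 u2 v2 X : ℝ) : ℕ :=
  Set.ncard {q : ℕ × ℕ × ℕ | q.1.Prime ∧ q.2.1.Prime ∧ q.2.2.Prime ∧ (q.1 : ℝ) < X ∧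
    u1 ≤ α * q.1 - q.2.1 ∧ α * q.1 - q.2.1 ≤ v1 ∧ u2 ≤ α * q.2.1 - q.2.2 ∧ α * q.2.1 - q.2.2 ≤ v2}

/-- The pairs of primes `(q0, q1)` with `q0 < X`, `α q0 - q1 ∈ [u, v]`. -/
noncomputable def Tr2 (α u v X : ℝ) : ℕ :=
  Set.ncard {q : ℕ × ℕ | q.1.Prime ∧ q.2.Prime ∧ (q.1 : ℝ) < X ∧ u ≤ α * q.1 - q.2 ∧ α * q.1 - q.2 ≤ v}

open Classical in
/-- The number of the `p ≤ X` for which `p, T p, ..., T^(k-1) p` are primes. -/
noncomputable def MM (α β : ℝ) (k : ℕ) (X : ℝ) : ℕ :=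
  ((Finset.Icc 1 ⌊X⌋₊).filter fun p : ℕ => ∀ i < k, ((T α β)^[i] p).Prime).card

end HLA
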