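import Pool.Agent.HLA.Slot

/-!
# HLA.E3: the number of prime triples for almost every multiplier, in mean

PROOF. `δ = κ e^(-w)`, `μ1 = up w (h1 e^(-w)) (..)`, `μ2 = up w (h2 e^(-w)) (..)`, `G_i = gsm δ μi`, all admissible with the bound `w^E` (`adm_P`, `adm_L`, `adm_mono`) for a suitable `E`.
`TT` is continuous in `θ` (dominated convergence), so with `K θ = sgn(difference at θ)` for `θ ∈ [a, b]`, `K θ = 0` otherwise (`|K| ≤ 1`, measurable, `∫ |K| ≤ |b - a|`; `AdmK (w^E) K`) the left side is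
`∫ K(θ) (TT(P,P,·)(θ) - TT(L,L,·)(θ)) dθ`. Replace the measures one after the other (Fubini in each step, everything is bounded by `|K(θ)| B²` times a finite measure):
(0) `∫ K(θ) TT δ μ0 μ1 μ2 θ dθ = ∫ DD δ μ1 μ2 K 1 1 2 1 dμ0`: `ot` with `(a1, b1, a2, b2) = (1, 1, 2, 1)`, `a1 b2 - a2 b1 = -1`, replaces `μ0 = muP σ (w+c)` by `muL σ (w+c)`.
(1) now `∫ K(θ) TT δ (muL σ (w+c)) μ1 μ2 θ dθ = ∫∫ K(θ) W(x) G1(x+θ) G2(x+2θ) dx dθ`, `W = WW σ (w+c) = gsm δ μW` (`adm_W`), substitute `x → x - θ` (for fixed `θ`):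
`= ∫∫ K(θ) W(x-θ) G2(x+θ) G1(x) dθ dx = ∫ DD δ μW μ2 K (-1) 1 1 1 x · G1(x) dx`: `slot` (`-1·1 - 1·1 = -2`) replaces `muP 1 w` in `μ1` by `muL 1 w`.
(2) `x → x - 2θ`: `∫∫ K(θ) W(x-2θ) G1(x-θ) G2(x) = ∫ DD δ μW μ1 K (-2) 1 (-1) 1 x · G2(x) dx`: `slot` (`-2·1 - (-1)·1 = -1`) replaces `muP 1 w` in `μ2` by `muL 1 w`.
`e2` is the same without step (2).
-/

namespace HLA

open MeasureTheory ArithmeticFunction SMC

private theorem E3_B0 {δ B : ℝ} {μ : Measure ℝ} (h : Adm δ B μ) : 0 ≤ B := (gsm_nonneg δ μ 0).trans (h.2.1 0)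

private theorem E3_gb {δ B : ℝ} {μ1 μ2 : Measure ℝ} (h1 : Adm δ B μ1) (h2 : Adm δ B μ2) (u v : ℝ) :
    ‖gsm δ μ1 u * gsm δ μ2 v‖ ≤ B * B := by
  rw [Real.norm_eq_abs, abs_of_nonneg (mul_nonneg (gsm_nonneg _ _ _) (gsm_nonneg _ _ _))]
  exact mul_le_mul (h1.2.1 _) (h2.2.1 _) (gsm_nonneg _ _ _) (E3_B0 h1)

theorem tt_cont {δ B : ℝ} (hδ : 0 < δ) {μ0 μ1 μ2 : Measure ℝ} [IsFiniteMeasure μ0] (h1 : Adm δ B μ1) (h2 : Adm δ B μ2) :
    Continuous (TT δ μ0 μ1 μ2) := by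
  have i1 := h1.1
  have i2 := h2.1
  have c1 := gsm_cont δ μ1
  have c2 := gsm_cont δ μ2
  unfold TT
  refine continuous_of_dominated (bound := fun _ => B * B) ?_ ?_ (integrable_const _) ?_
  · intro θ
    exact (Continuous.aestronglyMeasurable (by fun_prop))
  · intro θ
    exact Filter.Eventually.of_forall fun x => E3_gb h1 h2 _ _
  · refine Filter.Eventually.of_forall fun x => ?_
    fun_prop

/-- Fubini for the outer measure. -/
private theorem E3_K {δ B : ℝ} {μ0 μ1 μ2 : Measure ℝ} [IsFiniteMeasure μ0] {K : ℝ → ℝ} (hK : Integrable K)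
    (h1 : Adm δ B μ1) (h2 : Adm δ B μ2) :
    ∫ θ, K θ * TT δ μ0 μ1 μ2 θ = ∫ x, DD δ μ1 μ2 K 1 1 2 1 x ∂μ0 := by
  have i1 := h1.1
  have i2 := h2.1
  have c1 := gsm_cont δ μ1
  have c2 := gsm_cont δ μ2
  have hI : Integrable (Function.uncurry fun θ x : ℝ => K θ * (gsm δ μ1 (x + θ) * gsm δ μ2 (x + 2 * θ)))
      (volume.prod μ0) := by
    have h3 : Integrable (fun q : ℝ × ℝ => K q.1 * (1 : ℝ)) (volume.prod μ0) := hK.mul_prod (integrable_const (1 : ℝ))
    have h4 := h3.mul_bdd (g := fun q : ℝ × ℝ => gsm δ μ1 (q.2 + q.1) * gsm δ μ2 (q.2 + 2 * q.1)) (c := B * B)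
      (Continuous.aestronglyMeasurable (by fun_prop)) (Filter.Eventually.of_forall fun q => E3_gb h1 h2 _ _)
    refine h4.congr (Filter.Eventually.of_forall fun q => ?_)
    simp only [Function.uncurry, mul_one]
  have e1 : ∫ θ, K θ * TT δ μ0 μ1 μ2 θ =
      ∫ θ, ∫ x, K θ * (gsm δ μ1 (x + θ) * gsm δ μ2 (x + 2 * θ)) ∂μ0 := by
    refine integral_congr_ae (Filter.Eventually.of_forall fun θ => ?_)
    simp only [TT]
    rw [integral_const_mul]
  rw [e1, integral_integral_swap hI]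
  refine integral_congr_ae (Filter.Eventually.of_forall fun x => ?_)
  simp only [DD]
  refine integral_congr_ae (Filter.Eventually.of_forall fun θ => ?_)
  simp only
  have e2 : 1 * θ + 1 * x = x + θ := by ring
  have e3 : 2 * θ + 1 * x = x + 2 * θ := by ring
  rw [e2, e3]

/-- Fubini with an integrable function. -/
private theorem E3_sw {M : ℝ} {K G : ℝ → ℝ} {H : ℝ × ℝ → ℝ} (hK : Integrable K) (hG : Integrable G)
    (hH : Continuous H) (hM : ∀ q, ‖H q‖ ≤ M) :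
    ∫ θ, K θ * ∫ x, H (θ, x) * G x = ∫ x, (∫ θ, K θ * H (θ, x)) * G x := by
  have hI : Integrable (Function.uncurry fun θ x : ℝ => K θ * (H (θ, x) * G x)) (volume.prod volume) := by
    have h3 : Integrable (fun q : ℝ × ℝ => K q.1 * G q.2) (volume.prod volume) := hK.mul_prod hG
    have h4 := h3.mul_bdd (g := H) (c := M) hH.aestronglyMeasurable (Filter.Eventually.of_forall hM)
    refine h4.congr (Filter.Eventually.of_forall fun q => ?_)
    simp only [Function.uncurry]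
    ring
  have e1 : ∫ θ, K θ * ∫ x, H (θ, x) * G x = ∫ θ, ∫ x, K θ * (H (θ, x) * G x) := by
    refine integral_congr_ae (Filter.Eventually.of_forall fun θ => ?_)
    simp only
    rw [integral_const_mul]
  rw [e1, integral_integral_swap hI]
  refine integral_congr_ae (Filter.Eventually.of_forall fun x => ?_)
  simp only
  rw [← integral_mul_const]
  refine integral_congr_ae (Filter.Eventually.of_forall fun θ => ?_)
  simp only
  ring

private theorem E3_A {δ B : ℝ} (hδ : 0 < δ) {μW μ1 μ2 : Measure ℝ} {K : ℝ → ℝ} (hK : Integrable K)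
    (hW : Adm δ B μW) (h1 : Adm δ B μ1) (h2 : Adm δ B μ2) :
    ∫ θ, K θ * (∫ x, gsm δ μW x * (gsm δ μ1 (x + θ) * gsm δ μ2 (x + 2 * θ))) =
      ∫ x, DD δ μW μ2 K (-1) 1 1 1 x * gsm δ μ1 x := by
  have iW := hW.1
  have i1 := h1.1
  have i2 := h2.1
  have cW := gsm_cont δ μW
  have c1 := gsm_cont δ μ1
  have c2 := gsm_cont δ μ2
  have e1 : ∀ θ : ℝ, (∫ x, gsm δ μW x * (gsm δ μ1 (x + θ) * gsm δ μ2 (x + 2 * θ))) =
      ∫ x, (gsm δ μW (x - θ) * gsm δ μ2 (x + θ)) * gsm δ μ1 x := by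
    intro θ
    rw [← integral_sub_right_eq_self _ θ]
    refine integral_congr_ae (Filter.Eventually.of_forall fun x => ?_)
    simp only
    have e2 : x - θ + θ = x := by ring
    have e3 : x - θ + 2 * θ = x + θ := by ring
    rw [e2, e3]
    ring
  simp only [e1]
  have h5 := E3_sw (H := fun q : ℝ × ℝ => gsm δ μW (q.2 - q.1) * gsm δ μ2 (q.2 + q.1)) (M := B * B) hK (adm_int hδ h1).1
    (by fun_prop) (fun q => E3_gb hW h2 _ _)
  simp only at h5
  rw [h5]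
  refine integral_congr_ae (Filter.Eventually.of_forall fun x => ?_)
  simp only [DD]
  congr 1
  refine integral_congr_ae (Filter.Eventually.of_forall fun θ => ?_)
  simp only
  have e2 : -1 * θ + 1 * x = x - θ := by ring
  have e3 : 1 * θ + 1 * x = x + θ := by ring
  rw [e2, e3]

private theorem E3_Bb {δ B : ℝ} (hδ : 0 < δ) {μW μ1 μ2 : Measure ℝ} {K : ℝ → ℝ} (hK : Integrable K)
    (hW : Adm δ B μW) (h1 : Adm δ B μ1) (h2 : Adm δ B μ2) :
    ∫ θ, K θ * (∫ x, gsm δ μW x * (gsm δ μ1 (x + θ) * gsm δ μ2 (x + 2 * θ))) =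
      ∫ x, DD δ μW μ1 K (-2) 1 (-1) 1 x * gsm δ μ2 x := by
  have iW := hW.1
  have i1 := h1.1
  have i2 := h2.1
  have cW := gsm_cont δ μW
  have c1 := gsm_cont δ μ1
  have c2 := gsm_cont δ μ2
  have e1 : ∀ θ : ℝ, (∫ x, gsm δ μW x * (gsm δ μ1 (x + θ) * gsm δ μ2 (x + 2 * θ))) =
      ∫ x, (gsm δ μW (x - 2 * θ) * gsm δ μ1 (x - θ)) * gsm δ μ2 x := by
    intro θ
    rw [← integral_sub_right_eq_self _ (2 * θ)]
    refine integral_congr_ae (Filter.Eventually.of_forall fun x => ?_)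
    simp only
    have e2 : x - 2 * θ + θ = x - θ := by ring
    have e3 : x - 2 * θ + 2 * θ = x := by ring
    rw [e2, e3]
    ring
  simp only [e1]
  have h5 := E3_sw (H := fun q : ℝ × ℝ => gsm δ μW (q.2 - 2 * q.1) * gsm δ μ1 (q.2 - q.1)) (M := B * B) hK (adm_int hδ h2).1
    (by fun_prop) (fun q => E3_gb hW h1 _ _)
  simp only at h5
  rw [h5]
  refine integral_congr_ae (Filter.Eventually.of_forall fun x => ?_)
  simp only [DD]
  congr 1
  refine integral_congr_ae (Filter.Eventually.of_forall fun θ => ?_)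
  simp only
  have e2 : -2 * θ + 1 * x = x - 2 * θ := by ring
  have e3 : -1 * θ + 1 * x = x - θ := by ring
  rw [e2, e3]

/-- The continuous outer measure. -/
private theorem E3_L {δ σ c : ℝ} {μW μ1 μ2 : Measure ℝ} (hW : ∀ x, gsm δ μW x = WW σ c x) (K : ℝ → ℝ) :
    ∫ θ, K θ * TT δ (muL σ c) μ1 μ2 θ =
      ∫ θ, K θ * (∫ x, gsm δ μW x * (gsm δ μ1 (x + θ) * gsm δ μ2 (x + 2 * θ))) := by
  refine integral_congr_ae (Filter.Eventually.of_forall fun θ => ?_)
  simp only [TT]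
  rw [muL_int]
  simp only [hW, smul_eq_mul]

/-- All kernels: the first two replacements and the last one. -/
private theorem E3_main {σ κ : ℝ} (c a b A : ℝ) (hσ : 0 < σ) (hσ1 : σ ≤ 1) (hκ : 0 < κ) :
    ∃ E w0 : ℝ, 1 ≤ w0 ∧ ∀ w : ℝ, w0 ≤ w →
      (∀ h : ℝ, Adm (κ * Real.exp (-w)) (w ^ E) (up w h (muP 1 w)) ∧ Adm (κ * Real.exp (-w)) (w ^ E) (up w h (muL 1 w))) ∧
      ∀ K : ℝ → ℝ, Measurable K → (∀ y, |K y| ≤ 1) → Integrable K → ∫ y, |K y| ≤ |b - a| →
      (∀ (h : ℝ) (μ2 : Measure ℝ), Adm (κ * Real.exp (-w)) (w ^ E) μ2 →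
        |(∫ θ, K θ * TT (κ * Real.exp (-w)) (muP σ (w + c)) (up w h (muP 1 w)) μ2 θ) -
          ∫ θ, K θ * TT (κ * Real.exp (-w)) (muL σ (w + c)) (up w h (muL 1 w)) μ2 θ| ≤ 2 * w ^ (-A)) ∧
      (∀ (h : ℝ) (μ1 : Measure ℝ), Adm (κ * Real.exp (-w)) (w ^ E) μ1 →
        |(∫ θ, K θ * TT (κ * Real.exp (-w)) (muL σ (w + c)) μ1 (up w h (muP 1 w)) θ) -
          ∫ θ, K θ * TT (κ * Real.exp (-w)) (muL σ (w + c)) μ1 (up w h (muL 1 w)) θ| ≤ w ^ (-A)) := by
  set E0 : ℝ := max |c| |Real.log κ| with hE0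
  obtain ⟨E', u1, hu1, hP⟩ := adm_P E0 one_pos (le_refl (1 : ℝ))
  obtain ⟨u2, hu2, hL⟩ := adm_L E0 one_pos (le_refl (1 : ℝ))
  set E : ℝ := max (max E0 E') 1 with hE
  have hE00 : 0 ≤ E0 := (abs_nonneg c).trans (le_max_left _ _)
  have hEE0 : E0 ≤ E := (le_max_left _ _).trans (le_max_left _ _)
  have hEE' : E' ≤ E := (le_max_right _ _).trans (le_max_left _ _)
  have hE1 : 1 ≤ E := le_max_right _ _
  obtain ⟨u3, hu3, hot⟩ := ot (σ := σ) (a1 := 1) (b1 := 1) (a2 := 2) (b2 := 1) E A hσ hσ1 (by norm_num) (by norm_num)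
    (by norm_num)
  obtain ⟨u4, hu4, hs1⟩ := slot (σ := 1) (a1 := -1) (b1 := 1) (a2 := 1) (b2 := 1) E A one_pos le_rfl (by norm_num)
    (by norm_num) (by norm_num)
  obtain ⟨u5, hu5, hs2⟩ := slot (σ := 1) (a1 := -2) (b1 := 1) (a2 := -1) (b2 := 1) E A one_pos le_rfl (by norm_num)
    (by norm_num) (by norm_num)
  refine ⟨E, max (max (max u1 u2) (max u3 u4)) (max (max u5 |b - a|) (max 1 (κ * (2 / σ)))), ?_, ?_⟩
  · exact (le_max_left _ _).trans ((le_max_right _ _).trans (le_max_right _ _))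
  intro w hw
  have hw1 : u1 ≤ w := ((le_max_left _ _).trans ((le_max_left _ _).trans (le_max_left _ _))).trans hw
  have hw2 : u2 ≤ w := ((le_max_right _ _).trans ((le_max_left _ _).trans (le_max_left _ _))).trans hw
  have hw3 : u3 ≤ w := ((le_max_left _ _).trans ((le_max_right _ _).trans (le_max_left _ _))).trans hw
  have hw4 : u4 ≤ w := ((le_max_right _ _).trans ((le_max_right _ _).trans (le_max_left _ _))).trans hw
  have hw5 : u5 ≤ w := ((le_max_left _ _).trans ((le_max_left _ _).trans (le_max_right _ _))).trans hw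
  have hw6 : |b - a| ≤ w := ((le_max_right _ _).trans ((le_max_left _ _).trans (le_max_right _ _))).trans hw
  have hw7 : 1 ≤ w := ((le_max_left _ _).trans ((le_max_right _ _).trans (le_max_right _ _))).trans hw
  have hw8 : κ * (2 / σ) ≤ w := ((le_max_right _ _).trans ((le_max_right _ _).trans (le_max_right _ _))).trans hw
  have hw0 : 0 < w := by linarith
  set δ : ℝ := κ * Real.exp (-w) with hδ
  have hδ0 : 0 < δ := mul_pos hκ (Real.exp_pos _)
  have hκe : κ = Real.exp (Real.log κ) := (Real.exp_log hκ).symm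
  have hδe : δ = Real.exp (-w + Real.log κ) := by
    rw [hδ, Real.exp_add, Real.exp_log hκ, mul_comm]
  have hlk : |Real.log κ| ≤ E0 := le_max_right _ _
  have hd1 : Real.exp (-w - E0) ≤ δ := by
    rw [hδe, Real.exp_le_exp]
    have := (abs_le.mp hlk).1
    linarith
  have hd2 : δ ≤ Real.exp (-w + E0) := by
    rw [hδe, Real.exp_le_exp]
    have := (abs_le.mp hlk).2
    linarith
  have hd3 : Real.exp (-w - E) ≤ δ := le_trans (Real.exp_le_exp.mpr (by linarith)) hd1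
  have hd4 : δ ≤ Real.exp (-w + E) := hd2.trans (Real.exp_le_exp.mpr (by linarith))
  have hwE : w ≤ w ^ E := by
    calc w = w ^ (1 : ℝ) := (Real.rpow_one w).symm
      _ ≤ w ^ E := Real.rpow_le_rpow_of_exponent_le hw7 hE1
  have h1E : 1 ≤ w ^ E := hw7.trans hwE
  have hδσ : δ ≤ σ / 2 := by
    have h1 : w * Real.exp (-w) ≤ 1 := by
      have := Real.add_one_le_exp w
      rw [Real.exp_neg]
      rw [← div_eq_mul_inv, div_le_one (Real.exp_pos _)]
      linarith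
    have h2 : κ * (2 / σ) * Real.exp (-w) ≤ 1 := by
      refine le_trans ?_ h1
      exact mul_le_mul_of_nonneg_right hw8 (Real.exp_pos _).le
    have h3 : δ * (2 / σ) ≤ 1 := by
      rw [hδ]
      calc κ * Real.exp (-w) * (2 / σ) = κ * (2 / σ) * Real.exp (-w) := by ring
        _ ≤ 1 := h2
    have h4 : δ = (δ * (2 / σ)) * (σ / 2) := by
      field_simp
    rw [h4]
    calc (δ * (2 / σ)) * (σ / 2) ≤ 1 * (σ / 2) := mul_le_mul_of_nonneg_right h3 (by positivity)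
      _ = σ / 2 := one_mul _
  have hww : |w - w| ≤ E := by
    rw [sub_self, abs_zero]
    linarith
  have hadm : ∀ h : ℝ, Adm δ (w ^ E) (up w h (muP 1 w)) ∧ Adm δ (w ^ E) (up w h (muL 1 w)) := by
    intro h
    constructor
    · refine adm_mono (hP w w δ h hw1 ?_ hd1 hd2) (Real.rpow_le_rpow_of_exponent_le hw7 hEE')
      rw [sub_self, abs_zero]
      exact hE00
    · exact adm_mono (hL w w δ h hw2 hd1 hd2) hwE
  refine ⟨hadm, ?_⟩
  intro K hKm hK1 hKi hKn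
  have hAK : AdmK (w ^ E) K := ⟨hKm, fun y => (hK1 y).trans h1E, hKi, hKn.trans (hw6.trans hwE)⟩
  have hcc : |w + c - w| ≤ E := by
    have e1 : w + c - w = c := by ring
    rw [e1]
    exact (le_max_left _ _).trans hEE0
  obtain ⟨μW, hμW, hWW⟩ := adm_W hσ hσ1 hδ0 hδσ (w + c)
  have hμW' : Adm δ (w ^ E) μW := adm_mono hμW h1E
  have hfP : IsFiniteMeasure (muP σ (w + c)) := by
    obtain ⟨C, -, hC⟩ := muP_mass
    exact (hC σ (w + c) hσ hσ1).1
  have hfL : IsFiniteMeasure (muL σ (w + c)) := (muL_fin hσ (w + c)).1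
  constructor
  · intro h μ2 hμ2
    obtain ⟨hA1, hA2⟩ := hadm h
    have s1 := hot w (w + c) δ hw3 hcc hd3 hd4 (up w h (muP 1 w)) μ2 K hA1 hμ2 hAK
    rw [← E3_K hKi hA1 hμ2, ← E3_K hKi hA1 hμ2] at s1
    have s2 := hs1 w w δ h hw4 hww hd3 hd4 μW μ2 K hμW' hμ2 hAK
    rw [← E3_A hδ0 hKi hμW' hA1 hμ2, ← E3_A hδ0 hKi hμW' hA2 hμ2, ← E3_L hWW, ← E3_L hWW] at s2
    have s3 := abs_sub_le (∫ θ, K θ * TT δ (muP σ (w + c)) (up w h (muP 1 w)) μ2 θ)
      (∫ θ, K θ * TT δ (muL σ (w + c)) (up w h (muP 1 w)) μ2 θ)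
      (∫ θ, K θ * TT δ (muL σ (w + c)) (up w h (muL 1 w)) μ2 θ)
    linarith
  · intro h μ1 hμ1
    obtain ⟨hA1, hA2⟩ := hadm h
    have s2 := hs2 w w δ h hw5 hww hd3 hd4 μW μ1 K hμW' hμ1 hAK
    rw [← E3_Bb hδ0 hKi hμW' hμ1 hA1, ← E3_Bb hδ0 hKi hμW' hμ1 hA2, ← E3_L hWW, ← E3_L hWW] at s2
    exact s2

/-- The sign as a kernel. -/
private theorem E3_sgn {a b M : ℝ} {f g : ℝ → ℝ} (hf : Continuous f) (hg : Continuous g)
    (h : ∀ K : ℝ → ℝ, Measurable K → (∀ y, |K y| ≤ 1) → Integrable K → ∫ y, |K y| ≤ |b - a| →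
      |(∫ θ, K θ * f θ) - ∫ θ, K θ * g θ| ≤ M) :
    ∫ θ in Set.Icc a b, |f θ - g θ| ≤ M := by
  have hs : Measurable fun θ : ℝ => if 0 ≤ f θ - g θ then (1 : ℝ) else -1 :=
    Measurable.ite (measurableSet_le measurable_const (hf.sub hg).measurable) measurable_const measurable_const
  set s : ℝ → ℝ := fun θ : ℝ => if 0 ≤ f θ - g θ then (1 : ℝ) else -1 with hsd
  have hs1 : ∀ θ, ‖s θ‖ ≤ 1 := by
    intro θ
    rw [hsd]
    simp only
    split_ifs <;> simp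
  have hs2 : ∀ θ, |s θ| = 1 := by
    intro θ
    rw [hsd]
    simp only
    split_ifs <;> simp
  set K : ℝ → ℝ := (Set.Icc a b).indicator s with hKd
  have hKm : Measurable K := hs.indicator measurableSet_Icc
  have hint : ∀ F : ℝ → ℝ, Continuous F → Integrable fun θ => K θ * F θ := by
    intro F hF
    have h1 : IntegrableOn F (Set.Icc a b) := hF.integrableOn_Icc
    have h2 : Integrable (fun θ => s θ * F θ) (volume.restrict (Set.Icc a b)) :=
      Integrable.bdd_mul h1 hs.aestronglyMeasurable (Filter.Eventually.of_forall hs1)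
    have h3 : (fun θ => K θ * F θ) = (Set.Icc a b).indicator fun θ => s θ * F θ := by
      funext θ
      rw [hKd]
      by_cases hθ : θ ∈ Set.Icc a b
      · simp [hθ]
      · simp [hθ]
    rw [h3, integrable_indicator_iff measurableSet_Icc]
    exact h2
  have hKi : Integrable K := by
    have := hint (fun _ => 1) continuous_const
    simpa using this
  have hK1 : ∀ y, |K y| ≤ 1 := by
    intro y
    rw [hKd]
    by_cases hy : y ∈ Set.Icc a b
    · simp [hy, hs2 y]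
    · simp [hy]
  have hKn : ∫ y, |K y| ≤ |b - a| := by
    have e1 : (fun y => |K y|) = (Set.Icc a b).indicator fun _ => (1 : ℝ) := by
      funext y
      rw [hKd]
      by_cases hy : y ∈ Set.Icc a b
      · simp [hy, hs2 y]
      · simp [hy]
    rw [e1, integral_indicator measurableSet_Icc, setIntegral_const, smul_eq_mul, mul_one, Measure.real, Real.volume_Icc]
    by_cases hab : 0 ≤ b - a
    · rw [ENNReal.toReal_ofReal hab]
      exact le_abs_self _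
    · rw [ENNReal.ofReal_of_nonpos (not_le.mp hab).le]
      simp
  have h4 := h K hKm hK1 hKi hKn
  rw [← integral_sub (hint f hf) (hint g hg)] at h4
  refine le_trans (le_of_eq ?_) ((le_abs_self _).trans h4)
  rw [← integral_indicator measurableSet_Icc]
  refine integral_congr_ae (Filter.Eventually.of_forall fun θ => ?_)
  simp only
  rw [hKd]
  by_cases hθ : θ ∈ Set.Icc a b
  · simp only [Set.indicator_of_mem hθ]
    rw [hsd]
    simp only
    split_ifs with h5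
    · rw [abs_of_nonneg h5]
      ring
    · rw [abs_of_neg (not_le.mp h5)]
      ring
  · simp [hθ]

theorem e3 {σ κ : ℝ} (c h1 h2 a b A : ℝ) (hσ : 0 < σ) (hσ1 : σ ≤ 1) (hκ : 0 < κ) : ∃ w0 : ℝ, 1 ≤ w0 ∧ ∀ w : ℝ, w0 ≤ w →
    ∫ θ in Set.Icc a b, |TT (κ * Real.exp (-w)) (muP σ (w + c)) (up w (h1 * Real.exp (-w)) (muP 1 w))
        (up w (h2 * Real.exp (-w)) (muP 1 w)) θ -
      TT (κ * Real.exp (-w)) (muL σ (w + c)) (up w (h1 * Real.exp (-w)) (muL 1 w))
        (up w (h2 * Real.exp (-w)) (muL 1 w)) θ| ≤ w ^ (-A) := by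
  obtain ⟨E, u, hu, hm⟩ := E3_main (σ := σ) (κ := κ) c a b (A + 2) hσ hσ1 hκ
  refine ⟨max u 3, hu.trans (le_max_left _ _), ?_⟩
  intro w hw
  have hw1 : u ≤ w := (le_max_left _ _).trans hw
  have hw3 : 3 ≤ w := (le_max_right _ _).trans hw
  have hw0 : 0 < w := by linarith
  obtain ⟨hadm, hK⟩ := hm w hw1
  have hδ0 : 0 < κ * Real.exp (-w) := mul_pos hκ (Real.exp_pos _)
  have hfP : IsFiniteMeasure (muP σ (w + c)) := by
    obtain ⟨C, -, hC⟩ := muP_mass
    exact (hC σ (w + c) hσ hσ1).1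
  have hfL : IsFiniteMeasure (muL σ (w + c)) := (muL_fin hσ (w + c)).1
  refine E3_sgn (tt_cont hδ0 (hadm _).1 (hadm _).1) (tt_cont hδ0 (hadm _).2 (hadm _).2) ?_
  intro K hKm hK1 hKi hKn
  obtain ⟨k1, k2⟩ := hK K hKm hK1 hKi hKn
  have s1 := k1 (h1 * Real.exp (-w)) (up w (h2 * Real.exp (-w)) (muP 1 w)) (hadm _).1
  have s2 := k2 (h2 * Real.exp (-w)) (up w (h1 * Real.exp (-w)) (muL 1 w)) (hadm _).2
  have s3 := abs_sub_le
    (∫ θ, K θ * TT (κ * Real.exp (-w)) (muP σ (w + c)) (up w (h1 * Real.exp (-w)) (muP 1 w))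
      (up w (h2 * Real.exp (-w)) (muP 1 w)) θ)
    (∫ θ, K θ * TT (κ * Real.exp (-w)) (muL σ (w + c)) (up w (h1 * Real.exp (-w)) (muL 1 w))
      (up w (h2 * Real.exp (-w)) (muP 1 w)) θ)
    (∫ θ, K θ * TT (κ * Real.exp (-w)) (muL σ (w + c)) (up w (h1 * Real.exp (-w)) (muL 1 w))
      (up w (h2 * Real.exp (-w)) (muL 1 w)) θ)
  have s4 : 3 * w ^ (-(A + 2)) ≤ w ^ (-A) := by
    have e1 : -A = 2 + -(A + 2) := by ring
    rw [e1, Real.rpow_add hw0]
    refine mul_le_mul_of_nonneg_right ?_ (Real.rpow_pos_of_pos hw0 _).le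
    rw [Real.rpow_two]
    nlinarith
  linarith

theorem e2 {σ κ : ℝ} (c h1 h2 a b A : ℝ) (hσ : 0 < σ) (hσ1 : σ ≤ 1) (hκ : 0 < κ) : ∃ w0 : ℝ, 1 ≤ w0 ∧ ∀ w : ℝ, w0 ≤ w →
    ∫ θ in Set.Icc a b, |TT (κ * Real.exp (-w)) (muP σ (w + c)) (up w (h1 * Real.exp (-w)) (muP 1 w))
        (up w (h2 * Real.exp (-w)) (muL 1 w)) θ -
      TT (κ * Real.exp (-w)) (muL σ (w + c)) (up w (h1 * Real.exp (-w)) (muL 1 w))
        (up w (h2 * Real.exp (-w)) (muL 1 w)) θ| ≤ w ^ (-A) := by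
  obtain ⟨E, u, hu, hm⟩ := E3_main (σ := σ) (κ := κ) c a b (A + 2) hσ hσ1 hκ
  refine ⟨max u 3, hu.trans (le_max_left _ _), ?_⟩
  intro w hw
  have hw1 : u ≤ w := (le_max_left _ _).trans hw
  have hw3 : 3 ≤ w := (le_max_right _ _).trans hw
  have hw0 : 0 < w := by linarith
  obtain ⟨hadm, hK⟩ := hm w hw1
  have hδ0 : 0 < κ * Real.exp (-w) := mul_pos hκ (Real.exp_pos _)
  have hfP : IsFiniteMeasure (muP σ (w + c)) := by
    obtain ⟨C, -, hC⟩ := muP_mass
    exact (hC σ (w + c) hσ hσ1).1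
  have hfL : IsFiniteMeasure (muL σ (w + c)) := (muL_fin hσ (w + c)).1
  refine E3_sgn (tt_cont hδ0 (hadm _).1 (hadm _).2) (tt_cont hδ0 (hadm _).2 (hadm _).2) ?_
  intro K hKm hK1 hKi hKn
  obtain ⟨k1, -⟩ := hK K hKm hK1 hKi hKn
  have s1 := k1 (h1 * Real.exp (-w)) (up w (h2 * Real.exp (-w)) (muL 1 w)) (hadm _).2
  have s4 : 2 * w ^ (-(A + 2)) ≤ w ^ (-A) := by
    have e1 : -A = 2 + -(A + 2) := by ring
    rw [e1, Real.rpow_add hw0]
    refine mul_le_mul_of_nonneg_right ?_ (Real.rpow_pos_of_pos hw0 _).le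
    rw [Real.rpow_two]
    nlinarith
  linarith

end HLA
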