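import Pool.Agent.HLA.Slot

/-!
# HLA.FourA: four primes nearly in geometric progression: replacement of the primes by their models

PROOF. `δ = κ e^(-w)`, `G_i = gsm δ μi`, `μi = up w (Hi e^(-w)) (..)`, admissible with a common bound `w^E` (`adm_P`, `adm_L`, `adm_mono`). Four steps; Fubini everywhere (absolute convergence: `∫ G1(x+θ) dθ ≤ √(2π) B`).
(0) for fixed `x` substitute `y = x + θ`: `TF = ∫ (∫ G1(y) G2(2y-x) G3(3y-2x) dy) dμ0(x) = ∫ DD δ μ2 μ3 G1 2 (-1) 3 (-2) dμ0` (`admK_gsm`): `ot` with `2·(-2) - 3·(-1) = -1`.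
Now `μ0 = muL σ (w+c0)`, `TF = ∫∫ W(x) G1(x+θ) G2(x+2θ) G3(x+3θ) dx dθ`, `W = WW σ (w+c0)` (`muL_int`), `AdmK 3 W` (`admK_W`). In the following `y` is the old `x`:
(1) `x1 = x + θ`: `∫∫ W(y) G1(x1) G2(2x1-y) G3(3x1-2y) = ∫ DD δ μ2 μ3 W (-1) 2 (-2) 3 x1 · G1(x1) dx1`: `slot`, `-1·3 - (-2)·2 = 1`.
(2) `x2 = x + 2θ`: `(1/2) ∫∫ W(y) G1((y+x2)/2) G2(x2) G3((3x2-y)/2) = (1/2) ∫ DD δ μ1 μ3 W (1/2) (1/2) (-1/2) (3/2) x2 · G2(x2) dx2`: `slot`, determinant `1`.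
(3) `x3 = x + 3θ`: `(1/3) ∫∫ W(y) G1((2y+x3)/3) G2((y+2x3)/3) G3(x3) = (1/3) ∫ DD δ μ1 μ2 W (2/3) (1/3) (1/3) (2/3) x3 · G3(x3) dx3`: `slot`, determinant `1/3`.
In step `(i)` the measure `muP σ (w+ci)` in `μi` is replaced by `muL σ (w+ci)`; in each step the other measures are prime measures or already replaced ones, both admissible.
-/

namespace HLA

open MeasureTheory ArithmeticFunction SMC

private theorem fourA_int {ν : Measure ℝ} [SFinite ν] {f g : ℝ → ℝ} (hfc : Continuous f) (hf : Integrable f ν)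
    (hgc : Continuous g) (hg : Integrable g) {j : ℝ} (hj : j ≠ 0) :
    Integrable (fun p : ℝ × ℝ => f p.2 * g (p.2 + j * p.1)) (volume.prod ν) := by
  have hc : Continuous fun p : ℝ × ℝ => f p.2 * g (p.2 + j * p.1) :=
    (hfc.comp continuous_snd).mul (hgc.comp (continuous_snd.add (continuous_const.mul continuous_fst)))
  rw [integrable_prod_iff' hc.aestronglyMeasurable]
  constructor
  · refine Filter.Eventually.of_forall fun x => ?_
    exact ((hg.comp_add_left x).comp_mul_left' hj).const_mul (f x)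
  · have e : ∀ x : ℝ, ∫ θ : ℝ, ‖f x * g (x + j * θ)‖ = |f x| * (|j⁻¹| * ∫ z, |g z|) := by
      intro x
      have e1 : ∀ θ : ℝ, ‖f x * g (x + j * θ)‖ = |f x| * |g (x + j * θ)| := by
        intro θ
        rw [Real.norm_eq_abs, abs_mul]
      simp only [e1]
      rw [integral_const_mul]
      congr 1
      rw [Measure.integral_comp_mul_left (fun u : ℝ => |g (x + u)|) j, smul_eq_mul]
      congr 1
      exact integral_add_left_eq_self (fun u : ℝ => |g u|) x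
    simp only [e]
    exact hf.abs.mul_const _

private theorem fourA_subst {j : ℝ} (hj : 0 < j) {Φ : ℝ → ℝ → ℝ} (hc : Continuous (Function.uncurry Φ))
    {f g : ℝ → ℝ} (hfc : Continuous f) (hf : Integrable f) (hgc : Continuous g) (hg : Integrable g)
    (hb : ∀ y z, |Φ y z| ≤ f y * g z) :
    ∫ θ : ℝ, ∫ x : ℝ, Φ x (x + j * θ) = (1 / j) * ∫ z : ℝ, ∫ y : ℝ, Φ y z := by
  have I1 : Integrable (Function.uncurry fun (θ x : ℝ) => Φ x (x + j * θ)) (volume.prod volume) := by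
    refine (fourA_int hfc hf hgc hg hj.ne').mono' ?_ ?_
    · have : Continuous fun p : ℝ × ℝ => Function.uncurry Φ (p.2, p.2 + j * p.1) :=
        hc.comp (continuous_snd.prodMk (continuous_snd.add (continuous_const.mul continuous_fst)))
      exact this.aestronglyMeasurable
    · refine Filter.Eventually.of_forall fun p => ?_
      rw [Real.norm_eq_abs]
      exact hb _ _
  rw [integral_integral_swap I1]
  have e : ∀ x : ℝ, ∫ θ : ℝ, Φ x (x + j * θ) = (1 / j) * ∫ z, Φ x z := by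
    intro x
    rw [Measure.integral_comp_mul_left (fun u : ℝ => Φ x (x + u)) j, smul_eq_mul, abs_of_pos (inv_pos.2 hj),
      integral_add_left_eq_self (fun u : ℝ => Φ x u) x, one_div]
  simp only [e]
  rw [integral_const_mul]
  congr 1
  have I2 : Integrable (Function.uncurry Φ) (volume.prod volume) := by
    refine (hf.mul_prod hg).mono' hc.aestronglyMeasurable ?_
    refine Filter.Eventually.of_forall fun p => ?_
    rw [Real.norm_eq_abs]
    exact hb _ _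
  exact integral_integral_swap I2

private theorem fourA_abs3 {a b c B : ℝ} (ha : 0 ≤ a) (hb : 0 ≤ b) (hc : 0 ≤ c) (hb1 : b ≤ B) (hc1 : c ≤ B) :
    |a * b * c| ≤ B ^ 2 * a := by
  rw [abs_of_nonneg (by positivity)]
  have h1 : b * c ≤ B * B := mul_le_mul hb1 hc1 hc (hb.trans hb1)
  calc a * b * c = a * (b * c) := by ring
    _ ≤ a * (B * B) := mul_le_mul_of_nonneg_left h1 ha
    _ = B ^ 2 * a := by ring

section
variable {δ B : ℝ} {μ1 μ2 μ3 : Measure ℝ}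

private theorem fourA_zero (hδ : 0 < δ) (μ0 : Measure ℝ) [IsFiniteMeasure μ0] (h1 : Adm δ B μ1) (h2 : Adm δ B μ2)
    (h3 : Adm δ B μ3) :
    TF δ μ0 μ1 μ2 μ3 = ∫ x, DD δ μ2 μ3 (gsm δ μ1) 2 (-1) 3 (-2) x ∂μ0 := by
  have i1 := h1.1
  have i2 := h2.1
  have i3 := h3.1
  have c1 := gsm_cont δ μ1
  have c2 := gsm_cont δ μ2
  have c3 := gsm_cont δ μ3
  unfold TF
  have hc : Continuous fun p : ℝ × ℝ =>
      gsm δ μ1 (p.2 + p.1) * gsm δ μ2 (p.2 + 2 * p.1) * gsm δ μ3 (p.2 + 3 * p.1) := by fun_prop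
  have I0 : Integrable (fun p : ℝ × ℝ => (fun _ : ℝ => B ^ 2) p.2 * gsm δ μ1 (p.2 + 1 * p.1)) (volume.prod μ0) :=
    fourA_int continuous_const (integrable_const _) c1 (adm_int hδ h1).1 one_ne_zero
  have I1 : Integrable (Function.uncurry fun (θ x : ℝ) =>
      gsm δ μ1 (x + θ) * gsm δ μ2 (x + 2 * θ) * gsm δ μ3 (x + 3 * θ)) (volume.prod μ0) := by
    refine I0.mono' hc.aestronglyMeasurable (Filter.Eventually.of_forall fun p => ?_)
    rw [Real.norm_eq_abs]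
    have := fourA_abs3 (gsm_nonneg δ μ1 (p.2 + 1 * p.1)) (gsm_nonneg δ μ2 (p.2 + 2 * p.1))
      (gsm_nonneg δ μ3 (p.2 + 3 * p.1)) (h2.2.1 _) (h3.2.1 _)
    rw [one_mul] at this
    rw [one_mul]
    exact this
  rw [integral_integral_swap I1]
  refine integral_congr_ae (Filter.Eventually.of_forall fun x => ?_)
  simp only
  unfold DD
  have e := integral_add_left_eq_self (μ := volume)
    (fun y : ℝ => gsm δ μ1 y * (gsm δ μ2 (2 * y + -1 * x) * gsm δ μ3 (3 * y + -2 * x))) x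
  rw [← e]
  refine integral_congr_ae (Filter.Eventually.of_forall fun θ => ?_)
  simp only
  have e1 : 2 * (x + θ) + -1 * x = x + 2 * θ := by ring
  have e2 : 3 * (x + θ) + -2 * x = x + 3 * θ := by ring
  rw [e1, e2, mul_assoc]

variable {σ : ℝ}

private theorem fourA_L (c : ℝ) : TF δ (muL σ c) μ1 μ2 μ3 =
    ∫ θ : ℝ, ∫ x : ℝ, WW σ c x * (gsm δ μ1 (x + θ) * gsm δ μ2 (x + 2 * θ) * gsm δ μ3 (x + 3 * θ)) := by
  unfold TF
  refine integral_congr_ae (Filter.Eventually.of_forall fun θ => ?_)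
  simp only
  rw [muL_int]
  rfl

private theorem fourA_bd {W a b c B : ℝ} (hW : 0 ≤ W) (ha : 0 ≤ a) (hb : 0 ≤ b) (hc : 0 ≤ c) (hb1 : b ≤ B)
    (hc1 : c ≤ B) : |W * (b * c) * a| ≤ B ^ 2 * W * a := by
  rw [abs_of_nonneg (by positivity)]
  have h1 : b * c ≤ B * B := mul_le_mul hb1 hc1 hc (hb.trans hb1)
  have h2 : W * (b * c) ≤ B ^ 2 * W := by
    calc W * (b * c) ≤ W * (B * B) := mul_le_mul_of_nonneg_left h1 hW
      _ = B ^ 2 * W := by ring
  exact mul_le_mul_of_nonneg_right h2 ha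

private theorem fourA_one (hδ : 0 < δ) (hσ : 0 < σ) (c : ℝ) (h1 : Adm δ B μ1) (h2 : Adm δ B μ2)
    (h3 : Adm δ B μ3) :
    TF δ (muL σ c) μ1 μ2 μ3 = ∫ x, DD δ μ2 μ3 (WW σ c) (-1) 2 (-2) 3 x * gsm δ μ1 x := by
  have i1 := h1.1
  have i2 := h2.1
  have i3 := h3.1
  have c1 := gsm_cont δ μ1
  have c2 := gsm_cont δ μ2
  have c3 := gsm_cont δ μ3
  have cW := WW_cont σ c
  rw [fourA_L]
  have key := fourA_subst (j := 1) one_pos
    (Φ := fun y z => WW σ c y * (gsm δ μ2 (-1 * y + 2 * z) * gsm δ μ3 (-2 * y + 3 * z)) * gsm δ μ1 z)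
    (by
      have : Continuous fun p : ℝ × ℝ => WW σ c p.1 *
        (gsm δ μ2 (-1 * p.1 + 2 * p.2) * gsm δ μ3 (-2 * p.1 + 3 * p.2)) * gsm δ μ1 p.2 := by fun_prop
      exact this)
    (f := fun y => B ^ 2 * WW σ c y) (by fun_prop) ((WW_int hσ c).1.const_mul _) c1 (adm_int hδ h1).1
    (fun y z => fourA_bd (WW_nonneg σ c y) (gsm_nonneg δ μ1 z) (gsm_nonneg δ μ2 _) (gsm_nonneg δ μ3 _)
      (h2.2.1 _) (h3.2.1 _))
  refine Eq.trans ?_ (key.trans ?_)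
  · refine integral_congr_ae (Filter.Eventually.of_forall fun θ => ?_)
    refine integral_congr_ae (Filter.Eventually.of_forall fun x => ?_)
    simp only
    have e1 : -1 * x + 2 * (x + 1 * θ) = x + 2 * θ := by ring
    have e2 : -2 * x + 3 * (x + 1 * θ) = x + 3 * θ := by ring
    rw [e1, e2, one_mul]
    ring
  · rw [div_one, one_mul]
    refine integral_congr_ae (Filter.Eventually.of_forall fun z => ?_)
    simp only
    rw [integral_mul_const]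
    rfl

private theorem fourA_two (hδ : 0 < δ) (hσ : 0 < σ) (c : ℝ) (h1 : Adm δ B μ1) (h2 : Adm δ B μ2)
    (h3 : Adm δ B μ3) :
    TF δ (muL σ c) μ1 μ2 μ3 =
      (1 / 2) * ∫ x, DD δ μ1 μ3 (WW σ c) (1 / 2) (1 / 2) (-1 / 2) (3 / 2) x * gsm δ μ2 x := by
  have i1 := h1.1
  have i2 := h2.1
  have i3 := h3.1
  have c1 := gsm_cont δ μ1
  have c2 := gsm_cont δ μ2
  have c3 := gsm_cont δ μ3
  have cW := WW_cont σ c
  rw [fourA_L]
  have key := fourA_subst (j := 2) two_pos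
    (Φ := fun y z => WW σ c y * (gsm δ μ1 (1 / 2 * y + 1 / 2 * z) * gsm δ μ3 (-1 / 2 * y + 3 / 2 * z)) *
      gsm δ μ2 z)
    (by
      have : Continuous fun p : ℝ × ℝ => WW σ c p.1 *
        (gsm δ μ1 (1 / 2 * p.1 + 1 / 2 * p.2) * gsm δ μ3 (-1 / 2 * p.1 + 3 / 2 * p.2)) * gsm δ μ2 p.2 := by
          fun_prop
      exact this)
    (f := fun y => B ^ 2 * WW σ c y) (by fun_prop) ((WW_int hσ c).1.const_mul _) c2 (adm_int hδ h2).1
    (fun y z => fourA_bd (WW_nonneg σ c y) (gsm_nonneg δ μ2 z) (gsm_nonneg δ μ1 _) (gsm_nonneg δ μ3 _)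
      (h1.2.1 _) (h3.2.1 _))
  refine Eq.trans ?_ (key.trans ?_)
  · refine integral_congr_ae (Filter.Eventually.of_forall fun θ => ?_)
    refine integral_congr_ae (Filter.Eventually.of_forall fun x => ?_)
    simp only
    have e1 : 1 / 2 * x + 1 / 2 * (x + 2 * θ) = x + θ := by ring
    have e2 : -1 / 2 * x + 3 / 2 * (x + 2 * θ) = x + 3 * θ := by ring
    rw [e1, e2]
    ring
  · congr 1
    refine integral_congr_ae (Filter.Eventually.of_forall fun z => ?_)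
    simp only
    rw [integral_mul_const]
    rfl

private theorem fourA_three (hδ : 0 < δ) (hσ : 0 < σ) (c : ℝ) (h1 : Adm δ B μ1) (h2 : Adm δ B μ2)
    (h3 : Adm δ B μ3) :
    TF δ (muL σ c) μ1 μ2 μ3 =
      (1 / 3) * ∫ x, DD δ μ1 μ2 (WW σ c) (2 / 3) (1 / 3) (1 / 3) (2 / 3) x * gsm δ μ3 x := by
  have i1 := h1.1
  have i2 := h2.1
  have i3 := h3.1
  have c1 := gsm_cont δ μ1
  have c2 := gsm_cont δ μ2
  have c3 := gsm_cont δ μ3
  have cW := WW_cont σ c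
  rw [fourA_L]
  have key := fourA_subst (j := 3) three_pos
    (Φ := fun y z => WW σ c y * (gsm δ μ1 (2 / 3 * y + 1 / 3 * z) * gsm δ μ2 (1 / 3 * y + 2 / 3 * z)) *
      gsm δ μ3 z)
    (by
      have : Continuous fun p : ℝ × ℝ => WW σ c p.1 *
        (gsm δ μ1 (2 / 3 * p.1 + 1 / 3 * p.2) * gsm δ μ2 (1 / 3 * p.1 + 2 / 3 * p.2)) * gsm δ μ3 p.2 := by
          fun_prop
      exact this)
    (f := fun y => B ^ 2 * WW σ c y) (by fun_prop) ((WW_int hσ c).1.const_mul _) c3 (adm_int hδ h3).1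
    (fun y z => fourA_bd (WW_nonneg σ c y) (gsm_nonneg δ μ3 z) (gsm_nonneg δ μ1 _) (gsm_nonneg δ μ2 _)
      (h1.2.1 _) (h2.2.1 _))
  refine Eq.trans ?_ (key.trans ?_)
  · refine integral_congr_ae (Filter.Eventually.of_forall fun θ => ?_)
    refine integral_congr_ae (Filter.Eventually.of_forall fun x => ?_)
    simp only
    have e1 : 2 / 3 * x + 1 / 3 * (x + 3 * θ) = x + θ := by ring
    have e2 : 1 / 3 * x + 2 / 3 * (x + 3 * θ) = x + 2 * θ := by ring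
    rw [e1, e2]
    ring
  · congr 1
    refine integral_congr_ae (Filter.Eventually.of_forall fun z => ?_)
    simp only
    rw [integral_mul_const]
    rfl

end

theorem tf_diff {σ κ : ℝ} (c0 c1 c2 c3 H1 H2 H3 A : ℝ) (hσ : 0 < σ) (hσ1 : σ ≤ 1) (hκ : 0 < κ) : ∃ w0 : ℝ, 1 ≤ w0 ∧
    ∀ w : ℝ, w0 ≤ w →
    |TF (κ * Real.exp (-w)) (muP σ (w + c0)) (up w (H1 * Real.exp (-w)) (muP σ (w + c1)))
        (up w (H2 * Real.exp (-w)) (muP σ (w + c2))) (up w (H3 * Real.exp (-w)) (muP σ (w + c3))) -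
      TF (κ * Real.exp (-w)) (muL σ (w + c0)) (up w (H1 * Real.exp (-w)) (muL σ (w + c1)))
        (up w (H2 * Real.exp (-w)) (muL σ (w + c2))) (up w (H3 * Real.exp (-w)) (muL σ (w + c3)))| ≤ w ^ (-A) := by
  set E0 : ℝ := |c0| + |c1| + |c2| + |c3| + |Real.log κ| with hE0
  have n0 := abs_nonneg c0
  have n1 := abs_nonneg c1
  have n2 := abs_nonneg c2
  have n3 := abs_nonneg c3
  have n4 := abs_nonneg (Real.log κ)
  obtain ⟨E', u1, hu1, hP⟩ := adm_P (σ := σ) E0 hσ hσ1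
  obtain ⟨u2, hu2, hL⟩ := adm_L (σ := σ) E0 hσ hσ1
  set E : ℝ := max E0 (max (E' + 1) 1) with hE
  have hEE0 : E0 ≤ E := le_max_left _ _
  have hEE' : E' + 1 ≤ E := (le_max_left _ _).trans (le_max_right _ _)
  have hE1 : 1 ≤ E := (le_max_right _ _).trans (le_max_right _ _)
  obtain ⟨u3, hu3, hot⟩ := ot (σ := σ) (a1 := 2) (b1 := -1) (a2 := 3) (b2 := -2) E (A + 1) hσ hσ1
    (by norm_num) (by norm_num) (by norm_num)
  obtain ⟨u4, hu4, hs1⟩ := slot (σ := σ) (a1 := -1) (b1 := 2) (a2 := -2) (b2 := 3) E (A + 1) hσ hσ1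
    (by norm_num) (by norm_num) (by norm_num)
  obtain ⟨u5, hu5, hs2⟩ := slot (σ := σ) (a1 := 1 / 2) (b1 := 1 / 2) (a2 := -1 / 2) (b2 := 3 / 2) E (A + 1) hσ hσ1
    (by norm_num) (by norm_num) (by norm_num)
  obtain ⟨u6, hu6, hs3⟩ := slot (σ := σ) (a1 := 2 / 3) (b1 := 1 / 3) (a2 := 1 / 3) (b2 := 2 / 3) E (A + 1) hσ hσ1
    (by norm_num) (by norm_num) (by norm_num)
  refine ⟨u1 + u2 + u3 + u4 + u5 + u6 + 4, by linarith, fun w hw => ?_⟩
  have hw1 : u1 ≤ w := by linarith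
  have hw2 : u2 ≤ w := by linarith
  have hw3 : u3 ≤ w := by linarith
  have hw4 : u4 ≤ w := by linarith
  have hw5 : u5 ≤ w := by linarith
  have hw6 : u6 ≤ w := by linarith
  have hw7 : 4 ≤ w := by linarith
  have hwp : 0 < w := by linarith
  have hwg1 : 1 ≤ w := by linarith
  set δ : ℝ := κ * Real.exp (-w) with hδ
  have hδ0 : 0 < δ := by positivity
  have hδe : δ = Real.exp (Real.log κ + -w) := by rw [hδ, Real.exp_add, Real.exp_log hκ]
  have hδlo : ∀ E'' : ℝ, E0 ≤ E'' → Real.exp (-w - E'') ≤ δ := by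
    intro E'' hE''
    rw [hδe, Real.exp_le_exp]
    have := neg_abs_le (Real.log κ)
    linarith
  have hδhi : ∀ E'' : ℝ, E0 ≤ E'' → δ ≤ Real.exp (-w + E'') := by
    intro E'' hE''
    rw [hδe, Real.exp_le_exp]
    have := le_abs_self (Real.log κ)
    linarith
  -- admissibility
  have hpow1 : w ^ E' ≤ w ^ E := Real.rpow_le_rpow_of_exponent_le hwg1 (by linarith)
  have hpow2 : w ≤ w ^ E := by
    calc w = w ^ (1 : ℝ) := (Real.rpow_one w).symm
      _ ≤ w ^ E := Real.rpow_le_rpow_of_exponent_le hwg1 hE1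
  have hpow3 : 3 * w ^ E' ≤ w ^ E := by
    calc 3 * w ^ E' ≤ w * w ^ E' :=
          mul_le_mul_of_nonneg_right (by linarith) (Real.rpow_nonneg hwp.le _)
      _ = w ^ (E' + 1) := by rw [Real.rpow_add hwp, Real.rpow_one, mul_comm]
      _ ≤ w ^ E := Real.rpow_le_rpow_of_exponent_le hwg1 hEE'
  have aP : ∀ c H : ℝ, |c| ≤ E0 → Adm δ (w ^ E') (up w (H * Real.exp (-w)) (muP σ (w + c))) := by
    intro c H hc
    exact hP w (w + c) δ _ hw1 (by rw [add_sub_cancel_left]; exact hc) (hδlo E0 le_rfl) (hδhi E0 le_rfl)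
  have aP' : ∀ c H : ℝ, |c| ≤ E0 → Adm δ (w ^ E) (up w (H * Real.exp (-w)) (muP σ (w + c))) :=
    fun c H hc => adm_mono (aP c H hc) hpow1
  have aL' : ∀ c H : ℝ, Adm δ (w ^ E) (up w (H * Real.exp (-w)) (muL σ (w + c))) := by
    intro c H
    exact adm_mono (hL w (w + c) δ _ hw2 (hδlo E0 le_rfl) (hδhi E0 le_rfl)) hpow2
  have hc0 : |c0| ≤ E0 := by linarith
  have hc1 : |c1| ≤ E0 := by linarith
  have hc2 : |c2| ≤ E0 := by linarith
  have hc3 : |c3| ≤ E0 := by linarith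
  have hcE : ∀ c : ℝ, |c| ≤ E0 → |w + c - w| ≤ E := by
    intro c hc
    rw [add_sub_cancel_left]
    exact hc.trans hEE0
  have kW : AdmK (w ^ E) (WW σ (w + c0)) := admK_mono (admK_W hσ hσ1 (w + c0)) (by linarith)
  have kG : AdmK (w ^ E) (gsm δ (up w (H1 * Real.exp (-w)) (muP σ (w + c1)))) :=
    admK_mono (admK_gsm hδ0 (Real.rpow_nonneg hwp.le _) (aP c1 H1 hc1)) hpow3
  have fP : IsFiniteMeasure (muP σ (w + c0)) := by
    obtain ⟨C, -, hC⟩ := muP_mass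
    exact (hC σ (w + c0) hσ hσ1).1
  have fL : IsFiniteMeasure (muL σ (w + c0)) := (muL_fin hσ (w + c0)).1
  set P1 := up w (H1 * Real.exp (-w)) (muP σ (w + c1)) with hP1
  set P2 := up w (H2 * Real.exp (-w)) (muP σ (w + c2)) with hP2
  set P3' := up w (H3 * Real.exp (-w)) (muP σ (w + c3)) with hP3
  set L1 := up w (H1 * Real.exp (-w)) (muL σ (w + c1)) with hL1
  set L2 := up w (H2 * Real.exp (-w)) (muL σ (w + c2)) with hL2
  set L3 := up w (H3 * Real.exp (-w)) (muL σ (w + c3)) with hL3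
  have aP1 : Adm δ (w ^ E) P1 := aP' c1 H1 hc1
  have aP2 : Adm δ (w ^ E) P2 := aP' c2 H2 hc2
  have aP3 : Adm δ (w ^ E) P3' := aP' c3 H3 hc3
  have aL1 : Adm δ (w ^ E) L1 := aL' c1 H1
  have aL2 : Adm δ (w ^ E) L2 := aL' c2 H2
  have aL3 : Adm δ (w ^ E) L3 := aL' c3 H3
  -- the four steps
  have s0 : |TF δ (muP σ (w + c0)) P1 P2 P3' - TF δ (muL σ (w + c0)) P1 P2 P3'| ≤ w ^ (-(A + 1)) := by
    rw [fourA_zero hδ0 (muP σ (w + c0)) aP1 aP2 aP3, fourA_zero hδ0 (muL σ (w + c0)) aP1 aP2 aP3]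
    exact hot w (w + c0) δ hw3 (hcE c0 hc0) (hδlo E hEE0) (hδhi E hEE0) P2 P3' _ aP2 aP3 kG
  have s1 : |TF δ (muL σ (w + c0)) P1 P2 P3' - TF δ (muL σ (w + c0)) L1 P2 P3'| ≤ w ^ (-(A + 1)) := by
    rw [fourA_one hδ0 hσ (w + c0) aP1 aP2 aP3, fourA_one hδ0 hσ (w + c0) aL1 aP2 aP3]
    exact hs1 w (w + c1) δ _ hw4 (hcE c1 hc1) (hδlo E hEE0) (hδhi E hEE0) P2 P3' _ aP2 aP3 kW
  have hpos : 0 ≤ w ^ (-(A + 1)) := Real.rpow_nonneg hwp.le _
  have s2 : |TF δ (muL σ (w + c0)) L1 P2 P3' - TF δ (muL σ (w + c0)) L1 L2 P3'| ≤ w ^ (-(A + 1)) := by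
    rw [fourA_two hδ0 hσ (w + c0) aL1 aP2 aP3, fourA_two hδ0 hσ (w + c0) aL1 aL2 aP3, ← mul_sub, abs_mul,
      abs_of_pos (by norm_num : (0 : ℝ) < 1 / 2)]
    have := hs2 w (w + c2) δ (H2 * Real.exp (-w)) hw5 (hcE c2 hc2) (hδlo E hEE0) (hδhi E hEE0) L1 P3' _ aL1 aP3 kW
    linarith
  have s3 : |TF δ (muL σ (w + c0)) L1 L2 P3' - TF δ (muL σ (w + c0)) L1 L2 L3| ≤ w ^ (-(A + 1)) := by
    rw [fourA_three hδ0 hσ (w + c0) aL1 aL2 aP3, fourA_three hδ0 hσ (w + c0) aL1 aL2 aL3, ← mul_sub, abs_mul,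
      abs_of_pos (by norm_num : (0 : ℝ) < 1 / 3)]
    have := hs3 w (w + c3) δ (H3 * Real.exp (-w)) hw6 (hcE c3 hc3) (hδlo E hEE0) (hδhi E hEE0) L1 L2 _ aL1 aL2 kW
    linarith
  have hfin : 4 * w ^ (-(A + 1)) ≤ w ^ (-A) := by
    have e1 : w ^ (-A) = w * w ^ (-(A + 1)) := by
      have e2 : w ^ (1 + -(A + 1)) = w ^ (1 : ℝ) * w ^ (-(A + 1)) := Real.rpow_add hwp _ _
      rw [Real.rpow_one] at e2
      rw [← e2]
      congr 1
      ring
    rw [e1]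
    exact mul_le_mul_of_nonneg_right hw7 hpos
  have htri : |TF δ (muP σ (w + c0)) P1 P2 P3' - TF δ (muL σ (w + c0)) L1 L2 L3| ≤
      |TF δ (muP σ (w + c0)) P1 P2 P3' - TF δ (muL σ (w + c0)) P1 P2 P3'| +
      |TF δ (muL σ (w + c0)) P1 P2 P3' - TF δ (muL σ (w + c0)) L1 P2 P3'| +
      |TF δ (muL σ (w + c0)) L1 P2 P3' - TF δ (muL σ (w + c0)) L1 L2 P3'| +
      |TF δ (muL σ (w + c0)) L1 L2 P3' - TF δ (muL σ (w + c0)) L1 L2 L3| := by
    have e : TF δ (muP σ (w + c0)) P1 P2 P3' - TF δ (muL σ (w + c0)) L1 L2 L3 =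
      (TF δ (muP σ (w + c0)) P1 P2 P3' - TF δ (muL σ (w + c0)) P1 P2 P3') +
      (TF δ (muL σ (w + c0)) P1 P2 P3' - TF δ (muL σ (w + c0)) L1 P2 P3') +
      (TF δ (muL σ (w + c0)) L1 P2 P3' - TF δ (muL σ (w + c0)) L1 L2 P3') +
      (TF δ (muL σ (w + c0)) L1 L2 P3' - TF δ (muL σ (w + c0)) L1 L2 L3) := by ring
    rw [e]
    exact (abs_add_le _ _).trans (add_le_add ((abs_add_le _ _).trans (add_le_add (abs_add_le _ _) le_rfl)) le_rfl)
  linarith

end HLA
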