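import Pool.Agent.HLA.Gsm

/-!
# HLA.FourB: the main term for four primes

PROOF. `δ = κ e^(-w)`. `gsm δ (muL σ c)` is a convolution of two Gaussians (`FourB_conv`), so with `s = σ² + δ²` and `x = w + t`
`TF = (√(2π) κ σ/√s)³ ∫∫ WW σ 0 t ∏_{i=1}^3 exp(-(t + iθ - im - Hi e^(-w))²/(2 s)) dt dθ` (`FourB_TF`). Dominated convergence twice: for `s ≤ 2σ²` and
`|Hi| e^(-w) ≤ 1` the integrand is at most `exp(1/(4σ²)) WW (2σ) 0 t WW (3σ) m θ`. The limit: with `φ = θ - m`: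
`∑_{i=0}^3 (t+iφ)² = 4 (t + 3φ/2)² + 5 φ²`, so the integral is `√(2πσ²/4) √(2πσ²/5) = 2πσ²/√20`.
-/

namespace HLA

open MeasureTheory ArithmeticFunction SMC Filter

/-- The convolution of two Gaussians. -/
theorem FourB_conv {σ δ : ℝ} (hσ : 0 < σ) (hδ : 0 < δ) (c y : ℝ) :
    gsm δ (muL σ c) y = Real.sqrt (2 * Real.pi) * (δ * σ / Real.sqrt (σ ^ 2 + δ ^ 2)) *
      Real.exp (-(y - c) ^ 2 / (2 * (σ ^ 2 + δ ^ 2))) := by
  unfold gsm
  rw [muL_int]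
  have hs : 0 < σ ^ 2 + δ ^ 2 := by positivity
  set v : ℝ := δ * σ / Real.sqrt (σ ^ 2 + δ ^ 2) with hv
  have hv2 : v ^ 2 = δ ^ 2 * σ ^ 2 / (σ ^ 2 + δ ^ 2) := by
    rw [hv, div_pow, Real.sq_sqrt hs.le]
    ring
  have hvp : 0 < v := by positivity
  set x0 : ℝ := (σ ^ 2 * y + δ ^ 2 * c) / (σ ^ 2 + δ ^ 2) with hx0
  have hk : ∀ x : ℝ, WW σ c x • Real.exp (-(y - x) ^ 2 / (2 * δ ^ 2)) =
      Real.exp (-(y - c) ^ 2 / (2 * (σ ^ 2 + δ ^ 2))) * WW v x0 x := by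
    intro x
    unfold WW
    rw [smul_eq_mul, ← Real.exp_add, ← Real.exp_add, hv2, hx0]
    congr 1
    field_simp
    ring
  simp_rw [hk]
  rw [integral_const_mul, (WW_int hvp x0).2]
  ring

/-- The integrand. -/
noncomputable def fbE (σ m s h1 h2 h3 θ t : ℝ) : ℝ :=
  WW σ 0 t * (Real.exp (-(t + θ - m - h1) ^ 2 / (2 * s)) * Real.exp (-(t + 2 * θ - 2 * m - h2) ^ 2 / (2 * s)) *
    Real.exp (-(t + 3 * θ - 3 * m - h3) ^ 2 / (2 * s)))

theorem fbE_nonneg (σ m s h1 h2 h3 θ t : ℝ) : 0 ≤ fbE σ m s h1 h2 h3 θ t := by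
  unfold fbE
  exact mul_nonneg (WW_nonneg _ _ _) (by positivity)

theorem fbE_cont (σ m s h1 h2 h3 : ℝ) : Continuous fun q : ℝ × ℝ => fbE σ m s h1 h2 h3 q.1 q.2 := by
  unfold fbE WW
  fun_prop

theorem fbE_lim {σ : ℝ} (hσ : 0 < σ) (m θ t : ℝ) {s h1 h2 h3 : ℝ → ℝ} (hs : Tendsto s atTop (nhds (σ ^ 2)))
    (hh1 : Tendsto h1 atTop (nhds 0)) (hh2 : Tendsto h2 atTop (nhds 0)) (hh3 : Tendsto h3 atTop (nhds 0)) :
    Tendsto (fun w => fbE σ m (s w) (h1 w) (h2 w) (h3 w) θ t) atTop (nhds (fbE σ m (σ ^ 2) 0 0 0 θ t)) := by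
  have hne : (2 : ℝ) * σ ^ 2 ≠ 0 := by positivity
  have hg : ∀ (u : ℝ) (h : ℝ → ℝ), Tendsto h atTop (nhds 0) →
      Tendsto (fun w => Real.exp (-(u - h w) ^ 2 / (2 * s w))) atTop (nhds (Real.exp (-(u - 0) ^ 2 / (2 * σ ^ 2)))) := by
    intro u h hh
    exact (Real.continuous_exp.tendsto _).comp
      ((((tendsto_const_nhds.sub hh).pow 2).neg).div (tendsto_const_nhds.mul hs) hne)
  unfold fbE
  exact tendsto_const_nhds.mul (((hg _ _ hh1).mul (hg _ _ hh2)).mul (hg _ _ hh3))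

theorem fbE_le {σ : ℝ} (hσ : 0 < σ) (m θ t : ℝ) {s h1 h2 h3 : ℝ} (hs0 : 0 < s) (hs : s ≤ 2 * σ ^ 2) (hh : |h1| ≤ 1) :
    fbE σ m s h1 h2 h3 θ t ≤ Real.exp (1 / (4 * σ ^ 2)) * (WW (3 * σ) m θ * WW (2 * σ) 0 t) := by
  have e2 : Real.exp (-(t + 2 * θ - 2 * m - h2) ^ 2 / (2 * s)) ≤ 1 := by
    rw [Real.exp_le_one_iff]
    exact div_nonpos_of_nonpos_of_nonneg (neg_nonpos.mpr (sq_nonneg _)) (by positivity)
  have e3 : Real.exp (-(t + 3 * θ - 3 * m - h3) ^ 2 / (2 * s)) ≤ 1 := by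
    rw [Real.exp_le_one_iff]
    exact div_nonpos_of_nonpos_of_nonneg (neg_nonpos.mpr (sq_nonneg _)) (by positivity)
  have e1 : Real.exp (-(t + θ - m - h1) ^ 2 / (2 * s)) ≤ Real.exp (-(t + θ - m - h1) ^ 2 / (4 * σ ^ 2)) := by
    apply Real.exp_le_exp.mpr
    rw [neg_div, neg_div, neg_le_neg_iff]
    exact div_le_div_of_nonneg_left (sq_nonneg _) (by positivity) (by linarith)
  have hW := WW_nonneg σ 0 t
  have h4 : fbE σ m s h1 h2 h3 θ t ≤ WW σ 0 t * Real.exp (-(t + θ - m - h1) ^ 2 / (4 * σ ^ 2)) := by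
    unfold fbE
    refine mul_le_mul_of_nonneg_left ?_ hW
    calc _ ≤ Real.exp (-(t + θ - m - h1) ^ 2 / (4 * σ ^ 2)) * 1 * 1 := by
          refine mul_le_mul (mul_le_mul e1 e2 (Real.exp_pos _).le (Real.exp_pos _).le) e3 (Real.exp_pos _).le ?_
          positivity
      _ = _ := by ring
  refine h4.trans ?_
  unfold WW
  rw [← Real.exp_add, ← Real.exp_add, ← Real.exp_add]
  apply Real.exp_le_exp.mpr
  have hh2 : h1 ^ 2 ≤ 1 := by
    rw [← sq_abs]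
    nlinarith [abs_nonneg h1]
  have key : 1 / (4 * σ ^ 2) + (-(θ - m) ^ 2 / (2 * (3 * σ) ^ 2) + -(t - 0) ^ 2 / (2 * (2 * σ) ^ 2)) -
      (-(t - 0) ^ 2 / (2 * σ ^ 2) + -(t + θ - m - h1) ^ 2 / (4 * σ ^ 2)) =
      (1 - (θ - m) ^ 2 * (2 / 9) + t ^ 2 * (3 / 2) + (t + θ - m - h1) ^ 2) / (4 * σ ^ 2) := by
    field_simp
    ring
  have h5 : 0 ≤ (1 - (θ - m) ^ 2 * (2 / 9) + t ^ 2 * (3 / 2) + (t + θ - m - h1) ^ 2) / (4 * σ ^ 2) := by
    apply div_nonneg _ (by positivity)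
    nlinarith [sq_nonneg (t + θ - m - 2 * h1), sq_nonneg (t + (t + θ - m)), sq_nonneg (t + θ - m), sq_nonneg t]
  linarith [key, h5]

/-- The inner integral. -/
noncomputable def fbI (σ m s h1 h2 h3 θ : ℝ) : ℝ := ∫ t, fbE σ m s h1 h2 h3 θ t

theorem fbI_meas (σ m s h1 h2 h3 : ℝ) : StronglyMeasurable (fbI σ m s h1 h2 h3) := by
  have h : StronglyMeasurable (Function.uncurry fun θ t : ℝ => fbE σ m s h1 h2 h3 θ t) :=
    (fbE_cont σ m s h1 h2 h3).stronglyMeasurable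
  exact h.integral_prod_right

theorem fbI_le {σ : ℝ} (hσ : 0 < σ) (m θ : ℝ) {s h1 h2 h3 : ℝ} (hs0 : 0 < s) (hs : s ≤ 2 * σ ^ 2) (hh : |h1| ≤ 1) :
    ‖fbI σ m s h1 h2 h3 θ‖ ≤ Real.exp (1 / (4 * σ ^ 2)) * (WW (3 * σ) m θ * (Real.sqrt (2 * Real.pi) * (2 * σ))) := by
  have h2σ : 0 < 2 * σ := by positivity
  unfold fbI
  rw [Real.norm_of_nonneg (integral_nonneg fun t => fbE_nonneg _ _ _ _ _ _ _ _)]
  rw [← (WW_int h2σ 0).2, ← integral_const_mul, ← integral_const_mul]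
  refine integral_mono_of_nonneg (Eventually.of_forall fun t => fbE_nonneg _ _ _ _ _ _ _ _) ?_
    (Eventually.of_forall fun t => fbE_le hσ m θ t hs0 hs hh)
  exact ((WW_int h2σ 0).1.const_mul _).const_mul _

theorem fbI_lim {σ : ℝ} (hσ : 0 < σ) (m θ : ℝ) {s h1 h2 h3 : ℝ → ℝ} (hs : Tendsto s atTop (nhds (σ ^ 2)))
    (hh1 : Tendsto h1 atTop (nhds 0)) (hh2 : Tendsto h2 atTop (nhds 0)) (hh3 : Tendsto h3 atTop (nhds 0))
    (hs0 : ∀ᶠ w in atTop, 0 < s w ∧ s w ≤ 2 * σ ^ 2) (hb : ∀ᶠ w in atTop, |h1 w| ≤ 1) :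
    Tendsto (fun w => fbI σ m (s w) (h1 w) (h2 w) (h3 w) θ) atTop (nhds (fbI σ m (σ ^ 2) 0 0 0 θ)) := by
  have h2σ : 0 < 2 * σ := by positivity
  unfold fbI
  refine tendsto_integral_filter_of_dominated_convergence
    (fun t => Real.exp (1 / (4 * σ ^ 2)) * (WW (3 * σ) m θ * WW (2 * σ) 0 t)) ?_ ?_ ?_ ?_
  · refine Eventually.of_forall fun w => Continuous.aestronglyMeasurable ?_
    exact (fbE_cont σ m (s w) (h1 w) (h2 w) (h3 w)).comp (Continuous.prodMk continuous_const continuous_id)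
  · filter_upwards [hs0, hb] with w h1' h2'
    refine Eventually.of_forall fun t => ?_
    rw [Real.norm_of_nonneg (fbE_nonneg _ _ _ _ _ _ _ _)]
    exact fbE_le hσ m θ t h1'.1 h1'.2 h2'
  · exact ((WW_int h2σ 0).1.const_mul _).const_mul _
  · exact Eventually.of_forall fun t => fbE_lim hσ m θ t hs hh1 hh2 hh3

theorem fbII_lim {σ : ℝ} (hσ : 0 < σ) (m : ℝ) {s h1 h2 h3 : ℝ → ℝ} (hs : Tendsto s atTop (nhds (σ ^ 2)))
    (hh1 : Tendsto h1 atTop (nhds 0)) (hh2 : Tendsto h2 atTop (nhds 0)) (hh3 : Tendsto h3 atTop (nhds 0))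
    (hs0 : ∀ᶠ w in atTop, 0 < s w ∧ s w ≤ 2 * σ ^ 2) (hb : ∀ᶠ w in atTop, |h1 w| ≤ 1) :
    Tendsto (fun w => ∫ θ, fbI σ m (s w) (h1 w) (h2 w) (h3 w) θ) atTop (nhds (∫ θ, fbI σ m (σ ^ 2) 0 0 0 θ)) := by
  have h3σ : 0 < 3 * σ := by positivity
  refine tendsto_integral_filter_of_dominated_convergence
    (fun θ => Real.exp (1 / (4 * σ ^ 2)) * (WW (3 * σ) m θ * (Real.sqrt (2 * Real.pi) * (2 * σ)))) ?_ ?_ ?_ ?_
  · exact Eventually.of_forall fun w => (fbI_meas σ m (s w) (h1 w) (h2 w) (h3 w)).aestronglyMeasurable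
  · filter_upwards [hs0, hb] with w h1' h2'
    exact Eventually.of_forall fun θ => fbI_le hσ m θ h1'.1 h1'.2 h2'
  · exact ((WW_int h3σ m).1.mul_const _).const_mul _
  · exact Eventually.of_forall fun θ => fbI_lim hσ m θ hs hh1 hh2 hh3 hs0 hb

theorem fbII_val {σ : ℝ} (hσ : 0 < σ) (m : ℝ) :
    ∫ θ, fbI σ m (σ ^ 2) 0 0 0 θ = 2 * Real.pi * σ ^ 2 / Real.sqrt 20 := by
  have h5 : 0 < Real.sqrt 5 := by positivity
  have h5' : Real.sqrt 5 ^ 2 = 5 := Real.sq_sqrt (by norm_num)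
  have hσ2 : 0 < σ / 2 := by positivity
  have hσ5 : 0 < σ / Real.sqrt 5 := by positivity
  have hk : ∀ θ t : ℝ, fbE σ m (σ ^ 2) 0 0 0 θ t =
      WW (σ / Real.sqrt 5) m θ * WW (σ / 2) (-(3 / 2) * (θ - m)) t := by
    intro θ t
    unfold fbE WW
    rw [← Real.exp_add, ← Real.exp_add, ← Real.exp_add, ← Real.exp_add, div_pow, h5']
    congr 1
    field_simp
    ring
  have hI : ∀ θ : ℝ, fbI σ m (σ ^ 2) 0 0 0 θ = WW (σ / Real.sqrt 5) m θ * (Real.sqrt (2 * Real.pi) * (σ / 2)) := by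
    intro θ
    unfold fbI
    simp_rw [hk]
    rw [integral_const_mul, (WW_int hσ2 _).2]
  simp_rw [hI]
  rw [integral_mul_const, (WW_int hσ5 _).2]
  have h20 : Real.sqrt 20 = 2 * Real.sqrt 5 := by
    rw [show (20 : ℝ) = 2 ^ 2 * 5 by norm_num, Real.sqrt_mul (by norm_num), Real.sqrt_sq (by norm_num)]
  have hp : Real.sqrt (2 * Real.pi) * Real.sqrt (2 * Real.pi) = 2 * Real.pi :=
    Real.mul_self_sqrt (by positivity)
  rw [h20]
  field_simp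
  nlinarith [hp]

theorem FourB_TF {σ δ : ℝ} (hσ : 0 < σ) (hδ : 0 < δ) (m w h1 h2 h3 : ℝ) :
    TF δ (muL σ (w + 0)) (up w h1 (muL σ (w + m))) (up w h2 (muL σ (w + 2 * m))) (up w h3 (muL σ (w + 3 * m))) =
      (Real.sqrt (2 * Real.pi) * (Real.exp w * δ * σ / Real.sqrt (σ ^ 2 + δ ^ 2))) ^ 3 *
        ∫ θ, fbI σ m (σ ^ 2 + δ ^ 2) h1 h2 h3 θ := by
  set A : ℝ := Real.sqrt (2 * Real.pi) * (Real.exp w * δ * σ / Real.sqrt (σ ^ 2 + δ ^ 2)) with hA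
  have hg : ∀ (h c y : ℝ), gsm δ (up w h (muL σ c)) y = A * Real.exp (-(y - h - c) ^ 2 / (2 * (σ ^ 2 + δ ^ 2))) := by
    intro h c y
    rw [gsm_up, FourB_conv hσ hδ, hA]
    ring
  unfold TF
  rw [← integral_const_mul]
  refine integral_congr_ae (Eventually.of_forall fun θ => ?_)
  simp only
  rw [muL_int, ← integral_add_right_eq_self _ w]
  unfold fbI
  rw [← integral_const_mul]
  refine integral_congr_ae (Eventually.of_forall fun t => ?_)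
  simp only
  rw [hg, hg, hg]
  unfold fbE WW
  rw [smul_eq_mul, show t + w - (w + 0) = t - 0 by ring, show t + w + θ - h1 - (w + m) = t + θ - m - h1 by ring,
    show t + w + 2 * θ - h2 - (w + 2 * m) = t + 2 * θ - 2 * m - h2 by ring,
    show t + w + 3 * θ - h3 - (w + 3 * m) = t + 3 * θ - 3 * m - h3 by ring]
  ring

theorem tf_lim {σ κ : ℝ} (m H1 H2 H3 : ℝ) (hσ : 0 < σ) (hκ : 0 < κ) :
    Tendsto (fun w : ℝ => TF (κ * Real.exp (-w)) (muL σ (w + 0)) (up w (H1 * Real.exp (-w)) (muL σ (w + m)))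
        (up w (H2 * Real.exp (-w)) (muL σ (w + 2 * m))) (up w (H3 * Real.exp (-w)) (muL σ (w + 3 * m)))) atTop
      (nhds ((Real.sqrt (2 * Real.pi) * κ) ^ 3 * (2 * Real.pi * σ ^ 2 / Real.sqrt 20))) := by
  have he : Tendsto (fun w : ℝ => Real.exp (-w)) atTop (nhds 0) := Real.tendsto_exp_neg_atTop_nhds_zero
  have hH : ∀ H : ℝ, Tendsto (fun w : ℝ => H * Real.exp (-w)) atTop (nhds 0) := by
    intro H
    simpa using he.const_mul H
  have hs : Tendsto (fun w : ℝ => σ ^ 2 + (κ * Real.exp (-w)) ^ 2) atTop (nhds (σ ^ 2)) := by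
    simpa using tendsto_const_nhds.add ((hH κ).pow 2)
  have hs0 : ∀ᶠ w : ℝ in atTop, 0 < σ ^ 2 + (κ * Real.exp (-w)) ^ 2 ∧ σ ^ 2 + (κ * Real.exp (-w)) ^ 2 ≤ 2 * σ ^ 2 := by
    have h1 : σ ^ 2 < 2 * σ ^ 2 := by nlinarith [sq_pos_of_pos hσ]
    filter_upwards [hs.eventually_lt_const h1] with w hw
    exact ⟨by positivity, hw.le⟩
  have hb : ∀ᶠ w : ℝ in atTop, |H1 * Real.exp (-w)| ≤ 1 := by
    have h1 : Tendsto (fun w : ℝ => |H1 * Real.exp (-w)|) atTop (nhds 0) := by simpa using (hH H1).abs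
    filter_upwards [h1.eventually_lt_const one_pos] with w hw
    exact hw.le
  have hA : Tendsto (fun w : ℝ => (Real.sqrt (2 * Real.pi) * (Real.exp w * (κ * Real.exp (-w)) * σ /
      Real.sqrt (σ ^ 2 + (κ * Real.exp (-w)) ^ 2))) ^ 3) atTop (nhds ((Real.sqrt (2 * Real.pi) * κ) ^ 3)) := by
    refine Tendsto.pow (Tendsto.const_mul _ ?_) 3
    have e1 : ∀ w : ℝ, Real.exp w * (κ * Real.exp (-w)) * σ = κ * σ := by
      intro w
      have : Real.exp w * Real.exp (-w) = 1 := by rw [← Real.exp_add]; simp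
      calc _ = (Real.exp w * Real.exp (-w)) * (κ * σ) := by ring
        _ = _ := by rw [this, one_mul]
    simp_rw [e1]
    have h2 : Tendsto (fun w : ℝ => κ * σ / Real.sqrt (σ ^ 2 + (κ * Real.exp (-w)) ^ 2)) atTop
        (nhds (κ * σ / Real.sqrt (σ ^ 2))) :=
      tendsto_const_nhds.div ((Real.continuous_sqrt.tendsto _).comp hs) (by positivity)
    rwa [Real.sqrt_sq hσ.le, mul_div_assoc, div_self hσ.ne', mul_one] at h2
  have hfin := hA.mul (fbII_lim hσ m hs (hH H1) (hH H2) (hH H3) hs0 hb)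
  rw [fbII_val hσ m] at hfin
  refine hfin.congr fun w => ?_
  rw [FourB_TF hσ (by positivity : 0 < κ * Real.exp (-w))]

end HLA
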