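import Pool.Agent.HLA.Gsm

/-!
# HLA.FourC: the weighted number of the prime quadruples

PROOF. `t4_summable`: the terms are at most the products of four terms `tw n WW σ c (log n)` (`muP_summ`; the quadratic form `l1² + l2² - (2 l1 + 3 l2)²/14` is `≥ 0` by Cauchy-Schwarz,
`(2 l1 + 3 l2)² ≤ 13 (l1² + l2²)`); `Summable.mul_of_nonneg`. `tf_eq`: `δ = κ e^(-w)`, `xi = log qi`, `e^w · gsm`: `gsm δ (up w (H e^(-w)) (muP σ c)) y = e^w ∑ tw(q) WW σ c (log q) exp(-(e^w (y - log q) - H)²/(2κ²))`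
(`gsm_up`, `muS_int`). So (`muS_int` for `μ0`, interchange of sums and the integral over `θ`, everything is nonnegative and summable) with `Vi = e^w (xi - x0) + Hi`, `H = (0, -h1, -h2)`:
`TF = ∑_q (∏ tw) (∏ WW) e^(3w) ∫ exp(-∑_{i=1}^3 (i e^w θ - Vi)²/(2κ²)) dθ`, and `∑ (i X - Vi)² = 14 (X - (V1+2V2+3V3)/14)² + |V|² - (V1+2V2+3V3)²/14`, so the integral is
`e^(-w) κ √(2π/14) exp(-Q/(2κ²))`, `Q = |V|² - (V1+2V2+3V3)²/14 = l1² + l2² - (2 l1 + 3 l2)²/14` with `l1 = V2 - 2V1 = e^w (x0 - 2x1 + x2) - h1`, `l2 = V3 - 3V1 = e^w (2x0 - 3x1 + x3) - h2` (`ring`).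
-/

namespace HLA

open MeasureTheory ArithmeticFunction SMC Filter

/-- The coefficient. -/
private noncomputable def fcA (σ c : ℝ) (n : ℕ) : ℝ := tw n * WW σ c (Real.log n)

private theorem fcA_nonneg (σ c : ℝ) (n : ℕ) : 0 ≤ fcA σ c n := mul_nonneg (tw_nonneg n) (WW_nonneg _ _ _)

private theorem fcA_summ {σ : ℝ} (hσ : 0 < σ) (hσ1 : σ ≤ 1) (c : ℝ) : Summable (fcA σ c) := muP_summ hσ hσ1 c

/-- Product of four summable families. -/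
private theorem fc_sum4 {f0 f1 f2 f3 : ℕ → ℝ} (h0 : ∀ n, 0 ≤ f0 n) (h1 : ∀ n, 0 ≤ f1 n) (h2 : ∀ n, 0 ≤ f2 n)
    (h3 : ∀ n, 0 ≤ f3 n) (s0 : Summable f0) (s1 : Summable f1) (s2 : Summable f2) (s3 : Summable f3) :
    Summable (fun q : ℕ × ℕ × ℕ × ℕ => f0 q.1 * (f1 q.2.1 * (f2 q.2.2.1 * f3 q.2.2.2))) := by
  have h23 : Summable (fun q : ℕ × ℕ => f2 q.1 * f3 q.2) := s2.mul_of_nonneg s3 (fun n => h2 n) (fun n => h3 n)
  have h123 : Summable (fun q : ℕ × ℕ × ℕ => f1 q.1 * (f2 q.2.1 * f3 q.2.2)) :=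
    s1.mul_of_nonneg h23 (fun n => h1 n) (fun q => mul_nonneg (h2 _) (h3 _))
  exact s0.mul_of_nonneg h123 (fun n => h0 n) (fun q => mul_nonneg (h1 _) (mul_nonneg (h2 _) (h3 _)))

/-- The product of three sums. -/
private theorem fc_tsum3 {f1 f2 f3 : ℕ → ℝ} (h1 : ∀ n, 0 ≤ f1 n) (h2 : ∀ n, 0 ≤ f2 n)
    (h3 : ∀ n, 0 ≤ f3 n) (s1 : Summable f1) (s2 : Summable f2) (s3 : Summable f3) :
    (∑' n, f1 n) * ((∑' n, f2 n) * ∑' n, f3 n) = ∑' q : ℕ × ℕ × ℕ, f1 q.1 * (f2 q.2.1 * f3 q.2.2) := by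
  have h23 : Summable (fun q : ℕ × ℕ => f2 q.1 * f3 q.2) := s2.mul_of_nonneg s3 (fun n => h2 n) (fun n => h3 n)
  have h123 : Summable (fun q : ℕ × ℕ × ℕ => f1 q.1 * (f2 q.2.1 * f3 q.2.2)) :=
    s1.mul_of_nonneg h23 (fun n => h1 n) (fun q => mul_nonneg (h2 _) (h3 _))
  rw [s2.tsum_mul_tsum s3 h23, s1.tsum_mul_tsum h23 h123]

/-- The Gaussian integral over `θ`. -/
private theorem fc_gauss {δ : ℝ} (hδ : 0 < δ) (a1 a2 a3 : ℝ) :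
    Integrable (fun θ : ℝ => Real.exp (-(a1 + θ) ^ 2 / (2 * δ ^ 2)) *
        (Real.exp (-(a2 + 2 * θ) ^ 2 / (2 * δ ^ 2)) * Real.exp (-(a3 + 3 * θ) ^ 2 / (2 * δ ^ 2)))) ∧
      ∫ θ : ℝ, Real.exp (-(a1 + θ) ^ 2 / (2 * δ ^ 2)) *
        (Real.exp (-(a2 + 2 * θ) ^ 2 / (2 * δ ^ 2)) * Real.exp (-(a3 + 3 * θ) ^ 2 / (2 * δ ^ 2))) =
      δ * Real.sqrt (2 * Real.pi / 14) *
        Real.exp (-(a1 ^ 2 + a2 ^ 2 + a3 ^ 2 - (a1 + 2 * a2 + 3 * a3) ^ 2 / 14) / (2 * δ ^ 2)) := by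
  have h14 : (0 : ℝ) < Real.sqrt 14 := by positivity
  have hd : 0 < δ / Real.sqrt 14 := by positivity
  have he : (fun θ : ℝ => Real.exp (-(a1 + θ) ^ 2 / (2 * δ ^ 2)) *
        (Real.exp (-(a2 + 2 * θ) ^ 2 / (2 * δ ^ 2)) * Real.exp (-(a3 + 3 * θ) ^ 2 / (2 * δ ^ 2)))) =
      fun θ : ℝ => Real.exp (-(a1 ^ 2 + a2 ^ 2 + a3 ^ 2 - (a1 + 2 * a2 + 3 * a3) ^ 2 / 14) / (2 * δ ^ 2)) *
        WW (δ / Real.sqrt 14) (-(a1 + 2 * a2 + 3 * a3) / 14) θ := by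
    funext θ
    unfold WW
    rw [← Real.exp_add, ← Real.exp_add, ← Real.exp_add]
    congr 1
    rw [div_pow, Real.sq_sqrt (by norm_num : (0 : ℝ) ≤ 14)]
    field_simp
    ring
  obtain ⟨w1, w2⟩ := WW_int hd (-(a1 + 2 * a2 + 3 * a3) / 14)
  constructor
  · rw [he]
    exact w1.const_mul _
  · rw [he, integral_const_mul, w2, Real.sqrt_div (by positivity)]
    ring

/-- The formula for the smoothing. -/
private theorem fc_gsm {σ δ : ℝ} (hσ : 0 < σ) (hσ1 : σ ≤ 1) (w H c y : ℝ) :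
    gsm δ (up w H (muP σ c)) y =
      Real.exp w * ∑' n : ℕ, fcA σ c n * Real.exp (-(y - H - Real.log n) ^ 2 / (2 * δ ^ 2)) := by
  have hs := muP_summ hσ hσ1 c
  have hfin : IsFiniteMeasure (muS tw σ c) := (muS_fin tw_nonneg hs).1
  rw [gsm_up]
  congr 1
  unfold gsm muP
  rw [muS_int tw_nonneg hs (gsm_intble δ _ (y - H))]
  rfl

private theorem fc_e_le_one (δ z : ℝ) : Real.exp (-z ^ 2 / (2 * δ ^ 2)) ≤ 1 := by
  rw [Real.exp_le_one_iff]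
  exact div_nonpos_of_nonpos_of_nonneg (neg_nonpos.mpr (sq_nonneg _)) (by positivity)

/-- The terms. -/
private noncomputable def fcT (σ δ c0 c1 c2 c3 H1 H2 H3 θ : ℝ) (q : ℕ × ℕ × ℕ × ℕ) : ℝ :=
  fcA σ c0 q.1 * ((fcA σ c1 q.2.1 * Real.exp (-(Real.log q.1 + θ - H1 - Real.log q.2.1) ^ 2 / (2 * δ ^ 2))) *
    ((fcA σ c2 q.2.2.1 * Real.exp (-(Real.log q.1 + 2 * θ - H2 - Real.log q.2.2.1) ^ 2 / (2 * δ ^ 2))) *
      (fcA σ c3 q.2.2.2 * Real.exp (-(Real.log q.1 + 3 * θ - H3 - Real.log q.2.2.2) ^ 2 / (2 * δ ^ 2)))))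

private theorem fcAe_nonneg (σ c δ z : ℝ) (n : ℕ) : 0 ≤ fcA σ c n * Real.exp (-z ^ 2 / (2 * δ ^ 2)) :=
  mul_nonneg (fcA_nonneg _ _ _) (Real.exp_pos _).le

private theorem fcAe_le (σ c δ z : ℝ) (n : ℕ) : fcA σ c n * Real.exp (-z ^ 2 / (2 * δ ^ 2)) ≤ fcA σ c n :=
  mul_le_of_le_one_right (fcA_nonneg _ _ _) (fc_e_le_one _ _)

private theorem fcT_nonneg (σ δ c0 c1 c2 c3 H1 H2 H3 θ : ℝ) (q : ℕ × ℕ × ℕ × ℕ) :
    0 ≤ fcT σ δ c0 c1 c2 c3 H1 H2 H3 θ q :=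
  mul_nonneg (fcA_nonneg _ _ _) (mul_nonneg (fcAe_nonneg _ _ _ _ _)
    (mul_nonneg (fcAe_nonneg _ _ _ _ _) (fcAe_nonneg _ _ _ _ _)))

private theorem fcT_le (σ δ c0 c1 c2 c3 H1 H2 H3 θ : ℝ) (q : ℕ × ℕ × ℕ × ℕ) :
    fcT σ δ c0 c1 c2 c3 H1 H2 H3 θ q ≤
      fcA σ c0 q.1 * (fcA σ c1 q.2.1 * (fcA σ c2 q.2.2.1 * fcA σ c3 q.2.2.2)) := by
  unfold fcT
  refine mul_le_mul_of_nonneg_left ?_ (fcA_nonneg _ _ _)
  refine mul_le_mul (fcAe_le _ _ _ _ _) ?_ (mul_nonneg (fcAe_nonneg _ _ _ _ _) (fcAe_nonneg _ _ _ _ _))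
    (fcA_nonneg _ _ _)
  exact mul_le_mul (fcAe_le _ _ _ _ _) (fcAe_le _ _ _ _ _) (fcAe_nonneg _ _ _ _ _) (fcA_nonneg _ _ _)

private theorem fcP_summ {σ : ℝ} (hσ : 0 < σ) (hσ1 : σ ≤ 1) (c0 c1 c2 c3 : ℝ) :
    Summable (fun q : ℕ × ℕ × ℕ × ℕ => fcA σ c0 q.1 * (fcA σ c1 q.2.1 * (fcA σ c2 q.2.2.1 * fcA σ c3 q.2.2.2))) :=
  fc_sum4 (fcA_nonneg _ _) (fcA_nonneg _ _) (fcA_nonneg _ _) (fcA_nonneg _ _) (fcA_summ hσ hσ1 _)
    (fcA_summ hσ hσ1 _) (fcA_summ hσ hσ1 _) (fcA_summ hσ hσ1 _)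

private theorem fcT_summ {σ : ℝ} (hσ : 0 < σ) (hσ1 : σ ≤ 1) (δ c0 c1 c2 c3 H1 H2 H3 θ : ℝ) :
    Summable (fcT σ δ c0 c1 c2 c3 H1 H2 H3 θ) :=
  Summable.of_nonneg_of_le (fcT_nonneg _ _ _ _ _ _ _ _ _ _) (fcT_le _ _ _ _ _ _ _ _ _ _)
    (fcP_summ hσ hσ1 c0 c1 c2 c3)

private theorem fcAe_summ {σ : ℝ} (hσ : 0 < σ) (hσ1 : σ ≤ 1) (c δ : ℝ) (z : ℕ → ℝ) :
    Summable fun n : ℕ => fcA σ c n * Real.exp (-(z n) ^ 2 / (2 * δ ^ 2)) :=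
  Summable.of_nonneg_of_le (fun n => fcAe_nonneg _ _ _ _ _) (fun n => fcAe_le _ _ _ _ _) (fcA_summ hσ hσ1 c)

private theorem up_fin (w h : ℝ) (μ : Measure ℝ) [IsFiniteMeasure μ] : IsFiniteMeasure (up w h μ) := by
  have h1 : IsFiniteMeasure (ENNReal.ofReal (Real.exp w) • μ) := Measure.smul_finite μ ENNReal.ofReal_ne_top
  unfold up
  infer_instance

/-- The inner integral. -/
private theorem fc_inner {σ : ℝ} (hσ : 0 < σ) (hσ1 : σ ≤ 1) (δ w c0 c1 c2 c3 H1 H2 H3 θ : ℝ) :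
    ∫ x, gsm δ (up w H1 (muP σ c1)) (x + θ) * gsm δ (up w H2 (muP σ c2)) (x + 2 * θ) *
        gsm δ (up w H3 (muP σ c3)) (x + 3 * θ) ∂(muP σ c0) =
      Real.exp w ^ 3 * ∑' q : ℕ × ℕ × ℕ × ℕ, fcT σ δ c0 c1 c2 c3 H1 H2 H3 θ q := by
  have hs := muP_summ hσ hσ1
  have hfin : ∀ c, IsFiniteMeasure (muP σ c) := fun c => (muS_fin tw_nonneg (hs c)).1
  have i0 : IsFiniteMeasure (muS tw σ c0) := hfin c0
  have f1 := hfin c1
  have f2 := hfin c2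
  have f3 := hfin c3
  have u1 := up_fin w H1 (muP σ c1)
  have u2 := up_fin w H2 (muP σ c2)
  have u3 := up_fin w H3 (muP σ c3)
  have k1 := gsm_cont δ (up w H1 (muP σ c1))
  have k2 := gsm_cont δ (up w H2 (muP σ c2))
  have k3 := gsm_cont δ (up w H3 (muP σ c3))
  have hint : Integrable (fun x : ℝ => gsm δ (up w H1 (muP σ c1)) (x + θ) * gsm δ (up w H2 (muP σ c2)) (x + 2 * θ) *
        gsm δ (up w H3 (muP σ c3)) (x + 3 * θ)) (muS tw σ c0) := by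
    refine bdd_intble (B := (up w H1 (muP σ c1) Set.univ).toReal * (up w H2 (muP σ c2) Set.univ).toReal *
      (up w H3 (muP σ c3) Set.univ).toReal) (Continuous.stronglyMeasurable (by fun_prop)) fun x => ?_
    rw [Real.norm_eq_abs, abs_of_nonneg (mul_nonneg (mul_nonneg (gsm_nonneg _ _ _) (gsm_nonneg _ _ _))
      (gsm_nonneg _ _ _))]
    refine mul_le_mul (mul_le_mul (gsm_le_mass _ _ _) (gsm_le_mass _ _ _) (gsm_nonneg _ _ _) ENNReal.toReal_nonneg)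
      (gsm_le_mass _ _ _) (gsm_nonneg _ _ _) (mul_nonneg ENNReal.toReal_nonneg ENNReal.toReal_nonneg)
  have h1 : ∫ x, gsm δ (up w H1 (muP σ c1)) (x + θ) * gsm δ (up w H2 (muP σ c2)) (x + 2 * θ) *
        gsm δ (up w H3 (muP σ c3)) (x + 3 * θ) ∂(muP σ c0) =
      ∑' n : ℕ, Real.exp w ^ 3 * ∑' q : ℕ × ℕ × ℕ, fcT σ δ c0 c1 c2 c3 H1 H2 H3 θ (n, q) := by
    unfold muP at hint ⊢
    rw [muS_int tw_nonneg (hs c0) hint]
    refine tsum_congr fun n => ?_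
    rw [smul_eq_mul]
    change fcA σ c0 n * (gsm δ (up w H1 (muP σ c1)) (Real.log n + θ) *
      gsm δ (up w H2 (muP σ c2)) (Real.log n + 2 * θ) * gsm δ (up w H3 (muP σ c3)) (Real.log n + 3 * θ)) = _
    rw [fc_gsm hσ hσ1, fc_gsm hσ hσ1, fc_gsm hσ hσ1]
    have h3 := fc_tsum3 (fun m => fcAe_nonneg σ c1 δ (Real.log n + θ - H1 - Real.log m) m)
      (fun m => fcAe_nonneg σ c2 δ (Real.log n + 2 * θ - H2 - Real.log m) m)
      (fun m => fcAe_nonneg σ c3 δ (Real.log n + 3 * θ - H3 - Real.log m) m)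
      (fcAe_summ hσ hσ1 c1 δ _) (fcAe_summ hσ hσ1 c2 δ _) (fcAe_summ hσ hσ1 c3 δ _)
    have h4 : ∑' q : ℕ × ℕ × ℕ, fcT σ δ c0 c1 c2 c3 H1 H2 H3 θ (n, q) = fcA σ c0 n * ∑' q : ℕ × ℕ × ℕ,
        (fcA σ c1 q.1 * Real.exp (-(Real.log n + θ - H1 - Real.log q.1) ^ 2 / (2 * δ ^ 2)) *
          ((fcA σ c2 q.2.1 * Real.exp (-(Real.log n + 2 * θ - H2 - Real.log q.2.1) ^ 2 / (2 * δ ^ 2))) *
            (fcA σ c3 q.2.2 * Real.exp (-(Real.log n + 3 * θ - H3 - Real.log q.2.2) ^ 2 / (2 * δ ^ 2))))) := by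
      rw [← tsum_mul_left]
      rfl
    rw [h4, ← h3]
    ring
  rw [h1, tsum_mul_left, (fcT_summ hσ hσ1 δ c0 c1 c2 c3 H1 H2 H3 θ).tsum_prod]

/-- The quadratic form. -/
private noncomputable def fcQ (c1 c2 c3 : ℝ) : ℝ :=
  c1 ^ 2 + c2 ^ 2 + c3 ^ 2 - (c1 + 2 * c2 + 3 * c3) ^ 2 / 14

private theorem fcQ_nonneg (a1 a2 a3 : ℝ) : 0 ≤ fcQ a1 a2 a3 := by
  unfold fcQ
  nlinarith [sq_nonneg (2 * a1 - a2), sq_nonneg (3 * a1 - a3), sq_nonneg (3 * a2 - 2 * a3)]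

/-- The integral of a term. -/
private theorem fcT_int {δ : ℝ} (hδ : 0 < δ) (σ c0 c1 c2 c3 H1 H2 H3 : ℝ) (q : ℕ × ℕ × ℕ × ℕ) :
    Integrable (fun θ : ℝ => fcT σ δ c0 c1 c2 c3 H1 H2 H3 θ q) ∧
    ∫ θ : ℝ, fcT σ δ c0 c1 c2 c3 H1 H2 H3 θ q =
      fcA σ c0 q.1 * (fcA σ c1 q.2.1 * (fcA σ c2 q.2.2.1 * fcA σ c3 q.2.2.2)) *
        (δ * Real.sqrt (2 * Real.pi / 14) * Real.exp (-(fcQ (Real.log q.1 - H1 - Real.log q.2.1)
          (Real.log q.1 - H2 - Real.log q.2.2.1) (Real.log q.1 - H3 - Real.log q.2.2.2)) / (2 * δ ^ 2))) := by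
  obtain ⟨g1, g2⟩ := fc_gauss hδ (Real.log q.1 - H1 - Real.log q.2.1)
          (Real.log q.1 - H2 - Real.log q.2.2.1) (Real.log q.1 - H3 - Real.log q.2.2.2)
  have he : (fun θ : ℝ => fcT σ δ c0 c1 c2 c3 H1 H2 H3 θ q) = fun θ : ℝ =>
      fcA σ c0 q.1 * (fcA σ c1 q.2.1 * (fcA σ c2 q.2.2.1 * fcA σ c3 q.2.2.2)) *
      (Real.exp (-((Real.log q.1 - H1 - Real.log q.2.1) + θ) ^ 2 / (2 * δ ^ 2)) *
        (Real.exp (-((Real.log q.1 - H2 - Real.log q.2.2.1) + 2 * θ) ^ 2 / (2 * δ ^ 2)) *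
          Real.exp (-((Real.log q.1 - H3 - Real.log q.2.2.2) + 3 * θ) ^ 2 / (2 * δ ^ 2)))) := by
    funext θ
    unfold fcT
    have e1 : Real.log q.1 + θ - H1 - Real.log q.2.1 = (Real.log q.1 - H1 - Real.log q.2.1) + θ := by ring
    have e2 : Real.log q.1 + 2 * θ - H2 - Real.log q.2.2.1 = (Real.log q.1 - H2 - Real.log q.2.2.1) + 2 * θ := by ring
    have e3 : Real.log q.1 + 3 * θ - H3 - Real.log q.2.2.2 = (Real.log q.1 - H3 - Real.log q.2.2.2) + 3 * θ := by ring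
    rw [e1, e2, e3]
    ring
  constructor
  · rw [he]
    exact g1.const_mul _
  · rw [he, integral_const_mul, g2]
    rfl

/-- The general formula. -/
private theorem fc_main {σ δ : ℝ} (hσ : 0 < σ) (hσ1 : σ ≤ 1) (hδ : 0 < δ) (w c0 c1 c2 c3 H1 H2 H3 : ℝ) :
    TF δ (muP σ c0) (up w H1 (muP σ c1)) (up w H2 (muP σ c2)) (up w H3 (muP σ c3)) =
      Real.exp w ^ 3 * (δ * Real.sqrt (2 * Real.pi / 14)) * ∑' q : ℕ × ℕ × ℕ × ℕ,
        fcA σ c0 q.1 * (fcA σ c1 q.2.1 * (fcA σ c2 q.2.2.1 * fcA σ c3 q.2.2.2)) *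
        Real.exp (-(fcQ (Real.log q.1 - H1 - Real.log q.2.1)
          (Real.log q.1 - H2 - Real.log q.2.2.1) (Real.log q.1 - H3 - Real.log q.2.2.2)) / (2 * δ ^ 2)) := by
  unfold TF
  simp only [fc_inner hσ hσ1]
  rw [integral_const_mul]
  have hsw := integral_tsum_of_summable_integral_norm (μ := volume)
    (F := fun (q : ℕ × ℕ × ℕ × ℕ) (θ : ℝ) => fcT σ δ c0 c1 c2 c3 H1 H2 H3 θ q)
    (fun q => (fcT_int hδ σ c0 c1 c2 c3 H1 H2 H3 q).1) (by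
      have hn : (fun q : ℕ × ℕ × ℕ × ℕ => ∫ θ : ℝ, ‖fcT σ δ c0 c1 c2 c3 H1 H2 H3 θ q‖) =
          fun q : ℕ × ℕ × ℕ × ℕ => ∫ θ : ℝ, fcT σ δ c0 c1 c2 c3 H1 H2 H3 θ q := by
        funext q
        refine integral_congr_ae (ae_of_all _ fun θ => ?_)
        simp only
        rw [Real.norm_eq_abs, abs_of_nonneg (fcT_nonneg _ _ _ _ _ _ _ _ _ _ _)]
      rw [hn]
      refine Summable.of_nonneg_of_le (fun q => integral_nonneg fun θ => fcT_nonneg _ _ _ _ _ _ _ _ _ _ _)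
        (fun q => ?_) ((fcP_summ hσ hσ1 c0 c1 c2 c3).mul_right (δ * Real.sqrt (2 * Real.pi / 14)))
      rw [(fcT_int hδ σ c0 c1 c2 c3 H1 H2 H3 q).2]
      refine mul_le_mul_of_nonneg_left ?_ (mul_nonneg (fcA_nonneg _ _ _) (mul_nonneg (fcA_nonneg _ _ _)
        (mul_nonneg (fcA_nonneg _ _ _) (fcA_nonneg _ _ _))))
      refine mul_le_of_le_one_right (by positivity) ?_
      rw [Real.exp_le_one_iff]
      exact div_nonpos_of_nonpos_of_nonneg (neg_nonpos.mpr (fcQ_nonneg _ _ _)) (by positivity))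
  rw [← hsw]
  simp only [(fcT_int hδ σ c0 c1 c2 c3 H1 H2 H3 _).2]
  rw [mul_assoc, ← tsum_mul_left (a := δ * Real.sqrt (2 * Real.pi / 14))]
  congr 1
  refine tsum_congr fun q => ?_
  ring

theorem t4_summable {σ κ : ℝ} (w μ h1 h2 : ℝ) (hσ : 0 < σ) (hσ1 : σ ≤ 1) (hκ : 0 < κ) :
    Summable (fun q : ℕ × ℕ × ℕ × ℕ => tw q.1 * tw q.2.1 * tw q.2.2.1 * tw q.2.2.2 *
      Real.exp (-ex4 σ κ w μ h1 h2 q)) := by
  refine Summable.of_nonneg_of_le (fun q => ?_) (fun q => ?_)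
    (fcP_summ hσ hσ1 w (w + Real.log μ) (w + 2 * Real.log μ) (w + 3 * Real.log μ))
  · exact mul_nonneg (mul_nonneg (mul_nonneg (mul_nonneg (tw_nonneg _) (tw_nonneg _)) (tw_nonneg _)) (tw_nonneg _))
      (Real.exp_pos _).le
  · have he : Real.exp (-ex4 σ κ w μ h1 h2 q) ≤ WW σ w (Real.log q.1) * (WW σ (w + Real.log μ) (Real.log q.2.1) *
        (WW σ (w + 2 * Real.log μ) (Real.log q.2.2.1) * WW σ (w + 3 * Real.log μ) (Real.log q.2.2.2))) := by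
      unfold WW
      rw [← Real.exp_add, ← Real.exp_add, ← Real.exp_add, Real.exp_le_exp]
      unfold ex4
      have hq : 0 ≤ ((Real.exp w * (Real.log q.1 - 2 * Real.log q.2.1 + Real.log q.2.2.1) - h1) ^ 2 +
          (Real.exp w * (2 * Real.log q.1 - 3 * Real.log q.2.1 + Real.log q.2.2.2) - h2) ^ 2 -
          (2 * (Real.exp w * (Real.log q.1 - 2 * Real.log q.2.1 + Real.log q.2.2.1) - h1) +
            3 * (Real.exp w * (2 * Real.log q.1 - 3 * Real.log q.2.1 + Real.log q.2.2.2) - h2)) ^ 2 / 14) /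
          (2 * κ ^ 2) := by
        refine div_nonneg ?_ (by positivity)
        have := fcQ_nonneg 0 (Real.exp w * (Real.log q.1 - 2 * Real.log q.2.1 + Real.log q.2.2.1) - h1)
          (Real.exp w * (2 * Real.log q.1 - 3 * Real.log q.2.1 + Real.log q.2.2.2) - h2)
        unfold fcQ at this
        nlinarith [this]
      have e : -(((Real.log q.1 - w) ^ 2 + (Real.log q.2.1 - w - Real.log μ) ^ 2 +
          (Real.log q.2.2.1 - w - 2 * Real.log μ) ^ 2 + (Real.log q.2.2.2 - w - 3 * Real.log μ) ^ 2) / (2 * σ ^ 2)) =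
          -(Real.log q.1 - w) ^ 2 / (2 * σ ^ 2) + (-(Real.log q.2.1 - (w + Real.log μ)) ^ 2 / (2 * σ ^ 2) +
          (-(Real.log q.2.2.1 - (w + 2 * Real.log μ)) ^ 2 / (2 * σ ^ 2) +
            -(Real.log q.2.2.2 - (w + 3 * Real.log μ)) ^ 2 / (2 * σ ^ 2))) := by
        ring
      rw [neg_add, e]
      linarith
    have ht : 0 ≤ tw q.1 * tw q.2.1 * tw q.2.2.1 * tw q.2.2.2 :=
      mul_nonneg (mul_nonneg (mul_nonneg (tw_nonneg _) (tw_nonneg _)) (tw_nonneg _)) (tw_nonneg _)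
    refine (mul_le_mul_of_nonneg_left he ht).trans (le_of_eq ?_)
    unfold fcA
    ring

theorem tf_eq {σ κ : ℝ} (w m h1 h2 : ℝ) (hσ : 0 < σ) (hσ1 : σ ≤ 1) (hκ : 0 < κ) :
    TF (κ * Real.exp (-w)) (muP σ (w + 0)) (up w (0 * Real.exp (-w)) (muP σ (w + m)))
        (up w (-h1 * Real.exp (-w)) (muP σ (w + 2 * m))) (up w (-h2 * Real.exp (-w)) (muP σ (w + 3 * m))) =
      κ * Real.sqrt (2 * Real.pi / 14) * (Real.exp (2 * w) * T4 σ κ w (Real.exp m) h1 h2) := by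
  have hδ : 0 < κ * Real.exp (-w) := mul_pos hκ (Real.exp_pos _)
  rw [fc_main hσ hσ1 hδ]
  have hw : Real.exp (-w) = (Real.exp w)⁻¹ := Real.exp_neg w
  have h2w : Real.exp (2 * w) = Real.exp w ^ 2 := by
    rw [← Real.exp_nat_mul]
    norm_num
  have hne : Real.exp w ≠ 0 := (Real.exp_pos w).ne'
  have hκne : κ ≠ 0 := hκ.ne'
  have hσne : σ ≠ 0 := hσ.ne'
  have hc : Real.exp w ^ 3 * (κ * Real.exp (-w) * Real.sqrt (2 * Real.pi / 14)) =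
      κ * Real.sqrt (2 * Real.pi / 14) * Real.exp (2 * w) := by
    rw [hw, h2w]
    field_simp
  rw [hc, ← mul_assoc]
  congr 1
  unfold T4
  refine tsum_congr fun q => ?_
  have he : WW σ (w + 0) (Real.log q.1) * (WW σ (w + m) (Real.log q.2.1) *
        (WW σ (w + 2 * m) (Real.log q.2.2.1) * WW σ (w + 3 * m) (Real.log q.2.2.2))) *
      Real.exp (-(fcQ (Real.log q.1 - 0 * Real.exp (-w) - Real.log q.2.1)
          (Real.log q.1 - -h1 * Real.exp (-w) - Real.log q.2.2.1)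
          (Real.log q.1 - -h2 * Real.exp (-w) - Real.log q.2.2.2)) / (2 * (κ * Real.exp (-w)) ^ 2)) =
      Real.exp (-ex4 σ κ w (Real.exp m) h1 h2 q) := by
    unfold WW
    rw [← Real.exp_add, ← Real.exp_add, ← Real.exp_add, ← Real.exp_add]
    congr 1
    unfold ex4 fcQ
    rw [Real.log_exp, hw]
    field_simp
    ring
  rw [← he]
  unfold fcA
  ring

end HLA
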