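import Pool.Agent.HLA.Mu

/-!
# HLA.Gsm: basic facts on the Gaussian smoothing `gsm` and on `DD`

PROOF. `gsm_cont`: `continuous_of_dominated` (bound `1`). `gsm_int`: Fubini (`integrable_prod_iff'` as in `ASI/Planch.lean`), the inner integral over `y` is
`√(2π) δ`. `gsm_two`: `exp(-x²/(4δ²)) = (1/(√π δ)) ∫ exp(-(x-z)²/(2δ²)) exp(-z²/(2δ²)) dz`, so
`gsm (√2 δ) μ y = (1/(√π δ)) ∫ gsm δ μ (y - z) exp(-z²/(2δ²)) dz ≤ √2 B` (Fubini or `lintegral`). `gsm_map`: `integral_map` (measurable embedding `x ↦ x + h`).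
`adm_map`: `gsm_map` and the mass of the image measure. `dd_shift`: `gsm_map` and `a y + b (x + h) = (a y + b x) + b h`.
`dd_bound`: `|K g1 g2| ≤ |K| B²`, `∫ |K| ≤ B`. `dd_cont`: dominated convergence with the bound `|K| B²`.
-/

namespace HLA

open MeasureTheory ArithmeticFunction SMC

theorem gsm_nonneg (δ : ℝ) (μ : Measure ℝ) (y : ℝ) : 0 ≤ gsm δ μ y := by
  unfold gsm
  exact integral_nonneg fun x => (Real.exp_pos _).le

private theorem gk_cont (δ : ℝ) : Continuous fun q : ℝ × ℝ => Real.exp (-(q.1 - q.2) ^ 2 / (2 * δ ^ 2)) := by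
  fun_prop

private theorem gk_le_one (δ y x : ℝ) : Real.exp (-(y - x) ^ 2 / (2 * δ ^ 2)) ≤ 1 := by
  rw [Real.exp_le_one_iff]
  exact div_nonpos_of_nonpos_of_nonneg (neg_nonpos.mpr (sq_nonneg _)) (by positivity)

theorem gsm_intble (δ : ℝ) (μ : Measure ℝ) [IsFiniteMeasure μ] (y : ℝ) :
    Integrable (fun x => Real.exp (-(y - x) ^ 2 / (2 * δ ^ 2))) μ := by
  refine Integrable.mono' (integrable_const (1 : ℝ)) ?_ ?_
  · exact ((gk_cont δ).comp (Continuous.prodMk_right y)).aestronglyMeasurable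
  · refine Filter.Eventually.of_forall fun x => ?_
    rw [Real.norm_eq_abs, abs_of_pos (Real.exp_pos _)]
    exact gk_le_one δ y x

theorem gsm_le_mass (δ : ℝ) (μ : Measure ℝ) [IsFiniteMeasure μ] (y : ℝ) : gsm δ μ y ≤ (μ Set.univ).toReal := by
  unfold gsm
  refine (integral_mono (gsm_intble δ μ y) (integrable_const (1 : ℝ)) fun x => gk_le_one δ y x).trans (le_of_eq ?_)
  rw [integral_const, smul_eq_mul, mul_one]
  rfl

theorem gsm_cont (δ : ℝ) (μ : Measure ℝ) [IsFiniteMeasure μ] : Continuous (gsm δ μ) := by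
  unfold gsm
  refine continuous_of_dominated (bound := fun _ => 1) ?_ ?_ (integrable_const (1 : ℝ)) ?_
  · intro y
    exact ((gk_cont δ).comp (Continuous.prodMk_right y)).aestronglyMeasurable
  · intro y
    refine Filter.Eventually.of_forall fun x => ?_
    rw [Real.norm_eq_abs, abs_of_pos (Real.exp_pos _)]
    exact gk_le_one δ y x
  · refine Filter.Eventually.of_forall fun x => ?_
    exact (gk_cont δ).comp (Continuous.prodMk_left x)

theorem gsm_int {δ : ℝ} (hδ : 0 < δ) (μ : Measure ℝ) [IsFiniteMeasure μ] :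
    Integrable (gsm δ μ) ∧ ∫ y, gsm δ μ y = Real.sqrt (2 * Real.pi) * δ * (μ Set.univ).toReal := by
  have hf : ∀ x : ℝ, (fun y : ℝ => Real.exp (-(y - x) ^ 2 / (2 * δ ^ 2))) = WW δ x := fun x => rfl
  have hI : Integrable (fun q : ℝ × ℝ => Real.exp (-(q.1 - q.2) ^ 2 / (2 * δ ^ 2))) (volume.prod μ) := by
    rw [integrable_prod_iff' (gk_cont δ).aestronglyMeasurable]
    constructor
    · refine Filter.Eventually.of_forall fun x => ?_
      show Integrable (fun y : ℝ => Real.exp (-(y - x) ^ 2 / (2 * δ ^ 2)))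
      rw [hf]
      exact (WW_int hδ x).1
    · have h1 : (fun x : ℝ => ∫ y : ℝ, ‖Real.exp (-((y, x).1 - (y, x).2) ^ 2 / (2 * δ ^ 2))‖) =
          fun _ => Real.sqrt (2 * Real.pi) * δ := by
        funext x
        have h2 : (fun y : ℝ => ‖Real.exp (-((y, x).1 - (y, x).2) ^ 2 / (2 * δ ^ 2))‖) = WW δ x := by
          funext y
          rw [Real.norm_eq_abs, abs_of_pos (Real.exp_pos _)]
          rfl
        rw [h2]
        exact (WW_int hδ x).2
      rw [h1]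
      exact integrable_const _
  constructor
  · exact hI.integral_prod_left
  · have h1 : ∫ y, gsm δ μ y = ∫ x, (∫ y, Real.exp (-(y - x) ^ 2 / (2 * δ ^ 2))) ∂μ := by
      unfold gsm
      exact integral_integral_swap hI
    rw [h1]
    have h2 : ∀ x : ℝ, ∫ y, Real.exp (-(y - x) ^ 2 / (2 * δ ^ 2)) = Real.sqrt (2 * Real.pi) * δ := fun x =>
      (WW_int hδ x).2
    simp only [h2]
    rw [integral_const, smul_eq_mul, mul_comm]
    rfl

theorem gsm_two {δ B : ℝ} (hδ : 0 < δ) (μ : Measure ℝ) [IsFiniteMeasure μ] (h : ∀ y, gsm δ μ y ≤ B) (y : ℝ) :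
    gsm (Real.sqrt 2 * δ) μ y ≤ Real.sqrt 2 * B := by
  have hδ2 : 0 < Real.sqrt 2 := by positivity
  have hpi : 0 < Real.sqrt Real.pi := Real.sqrt_pos.mpr Real.pi_pos
  -- the convolution of two kernels
  have hconv : ∀ x : ℝ, ∫ z, Real.exp (-(y - z - x) ^ 2 / (2 * δ ^ 2)) * WW δ 0 z =
      Real.sqrt Real.pi * δ * Real.exp (-(y - x) ^ 2 / (2 * (Real.sqrt 2 * δ) ^ 2)) := by
    intro x
    have h1 : (fun z : ℝ => Real.exp (-(y - z - x) ^ 2 / (2 * δ ^ 2)) * WW δ 0 z) =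
        fun z => Real.exp (-(y - x) ^ 2 / (2 * (Real.sqrt 2 * δ) ^ 2)) * WW (δ / Real.sqrt 2) ((y - x) / 2) z := by
      funext z
      unfold WW
      rw [← Real.exp_add, ← Real.exp_add]
      congr 1
      rw [mul_pow, div_pow, Real.sq_sqrt (by norm_num : (0 : ℝ) ≤ 2)]
      field_simp
      ring
    rw [h1, integral_const_mul, (WW_int (by positivity) _).2, mul_comm, Real.sqrt_mul (by norm_num)]
    field_simp
  have hI : Integrable (fun q : ℝ × ℝ => Real.exp (-(y - q.1 - q.2) ^ 2 / (2 * δ ^ 2)) * WW δ 0 q.1) (volume.prod μ) := by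
    have h1 : Integrable (fun q : ℝ × ℝ => WW δ 0 q.1 * (1 : ℝ)) (volume.prod μ) :=
      (WW_int hδ 0).1.mul_prod (integrable_const (1 : ℝ))
    refine h1.mono' ?_ ?_
    · refine Continuous.aestronglyMeasurable ?_
      have := WW_cont δ 0
      fun_prop
    · refine Filter.Eventually.of_forall fun q => ?_
      rw [norm_mul, Real.norm_eq_abs, Real.norm_eq_abs, abs_of_pos (Real.exp_pos _), abs_of_nonneg (WW_nonneg _ _ _),
        mul_comm]
      exact mul_le_mul_of_nonneg_left (gk_le_one δ (y - q.1) q.2) (WW_nonneg _ _ _)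
  have h1 : Real.sqrt Real.pi * δ * gsm (Real.sqrt 2 * δ) μ y = ∫ z, gsm δ μ (y - z) * WW δ 0 z := by
    unfold gsm
    rw [← integral_const_mul]
    simp only [← hconv]
    rw [← integral_integral_swap hI]
    refine integral_congr_ae (Filter.Eventually.of_forall fun z => ?_)
    simp only
    rw [integral_mul_const]
  have h2 : ∫ z, gsm δ μ (y - z) * WW δ 0 z ≤ B * (Real.sqrt (2 * Real.pi) * δ) := by
    rw [← (WW_int hδ 0).2, ← integral_const_mul]
    refine integral_mono_of_nonneg (Filter.Eventually.of_forall fun z => mul_nonneg (gsm_nonneg _ _ _) (WW_nonneg _ _ _))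
      ((WW_int hδ 0).1.const_mul B) (Filter.Eventually.of_forall fun z => ?_)
    exact mul_le_mul_of_nonneg_right (h _) (WW_nonneg _ _ _)
  rw [← h1, Real.sqrt_mul (by norm_num)] at h2
  have h3 : 0 < Real.sqrt Real.pi * δ := by positivity
  have h4 : Real.sqrt Real.pi * δ * gsm (Real.sqrt 2 * δ) μ y ≤ Real.sqrt Real.pi * δ * (Real.sqrt 2 * B) := by
    refine h2.trans (le_of_eq ?_)
    ring
  exact le_of_mul_le_mul_left h4 h3

theorem gsm_map (δ h : ℝ) (μ : Measure ℝ) (y : ℝ) : gsm δ (μ.map (fun x => x + h)) y = gsm δ μ (y - h) := by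
  unfold gsm
  rw [(measurableEmbedding_addRight h).integral_map]
  refine integral_congr_ae (Filter.Eventually.of_forall fun x => ?_)
  simp only
  congr 3
  ring

theorem gsm_up (δ w h : ℝ) (μ : Measure ℝ) (y : ℝ) : gsm δ (up w h μ) y = Real.exp w * gsm δ μ (y - h) := by
  unfold up
  rw [gsm_map]
  unfold gsm
  rw [integral_smul_measure, ENNReal.toReal_ofReal (Real.exp_pos w).le, smul_eq_mul]

theorem adm_map {δ B : ℝ} {μ : Measure ℝ} (h : Adm δ B μ) (t : ℝ) : Adm δ B (μ.map (fun x => x + t)) := by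
  obtain ⟨h1, h2, h3⟩ := h
  refine ⟨inferInstance, ?_, ?_⟩
  · intro y
    rw [gsm_map]
    exact h2 _
  · have hm : Measurable fun x : ℝ => x + t := by fun_prop
    rw [Measure.map_apply hm MeasurableSet.univ, Set.preimage_univ]
    exact h3

theorem adm_mono {δ B B' : ℝ} {μ : Measure ℝ} (h : Adm δ B μ) (hB : B ≤ B') : Adm δ B' μ :=
  ⟨h.1, fun y => (h.2.1 y).trans hB, h.2.2.trans hB⟩

theorem admK_mono {B B' : ℝ} {K : ℝ → ℝ} (h : AdmK B K) (hB : B ≤ B') : AdmK B' K :=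
  ⟨h.1, fun y => (h.2.1 y).trans hB, h.2.2.1, h.2.2.2.trans hB⟩

/-- The integral of the smoothing. -/
theorem adm_int {δ B : ℝ} (hδ : 0 < δ) {μ : Measure ℝ} (h : Adm δ B μ) : Integrable (gsm δ μ) ∧
    ∫ y, gsm δ μ y ≤ Real.sqrt (2 * Real.pi) * B := by
  obtain ⟨h1, -, h3⟩ := h
  obtain ⟨h4, h5⟩ := gsm_int hδ μ
  refine ⟨h4, ?_⟩
  rw [h5, mul_assoc]
  exact mul_le_mul_of_nonneg_left h3 (Real.sqrt_nonneg _)

theorem dd_shift (δ : ℝ) (μ1 μ2 : Measure ℝ) (K : ℝ → ℝ) (a1 b1 a2 b2 x h : ℝ) :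
    DD δ μ1 μ2 K a1 b1 a2 b2 (x + h) =
      DD δ (μ1.map (fun z => z + -(b1 * h))) (μ2.map (fun z => z + -(b2 * h))) K a1 b1 a2 b2 x := by
  unfold DD
  refine integral_congr_ae (Filter.Eventually.of_forall fun y => ?_)
  simp only
  rw [gsm_map, gsm_map]
  have e1 : a1 * y + b1 * (x + h) = a1 * y + b1 * x - -(b1 * h) := by ring
  have e2 : a2 * y + b2 * (x + h) = a2 * y + b2 * x - -(b2 * h) := by ring
  rw [e1, e2]

private theorem kgg_bound {δ B : ℝ} {μ1 μ2 : Measure ℝ} {K : ℝ → ℝ} (h1 : Adm δ B μ1) (h2 : Adm δ B μ2)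
    (y u v : ℝ) : ‖K y * (gsm δ μ1 u * gsm δ μ2 v)‖ ≤ |K y| * B ^ 2 := by
  rw [norm_mul, Real.norm_eq_abs, Real.norm_eq_abs]
  refine mul_le_mul_of_nonneg_left ?_ (abs_nonneg _)
  rw [abs_of_nonneg (mul_nonneg (gsm_nonneg _ _ _) (gsm_nonneg _ _ _)), sq]
  exact mul_le_mul (h1.2.1 _) (h2.2.1 _) (gsm_nonneg _ _ _) ((gsm_nonneg _ _ _).trans (h1.2.1 u))

theorem dd_bound {δ B : ℝ} (hB : 0 ≤ B) {μ1 μ2 : Measure ℝ} {K : ℝ → ℝ} (h1 : Adm δ B μ1) (h2 : Adm δ B μ2) (hK : AdmK B K)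
    (a1 b1 a2 b2 x : ℝ) : |DD δ μ1 μ2 K a1 b1 a2 b2 x| ≤ B ^ 3 := by
  unfold DD
  have h3 := norm_integral_le_of_norm_le (hK.2.2.1.abs.mul_const (B ^ 2)) (Filter.Eventually.of_forall fun y =>
    kgg_bound (K := K) h1 h2 y (a1 * y + b1 * x) (a2 * y + b2 * x))
  rw [Real.norm_eq_abs] at h3
  refine h3.trans ?_
  rw [integral_mul_const]
  calc (∫ y, |K y|) * B ^ 2 ≤ B * B ^ 2 := mul_le_mul_of_nonneg_right hK.2.2.2 (sq_nonneg B)
    _ = B ^ 3 := by ring

theorem dd_intble {δ B : ℝ} {μ1 μ2 : Measure ℝ} {K : ℝ → ℝ} (h1 : Adm δ B μ1) (h2 : Adm δ B μ2) (hK : AdmK B K)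
    (a1 b1 a2 b2 x : ℝ) : Integrable fun y => K y * (gsm δ μ1 (a1 * y + b1 * x) * gsm δ μ2 (a2 * y + b2 * x)) := by
  have i1 := h1.1
  have i2 := h2.1
  have c1 := gsm_cont δ μ1
  have c2 := gsm_cont δ μ2
  refine Integrable.mono' (hK.2.2.1.abs.mul_const (B ^ 2)) ?_ (Filter.Eventually.of_forall fun y =>
    kgg_bound (K := K) h1 h2 y (a1 * y + b1 * x) (a2 * y + b2 * x))
  refine hK.1.aestronglyMeasurable.mul (Continuous.aestronglyMeasurable ?_)
  exact (c1.comp (by fun_prop)).mul (c2.comp (by fun_prop))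

theorem dd_cont {δ B : ℝ} {μ1 μ2 : Measure ℝ} {K : ℝ → ℝ} (h1 : Adm δ B μ1) (h2 : Adm δ B μ2) (hK : AdmK B K)
    (a1 b1 a2 b2 : ℝ) : Continuous (DD δ μ1 μ2 K a1 b1 a2 b2) := by
  have i1 := h1.1
  have i2 := h2.1
  have c1 := gsm_cont δ μ1
  have c2 := gsm_cont δ μ2
  unfold DD
  refine continuous_of_dominated (bound := fun y => |K y| * B ^ 2) ?_ ?_ (hK.2.2.1.abs.mul_const (B ^ 2)) ?_
  · intro x
    exact (dd_intble h1 h2 hK a1 b1 a2 b2 x).aestronglyMeasurable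
  · intro x
    exact Filter.Eventually.of_forall fun y => kgg_bound (K := K) h1 h2 y (a1 * y + b1 * x) (a2 * y + b2 * x)
  · refine Filter.Eventually.of_forall fun y => ?_
    exact continuous_const.mul ((c1.comp (by fun_prop)).mul (c2.comp (by fun_prop)))

end HLA
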