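import Pool.Agent.HLA.Gsm

/-!
# HLA.GsmD: derivatives of `gsm` and of integrals `∫ K(y) g1(a1 y + b1 x) g2(a2 y + b2 x) dy`

PROOF. `gsm_deriv`: `hasDerivAt_integral_of_dominated_loc_of_deriv_le` (the kernel and its derivatives are bounded, `μ` finite). Bounds: `|z| exp(-z²/2) ≤ 2 exp(-z²/4)` and
`|z² - 1| exp(-z²/2) ≤ 4 exp(-z²/4)`, so `|gsm1| ≤ (2/δ) gsm (√2 δ) μ`, `|gsm2| ≤ (4/δ²) gsm (√2 δ) μ`; `gsm_two` and `gsm_int` (`∫ gsm (√2δ) μ = √(2π) √2 δ μ(univ)`).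
`dg_deriv`: differentiation under the integral sign, bound `|K y| · const`.
-/

namespace HLA

open MeasureTheory ArithmeticFunction SMC

/-- First derivative of `gsm`. -/
noncomputable def gsm1 (δ : ℝ) (μ : Measure ℝ) (y : ℝ) : ℝ :=
  ∫ x, -(y - x) / δ ^ 2 * Real.exp (-(y - x) ^ 2 / (2 * δ ^ 2)) ∂μ

/-- Second derivative of `gsm`. -/
noncomputable def gsm2 (δ : ℝ) (μ : Measure ℝ) (y : ℝ) : ℝ :=
  ∫ x, ((y - x) ^ 2 / δ ^ 4 - 1 / δ ^ 2) * Real.exp (-(y - x) ^ 2 / (2 * δ ^ 2)) ∂μ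

/-- The general form of `DD`. -/
noncomputable def Dg (g1 g2 K : ℝ → ℝ) (a1 b1 a2 b2 x : ℝ) : ℝ :=
  ∫ y, K y * (g1 (a1 * y + b1 * x) * g2 (a2 * y + b2 * x))

private theorem gsmD_abs_le_exp (u : ℝ) : |u| ≤ Real.exp (u ^ 2 / 4) := by
  have h1 := Real.add_one_le_exp (u ^ 2 / 4)
  have h2 : 0 ≤ (1 - |u| / 2) ^ 2 := sq_nonneg _
  have h3 : |u| ^ 2 = u ^ 2 := sq_abs u
  nlinarith

private theorem gsmD_sq_le_exp (u : ℝ) : |u ^ 2 - 1| ≤ 4 * Real.exp (u ^ 2 / 4) := by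
  have h1 := Real.add_one_le_exp (u ^ 2 / 4)
  have h2 : 0 ≤ u ^ 2 := sq_nonneg u
  rw [abs_le]
  constructor <;> nlinarith

private theorem gsmD_k1 {δ : ℝ} (hδ : 0 < δ) (z : ℝ) :
    |-z / δ ^ 2 * Real.exp (-z ^ 2 / (2 * δ ^ 2))| ≤
      1 / δ * Real.exp (-z ^ 2 / (2 * (Real.sqrt 2 * δ) ^ 2)) := by
  have hs : (Real.sqrt 2 * δ) ^ 2 = 2 * δ ^ 2 := by
    rw [mul_pow, Real.sq_sqrt (by norm_num)]
  have h1 := gsmD_abs_le_exp (z / δ)
  have e1 : -z ^ 2 / (2 * δ ^ 2) = -(z / δ) ^ 2 / 4 + -(z / δ) ^ 2 / 4 := by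
    field_simp
    ring
  have e2 : -z ^ 2 / (2 * (Real.sqrt 2 * δ) ^ 2) = -(z / δ) ^ 2 / 4 := by
    rw [hs]
    field_simp
    ring
  have e3 : Real.exp (-(z / δ) ^ 2 / 4) * Real.exp ((z / δ) ^ 2 / 4) = 1 := by
    rw [← Real.exp_add]
    rw [show -(z / δ) ^ 2 / 4 + (z / δ) ^ 2 / 4 = 0 by ring, Real.exp_zero]
  have e4 : |-z / δ ^ 2| = 1 / δ * |z / δ| := by
    rw [show -z / δ ^ 2 = -(1 / δ * (z / δ)) by field_simp, abs_neg, abs_mul,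
      abs_of_pos (by positivity : 0 < 1 / δ)]
  rw [abs_mul, Real.abs_exp, e1, e2, e4, Real.exp_add]
  have h3 : |z / δ| * Real.exp (-(z / δ) ^ 2 / 4) ≤ 1 := by
    rw [← e3, mul_comm]
    exact mul_le_mul_of_nonneg_left h1 (Real.exp_pos _).le
  have h4 : 0 ≤ 1 / δ * Real.exp (-(z / δ) ^ 2 / 4) := by positivity
  calc 1 / δ * |z / δ| * (Real.exp (-(z / δ) ^ 2 / 4) * Real.exp (-(z / δ) ^ 2 / 4))
      = (|z / δ| * Real.exp (-(z / δ) ^ 2 / 4)) * (1 / δ * Real.exp (-(z / δ) ^ 2 / 4)) := by ring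
    _ ≤ 1 * (1 / δ * Real.exp (-(z / δ) ^ 2 / 4)) := mul_le_mul_of_nonneg_right h3 h4
    _ = _ := one_mul _

private theorem gsmD_k2 {δ : ℝ} (hδ : 0 < δ) (z : ℝ) :
    |(z ^ 2 / δ ^ 4 - 1 / δ ^ 2) * Real.exp (-z ^ 2 / (2 * δ ^ 2))| ≤
      4 / δ ^ 2 * Real.exp (-z ^ 2 / (2 * (Real.sqrt 2 * δ) ^ 2)) := by
  have hs : (Real.sqrt 2 * δ) ^ 2 = 2 * δ ^ 2 := by
    rw [mul_pow, Real.sq_sqrt (by norm_num)]
  have h1 := gsmD_sq_le_exp (z / δ)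
  have e1 : -z ^ 2 / (2 * δ ^ 2) = -(z / δ) ^ 2 / 4 + -(z / δ) ^ 2 / 4 := by
    field_simp
    ring
  have e2 : -z ^ 2 / (2 * (Real.sqrt 2 * δ) ^ 2) = -(z / δ) ^ 2 / 4 := by
    rw [hs]
    field_simp
    ring
  have e3 : Real.exp (-(z / δ) ^ 2 / 4) * Real.exp ((z / δ) ^ 2 / 4) = 1 := by
    rw [← Real.exp_add]
    rw [show -(z / δ) ^ 2 / 4 + (z / δ) ^ 2 / 4 = 0 by ring, Real.exp_zero]
  have e4 : |z ^ 2 / δ ^ 4 - 1 / δ ^ 2| = 1 / δ ^ 2 * |(z / δ) ^ 2 - 1| := by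
    rw [show z ^ 2 / δ ^ 4 - 1 / δ ^ 2 = 1 / δ ^ 2 * ((z / δ) ^ 2 - 1) by field_simp, abs_mul,
      abs_of_pos (by positivity : 0 < 1 / δ ^ 2)]
  rw [abs_mul, Real.abs_exp, e1, e2, e4, Real.exp_add]
  have h3 : |(z / δ) ^ 2 - 1| * Real.exp (-(z / δ) ^ 2 / 4) ≤ 4 := by
    calc |(z / δ) ^ 2 - 1| * Real.exp (-(z / δ) ^ 2 / 4)
        ≤ 4 * Real.exp ((z / δ) ^ 2 / 4) * Real.exp (-(z / δ) ^ 2 / 4) :=
          mul_le_mul_of_nonneg_right h1 (Real.exp_pos _).le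
      _ = 4 * (Real.exp (-(z / δ) ^ 2 / 4) * Real.exp ((z / δ) ^ 2 / 4)) := by ring
      _ = 4 := by rw [e3, mul_one]
  have h4 : 0 ≤ 1 / δ ^ 2 * Real.exp (-(z / δ) ^ 2 / 4) := by positivity
  calc 1 / δ ^ 2 * |(z / δ) ^ 2 - 1| * (Real.exp (-(z / δ) ^ 2 / 4) * Real.exp (-(z / δ) ^ 2 / 4))
      = (|(z / δ) ^ 2 - 1| * Real.exp (-(z / δ) ^ 2 / 4)) *
          (1 / δ ^ 2 * Real.exp (-(z / δ) ^ 2 / 4)) := by ring
    _ ≤ 4 * (1 / δ ^ 2 * Real.exp (-(z / δ) ^ 2 / 4)) := mul_le_mul_of_nonneg_right h3 h4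
    _ = _ := by ring

private theorem gsmD_exp_le (δ z : ℝ) : Real.exp (-z ^ 2 / (2 * δ ^ 2)) ≤ 1 := by
  rw [Real.exp_le_one_iff, neg_div]
  have : 0 ≤ z ^ 2 / (2 * δ ^ 2) := by positivity
  linarith

private theorem gsmD_hd0 {δ : ℝ} (hδ : 0 < δ) (x y : ℝ) :
    HasDerivAt (fun y => Real.exp (-(y - x) ^ 2 / (2 * δ ^ 2)))
      (-(y - x) / δ ^ 2 * Real.exp (-(y - x) ^ 2 / (2 * δ ^ 2))) y := by
  have h1 : HasDerivAt (fun y => -(y - x) ^ 2 / (2 * δ ^ 2)) (-(y - x) / δ ^ 2) y := by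
    have h := ((((hasDerivAt_id y).sub_const x).pow 2).neg.div_const (2 * δ ^ 2))
    refine h.congr_deriv ?_
    simp only [id]
    field_simp
    simp
    ring
  refine h1.exp.congr_deriv ?_
  ring

private theorem gsmD_hd1 {δ : ℝ} (hδ : 0 < δ) (x y : ℝ) :
    HasDerivAt (fun y => -(y - x) / δ ^ 2 * Real.exp (-(y - x) ^ 2 / (2 * δ ^ 2)))
      (((y - x) ^ 2 / δ ^ 4 - 1 / δ ^ 2) * Real.exp (-(y - x) ^ 2 / (2 * δ ^ 2))) y := by
  have h1 : HasDerivAt (fun y => -(y - x) / δ ^ 2) (-1 / δ ^ 2) y := by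
    have h := (((hasDerivAt_id y).sub_const x).neg.div_const (δ ^ 2))
    exact h
  refine (h1.mul (gsmD_hd0 hδ x y)).congr_deriv ?_
  field_simp
  ring

theorem gsm_deriv {δ : ℝ} (hδ : 0 < δ) (μ : Measure ℝ) [IsFiniteMeasure μ] :
    (∀ y, HasDerivAt (gsm δ μ) (gsm1 δ μ y) y) ∧ (∀ y, HasDerivAt (gsm1 δ μ) (gsm2 δ μ y) y) ∧
      Continuous (gsm1 δ μ) ∧ Continuous (gsm2 δ μ) := by
  have c0 : ∀ y : ℝ, Continuous fun x : ℝ => Real.exp (-(y - x) ^ 2 / (2 * δ ^ 2)) := by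
    intro y; fun_prop
  have c1 : ∀ y : ℝ, Continuous fun x : ℝ =>
      -(y - x) / δ ^ 2 * Real.exp (-(y - x) ^ 2 / (2 * δ ^ 2)) := by
    intro y; fun_prop
  have c2 : ∀ y : ℝ, Continuous fun x : ℝ =>
      ((y - x) ^ 2 / δ ^ 4 - 1 / δ ^ 2) * Real.exp (-(y - x) ^ 2 / (2 * δ ^ 2)) := by
    intro y; fun_prop
  have b1 : ∀ x y : ℝ, ‖-(y - x) / δ ^ 2 * Real.exp (-(y - x) ^ 2 / (2 * δ ^ 2))‖ ≤ 1 / δ := by
    intro x y
    rw [Real.norm_eq_abs]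
    refine (gsmD_k1 hδ (y - x)).trans ?_
    have h := gsmD_exp_le (Real.sqrt 2 * δ) (y - x)
    have h2 : 0 ≤ 1 / δ := by positivity
    nlinarith
  have b2 : ∀ x y : ℝ,
      ‖((y - x) ^ 2 / δ ^ 4 - 1 / δ ^ 2) * Real.exp (-(y - x) ^ 2 / (2 * δ ^ 2))‖ ≤ 4 / δ ^ 2 := by
    intro x y
    rw [Real.norm_eq_abs]
    refine (gsmD_k2 hδ (y - x)).trans ?_
    have h := gsmD_exp_le (Real.sqrt 2 * δ) (y - x)
    have h2 : 0 ≤ 4 / δ ^ 2 := by positivity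
    nlinarith
  have hA : ∀ y, HasDerivAt (gsm δ μ) (gsm1 δ μ y) y := fun y =>
    (hasDerivAt_integral_of_dominated_loc_of_deriv_le (μ := μ)
      (F := fun y x => Real.exp (-(y - x) ^ 2 / (2 * δ ^ 2)))
      (F' := fun y x => -(y - x) / δ ^ 2 * Real.exp (-(y - x) ^ 2 / (2 * δ ^ 2)))
      (x₀ := y) (s := Set.univ) (bound := fun _ => 1 / δ) Filter.univ_mem
      (Filter.Eventually.of_forall fun y => (c0 y).aestronglyMeasurable)
      (gsm_intble δ μ y) (c1 y).aestronglyMeasurable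
      (ae_of_all _ fun x y _ => b1 x y) (integrable_const _)
      (ae_of_all _ fun x y _ => gsmD_hd0 hδ x y)).2
  have hi1 : ∀ y, Integrable (fun x => -(y - x) / δ ^ 2 * Real.exp (-(y - x) ^ 2 / (2 * δ ^ 2))) μ :=
    fun y => (integrable_const (1 / δ)).mono' (c1 y).aestronglyMeasurable
      (ae_of_all _ fun x => b1 x y)
  have hB : ∀ y, HasDerivAt (gsm1 δ μ) (gsm2 δ μ y) y := fun y =>
    (hasDerivAt_integral_of_dominated_loc_of_deriv_le (μ := μ)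
      (F := fun y x => -(y - x) / δ ^ 2 * Real.exp (-(y - x) ^ 2 / (2 * δ ^ 2)))
      (F' := fun y x => ((y - x) ^ 2 / δ ^ 4 - 1 / δ ^ 2) * Real.exp (-(y - x) ^ 2 / (2 * δ ^ 2)))
      (x₀ := y) (s := Set.univ) (bound := fun _ => 4 / δ ^ 2) Filter.univ_mem
      (Filter.Eventually.of_forall fun y => (c1 y).aestronglyMeasurable)
      (hi1 y) (c2 y).aestronglyMeasurable
      (ae_of_all _ fun x y _ => b2 x y) (integrable_const _)
      (ae_of_all _ fun x y _ => gsmD_hd1 hδ x y)).2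
  refine ⟨hA, hB, ?_, ?_⟩
  · exact continuous_iff_continuousAt.2 fun y => (hB y).continuousAt
  · exact continuous_of_dominated (μ := μ)
      (F := fun y x => ((y - x) ^ 2 / δ ^ 4 - 1 / δ ^ 2) * Real.exp (-(y - x) ^ 2 / (2 * δ ^ 2)))
      (bound := fun _ => 4 / δ ^ 2) (fun y => (c2 y).aestronglyMeasurable)
      (fun y => ae_of_all _ fun x => b2 x y) (integrable_const _)
      (ae_of_all _ fun x => by fun_prop)

private theorem gsmD_const : Real.sqrt (2 * Real.pi) * Real.sqrt 2 ≤ 4 := by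
  rw [← Real.sqrt_mul (by positivity)]
  rw [show (4 : ℝ) = Real.sqrt (4 ^ 2) by rw [Real.sqrt_sq (by norm_num)]]
  apply Real.sqrt_le_sqrt
  nlinarith [Real.pi_lt_four]

theorem gsm_deriv_bd : ∃ C : ℝ, 1 ≤ C ∧ ∀ (δ B : ℝ) (μ : Measure ℝ), 0 < δ → Adm δ B μ →
    (∀ y, |gsm1 δ μ y| ≤ C * B / δ) ∧ (∀ y, |gsm2 δ μ y| ≤ C * B / δ ^ 2) ∧
    Integrable (gsm1 δ μ) ∧ ∫ y, |gsm1 δ μ y| ≤ C * B / δ ∧
    Integrable (gsm2 δ μ) ∧ ∫ y, |gsm2 δ μ y| ≤ C * B / δ ^ 2 := by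
  refine ⟨16, by norm_num, fun δ B μ hδ hadm => ?_⟩
  obtain ⟨hfin, hle, hmass⟩ := hadm
  have hm0 : 0 ≤ (μ Set.univ).toReal := ENNReal.toReal_nonneg
  have hB : 0 ≤ B := le_trans (mul_nonneg hδ.le hm0) hmass
  obtain ⟨-, -, hc1, hc2⟩ := gsm_deriv hδ μ
  have hs2 : Real.sqrt 2 ≤ 2 := by
    rw [show (2 : ℝ) = Real.sqrt (2 ^ 2) by rw [Real.sqrt_sq (by norm_num)]]
    apply Real.sqrt_le_sqrt
    norm_num
  have hs20 : 0 < Real.sqrt 2 := by positivity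
  have hδ2 : 0 < Real.sqrt 2 * δ := by positivity
  have p1 : ∀ y, |gsm1 δ μ y| ≤ 1 / δ * gsm (Real.sqrt 2 * δ) μ y := by
    intro y
    have h := norm_integral_le_of_norm_le (μ := μ)
      (f := fun x => -(y - x) / δ ^ 2 * Real.exp (-(y - x) ^ 2 / (2 * δ ^ 2)))
      ((gsm_intble (Real.sqrt 2 * δ) μ y).const_mul (1 / δ))
      (ae_of_all _ fun x => by rw [Real.norm_eq_abs]; exact gsmD_k1 hδ (y - x))
    rw [integral_const_mul] at h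
    exact h
  have p2 : ∀ y, |gsm2 δ μ y| ≤ 4 / δ ^ 2 * gsm (Real.sqrt 2 * δ) μ y := by
    intro y
    have h := norm_integral_le_of_norm_le (μ := μ)
      (f := fun x => ((y - x) ^ 2 / δ ^ 4 - 1 / δ ^ 2) * Real.exp (-(y - x) ^ 2 / (2 * δ ^ 2)))
      ((gsm_intble (Real.sqrt 2 * δ) μ y).const_mul (4 / δ ^ 2))
      (ae_of_all _ fun x => by rw [Real.norm_eq_abs]; exact gsmD_k2 hδ (y - x))
    rw [integral_const_mul] at h
    exact h
  have q : ∀ y, gsm (Real.sqrt 2 * δ) μ y ≤ 2 * B := fun y =>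
    (gsm_two hδ μ hle y).trans (mul_le_mul_of_nonneg_right hs2 hB)
  obtain ⟨hi, hie⟩ := gsm_int hδ2 μ
  have hie2 : ∫ y, gsm (Real.sqrt 2 * δ) μ y ≤ 4 * B := by
    rw [hie]
    calc Real.sqrt (2 * Real.pi) * (Real.sqrt 2 * δ) * (μ Set.univ).toReal
        = (Real.sqrt (2 * Real.pi) * Real.sqrt 2) * (δ * (μ Set.univ).toReal) := by ring
      _ ≤ 4 * B := mul_le_mul gsmD_const hmass (mul_nonneg hδ.le hm0) (by norm_num)
  have hδi : 0 < 1 / δ := by positivity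
  have hδi2 : 0 < 4 / δ ^ 2 := by positivity
  have i1 : Integrable (gsm1 δ μ) := (hi.const_mul (1 / δ)).mono' hc1.aestronglyMeasurable
    (ae_of_all _ fun y => by rw [Real.norm_eq_abs]; exact p1 y)
  have i2 : Integrable (gsm2 δ μ) := (hi.const_mul (4 / δ ^ 2)).mono' hc2.aestronglyMeasurable
    (ae_of_all _ fun y => by rw [Real.norm_eq_abs]; exact p2 y)
  refine ⟨fun y => ?_, fun y => ?_, i1, ?_, i2, ?_⟩
  · calc |gsm1 δ μ y| ≤ 1 / δ * gsm (Real.sqrt 2 * δ) μ y := p1 y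
      _ ≤ 1 / δ * (2 * B) := mul_le_mul_of_nonneg_left (q y) hδi.le
      _ ≤ 1 / δ * (16 * B) := mul_le_mul_of_nonneg_left (by linarith) hδi.le
      _ = 16 * B / δ := by ring
  · calc |gsm2 δ μ y| ≤ 4 / δ ^ 2 * gsm (Real.sqrt 2 * δ) μ y := p2 y
      _ ≤ 4 / δ ^ 2 * (2 * B) := mul_le_mul_of_nonneg_left (q y) hδi2.le
      _ ≤ 4 / δ ^ 2 * (4 * B) := mul_le_mul_of_nonneg_left (by linarith) hδi2.le
      _ = 16 * B / δ ^ 2 := by ring
  · calc ∫ y, |gsm1 δ μ y| ≤ ∫ y, 1 / δ * gsm (Real.sqrt 2 * δ) μ y :=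
          integral_mono i1.abs (hi.const_mul _) p1
      _ = 1 / δ * ∫ y, gsm (Real.sqrt 2 * δ) μ y := integral_const_mul _ _
      _ ≤ 1 / δ * (4 * B) := mul_le_mul_of_nonneg_left hie2 hδi.le
      _ ≤ 1 / δ * (16 * B) := mul_le_mul_of_nonneg_left (by linarith) hδi.le
      _ = 16 * B / δ := by ring
  · calc ∫ y, |gsm2 δ μ y| ≤ ∫ y, 4 / δ ^ 2 * gsm (Real.sqrt 2 * δ) μ y :=
          integral_mono i2.abs (hi.const_mul _) p2
      _ = 4 / δ ^ 2 * ∫ y, gsm (Real.sqrt 2 * δ) μ y := integral_const_mul _ _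
      _ ≤ 4 / δ ^ 2 * (4 * B) := mul_le_mul_of_nonneg_left hie2 hδi2.le
      _ = 16 * B / δ ^ 2 := by ring

private theorem gsmD_prod_le {M u v : ℝ} (hM : 0 ≤ M) (hu : |u| ≤ M) (hv : |v| ≤ M) :
    |u * v| ≤ M * M := by
  rw [abs_mul]
  exact mul_le_mul hu hv (abs_nonneg _) hM

private theorem gsmD_int {g1 g2 K : ℝ → ℝ} {M : ℝ} (hK : Integrable K) (h1 : Continuous g1)
    (h2 : Continuous g2) (hM1 : ∀ y, |g1 y| ≤ M) (hM2 : ∀ y, |g2 y| ≤ M) (a1 b1 a2 b2 x : ℝ) :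
    Integrable fun y => K y * (g1 (a1 * y + b1 * x) * g2 (a2 * y + b2 * x)) := by
  have hM : 0 ≤ M := (abs_nonneg _).trans (hM1 0)
  refine (hK.norm.mul_const (M * M)).mono' ?_ (ae_of_all _ fun y => ?_)
  · exact hK.aestronglyMeasurable.mul
      ((h1.comp (by fun_prop)).mul (h2.comp (by fun_prop))).aestronglyMeasurable
  · rw [norm_mul, Real.norm_eq_abs (g1 _ * g2 _)]
    exact mul_le_mul_of_nonneg_left (gsmD_prod_le hM (hM1 _) (hM2 _)) (norm_nonneg _)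

theorem dg_deriv {g1 g1' g2 g2' K : ℝ → ℝ} {M : ℝ} (hK : Integrable K) (h1 : ∀ y, HasDerivAt g1 (g1' y) y)
    (h2 : ∀ y, HasDerivAt g2 (g2' y) y) (hc1 : Continuous g1') (hc2 : Continuous g2') (hM1 : ∀ y, |g1 y| ≤ M)
    (hM2 : ∀ y, |g2 y| ≤ M) (hM3 : ∀ y, |g1' y| ≤ M) (hM4 : ∀ y, |g2' y| ≤ M) (a1 b1 a2 b2 x : ℝ) :
    HasDerivAt (Dg g1 g2 K a1 b1 a2 b2)
      (b1 * Dg g1' g2 K a1 b1 a2 b2 x + b2 * Dg g1 g2' K a1 b1 a2 b2 x) x := by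
  have hM : 0 ≤ M := (abs_nonneg _).trans (hM1 0)
  have k1 : Continuous g1 := continuous_iff_continuousAt.2 fun y => (h1 y).continuousAt
  have k2 : Continuous g2 := continuous_iff_continuousAt.2 fun y => (h2 y).continuousAt
  have hd : ∀ y x : ℝ, HasDerivAt (fun x => K y * (g1 (a1 * y + b1 * x) * g2 (a2 * y + b2 * x)))
      (b1 * (K y * (g1' (a1 * y + b1 * x) * g2 (a2 * y + b2 * x)))
        + b2 * (K y * (g1 (a1 * y + b1 * x) * g2' (a2 * y + b2 * x)))) x := by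
    intro y x
    have l1 : HasDerivAt (fun x => a1 * y + b1 * x) b1 x := by
      have h := ((hasDerivAt_id x).const_mul b1).const_add (a1 * y)
      rw [mul_one] at h
      exact h
    have l2 : HasDerivAt (fun x => a2 * y + b2 * x) b2 x := by
      have h := ((hasDerivAt_id x).const_mul b2).const_add (a2 * y)
      rw [mul_one] at h
      exact h
    have m1 : HasDerivAt (fun x => g1 (a1 * y + b1 * x)) (g1' (a1 * y + b1 * x) * b1) x :=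
      (h1 (a1 * y + b1 * x)).comp x l1
    have m2 : HasDerivAt (fun x => g2 (a2 * y + b2 * x)) (g2' (a2 * y + b2 * x) * b2) x :=
      (h2 (a2 * y + b2 * x)).comp x l2
    refine ((m1.mul m2).const_mul (K y)).congr_deriv ?_
    ring
  have i1 := gsmD_int hK hc1 k2 hM3 hM2 a1 b1 a2 b2 x
  have i2 := gsmD_int hK k1 hc2 hM1 hM4 a1 b1 a2 b2 x
  have h := (hasDerivAt_integral_of_dominated_loc_of_deriv_le (μ := volume)
      (F := fun x y => K y * (g1 (a1 * y + b1 * x) * g2 (a2 * y + b2 * x)))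
      (F' := fun x y => b1 * (K y * (g1' (a1 * y + b1 * x) * g2 (a2 * y + b2 * x)))
        + b2 * (K y * (g1 (a1 * y + b1 * x) * g2' (a2 * y + b2 * x))))
      (x₀ := x) (s := Set.univ) (bound := fun y => ‖K y‖ * ((|b1| + |b2|) * (M * M)))
      Filter.univ_mem
      (Filter.Eventually.of_forall fun x =>
        (gsmD_int hK k1 k2 hM1 hM2 a1 b1 a2 b2 x).aestronglyMeasurable)
      (gsmD_int hK k1 k2 hM1 hM2 a1 b1 a2 b2 x)
      ((i1.const_mul b1).add (i2.const_mul b2)).aestronglyMeasurable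
      (ae_of_all _ fun y x _ => ?_) (hK.norm.mul_const _)
      (ae_of_all _ fun y x _ => hd y x)).2
  · have e : ∫ y, (b1 * (K y * (g1' (a1 * y + b1 * x) * g2 (a2 * y + b2 * x)))
        + b2 * (K y * (g1 (a1 * y + b1 * x) * g2' (a2 * y + b2 * x))))
        = b1 * Dg g1' g2 K a1 b1 a2 b2 x + b2 * Dg g1 g2' K a1 b1 a2 b2 x := by
      rw [integral_add (i1.const_mul b1) (i2.const_mul b2), integral_const_mul, integral_const_mul]
      rfl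
    rw [e] at h
    exact h
  · have p1 := gsmD_prod_le hM (hM3 (a1 * y + b1 * x)) (hM2 (a2 * y + b2 * x))
    have p2 := gsmD_prod_le hM (hM1 (a1 * y + b1 * x)) (hM4 (a2 * y + b2 * x))
    rw [Real.norm_eq_abs, Real.norm_eq_abs]
    have e : b1 * (K y * (g1' (a1 * y + b1 * x) * g2 (a2 * y + b2 * x)))
        + b2 * (K y * (g1 (a1 * y + b1 * x) * g2' (a2 * y + b2 * x)))
        = K y * (b1 * (g1' (a1 * y + b1 * x) * g2 (a2 * y + b2 * x))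
          + b2 * (g1 (a1 * y + b1 * x) * g2' (a2 * y + b2 * x))) := by ring
    rw [e, abs_mul]
    refine mul_le_mul_of_nonneg_left ?_ (abs_nonneg _)
    refine (abs_add_le _ _).trans ?_
    rw [abs_mul b1, abs_mul b2, add_mul]
    exact add_le_add (mul_le_mul_of_nonneg_left p1 (abs_nonneg _))
      (mul_le_mul_of_nonneg_left p2 (abs_nonneg _))

theorem dg_cont {g1 g2 K : ℝ → ℝ} {M : ℝ} (hK : Integrable K) (h1 : Continuous g1) (h2 : Continuous g2)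
    (hM1 : ∀ y, |g1 y| ≤ M) (hM2 : ∀ y, |g2 y| ≤ M) (a1 b1 a2 b2 : ℝ) : Continuous (Dg g1 g2 K a1 b1 a2 b2) := by
  have hM : 0 ≤ M := (abs_nonneg _).trans (hM1 0)
  refine continuous_of_dominated (μ := volume)
      (F := fun x y => K y * (g1 (a1 * y + b1 * x) * g2 (a2 * y + b2 * x)))
      (bound := fun y => ‖K y‖ * (M * M))
      (fun x => (gsmD_int hK h1 h2 hM1 hM2 a1 b1 a2 b2 x).aestronglyMeasurable)
      (fun x => ae_of_all _ fun y => ?_) (hK.norm.mul_const _)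
      (ae_of_all _ fun y => ?_)
  · rw [norm_mul, Real.norm_eq_abs (g1 _ * g2 _)]
    exact mul_le_mul_of_nonneg_left (gsmD_prod_le hM (hM1 _) (hM2 _)) (norm_nonneg _)
  · exact continuous_const.mul ((h1.comp (by fun_prop)).mul (h2.comp (by fun_prop)))

end HLA
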