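import Pool.Agent.HLA.Gsm
import Pool.Agent.SMC.GaussS
import Pool.Agent.ASI.Planch

/-!
# HLA.Low: at the scale `w^(-N)` the primes are uniformly distributed

PROOF. `η = w^(-N)`, `μ1 = muP σ c`, `μ2 = muL σ c`, `g_i = gsm η μ_i`, `G = g1 - g2`.
(1) `g2` is the explicit Gaussian `√(2π) η (σ/s) WW s c`, `s² = σ² + η²` (`low_L`), and `(η√(2π))⁻¹ g2` is at `L¹`-distance at most `3 η²/σ` from
`WW σ c` (`low_B`).
(2) If `G z < 0`, then `|G z| ≤ g2 z` (`g1 ≥ 0`). Let `v ≥ 0` with `g2 ≤ λ v²`. Then `|G| ≤ G + 2 (λ G² + v)` for all `z`: if `G < 0` and `|G| > v`, then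
`|G| ≤ g2 ≤ λ v² ≤ λ G²`. With `v = κ WW (√2 s) c` (`3 η ≤ λ κ²`): `∫ |G| ≤ ∫ G + 2 (λ ∫ G² + 6 κ)` (`low_A`). No tail estimate for the primes is needed.
(3) `ASI.planch`: `∫ G² ≤ √(2π) η (e1² + M² exp(-η²T²/2))`, where `|cf μ1 - cf μ2| ≤ e1` for `|τ| ≤ T` and `≤ M` always (`low_P`);
`(η√(2π))⁻¹ ∫ G = mass μ1 - mass μ2 ≤ |cf μ1 0 - cf μ2 0| ≤ e1`.
(4) `SMC.gp_gauss` with `K = 1`, `A1 = N + 2 (|A| + 1)`: `e1 = c^(-A1)`, `T = exp c`, `λ = w^A1`, `κ = 2 w^(-N-|A|-1)`.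
-/

namespace HLA

open MeasureTheory ArithmeticFunction SMC

private theorem low_s2 : 2 ≤ Real.sqrt (2 * Real.pi) ∧ Real.sqrt (2 * Real.pi) ≤ 3 := by
  constructor
  · rw [show (2 : ℝ) = Real.sqrt (2 ^ 2) from (Real.sqrt_sq (by norm_num)).symm]
    refine Real.sqrt_le_sqrt ?_
    rw [Real.sqrt_sq (by norm_num)]
    nlinarith [Real.pi_gt_three]
  · rw [Real.sqrt_le_left (by norm_num)]
    nlinarith [Real.pi_lt_four]

/-- The smoothing of the continuous model. -/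
private theorem low_L {σ η : ℝ} (hσ : 0 < σ) (hη : 0 < η) (c z : ℝ) :
    gsm η (muL σ c) z = Real.sqrt (2 * Real.pi) * η * (σ / Real.sqrt (σ ^ 2 + η ^ 2)) *
      WW (Real.sqrt (σ ^ 2 + η ^ 2)) c z := by
  set s : ℝ := Real.sqrt (σ ^ 2 + η ^ 2) with hs
  have hs0 : 0 < s := Real.sqrt_pos.mpr (by positivity)
  have hs2 : s ^ 2 = σ ^ 2 + η ^ 2 := by rw [hs, Real.sq_sqrt (by positivity)]
  unfold gsm
  rw [muL_int]
  have h1 : (fun x : ℝ => WW σ c x • Real.exp (-(z - x) ^ 2 / (2 * η ^ 2))) =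
      fun x => WW s c z * WW (σ * η / s) ((σ ^ 2 * z + η ^ 2 * c) / s ^ 2) x := by
    funext x
    unfold WW
    rw [smul_eq_mul, ← Real.exp_add, ← Real.exp_add]
    congr 1
    have hs4 : s ^ 4 = (σ ^ 2 + η ^ 2) ^ 2 := by rw [← hs2]; ring
    rw [div_pow, mul_pow]
    field_simp
    rw [hs2]
    ring
  rw [h1, integral_const_mul, (WW_int (by positivity) _).2]
  field_simp

/-- The continuous model is close to its weight. -/
private theorem low_B {σ η : ℝ} (hσ : 0 < σ) (hη : 0 < η) (c : ℝ) :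
    Integrable (fun z => (η * Real.sqrt (2 * Real.pi))⁻¹ * gsm η (muL σ c) z - WW σ c z) ∧
    ∫ z, |(η * Real.sqrt (2 * Real.pi))⁻¹ * gsm η (muL σ c) z - WW σ c z| ≤ 3 * η ^ 2 / σ := by
  obtain ⟨hp0, hp1⟩ := low_s2
  set s : ℝ := Real.sqrt (σ ^ 2 + η ^ 2) with hs
  have hs0 : 0 < s := Real.sqrt_pos.mpr (by positivity)
  have hs2 : s ^ 2 = σ ^ 2 + η ^ 2 := by rw [hs, Real.sq_sqrt (by positivity)]
  have hsσ : σ ≤ s := by
    rw [hs]
    exact Real.le_sqrt_of_sq_le (by nlinarith [sq_nonneg η])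
  have h1 : (fun z => (η * Real.sqrt (2 * Real.pi))⁻¹ * gsm η (muL σ c) z - WW σ c z) =
      fun z => σ / s * WW s c z - WW σ c z := by
    funext z
    rw [low_L hσ hη, ← hs]
    have : Real.sqrt (2 * Real.pi) ≠ 0 := by positivity
    field_simp
  have i1 := (WW_int hs0 c).1
  have i2 := (WW_int hσ c).1
  have hI : Integrable (fun z => (η * Real.sqrt (2 * Real.pi))⁻¹ * gsm η (muL σ c) z - WW σ c z) := by
    rw [h1]
    exact (i1.const_mul _).sub i2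
  refine ⟨hI, ?_⟩
  have h2 : ∀ z, |(η * Real.sqrt (2 * Real.pi))⁻¹ * gsm η (muL σ c) z - WW σ c z| ≤
      (2 - σ / s) * WW s c z - WW σ c z := by
    intro z
    rw [congrFun h1 z]
    have h3 : WW σ c z ≤ WW s c z := by
      unfold WW
      rw [Real.exp_le_exp, neg_div, neg_div, neg_le_neg_iff]
      have h4 : 0 < σ ^ 2 := by positivity
      have h5 : σ ^ 2 ≤ s ^ 2 := by rw [hs2]; nlinarith [sq_nonneg η]
      exact div_le_div_of_nonneg_left (sq_nonneg _) (by positivity) (by linarith)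
    have h4 : σ / s ≤ 1 := by rw [div_le_one hs0]; exact hsσ
    have h5 := WW_nonneg s c z
    rw [abs_le]
    constructor
    · nlinarith
    · nlinarith
  refine (integral_mono hI.abs ((i1.const_mul _).sub i2) h2).trans ?_
  simp only [Pi.sub_apply]
  rw [integral_sub (i1.const_mul _) i2, integral_const_mul, (WW_int hs0 c).2, (WW_int hσ c).2]
  have h6 : (2 - σ / s) * (Real.sqrt (2 * Real.pi) * s) - Real.sqrt (2 * Real.pi) * σ =
      2 * Real.sqrt (2 * Real.pi) * (s - σ) := by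
    field_simp
    ring
  rw [h6]
  have h7 : s - σ ≤ η ^ 2 / (2 * σ) := by
    rw [le_div_iff₀ (by positivity)]
    nlinarith
  calc 2 * Real.sqrt (2 * Real.pi) * (s - σ) ≤ 2 * 3 * (η ^ 2 / (2 * σ)) := by
        refine mul_le_mul (by linarith) h7 (by linarith) (by norm_num)
    _ = 3 * η ^ 2 / σ := by
        field_simp

/-- No tail estimate is needed for the first measure. -/
private theorem low_A {σ η : ℝ} (hσ : 0 < σ) (hσ1 : σ ≤ 1) (hη : 0 < η) (hη1 : η ≤ 1) (c : ℝ) (μ : Measure ℝ)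
    [IsFiniteMeasure μ] {lam κ : ℝ} (hlam : 0 < lam) (hκ : 0 ≤ κ) (h : 3 * η ≤ lam * κ ^ 2) :
    ∫ z, |gsm η μ z - gsm η (muL σ c) z| ≤ (∫ z, (gsm η μ z - gsm η (muL σ c) z)) +
      2 * (lam * (∫ z, (gsm η μ z - gsm η (muL σ c) z) ^ 2) + 6 * κ) := by
  obtain ⟨hp0, hp1⟩ := low_s2
  have := (muL_fin hσ c).1
  set s : ℝ := Real.sqrt (σ ^ 2 + η ^ 2) with hs
  have hs0 : 0 < s := Real.sqrt_pos.mpr (by positivity)
  have hs2 : s ^ 2 = σ ^ 2 + η ^ 2 := by rw [hs, Real.sq_sqrt (by positivity)]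
  have hsσ : σ ≤ s := by
    rw [hs]
    exact Real.le_sqrt_of_sq_le (by nlinarith [sq_nonneg η])
  have hs3 : Real.sqrt 2 * s ≤ 2 := by
    have h1 : (Real.sqrt 2 * s) ^ 2 ≤ 2 ^ 2 := by
      rw [mul_pow, Real.sq_sqrt (by norm_num), hs2]
      nlinarith
    exact le_of_sq_le_sq h1 (by norm_num)
  have hs20 : 0 < Real.sqrt 2 * s := by positivity
  -- the square root of the second smoothing
  have hv : ∀ z, gsm η (muL σ c) z ≤ lam * (κ * WW (Real.sqrt 2 * s) c z) ^ 2 := by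
    intro z
    rw [low_L hσ hη, ← hs]
    have h1 : WW (Real.sqrt 2 * s) c z ^ 2 = WW s c z := by
      unfold WW
      rw [← Real.exp_nat_mul]
      congr 1
      rw [mul_pow, Real.sq_sqrt (by norm_num)]
      push_cast
      field_simp
    rw [mul_pow, h1]
    have h2 : σ / s ≤ 1 := by rw [div_le_one hs0]; exact hsσ
    have h3 := WW_nonneg s c z
    calc Real.sqrt (2 * Real.pi) * η * (σ / s) * WW s c z ≤ 3 * η * 1 * WW s c z := by
          refine mul_le_mul_of_nonneg_right (mul_le_mul ?_ h2 (by positivity) (by positivity)) h3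
          exact mul_le_mul_of_nonneg_right hp1 hη.le
      _ ≤ lam * κ ^ 2 * WW s c z := mul_le_mul_of_nonneg_right (by linarith) h3
      _ = lam * (κ ^ 2 * WW s c z) := by ring
  have hpt : ∀ z, |gsm η μ z - gsm η (muL σ c) z| ≤ (gsm η μ z - gsm η (muL σ c) z) +
      2 * (lam * (gsm η μ z - gsm η (muL σ c) z) ^ 2 + κ * WW (Real.sqrt 2 * s) c z) := by
    intro z
    have h1 := gsm_nonneg η μ z
    have h2 := hv z
    have h3 : 0 ≤ κ * WW (Real.sqrt 2 * s) c z := mul_nonneg hκ (WW_nonneg _ _ _)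
    generalize gsm η μ z = a at h1 h2 ⊢
    generalize gsm η (muL σ c) z = b at h1 h2 ⊢
    generalize κ * WW (Real.sqrt 2 * s) c z = v at h1 h2 h3 ⊢
    rcases le_total 0 (a - b) with h4 | h4
    · rw [abs_of_nonneg h4]
      have := mul_nonneg hlam.le (sq_nonneg (a - b))
      linarith
    · rw [abs_of_nonpos h4]
      rcases le_total (b - a) v with h5 | h5
      · have := mul_nonneg hlam.le (sq_nonneg (a - b))
        linarith
      · have h6 : v ^ 2 ≤ (a - b) ^ 2 := by nlinarith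
        have h7 := mul_le_mul_of_nonneg_left h6 hlam.le
        linarith
  have i1 := (gsm_int hη μ).1
  have i2 := (gsm_int hη (muL σ c)).1
  have i3 : Integrable fun z => (gsm η μ z - gsm η (muL σ c) z) ^ 2 := by
    refine (ASI.planch_int μ (muL σ c) hη).congr (Filter.Eventually.of_forall fun z => ?_)
    unfold gsm
    simp only
    simp only [fun x : ℝ => sub_sq_comm x z]
  have i4 := (WW_int hs20 c).1.const_mul κ
  have i5 : Integrable fun z => (gsm η μ z - gsm η (muL σ c) z) := i1.sub i2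
  have i6 : Integrable fun z => 2 * (lam * (gsm η μ z - gsm η (muL σ c) z) ^ 2 + κ * WW (Real.sqrt 2 * s) c z) :=
    ((i3.const_mul lam).add i4).const_mul 2
  refine (integral_mono i5.abs (i5.add i6) hpt).trans ?_
  simp only [Pi.add_apply]
  rw [integral_add i5 i6, integral_const_mul, integral_add (i3.const_mul lam) i4, integral_const_mul,
    integral_const_mul, (WW_int hs20 c).2]
  have h8 : κ * (Real.sqrt (2 * Real.pi) * (Real.sqrt 2 * s)) ≤ 6 * κ := by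
    have h9 : Real.sqrt (2 * Real.pi) * (Real.sqrt 2 * s) ≤ 3 * 2 := mul_le_mul hp1 hs3 hs20.le (by norm_num)
    nlinarith
  linarith

/-- Plancherel. -/
private theorem low_P {η : ℝ} (hη : 0 < η) (μ1 μ2 : Measure ℝ) [IsFiniteMeasure μ1] [IsFiniteMeasure μ2] {e1 M T : ℝ}
    (hT : 0 ≤ T) (h1 : ∀ τ : ℝ, |τ| ≤ T → ‖cf μ1 τ - cf μ2 τ‖ ≤ e1) (h2 : ∀ τ : ℝ, ‖cf μ1 τ - cf μ2 τ‖ ≤ M) :
    ∫ z, (gsm η μ1 z - gsm η μ2 z) ^ 2 ≤
      Real.sqrt (2 * Real.pi) * η * (e1 ^ 2 + M ^ 2 * Real.exp (-(η ^ 2 * T ^ 2) / 2)) := by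
  have hM : 0 ≤ M := (norm_nonneg _).trans (h2 0)
  have e0 : ∫ z, (gsm η μ1 z - gsm η μ2 z) ^ 2 =
      η ^ 2 * ∫ τ : ℝ, Real.exp (-(η ^ 2 * τ ^ 2)) * ‖cf μ1 τ - cf μ2 τ‖ ^ 2 := by
    have h3 := ASI.planch μ1 μ2 hη
    unfold cf
    rw [← h3]
    refine integral_congr_ae (Filter.Eventually.of_forall fun z => ?_)
    unfold gsm
    simp only
    simp only [fun x : ℝ => sub_sq_comm x z]
  have hη2 : 0 < η ^ 2 := by positivity
  have g1 : Integrable fun τ : ℝ => Real.exp (-(η ^ 2 * τ ^ 2)) := by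
    have := integrable_exp_neg_mul_sq hη2
    refine this.congr (Filter.Eventually.of_forall fun τ => ?_)
    simp only
    congr 1
    ring
  have g2 : Integrable fun τ : ℝ => Real.exp (-(η ^ 2 / 2 * τ ^ 2)) := by
    have := integrable_exp_neg_mul_sq (by positivity : 0 < η ^ 2 / 2)
    refine this.congr (Filter.Eventually.of_forall fun τ => ?_)
    simp only
    congr 1
    ring
  have v1 : ∫ τ : ℝ, Real.exp (-(η ^ 2 * τ ^ 2)) = Real.sqrt Real.pi / η := by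
    have h3 := integral_gaussian (η ^ 2)
    rw [Real.sqrt_div' _ hη2.le, Real.sqrt_sq hη.le] at h3
    rw [← h3]
    refine integral_congr_ae (Filter.Eventually.of_forall fun τ => ?_)
    simp only
    congr 1
    ring
  have v2 : ∫ τ : ℝ, Real.exp (-(η ^ 2 / 2 * τ ^ 2)) = Real.sqrt (2 * Real.pi) / η := by
    have h3 := integral_gaussian (η ^ 2 / 2)
    rw [show Real.pi / (η ^ 2 / 2) = 2 * Real.pi / η ^ 2 by field_simp, Real.sqrt_div' _ hη2.le,
      Real.sqrt_sq hη.le] at h3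
    rw [← h3]
    refine integral_congr_ae (Filter.Eventually.of_forall fun τ => ?_)
    simp only
    congr 1
    ring
  have hpt : ∀ τ : ℝ, Real.exp (-(η ^ 2 * τ ^ 2)) * ‖cf μ1 τ - cf μ2 τ‖ ^ 2 ≤
      e1 ^ 2 * Real.exp (-(η ^ 2 * τ ^ 2)) +
        M ^ 2 * Real.exp (-(η ^ 2 * T ^ 2) / 2) * Real.exp (-(η ^ 2 / 2 * τ ^ 2)) := by
    intro τ
    have hn := norm_nonneg (cf μ1 τ - cf μ2 τ)
    rcases le_or_gt |τ| T with h3 | h3
    · have h4 : ‖cf μ1 τ - cf μ2 τ‖ ^ 2 ≤ e1 ^ 2 := pow_le_pow_left₀ hn (h1 τ h3) 2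
      have h5 := mul_le_mul_of_nonneg_left h4 (Real.exp_pos (-(η ^ 2 * τ ^ 2))).le
      have h6 : 0 ≤ M ^ 2 * Real.exp (-(η ^ 2 * T ^ 2) / 2) * Real.exp (-(η ^ 2 / 2 * τ ^ 2)) := by positivity
      linarith
    · have h4 : ‖cf μ1 τ - cf μ2 τ‖ ^ 2 ≤ M ^ 2 := pow_le_pow_left₀ hn (h2 τ) 2
      have h5 := mul_le_mul_of_nonneg_left h4 (Real.exp_pos (-(η ^ 2 * τ ^ 2))).le
      have h6 : 0 ≤ e1 ^ 2 * Real.exp (-(η ^ 2 * τ ^ 2)) := by positivity
      have h7 : Real.exp (-(η ^ 2 * τ ^ 2)) ≤ Real.exp (-(η ^ 2 * T ^ 2) / 2) * Real.exp (-(η ^ 2 / 2 * τ ^ 2)) := by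
        rw [← Real.exp_add, Real.exp_le_exp]
        have h8 : T ^ 2 ≤ τ ^ 2 := by
          rw [← sq_abs τ]
          exact pow_le_pow_left₀ hT h3.le 2
        have h9 := mul_le_mul_of_nonneg_left h8 hη2.le
        linarith
      have h8 := mul_le_mul_of_nonneg_left h7 (sq_nonneg M)
      linarith
  have hI : Integrable fun τ : ℝ => e1 ^ 2 * Real.exp (-(η ^ 2 * τ ^ 2)) +
        M ^ 2 * Real.exp (-(η ^ 2 * T ^ 2) / 2) * Real.exp (-(η ^ 2 / 2 * τ ^ 2)) :=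
    (g1.const_mul _).add (g2.const_mul _)
  rw [e0]
  have h9 := integral_mono_of_nonneg (Filter.Eventually.of_forall fun τ => by positivity) hI
    (Filter.Eventually.of_forall hpt)
  rw [integral_add (g1.const_mul _) (g2.const_mul _), integral_const_mul, integral_const_mul, v1, v2] at h9
  have h10 : Real.sqrt Real.pi ≤ Real.sqrt (2 * Real.pi) := Real.sqrt_le_sqrt (by linarith [Real.pi_pos])
  calc η ^ 2 * ∫ τ : ℝ, Real.exp (-(η ^ 2 * τ ^ 2)) * ‖cf μ1 τ - cf μ2 τ‖ ^ 2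
      ≤ η ^ 2 * (e1 ^ 2 * (Real.sqrt Real.pi / η) +
        M ^ 2 * Real.exp (-(η ^ 2 * T ^ 2) / 2) * (Real.sqrt (2 * Real.pi) / η)) :=
        mul_le_mul_of_nonneg_left h9 hη2.le
    _ ≤ η ^ 2 * (e1 ^ 2 * (Real.sqrt (2 * Real.pi) / η) +
        M ^ 2 * Real.exp (-(η ^ 2 * T ^ 2) / 2) * (Real.sqrt (2 * Real.pi) / η)) := by
        refine mul_le_mul_of_nonneg_left (add_le_add (mul_le_mul_of_nonneg_left ?_ (sq_nonneg _)) le_rfl) hη2.le
        exact div_le_div_of_nonneg_right h10 hη.le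
    _ = _ := by
        field_simp

/-- The mass is the Fourier transform at `0`. -/
private theorem low_m (μ1 μ2 : Measure ℝ) [IsFiniteMeasure μ1] [IsFiniteMeasure μ2] {η : ℝ} (hη : 0 < η) :
    (η * Real.sqrt (2 * Real.pi))⁻¹ * ∫ z, (gsm η μ1 z - gsm η μ2 z) ≤ ‖cf μ1 0 - cf μ2 0‖ := by
  obtain ⟨i1, v1⟩ := gsm_int hη μ1
  obtain ⟨i2, v2⟩ := gsm_int hη μ2
  rw [integral_sub i1 i2, v1, v2]
  have h1 : ∀ (μ : Measure ℝ) [IsFiniteMeasure μ], cf μ 0 = (((μ Set.univ).toReal : ℝ) : ℂ) := by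
    intro μ _
    unfold cf
    simp [Measure.real]
  rw [h1 μ1, h1 μ2, ← Complex.ofReal_sub, Complex.norm_real, Real.norm_eq_abs]
  have hp : Real.sqrt (2 * Real.pi) ≠ 0 := by positivity
  refine le_trans (le_of_eq ?_) (le_abs_self _)
  field_simp

private theorem low_pow {w A a : ℝ} (hw : 1 ≤ w) (ha : A + 1 ≤ a) {D : ℝ} (hD : 5 * D ≤ w) (hD0 : 0 ≤ D) :
    D * w ^ (-a) ≤ w ^ (-A) / 5 := by
  have hw0 : 0 < w := by linarith
  have h1 : w ^ (-a) ≤ w ^ (-A - 1) := Real.rpow_le_rpow_of_exponent_le hw (by linarith)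
  have h2 : w ^ (-A - 1) = w ^ (-A) / w := by rw [Real.rpow_sub_one hw0.ne']
  have h3 : 0 < w ^ (-A) := Real.rpow_pos_of_pos hw0 _
  calc D * w ^ (-a) ≤ D * (w ^ (-A) / w) := mul_le_mul_of_nonneg_left (by rw [← h2]; exact h1) hD0
    _ ≤ w ^ (-A) / 5 := by
      rw [mul_div_assoc', div_le_div_iff₀ hw0 (by norm_num)]
      nlinarith

theorem low {σ : ℝ} (E A N : ℝ) (hσ : 0 < σ) (hσ1 : σ ≤ 1) (hN : A + 1 ≤ N) (hN1 : 1 ≤ N) : ∃ w0 : ℝ, 1 ≤ w0 ∧ ∀ w c : ℝ,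
    w0 ≤ w → |c - w| ≤ E →
    Integrable (fun z => (w ^ (-N) * Real.sqrt (2 * Real.pi))⁻¹ * gsm (w ^ (-N)) (muP σ c) z - WW σ c z) ∧
    ∫ z, |(w ^ (-N) * Real.sqrt (2 * Real.pi))⁻¹ * gsm (w ^ (-N)) (muP σ c) z - WW σ c z| ≤ w ^ (-A) := by
  obtain ⟨C, hC1, hC⟩ := muP_mass
  set B : ℝ := |A| + 1 with hB
  have hAB : A + 1 ≤ B := by have := le_abs_self A; linarith
  have hB1 : 1 ≤ B := by have := abs_nonneg A; linarith
  set A1 : ℝ := N + 2 * B with hA1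
  obtain ⟨w1, hw1, hg⟩ := SMC.gp_gauss hσ hσ1 1 A1
  obtain ⟨hp0, hp1⟩ := low_s2
  -- the eventual conditions
  have ev1 : ∀ᶠ w : ℝ in Filter.atTop, w ^ (2 * N + 1) * Real.exp (-1 * w) ≤ 1 := by
    have h1 := tendsto_rpow_mul_exp_neg_mul_atTop_nhds_zero (2 * N + 1) 1 one_pos
    exact h1.eventually_le_const (by norm_num)
  have ev2 : ∀ᶠ w : ℝ in Filter.atTop, w ^ (A1 + 12 + A) * Real.exp (-(1 / 2) * w) ≤ (10 * (64 * C + 3) ^ 2)⁻¹ := by
    have h1 := tendsto_rpow_mul_exp_neg_mul_atTop_nhds_zero (A1 + 12 + A) (1 / 2) (by norm_num)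
    exact h1.eventually_le_const (by positivity)
  obtain ⟨w2, hw2⟩ := Filter.eventually_atTop.1 (ev1.and ev2)
  set D : ℝ := 60 + 15 / σ + 10 * (4 : ℝ) ^ A1 + 2 * w1 + 2 * |E| + 1 with hD
  refine ⟨max D w2, ?_, ?_⟩
  · refine le_trans ?_ (le_max_left _ _)
    have h1 : 0 ≤ 15 / σ := by positivity
    have h2 : (0 : ℝ) ≤ 10 * (4 : ℝ) ^ A1 := by positivity
    have h3 := abs_nonneg E
    linarith
  intro w c hw hc
  have hwD : D ≤ w := (le_max_left _ _).trans hw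
  obtain ⟨hev1, hev2⟩ := hw2 w ((le_max_right _ _).trans hw)
  have d1 : 0 ≤ 15 / σ := by positivity
  have d2 : (0 : ℝ) ≤ (4 : ℝ) ^ A1 := by positivity
  have d3 := abs_nonneg E
  have hw1' : 2 * w1 + 2 * |E| + 1 ≤ w := by linarith
  have hw60 : 60 ≤ w := by linarith
  have hwσ : 15 / σ ≤ w := by linarith
  have hw4 : 10 * (4 : ℝ) ^ A1 ≤ w := by linarith
  have hw0 : 0 < w := by linarith
  have hw1 : 1 ≤ w := by linarith
  have hEE : E ≤ |E| := le_abs_self E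
  obtain ⟨hc1, hc2⟩ := abs_le.1 hc
  have hcw : w / 2 ≤ c := by linarith
  have hcw1 : w1 ≤ c := by linarith
  have hc0 : 0 < c := by linarith
  have hcw2 : 1 + |c| ≤ 2 * w := by rw [abs_of_pos hc0]; linarith
  set η : ℝ := w ^ (-N) with hη
  have hη0 : 0 < η := Real.rpow_pos_of_pos hw0 _
  have hη1 : η ≤ 1 := by
    rw [hη]
    exact Real.rpow_le_one_of_one_le_of_nonpos hw1 (by linarith)
  have fP : IsFiniteMeasure (muP σ c) := (hC σ c hσ hσ1).1
  have fL : IsFiniteMeasure (muL σ c) := (muL_fin hσ c).1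
  set e1 : ℝ := c ^ (-A1) with he1
  set M : ℝ := C * (1 + |c|) ^ 6 + 3 with hM
  have k1 : ∀ τ : ℝ, |τ| ≤ Real.exp c → ‖cf (muP σ c) τ - cf (muL σ c) τ‖ ≤ e1 := by
    intro τ hτ
    rw [cf_muP hσ hσ1, cf_muL hσ]
    exact hg c τ hcw1 (by rwa [one_mul])
  have k2 : ∀ τ : ℝ, ‖cf (muP σ c) τ - cf (muL σ c) τ‖ ≤ M := by
    intro τ
    refine (norm_sub_le _ _).trans (add_le_add ((cf_norm_le _ _).trans (hC σ c hσ hσ1).2) ((cf_norm_le _ _).trans ?_))
    rw [(muL_fin hσ c).2.1]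
    nlinarith
  have k3 := low_P hη0 (muP σ c) (muL σ c) (Real.exp_pos c).le k1 k2
  set lam : ℝ := w ^ A1 with hlam
  have hlam0 : 0 < lam := Real.rpow_pos_of_pos hw0 _
  set κ : ℝ := 2 * w ^ (-N - B) with hκ
  have hκ0 : 0 < κ := by
    have := Real.rpow_pos_of_pos hw0 (-N - B)
    positivity
  have hlk : 3 * η ≤ lam * κ ^ 2 := by
    have h1 : lam * κ ^ 2 = 4 * η := by
      rw [hlam, hκ, hη, mul_pow, ← Real.rpow_natCast (w ^ (-N - B)) 2, ← Real.rpow_mul hw0.le]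
      rw [show w ^ A1 * (2 ^ 2 * w ^ ((-N - B) * ((2 : ℕ) : ℝ))) = 4 * (w ^ A1 * w ^ ((-N - B) * ((2 : ℕ) : ℝ))) by ring,
        ← Real.rpow_add hw0]
      congr 2
      rw [hA1]
      push_cast
      ring
    rw [h1]
    linarith
  have k4 := low_A hσ hσ1 hη0 hη1 c (muP σ c) hlam0 hκ0.le hlk
  have k5 := (low_m (muP σ c) (muL σ c) hη0).trans (k1 0 (by rw [abs_zero]; exact (Real.exp_pos c).le))
  obtain ⟨k6, k7⟩ := low_B hσ hη0 c
  have i1 := (gsm_int hη0 (muP σ c)).1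
  have i2 := (gsm_int hη0 (muL σ c)).1
  have i3 : Integrable fun z => (η * Real.sqrt (2 * Real.pi))⁻¹ * (gsm η (muP σ c) z - gsm η (muL σ c) z) :=
    (i1.sub i2).const_mul _
  have e2 : (fun z => (η * Real.sqrt (2 * Real.pi))⁻¹ * gsm η (muP σ c) z - WW σ c z) =
      fun z => (η * Real.sqrt (2 * Real.pi))⁻¹ * (gsm η (muP σ c) z - gsm η (muL σ c) z) +
        ((η * Real.sqrt (2 * Real.pi))⁻¹ * gsm η (muL σ c) z - WW σ c z) := by
    funext z
    ring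
  have hI : Integrable (fun z => (η * Real.sqrt (2 * Real.pi))⁻¹ * gsm η (muP σ c) z - WW σ c z) := by
    rw [e2]
    exact i3.add k6
  refine ⟨hI, ?_⟩
  have hq0 : 0 < (η * Real.sqrt (2 * Real.pi))⁻¹ := by positivity
  have hpt : ∀ z, |(η * Real.sqrt (2 * Real.pi))⁻¹ * gsm η (muP σ c) z - WW σ c z| ≤
      (η * Real.sqrt (2 * Real.pi))⁻¹ * |gsm η (muP σ c) z - gsm η (muL σ c) z| +
        |(η * Real.sqrt (2 * Real.pi))⁻¹ * gsm η (muL σ c) z - WW σ c z| := by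
    intro z
    rw [congrFun e2 z]
    refine (abs_add_le _ _).trans (add_le_add (le_of_eq ?_) le_rfl)
    rw [abs_mul, abs_of_pos hq0]
  have i5 : Integrable fun z => (η * Real.sqrt (2 * Real.pi))⁻¹ * |gsm η (muP σ c) z - gsm η (muL σ c) z| :=
    (i1.sub i2).abs.const_mul _
  have k8 := integral_mono hI.abs (i5.add k6.abs) hpt
  simp only [Pi.add_apply] at k8
  rw [integral_add i5 k6.abs, integral_const_mul] at k8
  -- the five terms
  have hA10 : 0 ≤ A1 := by linarith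
  have he0 : 0 ≤ e1 := (norm_nonneg _).trans (k1 0 (by rw [abs_zero]; exact (Real.exp_pos c).le))
  have h1 : e1 ≤ (2 : ℝ) ^ A1 * w ^ (-A1) := by
    rw [he1]
    have h2 : c ^ (-A1) ≤ (w / 2) ^ (-A1) :=
      Real.rpow_le_rpow_of_nonpos (by positivity) hcw (by linarith)
    refine h2.trans (le_of_eq ?_)
    rw [Real.div_rpow hw0.le (by norm_num), Real.rpow_neg (by norm_num : (0 : ℝ) ≤ 2)]
    field_simp
  have t1 : e1 ≤ w ^ (-A) / 5 := by
    refine h1.trans (low_pow hw1 (by linarith) ?_ (by positivity))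
    have h2 : (2 : ℝ) ^ A1 ≤ (4 : ℝ) ^ A1 := Real.rpow_le_rpow (by norm_num) (by norm_num) hA10
    linarith
  have t2 : 2 * lam * e1 ^ 2 ≤ w ^ (-A) / 5 := by
    have h2 : 2 * lam * e1 ^ 2 ≤ 2 * (4 : ℝ) ^ A1 * w ^ (-A1) := by
      have h3 : e1 ^ 2 ≤ ((2 : ℝ) ^ A1 * w ^ (-A1)) ^ 2 := pow_le_pow_left₀ he0 h1 2
      refine (mul_le_mul_of_nonneg_left h3 (by positivity)).trans (le_of_eq ?_)
      have h4 : (4 : ℝ) ^ A1 = ((2 : ℝ) ^ A1) ^ 2 := by
        rw [← Real.rpow_natCast ((2 : ℝ) ^ A1) 2, ← Real.rpow_mul (by norm_num), mul_comm A1, Real.rpow_mul (by norm_num)]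
        norm_num
      have h5 : lam * w ^ (-A1) = 1 := by
        rw [hlam, ← Real.rpow_add hw0, add_neg_cancel, Real.rpow_zero]
      rw [h4]
      calc 2 * lam * ((2 : ℝ) ^ A1 * w ^ (-A1)) ^ 2 = 2 * ((2 : ℝ) ^ A1) ^ 2 * w ^ (-A1) * (lam * w ^ (-A1)) := by ring
        _ = _ := by rw [h5, mul_one]
    refine h2.trans (low_pow hw1 (by linarith) (by linarith) (by positivity))
  have t3 : 2 * lam * (M ^ 2 * Real.exp (-(η ^ 2 * Real.exp c ^ 2) / 2)) ≤ w ^ (-A) / 5 := by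
    have hM0 : 0 ≤ M := (norm_nonneg _).trans (k2 0)
    have h2 : M ≤ (64 * C + 3) * w ^ 6 := by
      have h3 : (1 + |c|) ^ 6 ≤ (2 * w) ^ 6 := pow_le_pow_left₀ (by positivity) hcw2 6
      have h4 : (1 : ℝ) ≤ w ^ 6 := one_le_pow₀ hw1
      have h5 : C * (1 + |c|) ^ 6 ≤ C * (2 * w) ^ 6 := mul_le_mul_of_nonneg_left h3 (by linarith)
      rw [hM]
      have h6 : C * (2 * w) ^ 6 = 64 * C * w ^ 6 := by ring
      linarith
    have h3 : M ^ 2 ≤ (64 * C + 3) ^ 2 * w ^ 12 := by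
      refine (pow_le_pow_left₀ hM0 h2 2).trans (le_of_eq (by ring))
    have h4 : w ≤ η ^ 2 * Real.exp c ^ 2 := by
      have h5 : Real.exp w ≤ Real.exp c ^ 2 := by
        rw [← Real.exp_nat_mul, Real.exp_le_exp]
        push_cast
        linarith
      have h6 : η ^ 2 = w ^ (-(2 * N)) := by
        rw [hη, ← Real.rpow_natCast (w ^ (-N)) 2, ← Real.rpow_mul hw0.le]
        congr 1
        push_cast
        ring
      have h7 : w ^ (2 * N + 1) ≤ Real.exp w := by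
        rw [neg_one_mul, Real.exp_neg, ← div_eq_mul_inv, div_le_one (Real.exp_pos _)] at hev1
        exact hev1
      have h8 : w ^ (-(2 * N)) * w ^ (2 * N + 1) = w := by
        rw [← Real.rpow_add hw0, show -(2 * N) + (2 * N + 1) = 1 by ring, Real.rpow_one]
      rw [h6]
      calc w = w ^ (-(2 * N)) * w ^ (2 * N + 1) := h8.symm
        _ ≤ w ^ (-(2 * N)) * Real.exp c ^ 2 :=
          mul_le_mul_of_nonneg_left (h7.trans h5) (Real.rpow_pos_of_pos hw0 _).le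
    have h5 : Real.exp (-(η ^ 2 * Real.exp c ^ 2) / 2) ≤ Real.exp (-(1 / 2) * w) := by
      rw [Real.exp_le_exp]
      linarith
    have h6 : 2 * lam * (M ^ 2 * Real.exp (-(η ^ 2 * Real.exp c ^ 2) / 2)) ≤
        2 * lam * ((64 * C + 3) ^ 2 * w ^ 12 * Real.exp (-(1 / 2) * w)) := by
      refine mul_le_mul_of_nonneg_left (mul_le_mul h3 h5 (Real.exp_pos _).le (by positivity)) (by positivity)
    refine h6.trans ?_
    have h7 : lam * w ^ 12 = w ^ (A1 + 12 + A) * w ^ (-A) := by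
      rw [hlam, ← Real.rpow_natCast w 12, ← Real.rpow_add hw0, ← Real.rpow_add hw0]
      congr 1
      push_cast
      ring
    have hC3 : 0 < (64 * C + 3) ^ 2 := by positivity
    have h8 : 0 < w ^ (-A) := Real.rpow_pos_of_pos hw0 _
    calc 2 * lam * ((64 * C + 3) ^ 2 * w ^ 12 * Real.exp (-(1 / 2) * w))
        = 2 * (64 * C + 3) ^ 2 * (lam * w ^ 12) * Real.exp (-(1 / 2) * w) := by ring
      _ = 2 * (64 * C + 3) ^ 2 * (w ^ (A1 + 12 + A) * Real.exp (-(1 / 2) * w)) * w ^ (-A) := by rw [h7]; ring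
      _ ≤ 2 * (64 * C + 3) ^ 2 * (10 * (64 * C + 3) ^ 2)⁻¹ * w ^ (-A) := by
        refine mul_le_mul_of_nonneg_right (mul_le_mul_of_nonneg_left hev2 (by positivity)) h8.le
      _ = w ^ (-A) / 5 := by
        field_simp
        norm_num
  have t4 : 6 * κ / η ≤ w ^ (-A) / 5 := by
    have h2 : 6 * κ / η = 12 * w ^ (-B) := by
      have h3 : w ^ (-N - B) = w ^ (-B) * η := by
        rw [hη, ← Real.rpow_add hw0]
        congr 1
        ring
      rw [hκ, h3]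
      field_simp
      norm_num
    rw [h2]
    exact low_pow hw1 hAB (by linarith) (by norm_num)
  have t5 : 3 * η ^ 2 / σ ≤ w ^ (-A) / 5 := by
    have h2 : 3 * η ^ 2 / σ = 3 / σ * w ^ (-(2 * N)) := by
      have h3 : η ^ 2 = w ^ (-(2 * N)) := by
        rw [hη, ← Real.rpow_natCast (w ^ (-N)) 2, ← Real.rpow_mul hw0.le]
        congr 1
        push_cast
        ring
      rw [h3]
      ring
    rw [h2]
    refine low_pow hw1 (by linarith) ?_ (by positivity)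
    refine le_trans (le_of_eq ?_) hwσ
    ring
  -- the sum
  have hp : 0 < Real.sqrt (2 * Real.pi) := by linarith
  have u1 := mul_le_mul_of_nonneg_left k4 hq0.le
  have u2 : (η * Real.sqrt (2 * Real.pi))⁻¹ * (lam * ∫ z, (gsm η (muP σ c) z - gsm η (muL σ c) z) ^ 2) ≤
      lam * (e1 ^ 2 + M ^ 2 * Real.exp (-(η ^ 2 * Real.exp c ^ 2) / 2)) := by
    calc (η * Real.sqrt (2 * Real.pi))⁻¹ * (lam * ∫ z, (gsm η (muP σ c) z - gsm η (muL σ c) z) ^ 2)
        ≤ (η * Real.sqrt (2 * Real.pi))⁻¹ * (lam * (Real.sqrt (2 * Real.pi) * η *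
          (e1 ^ 2 + M ^ 2 * Real.exp (-(η ^ 2 * Real.exp c ^ 2) / 2)))) :=
          mul_le_mul_of_nonneg_left (mul_le_mul_of_nonneg_left k3 hlam0.le) hq0.le
      _ = _ := by
        field_simp
  have u3 : (η * Real.sqrt (2 * Real.pi))⁻¹ * (12 * κ) ≤ 6 * κ / η := by
    rw [inv_mul_le_iff₀ (by positivity)]
    rw [show η * Real.sqrt (2 * Real.pi) * (6 * κ / η) = Real.sqrt (2 * Real.pi) * (6 * κ) by field_simp]
    nlinarith
  have u4 : (η * Real.sqrt (2 * Real.pi))⁻¹ * ((∫ z, (gsm η (muP σ c) z - gsm η (muL σ c) z)) +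
      2 * (lam * (∫ z, (gsm η (muP σ c) z - gsm η (muL σ c) z) ^ 2) + 6 * κ)) =
      (η * Real.sqrt (2 * Real.pi))⁻¹ * (∫ z, (gsm η (muP σ c) z - gsm η (muL σ c) z)) +
      2 * ((η * Real.sqrt (2 * Real.pi))⁻¹ * (lam * ∫ z, (gsm η (muP σ c) z - gsm η (muL σ c) z) ^ 2)) +
      (η * Real.sqrt (2 * Real.pi))⁻¹ * (12 * κ) := by ring
  rw [u4] at u1
  linarith

end HLA
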