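import Mathlib

/-!
# HLA.Sto: from blocks to all `X`

PROOF. Fix `n`, `η = 1/n`, `x_j = jη`. `b_j = N(e^(x_{j+1})) - N(e^(x_j))`, `b_j x_j^k e^(-x_j) → c (e^η - 1)`. Put `a_j = e^(x_{j+1})/x_{j+1}^k - e^(x_j)/x_j^k` (`j ≥ 1`): `a_j x_j^k e^(-x_j) → e^η - 1 > 0`, `a_j > 0` for large `j` and `∑ a_j = ∞`
(it telescopes). So `b_j/a_j → c` and by Stolz-Cesàro (or directly with `ε`: `b_j ≤ (c+ε) a_j` for `j ≥ j0`, sum over `j`) `N(e^(x_J))/(e^(x_J)/x_J^k) → c` as `J → ∞`. For `x_J ≤ log X < x_{J+1}`: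
`N(e^(x_J)) ≤ N X ≤ N(e^(x_{J+1}))`, so all limit points of `N X (log X)^k/X` are in `[c e^(-η), c e^η]`. This holds for all `n`.
-/

namespace HLA

open Filter

/-- a perturbed contraction tends to `0` -/
private theorem sto_seq {v ρ e : ℕ → ℝ} {r0 : ℝ} (h1 : r0 < 1) (h0 : 0 < r0)
    (hρ : Tendsto ρ atTop (nhds r0)) (he : Tendsto e atTop (nhds 0))
    (h : ∀ j, 1 ≤ j → v (j + 1) = ρ j * v j + e j) : Tendsto v atTop (nhds 0) := by
  obtain ⟨r, hr0, hr1⟩ := exists_between h1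
  have hrpos : 0 < r := h0.trans hr0
  rw [Metric.tendsto_atTop]
  intro ε hε
  have hε' : 0 < ε / 2 * (1 - r) := mul_pos (by positivity) (by linarith)
  have e1 : ∀ᶠ j in atTop, ρ j < r := hρ.eventually (gt_mem_nhds hr0)
  have e2 : ∀ᶠ j in atTop, 0 < ρ j := hρ.eventually (lt_mem_nhds h0)
  have e3 : ∀ᶠ j in atTop, |e j| < ε / 2 * (1 - r) := by
    have := he.abs
    rw [abs_zero] at this
    exact this.eventually (gt_mem_nhds hε')
  obtain ⟨j0, hj0⟩ := eventually_atTop.1 (e1.and (e2.and (e3.and (eventually_ge_atTop 1))))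
  have hind : ∀ i : ℕ, |v (j0 + i)| ≤ r ^ i * |v j0| + ε / 2 := by
    intro i
    induction i with
    | zero =>
      simp only [add_zero, pow_zero, one_mul]
      linarith
    | succ i ih =>
      obtain ⟨a1, a2, a3, a4⟩ := hj0 (j0 + i) (Nat.le_add_right _ _)
      rw [← add_assoc, h (j0 + i) a4]
      calc |ρ (j0 + i) * v (j0 + i) + e (j0 + i)|
          ≤ |ρ (j0 + i) * v (j0 + i)| + |e (j0 + i)| := abs_add_le _ _
        _ ≤ r * (r ^ i * |v j0| + ε / 2) + ε / 2 * (1 - r) := by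
            rw [abs_mul, abs_of_pos a2]
            exact add_le_add (mul_le_mul a1.le ih (abs_nonneg _) hrpos.le) a3.le
        _ = r ^ (i + 1) * |v j0| + ε / 2 := by ring
  have h4 : Tendsto (fun i : ℕ => r ^ i * |v j0|) atTop (nhds 0) := by
    have := (tendsto_pow_atTop_nhds_zero_of_lt_one hrpos.le hr1).mul_const (|v j0|)
    rwa [zero_mul] at this
  obtain ⟨i0, hi0⟩ := eventually_atTop.1 (h4.eventually (gt_mem_nhds (half_pos hε)))
  refine ⟨j0 + i0, fun m hm => ?_⟩
  obtain ⟨i, rfl⟩ := Nat.exists_eq_add_of_le (le_trans (Nat.le_add_right _ _) hm)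
  have hi : i0 ≤ i := by omega
  rw [Real.dist_eq, sub_zero]
  have := hi0 i hi
  linarith [hind i]

/-- the limit along the points `exp (j / n)` -/
private theorem sto_pts {N : ℝ → ℝ} (k : ℕ) {c : ℝ} (n : ℕ) (hn : 1 ≤ n)
    (h : Tendsto (fun j : ℕ => (N (Real.exp (((j : ℝ) + 1) / n)) - N (Real.exp ((j : ℝ) / n))) *
      ((j : ℝ) / n) ^ k / Real.exp ((j : ℝ) / n)) atTop (nhds (c * (Real.exp (1 / (n : ℝ)) - 1)))) :
    Tendsto (fun j : ℕ => N (Real.exp ((j : ℝ) / n)) * ((j : ℝ) / n) ^ k / Real.exp ((j : ℝ) / n))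
      atTop (nhds c) := by
  have hn0 : (0 : ℝ) < n := by exact_mod_cast hn
  set u : ℕ → ℝ := fun j => N (Real.exp ((j : ℝ) / n)) * ((j : ℝ) / n) ^ k / Real.exp ((j : ℝ) / n)
    with hu
  set F : ℕ → ℝ := fun j => (N (Real.exp (((j : ℝ) + 1) / n)) - N (Real.exp ((j : ℝ) / n))) *
      ((j : ℝ) / n) ^ k / Real.exp ((j : ℝ) / n) with hF
  set ρ : ℕ → ℝ := fun j => (((j : ℝ) + 1) / j) ^ k * Real.exp (-(1 / (n : ℝ))) with hρd
  have hρ : Tendsto ρ atTop (nhds (Real.exp (-(1 / (n : ℝ))))) := by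
    have h1 : Tendsto (fun j : ℕ => ((j : ℝ) + 1) / j) atTop (nhds 1) := by
      have h2 : Tendsto (fun j : ℕ => 1 + 1 / (j : ℝ)) atTop (nhds (1 + 0)) :=
        tendsto_const_nhds.add tendsto_one_div_atTop_nhds_zero_nat
      rw [add_zero] at h2
      refine h2.congr' ?_
      filter_upwards [eventually_ge_atTop 1] with j hj
      have : (j : ℝ) ≠ 0 := by
        have : 1 ≤ j := hj
        positivity
      field_simp
    have h3 := (h1.pow k).mul_const (Real.exp (-(1 / (n : ℝ))))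
    rwa [one_pow, one_mul] at h3
  have hv : Tendsto (fun j => u j - c) atTop (nhds 0) := by
    refine sto_seq (ρ := ρ) (e := fun j => ρ j * (c + F j) - c) (r0 := Real.exp (-(1 / (n : ℝ))))
      ?_ (Real.exp_pos _) hρ ?_ ?_
    · rw [Real.exp_lt_one_iff]
      have : (0 : ℝ) < 1 / n := by positivity
      linarith
    · have h1 := (hρ.mul (h.const_add c)).sub_const c
      have e : Real.exp (-(1 / (n : ℝ))) * (c + c * (Real.exp (1 / (n : ℝ)) - 1)) - c = 0 := by
        have h2 : Real.exp (-(1 / (n : ℝ))) * Real.exp (1 / (n : ℝ)) = 1 := by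
          rw [← Real.exp_add, neg_add_cancel, Real.exp_zero]
        linear_combination c * h2
      rwa [e] at h1
    · intro j hj
      have hj0 : (j : ℝ) ≠ 0 := by
        have : 1 ≤ j := hj
        positivity
      have key : u (j + 1) = ρ j * (u j + F j) := by
        have e1 : (((j + 1 : ℕ) : ℝ)) / n = ((j : ℝ) + 1) / n := by push_cast; ring
        have e2 : Real.exp (((j : ℝ) + 1) / n) = Real.exp ((j : ℝ) / n) * Real.exp (1 / (n : ℝ)) := by
          rw [← Real.exp_add]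
          congr 1
          ring
        have e3 : (((j : ℝ) + 1) / n) ^ k = (((j : ℝ) + 1) / j) ^ k * ((j : ℝ) / n) ^ k := by
          rw [← mul_pow]
          congr 1
          field_simp
        have e4 : Real.exp (-(1 / (n : ℝ))) = (Real.exp (1 / (n : ℝ)))⁻¹ := Real.exp_neg _
        simp only [hu, hF, hρd]
        rw [e1, e3, e4]
        have hE := (Real.exp_pos ((j : ℝ) / n)).ne'
        have hE1 := (Real.exp_pos (1 / (n : ℝ))).ne'
        have hsum : N (Real.exp ((j : ℝ) / n)) * ((j : ℝ) / n) ^ k / Real.exp ((j : ℝ) / n) +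
            (N (Real.exp (((j : ℝ) + 1) / n)) - N (Real.exp ((j : ℝ) / n))) *
            ((j : ℝ) / n) ^ k / Real.exp ((j : ℝ) / n) =
            N (Real.exp (((j : ℝ) + 1) / n)) * ((j : ℝ) / n) ^ k / Real.exp ((j : ℝ) / n) := by
          ring
        rw [hsum]
        have hden : N (Real.exp (((j : ℝ) + 1) / n)) *
            ((((j : ℝ) + 1) / j) ^ k * ((j : ℝ) / n) ^ k) / Real.exp (((j : ℝ) + 1) / n) =
            N (Real.exp (((j : ℝ) + 1) / n)) *
            ((((j : ℝ) + 1) / j) ^ k * ((j : ℝ) / n) ^ k) /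
            (Real.exp ((j : ℝ) / n) * Real.exp (1 / (n : ℝ))) := by
          rw [← e2]
        rw [hden]
        generalize N (Real.exp (((j : ℝ) + 1) / n)) = N1
        generalize (((j : ℝ) + 1) / j) ^ k = A
        generalize ((j : ℝ) / n) ^ k = B
        generalize Real.exp ((j : ℝ) / n) = X at *
        generalize Real.exp (1 / (n : ℝ)) = Y at *
        field_simp
      show u (j + 1) - c = ρ j * (u j - c) + (ρ j * (c + F j) - c)
      rw [key]
      ring
  have := hv.add_const c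
  simpa using this

theorem sto {N : ℝ → ℝ} (hm : Monotone N) (h0 : ∀ x, 0 ≤ N x) (k : ℕ) {c : ℝ} (hc : 0 ≤ c)
    (h : ∀ n : ℕ, 1 ≤ n → Tendsto (fun j : ℕ => (N (Real.exp (((j : ℝ) + 1) / n)) - N (Real.exp ((j : ℝ) / n))) *
      ((j : ℝ) / n) ^ k / Real.exp ((j : ℝ) / n)) atTop (nhds (c * (Real.exp (1 / (n : ℝ)) - 1)))) :
    Tendsto (fun X : ℝ => N X * Real.log X ^ k / X) atTop (nhds c) := by
  set f : ℝ → ℝ := fun X => N X * Real.log X ^ k / X with hf
  rw [Metric.tendsto_nhds]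
  intro ε hε
  -- choice of `n`
  have hn1 : Tendsto (fun n : ℕ => c * Real.exp (1 / (n : ℝ))) atTop (nhds c) := by
    have h1 : Tendsto (fun n : ℕ => c * Real.exp (1 / (n : ℝ))) atTop (nhds (c * Real.exp 0)) :=
      ((Real.continuous_exp.tendsto 0).comp tendsto_one_div_atTop_nhds_zero_nat).const_mul c
    rwa [Real.exp_zero, mul_one] at h1
  have hn2 : Tendsto (fun n : ℕ => c * Real.exp (-(1 / (n : ℝ)))) atTop (nhds c) := by
    have h0' : Tendsto (fun n : ℕ => -(1 / (n : ℝ))) atTop (nhds (-0)) :=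
      tendsto_one_div_atTop_nhds_zero_nat.neg
    rw [neg_zero] at h0'
    have h1 : Tendsto (fun n : ℕ => c * Real.exp (-(1 / (n : ℝ)))) atTop
        (nhds (c * Real.exp 0)) :=
      ((Real.continuous_exp.tendsto 0).comp h0').const_mul c
    rwa [Real.exp_zero, mul_one] at h1
  obtain ⟨n, hna, hnb, hn⟩ := ((hn1.eventually (gt_mem_nhds (show c < c + ε by linarith))).and
    ((hn2.eventually (lt_mem_nhds (show c - ε < c by linarith))).and
      (eventually_ge_atTop 1))).exists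
  have hn0 : (0 : ℝ) < n := by exact_mod_cast hn
  set u : ℕ → ℝ := fun j => N (Real.exp ((j : ℝ) / n)) * ((j : ℝ) / n) ^ k / Real.exp ((j : ℝ) / n)
    with hu
  have hul : Tendsto u atTop (nhds c) := sto_pts k n hn (h n hn)
  -- upper and lower sequences
  have hU : ∀ᶠ j : ℕ in atTop, u (j + 1) * Real.exp (1 / (n : ℝ)) < c + ε :=
    ((((tendsto_add_atTop_iff_nat 1).2 hul).mul_const _).eventually (gt_mem_nhds hna))
  have hL : ∀ᶠ j : ℕ in atTop, c - ε < u j * Real.exp (-(1 / (n : ℝ))) :=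
    ((hul.mul_const _).eventually (lt_mem_nhds hnb))
  -- the index
  have hidx : Tendsto (fun X : ℝ => ⌊n * Real.log X⌋₊) atTop atTop :=
    tendsto_nat_floor_atTop.comp (Real.tendsto_log_atTop.const_mul_atTop hn0)
  filter_upwards [hidx.eventually hU, hidx.eventually hL, eventually_gt_atTop (1 : ℝ)] with X h1 h2 h3
  have hX0 : 0 < X := by linarith
  have hlog : 0 ≤ Real.log X := Real.log_nonneg h3.le
  set j := ⌊n * Real.log X⌋₊ with hj
  have hj1 : (j : ℝ) ≤ n * Real.log X := Nat.floor_le (by positivity)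
  have hj2 : n * Real.log X < j + 1 := Nat.lt_floor_add_one _
  have hj1' : (j : ℝ) / n ≤ Real.log X := by
    rw [div_le_iff₀ hn0]
    linarith
  have hj2' : Real.log X ≤ ((j : ℝ) + 1) / n := by
    rw [le_div_iff₀ hn0]
    linarith
  have hjn : (0 : ℝ) ≤ (j : ℝ) / n := by positivity
  have eX : Real.exp (Real.log X) = X := Real.exp_log hX0
  have hb1 : Real.exp ((j : ℝ) / n) ≤ X := by
    rw [← eX]
    exact Real.exp_le_exp.2 hj1'
  have hb2 : X ≤ Real.exp (((j : ℝ) + 1) / n) := by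
    rw [← eX]
    exact Real.exp_le_exp.2 hj2'
  have e2 : Real.exp (((j : ℝ) + 1) / n) = Real.exp ((j : ℝ) / n) * Real.exp (1 / (n : ℝ)) := by
    rw [← Real.exp_add]
    congr 1
    ring
  have hup : f X ≤ u (j + 1) * Real.exp (1 / (n : ℝ)) := by
    have e1 : (((j + 1 : ℕ) : ℝ)) / n = ((j : ℝ) + 1) / n := by push_cast; ring
    have e3 : u (j + 1) * Real.exp (1 / (n : ℝ)) =
        N (Real.exp (((j : ℝ) + 1) / n)) * (((j : ℝ) + 1) / n) ^ k / Real.exp ((j : ℝ) / n) := by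
      have hE := (Real.exp_pos ((j : ℝ) / n)).ne'
      have hE1 := (Real.exp_pos (1 / (n : ℝ))).ne'
      simp only [hu]
      rw [e1]
      have : N (Real.exp (((j : ℝ) + 1) / n)) * (((j : ℝ) + 1) / n) ^ k /
          Real.exp (((j : ℝ) + 1) / n) = N (Real.exp (((j : ℝ) + 1) / n)) *
          (((j : ℝ) + 1) / n) ^ k / (Real.exp ((j : ℝ) / n) * Real.exp (1 / (n : ℝ))) := by
        rw [← e2]
      rw [this]
      field_simp
    rw [e3]
    simp only [hf]
    have hnum : N X * Real.log X ^ k ≤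
        N (Real.exp (((j : ℝ) + 1) / n)) * (((j : ℝ) + 1) / n) ^ k :=
      mul_le_mul (hm hb2) (pow_le_pow_left₀ hlog hj2' k) (by positivity) (h0 _)
    have hnn : 0 ≤ N (Real.exp (((j : ℝ) + 1) / n)) * (((j : ℝ) + 1) / n) ^ k :=
      mul_nonneg (h0 _) (by positivity)
    exact div_le_div₀ hnn hnum (Real.exp_pos _) hb1
  have hlo : u j * Real.exp (-(1 / (n : ℝ))) ≤ f X := by
    have e3 : u j * Real.exp (-(1 / (n : ℝ))) =
        N (Real.exp ((j : ℝ) / n)) * ((j : ℝ) / n) ^ k / Real.exp (((j : ℝ) + 1) / n) := by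
      rw [e2, Real.exp_neg]
      simp only [hu]
      have hE := (Real.exp_pos ((j : ℝ) / n)).ne'
      have hE1 := (Real.exp_pos (1 / (n : ℝ))).ne'
      field_simp
    rw [e3]
    simp only [hf]
    have hnum : N (Real.exp ((j : ℝ) / n)) * ((j : ℝ) / n) ^ k ≤ N X * Real.log X ^ k :=
      mul_le_mul (hm hb1) (pow_le_pow_left₀ hjn hj1' k) (by positivity) (h0 _)
    have hnn : 0 ≤ N X * Real.log X ^ k := mul_nonneg (h0 _) (by positivity)
    exact div_le_div₀ hnn hnum hX0 hb2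
  rw [Real.dist_eq, abs_lt]
  constructor <;> linarith

end HLA
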