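import Pool.Agent.HLA.Blk3
import Pool.Agent.HLA.Blk2
import Pool.Agent.HLA.Sto
import Pool.Agent.Lib.PNT

/-!
# HLA.MMl: chains of at least `k` primes, `k ≤ 3`, for good multipliers and all `β`

PROOF. `tri3`, `tri2`: `sto` with `blk3`, `blk2` (`Tr3`, `Tr2` are increasing in `X` by `tr3_fin`, `tr2_fin`).
`mm_lim`: for primes `q`, `q'` (so `q' ≥ 1`): `T α β q = q'` iff `-β ≤ α q - q' < 1 - β` (`⌊x⌋₊ = q' ≥ 1` iff `q' ≤ x < q' + 1`). So `MM α β 3 X` is the number of the prime triples with `q0 ≤ X` (`q0 < ⌊X⌋ + 1`) and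
`α q0 - q1, α q1 - q2 ∈ [-β, 1-β)`; so for `0 < ε < 1` it is between `Tr3 α (-β) (1-β-ε) (-β) (1-β-ε) X` and `Tr3 α (-β) (1-β) (-β) (1-β) (X+1)`; divide by `X/(log X)^3`, limits `(1-ε)²` and `1`, `ε → 0`. The same for `k = 2`. `k = 1`: `MM α β 1 X = π(X)`
(`Nat.primeCounting`), `Pool.Agent.Lib.PNT.pi_real`. (`α = exp (log α)`.)
-/

namespace HLA

open MeasureTheory ArithmeticFunction SMC Filter

theorem tri3 {θ u1 v1 u2 v2 : ℝ} (hθ : Good θ) (h1 : u1 ≤ v1) (h2 : u2 ≤ v2) :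
    Tendsto (fun X : ℝ => (Tr3 (Real.exp θ) u1 v1 u2 v2 X : ℝ) * Real.log X ^ 3 / X) atTop
      (nhds ((v1 - u1) * (v2 - u2))) := by
  refine sto (N := fun X : ℝ => (Tr3 (Real.exp θ) u1 v1 u2 v2 X : ℝ)) ?_ (fun _ => Nat.cast_nonneg _) 3
    (mul_nonneg (sub_nonneg.2 h1) (sub_nonneg.2 h2)) fun n hn => blk3 hθ h1 h2 hn
  intro X Y hXY
  show (Tr3 (Real.exp θ) u1 v1 u2 v2 X : ℝ) ≤ (Tr3 (Real.exp θ) u1 v1 u2 v2 Y : ℝ)
  refine Nat.cast_le.2 (Set.ncard_le_ncard ?_ (tr3_fin _ _ _ _ _ _))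
  rintro q ⟨a1, a2, a3, a4, a5⟩
  exact ⟨a1, a2, a3, lt_of_lt_of_le a4 hXY, a5⟩

theorem tri2 {θ u v : ℝ} (hθ : Good θ) (h : u ≤ v) :
    Tendsto (fun X : ℝ => (Tr2 (Real.exp θ) u v X : ℝ) * Real.log X ^ 2 / X) atTop (nhds (v - u)) := by
  refine sto (N := fun X : ℝ => (Tr2 (Real.exp θ) u v X : ℝ)) ?_ (fun _ => Nat.cast_nonneg _) 2
    (sub_nonneg.2 h) fun n hn => blk2 hθ h hn
  intro X Y hXY
  show (Tr2 (Real.exp θ) u v X : ℝ) ≤ (Tr2 (Real.exp θ) u v Y : ℝ)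
  refine Nat.cast_le.2 (Set.ncard_le_ncard ?_ (tr2_fin _ _ _ _))
  rintro q ⟨a1, a2, a3, a4⟩
  exact ⟨a1, a2, lt_of_lt_of_le a3 hXY, a4⟩

/-- the next element of a chain -/
private theorem mml_T_iff {α β : ℝ} {q q' : ℕ} (hq : q'.Prime) :
    T α β q = q' ↔ (-β ≤ α * q - q' ∧ α * q - q' < 1 - β) := by
  unfold T
  rw [Nat.floor_eq_iff' hq.ne_zero]
  constructor
  · rintro ⟨h1, h2⟩; exact ⟨by linarith, by linarith⟩
  · rintro ⟨h1, h2⟩; exact ⟨by linarith, by linarith⟩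

private theorem mml_iff3 {α β : ℝ} {p : ℕ} : (∀ i < 3, ((T α β)^[i] p).Prime) ↔
    p.Prime ∧ (T α β p).Prime ∧ (T α β (T α β p)).Prime := by
  constructor
  · intro h
    exact ⟨h 0 (by norm_num), h 1 (by norm_num), h 2 (by norm_num)⟩
  · rintro ⟨h0, h1, h2⟩ i hi
    interval_cases i
    exacts [h0, h1, h2]

private theorem mml_iff2 {α β : ℝ} {p : ℕ} : (∀ i < 2, ((T α β)^[i] p).Prime) ↔
    p.Prime ∧ (T α β p).Prime := by
  constructor
  · intro h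
    exact ⟨h 0 (by norm_num), h 1 (by norm_num)⟩
  · rintro ⟨h0, h1⟩ i hi
    interval_cases i
    exacts [h0, h1]

private theorem mml_low3 (α β ε X : ℝ) (hε : 0 < ε) :
    Tr3 α (-β) (1 - β - ε) (-β) (1 - β - ε) X ≤ MM α β 3 X := by
  classical
  unfold Tr3 MM
  rw [← Set.ncard_coe_finset]
  refine Set.ncard_le_ncard_of_injOn (fun q : ℕ × ℕ × ℕ => q.1) ?_ ?_ (Finset.finite_toSet _)
  · rintro ⟨a, b, c⟩ ⟨ha, hb, hc, hX, h1, h2, h3, h4⟩
    simp only at ha hb hc hX h1 h2 h3 h4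
    have e1 : T α β a = b := (mml_T_iff hb).2 ⟨h1, by linarith⟩
    have e2 : T α β b = c := (mml_T_iff hc).2 ⟨h3, by linarith⟩
    have hXa : a ≤ ⌊X⌋₊ := Nat.le_floor hX.le
    simp only [Finset.coe_filter, Finset.mem_Icc, Set.mem_ofPred_eq]
    exact ⟨⟨ha.one_lt.le, hXa⟩, mml_iff3.2 ⟨ha, by rw [e1]; exact hb, by rw [e1, e2]; exact hc⟩⟩
  · rintro ⟨a, b, c⟩ ⟨ha, hb, hc, hX, h1, h2, h3, h4⟩ ⟨a', b', c'⟩ ⟨ha', hb', hc', hX', h1', h2', h3', h4'⟩ h
    simp only at ha hb hc hX h1 h2 h3 h4 ha' hb' hc' hX' h1' h2' h3' h4' h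
    have e1 : T α β a = b := (mml_T_iff hb).2 ⟨h1, by linarith⟩
    have e2 : T α β b = c := (mml_T_iff hc).2 ⟨h3, by linarith⟩
    have e1' : T α β a' = b' := (mml_T_iff hb').2 ⟨h1', by linarith⟩
    have e2' : T α β b' = c' := (mml_T_iff hc').2 ⟨h3', by linarith⟩
    subst h
    rw [e1] at e1'
    subst e1'
    rw [e2] at e2'
    rw [e2']

private theorem mml_up3 (α β X : ℝ) (hX : 0 ≤ X) :
    MM α β 3 X ≤ Tr3 α (-β) (1 - β) (-β) (1 - β) (X + 1) := by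
  classical
  unfold Tr3 MM
  rw [← Set.ncard_coe_finset]
  refine Set.ncard_le_ncard_of_injOn (fun p : ℕ => (p, T α β p, T α β (T α β p))) ?_ ?_ (tr3_fin _ _ _ _ _ _)
  · intro p hp
    simp only [Finset.coe_filter, Finset.mem_Icc, Set.mem_ofPred_eq] at hp
    obtain ⟨⟨h1, h2⟩, h3⟩ := hp
    rw [mml_iff3] at h3
    obtain ⟨a1, a2, a3⟩ := h3
    have b1 := (mml_T_iff (α := α) (β := β) (q := p) a2).1 rfl
    have b2 := (mml_T_iff (α := α) (β := β) (q := T α β p) a3).1 rfl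
    have b3 : (p : ℝ) ≤ X := (Nat.le_floor_iff hX).1 h2
    exact ⟨a1, a2, a3, by show (p : ℝ) < X + 1; linarith, b1.1, b1.2.le, b2.1, b2.2.le⟩
  · intro p _ p' _ h
    exact congrArg Prod.fst h

private theorem mml_low2 (α β ε X : ℝ) (hε : 0 < ε) :
    Tr2 α (-β) (1 - β - ε) X ≤ MM α β 2 X := by
  classical
  unfold Tr2 MM
  rw [← Set.ncard_coe_finset]
  refine Set.ncard_le_ncard_of_injOn (fun q : ℕ × ℕ => q.1) ?_ ?_ (Finset.finite_toSet _)
  · rintro ⟨a, b⟩ ⟨ha, hb, hX, h1, h2⟩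
    simp only at ha hb hX h1 h2
    have e1 : T α β a = b := (mml_T_iff hb).2 ⟨h1, by linarith⟩
    have hXa : a ≤ ⌊X⌋₊ := Nat.le_floor hX.le
    simp only [Finset.coe_filter, Finset.mem_Icc, Set.mem_ofPred_eq]
    exact ⟨⟨ha.one_lt.le, hXa⟩, mml_iff2.2 ⟨ha, by rw [e1]; exact hb⟩⟩
  · rintro ⟨a, b⟩ ⟨ha, hb, hX, h1, h2⟩ ⟨a', b'⟩ ⟨ha', hb', hX', h1', h2'⟩ h
    simp only at ha hb hX h1 h2 ha' hb' hX' h1' h2' h
    have e1 : T α β a = b := (mml_T_iff hb).2 ⟨h1, by linarith⟩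
    have e1' : T α β a' = b' := (mml_T_iff hb').2 ⟨h1', by linarith⟩
    subst h
    rw [e1] at e1'
    rw [e1']

private theorem mml_up2 (α β X : ℝ) (hX : 0 ≤ X) :
    MM α β 2 X ≤ Tr2 α (-β) (1 - β) (X + 1) := by
  classical
  unfold Tr2 MM
  rw [← Set.ncard_coe_finset]
  refine Set.ncard_le_ncard_of_injOn (fun p : ℕ => (p, T α β p)) ?_ ?_ (tr2_fin _ _ _ _)
  · intro p hp
    simp only [Finset.coe_filter, Finset.mem_Icc, Set.mem_ofPred_eq] at hp
    obtain ⟨⟨h1, h2⟩, h3⟩ := hp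
    rw [mml_iff2] at h3
    obtain ⟨a1, a2⟩ := h3
    have b1 := (mml_T_iff (α := α) (β := β) (q := p) a2).1 rfl
    have b3 : (p : ℝ) ≤ X := (Nat.le_floor_iff hX).1 h2
    exact ⟨a1, a2, by show (p : ℝ) < X + 1; linarith, b1.1, b1.2.le⟩
  · intro p _ p' _ h
    exact congrArg Prod.fst h

/-- from the sandwich to the limit -/
private theorem mml_lim {M : ℝ → ℕ} {lo : ℝ → ℝ → ℕ} {up : ℝ → ℕ} (k j : ℕ)
    (h1 : ∀ ε : ℝ, 0 < ε → ∀ X, lo ε X ≤ M X)
    (h2 : ∀ ε : ℝ, 0 < ε → ε < 1 → Tendsto (fun X : ℝ => (lo ε X : ℝ) * Real.log X ^ k / X) atTop (nhds ((1 - ε) ^ j)))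
    (h3 : ∀ X : ℝ, 0 ≤ X → M X ≤ up (X + 1))
    (h4 : Tendsto (fun X : ℝ => (up X : ℝ) * Real.log X ^ k / X) atTop (nhds 1)) :
    Tendsto (fun X : ℝ => (M X : ℝ) * Real.log X ^ k / X) atTop (nhds 1) := by
  rw [tendsto_order]
  constructor
  · intro b hb
    -- choose ε
    have hcont : Tendsto (fun ε : ℝ => (1 - ε) ^ j) (nhdsWithin 0 (Set.Ioi 0)) (nhds 1) := by
      have : Continuous fun ε : ℝ => (1 - ε) ^ j := by fun_prop
      have h := (this.tendsto 0).mono_left (nhdsWithin_le_nhds (s := Set.Ioi (0 : ℝ)))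
      simpa using h
    have hev := (hcont.eventually (lt_mem_nhds hb)).and
      (Ioo_mem_nhdsGT (show (0 : ℝ) < 1 by norm_num) : ∀ᶠ ε in nhdsWithin (0 : ℝ) (Set.Ioi 0), ε ∈ Set.Ioo (0 : ℝ) 1)
    obtain ⟨ε, hε, hε0, hε1⟩ := hev.exists
    filter_upwards [(h2 ε hε0 hε1).eventually (lt_mem_nhds hε), eventually_ge_atTop (1 : ℝ)] with X hX hX1
    refine lt_of_lt_of_le hX ?_
    refine div_le_div_of_nonneg_right (mul_le_mul_of_nonneg_right ?_ ?_) (by linarith)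
    · exact_mod_cast h1 ε hε0 X
    · exact pow_nonneg (Real.log_nonneg hX1) k
  · intro b hb
    -- shift by one
    have h5 : Tendsto (fun X : ℝ => (up (X + 1) : ℝ) * Real.log (X + 1) ^ k / (X + 1)) atTop (nhds 1) :=
      h4.comp (tendsto_atTop_add_const_right atTop (1 : ℝ) tendsto_id)
    have h6 : Tendsto (fun X : ℝ => (X + 1) / X) atTop (nhds 1) := by
      have h7 : Tendsto (fun X : ℝ => 1 + X⁻¹) atTop (nhds (1 + 0)) :=
        tendsto_const_nhds.add tendsto_inv_atTop_zero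
      rw [add_zero] at h7
      refine h7.congr' ?_
      filter_upwards [eventually_gt_atTop (0 : ℝ)] with X hX
      field_simp
    have h8 := h5.mul h6
    rw [mul_one] at h8
    filter_upwards [h8.eventually (gt_mem_nhds hb), eventually_ge_atTop (1 : ℝ)] with X hX hX1
    refine lt_of_le_of_lt ?_ hX
    have hX0 : 0 < X := by linarith
    have e1 : (up (X + 1) : ℝ) * Real.log (X + 1) ^ k / (X + 1) * ((X + 1) / X) =
        (up (X + 1) : ℝ) * Real.log (X + 1) ^ k / X := by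
      have : X + 1 ≠ 0 := by linarith
      field_simp
    rw [e1]
    refine div_le_div_of_nonneg_right ?_ hX0.le
    refine mul_le_mul (by exact_mod_cast h3 X hX0.le) ?_ (pow_nonneg (Real.log_nonneg hX1) k) (Nat.cast_nonneg _)
    exact pow_le_pow_left₀ (Real.log_nonneg hX1) (Real.log_le_log hX0 (by linarith)) k

theorem mm_lim {α : ℝ} (hα : 1 < α) (hθ : Good (Real.log α)) (β : ℝ) (k : ℕ) (hk : 1 ≤ k) (hk3 : k ≤ 3) :
    Tendsto (fun X : ℝ => (MM α β k X : ℝ) * Real.log X ^ k / X) atTop (nhds 1) := by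
  have hα0 : Real.exp (Real.log α) = α := Real.exp_log (by linarith)
  interval_cases k
  · -- k = 1
    refine Pool.Agent.Lib.PNT.pi_real.congr fun X => ?_
    rw [pow_one]
    congr 3
    unfold MM
    rw [← Nat.primesLE_card_eq_primeCounting, Nat.primesLE_eq_filter_Icc_one]
    congr 1
    ext p
    simp only [Finset.mem_filter, Finset.mem_Icc]
    refine and_congr_right fun _ => ?_
    constructor
    · intro h i hi
      have : i = 0 := by omega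
      subst this
      exact h
    · intro h
      exact h 0 (by norm_num)
  · -- k = 2
    refine mml_lim (lo := fun ε X => Tr2 α (-β) (1 - β - ε) X) (up := fun X => Tr2 α (-β) (1 - β) X) 2 1
      (fun ε hε X => mml_low2 α β ε X hε) (fun ε hε hε1 => ?_) (fun X hX => mml_up2 α β X hX) ?_
    · have h := tri2 (u := -β) (v := 1 - β - ε) hθ (by linarith)
      rw [hα0] at h
      have e : (1 - β - ε) - -β = (1 - ε) ^ 1 := by ring
      rw [e] at h
      exact h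
    · have h := tri2 (u := -β) (v := 1 - β) hθ (by linarith)
      rw [hα0] at h
      have e : (1 - β) - -β = 1 := by ring
      rw [e] at h
      exact h
  · -- k = 3
    refine mml_lim (lo := fun ε X => Tr3 α (-β) (1 - β - ε) (-β) (1 - β - ε) X)
      (up := fun X => Tr3 α (-β) (1 - β) (-β) (1 - β) X) 3 2
      (fun ε hε X => mml_low3 α β ε X hε) (fun ε hε hε1 => ?_) (fun X hX => mml_up3 α β X hX) ?_
    · have h := tri3 (u1 := -β) (v1 := 1 - β - ε) (u2 := -β) (v2 := 1 - β - ε) hθ (by linarith) (by linarith)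
      rw [hα0] at h
      have e : ((1 - β - ε) - -β) * ((1 - β - ε) - -β) = (1 - ε) ^ 2 := by ring
      rw [e] at h
      exact h
    · have h := tri3 (u1 := -β) (v1 := 1 - β) (u2 := -β) (v2 := 1 - β) hθ (by linarith) (by linarith)
      rw [hα0] at h
      have e : ((1 - β) - -β) * ((1 - β) - -β) = 1 := by ring
      rw [e] at h
      exact h

end HLA
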