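import Pool.Agent.HLA.Defs

/-!
# HLA.Mu: basic facts on the measures `muS`, `muP`, `muL`

PROOF. `muS` is a countable sum of multiples of Dirac measures: mass `∑' ENNReal.ofReal (a n WW)` (`Measure.sum_apply`,
`ENNReal.ofReal_tsum_of_nonneg`), integrals by `integral_sum_measure`/`hasSum_integral_measure` and `integral_smul_measure`, `integral_dirac`
(see `Short_integral1` in `Pool/Agent/ASI/Short.lean`, the same construction with the weight `ps`). `muS_intble`: `Integrable f` is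
`AEStronglyMeasurable` (`f` is measurable) and `∫⁻ ‖f‖ = ∑' ofReal(a n WW) ‖f (log n)‖ ≤ B · mass`. `muP`: `exp_le16` in `SMC.GMean` and `ASI.div_gauss` with `y = c`
(valid for all real `c`). `cf_muP`: `muS_int` and `(n:ℂ)^(-(1+tI)) = n⁻¹ exp(-t log n I)` (`n ≥ 1`; `tw 0 = 0`), see `SMC.GaussS`, `ASI.Short` (`Short_P_eq`).
`muL`: `integral_withDensity_eq_integral_smul`; the mass is the Gaussian integral; `cf_muL` is the Fourier transform of a Gaussian
(`Short_mainT_eq` in `ASI/Short.lean`, or `integral_cexp_quadratic`, see `PrimeG_full` in `VKZ/PrimeG.lean`). `cf_norm_le`: norm of the integrand `= 1`.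
-/

namespace HLA

open MeasureTheory ArithmeticFunction SMC

theorem WW_nonneg (σ c x : ℝ) : 0 ≤ WW σ c x := (Real.exp_pos _).le

theorem WW_le_one (σ c x : ℝ) : WW σ c x ≤ 1 := by
  unfold WW
  apply Real.exp_le_one_iff.2
  have : 0 ≤ (x - c) ^ 2 / (2 * σ ^ 2) := by positivity
  rw [neg_div]
  linarith

theorem WW_cont (σ c : ℝ) : Continuous (WW σ c) := by
  unfold WW
  fun_prop

private theorem Mu_WW_eq {σ : ℝ} (hσ : 0 < σ) (c x : ℝ) :
    WW σ c x = Real.exp (-(1 / (2 * σ ^ 2)) * (x - c) ^ 2) := by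
  unfold WW
  congr 1
  field_simp

theorem WW_int {σ : ℝ} (hσ : 0 < σ) (c : ℝ) :
    Integrable (WW σ c) ∧ ∫ x, WW σ c x = Real.sqrt (2 * Real.pi) * σ := by
  have hb : 0 < 1 / (2 * σ ^ 2) := by positivity
  constructor
  · have h := (integrable_exp_neg_mul_sq hb).comp_sub_right c
    exact h.congr (ae_of_all _ fun x => (Mu_WW_eq hσ c x).symm)
  · simp only [Mu_WW_eq hσ c]
    rw [integral_sub_right_eq_self (fun x => Real.exp (-(1 / (2 * σ ^ 2)) * x ^ 2)) c,
      integral_gaussian]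
    have h1 : Real.pi / (1 / (2 * σ ^ 2)) = 2 * Real.pi * σ ^ 2 := by
      field_simp
    rw [h1, Real.sqrt_mul (by positivity), Real.sqrt_sq hσ.le]

private theorem Mu_mass {a : ℕ → ℝ} {σ c : ℝ} (h0 : ∀ n, 0 ≤ a n)
    (hs : Summable fun n : ℕ => a n * WW σ c (Real.log n)) :
    muS a σ c Set.univ = ENNReal.ofReal (∑' n : ℕ, a n * WW σ c (Real.log n)) := by
  unfold muS
  rw [Measure.sum_apply _ MeasurableSet.univ]
  simp only [Measure.smul_apply, measure_univ, smul_eq_mul, mul_one]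
  rw [← ENNReal.ofReal_tsum_of_nonneg (fun n => mul_nonneg (h0 n) (WW_nonneg _ _ _)) hs]

theorem muS_fin {a : ℕ → ℝ} {σ c : ℝ} (h0 : ∀ n, 0 ≤ a n)
    (hs : Summable fun n : ℕ => a n * WW σ c (Real.log n)) : IsFiniteMeasure (muS a σ c) ∧
    (muS a σ c Set.univ).toReal = ∑' n : ℕ, a n * WW σ c (Real.log n) := by
  constructor
  · constructor
    rw [Mu_mass h0 hs]
    exact ENNReal.ofReal_lt_top
  · rw [Mu_mass h0 hs, ENNReal.toReal_ofReal]
    exact tsum_nonneg fun n => mul_nonneg (h0 n) (WW_nonneg _ _ _)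

/-- Bounded measurable functions are integrable. -/
theorem bdd_intble {μ : Measure ℝ} [IsFiniteMeasure μ] {E : Type*} [NormedAddCommGroup E] {f : ℝ → E} {B : ℝ}
    (hf : StronglyMeasurable f) (hB : ∀ x, ‖f x‖ ≤ B) : Integrable f μ :=
  Integrable.mono' (integrable_const B) hf.aestronglyMeasurable (ae_of_all _ hB)

theorem muS_int {a : ℕ → ℝ} {σ c : ℝ} (h0 : ∀ n, 0 ≤ a n)
    (hs : Summable fun n : ℕ => a n * WW σ c (Real.log n)) {E : Type*} [NormedAddCommGroup E] [NormedSpace ℝ E]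
    [CompleteSpace E] {f : ℝ → E} (hf : Integrable f (muS a σ c)) :
    ∫ x, f x ∂(muS a σ c) = ∑' n : ℕ, (a n * WW σ c (Real.log n)) • f (Real.log n) := by
  unfold muS at hf ⊢
  rw [integral_sum_measure hf]
  refine tsum_congr fun n => ?_
  rw [integral_smul_measure, integral_dirac,
    ENNReal.toReal_ofReal (mul_nonneg (h0 n) (WW_nonneg _ _ _))]

/-- All the coefficients that occur. -/
theorem coef_sum : ∃ C : ℝ, 1 ≤ C ∧ ∀ (a : ℕ → ℝ) (σ c : ℝ), 0 < σ → σ ≤ 1 → (∀ n, 0 ≤ a n) →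
    (∀ n : ℕ, a n ≤ (n.divisors.card : ℝ) ^ 2 * (1 + Real.log n) ^ 2 / n) →
    Summable (fun n : ℕ => a n * WW σ c (Real.log n)) ∧
      ∑' n : ℕ, a n * WW σ c (Real.log n) ≤ C * (1 + |c|) ^ 6 := by
  obtain ⟨C, hC1, hC⟩ := ASI.div_gauss
  refine ⟨C, hC1, fun a σ c hσ hσ1 h0 ha => ?_⟩
  have hle : ∀ n : ℕ, a n * WW σ c (Real.log n) ≤
      (n.divisors.card : ℝ) ^ 2 * (1 + Real.log n) ^ 2 / n *
        Real.exp (-(Real.log n - c) ^ 2 / 16) := by
    intro n
    unfold WW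
    exact mul_le_mul (ha n) (exp_le16 hσ hσ1 _) (Real.exp_pos _).le (by positivity)
  have hsum : Summable (fun n : ℕ => a n * WW σ c (Real.log n)) :=
    Summable.of_nonneg_of_le (fun n => mul_nonneg (h0 n) (WW_nonneg _ _ _)) hle (hC c).1
  exact ⟨hsum, (hsum.tsum_le_tsum hle (hC c).1).trans (hC c).2.1⟩

private theorem Mu_tw_le (n : ℕ) : tw n ≤ (n.divisors.card : ℝ) ^ 2 * (1 + Real.log n) ^ 2 / n := by
  unfold tw
  exact div_le_div_of_nonneg_right (vm_le n) (Nat.cast_nonneg n)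

theorem muP_mass : ∃ C : ℝ, 1 ≤ C ∧ ∀ σ c : ℝ, 0 < σ → σ ≤ 1 → IsFiniteMeasure (muP σ c) ∧
    (muP σ c Set.univ).toReal ≤ C * (1 + |c|) ^ 6 := by
  obtain ⟨C, hC1, hC⟩ := coef_sum
  refine ⟨C, hC1, fun σ c hσ hσ1 => ?_⟩
  obtain ⟨h1, h2⟩ := hC tw σ c hσ hσ1 tw_nonneg Mu_tw_le
  obtain ⟨h3, h4⟩ := muS_fin (σ := σ) (c := c) tw_nonneg h1
  refine ⟨h3, ?_⟩
  unfold muP
  rw [h4]
  exact h2

theorem muP_summ {σ : ℝ} (hσ : 0 < σ) (hσ1 : σ ≤ 1) (c : ℝ) :
    Summable fun n : ℕ => tw n * WW σ c (Real.log n) := by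
  obtain ⟨C, _, hC⟩ := coef_sum
  exact (hC tw σ c hσ hσ1 tw_nonneg Mu_tw_le).1

theorem muL_fin {σ : ℝ} (hσ : 0 < σ) (c : ℝ) : IsFiniteMeasure (muL σ c) ∧
    (muL σ c Set.univ).toReal = Real.sqrt (2 * Real.pi) * σ ∧ muL σ c ≤ volume := by
  obtain ⟨h1, h2⟩ := WW_int hσ c
  have h3 : muL σ c Set.univ = ENNReal.ofReal (Real.sqrt (2 * Real.pi) * σ) := by
    unfold muL
    rw [withDensity_apply _ MeasurableSet.univ, Measure.restrict_univ,
      ← ofReal_integral_eq_lintegral_ofReal h1 (ae_of_all _ fun x => WW_nonneg σ c x), h2]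
  refine ⟨⟨?_⟩, ?_, ?_⟩
  · rw [h3]
    exact ENNReal.ofReal_lt_top
  · rw [h3, ENNReal.toReal_ofReal (by positivity)]
  · have h4 : muL σ c ≤ volume.withDensity 1 := by
      unfold muL
      apply withDensity_mono
      refine ae_of_all _ fun x => ?_
      simp only [Pi.one_apply]
      rw [ENNReal.ofReal_le_one]
      exact WW_le_one σ c x
    rwa [withDensity_one] at h4

theorem muL_int {σ c : ℝ} {E : Type*} [NormedAddCommGroup E] [NormedSpace ℝ E] (f : ℝ → E) :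
    ∫ x, f x ∂(muL σ c) = ∫ x, WW σ c x • f x := by
  unfold muL
  have hm : Measurable (WW σ c) := (WW_cont σ c).measurable
  rw [integral_withDensity_eq_integral_toReal_smul hm.ennreal_ofReal
    (ae_of_all _ fun x => ENNReal.ofReal_lt_top)]
  refine integral_congr_ae (ae_of_all _ fun x => ?_)
  simp only
  rw [ENNReal.toReal_ofReal (WW_nonneg σ c x)]

private theorem Mu_norm (t x : ℝ) : ‖Complex.exp (-(t * x * Complex.I))‖ = 1 := by
  rw [Complex.norm_exp]
  simp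

private theorem Mu_intble (μ : Measure ℝ) [IsFiniteMeasure μ] (t : ℝ) :
    Integrable (fun x : ℝ => Complex.exp (-(t * x * Complex.I))) μ := by
  refine Integrable.mono' (integrable_const (1 : ℝ)) (by fun_prop) (ae_of_all _ fun x => ?_)
  rw [Mu_norm]

theorem cf_muP {σ : ℝ} (hσ : 0 < σ) (hσ1 : σ ≤ 1) (c t : ℝ) : cf (muP σ c) t = gp σ c t := by
  have hs := muP_summ hσ hσ1 c
  have : IsFiniteMeasure (muS tw σ c) := (muS_fin tw_nonneg hs).1
  unfold cf muP
  rw [muS_int tw_nonneg hs (Mu_intble _ t)]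
  unfold gp
  refine tsum_congr fun n => ?_
  rcases Nat.eq_zero_or_pos n with rfl | hn
  · simp [tw]
  have hn0 : (n : ℂ) ≠ 0 := by exact_mod_cast hn.ne'
  have h1 : (n : ℂ) ^ (-(1 + t * Complex.I)) =
      (1 / (n : ℂ)) * Complex.exp (-(t * (Real.log n : ℝ) * Complex.I)) := by
    rw [Complex.cpow_def_of_ne_zero hn0]
    have h2 : Complex.log (n : ℂ) * -(1 + t * Complex.I) =
        -Complex.log (n : ℂ) + -(t * (Real.log n : ℝ) * Complex.I) := by
      rw [Complex.ofReal_log (by positivity), Complex.ofReal_natCast]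
      ring
    rw [h2, Complex.exp_add, Complex.exp_neg, Complex.exp_log hn0, one_div]
  rw [h1, Complex.real_smul]
  unfold tw WW
  push_cast
  ring

theorem cf_muL {σ : ℝ} (hσ : 0 < σ) (c t : ℝ) : cf (muL σ c) t = gm σ c t := by
  unfold cf
  rw [muL_int]
  have hσ0 : (σ : ℂ) ≠ 0 := by exact_mod_cast hσ.ne'
  have h1 : ∀ x : ℝ, WW σ c x • Complex.exp (-(t * x * Complex.I)) =
      Complex.exp ((-(1 / (2 * (σ : ℂ) ^ 2)) : ℂ) * (x : ℂ) ^ 2 +
        ((c : ℂ) / (σ : ℂ) ^ 2 - t * Complex.I) * x + (-(c : ℂ) ^ 2 / (2 * (σ : ℂ) ^ 2))) := by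
    intro x
    rw [Complex.real_smul]
    unfold WW
    rw [Complex.ofReal_exp, ← Complex.exp_add]
    congr 1
    push_cast
    field_simp
    ring
  simp only [h1]
  have hre : (-(1 / (2 * (σ : ℂ) ^ 2)) : ℂ) = ((-(1 / (2 * σ ^ 2)) : ℝ) : ℂ) := by
    push_cast
    rfl
  rw [integral_cexp_quadratic (by
    rw [hre, Complex.ofReal_re]
    have : 0 < 1 / (2 * σ ^ 2) := by positivity
    linarith)]
  unfold gm
  have h2 : ((Real.pi : ℂ) / -(-(1 / (2 * (σ : ℂ) ^ 2)))) ^ (1 / 2 : ℂ) =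
      (Real.sqrt (2 * Real.pi) * σ : ℝ) := by
    have h3 : ((Real.pi : ℂ) / -(-(1 / (2 * (σ : ℂ) ^ 2)))) = ((2 * Real.pi * σ ^ 2 : ℝ) : ℂ) := by
      push_cast
      field_simp
    have h4 : Real.sqrt (2 * Real.pi) * σ = Real.sqrt (2 * Real.pi * σ ^ 2) := by
      rw [Real.sqrt_mul (by positivity : (0 : ℝ) ≤ 2 * Real.pi) (σ ^ 2), Real.sqrt_sq hσ.le]
    rw [h3, h4, Real.sqrt_eq_rpow, Complex.ofReal_cpow (by positivity)]
    norm_num
  rw [h2]
  push_cast
  rw [mul_assoc, mul_assoc, mul_assoc, ← Complex.exp_add]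
  congr 3
  field_simp
  ring_nf
  rw [Complex.I_sq]
  ring

theorem cf_norm_le (μ : Measure ℝ) [IsFiniteMeasure μ] (t : ℝ) : ‖cf μ t‖ ≤ (μ Set.univ).toReal := by
  unfold cf
  have h := norm_integral_le_of_norm_le_const (μ := μ)
    (f := fun x : ℝ => Complex.exp (-(t * x * Complex.I))) (C := 1)
    (ae_of_all _ fun x => (Mu_norm t x).le)
  rwa [one_mul] at h

theorem cf_cont (μ : Measure ℝ) [IsFiniteMeasure μ] : Continuous (cf μ) := by
  unfold cf
  refine continuous_of_dominated (bound := fun _ => (1 : ℝ)) ?_ ?_ (integrable_const _) ?_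
  · intro t
    exact (Mu_intble μ t).aestronglyMeasurable
  · intro t
    exact ae_of_all _ fun x => (Mu_norm t x).le
  · exact ae_of_all _ fun x => by fun_prop

end HLA
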