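import Pool.Agent.HLA.Mu
import Pool.Agent.VKZ.PrimeG
import Pool.Agent.SMC.GaussS

/-!
# HLA.Nu: the sum over the natural numbers is close to the integral for very large frequencies

PROOF. As `VKZ.prime_gauss` (`Pool/Agent/VKZ/PrimeG.lean`) and `SMC.gp_gauss` (`Pool/Agent/SMC/GaussS.lean`), with `ζ` instead of `-ζ'/ζ`.
(1) `s = 1`: `∑_{n≥1} n^(-1-iτ) exp(-(log n - y)²/2) = gint ζ (1/y) y τ` (`gauss_mellin` with `a n = 1` for `n ≥ 1`, `a 0 = 0`; `LSeries` of `ζ`, or `zeta_eq_tsum_one_div_nat_cpow`), and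
`ζ z = 1/(z-1) + g z`, `g z = ζ z - 1/(z-1)` for `z ≠ 1`, an entire function after removing the singularity (`differentiableAt_update_of_residue`, or
`g = (Zf z - 1)/(z - 1)` with the value `deriv Zf 1` at `1`, `dslope Zf 1`). The part of `1/(z-1)` is `laplace_gauss`, exactly as in `prime_gauss` (`PrimeG_main`). For `g` use the copy of `PrimeG_shift`: in the region
`1 - c (log(|Im z|+3))^(-19/20) ≤ Re z ≤ 3` with a small `c` one has `|g z| ≤ C log(|Im z|+3)`: for `|Im z| ≥ t0` by `VKZ.zeta_bound`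
(`c (log(t+3))^(-19/20) ≤ (log t)^(-9/10)`... choose `t0` large, or `c` small), for `|Im z| ≤ t0` by compactness; on the right of the line `Re z = 1`: `|g z| ≤ C/(Re z - 1)`.
(2) `s < 1`: the convolution formula, exactly as `gp_gauss` is deduced from `GaussS_one` in `GaussS.lean` (`GaussS_gp`, `GaussS_gm`; copy with the coefficients `1` instead of `Λ`).
`cf (muS ..) τ` is the sum `∑ n⁻¹ WW s y (log n) exp(-iτ log n)` (`muS_int`, `coef_sum`).
-/

namespace HLA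

open MeasureTheory ArithmeticFunction SMC

section copies1

open VKZ

private theorem Nu_Plog {K w x : ℝ} (hw : 1 ≤ w) (hx : x ≤ Real.exp (K * w) + w) (hx0 : 0 ≤ x) :
    0 < Real.log (x + 3) ∧ Real.log (x + 3) ≤ (|K| + 5) * w := by
  constructor
  · exact Real.log_pos (by linarith)
  · have h1 : Real.exp (K * w) ≤ Real.exp ((|K| + 3) * w) := by
      refine Real.exp_le_exp.2 ?_
      have := le_abs_self K
      nlinarith
    have h2 : w ≤ Real.exp ((|K| + 3) * w) := by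
      have h3 := Real.add_one_le_exp ((|K| + 3) * w)
      have h4 := abs_nonneg K
      nlinarith
    have h3 : (3 : ℝ) ≤ Real.exp ((|K| + 3) * w) := by
      have h3 := Real.add_one_le_exp ((|K| + 3) * w)
      have h4 := abs_nonneg K
      nlinarith
    have h4 : (3 : ℝ) ≤ Real.exp (2 * w) := by
      have := Real.add_one_le_exp (2 * w)
      linarith
    have h5 : x + 3 ≤ Real.exp ((|K| + 5) * w) := by
      have e : Real.exp ((|K| + 5) * w) = Real.exp (2 * w) * Real.exp ((|K| + 3) * w) := by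
        rw [← Real.exp_add]
        congr 1
        ring
      rw [e]
      have h6 : 0 < Real.exp ((|K| + 3) * w) := Real.exp_pos _
      nlinarith
    calc Real.log (x + 3) ≤ Real.log (Real.exp ((|K| + 5) * w)) :=
          Real.log_le_log (by linarith) h5
      _ = (|K| + 5) * w := Real.log_exp _

private theorem Nu_Psmall (D q κ A : ℝ) (hκ : 0 < κ) :
    ∃ w0 : ℝ, 1 ≤ w0 ∧ ∀ w : ℝ, w0 ≤ w →
      D * w ^ q * Real.exp (-κ * w ^ (1 / 20 : ℝ)) ≤ w ^ (-A) / 2 := by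
  have h1 := tendsto_rpow_mul_exp_neg_mul_atTop_nhds_zero (20 * (q + A)) κ hκ
  have h2 : Filter.Tendsto (fun w : ℝ => w ^ (1 / 20 : ℝ)) Filter.atTop Filter.atTop :=
    tendsto_rpow_atTop (by norm_num)
  have h3 := (h1.comp h2).const_mul D
  rw [mul_zero] at h3
  have h4 := h3.eventually_le_const (show (0 : ℝ) < 1 / 2 by norm_num)
  obtain ⟨w0, hw0⟩ := Filter.eventually_atTop.1 h4
  refine ⟨max 1 w0, le_max_left _ _, fun w hw => ?_⟩
  have hw1 : 1 ≤ w := (le_max_left _ _).trans hw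
  have hwp : 0 < w := by linarith
  have h5 := hw0 w ((le_max_right _ _).trans hw)
  simp only [Function.comp_apply] at h5
  have h6 : (w ^ (1 / 20 : ℝ)) ^ (20 * (q + A)) = w ^ q * w ^ A := by
    rw [← Real.rpow_mul hwp.le, ← Real.rpow_add hwp]
    congr 1
    ring
  rw [h6] at h5
  have h7 : 0 < w ^ A := Real.rpow_pos_of_pos hwp _
  rw [Real.rpow_neg hwp.le, inv_eq_one_div, div_div, le_div_iff₀ (by positivity)]
  calc D * w ^ q * Real.exp (-κ * w ^ (1 / 20 : ℝ)) * (w ^ A * 2)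
      = D * (w ^ q * w ^ A * Real.exp (-κ * w ^ (1 / 20 : ℝ))) * 2 := by ring
    _ ≤ 1 / 2 * 2 := by gcongr
    _ = 1 := by norm_num

private theorem Nu_Pshift {F : ℂ → ℂ} {c C C2 : ℝ} (hc : 0 < c) (hc1 : c ≤ 1 / 4)
    (hC : 1 ≤ C) (hC2 : 0 ≤ C2)
    (hF : ∀ z : ℂ, z.re ≤ 3 → 1 - c * (Real.log (|z.im| + 3)) ^ (-(19 : ℝ) / 20) ≤ z.re →
      AnalyticAt ℂ F z ∧ ‖F z‖ ≤ C * Real.log (|z.im| + 3) ^ C)
    (hF' : ∀ z : ℂ, 1 < z.re → z.re ≤ 2 → ‖F z‖ ≤ C2 / (z.re - 1)) (K : ℝ) :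
    ∃ D κ q : ℝ, 0 < κ ∧ ∀ w τ : ℝ, 1 ≤ w → |τ| ≤ Real.exp (K * w) →
      ‖gint F (1 / w) w τ‖ ≤ D * w ^ q * Real.exp (-κ * w ^ (1 / 20 : ℝ)) := by
  obtain ⟨K1, hK1⟩ : ∃ K1 : ℝ, K1 = |K| + 5 := ⟨_, rfl⟩
  have hK5 : 5 ≤ K1 := by
    rw [hK1]
    have := abs_nonneg K
    linarith
  have hK0 : 0 < K1 := by linarith
  obtain ⟨c', hc'⟩ : ∃ c' : ℝ, c' = c * K1 ^ (-(19 : ℝ) / 20) := ⟨_, rfl⟩
  have hc'0 : 0 < c' := by
    rw [hc']
    exact mul_pos hc (Real.rpow_pos_of_pos hK0 _)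
  refine ⟨C * K1 ^ C * Real.exp 1 + 4 * (C * K1 ^ C) * Real.exp 2 + 6 * C2 * Real.exp 2,
    min c' (1 / 4), C + 1, lt_min hc'0 (by norm_num), fun w τ hw hτ => ?_⟩
  obtain ⟨κ, hκ⟩ : ∃ κ : ℝ, κ = min c' (1 / 4) := ⟨_, rfl⟩
  rw [← hκ]
  have hκ1 : κ ≤ c' := by rw [hκ]; exact min_le_left _ _
  have hκ2 : κ ≤ 1 / 4 := by rw [hκ]; exact min_le_right _ _
  have hκ0 : 0 < κ := by rw [hκ]; exact lt_min hc'0 (by norm_num)
  have hwp : 0 < w := by linarith
  have hKw : 1 ≤ K1 * w := by nlinarith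
  -- the width
  obtain ⟨b, hb⟩ : ∃ b : ℝ, b = c * (K1 * w) ^ (-(19 : ℝ) / 20) := ⟨_, rfl⟩
  have hb0 : 0 < b := by
    rw [hb]
    exact mul_pos hc (Real.rpow_pos_of_pos (by linarith) _)
  have hb1 : b ≤ 1 / 4 := by
    rw [hb]
    have : (K1 * w) ^ (-(19 : ℝ) / 20) ≤ 1 :=
      Real.rpow_le_one_of_one_le_of_nonpos hKw (by norm_num)
    nlinarith
  have hbw : b * w = c' * w ^ (1 / 20 : ℝ) := by
    rw [hb, hc', Real.mul_rpow hK0.le hwp.le]
    have : w ^ (-(19 : ℝ) / 20) * w = w ^ (1 / 20 : ℝ) := by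
      rw [← Real.rpow_add_one hwp.ne']
      congr 1
      norm_num
    rw [← this]
    ring
  have hroot : w ^ (1 / 20 : ℝ) ≤ w := by
    calc w ^ (1 / 20 : ℝ) ≤ w ^ (1 : ℝ) := Real.rpow_le_rpow_of_exponent_le hw (by norm_num)
      _ = w := Real.rpow_one w
  have hroot0 : 0 < w ^ (1 / 20 : ℝ) := Real.rpow_pos_of_pos hwp _
  obtain ⟨B, hB⟩ : ∃ B : ℝ, B = C * (K1 * w) ^ C := ⟨_, rfl⟩
  have hB0 : 0 ≤ B := by
    rw [hB]
    exact mul_nonneg (by linarith) (Real.rpow_nonneg (by linarith) _)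
  have hσ0 : 0 < 1 / w := by positivity
  have hσ1 : 1 / w ≤ 1 := by
    rw [div_le_one hwp]
    exact hw
  have hregion : ∀ z : ℂ, 1 - b ≤ z.re → z.re ≤ 2 → |z.im - τ| ≤ w →
      AnalyticAt ℂ F z ∧ ‖F z‖ ≤ B := by
    intro z h1 h2 h3
    have him : |z.im| ≤ Real.exp (K * w) + w := by
      have h4 : |z.im| ≤ |z.im - τ| + |τ| := by
        have := abs_add_le (z.im - τ) τ
        simpa using this
      linarith
    obtain ⟨hl0, hl1⟩ := Nu_Plog (K := K) hw him (abs_nonneg _)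
    rw [← hK1] at hl1
    have h5 : (K1 * w) ^ (-(19 : ℝ) / 20) ≤ (Real.log (|z.im| + 3)) ^ (-(19 : ℝ) / 20) :=
      Real.rpow_le_rpow_of_nonpos hl0 hl1 (by norm_num)
    have h6 : 1 - c * (Real.log (|z.im| + 3)) ^ (-(19 : ℝ) / 20) ≤ z.re := by
      have : b ≤ c * (Real.log (|z.im| + 3)) ^ (-(19 : ℝ) / 20) := by
        rw [hb]
        exact mul_le_mul_of_nonneg_left h5 hc.le
      linarith
    obtain ⟨h7, h8⟩ := hF z (by linarith) h6
    refine ⟨h7, h8.trans ?_⟩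
    rw [hB]
    exact mul_le_mul_of_nonneg_left (Real.rpow_le_rpow hl0.le hl1 (by linarith)) (by linarith)
  have hline : ∀ v : ℝ, (1 + (τ : ℂ) * Complex.I + (((1 / w : ℝ) : ℂ) + v * Complex.I)).re =
      1 + 1 / w := by
    intro v
    simp
  have hbd : ∀ v : ℝ, ‖F (1 + τ * Complex.I + (((1 / w : ℝ) : ℂ) + v * Complex.I))‖ ≤ C2 * w := by
    intro v
    have h1 := hF' (1 + τ * Complex.I + (((1 / w : ℝ) : ℂ) + v * Complex.I))
      (by rw [hline]; linarith) (by rw [hline]; linarith)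
    rw [hline] at h1
    have h2 : C2 / (1 + 1 / w - 1) = C2 * w := by
      field_simp
      ring
    rwa [h2] at h1
  have hcont : Continuous fun v : ℝ => F (1 + τ * Complex.I +
      (((1 / w : ℝ) : ℂ) + v * Complex.I)) := by
    rw [continuous_iff_continuousAt]
    intro v
    have h1 : ContinuousAt F (1 + τ * Complex.I + (((1 / w : ℝ) : ℂ) + v * Complex.I)) := by
      refine (hF _ (by rw [hline]; linarith) ?_).1.continuousAt
      rw [hline]
      have h2 : 0 ≤ c * (Real.log (|(1 + τ * Complex.I +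
          (((1 / w : ℝ) : ℂ) + v * Complex.I)).im| + 3)) ^ (-(19 : ℝ) / 20) := by
        refine mul_nonneg hc.le (Real.rpow_nonneg (Real.log_nonneg ?_) _)
        have := abs_nonneg (1 + (τ : ℂ) * Complex.I +
          (((1 / w : ℝ) : ℂ) + v * Complex.I)).im
        linarith
      linarith
    refine ContinuousAt.comp (f := fun v : ℝ => 1 + (τ : ℂ) * Complex.I +
      (((1 / w : ℝ) : ℂ) + v * Complex.I)) h1 ?_
    fun_prop
  have hsh := shift_le (F := F) (b := b) (B := B) (B' := C2 * w) (σ := 1 / w) (w := w) (τ := τ)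
    (V := w) hb0 (by linarith) hσ0 hσ1 hwp.le hw hB0 (by positivity) hregion hbd hcont
  refine hsh.trans ?_
  have hσw : 1 / w * w = 1 := by field_simp
  have hσsq : (1 / w) ^ 2 ≤ 1 := pow_le_one₀ hσ0.le hσ1
  have hbsq : b ^ 2 ≤ 1 := pow_le_one₀ hb0.le (by linarith)
  have hE : Real.exp (-κ * w ^ (1 / 20 : ℝ)) = Real.exp (-κ * w ^ (1 / 20 : ℝ)) := rfl
  have hww : w ≤ w ^ 2 := by nlinarith
  -- the three exponentials
  have e1 : Real.exp (b ^ 2 / 2 - b * w) ≤ Real.exp 1 * Real.exp (-κ * w ^ (1 / 20 : ℝ)) := by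
    rw [← Real.exp_add, hbw]
    refine Real.exp_le_exp.2 ?_
    nlinarith
  have e2 : Real.exp (((1 / w) ^ 2 + b ^ 2 - w ^ 2) / 2 + 1 / w * w) ≤
      Real.exp 2 * Real.exp (-κ * w ^ (1 / 20 : ℝ)) := by
    rw [← Real.exp_add, hσw]
    refine Real.exp_le_exp.2 ?_
    nlinarith
  have e3 : Real.exp ((1 / w) ^ 2 / 2 + 1 / w * w - w ^ 2 / 4) ≤
      Real.exp 2 * Real.exp (-κ * w ^ (1 / 20 : ℝ)) := by
    rw [← Real.exp_add, hσw]
    refine Real.exp_le_exp.2 ?_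
    nlinarith
  have hEp : 0 < Real.exp (-κ * w ^ (1 / 20 : ℝ)) := Real.exp_pos _
  have hBw : B ≤ C * K1 ^ C * w ^ (C + 1) := by
    rw [hB, Real.mul_rpow hK0.le hwp.le, mul_assoc]
    refine mul_le_mul_of_nonneg_left (mul_le_mul_of_nonneg_left
      (Real.rpow_le_rpow_of_exponent_le hw (by linarith)) (Real.rpow_nonneg hK0.le _))
      (by linarith)
  have hww2 : w ≤ w ^ (C + 1) := by
    calc w = w ^ (1 : ℝ) := (Real.rpow_one w).symm
      _ ≤ w ^ (C + 1) := Real.rpow_le_rpow_of_exponent_le hw (by linarith)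
  have hwC : 0 < w ^ (C + 1) := Real.rpow_pos_of_pos hwp _
  have hbσ : b + 1 / w ≤ 2 := by linarith
  calc B * Real.exp (b ^ 2 / 2 - b * w) +
      2 * B * (b + 1 / w) * Real.exp (((1 / w) ^ 2 + b ^ 2 - w ^ 2) / 2 + 1 / w * w) +
      6 * (C2 * w) * Real.exp ((1 / w) ^ 2 / 2 + 1 / w * w - w ^ 2 / 4)
      ≤ (C * K1 ^ C * w ^ (C + 1)) * (Real.exp 1 * Real.exp (-κ * w ^ (1 / 20 : ℝ))) +
      2 * (C * K1 ^ C * w ^ (C + 1)) * 2 * (Real.exp 2 * Real.exp (-κ * w ^ (1 / 20 : ℝ))) +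
      6 * (C2 * w ^ (C + 1)) * (Real.exp 2 * Real.exp (-κ * w ^ (1 / 20 : ℝ))) := by
        gcongr
    _ = _ := by ring

private theorem Nu_Pgint_congr {F G : ℂ → ℂ} {σ : ℝ} (w τ : ℝ)
    (h : ∀ z : ℂ, z.re = 1 + σ → F z = G z) : gint F σ w τ = gint G σ w τ := by
  unfold gint
  congr 1
  refine MeasureTheory.integral_congr_ae (Filter.Eventually.of_forall fun v => ?_)
  simp only
  rw [h]
  simp

private theorem Nu_Pseries {f : ℕ → ℂ} (h0 : f 0 = 0) (z : ℂ) :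
    ∑' n : ℕ, f n * (n : ℂ) ^ (-z) = LSeries f z := by
  unfold LSeries
  refine tsum_congr fun n => ?_
  rcases Nat.eq_zero_or_pos n with rfl | hn
  · simp [h0]
  · rw [LSeries.term_of_ne_zero hn.ne', Complex.cpow_neg, div_eq_mul_inv]

private theorem Nu_Psumm {f : ℕ → ℂ} (h0 : f 0 = 0) {σ : ℝ} (h : LSeriesSummable f σ) :
    Summable fun n : ℕ => ‖f n‖ * (n : ℝ) ^ (-σ) := by
  have h1 : Summable fun n => ‖LSeries.term f σ n‖ := h.norm
  refine h1.congr fun n => ?_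
  rcases Nat.eq_zero_or_pos n with rfl | hn
  · simp [h0]
  · rw [LSeries.norm_term_eq, if_neg hn.ne', Complex.ofReal_re, Real.rpow_neg (by positivity),
      div_eq_mul_inv]

private theorem Nu_Pne_one {z : ℂ} (hz : 1 < z.re) : z ≠ 1 := by
  rintro rfl
  simp at hz

private theorem Nu_Pmellin {f : ℕ → ℂ} (h0 : f 0 = 0)
    (h : ∀ σ : ℝ, 1 < σ → LSeriesSummable f σ) {G : ℂ → ℂ}
    (hG : ∀ z : ℂ, 1 < z.re → LSeries f z = G z) {σ : ℝ} (hσ : 0 < σ) (w τ : ℝ) :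
    ∑' n : ℕ, f n * (n : ℂ) ^ (-(1 + τ * Complex.I)) * Real.exp (-(Real.log n - w) ^ 2 / 2) =
      gint G σ w τ := by
  rw [gauss_mellin (fun σ hσ => Nu_Psumm h0 (h σ hσ)) h0 hσ w τ]
  refine Nu_Pgint_congr w τ fun z hz => ?_
  rw [Nu_Pseries h0, hG z (by rw [hz]; linarith)]

private theorem Nu_Pquad (w τ x : ℝ) :
    Complex.exp (-(τ * x * Complex.I)) * Real.exp (-(x - w) ^ 2 / 2) =
      Complex.exp ((-1 / 2 : ℂ) * (x : ℂ) ^ 2 + ((w : ℂ) - τ * Complex.I) * x + (-(w : ℂ) ^ 2 / 2)) := by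
  rw [Complex.ofReal_exp, ← Complex.exp_add]
  congr 1
  push_cast
  ring

private theorem Nu_Pfull (w τ : ℝ) :
    ∫ x : ℝ, Complex.exp (-(τ * x * Complex.I)) * Real.exp (-(x - w) ^ 2 / 2) =
      Real.sqrt (2 * Real.pi) * Real.exp (-τ ^ 2 / 2) * Complex.exp (-(τ * w * Complex.I)) := by
  have hb : ((-1 / 2 : ℂ)).re < 0 := by norm_num
  simp_rw [Nu_Pquad]
  rw [integral_cexp_quadratic hb]
  have h1 : ((Real.pi : ℂ) / -(-1 / 2 : ℂ)) ^ (1 / 2 : ℂ) = ((Real.sqrt (2 * Real.pi) : ℝ) : ℂ) := by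
    rw [Real.sqrt_eq_rpow, Complex.ofReal_cpow (by positivity)]
    congr 1
    · push_cast
      ring
    · push_cast
      ring
  rw [h1, Complex.ofReal_exp, mul_assoc, ← Complex.exp_add]
  congr 2
  push_cast
  have hI : Complex.I ^ 2 = -1 := Complex.I_sq
  ring_nf
  rw [hI]
  ring

/-- The main term. -/
private theorem Nu_Pmain {w : ℝ} (hw : 0 ≤ w) (τ : ℝ) :
    ‖(∫ x in Set.Ioi (0 : ℝ), Complex.exp (-(τ * x * Complex.I)) *
        Real.exp (-(x - w) ^ 2 / 2)) -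
      Real.sqrt (2 * Real.pi) * Real.exp (-τ ^ 2 / 2) * Complex.exp (-(τ * w * Complex.I))‖ ≤
      3 * Real.exp (-w ^ 2 / 2) := by
  have hb : ((-1 / 2 : ℂ)).re < 0 := by norm_num
  have hint : MeasureTheory.Integrable (fun x : ℝ => Complex.exp (-(τ * x * Complex.I)) *
      Real.exp (-(x - w) ^ 2 / 2)) := by
    simp_rw [Nu_Pquad]
    exact integrable_cexp_quadratic' hb _ _
  have h1 := MeasureTheory.integral_add_compl (measurableSet_Ioi (a := (0 : ℝ))) hint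
  rw [Nu_Pfull, Set.compl_Ioi] at h1
  rw [← h1, sub_add_eq_sub_sub, sub_self, zero_sub, norm_neg]
  have hg0 : MeasureTheory.Integrable (fun x : ℝ => Real.exp (-(1 / 2) * x ^ 2)) :=
    integrable_exp_neg_mul_sq (by norm_num)
  have hg : MeasureTheory.Integrable (fun x : ℝ => Real.exp (-w ^ 2 / 2) *
      Real.exp (-(1 / 2) * x ^ 2)) := hg0.const_mul _
  have h2 : ‖∫ x in Set.Iic (0 : ℝ), Complex.exp (-(τ * x * Complex.I)) *
      Real.exp (-(x - w) ^ 2 / 2)‖ ≤ ∫ x in Set.Iic (0 : ℝ), Real.exp (-w ^ 2 / 2) *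
      Real.exp (-(1 / 2) * x ^ 2) := by
    refine MeasureTheory.norm_integral_le_of_norm_le hg.integrableOn ?_
    filter_upwards [MeasureTheory.ae_restrict_mem measurableSet_Iic] with x hx
    have hx0 : x ≤ 0 := hx
    rw [norm_mul, Complex.norm_real, Real.norm_of_nonneg (Real.exp_pos _).le]
    have h3 : ‖Complex.exp (-(τ * x * Complex.I))‖ = 1 := by
      have : -((τ : ℂ) * x * Complex.I) = ((-(τ * x) : ℝ) : ℂ) * Complex.I := by
        push_cast
        ring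
      rw [this, Complex.norm_exp_ofReal_mul_I]
    rw [h3, one_mul, ← Real.exp_add]
    refine Real.exp_le_exp.2 ?_
    nlinarith
  refine h2.trans ((MeasureTheory.setIntegral_le_integral hg
    (Filter.Eventually.of_forall fun x => by positivity)).trans ?_)
  rw [MeasureTheory.integral_const_mul, integral_gaussian]
  have h4 : Real.sqrt (Real.pi / (1 / 2)) ≤ 3 := by
    rw [Real.sqrt_le_left (by norm_num)]
    have := Real.pi_lt_d2
    linarith
  have h5 : 0 < Real.exp (-w ^ 2 / 2) := Real.exp_pos _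
  nlinarith

private theorem Nu_Pintegrable {F : ℂ → ℂ} {σ B w τ : ℝ}
    (hc : Continuous fun v : ℝ => F (1 + τ * Complex.I + ((σ : ℂ) + v * Complex.I)))
    (hB : ∀ v : ℝ, ‖F (1 + τ * Complex.I + ((σ : ℂ) + v * Complex.I))‖ ≤ B) :
    MeasureTheory.Integrable fun v : ℝ =>
      Complex.exp (((σ : ℂ) + v * Complex.I) ^ 2 / 2 + ((σ : ℂ) + v * Complex.I) * w) *
      F (1 + τ * Complex.I + ((σ : ℂ) + v * Complex.I)) := by
  have h1 : MeasureTheory.Integrable fun v : ℝ =>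
      Complex.exp (((σ : ℂ) + v * Complex.I) ^ 2 / 2 + ((σ : ℂ) + v * Complex.I) * w) := by
    have h2 := integrable_cexp_quadratic' (show ((-1 / 2 : ℂ)).re < 0 by norm_num)
      ((σ + w : ℂ) * Complex.I) ((σ : ℂ) ^ 2 / 2 + σ * w)
    refine h2.congr (Filter.Eventually.of_forall fun v => ?_)
    simp only
    congr 1
    have hI : Complex.I ^ 2 = -1 := Complex.I_sq
    ring_nf
    rw [hI]
    ring
  exact h1.mul_bdd hc.aestronglyMeasurable (Filter.Eventually.of_forall hB)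

end copies1

section copies2

/-- The Gaussian density of variance `a`. -/
private noncomputable def Nu_Gk (a ξ : ℝ) : ℝ :=
  (Real.sqrt (2 * Real.pi * a))⁻¹ * Real.exp (-ξ ^ 2 / (2 * a))

private theorem Nu_Gk_nonneg (a ξ : ℝ) : 0 ≤ Nu_Gk a ξ := by
  unfold Nu_Gk
  positivity

private theorem Nu_Gk_cont (a : ℝ) : Continuous (Nu_Gk a) := by
  unfold Nu_Gk
  fun_prop

private theorem Nu_Gk_int {a : ℝ} (ha : 0 < a) : Integrable (Nu_Gk a) := by
  have h := integrable_exp_neg_mul_sq (b := 1 / (2 * a)) (by positivity)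
  refine (h.const_mul (Real.sqrt (2 * Real.pi * a))⁻¹).congr
    (Filter.Eventually.of_forall fun ξ => ?_)
  simp only [Nu_Gk]
  congr 2
  ring

private theorem Nu_Gk_one {a : ℝ} (ha : 0 < a) : ∫ ξ, Nu_Gk a ξ = 1 := by
  have h := integral_gaussian (1 / (2 * a))
  have h1 : ∀ ξ : ℝ, Nu_Gk a ξ =
      (Real.sqrt (2 * Real.pi * a))⁻¹ * Real.exp (-(1 / (2 * a)) * ξ ^ 2) := by
    intro ξ
    simp only [Nu_Gk]
    congr 2
    ring
  simp_rw [h1]
  rw [integral_const_mul, h]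
  have h2 : Real.pi / (1 / (2 * a)) = 2 * Real.pi * a := by
    field_simp
  rw [h2]
  have h3 : 0 < Real.sqrt (2 * Real.pi * a) := Real.sqrt_pos.2 (by positivity)
  exact inv_mul_cancel₀ h3.ne'

private theorem Nu_Gquad {b : ℝ} (hb : 0 < b) (c d : ℂ) :
    ∫ ξ : ℝ, Complex.exp (-(b : ℂ) * (ξ : ℂ) ^ 2 + c * ξ + d) =
      ((Real.sqrt (Real.pi / b) : ℝ) : ℂ) * Complex.exp (d + c ^ 2 / (4 * b)) := by
  have hb' : (-(b : ℂ)).re < 0 := by
    simpa using hb
  rw [integral_cexp_quadratic hb']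
  have h1 : ((Real.pi : ℂ) / -(-(b : ℂ))) ^ (1 / 2 : ℂ) =
      ((Real.sqrt (Real.pi / b) : ℝ) : ℂ) := by
    rw [Real.sqrt_eq_rpow, Complex.ofReal_cpow (by positivity)]
    congr 1
    · push_cast
      ring
    · push_cast
      ring
  rw [h1]
  congr 2
  have hb0 : (b : ℂ) ≠ 0 := by exact_mod_cast hb.ne'
  field_simp
  ring

/-- The Fourier transform of the density. -/
private theorem Nu_Gfour {a : ℝ} (ha : 0 < a) (x : ℝ) :
    ∫ ξ : ℝ, (Nu_Gk a ξ : ℂ) * Complex.exp (ξ * x * Complex.I) =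
      ((Real.exp (-a * x ^ 2 / 2) : ℝ) : ℂ) := by
  have h1 : ∀ ξ : ℝ, (Nu_Gk a ξ : ℂ) * Complex.exp (ξ * x * Complex.I) =
      (((Real.sqrt (2 * Real.pi * a))⁻¹ : ℝ) : ℂ) *
        Complex.exp (-((1 / (2 * a) : ℝ) : ℂ) * (ξ : ℂ) ^ 2 + (x * Complex.I) * ξ + 0) := by
    intro ξ
    simp only [Nu_Gk]
    rw [Complex.ofReal_mul, mul_assoc, Complex.ofReal_exp, ← Complex.exp_add]
    congr 2
    push_cast
    ring
  simp_rw [h1]
  rw [integral_const_mul, Nu_Gquad (by positivity), ← mul_assoc]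
  have h2 : Real.pi / (1 / (2 * a)) = 2 * Real.pi * a := by
    field_simp
  rw [h2]
  have h3 : 0 < Real.sqrt (2 * Real.pi * a) := Real.sqrt_pos.2 (by positivity)
  rw [← Complex.ofReal_mul, inv_mul_cancel₀ h3.ne', Complex.ofReal_one, one_mul,
    Complex.ofReal_exp]
  congr 1
  have hI : Complex.I ^ 2 = -1 := Complex.I_sq
  have ha0 : (a : ℂ) ≠ 0 := by exact_mod_cast ha.ne'
  push_cast
  rw [mul_pow, hI]
  field_simp
  ring

/-- The convolution of the main terms. -/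
private theorem Nu_Ggm {σ : ℝ} (hσ : 0 < σ) (hσ1 : σ < 1) (w τ : ℝ) :
    ∫ ξ : ℝ, (Nu_Gk (1 / σ ^ 2 - 1) ξ : ℂ) * Complex.exp (-(ξ * w * Complex.I)) *
      gm 1 w (τ - ξ) = gm σ w τ := by
  obtain ⟨a, ha⟩ : ∃ a : ℝ, a = 1 / σ ^ 2 - 1 := ⟨_, rfl⟩
  have hs : σ ^ 2 = 1 / (1 + a) := by
    rw [ha]
    field_simp
    ring
  have ha0 : 0 < a := by
    rw [ha]
    have : 1 < 1 / σ ^ 2 := by
      rw [lt_div_iff₀ (by positivity)]
      nlinarith
    linarith
  rw [← ha]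
  obtain ⟨b, hb⟩ : ∃ b : ℝ, b = (1 + a) / (2 * a) := ⟨_, rfl⟩
  have hb0 : 0 < b := by rw [hb]; positivity
  have hac : (a : ℂ) ≠ 0 := by exact_mod_cast ha0.ne'
  have h1 : ∀ ξ : ℝ, (Nu_Gk a ξ : ℂ) * Complex.exp (-(ξ * w * Complex.I)) *
      gm 1 w (τ - ξ) =
      (((Real.sqrt (2 * Real.pi * a))⁻¹ * Real.sqrt (2 * Real.pi) : ℝ) : ℂ) *
        Complex.exp (-(b : ℂ) * (ξ : ℂ) ^ 2 + τ * ξ +
          (-(τ : ℂ) ^ 2 / 2 - τ * w * Complex.I)) := by
    intro ξ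
    simp only [Nu_Gk, gm]
    have e : (((Real.sqrt (2 * Real.pi * a))⁻¹ * Real.exp (-ξ ^ 2 / (2 * a)) : ℝ) : ℂ) *
        Complex.exp (-(ξ * w * Complex.I)) *
        (((Real.sqrt (2 * Real.pi) * 1 * Real.exp (-(1 ^ 2 * (τ - ξ) ^ 2) / 2) : ℝ) : ℂ) *
        Complex.exp (-(((τ - ξ : ℝ) : ℂ) * w * Complex.I))) =
        (((Real.sqrt (2 * Real.pi * a))⁻¹ * Real.sqrt (2 * Real.pi) : ℝ) : ℂ) *
        (Complex.exp (((-ξ ^ 2 / (2 * a) : ℝ) : ℂ)) * Complex.exp (-(ξ * w * Complex.I)) *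
        Complex.exp (((-(1 ^ 2 * (τ - ξ) ^ 2) / 2 : ℝ) : ℂ)) *
        Complex.exp (-(((τ - ξ : ℝ) : ℂ) * w * Complex.I))) := by
      rw [Complex.ofReal_mul, Complex.ofReal_mul, Complex.ofReal_mul, Complex.ofReal_mul,
        Complex.ofReal_exp, Complex.ofReal_exp, Complex.ofReal_one]
      ring
    rw [e, ← Complex.exp_add, ← Complex.exp_add, ← Complex.exp_add]
    congr 2
    rw [hb]
    push_cast
    field_simp
    ring
  simp_rw [h1]
  rw [integral_const_mul, Nu_Gquad hb0, ← mul_assoc, ← Complex.ofReal_mul]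
  unfold gm
  have h2 : (Real.sqrt (2 * Real.pi * a))⁻¹ * Real.sqrt (2 * Real.pi) *
      Real.sqrt (Real.pi / b) = Real.sqrt (2 * Real.pi) * σ := by
    have e1 : Real.pi / b = (2 * Real.pi * a) * σ ^ 2 := by
      rw [hb, hs]
      field_simp
    have h3 : 0 < Real.sqrt (2 * Real.pi * a) := Real.sqrt_pos.2 (by positivity)
    have e2 : Real.sqrt (2 * Real.pi * a * σ ^ 2) = Real.sqrt (2 * Real.pi * a) * σ := by
      rw [Real.sqrt_mul (show (0 : ℝ) ≤ 2 * Real.pi * a by positivity) (σ ^ 2),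
        Real.sqrt_sq hσ.le]
    rw [e1, e2]
    calc (Real.sqrt (2 * Real.pi * a))⁻¹ * Real.sqrt (2 * Real.pi) *
        (Real.sqrt (2 * Real.pi * a) * σ) =
        ((Real.sqrt (2 * Real.pi * a))⁻¹ * Real.sqrt (2 * Real.pi * a)) *
          (Real.sqrt (2 * Real.pi) * σ) := by ring
      _ = _ := by rw [inv_mul_cancel₀ h3.ne', one_mul]
  have e5 : (((Real.sqrt (2 * Real.pi) * σ * Real.exp (-(σ ^ 2 * τ ^ 2) / 2) : ℝ) : ℂ) *
      Complex.exp (-((τ : ℂ) * (w : ℂ) * Complex.I))) =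
      ((Real.sqrt (2 * Real.pi) * σ : ℝ) : ℂ) *
      Complex.exp (((-(σ ^ 2 * τ ^ 2) / 2 : ℝ) : ℂ) + -((τ : ℂ) * (w : ℂ) * Complex.I)) := by
    rw [Complex.exp_add, ← Complex.ofReal_exp,
      Complex.ofReal_mul (Real.sqrt (2 * Real.pi) * σ) _, mul_assoc]
  rw [h2, e5]
  congr 2
  have hsc : ((σ : ℂ)) ^ 2 = 1 / (1 + a) := by
    have := congrArg (fun x : ℝ => (x : ℂ)) hs
    push_cast at this
    exact this
  have ha1 : (1 + (a : ℂ)) ≠ 0 := by
    have : (1 : ℝ) + a ≠ 0 := by positivity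
    exact_mod_cast this
  push_cast
  rw [hsc, hb]
  push_cast
  field_simp
  ring

private theorem Nu_Gnorm_I (y : ℝ) : ‖Complex.exp (y * Complex.I)‖ = 1 :=
  Complex.norm_exp_ofReal_mul_I y

private theorem Nu_Gnorm_gm (w τ : ℝ) : ‖gm 1 w τ‖ ≤ 3 := by
  unfold gm
  have e1 : ‖Complex.exp (-(τ * w * Complex.I))‖ = 1 := by
    have : -((τ : ℂ) * w * Complex.I) = ((-(τ * w) : ℝ) : ℂ) * Complex.I := by
      push_cast
      ring
    rw [this]
    exact Nu_Gnorm_I _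
  rw [norm_mul, e1, mul_one, Complex.norm_real, Real.norm_of_nonneg (by positivity), mul_one]
  have h1 : Real.sqrt (2 * Real.pi) ≤ 3 := by
    rw [Real.sqrt_le_left (by norm_num)]
    have := Real.pi_lt_d2
    linarith
  have h2 : Real.exp (-(1 ^ 2 * τ ^ 2) / 2) ≤ 1 := by
    rw [Real.exp_le_one_iff]
    have := sq_nonneg τ
    linarith
  have h3 : 0 < Real.exp (-(1 ^ 2 * τ ^ 2) / 2) := Real.exp_pos _
  have h4 : 0 ≤ Real.sqrt (2 * Real.pi) := Real.sqrt_nonneg _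
  nlinarith

private theorem Nu_Ggm_cont (w : ℝ) : Continuous (gm 1 w) := by
  unfold gm
  fun_prop

private theorem Nu_Gsmall (D κ A : ℝ) (hκ : 0 < κ) :
    ∃ w0 : ℝ, 1 ≤ w0 ∧ ∀ w : ℝ, w0 ≤ w →
      D * w ^ (6 : ℝ) * Real.exp (-κ * w) ≤ w ^ (-A) / 2 := by
  have h1 := tendsto_rpow_mul_exp_neg_mul_atTop_nhds_zero (6 + A) κ hκ
  have h3 := h1.const_mul D
  rw [mul_zero] at h3
  have h4 := h3.eventually_le_const (show (0 : ℝ) < 1 / 2 by norm_num)
  obtain ⟨w0, hw0⟩ := Filter.eventually_atTop.1 h4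
  refine ⟨max 1 w0, le_max_left _ _, fun w hw => ?_⟩
  have hw1 : 1 ≤ w := (le_max_left _ _).trans hw
  have hwp : 0 < w := by linarith
  have h5 := hw0 w ((le_max_right _ _).trans hw)
  rw [Real.rpow_add hwp] at h5
  have h7 : 0 < w ^ A := Real.rpow_pos_of_pos hwp _
  rw [Real.rpow_neg hwp.le, inv_eq_one_div, div_div, le_div_iff₀ (by positivity)]
  calc D * w ^ (6 : ℝ) * Real.exp (-κ * w) * (w ^ A * 2)
      = D * (w ^ (6 : ℝ) * w ^ A * Real.exp (-κ * w)) * 2 := by ring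
    _ ≤ 1 / 2 * 2 := by gcongr
    _ = 1 := by norm_num

end copies2

/-! ### The entire function `ζ z - 1/(z-1)` -/

private noncomputable def Nu_g : ℂ → ℂ := dslope VKZ.Zf 1

private theorem Nu_g_diff : Differentiable ℂ Nu_g := by
  have h := (Complex.differentiableOn_dslope (s := Set.univ) (c := (1 : ℂ)) (f := VKZ.Zf)
    Filter.univ_mem).2 VKZ.Zf_analytic.differentiableOn
  exact differentiableOn_univ.1 h

private theorem Nu_g_eq {z : ℂ} (hz : z ≠ 1) : Nu_g z = riemannZeta z - 1 / (z - 1) := by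
  have h0 : z - 1 ≠ 0 := sub_ne_zero.2 hz
  have h1 : VKZ.Zf z = (z - 1) * riemannZeta z := by
    unfold VKZ.Zf
    rw [if_neg hz]
  have h2 : VKZ.Zf 1 = 1 := by
    unfold VKZ.Zf
    rw [if_pos rfl]
  unfold Nu_g
  rw [dslope_of_ne _ hz, slope_def_field, h1, h2]
  field_simp

private theorem Nu_log (t : ℝ) : 1 ≤ Real.log (|t| + 3) := by
  have h1 : Real.exp 1 ≤ |t| + 3 := by
    have h2 := Real.exp_one_lt_d9
    have h3 := abs_nonneg t
    linarith
  rw [Real.le_log_iff_exp_le (by positivity)]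
  exact h1

/-- bound on a compact set -/
private theorem Nu_compact (T : ℝ) : ∃ B : ℝ, 0 ≤ B ∧ ∀ z : ℂ, 1 / 2 ≤ z.re → z.re ≤ 3 →
    |z.im| ≤ T → ‖Nu_g z‖ ≤ B := by
  have hK : IsCompact (Set.Icc (1 / 2 : ℝ) 3 ×ℂ Set.Icc (-T) T) :=
    isCompact_Icc.reProdIm isCompact_Icc
  obtain ⟨B, hB⟩ := hK.exists_bound_of_continuousOn Nu_g_diff.continuous.continuousOn
  refine ⟨max B 0, le_max_right _ _, fun z h1 h2 h3 => ?_⟩
  refine (hB z ?_).trans (le_max_left _ _)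
  rw [Complex.mem_reProdIm]
  exact ⟨⟨h1, h2⟩, abs_le.1 h3⟩

private theorem Nu_bound : ∃ C : ℝ, 1 ≤ C ∧ ∀ z : ℂ, z.re ≤ 3 →
    1 - 1 / 4 * (Real.log (|z.im| + 3)) ^ (-(19 : ℝ) / 20) ≤ z.re →
    AnalyticAt ℂ Nu_g z ∧ ‖Nu_g z‖ ≤ C * Real.log (|z.im| + 3) ^ C := by
  obtain ⟨C, t0, hC, ht0, hb⟩ := VKZ.zeta_bound
  obtain ⟨B, hB0, hB⟩ := Nu_compact t0
  refine ⟨C + 1 + B, by linarith, fun z h1 h2 => ⟨Nu_g_diff.analyticAt z, ?_⟩⟩
  have hL := Nu_log z.im
  have hpow1 : (Real.log (|z.im| + 3)) ^ (-(19 : ℝ) / 20) ≤ 1 :=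
    Real.rpow_le_one_of_one_le_of_nonpos hL (by norm_num)
  have hLC : Real.log (|z.im| + 3) ≤ Real.log (|z.im| + 3) ^ (C + 1 + B) := by
    calc Real.log (|z.im| + 3) = Real.log (|z.im| + 3) ^ (1 : ℝ) := (Real.rpow_one _).symm
      _ ≤ _ := Real.rpow_le_rpow_of_exponent_le hL (by linarith)
  have hC0 : 0 ≤ C + 1 + B := by linarith
  have key : ‖Nu_g z‖ ≤ (C + 1 + B) * Real.log (|z.im| + 3) := by
    rcases le_total |z.im| t0 with ht | ht
    · have h3 := hB z (by linarith) h1 ht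
      nlinarith
    · have hne : z ≠ 1 := by
        rintro rfl
        rw [Complex.one_im, abs_zero] at ht
        linarith
      have hL0 : 1 ≤ Real.log |z.im| := by
        have h1 : Real.exp 1 ≤ |z.im| := by
          have h2 := Real.exp_one_lt_d9
          linarith
        rw [Real.le_log_iff_exp_le (by linarith)]
        exact h1
      have hLL : Real.log |z.im| ≤ Real.log (|z.im| + 3) :=
        Real.log_le_log (by linarith) (by linarith)
      have e1 : (Real.log (|z.im| + 3)) ^ (-(19 : ℝ) / 20) ≤ (Real.log |z.im|) ^ (-(9 : ℝ) / 10) := by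
        calc (Real.log (|z.im| + 3)) ^ (-(19 : ℝ) / 20)
            ≤ (Real.log |z.im|) ^ (-(19 : ℝ) / 20) :=
              Real.rpow_le_rpow_of_nonpos (by linarith) hLL (by norm_num)
          _ ≤ (Real.log |z.im|) ^ (-(9 : ℝ) / 10) :=
              Real.rpow_le_rpow_of_exponent_le hL0 (by norm_num)
      have e2 : 0 ≤ (Real.log (|z.im| + 3)) ^ (-(19 : ℝ) / 20) := Real.rpow_nonneg (by linarith) _
      have h3 := hb z ht h1 (by linarith)
      have h4 : ‖1 / (z - 1)‖ ≤ 1 := by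
        rw [norm_div, norm_one]
        have h5 : 1 ≤ ‖z - 1‖ := by
          have h6 := Complex.abs_im_le_norm (z - 1)
          rw [Complex.sub_im, Complex.one_im, sub_zero] at h6
          linarith
        rw [div_le_one (by linarith)]
        exact h5
      rw [Nu_g_eq hne]
      refine (norm_sub_le _ _).trans ?_
      nlinarith
  refine key.trans (mul_le_mul_of_nonneg_left hLC hC0)

private theorem Nu_upper : ∃ C : ℝ, 0 ≤ C ∧ ∀ z : ℂ, 1 < z.re → z.re ≤ 2 →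
    ‖Nu_g z‖ ≤ C / (z.re - 1) := by
  obtain ⟨B, hB⟩ := (isCompact_Icc (a := (1 : ℝ)) (b := 2)).exists_bound_of_continuousOn
    (f := fun σ : ℝ => VKZ.Zf σ)
    ((VKZ.Zf_analytic.continuous.comp Complex.continuous_ofReal).continuousOn)
  refine ⟨|B| + 1, by positivity, fun z h1 h2 => ?_⟩
  have hpos : 0 < z.re - 1 := by linarith
  have hne : z ≠ 1 := Nu_Pne_one h1
  rw [Nu_g_eq hne]
  have h3 : ‖1 / (z - 1)‖ ≤ 1 / (z.re - 1) := by
    rw [norm_div, norm_one]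
    refine one_div_le_one_div_of_le hpos ?_
    have := Complex.abs_re_le_norm (z - 1)
    rw [Complex.sub_re, Complex.one_re, abs_of_pos hpos] at this
    exact this
  have h4 : ‖riemannZeta z‖ ≤ |B| / (z.re - 1) := by
    have hs : 1 < (z.re : ℂ).re := by simpa using h1
    have e1 : riemannZeta z = ∑' n : ℕ, 1 / (n : ℂ) ^ z := zeta_eq_tsum_one_div_nat_cpow h1
    have e2 : riemannZeta (z.re : ℂ) = ((∑' n : ℕ, 1 / (n : ℝ) ^ z.re : ℝ) : ℂ) := by
      rw [zeta_eq_tsum_one_div_nat_cpow hs, Complex.ofReal_tsum]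
      refine tsum_congr fun n => ?_
      push_cast
      rw [Complex.ofReal_cpow (Nat.cast_nonneg n)]
      simp
    have hsum : Summable fun n : ℕ => 1 / (n : ℝ) ^ z.re := Real.summable_one_div_nat_rpow.2 h1
    have hn : ∀ n : ℕ, ‖1 / (n : ℂ) ^ z‖ = 1 / (n : ℝ) ^ z.re := by
      intro n
      rcases Nat.eq_zero_or_pos n with rfl | hn
      · have hz0 : z ≠ 0 := by
          rintro rfl
          simp at h1
          linarith
        rw [Nat.cast_zero, Complex.zero_cpow hz0, Nat.cast_zero, Real.zero_rpow (by linarith)]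
        simp
      · rw [norm_div, norm_one, Complex.norm_natCast_cpow_of_pos hn]
    have h5 : ‖riemannZeta z‖ ≤ ∑' n : ℕ, 1 / (n : ℝ) ^ z.re := by
      rw [e1]
      refine (norm_tsum_le_tsum_norm ?_).trans (le_of_eq (tsum_congr hn))
      exact hsum.congr fun n => (hn n).symm
    have h6 : ‖riemannZeta (z.re : ℂ)‖ = ∑' n : ℕ, 1 / (n : ℝ) ^ z.re := by
      rw [e2, Complex.norm_real, Real.norm_of_nonneg]
      exact tsum_nonneg fun n => by positivity
    have h7 := hB z.re ⟨h1.le, h2⟩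
    have hne' : (z.re : ℂ) ≠ 1 := by
      intro h
      have := congrArg Complex.re h
      simp at this
      linarith
    have h8 : VKZ.Zf (z.re : ℂ) = ((z.re : ℂ) - 1) * riemannZeta (z.re : ℂ) := by
      unfold VKZ.Zf
      rw [if_neg hne']
    have h9 : ‖((z.re : ℂ) - 1)‖ = z.re - 1 := by
      have : ((z.re : ℂ) - 1) = ((z.re - 1 : ℝ) : ℂ) := by push_cast; rfl
      rw [this, Complex.norm_real, Real.norm_of_nonneg hpos.le]
    rw [h8, norm_mul, h9, h6] at h7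
    rw [le_div_iff₀ hpos]
    have h10 := le_abs_self B
    nlinarith
  calc ‖riemannZeta z - 1 / (z - 1)‖ ≤ ‖riemannZeta z‖ + ‖1 / (z - 1)‖ := norm_sub_le _ _
    _ ≤ |B| / (z.re - 1) + 1 / (z.re - 1) := add_le_add h4 h3
    _ = (|B| + 1) / (z.re - 1) := by ring

/-! ### The sum -/

private theorem Nu_a0 (n : ℕ) : 0 ≤ (n : ℝ)⁻¹ := inv_nonneg.2 (Nat.cast_nonneg n)

private theorem Nu_ale (n : ℕ) :
    (n : ℝ)⁻¹ ≤ (n.divisors.card : ℝ) ^ 2 * (1 + Real.log n) ^ 2 / n := by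
  rcases Nat.eq_zero_or_pos n with rfl | h
  · simp
  · have h2 : 0 ≤ Real.log n := Real.log_natCast_nonneg n
    have h3 : (1 : ℝ) ≤ (n.divisors.card : ℝ) := by
      have : 0 < n.divisors.card := Finset.card_pos.mpr ⟨1, Nat.one_mem_divisors.mpr h.ne'⟩
      exact_mod_cast this
    have h4 : (1 : ℝ) ≤ (n.divisors.card : ℝ) ^ 2 := one_le_pow₀ h3
    have h5 : (1 : ℝ) ≤ (1 + Real.log n) ^ 2 := one_le_pow₀ (by linarith)
    have h6 : (1 : ℝ) ≤ (n.divisors.card : ℝ) ^ 2 * (1 + Real.log n) ^ 2 := by nlinarith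
    rw [inv_eq_one_div]
    exact div_le_div_of_nonneg_right h6 (Nat.cast_nonneg n)

private theorem Nu_summ {s : ℝ} (hs : 0 < s) (hs1 : s ≤ 1) (y : ℝ) :
    Summable fun n : ℕ => (n : ℝ)⁻¹ * WW s y (Real.log n) := by
  obtain ⟨C, -, hC⟩ := coef_sum
  exact (hC _ s y hs hs1 Nu_a0 Nu_ale).1

private theorem Nu_fin {s : ℝ} (hs : 0 < s) (hs1 : s ≤ 1) (y : ℝ) :
    IsFiniteMeasure (muS (fun n => (n : ℝ)⁻¹) s y) :=
  (muS_fin Nu_a0 (Nu_summ hs hs1 y)).1

/-- the Fourier transform as a sum -/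
private theorem Nu_cf {s : ℝ} (hs : 0 < s) (hs1 : s ≤ 1) (y τ : ℝ) :
    cf (muS (fun n => (n : ℝ)⁻¹) s y) τ = ∑' n : ℕ, (((n : ℝ)⁻¹ * WW s y (Real.log n) : ℝ) : ℂ) *
      Complex.exp (-(τ * Real.log n * Complex.I)) := by
  have := Nu_fin hs hs1 y
  have hint : Integrable (fun x : ℝ => Complex.exp (-(τ * x * Complex.I)))
      (muS (fun n => (n : ℝ)⁻¹) s y) := by
    refine bdd_intble (B := 1) ?_ ?_
    · refine Continuous.stronglyMeasurable ?_
      fun_prop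
    · intro x
      have : -((τ : ℂ) * x * Complex.I) = ((-(τ * x) : ℝ) : ℂ) * Complex.I := by
        push_cast
        ring
      rw [this, Complex.norm_exp_ofReal_mul_I]
  unfold cf
  rw [muS_int Nu_a0 (Nu_summ hs hs1 y) hint]
  refine tsum_congr fun n => ?_
  rw [Complex.real_smul]

private theorem Nu_term (w τ : ℝ) (n : ℕ) :
    ((zeta n : ℕ) : ℂ) * (n : ℂ) ^ (-(1 + τ * Complex.I)) *
      Real.exp (-(Real.log n - w) ^ 2 / 2) =
    (((n : ℝ)⁻¹ * WW 1 w (Real.log n) : ℝ) : ℂ) * Complex.exp (-(τ * Real.log n * Complex.I)) := by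
  rcases Nat.eq_zero_or_pos n with rfl | h
  · simp
  · have hn : (n : ℂ) ≠ 0 := by exact_mod_cast h.ne'
    have h1 : ((zeta n : ℕ) : ℂ) = 1 := by
      rw [zeta_apply_ne h.ne']
      simp
    have h2 : (n : ℂ) ^ (-(τ * Complex.I)) = Complex.exp (-(τ * Real.log n * Complex.I)) := by
      rw [Complex.cpow_def_of_ne_zero hn, ← Complex.natCast_log]
      congr 1
      ring
    have h3 : Real.exp (-(Real.log n - w) ^ 2 / 2) = WW 1 w (Real.log n) := by
      unfold WW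
      congr 1
      ring
    rw [h1, one_mul, cpow_split n τ h, h2, h3]
    push_cast
    ring

private theorem Nu_one (K A : ℝ) : ∃ w0 : ℝ, 1 ≤ w0 ∧ ∀ w τ : ℝ, w0 ≤ w →
    |τ| ≤ Real.exp (K * w) →
    ‖cf (muS (fun n => (n : ℝ)⁻¹) 1 w) τ - gm 1 w τ‖ ≤ w ^ (-A) := by
  obtain ⟨C, hC, hF⟩ := Nu_bound
  obtain ⟨C2, hC2, hF'⟩ := Nu_upper
  obtain ⟨D, κ, q, hκ, hb⟩ := Nu_Pshift (c := 1 / 4) (by norm_num) le_rfl hC hC2 hF hF' K
  obtain ⟨w0, hw0, hs⟩ := Nu_Psmall D q κ A hκ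
  obtain ⟨w1, hw1, hs1⟩ := Nu_Psmall 3 0 (1 / 2) A (by norm_num)
  refine ⟨max w0 w1, hw0.trans (le_max_left _ _), fun w τ hw hτ => ?_⟩
  have hw1 : 1 ≤ w := hw0.trans ((le_max_left _ _).trans hw)
  have hwp : 0 < w := by linarith
  have hσ0 : 0 < 1 / w := by positivity
  have hσ1 : 1 / w ≤ 1 := by
    rw [div_le_one hwp]
    exact hw1
  have h0 : ((zeta 0 : ℕ) : ℂ) = 0 := by simp
  have h1 : cf (muS (fun n => (n : ℝ)⁻¹) 1 w) τ =
      VKZ.gint (fun z => 1 / (z - 1) + Nu_g z) (1 / w) w τ := by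
    rw [Nu_cf one_pos le_rfl]
    have h2 := Nu_Pmellin (f := fun n => ((zeta n : ℕ) : ℂ)) h0
      (fun σ hσ => LSeriesSummable_zeta_iff.2 (by simpa using hσ))
      (G := fun z => 1 / (z - 1) + Nu_g z)
      (fun z hz => by
        rw [Nu_g_eq (Nu_Pne_one hz), LSeries_zeta_eq_riemannZeta hz]
        ring) hσ0 w τ
    rw [← h2]
    exact tsum_congr fun n => (Nu_term w τ n).symm
  have hline : ∀ v : ℝ, (1 + (τ : ℂ) * Complex.I + (((1 / w : ℝ) : ℂ) + v * Complex.I)).re =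
      1 + 1 / w := by
    intro v
    simp
  -- the two parts
  have hcont2 : Continuous fun v : ℝ => Nu_g (1 + τ * Complex.I +
      (((1 / w : ℝ) : ℂ) + v * Complex.I)) := by
    have := Nu_g_diff.continuous
    fun_prop
  have hI2 := Nu_Pintegrable (F := Nu_g) (σ := 1 / w) (w := w) (τ := τ)
    hcont2 (fun v => hF' _ (by rw [hline]; linarith) (by rw [hline]; linarith) |>.trans
      (le_of_eq (by rw [hline] : _ = C2 / (1 + 1 / w - 1))))
  have hne : ∀ v : ℝ, 1 + (τ : ℂ) * Complex.I + (((1 / w : ℝ) : ℂ) + v * Complex.I) - 1 ≠ 0 := by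
    intro v
    exact sub_ne_zero.2 (Nu_Pne_one (by rw [hline]; linarith))
  have hcont1 : Continuous fun v : ℝ => (fun z : ℂ => 1 / (z - 1)) (1 + τ * Complex.I +
      (((1 / w : ℝ) : ℂ) + v * Complex.I)) := by
    refine Continuous.div continuous_const (by fun_prop) hne
  have hI1 := Nu_Pintegrable (F := fun z : ℂ => 1 / (z - 1)) (σ := 1 / w) (w := w) (τ := τ)
    (B := w) hcont1 (fun v => by
      show ‖1 / (1 + (τ : ℂ) * Complex.I + (((1 / w : ℝ) : ℂ) + v * Complex.I) - 1)‖ ≤ w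
      rw [norm_div, norm_one]
      have h2 := Complex.abs_re_le_norm
        (1 + (τ : ℂ) * Complex.I + (((1 / w : ℝ) : ℂ) + v * Complex.I) - 1)
      rw [Complex.sub_re, hline, Complex.one_re, add_sub_cancel_left, abs_of_pos hσ0] at h2
      calc 1 / ‖1 + (τ : ℂ) * Complex.I + (((1 / w : ℝ) : ℂ) + v * Complex.I) - 1‖
          ≤ 1 / (1 / w) := one_div_le_one_div_of_le hσ0 h2
        _ = w := by rw [one_div_one_div])
  have h2 : VKZ.gint (fun z => 1 / (z - 1) + Nu_g z) (1 / w) w τ =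
      VKZ.gint (fun z => 1 / (z - 1)) (1 / w) w τ + VKZ.gint Nu_g (1 / w) w τ := by
    unfold VKZ.gint
    rw [← mul_add, ← MeasureTheory.integral_add hI1 hI2]
    congr 1
    refine MeasureTheory.integral_congr_ae (Filter.Eventually.of_forall fun v => ?_)
    simp only
    ring
  have hgm : gm 1 w τ = Real.sqrt (2 * Real.pi) * Real.exp (-τ ^ 2 / 2) *
      Complex.exp (-(τ * w * Complex.I)) := by
    unfold gm
    push_cast
    simp
  rw [h1, h2, VKZ.laplace_gauss hσ0, hgm]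
  have h3 := Nu_Pmain hwp.le τ
  have h4 := hb w τ hw1 hτ
  have h5 := hs w ((le_max_left _ _).trans hw)
  have h6 := hs1 w ((le_max_right _ _).trans hw)
  have h7 : 3 * Real.exp (-w ^ 2 / 2) ≤
      3 * w ^ (0 : ℝ) * Real.exp (-(1 / 2) * w ^ (1 / 20 : ℝ)) := by
    rw [Real.rpow_zero, mul_one]
    refine mul_le_mul_of_nonneg_left (Real.exp_le_exp.2 ?_) (by norm_num)
    have hroot : w ^ (1 / 20 : ℝ) ≤ w := by
      calc w ^ (1 / 20 : ℝ) ≤ w ^ (1 : ℝ) := Real.rpow_le_rpow_of_exponent_le hw1 (by norm_num)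
        _ = w := Real.rpow_one w
    nlinarith
  have h8 : ∀ a b m : ℂ, ‖a + b - m‖ ≤ ‖a - m‖ + ‖b‖ := by
    intro a b m
    have : a + b - m = (a - m) + b := by ring
    rw [this]
    exact norm_add_le _ _
  refine (h8 _ _ _).trans ?_
  linarith

/-- The convolution formula for the sum. -/
private theorem Nu_conv {σ : ℝ} (hσ : 0 < σ) (hσ1 : σ < 1) (w : ℝ) (τ : ℝ) :
    ∫ ξ : ℝ, (Nu_Gk (1 / σ ^ 2 - 1) ξ : ℂ) * Complex.exp (-(ξ * w * Complex.I)) *
      cf (muS (fun n => (n : ℝ)⁻¹) 1 w) (τ - ξ) = cf (muS (fun n => (n : ℝ)⁻¹) σ w) τ := by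
  obtain ⟨a, ha⟩ : ∃ a : ℝ, a = 1 / σ ^ 2 - 1 := ⟨_, rfl⟩
  have ha0 : 0 < a := by
    rw [ha]
    have : 1 < 1 / σ ^ 2 := by
      rw [lt_div_iff₀ (by positivity)]
      nlinarith
    linarith
  rw [← ha]
  have hsum := Nu_summ one_pos le_rfl w
  obtain ⟨F, hF⟩ : ∃ F : ℕ → ℝ → ℂ, F = fun (n : ℕ) (ξ : ℝ) =>
      ((((n : ℝ)⁻¹ * WW 1 w (Real.log n) : ℝ) : ℂ) *
        Complex.exp (-(τ * Real.log n * Complex.I))) *
        ((Nu_Gk a ξ : ℂ) * Complex.exp (ξ * ((Real.log n - w : ℝ) : ℂ) * Complex.I)) :=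
    ⟨_, rfl⟩
  have hnorm : ∀ (n : ℕ) (ξ : ℝ), ‖F n ξ‖ =
      (n : ℝ)⁻¹ * WW 1 w (Real.log n) * Nu_Gk a ξ := by
    intro n ξ
    rw [hF]
    simp only
    have e1 : ‖Complex.exp (ξ * ((Real.log n - w : ℝ) : ℂ) * Complex.I)‖ = 1 := by
      rw [← Complex.ofReal_mul]
      exact Nu_Gnorm_I _
    have e2 : ‖Complex.exp (-((τ : ℂ) * Real.log n * Complex.I))‖ = 1 := by
      have : -((τ : ℂ) * Real.log n * Complex.I) = ((-(τ * Real.log n) : ℝ) : ℂ) * Complex.I := by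
        push_cast
        ring
      rw [this]
      exact Nu_Gnorm_I _
    rw [norm_mul, norm_mul, norm_mul, e1, e2, Complex.norm_real,
      Complex.norm_real, Real.norm_of_nonneg (mul_nonneg (Nu_a0 n) (WW_nonneg _ _ _)),
      Real.norm_of_nonneg (Nu_Gk_nonneg a ξ)]
    ring
  have hcont : ∀ n : ℕ, Continuous (F n) := by
    intro n
    rw [hF]
    have := Nu_Gk_cont a
    fun_prop
  have hint : ∀ n : ℕ, Integrable (F n) := by
    intro n
    refine Integrable.mono' ((Nu_Gk_int ha0).const_mul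
      ((n : ℝ)⁻¹ * WW 1 w (Real.log n))) (hcont n).aestronglyMeasurable
      (Filter.Eventually.of_forall fun ξ => ?_)
    exact (hnorm n ξ).le
  have hs : Summable fun n : ℕ => ∫ ξ : ℝ, ‖F n ξ‖ := by
    refine hsum.congr fun n => ?_
    simp_rw [hnorm]
    rw [integral_const_mul, Nu_Gk_one ha0, mul_one]
  have h := hasSum_integral_of_summable_integral_norm hint hs
  have h1 : ∀ ξ : ℝ, (Nu_Gk a ξ : ℂ) * Complex.exp (-(ξ * w * Complex.I)) *
      cf (muS (fun n => (n : ℝ)⁻¹) 1 w) (τ - ξ) = ∑' n : ℕ, F n ξ := by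
    intro ξ
    rw [Nu_cf one_pos le_rfl, ← tsum_mul_left]
    refine tsum_congr fun n => ?_
    rw [hF]
    simp only
    have e : Complex.exp (-(((τ - ξ : ℝ) : ℂ) * Real.log n * Complex.I)) =
        Complex.exp (-(τ * Real.log n * Complex.I)) * Complex.exp (ξ * Real.log n * Complex.I) := by
      rw [← Complex.exp_add]
      congr 1
      push_cast
      ring
    have e' : Complex.exp (ξ * ((Real.log n - w : ℝ) : ℂ) * Complex.I) =
        Complex.exp (-(ξ * w * Complex.I)) * Complex.exp (ξ * Real.log n * Complex.I) := by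
      rw [← Complex.exp_add]
      congr 1
      push_cast
      ring
    rw [e, e']
    ring
  simp_rw [h1]
  rw [← h.tsum_eq, Nu_cf hσ hσ1.le]
  refine tsum_congr fun n => ?_
  rw [hF]
  simp only
  rw [integral_const_mul, Nu_Gfour ha0]
  have e3 : WW σ w (Real.log n) = WW 1 w (Real.log n) * Real.exp (-a * (Real.log n - w) ^ 2 / 2) := by
    unfold WW
    rw [← Real.exp_add]
    congr 1
    rw [ha]
    field_simp
    ring
  rw [e3]
  push_cast
  ring

theorem nu {s : ℝ} (K A : ℝ) (hs : 0 < s) (hs1 : s ≤ 1) : ∃ y0 : ℝ, 1 ≤ y0 ∧ ∀ y τ : ℝ, y0 ≤ y →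
    |τ| ≤ Real.exp (K * y) → ‖cf (muS (fun n => (n : ℝ)⁻¹) s y) τ - gm s y τ‖ ≤ y ^ (-A) := by
  obtain ⟨σ, hσdef⟩ : ∃ σ : ℝ, σ = s := ⟨_, rfl⟩
  rw [← hσdef]
  have hσ : 0 < σ := by rw [hσdef]; exact hs
  have hσ1 : σ ≤ 1 := by rw [hσdef]; exact hs1
  clear hσdef hs hs1 s
  rcases hσ1.eq_or_lt with rfl | hσ1
  · exact Nu_one K A
  obtain ⟨a, ha⟩ : ∃ a : ℝ, a = 1 / σ ^ 2 - 1 := ⟨_, rfl⟩
  have ha0 : 0 < a := by
    rw [ha]
    have : 1 < 1 / σ ^ 2 := by
      rw [lt_div_iff₀ (by positivity)]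
      nlinarith
    linarith
  obtain ⟨C, hC, hgs⟩ := coef_sum
  obtain ⟨w1, hw1, h1⟩ := Nu_one (|K| + 2) (|A| + 1)
  obtain ⟨w2, hw2, h2⟩ := Nu_Gsmall ((64 * C + 3) * 2) (1 / (4 * a)) A (by positivity)
  refine ⟨max (max w1 w2) 2, le_trans (by norm_num) (le_max_right _ _), fun w τ hw hτ => ?_⟩
  have hww1 : w1 ≤ w := (le_max_left _ _).trans ((le_max_left _ _).trans hw)
  have hww2 : w2 ≤ w := (le_max_right _ _).trans ((le_max_left _ _).trans hw)
  have hw2' : 2 ≤ w := (le_max_right _ _).trans hw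
  have hw0 : 0 < w := by linarith
  have hw1' : 1 ≤ w := by linarith
  have hbd : ∀ t : ℝ, ‖cf (muS (fun n => (n : ℝ)⁻¹) 1 w) t‖ ≤ C * (1 + w) ^ 6 := by
    intro t
    have := Nu_fin one_pos le_rfl w
    refine (cf_norm_le _ t).trans ?_
    rw [(muS_fin Nu_a0 (Nu_summ one_pos le_rfl w)).2]
    have h3 := (hgs _ 1 w one_pos le_rfl Nu_a0 Nu_ale).2
    rwa [abs_of_pos hw0] at h3
  obtain ⟨G, hG⟩ : ∃ G : ℝ → ℂ, G = fun ξ => (Nu_Gk a ξ : ℂ) *
      Complex.exp (-(ξ * w * Complex.I)) := ⟨_, rfl⟩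
  have hGc : Continuous G := by
    rw [hG]
    have := Nu_Gk_cont a
    fun_prop
  have hGn : ∀ ξ, ‖G ξ‖ = Nu_Gk a ξ := by
    intro ξ
    rw [hG]
    simp only
    have e1 : ‖Complex.exp (-(ξ * w * Complex.I))‖ = 1 := by
      have : -((ξ : ℂ) * w * Complex.I) = ((-(ξ * w) : ℝ) : ℂ) * Complex.I := by
        push_cast
        ring
      rw [this]
      exact Nu_Gnorm_I _
    rw [norm_mul, e1, mul_one, Complex.norm_real, Real.norm_of_nonneg (Nu_Gk_nonneg a ξ)]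
  have hGi : Integrable G := by
    refine Integrable.mono' (Nu_Gk_int ha0) hGc.aestronglyMeasurable
      (Filter.Eventually.of_forall fun ξ => (hGn ξ).le)
  have e1 : cf (muS (fun n => (n : ℝ)⁻¹) σ w) τ = ∫ ξ : ℝ, G ξ * cf (muS (fun n => (n : ℝ)⁻¹) 1 w) (τ - ξ) := by
    rw [← Nu_conv hσ hσ1 w τ, ← ha, hG]
  have e2 : gm σ w τ = ∫ ξ : ℝ, G ξ * gm 1 w (τ - ξ) := by
    rw [← Nu_Ggm hσ hσ1 w τ, ← ha, hG]
  have hc1 : Continuous fun ξ : ℝ => cf (muS (fun n => (n : ℝ)⁻¹) 1 w) (τ - ξ) :=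
    (have := Nu_fin one_pos le_rfl w; cf_cont (muS (fun n => (n : ℝ)⁻¹) 1 w)).comp (continuous_const.sub continuous_id)
  have hc2 : Continuous fun ξ : ℝ => gm 1 w (τ - ξ) :=
    (Nu_Ggm_cont w).comp (continuous_const.sub continuous_id)
  have i1 : Integrable fun ξ : ℝ => G ξ * cf (muS (fun n => (n : ℝ)⁻¹) 1 w) (τ - ξ) :=
    hGi.mul_bdd hc1.aestronglyMeasurable (Filter.Eventually.of_forall fun ξ => hbd (τ - ξ))
  have i2 : Integrable fun ξ : ℝ => G ξ * gm 1 w (τ - ξ) :=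
    hGi.mul_bdd hc2.aestronglyMeasurable
      (Filter.Eventually.of_forall fun ξ => Nu_Gnorm_gm w (τ - ξ))
  rw [e1, e2, ← integral_sub i1 i2]
  -- the majorant
  obtain ⟨M, hM⟩ : ∃ M : ℝ, M = C * (1 + w) ^ 6 + 3 := ⟨_, rfl⟩
  have hM0 : 0 ≤ M := by rw [hM]; positivity
  obtain ⟨E, hE⟩ : ∃ E : ℝ, E = Real.exp (-Real.exp (2 * w) / (4 * a)) := ⟨_, rfl⟩
  have hE0 : 0 < E := by rw [hE]; exact Real.exp_pos _
  obtain ⟨s, hs⟩ : ∃ s : ℝ, s = Real.sqrt 2 := ⟨_, rfl⟩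
  have hs0 : 0 ≤ s := by rw [hs]; exact Real.sqrt_nonneg _
  have hmaj : ∀ ξ : ℝ, ‖G ξ * cf (muS (fun n => (n : ℝ)⁻¹) 1 w) (τ - ξ) - G ξ * gm 1 w (τ - ξ)‖ ≤
      w ^ (-(|A| + 1)) * Nu_Gk a ξ + M * E * s * Nu_Gk (2 * a) ξ := by
    intro ξ
    rw [← mul_sub, norm_mul, hGn]
    have hk := Nu_Gk_nonneg a ξ
    have hk2 := Nu_Gk_nonneg (2 * a) ξ
    have hp : 0 < w ^ (-(|A| + 1)) := Real.rpow_pos_of_pos hw0 _
    rcases le_or_gt |ξ| (Real.exp w) with hξ | hξ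
    · have h3 : |τ - ξ| ≤ Real.exp ((|K| + 2) * w) := by
        have h4 : |τ - ξ| ≤ |τ| + |ξ| := abs_sub _ _
        have h5 : Real.exp (K * w) ≤ Real.exp ((|K| + 1) * w) := by
          refine Real.exp_le_exp.2 ?_
          have := le_abs_self K
          nlinarith
        have h6 : Real.exp w ≤ Real.exp ((|K| + 1) * w) := by
          refine Real.exp_le_exp.2 ?_
          have := abs_nonneg K
          nlinarith
        have h7 : Real.exp ((|K| + 2) * w) = Real.exp ((|K| + 1) * w) * Real.exp w := by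
          rw [← Real.exp_add]
          congr 1
          ring
        have h8 : 2 ≤ Real.exp w := by
          have := Real.add_one_le_exp w
          linarith
        have h9 : 0 < Real.exp ((|K| + 1) * w) := Real.exp_pos _
        rw [h7]
        nlinarith
      have h4 := h1 w (τ - ξ) hww1 h3
      have h5 : 0 ≤ M * E * s * Nu_Gk (2 * a) ξ := by positivity
      calc Nu_Gk a ξ * ‖cf (muS (fun n => (n : ℝ)⁻¹) 1 w) (τ - ξ) - gm 1 w (τ - ξ)‖
          ≤ Nu_Gk a ξ * w ^ (-(|A| + 1)) := mul_le_mul_of_nonneg_left h4 hk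
        _ ≤ _ := by linarith
    · have h3 : ‖cf (muS (fun n => (n : ℝ)⁻¹) 1 w) (τ - ξ) - gm 1 w (τ - ξ)‖ ≤ M := by
        refine (norm_sub_le _ _).trans ?_
        have := hbd (τ - ξ)
        have := Nu_Gnorm_gm w (τ - ξ)
        rw [hM]
        linarith
      have h4 : Nu_Gk a ξ ≤ E * s * Nu_Gk (2 * a) ξ := by
        unfold Nu_Gk
        have e3 : Real.sqrt (2 * Real.pi * (2 * a)) = s * Real.sqrt (2 * Real.pi * a) := by
          rw [hs, ← Real.sqrt_mul (by norm_num)]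
          congr 1
          ring
        have hs1 : s ≠ 0 := by
          rw [hs]
          exact (Real.sqrt_pos.2 (by norm_num)).ne'
        have e4 : E * s * ((Real.sqrt (2 * Real.pi * (2 * a)))⁻¹ *
            Real.exp (-ξ ^ 2 / (2 * (2 * a)))) =
            (Real.sqrt (2 * Real.pi * a))⁻¹ * (E * Real.exp (-ξ ^ 2 / (2 * (2 * a)))) := by
          rw [e3]
          have h3 : 0 < Real.sqrt (2 * Real.pi * a) := Real.sqrt_pos.2 (by positivity)
          field_simp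
        rw [e4]
        refine mul_le_mul_of_nonneg_left ?_ (by positivity)
        rw [hE, ← Real.exp_add]
        refine Real.exp_le_exp.2 ?_
        have e5 : Real.exp (2 * w) ≤ ξ ^ 2 := by
          have h5 : Real.exp (2 * w) = Real.exp w ^ 2 := by
            rw [← Real.exp_nat_mul]
            norm_num
          rw [h5, ← sq_abs ξ]
          exact pow_le_pow_left₀ (Real.exp_pos _).le hξ.le 2
        have e6 : -ξ ^ 2 / (2 * a) = -ξ ^ 2 / (4 * a) + -ξ ^ 2 / (2 * (2 * a)) := by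
          field_simp
          ring
        rw [e6]
        have e7 : -ξ ^ 2 / (4 * a) ≤ -Real.exp (2 * w) / (4 * a) := by
          gcongr
        linarith
      have h5 : 0 ≤ w ^ (-(|A| + 1)) * Nu_Gk a ξ := by positivity
      calc Nu_Gk a ξ * ‖cf (muS (fun n => (n : ℝ)⁻¹) 1 w) (τ - ξ) - gm 1 w (τ - ξ)‖
          ≤ (E * s * Nu_Gk (2 * a) ξ) * M :=
            mul_le_mul h4 h3 (norm_nonneg _) (by positivity)
        _ ≤ _ := by linarith
  have ha2 : 0 < 2 * a := by linarith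
  have hgi : Integrable fun ξ : ℝ =>
      w ^ (-(|A| + 1)) * Nu_Gk a ξ + M * E * s * Nu_Gk (2 * a) ξ :=
    ((Nu_Gk_int ha0).const_mul _).add ((Nu_Gk_int ha2).const_mul _)
  refine (norm_integral_le_of_norm_le hgi (Filter.Eventually.of_forall hmaj)).trans ?_
  rw [integral_add ((Nu_Gk_int ha0).const_mul _) ((Nu_Gk_int ha2).const_mul _),
    integral_const_mul, integral_const_mul, Nu_Gk_one ha0, Nu_Gk_one ha2, mul_one, mul_one]
  have h3 : w ^ (-(|A| + 1)) ≤ w ^ (-A) / 2 := by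
    rw [neg_add, Real.rpow_add hw0, Real.rpow_neg_one, div_eq_mul_inv]
    refine mul_le_mul ?_ ?_ (by positivity) (by positivity)
    · refine Real.rpow_le_rpow_of_exponent_le hw1' ?_
      have := le_abs_self A
      linarith
    · exact inv_anti₀ (by norm_num) hw2'
  have h4 : M * E * s ≤ w ^ (-A) / 2 := by
    refine le_trans ?_ (h2 w hww2)
    have e1 : M ≤ (64 * C + 3) * w ^ (6 : ℝ) := by
      rw [hM]
      have e2 : w ^ (6 : ℝ) = w ^ 6 := by
        rw [← Real.rpow_natCast]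
        norm_num
      rw [e2]
      have e3 : (1 + w) ^ 6 ≤ (2 * w) ^ 6 := pow_le_pow_left₀ (by linarith) (by linarith) 6
      have e4 : (2 * w) ^ 6 = 64 * w ^ 6 := by ring
      have e5 : 1 ≤ w ^ 6 := one_le_pow₀ hw1'
      rw [e4] at e3
      nlinarith
    have e2 : E ≤ Real.exp (-(1 / (4 * a)) * w) := by
      rw [hE]
      refine Real.exp_le_exp.2 ?_
      have e3 : w ≤ Real.exp (2 * w) := by
        have := Real.add_one_le_exp (2 * w)
        linarith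
      have e4 : -(1 / (4 * a)) * w = -w / (4 * a) := by ring
      rw [e4]
      gcongr
    have e3 : s ≤ 2 := by
      rw [hs, Real.sqrt_le_left (by norm_num)]
      norm_num
    have hp6 : 0 < w ^ (6 : ℝ) := Real.rpow_pos_of_pos hw0 _
    calc M * E * s ≤ ((64 * C + 3) * w ^ (6 : ℝ)) * Real.exp (-(1 / (4 * a)) * w) * 2 := by
          gcongr
      _ = (64 * C + 3) * 2 * w ^ (6 : ℝ) * Real.exp (-(1 / (4 * a)) * w) := by ring
  linarith

end HLA
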