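import Pool.Agent.HLA.Defs
import Pool.Agent.ASI.Vaughan

/-!
# HLA.Vau: Vaughan's identity against a general weight

PROOF. As `Pool/Agent/ASI/Vaughan.lean` (copy; there the weight is `np n τ · ps L (log n)`): with the arithmetic functions `F n = Λ(n)(1 - hL U (log n))`, `G n = μ(n)(1 - hM U (log n))`:
`Λ = F + log * G - 1 * F * G + (Λ hL) * (μ hM) * 1` (`Vaughan_id` there), multiply by `φ n` and sum over `n`; the grouping lemma `Vaughan_group` and the divisor bounds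
(`|coefficients| ≤ d(n)² (1 + log n)²`-type bounds, `ASI.div_gauss`) give absolute convergence, since `|φ n| ≤ B n⁻¹ exp(-(log n - c)²/8)`. (`φ 0 = 0` by the hypothesis.)
-/

namespace HLA

open MeasureTheory ArithmeticFunction SMC

/-- Grouping an absolutely convergent sum. -/
private theorem Vau_group {ι : Type*} (pr : ι → ℕ) (S : ℕ → Finset ι) (f : ι → ℝ)
    (h1 : ∀ n, ∀ i ∈ S n, pr i = n) (h2 : ∀ i, f i ≠ 0 → i ∈ S (pr i))
    (hs : Summable fun n => ∑ i ∈ S n, ‖f i‖) :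
    Summable f ∧ ∑' i, f i = ∑' n, ∑ i ∈ S n, f i := by
  have hfib : ∀ (g : ι → ℝ) (_ : ∀ i, g i ≠ 0 → i ∈ S (pr i))
      (n : ℕ), Summable (fun i : {i // pr i = n} => g i) ∧
        ∑' i : {i // pr i = n}, g i = ∑ i ∈ S n, g i := by
    intro g hg n
    have e1 : ∀ i ∉ S n, ({i | pr i = n} : Set ι).indicator g i = 0 := by
      intro i hi
      by_cases hp : pr i = n
      · rw [Set.indicator_of_mem (show i ∈ {i | pr i = n} from hp)]
        by_contra hne
        exact hi (hp ▸ hg i hne)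
      · rw [Set.indicator_of_notMem (show i ∉ {i | pr i = n} from hp)]
    have e2 : HasSum (({i | pr i = n} : Set ι).indicator g)
        (∑ i ∈ S n, ({i | pr i = n} : Set ι).indicator g i) := hasSum_sum_of_ne_finset_zero e1
    have e3 : ∑ i ∈ S n, ({i | pr i = n} : Set ι).indicator g i = ∑ i ∈ S n, g i :=
      Finset.sum_congr rfl fun i hi =>
        Set.indicator_of_mem (show i ∈ {i | pr i = n} from h1 n i hi) g
    rw [e3] at e2
    have e4 : HasSum (fun i : {i // pr i = n} => g i) (∑ i ∈ S n, g i) :=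
      (hasSum_subtype_iff_indicator (s := {i | pr i = n})).mpr e2
    exact ⟨e4.summable, e4.tsum_eq⟩
  have hnorm : Summable fun x : Σ n, {i // pr i = n} => ‖f (x.2 : ι)‖ := by
    rw [summable_sigma_of_nonneg (fun _ => norm_nonneg _)]
    refine ⟨fun n => (hfib (fun i => ‖f i‖) (fun i hi => h2 i (by simpa using hi)) n).1, ?_⟩
    refine hs.congr fun n => ?_
    exact ((hfib (fun i => ‖f i‖) (fun i hi => h2 i (by simpa using hi)) n).2).symm
  have hsum : Summable fun x : Σ n, {i // pr i = n} => f (x.2 : ι) := hnorm.of_norm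
  have hsf : Summable f := by
    rw [← (Equiv.sigmaFiberEquiv pr).summable_iff]
    exact hsum
  refine ⟨hsf, ?_⟩
  rw [← (Equiv.sigmaFiberEquiv pr).tsum_eq f]
  have e5 : ∑' x : Σ n, {i // pr i = n}, f ((Equiv.sigmaFiberEquiv pr) x) =
      ∑' x : Σ n, {i // pr i = n}, f (x.2 : ι) := rfl
  rw [e5, hsum.tsum_sigma]
  exact tsum_congr fun n => (hfib f h2 n).2

/-- the dominating weight -/
private noncomputable def Vau_w (B c : ℝ) (n : ℕ) : ℝ := B * (n : ℝ)⁻¹ * Real.exp (-(Real.log n - c) ^ 2 / 8)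

private theorem Vau_B {B c : ℝ} {φ : ℕ → ℝ}
    (hφ : ∀ n : ℕ, |φ n| ≤ B * (n : ℝ)⁻¹ * Real.exp (-(Real.log n - c) ^ 2 / 8)) : 0 ≤ B := by
  have h1 := (abs_nonneg _).trans (hφ 1)
  rw [Nat.cast_one, inv_one, mul_one] at h1
  exact nonneg_of_mul_nonneg_left h1 (Real.exp_pos _)

private theorem Vau_zero {B c : ℝ} {φ : ℕ → ℝ}
    (hφ : ∀ n : ℕ, |φ n| ≤ B * (n : ℝ)⁻¹ * Real.exp (-(Real.log n - c) ^ 2 / 8)) : φ 0 = 0 := by
  have h1 := hφ 0
  rw [Nat.cast_zero, inv_zero, mul_zero, zero_mul] at h1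
  exact abs_nonpos_iff.1 h1

private theorem Vau_w_nonneg {B : ℝ} (hB : 0 ≤ B) (c : ℝ) (n : ℕ) : 0 ≤ Vau_w B c n := by
  unfold Vau_w
  positivity

private theorem Vau_sumc {B : ℝ} (hB : 0 ≤ B) (c : ℝ) : Summable (fun n : ℕ =>
    (n.divisors.card : ℝ) * (1 + Real.log n) * Vau_w B c n) := by
  obtain ⟨C, _, h⟩ := ASI.div_gauss
  refine Summable.of_nonneg_of_le ?_ ?_ ((h c).1.mul_left B)
  · intro n
    have h1 : 0 ≤ Real.log (n : ℝ) := Real.log_natCast_nonneg n
    have h2 := Vau_w_nonneg hB c n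
    positivity
  · intro n
    rcases Nat.eq_zero_or_pos n with rfl | hn
    · simp
    · have h1 : 0 ≤ Real.log (n : ℝ) := Real.log_natCast_nonneg n
      have hd : (1 : ℝ) ≤ n.divisors.card := by
        have : 0 < n.divisors.card := Finset.card_pos.mpr ⟨1, Nat.one_mem_divisors.mpr hn.ne'⟩
        exact_mod_cast this
      have hps : Real.exp (-(Real.log n - c) ^ 2 / 8) ≤ Real.exp (-(Real.log n - c) ^ 2 / 16) := by
        apply Real.exp_le_exp.mpr
        nlinarith [sq_nonneg (Real.log (n : ℝ) - c)]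
      have h3 : (n.divisors.card : ℝ) * (1 + Real.log n) ≤
          (n.divisors.card : ℝ) ^ 2 * (1 + Real.log n) ^ 2 := by
        have h4 : (1 : ℝ) ≤ (n.divisors.card : ℝ) * (1 + Real.log n) := by nlinarith
        nlinarith
      have hn0 : (0 : ℝ) < n := by exact_mod_cast hn
      calc (n.divisors.card : ℝ) * (1 + Real.log n) * Vau_w B c n
          ≤ ((n.divisors.card : ℝ) ^ 2 * (1 + Real.log n) ^ 2) * Vau_w B c n :=
            mul_le_mul_of_nonneg_right h3 (Vau_w_nonneg hB c n)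
        _ ≤ ((n.divisors.card : ℝ) ^ 2 * (1 + Real.log n) ^ 2) *
            (B * (n : ℝ)⁻¹ * Real.exp (-(Real.log n - c) ^ 2 / 16)) := by
            refine mul_le_mul_of_nonneg_left ?_ (by positivity)
            unfold Vau_w
            exact mul_le_mul_of_nonneg_left hps (by positivity)
        _ = _ := by
            rw [div_eq_mul_inv]
            ring

private theorem Vau_gen {ι : Type*} {B c : ℝ} {φ : ℕ → ℝ}
    (hφ : ∀ n : ℕ, |φ n| ≤ B * (n : ℝ)⁻¹ * Real.exp (-(Real.log n - c) ^ 2 / 8)) (pr : ι → ℕ)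
    (S : ℕ → Finset ι) (a : ι → ℝ) (f : ι → ℝ) (h1 : ∀ n, ∀ i ∈ S n, pr i = n)
    (h2 : ∀ i, f i ≠ 0 → i ∈ S (pr i)) (h3 : ∀ n, ∀ i ∈ S n, f i = a i * φ n)
    (hb : ∀ n, ∑ i ∈ S n, |a i| ≤ (n.divisors.card : ℝ) * (1 + Real.log n)) :
    Summable f ∧ Summable (fun n : ℕ => (∑ i ∈ S n, a i) * φ n) ∧
      ∑' i, f i = ∑' n : ℕ, (∑ i ∈ S n, a i) * φ n := by
  have hB := Vau_B hφ
  have hw0 : ∀ n : ℕ, 0 ≤ Vau_w B c n := Vau_w_nonneg hB c
  have hs : Summable fun n => ∑ i ∈ S n, ‖f i‖ := by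
    refine Summable.of_nonneg_of_le (fun n => Finset.sum_nonneg fun i _ => norm_nonneg _) ?_
      (Vau_sumc hB c)
    intro n
    have e1 : ∑ i ∈ S n, ‖f i‖ = (∑ i ∈ S n, |a i|) * |φ n| := by
      rw [Finset.sum_mul]
      refine Finset.sum_congr rfl fun i hi => ?_
      rw [h3 n i hi, Real.norm_eq_abs, abs_mul]
    rw [e1]
    refine mul_le_mul (hb n) (hφ n) (abs_nonneg _) ?_
    exact (Finset.sum_nonneg fun i _ => abs_nonneg _).trans (hb n)
  obtain ⟨h4, h5⟩ := Vau_group pr S f h1 h2 hs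
  have e2 : ∀ n, ∑ i ∈ S n, f i = (∑ i ∈ S n, a i) * φ n := by
    intro n
    rw [Finset.sum_mul]
    exact Finset.sum_congr rfl fun i hi => h3 n i hi
  refine ⟨h4, ?_, ?_⟩
  · refine Summable.of_norm_bounded (g := fun n : ℕ =>
      (n.divisors.card : ℝ) * (1 + Real.log n) * Vau_w B c n) (Vau_sumc hB c) ?_
    intro n
    rw [Real.norm_eq_abs, abs_mul]
    refine mul_le_mul ((Finset.abs_sum_le_sum_abs _ _).trans (hb n)) (hφ n) (abs_nonneg _) ?_
    exact (Finset.sum_nonneg fun i _ => abs_nonneg _).trans (hb n)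
  · rw [h5]
    exact tsum_congr e2

private noncomputable def Vau_F (U : ℝ) : ArithmeticFunction ℝ :=
  ⟨fun n => vonMangoldt n * (1 - ASI.hL U (Real.log n)), by simp⟩

private noncomputable def Vau_G (U : ℝ) : ArithmeticFunction ℝ :=
  ⟨fun n => (moebius n : ℝ) * (1 - ASI.hM U (Real.log n)), by simp⟩

private theorem Vau_F_apply (U : ℝ) (n : ℕ) :
    Vau_F U n = vonMangoldt n * (1 - ASI.hL U (Real.log n)) := rfl

private theorem Vau_G_apply (U : ℝ) (n : ℕ) :
    Vau_G U n = (moebius n : ℝ) * (1 - ASI.hM U (Real.log n)) := rfl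

private theorem Vau_sub (f g : ArithmeticFunction ℝ) (n : ℕ) :
    (f - g) n = f n - g n := by
  rw [sub_eq_add_neg, sub_eq_add_neg]; rfl

private theorem Vau_id (U : ℝ) (n : ℕ) :
    vonMangoldt n = Vau_F U n + (Vau_G U * ArithmeticFunction.log) n -
      (Vau_F U * (Vau_G U * (zeta : ArithmeticFunction ℝ))) n +
      ((vonMangoldt - Vau_F U) * (((moebius : ArithmeticFunction ℝ) - Vau_G U) *
        (zeta : ArithmeticFunction ℝ))) n := by
  have h1 : (vonMangoldt - Vau_F U) * (((moebius : ArithmeticFunction ℝ) - Vau_G U) *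
      (zeta : ArithmeticFunction ℝ)) = vonMangoldt - Vau_F U -
        Vau_G U * ArithmeticFunction.log +
        Vau_F U * (Vau_G U * (zeta : ArithmeticFunction ℝ)) := by
    have h2 : ((moebius : ArithmeticFunction ℝ) - Vau_G U) * (zeta : ArithmeticFunction ℝ) =
        1 - Vau_G U * (zeta : ArithmeticFunction ℝ) := by
      rw [sub_mul, coe_moebius_mul_coe_zeta]
    rw [h2, ← vonMangoldt_mul_zeta]
    ring
  rw [h1, ArithmeticFunction.add_apply, Vau_sub, Vau_sub]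
  ring

/-- `|bt|` and divisors -/
private theorem Vau_bt (U : ℝ) (k : ℕ) : ASI.bt U k =
    (((moebius : ArithmeticFunction ℝ) - Vau_G U) * (zeta : ArithmeticFunction ℝ)) k := by
  rw [coe_mul_zeta_apply]
  unfold ASI.bt
  refine Finset.sum_congr rfl fun d _ => ?_
  rw [Vau_sub, Vau_G_apply, intCoe_apply]
  ring

private theorem Vau_card (n : ℕ) : ∑ q ∈ n.divisorsAntidiagonal, vonMangoldt q.1 =
    Real.log n := by
  rw [← vonMangoldt_sum, Nat.sum_divisorsAntidiagonal (f := fun i _ => vonMangoldt i)]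

private theorem Vau_abs_F (U : ℝ) (n : ℕ) : |Vau_F U n| ≤ vonMangoldt n := by
  rw [Vau_F_apply, abs_mul, abs_of_nonneg vonMangoldt_nonneg]
  have h1 := ASI.hL_nonneg U (Real.log n)
  have h2 := ASI.hL_le U (Real.log n)
  have h3 : |1 - ASI.hL U (Real.log n)| ≤ 1 := abs_le.mpr ⟨by linarith, by linarith⟩
  calc vonMangoldt n * |1 - ASI.hL U (Real.log n)| ≤ vonMangoldt n * 1 :=
        mul_le_mul_of_nonneg_left h3 vonMangoldt_nonneg
    _ = vonMangoldt n := mul_one _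

private theorem Vau_abs_G (U : ℝ) (n : ℕ) : |Vau_G U n| ≤ 1 := by
  rw [Vau_G_apply, abs_mul]
  have h1 := ASI.hM_nonneg U (Real.log n)
  have h2 := ASI.hM_le U (Real.log n)
  have h3 : |1 - ASI.hM U (Real.log n)| ≤ 1 := abs_le.mpr ⟨by linarith, by linarith⟩
  have h4 : |(moebius n : ℝ)| ≤ 1 := by
    have : |moebius n| ≤ 1 := abs_moebius_le_one
    exact_mod_cast this
  calc |(moebius n : ℝ)| * |1 - ASI.hM U (Real.log n)| ≤ 1 * 1 :=
        mul_le_mul h4 h3 (abs_nonneg _) zero_le_one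
    _ = 1 := mul_one _

private theorem Vau_div_le {k n : ℕ} (hk : k ∣ n) (hn : n ≠ 0) :
    (k.divisors.card : ℝ) ≤ n.divisors.card := by
  exact_mod_cast Finset.card_le_card (Nat.divisors_subset_of_dvd hn hk)

/-- the bound for sums of `Λ(a) c(k)` with `|c(k)| ≤ d(k)` -/
private theorem Vau_bound (c : ℕ → ℝ) (hc : ∀ k, c k ≤ (k.divisors.card : ℝ)) (n : ℕ) :
    ∑ q ∈ n.divisorsAntidiagonal, vonMangoldt q.1 * c q.2 ≤
      (n.divisors.card : ℝ) * (1 + Real.log n) := by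
  have hlog : 0 ≤ Real.log (n : ℝ) := Real.log_natCast_nonneg n
  calc ∑ q ∈ n.divisorsAntidiagonal, vonMangoldt q.1 * c q.2
      ≤ ∑ q ∈ n.divisorsAntidiagonal, vonMangoldt q.1 * (n.divisors.card : ℝ) := by
        refine Finset.sum_le_sum fun q hq => mul_le_mul_of_nonneg_left ?_ vonMangoldt_nonneg
        obtain ⟨h1, h2⟩ := Nat.mem_divisorsAntidiagonal.mp hq
        exact (hc _).trans (Vau_div_le ⟨q.1, by rw [← h1, mul_comm]⟩ h2)
    _ = (n.divisors.card : ℝ) * Real.log n := by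
        rw [← Finset.sum_mul, Vau_card, mul_comm]
    _ ≤ _ := by
        refine mul_le_mul_of_nonneg_left (by linarith) (by positivity)

/-- the triples with product `n` -/
private def Vau_S (n : ℕ) : Finset (ℕ × ℕ × ℕ) :=
  n.divisorsAntidiagonal.biUnion fun p => p.2.divisorsAntidiagonal.image fun q => (p.1, q)

private theorem Vau_mem_S {n : ℕ} {q : ℕ × ℕ × ℕ} :
    q ∈ Vau_S n ↔ q.1 * (q.2.1 * q.2.2) = n ∧ n ≠ 0 := by
  unfold Vau_S
  rw [Finset.mem_biUnion]
  constructor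
  · rintro ⟨p, hp, hq⟩
    obtain ⟨r, hr, rfl⟩ := Finset.mem_image.mp hq
    obtain ⟨h1, h2⟩ := Nat.mem_divisorsAntidiagonal.mp hp
    obtain ⟨h3, h4⟩ := Nat.mem_divisorsAntidiagonal.mp hr
    exact ⟨by dsimp only; rw [h3, h1], h2⟩
  · rintro ⟨h1, h2⟩
    refine ⟨(q.1, q.2.1 * q.2.2), Nat.mem_divisorsAntidiagonal.mpr ⟨h1, h2⟩, ?_⟩
    refine Finset.mem_image.mpr ⟨q.2, Nat.mem_divisorsAntidiagonal.mpr ⟨rfl, ?_⟩, rfl⟩
    intro h0
    have h0' : q.2.1 * q.2.2 = 0 := h0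
    exact h2 (by rw [← h1, h0', mul_zero])

private theorem Vau_sum_S (n : ℕ) (g : ℕ × ℕ × ℕ → ℝ) :
    ∑ q ∈ Vau_S n, g q =
      ∑ p ∈ n.divisorsAntidiagonal, ∑ q ∈ p.2.divisorsAntidiagonal, g (p.1, q) := by
  unfold Vau_S
  rw [Finset.sum_biUnion]
  · refine Finset.sum_congr rfl fun p _ => ?_
    rw [Finset.sum_image]
    intro q _ q' _ h
    exact (Prod.mk.inj h).2
  · intro p hp p' hp' hne
    rw [Function.onFun, Finset.disjoint_left]
    intro x hx hx'
    obtain ⟨r, hr, h1⟩ := Finset.mem_image.mp hx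
    obtain ⟨r', hr', h2⟩ := Finset.mem_image.mp hx'
    apply hne
    rw [← h2] at h1
    have h3 : p.1 = p'.1 := (Prod.mk.inj h1).1
    have h4 : r = r' := (Prod.mk.inj h1).2
    have h5 := (Nat.mem_divisorsAntidiagonal.mp hr).1
    have h6 := (Nat.mem_divisorsAntidiagonal.mp hr').1
    refine Prod.ext h3 ?_
    rw [← h5, ← h6, h4]


section parts

variable {B c : ℝ} {φ : ℕ → ℝ}

private theorem Vau_X2 (U : ℝ)
    (hφ : ∀ n : ℕ, |φ n| ≤ B * (n : ℝ)⁻¹ * Real.exp (-(Real.log n - c) ^ 2 / 8)) :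
    Summable (fun q : ℕ × ℕ => (moebius q.1 : ℝ) * (1 - ASI.hM U (Real.log q.1)) * Real.log q.2 * φ (q.1 * q.2)) ∧
    Summable (fun n : ℕ => (Vau_G U * ArithmeticFunction.log) n * φ n) ∧
    S2 U φ = ∑' n : ℕ, (Vau_G U * ArithmeticFunction.log) n * φ n := by
  have key := Vau_gen hφ (fun q : ℕ × ℕ => q.1 * q.2)
    (fun n => n.divisorsAntidiagonal)
    (fun q => Vau_G U q.1 * ArithmeticFunction.log q.2)
    (fun q => (moebius q.1 : ℝ) * (1 - ASI.hM U (Real.log q.1)) * Real.log q.2 * φ (q.1 * q.2)) ?_ ?_ ?_ ?_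
  · have e : ∀ n : ℕ, ∑ q ∈ n.divisorsAntidiagonal, Vau_G U q.1 *
        ArithmeticFunction.log q.2 = (Vau_G U * ArithmeticFunction.log) n :=
      fun n => (mul_apply).symm
    simp only [e] at key
    exact key
  · intro n q hq
    exact (Nat.mem_divisorsAntidiagonal.mp hq).1
  · intro q hq
    rw [Nat.mem_divisorsAntidiagonal]
    refine ⟨rfl, ?_⟩
    intro h0
    apply hq
    try dsimp only at h0 ⊢
    rw [h0, Vau_zero hφ, mul_zero]
  · intro n q hq
    obtain ⟨h1, h2⟩ := Nat.mem_divisorsAntidiagonal.mp hq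
    try dsimp only
    rw [h1, Vau_G_apply, log_apply]
  · intro n
    have hlog : 0 ≤ Real.log (n : ℝ) := Real.log_natCast_nonneg n
    have e1 : ∀ q ∈ n.divisorsAntidiagonal,
        |Vau_G U q.1 * ArithmeticFunction.log q.2| ≤ Real.log n := by
      intro q hq
      obtain ⟨h1, h2⟩ := Nat.mem_divisorsAntidiagonal.mp hq
      have hb : q.2 ≠ 0 := fun h => h2 (by rw [← h1, h, mul_zero])
      rw [abs_mul, log_apply, abs_of_nonneg (Real.log_natCast_nonneg q.2)]
      have h3 : Real.log (q.2 : ℝ) ≤ Real.log n := by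
        refine Real.log_le_log (by exact_mod_cast Nat.pos_of_ne_zero hb) ?_
        exact_mod_cast Nat.le_of_dvd (Nat.pos_of_ne_zero h2) ⟨q.1, by rw [← h1, mul_comm]⟩
      calc |Vau_G U q.1| * Real.log q.2 ≤ 1 * Real.log n :=
            mul_le_mul (Vau_abs_G U q.1) h3 (Real.log_natCast_nonneg q.2) zero_le_one
        _ = Real.log n := one_mul _
    refine (Finset.sum_le_sum e1).trans ?_
    rw [Finset.sum_const, nsmul_eq_mul]
    have e2 : n.divisorsAntidiagonal.card = n.divisors.card := by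
      rw [← Nat.map_div_right_divisors, Finset.card_map]
    rw [e2]
    refine mul_le_mul_of_nonneg_left (by linarith) (by positivity)

private theorem Vau_T4 (U : ℝ)
    (hφ : ∀ n : ℕ, |φ n| ≤ B * (n : ℝ)⁻¹ * Real.exp (-(Real.log n - c) ^ 2 / 8)) :
    Summable (fun q : ℕ × ℕ => vonMangoldt q.1 * ASI.hL U (Real.log q.1) * ASI.bt U q.2 * φ (q.1 * q.2)) ∧
    Summable (fun n : ℕ => ((vonMangoldt - Vau_F U) *
      (((moebius : ArithmeticFunction ℝ) - Vau_G U) * (zeta : ArithmeticFunction ℝ)) :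
        ArithmeticFunction ℝ) n * φ n) ∧
    S4 U φ = ∑' n : ℕ, ((vonMangoldt - Vau_F U) *
      (((moebius : ArithmeticFunction ℝ) - Vau_G U) * (zeta : ArithmeticFunction ℝ)) :
        ArithmeticFunction ℝ) n * φ n := by
  have hF : ∀ n : ℕ, (vonMangoldt - Vau_F U : ArithmeticFunction ℝ) n =
      vonMangoldt n * ASI.hL U (Real.log n) := by
    intro n
    rw [Vau_sub, Vau_F_apply]
    ring
  have key := Vau_gen hφ (fun q : ℕ × ℕ => q.1 * q.2)
    (fun n => n.divisorsAntidiagonal)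
    (fun q => (vonMangoldt - Vau_F U : ArithmeticFunction ℝ) q.1 *
      (((moebius : ArithmeticFunction ℝ) - Vau_G U) * (zeta : ArithmeticFunction ℝ)) q.2)
    (fun q => vonMangoldt q.1 * ASI.hL U (Real.log q.1) * ASI.bt U q.2 * φ (q.1 * q.2)) ?_ ?_ ?_ ?_
  · have e : ∀ n : ℕ, ∑ q ∈ n.divisorsAntidiagonal,
        (vonMangoldt - Vau_F U : ArithmeticFunction ℝ) q.1 *
        (((moebius : ArithmeticFunction ℝ) - Vau_G U) * (zeta : ArithmeticFunction ℝ)) q.2 =
        ((vonMangoldt - Vau_F U) *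
          (((moebius : ArithmeticFunction ℝ) - Vau_G U) *
            (zeta : ArithmeticFunction ℝ)) : ArithmeticFunction ℝ) n :=
      fun n => (mul_apply).symm
    simp only [e] at key
    exact key
  · intro n q hq
    exact (Nat.mem_divisorsAntidiagonal.mp hq).1
  · intro q hq
    rw [Nat.mem_divisorsAntidiagonal]
    refine ⟨rfl, ?_⟩
    intro h0
    apply hq
    try dsimp only at h0 ⊢
    rw [h0, Vau_zero hφ, mul_zero]
  · intro n q hq
    obtain ⟨h1, h2⟩ := Nat.mem_divisorsAntidiagonal.mp hq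
    try dsimp only
    rw [h1, hF, ← Vau_bt]
  · intro n
    have e1 : ∀ q ∈ n.divisorsAntidiagonal,
        |(vonMangoldt - Vau_F U : ArithmeticFunction ℝ) q.1 *
          (((moebius : ArithmeticFunction ℝ) - Vau_G U) * (zeta : ArithmeticFunction ℝ)) q.2| ≤
        vonMangoldt q.1 * (q.2.divisors.card : ℝ) := by
      intro q _
      rw [abs_mul, hF, ← Vau_bt]
      refine mul_le_mul ?_ (ASI.bt_le U q.2) (abs_nonneg _) vonMangoldt_nonneg
      rw [abs_mul, abs_of_nonneg vonMangoldt_nonneg, abs_of_nonneg (ASI.hL_nonneg _ _)]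
      calc vonMangoldt q.1 * ASI.hL U (Real.log q.1) ≤ vonMangoldt q.1 * 1 :=
            mul_le_mul_of_nonneg_left (ASI.hL_le _ _) vonMangoldt_nonneg
        _ = vonMangoldt q.1 := mul_one _
    refine (Finset.sum_le_sum e1).trans ?_
    exact Vau_bound (fun k => (k.divisors.card : ℝ)) (fun k => le_rfl) n

private theorem Vau_X3 (U : ℝ)
    (hφ : ∀ n : ℕ, |φ n| ≤ B * (n : ℝ)⁻¹ * Real.exp (-(Real.log n - c) ^ 2 / 8)) :
    Summable (fun q : ℕ × ℕ × ℕ => vonMangoldt q.1 * (1 - ASI.hL U (Real.log q.1)) *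
      ((moebius q.2.1 : ℝ) * (1 - ASI.hM U (Real.log q.2.1))) * φ (q.1 * (q.2.1 * q.2.2))) ∧
    Summable (fun n : ℕ => (Vau_F U * (Vau_G U * (zeta : ArithmeticFunction ℝ)) :
      ArithmeticFunction ℝ) n * φ n) ∧
    S3 U φ = ∑' n : ℕ, (Vau_F U * (Vau_G U * (zeta : ArithmeticFunction ℝ)) :
      ArithmeticFunction ℝ) n * φ n := by
  have key := Vau_gen hφ (fun q : ℕ × ℕ × ℕ => q.1 * (q.2.1 * q.2.2))
    Vau_S
    (fun q => Vau_F U q.1 * (Vau_G U q.2.1 * (zeta : ArithmeticFunction ℝ) q.2.2))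
    (fun q => vonMangoldt q.1 * (1 - ASI.hL U (Real.log q.1)) *
      ((moebius q.2.1 : ℝ) * (1 - ASI.hM U (Real.log q.2.1))) * φ (q.1 * (q.2.1 * q.2.2))) ?_ ?_ ?_ ?_
  · have e : ∀ n : ℕ, ∑ q ∈ Vau_S n, Vau_F U q.1 * (Vau_G U q.2.1 *
        (zeta : ArithmeticFunction ℝ) q.2.2) =
        (Vau_F U * (Vau_G U * (zeta : ArithmeticFunction ℝ)) :
          ArithmeticFunction ℝ) n := by
      intro n
      rw [Vau_sum_S, mul_apply]
      refine Finset.sum_congr rfl fun p _ => ?_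
      rw [mul_apply, Finset.mul_sum]
    simp only [e] at key
    exact key
  · intro n q hq
    exact (Vau_mem_S.mp hq).1
  · intro q hq
    rw [Vau_mem_S]
    refine ⟨rfl, ?_⟩
    intro h0
    apply hq
    try dsimp only at h0 ⊢
    rw [h0, Vau_zero hφ, mul_zero]
  · intro n q hq
    obtain ⟨h1, h2⟩ := Vau_mem_S.mp hq
    have hc : q.2.2 ≠ 0 := fun h => h2 (by rw [← h1, h, mul_zero, mul_zero])
    have hz : (zeta : ArithmeticFunction ℝ) q.2.2 = 1 := by
      rw [natCoe_apply, zeta_apply, if_neg hc, Nat.cast_one]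
    try dsimp only
    rw [h1, hz, Vau_F_apply, Vau_G_apply]
    ring
  · intro n
    rw [Vau_sum_S]
    have e1 : ∀ p ∈ n.divisorsAntidiagonal, ∑ q ∈ p.2.divisorsAntidiagonal,
        |Vau_F U p.1 * (Vau_G U q.1 * (zeta : ArithmeticFunction ℝ) q.2)| ≤
        vonMangoldt p.1 * (p.2.divisors.card : ℝ) := by
      intro p _
      have e2 : ∀ q ∈ p.2.divisorsAntidiagonal,
          |Vau_F U p.1 * (Vau_G U q.1 * (zeta : ArithmeticFunction ℝ) q.2)| ≤
          vonMangoldt p.1 := by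
        intro q _
        rw [abs_mul, abs_mul]
        have h3 : |(zeta : ArithmeticFunction ℝ) q.2| ≤ 1 := by
          rw [natCoe_apply, zeta_apply]
          split_ifs <;> simp
        calc |Vau_F U p.1| * (|Vau_G U q.1| * |(zeta : ArithmeticFunction ℝ) q.2|)
            ≤ vonMangoldt p.1 * (1 * 1) := by
              refine mul_le_mul (Vau_abs_F U p.1) ?_ (by positivity) vonMangoldt_nonneg
              exact mul_le_mul (Vau_abs_G U q.1) h3 (abs_nonneg _) zero_le_one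
          _ = vonMangoldt p.1 := by ring
      refine (Finset.sum_le_sum e2).trans ?_
      rw [Finset.sum_const, nsmul_eq_mul]
      have e3 : p.2.divisorsAntidiagonal.card = p.2.divisors.card := by
        rw [← Nat.map_div_right_divisors, Finset.card_map]
      rw [e3, mul_comm]
    refine (Finset.sum_le_sum e1).trans ?_
    exact Vau_bound (fun k => (k.divisors.card : ℝ)) (fun k => le_rfl) n

private theorem Vau_X1 (U : ℝ)
    (hφ : ∀ n : ℕ, |φ n| ≤ B * (n : ℝ)⁻¹ * Real.exp (-(Real.log n - c) ^ 2 / 8)) :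
    Summable (fun n : ℕ => Vau_F U n * φ n) ∧ S1 U φ = ∑' n : ℕ, Vau_F U n * φ n := by
  have hB := Vau_B hφ
  constructor
  · refine Summable.of_norm_bounded (g := fun n : ℕ =>
      (n.divisors.card : ℝ) * (1 + Real.log n) * Vau_w B c n) (Vau_sumc hB c) ?_
    intro n
    rw [Real.norm_eq_abs, abs_mul]
    have hlog : 0 ≤ Real.log (n : ℝ) := Real.log_natCast_nonneg n
    refine mul_le_mul ?_ (hφ n) (abs_nonneg _) (by positivity)
    rcases Nat.eq_zero_or_pos n with rfl | hn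
    · simp
    · have hd : (1 : ℝ) ≤ n.divisors.card := by
        have : 0 < n.divisors.card := Finset.card_pos.mpr ⟨1, Nat.one_mem_divisors.mpr hn.ne'⟩
        exact_mod_cast this
      refine (Vau_abs_F U n).trans ((vonMangoldt_le_log).trans ?_)
      nlinarith
  · unfold S1
    refine tsum_congr fun n => ?_
    rw [Vau_F_apply]

end parts

theorem vau {U B c : ℝ} (hU : 0 ≤ U) {φ : ℕ → ℝ}
    (hφ : ∀ n : ℕ, |φ n| ≤ B * (n : ℝ)⁻¹ * Real.exp (-(Real.log n - c) ^ 2 / 8)) :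
    Summable (fun n : ℕ => vonMangoldt n * φ n) ∧
    ∑' n : ℕ, vonMangoldt n * φ n = S1 U φ + S2 U φ - S3 U φ + S4 U φ := by
  have _ := hU
  obtain ⟨s1, e1⟩ := Vau_X1 U hφ
  obtain ⟨_, s2, e2⟩ := Vau_X2 U hφ
  obtain ⟨_, s3, e3⟩ := Vau_X3 U hφ
  obtain ⟨_, s4, e4⟩ := Vau_T4 U hφ
  have h0 : ∀ n : ℕ, vonMangoldt n * φ n = Vau_F U n * φ n + (Vau_G U * ArithmeticFunction.log) n * φ n -
      (Vau_F U * (Vau_G U * (zeta : ArithmeticFunction ℝ)) : ArithmeticFunction ℝ) n * φ n +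
      ((vonMangoldt - Vau_F U) * (((moebius : ArithmeticFunction ℝ) - Vau_G U) *
        (zeta : ArithmeticFunction ℝ)) : ArithmeticFunction ℝ) n * φ n := by
    intro n
    rw [Vau_id U n]
    ring
  constructor
  · exact (((s1.add s2).sub s3).add s4).congr fun n => (h0 n).symm
  · rw [e1, e2, e3, e4, ← s1.tsum_add s2, ← (s1.add s2).tsum_sub s3,
      ← ((s1.add s2).sub s3).tsum_add s4]
    exact tsum_congr h0

/-- Absolute convergence of the four sums. -/
theorem vau_summ {U B c : ℝ} (hU : 0 ≤ U) {φ : ℕ → ℝ}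
    (hφ : ∀ n : ℕ, |φ n| ≤ B * (n : ℝ)⁻¹ * Real.exp (-(Real.log n - c) ^ 2 / 8)) :
    Summable (fun n : ℕ => vonMangoldt n * (1 - ASI.hL U (Real.log n)) * φ n) ∧
    Summable (fun q : ℕ × ℕ => (moebius q.1 : ℝ) * (1 - ASI.hM U (Real.log q.1)) * Real.log q.2 * φ (q.1 * q.2)) ∧
    Summable (fun q : ℕ × ℕ × ℕ => vonMangoldt q.1 * (1 - ASI.hL U (Real.log q.1)) *
      ((moebius q.2.1 : ℝ) * (1 - ASI.hM U (Real.log q.2.1))) * φ (q.1 * (q.2.1 * q.2.2))) ∧
    Summable (fun q : ℕ × ℕ => vonMangoldt q.1 * ASI.hL U (Real.log q.1) * ASI.bt U q.2 * φ (q.1 * q.2)) := by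
  have _ := hU
  exact ⟨(Vau_X1 U hφ).1, (Vau_X2 U hφ).1, (Vau_X3 U hφ).1, (Vau_T4 U hφ).1⟩

end HLA
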