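import Pool.Agent.HLA.TOneF
import Pool.Agent.HLA.De
import Pool.Agent.HLA.Vau

/-!
# HLA.TOneD: the type I part does not change if `D` is smoothed

PROOF. `η = w^(-N)`, `L(D) = S1 + S2 - S3` at `ph σ c D`, `D_s x = D(x + η s)`. By `dd_shift` and `adm_map` the function `D_s` is again a `DD` with the same bounds, so `t1f` (with `A + 1`) gives
`L(D_s) = ∫ ρ W D_s + O(w^(-A-1))`, `ρ x = p x + q`, `W = WW σ c`, for all `s`. `L(De η D) = ∫ ga(s) L(D_s) ds` (`de_tsum` for each of the three sums; they are absolutely convergent by `vau_summ` with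
`φ = ph σ c D`, `|D| ≤ w^(3E)`; `ph σ c D (n) = n⁻¹ W(log n) D(log n)`, `exp(-x²/(2σ²)) ≤ exp(-x²/8)`). So `|L(D) - L(De η D)| ≤ 2 w^(-A-1) + ∫ ga(s) |∫ ρW (D - D_s)| ds`, and
`|∫ ρW (D - D_s)| = |∫ (ρW(x) - ρW(x - ηs)) D(x) dx| ≤ w^(3E) η |s| ∫ |(ρW)'| ≤ w^(3E) η |s| w^(M+3)`
(`∫ |f(x) - f(x-h)| dx ≤ |h| ∫ |f'|`; `c ≤ w + E`), `∫ |s| ga(s) ds ≤ 1` (`ga_int`). `N0 = 3E + M + A + 5`.
-/

namespace HLA

open MeasureTheory ArithmeticFunction SMC

/-- The `L¹` modulus of continuity. -/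
private theorem t1d_shift {f f' D : ℝ → ℝ} {B : ℝ} (hf : ∀ x, HasDerivAt f (f' x) x) (hc : Continuous f')
    (hi : Integrable f') (hfi : Integrable f) (hD : Continuous D) (hB : ∀ x, |D x| ≤ B) (h : ℝ) :
    |(∫ x, f x * D x) - ∫ x, f x * D (x + h)| ≤ B * (|h| * ∫ x, |f' x|) := by
  have hB0 : 0 ≤ B := (abs_nonneg _).trans (hB 0)
  have i1 : Integrable fun x => f x * D x :=
    hfi.mul_bdd (c := B) hD.aestronglyMeasurable (Filter.Eventually.of_forall fun x => hB x)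
  have i2 : Integrable fun x => f (x - h) * D x :=
    (hfi.comp_sub_right h).mul_bdd (c := B) hD.aestronglyMeasurable (Filter.Eventually.of_forall fun x => hB x)
  have e1 : ∫ x, f x * D (x + h) = ∫ x, f (x - h) * D x := by
    rw [← integral_add_right_eq_self (fun x => f (x - h) * D x) h]
    refine integral_congr_ae (Filter.Eventually.of_forall fun x => ?_)
    simp only [add_sub_cancel_right]
  rw [e1, ← integral_sub i1 i2]
  -- the product measure
  let μ : Measure ℝ := volume.restrict (Set.uIoc 0 h)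
  have hμ : IsFiniteMeasure μ := by
    refine ⟨?_⟩
    rw [Measure.restrict_apply_univ, Set.uIoc, Real.volume_Ioc]
    exact ENNReal.ofReal_lt_top
  have hμr : μ.real Set.univ = |h| := by
    rw [measureReal_def, Measure.restrict_apply_univ, Set.uIoc, Real.volume_Ioc, ENNReal.toReal_ofReal]
    · rw [max_sub_min_eq_abs, sub_zero]
    · exact sub_nonneg.mpr min_le_max
  have hG : Integrable (fun q : ℝ × ℝ => |f' (q.1 - q.2)|) (volume.prod μ) := by
    rw [integrable_prod_iff' (by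
      refine Continuous.aestronglyMeasurable ?_
      exact (hc.comp (by fun_prop)).abs)]
    constructor
    · refine Filter.Eventually.of_forall fun t => ?_
      exact (hi.comp_sub_right t).abs
    · have h1 : (fun t : ℝ => ∫ x : ℝ, ‖|f' ((x, t).1 - (x, t).2)|‖) = fun _ => ∫ x, |f' x| := by
        funext t
        rw [← integral_sub_right_eq_self (fun x => |f' x|) t]
        refine integral_congr_ae (Filter.Eventually.of_forall fun x => ?_)
        simp only [Real.norm_eq_abs, abs_abs]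
      rw [h1]
      exact integrable_const _
  have hpt : ∀ x, |f x - f (x - h)| ≤ ∫ t, |f' (x - t)| ∂μ := by
    intro x
    have h1 : f x - f (x - h) = ∫ t in (0 : ℝ)..h, f' (x - t) := by
      rw [intervalIntegral.integral_comp_sub_left (fun t => f' t) x, sub_zero]
      exact (intervalIntegral.integral_eq_sub_of_hasDerivAt (fun t _ => hf t)
        (hc.intervalIntegrable _ _)).symm
    rw [h1, ← Real.norm_eq_abs]
    exact intervalIntegral.norm_integral_le_integral_norm_uIoc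
  have hI : ∫ x, (∫ t, |f' (x - t)| ∂μ) = |h| * ∫ x, |f' x| := by
    rw [integral_integral_swap hG]
    have h1 : ∀ t : ℝ, ∫ x, |f' (x - t)| = ∫ x, |f' x| := fun t =>
      integral_sub_right_eq_self (fun x => |f' x|) t
    simp only [h1]
    rw [integral_const, smul_eq_mul, hμr]
  have h2 : ‖∫ x, (f x * D x - f (x - h) * D x)‖ ≤ ∫ x, B * ∫ t, |f' (x - t)| ∂μ := by
    refine norm_integral_le_of_norm_le (hG.integral_prod_left.const_mul B) (Filter.Eventually.of_forall fun x => ?_)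
    rw [← sub_mul, norm_mul, Real.norm_eq_abs, Real.norm_eq_abs, mul_comm]
    exact mul_le_mul (hB x) (hpt x) (abs_nonneg _) hB0
  rw [Real.norm_eq_abs, integral_const_mul, hI] at h2
  exact h2

private theorem t1d_ww {σ : ℝ} (hσ : 0 < σ) (hσ1 : σ ≤ 1) (c x : ℝ) : WW σ c x ≤ Real.exp (-(x - c) ^ 2 / 8) := by
  unfold WW
  refine Real.exp_le_exp.mpr ?_
  rw [neg_div, neg_div, neg_le_neg_iff]
  refine div_le_div_of_nonneg_left (sq_nonneg _) (by positivity) ?_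
  nlinarith

/-- The derivative of the linear function times the Gaussian. -/
private theorem t1d_deriv {σ : ℝ} (hσ : 0 < σ) (c p q x : ℝ) :
    HasDerivAt (fun x => (p * x + q) * WW σ c x)
      (p * WW σ c x + (p * x + q) * (-(x - c) / σ ^ 2 * WW σ c x)) x := by
  have h1 : HasDerivAt (fun x => p * x + q) p x := by
    simpa using ((hasDerivAt_id x).const_mul p).add_const q
  have h2 : HasDerivAt (fun x : ℝ => -(x - c) ^ 2 / (2 * σ ^ 2)) (-(x - c) / σ ^ 2) x := by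
    have h3 : HasDerivAt (fun x : ℝ => -(x - c) ^ 2 / (2 * σ ^ 2)) (-(2 * (x - c)) / (2 * σ ^ 2)) x := by
      have h4 := ((((hasDerivAt_id x).sub_const c).pow 2).neg).div_const (2 * σ ^ 2)
      simpa using h4
    have e : -(2 * (x - c)) / (2 * σ ^ 2) = -(x - c) / σ ^ 2 := by field_simp
    rwa [e] at h3
  have h5 : HasDerivAt (WW σ c) (-(x - c) / σ ^ 2 * WW σ c x) x := by
    have h6 := h2.exp
    rw [show -(x - c) / σ ^ 2 * WW σ c x = Real.exp (-(x - c) ^ 2 / (2 * σ ^ 2)) * (-(x - c) / σ ^ 2) from mul_comm _ _]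
    exact h6
  exact h1.mul h5

private theorem t1d_dcont {σ : ℝ} (c p q : ℝ) :
    Continuous fun x => p * WW σ c x + (p * x + q) * (-(x - c) / σ ^ 2 * WW σ c x) := by
  have h := WW_cont σ c
  have h1 : Continuous fun x : ℝ => -(x - c) / σ ^ 2 := (by fun_prop : Continuous fun x : ℝ => -(x - c)).div_const _
  exact (continuous_const.mul h).add ((by fun_prop : Continuous fun x : ℝ => p * x + q).mul (h1.mul h))

/-- `z² exp(-z²/(2σ²)) ≤ 4σ² exp(-z²/(4σ²))`. -/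
private theorem t1d_z {σ : ℝ} (hσ : 0 < σ) (c x : ℝ) : (x - c) ^ 2 * WW σ c x ≤ 4 * σ ^ 2 * WW (Real.sqrt 2 * σ) c x := by
  unfold WW
  have e1 : -(x - c) ^ 2 / (2 * σ ^ 2) = -((x - c) ^ 2 / (4 * σ ^ 2)) + -(x - c) ^ 2 / (2 * (Real.sqrt 2 * σ) ^ 2) := by
    rw [mul_pow, Real.sq_sqrt (by norm_num : (0 : ℝ) ≤ 2)]
    field_simp
    ring
  rw [e1, Real.exp_add, ← mul_assoc]
  refine mul_le_mul_of_nonneg_right ?_ (Real.exp_pos _).le
  have h1 : (x - c) ^ 2 = 4 * σ ^ 2 * ((x - c) ^ 2 / (4 * σ ^ 2)) := by field_simp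
  have h2 : ∀ y : ℝ, y * Real.exp (-y) ≤ 1 := by
    intro y
    rw [Real.exp_neg]
    have h3 : y ≤ Real.exp y := (by linarith : y ≤ y + 1).trans (Real.add_one_le_exp y)
    rw [← div_eq_mul_inv, div_le_one (Real.exp_pos y)]
    exact h3
  have h4 := h2 ((x - c) ^ 2 / (4 * σ ^ 2))
  calc (x - c) ^ 2 * Real.exp (-((x - c) ^ 2 / (4 * σ ^ 2)))
      = 4 * σ ^ 2 * ((x - c) ^ 2 / (4 * σ ^ 2) * Real.exp (-((x - c) ^ 2 / (4 * σ ^ 2)))) := by
        rw [← mul_assoc, ← h1]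
    _ ≤ 4 * σ ^ 2 * 1 := mul_le_mul_of_nonneg_left h4 (by positivity)
    _ = 4 * σ ^ 2 := mul_one _

private theorem t1d_wmono {σ : ℝ} (hσ : 0 < σ) (c x : ℝ) : WW σ c x ≤ WW (Real.sqrt 2 * σ) c x := by
  unfold WW
  refine Real.exp_le_exp.mpr ?_
  rw [neg_div, neg_div, neg_le_neg_iff, mul_pow, Real.sq_sqrt (by norm_num : (0 : ℝ) ≤ 2)]
  refine div_le_div_of_nonneg_left (sq_nonneg _) (by positivity) ?_
  nlinarith [sq_nonneg σ]

/-- The `L¹` norm of the derivative. -/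
private theorem t1d_L1 {σ : ℝ} (hσ : 0 < σ) (hσ1 : σ ≤ 1) {c p q P : ℝ} (hp : |p| ≤ P) (hq : |q| ≤ P) :
    Integrable (fun x => p * WW σ c x + (p * x + q) * (-(x - c) / σ ^ 2 * WW σ c x)) ∧
    ∫ x, |p * WW σ c x + (p * x + q) * (-(x - c) / σ ^ 2 * WW σ c x)| ≤ 20 * (P * (1 + (|c| + 2) / σ ^ 2)) := by
  have hP : 0 ≤ P := (abs_nonneg _).trans hp
  have hs2 : 0 < σ ^ 2 := by positivity
  have hC : 0 ≤ P * (1 + (|c| + 2) / σ ^ 2) := by
    have := abs_nonneg c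
    positivity
  have hpt : ∀ x, |p * WW σ c x + (p * x + q) * (-(x - c) / σ ^ 2 * WW σ c x)| ≤
      5 * (P * (1 + (|c| + 2) / σ ^ 2)) * WW (Real.sqrt 2 * σ) c x := by
    intro x
    have hW := WW_nonneg σ c x
    obtain ⟨z, hz⟩ : ∃ z, z = |x - c| := ⟨_, rfl⟩
    have hz0 : 0 ≤ z := by rw [hz]; exact abs_nonneg _
    have hx : |x| ≤ z + |c| := by
      have h1 : x = (x - c) + c := by ring
      rw [hz]
      calc |x| = |(x - c) + c| := by rw [← h1]
        _ ≤ |x - c| + |c| := abs_add_le _ _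
    have h2 : |p * x + q| ≤ P * (z + |c| + 1) := by
      calc |p * x + q| ≤ |p * x| + |q| := abs_add_le _ _
        _ = |p| * |x| + |q| := by rw [abs_mul]
        _ ≤ P * (z + |c|) + P := add_le_add (mul_le_mul hp hx (abs_nonneg _) hP) hq
        _ = P * (z + |c| + 1) := by ring
    have h3 : |(-(x - c) / σ ^ 2 * WW σ c x)| = z / σ ^ 2 * WW σ c x := by
      rw [abs_mul, abs_div, abs_neg, ← hz, abs_of_pos hs2, abs_of_nonneg hW]
    have h4 : z ≤ 1 + z ^ 2 := by nlinarith [sq_nonneg (z - 1)]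
    have h5 : z ^ 2 * WW σ c x ≤ 4 * σ ^ 2 * WW (Real.sqrt 2 * σ) c x := by
      rw [hz, sq_abs]
      exact t1d_z hσ c x
    have h6 : z ^ 2 * WW σ c x ≤ 4 * WW (Real.sqrt 2 * σ) c x := by
      refine h5.trans (mul_le_mul_of_nonneg_right ?_ (WW_nonneg _ _ _))
      nlinarith
    have h7 := t1d_wmono hσ c x
    have hc0 := abs_nonneg c
    have hkey : z / σ ^ 2 * (z + |c| + 1) ≤ (|c| + 2) / σ ^ 2 * (1 + z ^ 2) := by
      rw [div_mul_eq_mul_div, div_mul_eq_mul_div]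
      refine div_le_div_of_nonneg_right ?_ hs2.le
      nlinarith [mul_nonneg hc0 (sub_nonneg.mpr h4)]
    calc |p * WW σ c x + (p * x + q) * (-(x - c) / σ ^ 2 * WW σ c x)|
        ≤ |p * WW σ c x| + |(p * x + q) * (-(x - c) / σ ^ 2 * WW σ c x)| := abs_add_le _ _
      _ = |p| * WW σ c x + |p * x + q| * (z / σ ^ 2 * WW σ c x) := by
          rw [abs_mul, abs_of_nonneg hW, abs_mul (p * x + q), h3]
      _ ≤ P * WW σ c x + P * (z + |c| + 1) * (z / σ ^ 2 * WW σ c x) := by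
          refine add_le_add (mul_le_mul_of_nonneg_right hp hW) (mul_le_mul_of_nonneg_right h2 ?_)
          exact mul_nonneg (div_nonneg hz0 hs2.le) hW
      _ = P * (1 + z / σ ^ 2 * (z + |c| + 1)) * WW σ c x := by ring
      _ ≤ P * ((1 + (|c| + 2) / σ ^ 2) * (1 + z ^ 2)) * WW σ c x := by
          refine mul_le_mul_of_nonneg_right (mul_le_mul_of_nonneg_left ?_ hP) hW
          have h8 : 0 ≤ z ^ 2 := sq_nonneg z
          linarith
      _ = P * (1 + (|c| + 2) / σ ^ 2) * (WW σ c x + z ^ 2 * WW σ c x) := by ring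
      _ ≤ P * (1 + (|c| + 2) / σ ^ 2) * (WW (Real.sqrt 2 * σ) c x + 4 * WW (Real.sqrt 2 * σ) c x) :=
          mul_le_mul_of_nonneg_left (add_le_add h7 h6) hC
      _ = 5 * (P * (1 + (|c| + 2) / σ ^ 2)) * WW (Real.sqrt 2 * σ) c x := by ring
  obtain ⟨hI1, hI2⟩ := WW_int (σ := Real.sqrt 2 * σ) (by positivity) c
  have hI3 := hI1.const_mul (5 * (P * (1 + (|c| + 2) / σ ^ 2)))
  refine ⟨hI3.mono' (t1d_dcont c p q).aestronglyMeasurable (Filter.Eventually.of_forall hpt), ?_⟩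
  have h1 := integral_mono_of_nonneg (Filter.Eventually.of_forall fun x => abs_nonneg
    (p * WW σ c x + (p * x + q) * (-(x - c) / σ ^ 2 * WW σ c x))) hI3 (Filter.Eventually.of_forall hpt)
  refine h1.trans ?_
  rw [integral_const_mul, hI2]
  have h2 : Real.sqrt (2 * Real.pi) * (Real.sqrt 2 * σ) ≤ 4 := by
    rw [← mul_assoc, ← Real.sqrt_mul (by positivity : (0 : ℝ) ≤ 2 * Real.pi)]
    have h3 : Real.sqrt (2 * Real.pi * 2) ≤ 4 := by
      rw [Real.sqrt_le_left (by norm_num)]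
      nlinarith [Real.pi_lt_d2]
    calc Real.sqrt (2 * Real.pi * 2) * σ ≤ 4 * 1 := mul_le_mul h3 hσ1 hσ.le (by norm_num)
      _ = 4 := by norm_num
  calc 5 * (P * (1 + (|c| + 2) / σ ^ 2)) * (Real.sqrt (2 * Real.pi) * (Real.sqrt 2 * σ))
      ≤ 5 * (P * (1 + (|c| + 2) / σ ^ 2)) * 4 := mul_le_mul_of_nonneg_left h2 (by positivity)
    _ = 20 * (P * (1 + (|c| + 2) / σ ^ 2)) := by ring

private theorem t1d_rho_int {σ : ℝ} (hσ : 0 < σ) (c p q : ℝ) : Integrable fun x => (p * x + q) * WW σ c x := by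
  obtain ⟨P, hP⟩ : ∃ P, P = |p| + |q| + |p| * |c| := ⟨_, rfl⟩
  have hp0 := abs_nonneg p
  have hq0 := abs_nonneg q
  have hc0 := abs_nonneg c
  have hpc := mul_nonneg hp0 hc0
  have hP0 : 0 ≤ P := by rw [hP]; positivity
  obtain ⟨hI1, -⟩ := WW_int (σ := Real.sqrt 2 * σ) (by positivity) c
  have hI3 := hI1.const_mul (P * (2 + 4 * σ ^ 2))
  refine hI3.mono' ?_ (Filter.Eventually.of_forall fun x => ?_)
  · refine Continuous.aestronglyMeasurable ?_
    exact (by fun_prop : Continuous fun x : ℝ => p * x + q).mul (WW_cont σ c)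
  · have hW := WW_nonneg σ c x
    obtain ⟨z, hz⟩ : ∃ z, z = |x - c| := ⟨_, rfl⟩
    have hz0 : 0 ≤ z := by rw [hz]; exact abs_nonneg _
    have hx : |x| ≤ z + |c| := by
      have h1 : x = (x - c) + c := by ring
      rw [hz]
      calc |x| = |(x - c) + c| := by rw [← h1]
        _ ≤ |x - c| + |c| := abs_add_le _ _
    have h4 : z ≤ 1 + z ^ 2 := by nlinarith [sq_nonneg (z - 1)]
    have h5 : z ^ 2 * WW σ c x ≤ 4 * σ ^ 2 * WW (Real.sqrt 2 * σ) c x := by
      rw [hz, sq_abs]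
      exact t1d_z hσ c x
    have h7 := t1d_wmono hσ c x
    have h8 : |p * x + q| ≤ P * (2 + z ^ 2) := by
      calc |p * x + q| ≤ |p * x| + |q| := abs_add_le _ _
        _ = |p| * |x| + |q| := by rw [abs_mul]
        _ ≤ |p| * (z + |c|) + |q| := by
            have := mul_le_mul_of_nonneg_left hx hp0
            linarith
        _ ≤ P * (2 + z ^ 2) := by
            rw [hP]
            nlinarith [mul_le_mul_of_nonneg_left h4 hp0, mul_nonneg hq0 (sq_nonneg z), mul_nonneg hpc (sq_nonneg z)]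
    rw [norm_mul, Real.norm_eq_abs, Real.norm_eq_abs, abs_of_nonneg hW]
    calc |p * x + q| * WW σ c x ≤ P * (2 + z ^ 2) * WW σ c x := mul_le_mul_of_nonneg_right h8 hW
      _ = P * (2 * WW σ c x + z ^ 2 * WW σ c x) := by ring
      _ ≤ P * (2 * WW (Real.sqrt 2 * σ) c x + 4 * σ ^ 2 * WW (Real.sqrt 2 * σ) c x) :=
          mul_le_mul_of_nonneg_left (add_le_add (by linarith) h5) hP0
      _ = P * (2 + 4 * σ ^ 2) * WW (Real.sqrt 2 * σ) c x := by ring

/-- The smoothing inside a linear functional. -/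
private theorem t1d_lin {ι : Type*} [Countable ι] {σ c B : ℝ} (b : ι → ℝ) (ν : ι → ℕ)
    (hs : Summable fun i => b i * ph σ c (fun _ => 1) (ν i)) {D : ℝ → ℝ} (hD : Continuous D)
    (hB : ∀ x, |D x| ≤ B) (η : ℝ) :
    Integrable (fun s => ga s * ∑' i, b i * ph σ c (fun x => D (x + η * s)) (ν i)) ∧
    ∑' i, b i * ph σ c (De η D) (ν i) = ∫ s, ga s * ∑' i, b i * ph σ c (fun x => D (x + η * s)) (ν i) := by
  have hph : ∀ (F : ℝ → ℝ) (n : ℕ), ph σ c F n = ph σ c (fun _ => 1) n * F (Real.log n) := by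
    intro F n
    unfold ph
    ring
  have e1 : ∀ F : ℝ → ℝ, (fun i => b i * ph σ c F (ν i)) =
      fun i => b i * ph σ c (fun _ => 1) (ν i) * F (Real.log (ν i)) := by
    intro F
    funext i
    rw [hph F, mul_assoc]
  obtain ⟨a, ha⟩ : ∃ a : ι → ℝ, a = fun i => b i * ph σ c (fun _ => 1) (ν i) := ⟨_, rfl⟩
  have e2 : ∀ F : ℝ → ℝ, ∑' i, b i * ph σ c F (ν i) = ∑' i, a i * F (Real.log (ν i)) := by
    intro F
    rw [e1 F, ha]
  rw [← ha] at hs
  have hB0 : 0 ≤ B := (abs_nonneg _).trans (hB 0)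
  constructor
  · have e3 : (fun s => ga s * ∑' i, b i * ph σ c (fun x => D (x + η * s)) (ν i)) =
        fun s => ga s * ∑' i, a i * D (Real.log (ν i) + η * s) := by
      funext s
      rw [e2 fun x => D (x + η * s)]
    rw [e3]
    have hcont : Continuous fun s => ∑' i, a i * D (Real.log (ν i) + η * s) := by
      refine continuous_tsum (u := fun i => |a i| * B) (fun i => ?_) (hs.abs.mul_right B) (fun i s => ?_)
      · exact continuous_const.mul (hD.comp (by fun_prop))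
      · rw [norm_mul, Real.norm_eq_abs, Real.norm_eq_abs]
        exact mul_le_mul_of_nonneg_left (hB _) (abs_nonneg _)
    refine (ga_int.1).mul_bdd (c := ∑' i, |a i| * B) hcont.aestronglyMeasurable (Filter.Eventually.of_forall fun s => ?_)
    refine tsum_of_norm_bounded (hs.abs.mul_right B).hasSum fun i => ?_
    rw [norm_mul, Real.norm_eq_abs, Real.norm_eq_abs]
    exact mul_le_mul_of_nonneg_left (hB _) (abs_nonneg _)
  · rw [e2 (De η D), de_tsum hD hB η a (fun i => Real.log (ν i)) hs]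
    refine integral_congr_ae (Filter.Eventually.of_forall fun s => ?_)
    simp only
    rw [e2 fun x => D (x + η * s)]

/-- The type I part. -/
private noncomputable def t1d_L (U σ c : ℝ) (D : ℝ → ℝ) : ℝ :=
  S1 U (ph σ c D) + S2 U (ph σ c D) - S3 U (ph σ c D)

private theorem t1d_LL {U σ c B : ℝ} (hU : 0 ≤ U) (hσ : 0 < σ) (hσ1 : σ ≤ 1) {D : ℝ → ℝ} (hD : Continuous D)
    (hB : ∀ x, |D x| ≤ B) (η : ℝ) : Integrable (fun s => ga s * t1d_L U σ c (fun x => D (x + η * s))) ∧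
    t1d_L U σ c (De η D) = ∫ s, ga s * t1d_L U σ c (fun x => D (x + η * s)) := by
  have hφ : ∀ n : ℕ, |ph σ c (fun _ => 1) n| ≤ 1 * (n : ℝ)⁻¹ * Real.exp (-(Real.log n - c) ^ 2 / 8) := by
    intro n
    unfold ph
    rw [mul_one, one_mul, abs_mul, abs_of_nonneg (WW_nonneg _ _ _), abs_of_nonneg (by positivity)]
    exact mul_le_mul_of_nonneg_left (t1d_ww hσ hσ1 c _) (by positivity)
  obtain ⟨s1, s2, s3, -⟩ := vau_summ hU hφ
  obtain ⟨i1, e1⟩ := t1d_lin (fun n : ℕ => vonMangoldt n * (1 - ASI.hL U (Real.log n))) (fun n => n) s1 hD hB η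
  obtain ⟨i2, e2⟩ := t1d_lin (fun q : ℕ × ℕ => (moebius q.1 : ℝ) * (1 - ASI.hM U (Real.log q.1)) * Real.log q.2)
    (fun q => q.1 * q.2) s2 hD hB η
  obtain ⟨i3, e3⟩ := t1d_lin (fun q : ℕ × ℕ × ℕ => vonMangoldt q.1 * (1 - ASI.hL U (Real.log q.1)) *
      ((moebius q.2.1 : ℝ) * (1 - ASI.hM U (Real.log q.2.1)))) (fun q => q.1 * (q.2.1 * q.2.2)) s3 hD hB η
  have e4 : (fun s => ga s * t1d_L U σ c (fun x => D (x + η * s))) =
      fun s => ga s * S1 U (ph σ c (fun x => D (x + η * s))) + ga s * S2 U (ph σ c (fun x => D (x + η * s))) -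
        ga s * S3 U (ph σ c (fun x => D (x + η * s))) := by
    funext s
    unfold t1d_L
    ring
  have j1 : Integrable fun s => ga s * S1 U (ph σ c (fun x => D (x + η * s))) := i1
  have j2 : Integrable fun s => ga s * S2 U (ph σ c (fun x => D (x + η * s))) := i2
  have j3 : Integrable fun s => ga s * S3 U (ph σ c (fun x => D (x + η * s))) := i3
  have j12 : Integrable fun s => ga s * S1 U (ph σ c (fun x => D (x + η * s))) +
      ga s * S2 U (ph σ c (fun x => D (x + η * s))) := j1.add j2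
  rw [e4]
  refine ⟨j12.sub j3, ?_⟩
  rw [integral_sub j12 j3, integral_add j1 j2]
  unfold t1d_L
  have f1 : S1 U (ph σ c (De η D)) = ∫ s, ga s * S1 U (ph σ c (fun x => D (x + η * s))) := e1
  have f2 : S2 U (ph σ c (De η D)) = ∫ s, ga s * S2 U (ph σ c (fun x => D (x + η * s))) := e2
  have f3 : S3 U (ph σ c (De η D)) = ∫ s, ga s * S3 U (ph σ c (fun x => D (x + η * s))) := e3
  rw [f1, f2, f3]

theorem t1d {σ a1 b1 a2 b2 : ℝ} (E A : ℝ) (hσ : 0 < σ) (hσ1 : σ ≤ 1) (ha1 : a1 ≠ 0) (ha2 : a2 ≠ 0) :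
    ∃ N0 : ℝ, ∀ N : ℝ, N0 ≤ N → ∃ w0 : ℝ, 1 ≤ w0 ∧
    ∀ w c δ : ℝ, w0 ≤ w → |c - w| ≤ E → Real.exp (-w - E) ≤ δ → δ ≤ Real.exp (-w + E) →
    ∀ (μ1 μ2 : Measure ℝ) (K : ℝ → ℝ), Adm δ (w ^ E) μ1 → Adm δ (w ^ E) μ2 → AdmK (w ^ E) K →
    |(S1 (w / 200) (ph σ c (DD δ μ1 μ2 K a1 b1 a2 b2)) + S2 (w / 200) (ph σ c (DD δ μ1 μ2 K a1 b1 a2 b2)) -
        S3 (w / 200) (ph σ c (DD δ μ1 μ2 K a1 b1 a2 b2))) -
      (S1 (w / 200) (ph σ c (De (w ^ (-N)) (DD δ μ1 μ2 K a1 b1 a2 b2))) +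
        S2 (w / 200) (ph σ c (De (w ^ (-N)) (DD δ μ1 μ2 K a1 b1 a2 b2))) -
        S3 (w / 200) (ph σ c (De (w ^ (-N)) (DD δ μ1 μ2 K a1 b1 a2 b2))))| ≤ w ^ (-A) := by
  obtain ⟨w1, M, hw1, ht⟩ := t1f (σ := σ) (a1 := a1) (b1 := b1) (a2 := a2) (b2 := b2) E (A + 1) hσ hσ1 ha1 ha2
  refine ⟨3 * E + M + A + 3, fun N hN => ?_⟩
  obtain ⟨R, hR⟩ : ∃ R, R = 1 + (|E| + 3) / σ ^ 2 := ⟨_, rfl⟩
  have hs2 : 0 < σ ^ 2 := by positivity
  have hR1 : 1 ≤ R := by
    rw [hR]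
    have := abs_nonneg E
    have : 0 ≤ (|E| + 3) / σ ^ 2 := by positivity
    linarith
  refine ⟨max w1 (max 4 (40 * R)), hw1.trans (le_max_left _ _), ?_⟩
  intro w c δ hw hcw hδ1 hδ2 μ1 μ2 K hμ1 hμ2 hK
  have hww1 : w1 ≤ w := (le_max_left _ _).trans hw
  have hw4 : 4 ≤ w := ((le_max_left _ _).trans (le_max_right _ _)).trans hw
  have hwR : 40 * R ≤ w := ((le_max_right _ _).trans (le_max_right _ _)).trans hw
  have hw0 : 0 < w := by linarith
  have hwge1 : 1 ≤ w := by linarith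
  obtain ⟨p, q, hp, hq, hmain⟩ := ht w hww1
  obtain ⟨D, hDdef⟩ : ∃ D, D = DD δ μ1 μ2 K a1 b1 a2 b2 := ⟨_, rfl⟩
  obtain ⟨η, hη⟩ : ∃ η : ℝ, η = w ^ (-N) := ⟨_, rfl⟩
  have hη0 : 0 ≤ η := by rw [hη]; positivity
  rw [← hDdef, ← hη]
  have hDc : Continuous D := by rw [hDdef]; exact dd_cont hμ1 hμ2 hK a1 b1 a2 b2
  have hwE : 0 ≤ w ^ E := by positivity
  have hDB : ∀ x, |D x| ≤ (w ^ E) ^ 3 := by
    intro x
    rw [hDdef]
    exact dd_bound hwE hμ1 hμ2 hK a1 b1 a2 b2 x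
  have hmain' : ∀ h : ℝ, |t1d_L (w / 200) σ c (fun x => D (x + h)) -
      ∫ x, (p * x + q) * WW σ c x * D (x + h)| ≤ w ^ (-(A + 1)) := by
    intro h
    have h1 := hmain c δ hcw hδ1 hδ2 (μ1.map (fun z => z + -(b1 * h))) (μ2.map (fun z => z + -(b2 * h))) K
      (adm_map hμ1 _) (adm_map hμ2 _) hK
    have h2 : DD δ (μ1.map (fun z => z + -(b1 * h))) (μ2.map (fun z => z + -(b2 * h))) K a1 b1 a2 b2 =
        fun x => D (x + h) := by
      funext x
      rw [hDdef, dd_shift]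
    rw [h2] at h1
    unfold t1d_L
    have h3 : ∫ x, (p * x + q) * WW σ c x * D (x + h) = ∫ x, (p * x + q) * (WW σ c x * D (x + h)) := by
      refine integral_congr_ae (Filter.Eventually.of_forall fun x => ?_)
      simp only
      ring
    rw [h3]
    exact h1
  have hc : |c| ≤ w + |E| := by
    have h1 : c = (c - w) + w := by ring
    calc |c| = |(c - w) + w| := by rw [← h1]
      _ ≤ |c - w| + |w| := abs_add_le _ _
      _ ≤ |E| + w := add_le_add (hcw.trans (le_abs_self E)) (abs_of_pos hw0).le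
      _ = w + |E| := add_comm _ _
  obtain ⟨hL1, hL2⟩ := t1d_L1 hσ hσ1 (c := c) hp hq
  obtain ⟨J, hJ⟩ : ∃ J, J = 20 * (w ^ M * (1 + (|c| + 2) / σ ^ 2)) := ⟨_, rfl⟩
  rw [← hJ] at hL2
  have hJ0 : 0 ≤ J := by
    rw [hJ]
    have := abs_nonneg c
    positivity
  have hshift : ∀ s : ℝ, |(∫ x, (p * x + q) * WW σ c x * D x) - ∫ x, (p * x + q) * WW σ c x * D (x + η * s)| ≤
      (w ^ E) ^ 3 * (η * |s| * J) := by
    intro s
    have h1 := t1d_shift (fun x => t1d_deriv hσ c p q x) (t1d_dcont c p q) hL1 (t1d_rho_int hσ c p q) hDc hDB (η * s)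
    refine h1.trans ?_
    rw [abs_mul, abs_of_nonneg hη0]
    exact mul_le_mul_of_nonneg_left (mul_le_mul_of_nonneg_left hL2 (by positivity)) (by positivity)
  have hdiff : ∀ s : ℝ, |t1d_L (w / 200) σ c D - t1d_L (w / 200) σ c (fun x => D (x + η * s))| ≤
      2 * w ^ (-(A + 1)) + (w ^ E) ^ 3 * (η * |s| * J) := by
    intro s
    have h0 := hmain' 0
    simp only [add_zero] at h0
    have h1 := hmain' (η * s)
    have h2 := hshift s
    rw [abs_le] at h0 h1 h2 ⊢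
    constructor <;> linarith [h0.1, h0.2, h1.1, h1.2, h2.1, h2.2]
  obtain ⟨hi, he⟩ := t1d_LL (U := w / 200) (σ := σ) (c := c) (by positivity) hσ hσ1 hDc hDB η
  obtain ⟨g1, g2, g3, g4, g5, g6⟩ := ga_int
  have hgoal : |t1d_L (w / 200) σ c D - t1d_L (w / 200) σ c (De η D)| ≤
      2 * w ^ (-(A + 1)) + (w ^ E) ^ 3 * (η * J) := by
    have e1 : t1d_L (w / 200) σ c D = ∫ s, ga s * t1d_L (w / 200) σ c D := by
      rw [integral_mul_const, g2, one_mul]
    rw [he, e1, ← integral_sub (g1.mul_const _) hi]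
    have h1 : ‖∫ s, (ga s * t1d_L (w / 200) σ c D - ga s * t1d_L (w / 200) σ c (fun x => D (x + η * s)))‖ ≤
        ∫ s, (ga s * (2 * w ^ (-(A + 1))) + (|s| * ga s) * ((w ^ E) ^ 3 * (η * J))) := by
      refine norm_integral_le_of_norm_le ((g1.mul_const _).add (g5.mul_const _)) (Filter.Eventually.of_forall fun s => ?_)
      rw [← mul_sub, norm_mul, Real.norm_eq_abs, Real.norm_eq_abs, abs_of_nonneg (g4 s)]
      refine (mul_le_mul_of_nonneg_left (hdiff s) (g4 s)).trans (le_of_eq ?_)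
      ring
    rw [Real.norm_eq_abs] at h1
    refine h1.trans ?_
    rw [integral_add (g1.mul_const _) (g5.mul_const _), integral_mul_const, integral_mul_const, g2, one_mul]
    have h2 : (∫ s, |s| * ga s) * ((w ^ E) ^ 3 * (η * J)) ≤ 1 * ((w ^ E) ^ 3 * (η * J)) :=
      mul_le_mul_of_nonneg_right g6 (by positivity)
    linarith
  refine hgoal.trans ?_
  -- the numbers
  have hA1 : w ^ (-(A + 1)) = w ^ (-A) * w⁻¹ := by
    rw [show -(A + 1) = -A + -1 by ring, Real.rpow_add hw0, Real.rpow_neg_one]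
  have hwA : 0 < w ^ (-A) := by positivity
  have h1 : 2 * w ^ (-(A + 1)) ≤ w ^ (-A) / 2 := by
    rw [hA1]
    have h2 : w⁻¹ ≤ 1 / 4 := by
      rw [inv_eq_one_div]
      exact one_div_le_one_div_of_le (by norm_num) hw4
    nlinarith
  have h3 : (w ^ E) ^ 3 * (η * J) ≤ w ^ (-A) / 2 := by
    have e1 : (w ^ E) ^ 3 = w ^ (3 * E) := by
      rw [← Real.rpow_natCast, ← Real.rpow_mul hw0.le]
      congr 1
      push_cast
      ring
    have e2 : 1 + (|c| + 2) / σ ^ 2 ≤ R * w := by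
      have h4 : (|c| + 2) / σ ^ 2 ≤ (|E| + 3) / σ ^ 2 * w := by
        rw [div_mul_eq_mul_div]
        refine div_le_div_of_nonneg_right ?_ hs2.le
        nlinarith [abs_nonneg E]
      rw [hR]
      linarith
    have e3 : η ≤ w ^ (-(3 * E + M + A + 3)) := by
      rw [hη]
      exact Real.rpow_le_rpow_of_exponent_le hwge1 (by linarith)
    have e4 : w ^ (3 * E) * (w ^ (-(3 * E + M + A + 3)) * (20 * (w ^ M * (R * w)))) = w ^ (-A) * (20 * R * (w⁻¹ * w⁻¹)) := by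
      have e5 : w ^ (-(3 * E + M + A + 3)) = w ^ (-(3 * E)) * w ^ (-M) * w ^ (-A) * (w⁻¹ * w⁻¹ * w⁻¹) := by
        rw [show -(3 * E + M + A + 3) = -(3 * E) + -M + -A + (-1 + -1 + -1) by ring, Real.rpow_add hw0, Real.rpow_add hw0,
          Real.rpow_add hw0, Real.rpow_add hw0, Real.rpow_add hw0, Real.rpow_neg_one]
      have e6 : w ^ (3 * E) * w ^ (-(3 * E)) = 1 := by
        rw [← Real.rpow_add hw0, add_neg_cancel, Real.rpow_zero]
      have e7 : w ^ M * w ^ (-M) = 1 := by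
        rw [← Real.rpow_add hw0, add_neg_cancel, Real.rpow_zero]
      have e8 : w * w⁻¹ = 1 := mul_inv_cancel₀ hw0.ne'
      rw [e5]
      calc w ^ (3 * E) * (w ^ (-(3 * E)) * w ^ (-M) * w ^ (-A) * (w⁻¹ * w⁻¹ * w⁻¹) * (20 * (w ^ M * (R * w))))
          = (w ^ (3 * E) * w ^ (-(3 * E))) * (w ^ M * w ^ (-M)) * (w * w⁻¹) * (w ^ (-A) * (20 * R * (w⁻¹ * w⁻¹))) := by ring
        _ = w ^ (-A) * (20 * R * (w⁻¹ * w⁻¹)) := by rw [e6, e7, e8]; ring
    have e9 : 20 * R * (w⁻¹ * w⁻¹) ≤ 1 / 2 := by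
      have h5 : R * w⁻¹ ≤ 1 / 40 := by
        rw [← div_eq_mul_inv, div_le_iff₀ hw0]
        linarith
      have h6 : w⁻¹ ≤ 1 := inv_le_one_of_one_le₀ hwge1
      have h7 : 0 ≤ w⁻¹ := by positivity
      have h8 : 0 ≤ R * w⁻¹ := by positivity
      calc 20 * R * (w⁻¹ * w⁻¹) = 20 * (R * w⁻¹) * w⁻¹ := by ring
        _ ≤ 20 * (1 / 40) * 1 := mul_le_mul (mul_le_mul_of_nonneg_left h5 (by norm_num)) h6 h7 (by norm_num)
        _ = 1 / 2 := by norm_num
    calc (w ^ E) ^ 3 * (η * J) ≤ w ^ (3 * E) * (w ^ (-(3 * E + M + A + 3)) * (20 * (w ^ M * (R * w)))) := by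
          rw [e1, hJ]
          have h9 : 20 * (w ^ M * (1 + (|c| + 2) / σ ^ 2)) ≤ 20 * (w ^ M * (R * w)) :=
            mul_le_mul_of_nonneg_left (mul_le_mul_of_nonneg_left e2 (by positivity)) (by norm_num)
          rw [hJ] at hJ0
          exact mul_le_mul_of_nonneg_left (mul_le_mul e3 h9 hJ0 (by positivity)) (by positivity)
      _ = w ^ (-A) * (20 * R * (w⁻¹ * w⁻¹)) := e4
      _ ≤ w ^ (-A) * (1 / 2) := mul_le_mul_of_nonneg_left e9 hwA.le
      _ = w ^ (-A) / 2 := by ring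
  linarith

end HLA
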