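import Pool.Agent.HLA.TFour
import Pool.Agent.HLA.TOneD
import Pool.Agent.HLA.Low

/-!
# HLA.OT: the orthogonality theorem

PROOF. `D = DD ..`, `|D| ≤ w^(3E)`, continuous. `η = w^(-N)`, `N` at least the two `N0` (for `A + 1`), `A + 3E + 2` and `1`. `∫ D dmuP = ∑ tw n WW σ c (log n) D(log n) = ∑ Λ(n) (ph σ c D)(n)` (`muS_int`), and
by `vau` (for `D` and for `De η D`; `|ph σ c D n| ≤ w^(3E) n⁻¹ exp(-(log n - c)²/8)` as `σ ≤ 1`), `t1d`, `t4d`: `|∫ D dmuP - ∫ De η D dmuP| ≤ 2 w^(-A-1)`. `de_int`: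
`∫ De η D dmuP = ∫ D(z) (η√(2π))⁻¹ gsm η (muP σ c) z dz`, `∫ D dmuL = ∫ WW σ c z D(z) dz` (`muL_int`), and `low` with `A + 3E + 1`:
`|∫ De η D dmuP - ∫ D dmuL| ≤ w^(3E) w^(-A-3E-1)`.
-/

namespace HLA

open MeasureTheory ArithmeticFunction SMC

theorem ot {σ a1 b1 a2 b2 : ℝ} (E A : ℝ) (hσ : 0 < σ) (hσ1 : σ ≤ 1) (ha1 : a1 ≠ 0) (ha2 : a2 ≠ 0)
    (hd : a1 * b2 - a2 * b1 ≠ 0) : ∃ w0 : ℝ, 1 ≤ w0 ∧
    ∀ w c δ : ℝ, w0 ≤ w → |c - w| ≤ E → Real.exp (-w - E) ≤ δ → δ ≤ Real.exp (-w + E) →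
    ∀ (μ1 μ2 : Measure ℝ) (K : ℝ → ℝ), Adm δ (w ^ E) μ1 → Adm δ (w ^ E) μ2 → AdmK (w ^ E) K →
    |(∫ x, DD δ μ1 μ2 K a1 b1 a2 b2 x ∂(muP σ c)) - ∫ x, DD δ μ1 μ2 K a1 b1 a2 b2 x ∂(muL σ c)| ≤ w ^ (-A) := by
  obtain ⟨N1, h1⟩ := t1d (b1 := b1) (b2 := b2) E (A + 1) hσ hσ1 ha1 ha2
  obtain ⟨N2, h2⟩ := t4d E (A + 1) hσ hσ1 ha1 ha2 hd
  set N : ℝ := max (max N1 N2) (max (A + 3 * E + 2) 1) with hN
  have hN1 : N1 ≤ N := (le_max_left _ _).trans (le_max_left _ _)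
  have hN2 : N2 ≤ N := (le_max_right _ _).trans (le_max_left _ _)
  have hN3 : A + 3 * E + 2 ≤ N := (le_max_left _ _).trans (le_max_right _ _)
  have hN4 : 1 ≤ N := (le_max_right _ _).trans (le_max_right _ _)
  obtain ⟨u1, -, h1⟩ := h1 N hN1
  obtain ⟨u2, -, h2⟩ := h2 N hN2
  obtain ⟨u3, -, h3⟩ := low (σ := σ) E (A + 3 * E + 1) N hσ hσ1 (by linarith) hN4
  refine ⟨max (max u1 u2) (max u3 3), ?_, ?_⟩
  · exact le_trans (by norm_num) ((le_max_right u3 3).trans (le_max_right _ _))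
  intro w c δ hw hc hδ1 hδ2 μ1 μ2 K hμ1 hμ2 hK
  have hw1 : u1 ≤ w := ((le_max_left _ _).trans (le_max_left _ _)).trans hw
  have hw2 : u2 ≤ w := ((le_max_right _ _).trans (le_max_left _ _)).trans hw
  have hw3 : u3 ≤ w := ((le_max_left _ _).trans (le_max_right _ _)).trans hw
  have hw4 : 3 ≤ w := ((le_max_right _ _).trans (le_max_right _ _)).trans hw
  have hw0 : 0 < w := by linarith
  set D := DD δ μ1 μ2 K a1 b1 a2 b2 with hD
  set η := w ^ (-N) with hη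
  have hη0 : 0 < η := Real.rpow_pos_of_pos hw0 _
  set B : ℝ := (w ^ E) ^ 3 with hB
  have hB0 : 0 < B := pow_pos (Real.rpow_pos_of_pos hw0 _) 3
  have hDc : Continuous D := dd_cont hμ1 hμ2 hK a1 b1 a2 b2
  have hDb : ∀ x, |D x| ≤ B := fun x => dd_bound (Real.rpow_pos_of_pos hw0 _).le hμ1 hμ2 hK a1 b1 a2 b2 x
  have hEc : Continuous (De η D) := de_cont hDc hDb η
  have hEb : ∀ x, |De η D x| ≤ B := fun x => (de_bd hDc hDb η x).1
  -- both integrals against the primes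
  have hfin : IsFiniteMeasure (muP σ c) := by
    obtain ⟨C, -, hC⟩ := muP_mass
    exact (hC σ c hσ hσ1).1
  have hP : ∀ f : ℝ → ℝ, Continuous f → (∀ x, |f x| ≤ B) → ∫ x, f x ∂(muP σ c) =
      S1 (w / 200) (ph σ c f) + S2 (w / 200) (ph σ c f) - S3 (w / 200) (ph σ c f) + S4 (w / 200) (ph σ c f) := by
    intro f hf hfb
    have hph : ∀ n : ℕ, |ph σ c f n| ≤ B * (n : ℝ)⁻¹ * Real.exp (-(Real.log n - c) ^ 2 / 8) := by
      intro n
      unfold ph
      have e1 : WW σ c (Real.log n) ≤ Real.exp (-(Real.log n - c) ^ 2 / 8) := by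
        unfold WW
        rw [Real.exp_le_exp, neg_div, neg_div, neg_le_neg_iff]
        refine div_le_div_of_nonneg_left (sq_nonneg _) (by positivity) ?_
        nlinarith
      have e2 := WW_nonneg σ c (Real.log n)
      have e3 : (0 : ℝ) ≤ (n : ℝ)⁻¹ := by positivity
      rw [abs_mul, abs_mul, abs_of_nonneg e3, abs_of_nonneg e2]
      calc (n : ℝ)⁻¹ * WW σ c (Real.log n) * |f (Real.log n)| ≤
          (n : ℝ)⁻¹ * Real.exp (-(Real.log n - c) ^ 2 / 8) * B :=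
            mul_le_mul (mul_le_mul_of_nonneg_left e1 e3) (hfb _) (abs_nonneg _)
              (mul_nonneg e3 (Real.exp_pos _).le)
        _ = _ := by ring
    rw [← (vau (by positivity : 0 ≤ w / 200) hph).2]
    have hint : Integrable f (muS tw σ c) := by
      have := hfin
      exact bdd_intble (μ := muP σ c) hf.stronglyMeasurable fun x => by
        rw [Real.norm_eq_abs]
        exact hfb x
    have htw : ∀ n, 0 ≤ tw n := fun n => div_nonneg vonMangoldt_nonneg (Nat.cast_nonneg n)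
    unfold muP
    rw [muS_int htw (muP_summ hσ hσ1 c) hint]
    refine tsum_congr fun n => ?_
    unfold ph tw
    rw [smul_eq_mul]
    ring
  have k1 := h1 w c δ hw1 hc hδ1 hδ2 μ1 μ2 K hμ1 hμ2 hK
  have k2 := h2 w c δ hw2 hc hδ1 hδ2 μ1 μ2 K hμ1 hμ2 hK
  obtain ⟨k3, k4⟩ := h3 w c hw3 hc
  rw [← hD, ← hη] at k1 k2
  rw [← hη] at k3 k4
  have k5 : |(∫ x, D x ∂(muP σ c)) - ∫ x, De η D x ∂(muP σ c)| ≤ w ^ (-(A + 1)) + w ^ (-(A + 1)) := by
    rw [hP D hDc hDb, hP (De η D) hEc hEb]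
    have e : S1 (w / 200) (ph σ c D) + S2 (w / 200) (ph σ c D) - S3 (w / 200) (ph σ c D) + S4 (w / 200) (ph σ c D) -
        (S1 (w / 200) (ph σ c (De η D)) + S2 (w / 200) (ph σ c (De η D)) - S3 (w / 200) (ph σ c (De η D)) +
          S4 (w / 200) (ph σ c (De η D))) =
        ((S1 (w / 200) (ph σ c D) + S2 (w / 200) (ph σ c D) - S3 (w / 200) (ph σ c D)) -
        (S1 (w / 200) (ph σ c (De η D)) + S2 (w / 200) (ph σ c (De η D)) - S3 (w / 200) (ph σ c (De η D)))) +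
          (S4 (w / 200) (ph σ c D) - S4 (w / 200) (ph σ c (De η D))) := by ring
    rw [e]
    exact (abs_add_le _ _).trans (add_le_add k1 k2)
  -- the smoothed function
  have k6 : |(∫ x, De η D x ∂(muP σ c)) - ∫ x, D x ∂(muL σ c)| ≤ w ^ (-(A + 1)) := by
    have := hfin
    rw [de_int hDc hDb hη0 (muP σ c), muL_int]
    have i1 : Integrable fun z => D z * ((η * Real.sqrt (2 * Real.pi))⁻¹ * gsm η (muP σ c) z) := by
      refine ((gsm_int hη0 (muP σ c)).1.const_mul (η * Real.sqrt (2 * Real.pi))⁻¹).bdd_mul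
        hDc.aestronglyMeasurable (Filter.Eventually.of_forall fun x => ?_) (c := B)
      rw [Real.norm_eq_abs]
      exact hDb x
    have i2 : Integrable fun z => WW σ c z • D z := by
      have := (WW_int hσ c).1.bdd_mul hDc.aestronglyMeasurable (Filter.Eventually.of_forall fun x => by
        rw [Real.norm_eq_abs]
        exact hDb x) (c := B)
      refine this.congr (Filter.Eventually.of_forall fun z => ?_)
      simp only [smul_eq_mul]
      ring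
    rw [← integral_sub i1 i2]
    have e1 : ∀ z, D z * ((η * Real.sqrt (2 * Real.pi))⁻¹ * gsm η (muP σ c) z) - WW σ c z • D z =
        D z * ((η * Real.sqrt (2 * Real.pi))⁻¹ * gsm η (muP σ c) z - WW σ c z) := by
      intro z
      rw [smul_eq_mul]
      ring
    simp only [e1]
    have e2 := norm_integral_le_of_norm_le (k3.abs.const_mul B) (Filter.Eventually.of_forall fun z => show
      ‖D z * ((η * Real.sqrt (2 * Real.pi))⁻¹ * gsm η (muP σ c) z - WW σ c z)‖ ≤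
        B * |(η * Real.sqrt (2 * Real.pi))⁻¹ * gsm η (muP σ c) z - WW σ c z| by
      rw [norm_mul, Real.norm_eq_abs, Real.norm_eq_abs]
      exact mul_le_mul_of_nonneg_right (hDb z) (abs_nonneg _))
    rw [Real.norm_eq_abs, integral_const_mul] at e2
    refine e2.trans ((mul_le_mul_of_nonneg_left k4 hB0.le).trans (le_of_eq ?_))
    rw [hB, ← Real.rpow_natCast, ← Real.rpow_mul hw0.le, ← Real.rpow_add hw0]
    congr 1
    push_cast
    ring
  have k7 : 3 * w ^ (-(A + 1)) ≤ w ^ (-A) := by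
    have e1 : w ^ (-A) = w * w ^ (-(A + 1)) := by
      have e2 : w ^ (1 + -(A + 1)) = w ^ (1 : ℝ) * w ^ (-(A + 1)) := Real.rpow_add hw0 _ _
      rw [Real.rpow_one] at e2
      rw [← e2]
      congr 1
      ring
    rw [e1]
    exact mul_le_mul_of_nonneg_right hw4 (Real.rpow_pos_of_pos hw0 _).le
  have k8 : (∫ x, D x ∂(muP σ c)) - ∫ x, D x ∂(muL σ c) = ((∫ x, D x ∂(muP σ c)) - ∫ x, De η D x ∂(muP σ c)) +
      ((∫ x, De η D x ∂(muP σ c)) - ∫ x, D x ∂(muL σ c)) := by ring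
  rw [k8]
  refine (abs_add_le _ _).trans ?_
  linarith

end HLA
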