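import Pool.Agent.HLA.Osc4

/-!
# HLA.Osc: three bounded functions do not correlate with `e(N e^t)`

PROOF. `e(x) = exp(2πix)`, `G t = exp(-(t-u0)²/(2s²))`, `Δ = a1 b2 - a2 b1`. The double integral is `∫ K(y) M(y) dy`, `M(y) = ∫ ω(t) e(N e^t) g1(a1 y + b1 t) g2(a2 y + b2 t) dt`.
First Cauchy-Schwarz: `|I|² ≤ ∫ K² ∫ |M|² ≤ ∫ |M|²` (`K² ≤ |K|`). Expand `|M|²` (`t`, `t + h`) and substitute `z = a1 y + b1 t` for `y`:
`∫ |M|² = (1/|a1|) ∫∫ g1(z) g1(z + b1 h) R(z,h) dz dh`, `R(z,h) = ∫ ω(t) ω(t+h) e(N (e^h - 1) e^t) G2((a2 z + Δ t)/a1, h) dt`, `G2(x, h) = g2(x) g2(x + b2 h)`.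
(`a2 y + b2 t = (a2 z + Δ t)/a1`.) Second Cauchy-Schwarz, for each fixed `h` in the variable `z`: with `J(h) = ∫ g1(z) g1(z + b1 h) R(z,h) dz`,
`|J(h)|² ≤ ∫ |R(z,h)|² dz`. Expand `|R|²` (`t`, `t + k`) and substitute
`x = (a2 z + Δ t)/a1` for `z` (`a2 ≠ 0`): `∫ |R(z,h)|² dz = |a1/a2| ∫ Γ(h,k) Q(h,k) dk`, `Γ(h,k) = ∫ G2(x,h) G2(x + Δ k/a1, h) dx`, `|Γ| ≤ ∫ |g2| ≤ 1`,
`Q(h,k) = ∫ ω(t) ω(t+h) ω(t+k) ω(t+h+k) e(N (e^h-1)(e^k-1) e^t) dt`, and by `osc4` `|Q| ≤ C exp(-(h²+k²)/(4s²)) (|N| e^{u0} |h| |k|)^(-1/2)`; so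
`|J(h)| ≤ C exp(-h²/(8s²)) |h|^(-1/4) (|N| e^{u0})^(-1/4)` and `∫|M|² ≤ C (|N| e^{u0})^(-1/4)`, `|I| ≤ C (|N| e^{u0})^(-1/8)`.
Both steps are the one lemma `osc_vdc`.
-/

namespace HLA

open MeasureTheory ComplexConjugate

private lemma osc_cs (K : ℝ → ℝ) (M : ℝ → ℂ) (hKi : Integrable K) (hK1 : ∀ y, |K y| ≤ 1)
    (hK2 : ∫ y, |K y| ≤ 1) (hM : Integrable (fun y => ‖M y‖ ^ 2)) :
    ‖∫ y, (K y : ℂ) * M y‖ ^ 2 ≤ ∫ y, ‖M y‖ ^ 2 := by
  set I := ‖∫ y, (K y : ℂ) * M y‖ with hI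
  have hI0 : 0 ≤ I := norm_nonneg _
  have hJ0 : 0 ≤ ∫ y, ‖M y‖ ^ 2 := integral_nonneg fun y => by positivity
  rcases hI0.eq_or_lt with h0 | h0
  · rw [← h0]
    simpa using hJ0
  have h1 : 2 * I ≤ I + I⁻¹ * ∫ y, ‖M y‖ ^ 2 := by
    calc 2 * I ≤ 2 * ∫ y, |K y| * ‖M y‖ := by
          refine mul_le_mul_of_nonneg_left ?_ (by norm_num)
          refine (norm_integral_le_integral_norm _).trans_eq ?_
          refine integral_congr_ae (Filter.Eventually.of_forall fun y => ?_)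
          simp
      _ = ∫ y, 2 * (|K y| * ‖M y‖) := (integral_const_mul _ _).symm
      _ ≤ ∫ y, (I * |K y| + I⁻¹ * ‖M y‖ ^ 2) := by
          refine integral_mono_of_nonneg (Filter.Eventually.of_forall fun y => ?_)
            ((hKi.abs.const_mul _).add (hM.const_mul _)) (Filter.Eventually.of_forall fun y => ?_)
          · show (0 : ℝ) ≤ 2 * (|K y| * ‖M y‖)
            positivity
          · show 2 * (|K y| * ‖M y‖) ≤ I * |K y| + I⁻¹ * ‖M y‖ ^ 2
            have k1 : |K y| ^ 2 ≤ |K y| := by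
              have := mul_le_mul_of_nonneg_left (hK1 y) (abs_nonneg (K y))
              rw [mul_one] at this
              rw [sq]
              exact this
            have k2 : 0 ≤ I⁻¹ * (I * |K y| - ‖M y‖) ^ 2 := by positivity
            have k3 : I⁻¹ * (I * |K y| - ‖M y‖) ^ 2 = I * |K y| ^ 2 - 2 * (|K y| * ‖M y‖) + I⁻¹ * ‖M y‖ ^ 2 := by
              field_simp
              ring
            have k4 : I * |K y| ^ 2 ≤ I * |K y| := mul_le_mul_of_nonneg_left k1 hI0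
            linarith
      _ = I * (∫ y, |K y|) + I⁻¹ * ∫ y, ‖M y‖ ^ 2 := by
          rw [integral_add (hKi.abs.const_mul _) (hM.const_mul _), integral_const_mul, integral_const_mul]
      _ ≤ I * 1 + I⁻¹ * ∫ y, ‖M y‖ ^ 2 := by gcongr
      _ = I + I⁻¹ * ∫ y, ‖M y‖ ^ 2 := by ring
  have h2 : I ≤ I⁻¹ * ∫ y, ‖M y‖ ^ 2 := by linarith
  calc I ^ 2 = I * I := by ring
    _ ≤ I * (I⁻¹ * ∫ y, ‖M y‖ ^ 2) := mul_le_mul_of_nonneg_left h2 hI0
    _ = ∫ y, ‖M y‖ ^ 2 := by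
        rw [← mul_assoc, mul_inv_cancel₀ h0.ne', one_mul]

private lemma osc_aff {E : Type*} [NormedAddCommGroup E] [NormedSpace ℝ E] (g : ℝ → E) (a b : ℝ) :
    ∫ y, g (a * y + b) = |a⁻¹| • ∫ y, g y := by
  rw [Measure.integral_comp_mul_left (fun y => g (y + b)) a, integral_add_right_eq_self g b]

private lemma osc_affi {E : Type*} [NormedAddCommGroup E] {g : ℝ → E} {a : ℝ} (ha : a ≠ 0) (b : ℝ)
    (hg : Integrable g) : Integrable fun y => g (a * y + b) :=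
  (hg.comp_add_right b).comp_mul_left' ha

/-- The Cauchy-Schwarz step: difference once in `t`. -/
private lemma osc_vdc {a b c d : ℝ} (ha : a ≠ 0) (K φ ψ : ℝ → ℝ) (F : ℝ → ℂ)
    (hKi : Integrable K) (hK1 : ∀ y, |K y| ≤ 1) (hK2 : ∫ y, |K y| ≤ 1)
    (hφ : Measurable φ) (hφi : Integrable φ) (hφ1 : ∀ y, |φ y| ≤ 1)
    (hψ : Measurable ψ) (hψ1 : ∀ y, |ψ y| ≤ 1)
    (hF : Measurable F) (hFi : Integrable F) (hF1 : ∀ t, ‖F t‖ ≤ 1) :
    ‖∫ y, (K y : ℂ) * ∫ t, F t * ((φ (a * y + b * t) * ψ (c * y + d * t) : ℝ) : ℂ)‖ ^ 2 ≤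
      |a⁻¹| * ∫ h, ‖∫ z, ((φ z * φ (z + b * h) : ℝ) : ℂ) * ∫ t, (F t * conj (F (t + h))) *
        ((ψ (c / a * z + (d - c * b / a) * t) * ψ (c / a * z + (d - c * b / a) * t + d * h) : ℝ) : ℂ)‖ := by
  set r : ℝ → ℝ → ℝ := fun y t => φ (a * y + b * t) * ψ (c * y + d * t) with hr
  have hrm : Measurable (fun p : ℝ × ℝ => r p.1 p.2) := by
    rw [hr]
    have e1 : Measurable (fun p : ℝ × ℝ => a * p.1 + b * p.2) := by fun_prop
    have e2 : Measurable (fun p : ℝ × ℝ => c * p.1 + d * p.2) := by fun_prop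
    exact (hφ.comp e1).mul (hψ.comp e2)
  set Φ : ℝ → ℝ × ℝ → ℂ := fun y p => (F p.1 * (r y p.1 : ℂ)) * conj (F p.2 * (r y p.2 : ℂ)) with hΦ
  have hr1 : ∀ y t, |r y t| ≤ |φ (a * y + b * t)| := by
    intro y t
    rw [hr]
    simp only
    rw [abs_mul]
    exact mul_le_of_le_one_right (abs_nonneg _) (hψ1 _)
  have hr2 : ∀ y t, |r y t| ≤ 1 := fun y t => (hr1 y t).trans (hφ1 _)
  have hΦm : Measurable (Function.uncurry Φ) := by
    have m1 : Measurable (fun q : ℝ × (ℝ × ℝ) => F q.2.1) := hF.comp (by fun_prop)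
    have m2 : Measurable (fun q : ℝ × (ℝ × ℝ) => F q.2.2) := hF.comp (by fun_prop)
    have m3 : Measurable (fun q : ℝ × (ℝ × ℝ) => (r q.1 q.2.1 : ℂ)) :=
      Complex.measurable_ofReal.comp (hrm.comp (g := fun p : ℝ × ℝ => r p.1 p.2)
        (f := fun q : ℝ × (ℝ × ℝ) => (q.1, q.2.1)) (by fun_prop))
    have m4 : Measurable (fun q : ℝ × (ℝ × ℝ) => (r q.1 q.2.2 : ℂ)) :=
      Complex.measurable_ofReal.comp (hrm.comp (g := fun p : ℝ × ℝ => r p.1 p.2)
        (f := fun q : ℝ × (ℝ × ℝ) => (q.1, q.2.2)) (by fun_prop))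
    exact (m1.mul m3).mul (Complex.continuous_conj.measurable.comp (m2.mul m4))
  have hΦi : Integrable (Function.uncurry Φ) (volume.prod (volume.prod volume)) := by
    have hD : Integrable (fun q : ℝ × (ℝ × ℝ) => (‖F q.2.1‖ * ‖F q.2.2‖) * |φ (a * q.1 + b * q.2.1)|)
        (volume.prod (volume.prod volume)) := by
      have hDm : Measurable (fun q : ℝ × (ℝ × ℝ) => (‖F q.2.1‖ * ‖F q.2.2‖) * |φ (a * q.1 + b * q.2.1)|) := by
        have m1 : Measurable (fun q : ℝ × (ℝ × ℝ) => F q.2.1) := hF.comp (by fun_prop)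
        have m2 : Measurable (fun q : ℝ × (ℝ × ℝ) => F q.2.2) := hF.comp (by fun_prop)
        have m3 : Measurable (fun q : ℝ × (ℝ × ℝ) => φ (a * q.1 + b * q.2.1)) := hφ.comp (by fun_prop)
        exact (m1.norm.mul m2.norm).mul m3.abs
      rw [integrable_prod_iff' hDm.aestronglyMeasurable]
      refine ⟨Filter.Eventually.of_forall fun p => ?_, ?_⟩
      · exact ((osc_affi ha (b * p.1) hφi).abs).const_mul (‖F p.1‖ * ‖F p.2‖)
      · have e1 : (fun p : ℝ × ℝ => ∫ y, ‖(‖F p.1‖ * ‖F p.2‖) * |φ (a * y + b * p.1)|‖) =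
            fun p : ℝ × ℝ => ‖F p.1‖ * ‖F p.2‖ * (|a⁻¹| * ∫ y, |φ y|) := by
          funext p
          have e2 : ∀ y : ℝ, ‖(‖F p.1‖ * ‖F p.2‖) * |φ (a * y + b * p.1)|‖ =
              (‖F p.1‖ * ‖F p.2‖) * |φ (a * y + b * p.1)| := by
            intro y
            rw [Real.norm_eq_abs, abs_of_nonneg (by positivity)]
          simp_rw [e2]
          rw [integral_const_mul, osc_aff (fun y => |φ y|) a (b * p.1), smul_eq_mul]
        show Integrable (fun p : ℝ × ℝ => ∫ y, ‖(‖F p.1‖ * ‖F p.2‖) * |φ (a * y + b * p.1)|‖) _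
        rw [e1]
        exact (hFi.norm.mul_prod hFi.norm).mul_const _
    refine hD.mono' hΦm.aestronglyMeasurable (Filter.Eventually.of_forall fun q => ?_)
    show ‖(F q.2.1 * (r q.1 q.2.1 : ℂ)) * conj (F q.2.2 * (r q.1 q.2.2 : ℂ))‖ ≤ _
    rw [norm_mul, RCLike.norm_conj, norm_mul, norm_mul, Complex.norm_real, Complex.norm_real,
      Real.norm_eq_abs, Real.norm_eq_abs]
    calc ‖F q.2.1‖ * |r q.1 q.2.1| * (‖F q.2.2‖ * |r q.1 q.2.2|)
        ≤ ‖F q.2.1‖ * |φ (a * q.1 + b * q.2.1)| * (‖F q.2.2‖ * 1) :=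
          mul_le_mul (mul_le_mul_of_nonneg_left (hr1 _ _) (norm_nonneg _))
            (mul_le_mul_of_nonneg_left (hr2 _ _) (norm_nonneg _)) (by positivity) (by positivity)
      _ = (‖F q.2.1‖ * ‖F q.2.2‖) * |φ (a * q.1 + b * q.2.1)| := by ring
  set M : ℝ → ℂ := fun y => ∫ t, F t * (r y t : ℂ) with hM
  have hMsq : ∀ y, ((‖M y‖ ^ 2 : ℝ) : ℂ) = ∫ p : ℝ × ℝ, Φ y p ∂(volume.prod volume) := by
    intro y
    rw [hΦ]
    simp only
    rw [integral_prod_mul (fun t => F t * (r y t : ℂ)) (fun t => conj (F t * (r y t : ℂ))), integral_conj]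
    have := Complex.mul_conj (M y)
    rw [Complex.normSq_eq_norm_sq] at this
    exact this.symm
  have hMi : Integrable (fun y => ‖M y‖ ^ 2) := by
    have h1 : Integrable (fun y => ∫ p : ℝ × ℝ, Φ y p ∂(volume.prod volume)) := hΦi.integral_prod_left
    have h2 : Integrable (fun y => ((‖M y‖ ^ 2 : ℝ) : ℂ)) := by
      simp_rw [hMsq]
      exact h1
    exact h2.re
  refine (osc_cs K M hKi hK1 hK2 hMi).trans ?_
  set W : ℝ × ℝ → ℂ := fun p => ∫ y, Φ y p with hW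
  have hWi : Integrable W (volume.prod volume) := hΦi.integral_prod_right
  have hmp : MeasurePreserving (fun z : ℝ × ℝ => (z.1, z.1 + z.2)) (volume.prod volume) (volume.prod volume) :=
    measurePreserving_prod_add volume volume
  have hme : MeasurableEmbedding (fun z : ℝ × ℝ => (z.1, z.1 + z.2)) :=
    (MeasurableEquiv.shearAddRight ℝ).measurableEmbedding
  have hWi2 : Integrable (fun z : ℝ × ℝ => W (z.1, z.1 + z.2)) (volume.prod volume) :=
    (hmp.integrable_comp_emb hme).2 hWi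
  have hJ : ((∫ y, ‖M y‖ ^ 2 : ℝ) : ℂ) = ∫ h, ∫ t, W (t, t + h) := by
    have e0 : ((∫ y, ‖M y‖ ^ 2 : ℝ) : ℂ) = ∫ y, ((‖M y‖ ^ 2 : ℝ) : ℂ) := integral_complex_ofReal.symm
    rw [e0]
    simp_rw [hMsq]
    rw [integral_integral_swap hΦi]
    show ∫ p, W p ∂(volume.prod volume) = _
    rw [← hmp.integral_comp hme W, integral_prod_symm _ hWi2]
  have hJn : ∫ y, ‖M y‖ ^ 2 ≤ ∫ h, ‖∫ t, W (t, t + h)‖ := by
    have h0 : 0 ≤ ∫ y, ‖M y‖ ^ 2 := integral_nonneg fun y => by positivity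
    calc ∫ y, ‖M y‖ ^ 2 = ‖((∫ y, ‖M y‖ ^ 2 : ℝ) : ℂ)‖ := by
          rw [Complex.norm_real, Real.norm_eq_abs, abs_of_nonneg h0]
      _ = ‖∫ h, ∫ t, W (t, t + h)‖ := by rw [hJ]
      _ ≤ _ := norm_integral_le_integral_norm _
  refine hJn.trans (le_of_eq ?_)
  rw [← integral_const_mul]
  refine integral_congr_ae (Filter.Eventually.of_forall fun h => ?_)
  show ‖∫ t, W (t, t + h)‖ = |a⁻¹| * _
  -- inner change of variables and Fubini for fixed `h`
  have hS : ∀ t, W (t, t + h) = |a⁻¹| • ∫ z, (F t * conj (F (t + h))) *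
      (((φ z * φ (z + b * h) : ℝ) : ℂ) * ((ψ (c / a * z + (d - c * b / a) * t) * ψ (c / a * z + (d - c * b / a) * t + d * h) : ℝ) : ℂ)) := by
    intro t
    rw [← osc_aff _ a (b * t)]
    show ∫ y, Φ y (t, t + h) = _
    refine integral_congr_ae (Filter.Eventually.of_forall fun y => ?_)
    show (F t * (r y t : ℂ)) * conj (F (t + h) * (r y (t + h) : ℂ)) = _
    have e1 : c / a * (a * y + b * t) + (d - c * b / a) * t = c * y + d * t := by
      field_simp
      ring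
    have e2 : c * y + d * t + d * h = c * y + d * (t + h) := by ring
    have e3 : a * y + b * t + b * h = a * y + b * (t + h) := by ring
    simp only [e1, e2, e3, hr, map_mul, Complex.conj_ofReal]
    push_cast
    ring
  simp_rw [hS]
  rw [integral_smul]
  have hsw : Integrable (Function.uncurry fun t z : ℝ => (F t * conj (F (t + h))) *
      (((φ z * φ (z + b * h) : ℝ) : ℂ) * ((ψ (c / a * z + (d - c * b / a) * t) * ψ (c / a * z + (d - c * b / a) * t + d * h) : ℝ) : ℂ)))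
      (volume.prod volume) := by
    refine (hFi.norm.mul_prod hφi.norm).mono' ?_ (Filter.Eventually.of_forall fun q => ?_)
    · refine Measurable.aestronglyMeasurable ?_
      have m1 : Measurable (fun q : ℝ × ℝ => F q.1) := hF.comp (by fun_prop)
      have m2 : Measurable (fun q : ℝ × ℝ => F (q.1 + h)) := hF.comp (by fun_prop)
      have m3 : Measurable (fun q : ℝ × ℝ => φ q.2) := hφ.comp (by fun_prop)
      have m4 : Measurable (fun q : ℝ × ℝ => φ (q.2 + b * h)) := hφ.comp (by fun_prop)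
      have m5 : Measurable (fun q : ℝ × ℝ => ψ (c / a * q.2 + (d - c * b / a) * q.1)) := hψ.comp (by fun_prop)
      have m6 : Measurable (fun q : ℝ × ℝ => ψ (c / a * q.2 + (d - c * b / a) * q.1 + d * h)) := hψ.comp (by fun_prop)
      exact (m1.mul (Complex.continuous_conj.measurable.comp m2)).mul
        ((Complex.measurable_ofReal.comp (m3.mul m4)).mul (Complex.measurable_ofReal.comp (m5.mul m6)))
    · show ‖(F q.1 * conj (F (q.1 + h))) *
        (((φ q.2 * φ (q.2 + b * h) : ℝ) : ℂ) * ((ψ (c / a * q.2 + (d - c * b / a) * q.1) * ψ (c / a * q.2 + (d - c * b / a) * q.1 + d * h) : ℝ) : ℂ))‖ ≤ ‖F q.1‖ * ‖φ q.2‖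
      rw [norm_mul, norm_mul, RCLike.norm_conj, norm_mul, Complex.norm_real, Complex.norm_real,
        Real.norm_eq_abs, Real.norm_eq_abs, Real.norm_eq_abs, abs_mul, abs_mul]
      calc ‖F q.1‖ * ‖F (q.1 + h)‖ * (|φ q.2| * |φ (q.2 + b * h)| * (|ψ (c / a * q.2 + (d - c * b / a) * q.1)| * |ψ (c / a * q.2 + (d - c * b / a) * q.1 + d * h)|))
          ≤ ‖F q.1‖ * 1 * (|φ q.2| * 1 * (1 * 1)) := by
            gcongr
            · exact hF1 _
            · exact hφ1 _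
            · exact hψ1 _
            · exact hψ1 _
        _ = ‖F q.1‖ * |φ q.2| := by ring
  rw [integral_integral_swap hsw, norm_smul, Real.norm_eq_abs, abs_abs]
  congr 2
  refine integral_congr_ae (Filter.Eventually.of_forall fun z => ?_)
  simp only
  rw [← integral_const_mul]
  refine integral_congr_ae (Filter.Eventually.of_forall fun t => ?_)
  simp only
  ring

private lemma osc_int {c r : ℝ} (hc : 0 < c) (hr : r < 1) :
    Integrable (fun x : ℝ => |x| ^ (-r) * Real.exp (-c * x ^ 2)) := by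
  have h0 : Integrable (fun x : ℝ => x ^ (-r) * Real.exp (-c * x ^ 2)) :=
    integrable_rpow_mul_exp_neg_mul_sq hc (by linarith)
  have h1 : Integrable (Set.indicator (Set.Ioi (0 : ℝ)) (fun x : ℝ => x ^ (-r) * Real.exp (-c * x ^ 2))) :=
    h0.indicator measurableSet_Ioi
  have h2 := h1.comp_neg
  refine (h1.add h2).mono' ?_ ?_
  · have m1 : Measurable (fun x : ℝ => |x| ^ (-r)) := measurable_id.abs.pow_const _
    have m2 : Measurable (fun x : ℝ => Real.exp (-c * x ^ 2)) := by fun_prop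
    exact (m1.mul m2).aestronglyMeasurable
  · have hne : ∀ᵐ x : ℝ, x ≠ 0 := by
      simp [ae_iff, measure_singleton]
    filter_upwards [hne] with x hx
    rw [Real.norm_eq_abs, abs_of_nonneg (by positivity)]
    show _ ≤ Set.indicator (Set.Ioi (0 : ℝ)) (fun x : ℝ => x ^ (-r) * Real.exp (-c * x ^ 2)) x +
      Set.indicator (Set.Ioi (0 : ℝ)) (fun x : ℝ => x ^ (-r) * Real.exp (-c * x ^ 2)) (-x)
    rcases lt_or_gt_of_ne hx with h | h
    · rw [Set.indicator_of_notMem (by simpa using h.le), Set.indicator_of_mem (by simpa using h),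
        zero_add, abs_of_neg h, neg_sq]
    · rw [Set.indicator_of_mem (by simpa using h), Set.indicator_of_notMem (by simpa using h.le),
        add_zero, abs_of_pos h]

private lemma osc_e_norm (x : ℝ) : ‖Complex.exp (2 * Real.pi * Complex.I * (x : ℂ))‖ = 1 := by
  have : (2 * Real.pi * Complex.I * (x : ℂ)) = ((2 * Real.pi * x : ℝ) : ℂ) * Complex.I := by
    push_cast
    ring
  rw [this, Complex.norm_exp_ofReal_mul_I]

private lemma osc_e_conj (x : ℝ) : conj (Complex.exp (2 * Real.pi * Complex.I * (x : ℂ))) =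
    Complex.exp (2 * Real.pi * Complex.I * ((-x : ℝ) : ℂ)) := by
  rw [← Complex.exp_conj]
  congr 1
  rw [map_mul, map_mul, map_mul, Complex.conj_I, Complex.conj_ofReal, Complex.conj_ofReal, map_ofNat]
  push_cast
  ring

private lemma osc_e_mul (x y : ℝ) : Complex.exp (2 * Real.pi * Complex.I * (x : ℂ)) *
    Complex.exp (2 * Real.pi * Complex.I * (y : ℂ)) =
    Complex.exp (2 * Real.pi * Complex.I * ((x + y : ℝ) : ℂ)) := by
  rw [← Complex.exp_add]
  congr 1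
  push_cast
  ring

theorem osc {s a1 b1 a2 b2 : ℝ} (hs : 0 < s) (ha1 : a1 ≠ 0) (ha2 : a2 ≠ 0) : ∃ C : ℝ, 1 ≤ C ∧
    ∀ (u0 N : ℝ) (ω ω' K g1 g2 : ℝ → ℝ), 1 ≤ |N| * Real.exp u0 →
    (∀ t, HasDerivAt ω (ω' t) t) → Continuous ω' → (∀ t, |ω t| ≤ Real.exp (-(t - u0) ^ 2 / (2 * s ^ 2))) →
    (∀ t, |ω' t| ≤ Real.exp (-(t - u0) ^ 2 / (2 * s ^ 2))) →
    Measurable K → Integrable K → (∀ y, |K y| ≤ 1) → ∫ y, |K y| ≤ 1 →
    Measurable g1 → Integrable g1 → (∀ y, |g1 y| ≤ 1) → ∫ y, |g1 y| ≤ 1 →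
    Measurable g2 → Integrable g2 → (∀ y, |g2 y| ≤ 1) → ∫ y, |g2 y| ≤ 1 →
    ‖∫ t : ℝ, ((ω t * ∫ y, K y * (g1 (a1 * y + b1 * t) * g2 (a2 * y + b2 * t)) : ℝ) : ℂ) *
      Complex.exp (2 * Real.pi * Complex.I * ((N * Real.exp t : ℝ) : ℂ))‖ ≤
      C * (|N| * Real.exp u0) ^ (-(1 / 8) : ℝ) := by
  obtain ⟨C4, hC41, hC4⟩ := osc4 hs
  have hc4 : (0 : ℝ) < 1 / (4 * s ^ 2) := by positivity
  have hc8 : (0 : ℝ) < 1 / (8 * s ^ 2) := by positivity
  have hi1 : Integrable (fun k : ℝ => |k| ^ (-(1 / 2) : ℝ) * Real.exp (-(1 / (4 * s ^ 2)) * k ^ 2)) :=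
    osc_int hc4 (by norm_num)
  have hi2 : Integrable (fun k : ℝ => |k| ^ (-(1 / 4) : ℝ) * Real.exp (-(1 / (8 * s ^ 2)) * k ^ 2)) :=
    osc_int hc8 (by norm_num)
  set A1 : ℝ := ∫ k : ℝ, |k| ^ (-(1 / 2) : ℝ) * Real.exp (-(1 / (4 * s ^ 2)) * k ^ 2) with hA1
  set A2 : ℝ := ∫ k : ℝ, |k| ^ (-(1 / 4) : ℝ) * Real.exp (-(1 / (8 * s ^ 2)) * k ^ 2) with hA2
  have hA1n : 0 ≤ A1 := integral_nonneg fun k => by positivity
  have hA2n : 0 ≤ A2 := integral_nonneg fun k => by positivity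
  set a : ℝ := a2 / a1 with ha
  have ha0 : a ≠ 0 := div_ne_zero ha2 ha1
  set b : ℝ := b2 - a2 * b1 / a1 with hb
  set D : ℝ := |a⁻¹| * (C4 * A1) with hD
  have hDn : 0 ≤ D := by positivity
  set T : ℝ := |a1⁻¹| * (Real.sqrt D * A2) with hT
  have hTn : 0 ≤ T := by positivity
  refine ⟨1 + T, by linarith, ?_⟩
  intro u0 N ω ω' K g1 g2 hN hω hω'c hwb hwb' hK hKi hK1 hK2 hg1 hg1i hg11 hg12 hg2 hg2i hg21 hg22
  set Mm : ℝ := |N| * Real.exp u0 with hMm
  have hMp : 0 < Mm := by linarith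
  have hN0 : N ≠ 0 := by
    rintro rfl
    simp at hMm
    linarith
  have hωc : Continuous ω := continuous_iff_continuousAt.2 fun t => (hω t).continuousAt
  set F : ℝ → ℂ := fun t => (ω t : ℂ) * Complex.exp (2 * Real.pi * Complex.I * ((N * Real.exp t : ℝ) : ℂ)) with hF
  have hFc : Continuous F := by
    rw [hF]
    fun_prop
  have hFn : ∀ t, ‖F t‖ = |ω t| := by
    intro t
    rw [hF]
    simp only
    rw [norm_mul, osc_e_norm, mul_one, Complex.norm_real, Real.norm_eq_abs]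
  have hF1 : ∀ t, ‖F t‖ ≤ 1 := by
    intro t
    rw [hFn]
    refine (hwb t).trans ?_
    rw [Real.exp_le_one_iff]
    have : 0 ≤ (t - u0) ^ 2 / (2 * s ^ 2) := by positivity
    rw [neg_div]
    linarith
  have hFi : Integrable F := by
    have h1 := (integrable_exp_neg_mul_sq (b := 1 / (2 * s ^ 2)) (by positivity)).comp_sub_right u0
    refine h1.mono' hFc.aestronglyMeasurable (Filter.Eventually.of_forall fun t => ?_)
    rw [hFn]
    refine (hwb t).trans_eq ?_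
    congr 1
    ring
  -- the quantity as an iterated integral
  have hI : ∫ t : ℝ, ((ω t * ∫ y, K y * (g1 (a1 * y + b1 * t) * g2 (a2 * y + b2 * t)) : ℝ) : ℂ) *
      Complex.exp (2 * Real.pi * Complex.I * ((N * Real.exp t : ℝ) : ℂ)) =
      ∫ y, (K y : ℂ) * ∫ t, F t * ((g1 (a1 * y + b1 * t) * g2 (a2 * y + b2 * t) : ℝ) : ℂ) := by
    have h1 : ∀ t, ((ω t * ∫ y, K y * (g1 (a1 * y + b1 * t) * g2 (a2 * y + b2 * t)) : ℝ) : ℂ) *
      Complex.exp (2 * Real.pi * Complex.I * ((N * Real.exp t : ℝ) : ℂ)) =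
      ∫ y, (K y : ℂ) * (F t * ((g1 (a1 * y + b1 * t) * g2 (a2 * y + b2 * t) : ℝ) : ℂ)) := by
      intro t
      rw [Complex.ofReal_mul, ← integral_complex_ofReal]
      have h2 : ∀ X : ℂ, (ω t : ℂ) * X * Complex.exp (2 * Real.pi * Complex.I * ((N * Real.exp t : ℝ) : ℂ)) = F t * X := by
        intro X
        rw [hF]
        simp only
        ring
      rw [h2, ← integral_const_mul]
      refine integral_congr_ae (Filter.Eventually.of_forall fun y => ?_)
      simp only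
      rw [Complex.ofReal_mul (K y)]
      ring
    simp_rw [h1]
    rw [integral_integral_swap]
    · refine integral_congr_ae (Filter.Eventually.of_forall fun y => ?_)
      simp only
      rw [integral_const_mul]
    · refine (hFi.norm.mul_prod hKi.norm).mono' ?_ (Filter.Eventually.of_forall fun q => ?_)
      · refine Measurable.aestronglyMeasurable ?_
        have m1 : Measurable (fun q : ℝ × ℝ => F q.1) := hFc.measurable.comp (by fun_prop)
        have m2 : Measurable (fun q : ℝ × ℝ => K q.2) := hK.comp (by fun_prop)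
        have m3 : Measurable (fun q : ℝ × ℝ => g1 (a1 * q.2 + b1 * q.1)) := hg1.comp (by fun_prop)
        have m4 : Measurable (fun q : ℝ × ℝ => g2 (a2 * q.2 + b2 * q.1)) := hg2.comp (by fun_prop)
        exact (Complex.measurable_ofReal.comp m2).mul (m1.mul (Complex.measurable_ofReal.comp (m3.mul m4)))
      · show ‖(K q.2 : ℂ) * (F q.1 * ((g1 (a1 * q.2 + b1 * q.1) * g2 (a2 * q.2 + b2 * q.1) : ℝ) : ℂ))‖ ≤ ‖F q.1‖ * ‖K q.2‖
        rw [norm_mul, norm_mul, Complex.norm_real, Complex.norm_real, Real.norm_eq_abs, Real.norm_eq_abs, abs_mul]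
        calc |K q.2| * (‖F q.1‖ * (|g1 (a1 * q.2 + b1 * q.1)| * |g2 (a2 * q.2 + b2 * q.1)|))
            ≤ |K q.2| * (‖F q.1‖ * (1 * 1)) := by
              gcongr
              · exact hg11 _
              · exact hg21 _
          _ = ‖F q.1‖ * |K q.2| := by ring
  rw [hI]
  have hv1 := osc_vdc (a := a1) (b := b1) (c := a2) (d := b2) ha1 K g1 g2 F hKi hK1 hK2 hg1 hg1i hg11 hg2 hg21
    hFc.measurable hFi hF1
  set I : ℂ := ∫ y, (K y : ℂ) * ∫ t, F t * ((g1 (a1 * y + b1 * t) * g2 (a2 * y + b2 * t) : ℝ) : ℂ) with hIdef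
  set J : ℝ → ℂ := fun h => ∫ z, ((g1 z * g1 (z + b1 * h) : ℝ) : ℂ) * ∫ t, (F t * conj (F (t + h))) *
        ((g2 (a2 / a1 * z + (b2 - a2 * b1 / a1) * t) * g2 (a2 / a1 * z + (b2 - a2 * b1 / a1) * t + b2 * h) : ℝ) : ℂ) with hJ
  have hv1' : ‖I‖ ^ 2 ≤ |a1⁻¹| * ∫ h, ‖J h‖ := hv1
  -- the second step
  have hprod : ∀ (g : ℝ → ℝ) (h : ℝ), Measurable g → Integrable g → (∀ y, |g y| ≤ 1) → ∫ y, |g y| ≤ 1 →
      Integrable (fun z => g z * g (z + h)) ∧ (∀ z, |g z * g (z + h)| ≤ 1) ∧ ∫ z, |g z * g (z + h)| ≤ 1 := by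
    intro g h hg hgi hg1 hg2
    have k1 : ∀ z, |g z * g (z + h)| ≤ |g z| := by
      intro z
      rw [abs_mul]
      exact mul_le_of_le_one_right (abs_nonneg _) (hg1 _)
    have m1 : Measurable (fun z => g z * g (z + h)) := hg.mul (hg.comp (by fun_prop))
    have i1 : Integrable (fun z => g z * g (z + h)) :=
      hgi.abs.mono' m1.aestronglyMeasurable (Filter.Eventually.of_forall k1)
    exact ⟨i1, fun z => (k1 z).trans (hg1 z), (integral_mono i1.abs hgi.abs k1).trans hg2⟩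
  have hJb : ∀ h : ℝ, h ≠ 0 → ‖J h‖ ≤ Real.sqrt D * Mm ^ (-(1 / 4) : ℝ) *
      (|h| ^ (-(1 / 4) : ℝ) * Real.exp (-(1 / (8 * s ^ 2)) * h ^ 2)) := by
    intro h hh
    obtain ⟨p1, p2, p3⟩ := hprod g1 (b1 * h) hg1 hg1i hg11 hg12
    obtain ⟨q1, q2, q3⟩ := hprod g2 (b2 * h) hg2 hg2i hg21 hg22
    have mφ : Measurable (fun x => g2 x * g2 (x + b2 * h)) := hg2.mul (hg2.comp (by fun_prop))
    have hFhc : Continuous (fun t => F t * conj (F (t + h))) :=
      hFc.mul (Complex.continuous_conj.comp (hFc.comp (by fun_prop)))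
    have hFhn : ∀ t, ‖F t * conj (F (t + h))‖ ≤ ‖F t‖ := by
      intro t
      rw [norm_mul, RCLike.norm_conj]
      exact mul_le_of_le_one_right (norm_nonneg _) (hF1 _)
    have hFhi : Integrable (fun t => F t * conj (F (t + h))) :=
      hFi.norm.mono' hFhc.aestronglyMeasurable (Filter.Eventually.of_forall hFhn)
    have hv2 := osc_vdc (a := a) (b := b) (c := 0) (d := 0) ha0 (fun z => g1 z * g1 (z + b1 * h))
      (fun x => g2 x * g2 (x + b2 * h)) (fun _ => 1) (fun t => F t * conj (F (t + h)))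
      p1 p2 p3 mφ q1 q2 measurable_const (fun _ => by simp) hFhc.measurable hFhi
      (fun t => (hFhn t).trans (hF1 t))
    simp only [mul_one] at hv2
    have hv2' : ‖J h‖ ^ 2 ≤ |a⁻¹| * ∫ k, ‖∫ z, (((g2 z * g2 (z + b2 * h)) * (g2 (z + b * k) * g2 (z + b * k + b2 * h)) : ℝ) : ℂ) *
        ∫ t, (F t * conj (F (t + h)) * conj (F (t + k) * conj (F (t + k + h)))) * ((1 : ℝ) : ℂ)‖ := hv2
    clear hv2
    -- the four-fold product
    have hQ : ∀ k : ℝ, ∫ t, (F t * conj (F (t + h)) * conj (F (t + k) * conj (F (t + k + h)))) * ((1 : ℝ) : ℂ) =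
        ∫ t : ℝ, ((ω t * ω (t + h) * ω (t + k) * ω (t + h + k) : ℝ) : ℂ) *
          Complex.exp (2 * Real.pi * Complex.I * ((N * (Real.exp h - 1) * (Real.exp k - 1) * Real.exp t : ℝ) : ℂ)) := by
      intro k
      refine integral_congr_ae (Filter.Eventually.of_forall fun t => ?_)
      simp only
      have e1 : t + h + k = t + k + h := by ring
      have e2 : N * (Real.exp h - 1) * (Real.exp k - 1) * Real.exp t =
          ((N * Real.exp t) + (-(N * Real.exp (t + h)))) + ((-(N * Real.exp (t + k))) + (N * Real.exp (t + k + h))) := by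
        rw [Real.exp_add, Real.exp_add, Real.exp_add, Real.exp_add]
        ring
      rw [e1, e2, ← osc_e_mul, ← osc_e_mul, ← osc_e_mul, hF]
      simp only [map_mul, osc_e_conj, Complex.conj_ofReal, neg_neg]
      push_cast
      ring
    have hstep : ∀ k : ℝ, k ≠ 0 →
        ‖∫ z, (((g2 z * g2 (z + b2 * h)) * (g2 (z + b * k) * g2 (z + b * k + b2 * h)) : ℝ) : ℂ) *
        ∫ t, (F t * conj (F (t + h)) * conj (F (t + k) * conj (F (t + k + h)))) * ((1 : ℝ) : ℂ)‖ ≤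
        C4 * (Mm * |h|) ^ (-(1 / 2) : ℝ) * Real.exp (-(1 / (4 * s ^ 2)) * h ^ 2) *
          (|k| ^ (-(1 / 2) : ℝ) * Real.exp (-(1 / (4 * s ^ 2)) * k ^ 2)) := by
      intro k hk
      rw [hQ k, integral_mul_const, norm_mul]
      obtain ⟨r1, r2, r3⟩ := hprod (fun x => g2 x * g2 (x + b2 * h)) (b * k) mφ q1 q2 q3
      have n1 : ‖∫ z, (((g2 z * g2 (z + b2 * h)) * (g2 (z + b * k) * g2 (z + b * k + b2 * h)) : ℝ) : ℂ)‖ ≤ 1 := by
        refine (norm_integral_le_integral_norm _).trans ?_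
        refine le_trans (le_of_eq ?_) r3
        refine integral_congr_ae (Filter.Eventually.of_forall fun z => ?_)
        simp only
        rw [Complex.norm_real, Real.norm_eq_abs]
      have n2 := hC4 u0 N h k ω ω' hN0 hh hk hω hω'c hwb hwb'
      have e1 : Real.exp (-(h ^ 2 + k ^ 2) / (4 * s ^ 2)) =
          Real.exp (-(1 / (4 * s ^ 2)) * h ^ 2) * Real.exp (-(1 / (4 * s ^ 2)) * k ^ 2) := by
        rw [← Real.exp_add]
        congr 1
        ring
      have e2 : (|N| * Real.exp u0 * |h| * |k|) ^ (-(1 / 2) : ℝ) = (Mm * |h|) ^ (-(1 / 2) : ℝ) * |k| ^ (-(1 / 2) : ℝ) := by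
        rw [← hMm, Real.mul_rpow (by positivity) (by positivity)]
      rw [e1, e2] at n2
      calc _ ≤ 1 * (C4 * (Real.exp (-(1 / (4 * s ^ 2)) * h ^ 2) * Real.exp (-(1 / (4 * s ^ 2)) * k ^ 2)) *
            ((Mm * |h|) ^ (-(1 / 2) : ℝ) * |k| ^ (-(1 / 2) : ℝ))) :=
            mul_le_mul n1 n2 (norm_nonneg _) zero_le_one
        _ = _ := by ring
    have hne : ∀ᵐ k : ℝ, k ≠ 0 := by
      simp [ae_iff, measure_singleton]
    have hint : ∫ k, ‖∫ z, (((g2 z * g2 (z + b2 * h)) * (g2 (z + b * k) * g2 (z + b * k + b2 * h)) : ℝ) : ℂ) *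
        ∫ t, (F t * conj (F (t + h)) * conj (F (t + k) * conj (F (t + k + h)))) * ((1 : ℝ) : ℂ)‖ ≤
        C4 * (Mm * |h|) ^ (-(1 / 2) : ℝ) * Real.exp (-(1 / (4 * s ^ 2)) * h ^ 2) * A1 := by
      rw [hA1, ← integral_const_mul]
      refine integral_mono_of_nonneg (Filter.Eventually.of_forall fun k => norm_nonneg _) (hi1.const_mul _) ?_
      filter_upwards [hne] with k hk
      exact hstep k hk
    have hsq : ‖J h‖ ^ 2 ≤ (Real.sqrt D * Mm ^ (-(1 / 4) : ℝ) *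
      (|h| ^ (-(1 / 4) : ℝ) * Real.exp (-(1 / (8 * s ^ 2)) * h ^ 2))) ^ 2 := by
      have e3 : ∀ x : ℝ, 0 ≤ x → (x ^ (-(1 / 4) : ℝ)) ^ 2 = x ^ (-(1 / 2) : ℝ) := by
        intro x hx
        rw [← Real.rpow_natCast, ← Real.rpow_mul hx]
        norm_num
      have e4 : (Real.exp (-(1 / (8 * s ^ 2)) * h ^ 2)) ^ 2 = Real.exp (-(1 / (4 * s ^ 2)) * h ^ 2) := by
        rw [← Real.exp_nat_mul]
        congr 1
        push_cast
        field_simp
        ring
      rw [mul_pow, mul_pow, mul_pow, Real.sq_sqrt hDn, e3 Mm hMp.le, e3 |h| (abs_nonneg _), e4]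
      refine (hv2'.trans (mul_le_mul_of_nonneg_left hint (abs_nonneg _))).trans (le_of_eq ?_)
      rw [Real.mul_rpow hMp.le (abs_nonneg _), hD]
      ring
    exact (pow_le_pow_iff_left₀ (norm_nonneg _) (by positivity) (by norm_num)).1 hsq
  have hne : ∀ᵐ k : ℝ, k ≠ 0 := by
    simp [ae_iff, measure_singleton]
  have hintJ : ∫ h, ‖J h‖ ≤ Real.sqrt D * Mm ^ (-(1 / 4) : ℝ) * A2 := by
    rw [hA2, ← integral_const_mul]
    refine integral_mono_of_nonneg (Filter.Eventually.of_forall fun k => norm_nonneg _) (hi2.const_mul _) ?_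
    filter_upwards [hne] with k hk
    exact hJb k hk
  have hsq : ‖I‖ ^ 2 ≤ ((1 + T) * Mm ^ (-(1 / 8) : ℝ)) ^ 2 := by
    have e3 : (Mm ^ (-(1 / 8) : ℝ)) ^ 2 = Mm ^ (-(1 / 4) : ℝ) := by
      rw [← Real.rpow_natCast, ← Real.rpow_mul hMp.le]
      norm_num
    rw [mul_pow, e3]
    calc ‖I‖ ^ 2 ≤ |a1⁻¹| * (Real.sqrt D * Mm ^ (-(1 / 4) : ℝ) * A2) :=
          hv1'.trans (mul_le_mul_of_nonneg_left hintJ (abs_nonneg _))
      _ = T * Mm ^ (-(1 / 4) : ℝ) := by rw [hT]; ring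
      _ ≤ (1 + T) ^ 2 * Mm ^ (-(1 / 4) : ℝ) := by
          refine mul_le_mul_of_nonneg_right ?_ (by positivity)
          nlinarith
  exact (pow_le_pow_iff_left₀ (norm_nonneg _) (by positivity) (by norm_num)).1 hsq

end HLA
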