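import Mathlib

/-!
# HLA.Osc4: the oscillatory integral after two differencing steps

PROOF. `G t = exp(-(t-u0)²/(2s²))`. `G4 = G(t) G(t+h) G(t+k) G(t+h+k) = exp(-2(t-u0+(h+k)/2)²/s²) exp(-(h²+k²)/(2s²))`, and the product
`p t = ω(t) ω(t+h) ω(t+k) ω(t+h+k)` has `|p|, |p'|/4 ≤ G4`. (i) trivial bound `∫ G4 = s √(π/2) exp(-(h²+k²)/(2s²))`. (ii) with `λ = N (e^h-1)(e^k-1)`: integration by parts
(`integral_mul_deriv_eq_deriv_mul_of_integrable`, the functions tend to `0` at `±∞`) with `e(λ e^t) = (e(λ e^t))'/(2πi λ e^t)`: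
`|∫| ≤ (1/(2π|λ|)) ∫ |(p e^(-t))'| ≤ (5/(2π|λ|)) ∫ G4 e^(-t) dt = (5/(2π|λ|)) exp(-u0+(h+k)/2+s²/8) s √(π/2) exp(-(h²+k²)/(2s²))`.
`|e^h - 1| ≥ |h| exp(-|h|)`. The minimum of the two bounds is at most their geometric mean, and `exp(c(|h|+|k|)) exp(-(h²+k²)/(2s²)) ≤ C exp(-(h²+k²)/(4s²))`.
-/

namespace HLA

open MeasureTheory

private lemma expm1_lb (h : ℝ) : |h| * Real.exp (-|h|) ≤ |Real.exp h - 1| := by
  rcases le_total 0 h with h0 | h0
  · rw [abs_of_nonneg h0]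
    have h1 : h + 1 ≤ Real.exp h := Real.add_one_le_exp h
    have h2 : Real.exp (-h) ≤ 1 := Real.exp_le_one_iff.mpr (by linarith)
    have h3 : h * Real.exp (-h) ≤ h * 1 := mul_le_mul_of_nonneg_left h2 h0
    calc h * Real.exp (-h) ≤ h := by linarith
      _ ≤ Real.exp h - 1 := by linarith
      _ ≤ |Real.exp h - 1| := le_abs_self _
  · rw [abs_of_nonpos h0, neg_neg]
    have h1 : -h + 1 ≤ Real.exp (-h) := Real.add_one_le_exp (-h)
    have h2 : 0 < Real.exp h := Real.exp_pos h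
    have h3 : Real.exp h * Real.exp (-h) = 1 := by rw [← Real.exp_add]; simp
    have h4 : -h * Real.exp h ≤ 1 - Real.exp h := by nlinarith
    calc -h * Real.exp h ≤ 1 - Real.exp h := h4
      _ = -(Real.exp h - 1) := by ring
      _ ≤ |Real.exp h - 1| := neg_le_abs _

private lemma g4_id {s : ℝ} (hs : 0 < s) (u0 h k t : ℝ) :
    Real.exp (-(t - u0) ^ 2 / (2 * s ^ 2)) * Real.exp (-(t + h - u0) ^ 2 / (2 * s ^ 2)) *
      Real.exp (-(t + k - u0) ^ 2 / (2 * s ^ 2)) * Real.exp (-(t + h + k - u0) ^ 2 / (2 * s ^ 2)) =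
    Real.exp (-(h ^ 2 + k ^ 2) / (2 * s ^ 2)) * Real.exp (-(2 / s ^ 2) * (t - (u0 - (h + k) / 2)) ^ 2) := by
  rw [← Real.exp_add, ← Real.exp_add, ← Real.exp_add, ← Real.exp_add]
  congr 1
  field_simp
  ring

private lemma int_g {c : ℝ} (hc : 0 < c) (a : ℝ) :
    Integrable (fun t : ℝ => Real.exp (-c * (t - a) ^ 2)) ∧
    ∫ t : ℝ, Real.exp (-c * (t - a) ^ 2) = ∫ x : ℝ, Real.exp (-c * x ^ 2) := by
  constructor
  · exact (integrable_exp_neg_mul_sq hc).comp_sub_right a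
  · exact integral_sub_right_eq_self (fun x : ℝ => Real.exp (-c * x ^ 2)) a

private lemma int_g0 {c : ℝ} (hc : 0 < c) :
    Integrable (fun x : ℝ => Real.exp (-c * x ^ 2 - x)) := by
  have h1 := (integrable_exp_neg_mul_sq hc).comp_add_right (1 / (2 * c))
  have h2 := h1.const_mul (Real.exp (1 / (4 * c)))
  refine h2.congr (Filter.Eventually.of_forall fun x => ?_)
  show Real.exp (1 / (4 * c)) * Real.exp (-c * (x + 1 / (2 * c)) ^ 2) = Real.exp (-c * x ^ 2 - x)
  rw [← Real.exp_add]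
  congr 1
  field_simp
  ring

private lemma int_g1 {c : ℝ} (hc : 0 < c) (a : ℝ) :
    Integrable (fun t : ℝ => Real.exp (-c * (t - a) ^ 2) * Real.exp (-t)) ∧
    ∫ t : ℝ, Real.exp (-c * (t - a) ^ 2) * Real.exp (-t) =
      Real.exp (-a) * ∫ x : ℝ, Real.exp (-c * x ^ 2 - x) := by
  have e : (fun t : ℝ => Real.exp (-c * (t - a) ^ 2) * Real.exp (-t)) =
      fun t : ℝ => Real.exp (-a) * Real.exp (-c * (t - a) ^ 2 - (t - a)) := by
    funext t
    rw [← Real.exp_add, ← Real.exp_add]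
    congr 1
    ring
  constructor
  · rw [e]
    exact ((int_g0 hc).comp_sub_right a).const_mul _
  · rw [e, integral_const_mul]
    congr 1
    exact integral_sub_right_eq_self (fun x : ℝ => Real.exp (-c * x ^ 2 - x)) a

theorem osc4 {s : ℝ} (hs : 0 < s) : ∃ C : ℝ, 1 ≤ C ∧ ∀ (u0 N h k : ℝ) (ω ω' : ℝ → ℝ), N ≠ 0 → h ≠ 0 → k ≠ 0 →
    (∀ t, HasDerivAt ω (ω' t) t) → Continuous ω' → (∀ t, |ω t| ≤ Real.exp (-(t - u0) ^ 2 / (2 * s ^ 2))) →
    (∀ t, |ω' t| ≤ Real.exp (-(t - u0) ^ 2 / (2 * s ^ 2))) →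
    ‖∫ t : ℝ, ((ω t * ω (t + h) * ω (t + k) * ω (t + h + k) : ℝ) : ℂ) *
      Complex.exp (2 * Real.pi * Complex.I * ((N * (Real.exp h - 1) * (Real.exp k - 1) * Real.exp t : ℝ) : ℂ))‖ ≤
      C * Real.exp (-(h ^ 2 + k ^ 2) / (4 * s ^ 2)) * (|N| * Real.exp u0 * |h| * |k|) ^ (-(1 / 2) : ℝ) := by
  set c : ℝ := 2 / s ^ 2 with hcdef
  have hc : 0 < c := by positivity
  set J0 : ℝ := ∫ x : ℝ, Real.exp (-c * x ^ 2) with hJ0
  set J1 : ℝ := ∫ x : ℝ, Real.exp (-c * x ^ 2 - x) with hJ1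
  have hJ0n : 0 ≤ J0 := integral_nonneg fun x => (Real.exp_pos _).le
  have hJ1n : 0 ≤ J1 := integral_nonneg fun x => (Real.exp_pos _).le
  set y : ℝ := 5 / (2 * Real.pi) * J0 * J1 * Real.exp (9 * s ^ 2 / 4) with hy
  have hyn : 0 ≤ y := by positivity
  refine ⟨1 + y, by linarith, ?_⟩
  intro u0 N h k ω ω' hN hh hk hω hω' hb hb'
  set E : ℝ := Real.exp (-(h ^ 2 + k ^ 2) / (2 * s ^ 2)) with hE
  have hEp : 0 < E := Real.exp_pos _
  set a : ℝ := u0 - (h + k) / 2 with ha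
  set lam : ℝ := N * (Real.exp h - 1) * (Real.exp k - 1) with hlam
  have hexp_ne : ∀ {x : ℝ}, x ≠ 0 → Real.exp x - 1 ≠ 0 := by
    intro x hx h0
    apply hx
    have : Real.exp x = 1 := by linarith
    exact (Real.exp_eq_one_iff x).1 this
  have hlam0 : lam ≠ 0 := mul_ne_zero (mul_ne_zero hN (hexp_ne hh)) (hexp_ne hk)
  -- the weight
  set p : ℝ → ℝ := fun t => ω t * ω (t + h) * ω (t + k) * ω (t + h + k) with hp
  set p' : ℝ → ℝ := fun t => ((ω' t * ω (t + h) + ω t * ω' (t + h)) * ω (t + k) + ω t * ω (t + h) * ω' (t + k)) * ω (t + h + k) +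
    ω t * ω (t + h) * ω (t + k) * ω' (t + h + k) with hp'
  have hωc : Continuous ω := continuous_iff_continuousAt.2 fun t => (hω t).continuousAt
  have hsh : ∀ (d t : ℝ), HasDerivAt (fun t => ω (t + d)) (ω' (t + d)) t := by
    intro d t
    have := (hω (t + d)).comp_add_const t d
    exact this
  have hsh2 : ∀ t : ℝ, HasDerivAt (fun t => ω (t + h + k)) (ω' (t + h + k)) t := by
    intro t
    have := hsh (h + k) t
    simpa [add_assoc] using this
  have hpd : ∀ t, HasDerivAt p (p' t) t := by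
    intro t
    exact (((hω t).mul (hsh h t)).mul (hsh k t)).mul (hsh2 t)
  have hpc : Continuous p := by fun_prop
  have hp'c : Continuous p' := by fun_prop
  set g : ℝ → ℝ := fun t => Real.exp (-c * (t - a) ^ 2) with hg
  have hgp : ∀ t, 0 < g t := fun t => Real.exp_pos _
  have hid : ∀ t, Real.exp (-(t - u0) ^ 2 / (2 * s ^ 2)) * Real.exp (-(t + h - u0) ^ 2 / (2 * s ^ 2)) *
      Real.exp (-(t + k - u0) ^ 2 / (2 * s ^ 2)) * Real.exp (-(t + h + k - u0) ^ 2 / (2 * s ^ 2)) = E * g t := by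
    intro t
    have := g4_id hs u0 h k t
    simpa [hE, hg, hcdef, ha] using this
  have hmul : ∀ (x1 x2 x3 x4 : ℝ) (t : ℝ), |x1| ≤ Real.exp (-(t - u0) ^ 2 / (2 * s ^ 2)) →
      |x2| ≤ Real.exp (-(t + h - u0) ^ 2 / (2 * s ^ 2)) → |x3| ≤ Real.exp (-(t + k - u0) ^ 2 / (2 * s ^ 2)) →
      |x4| ≤ Real.exp (-(t + h + k - u0) ^ 2 / (2 * s ^ 2)) → |x1 * x2 * x3 * x4| ≤ E * g t := by
    intro x1 x2 x3 x4 t h1 h2 h3 h4
    rw [abs_mul, abs_mul, abs_mul, ← hid t]
    gcongr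
  have hpb : ∀ t, |p t| ≤ E * g t := fun t => hmul _ _ _ _ t (hb t) (hb (t + h)) (hb (t + k)) (hb (t + h + k))
  have hp'b : ∀ t, |p' t| ≤ 4 * (E * g t) := by
    intro t
    have e : p' t = ω' t * ω (t + h) * ω (t + k) * ω (t + h + k) + ω t * ω' (t + h) * ω (t + k) * ω (t + h + k) +
        ω t * ω (t + h) * ω' (t + k) * ω (t + h + k) + ω t * ω (t + h) * ω (t + k) * ω' (t + h + k) := by
      simp only [hp']; ring
    have h1 := hmul _ _ _ _ t (hb' t) (hb (t + h)) (hb (t + k)) (hb (t + h + k))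
    have h2 := hmul _ _ _ _ t (hb t) (hb' (t + h)) (hb (t + k)) (hb (t + h + k))
    have h3 := hmul _ _ _ _ t (hb t) (hb (t + h)) (hb' (t + k)) (hb (t + h + k))
    have h4 := hmul _ _ _ _ t (hb t) (hb (t + h)) (hb (t + k)) (hb' (t + h + k))
    rw [e]
    have a1 := abs_add_le (ω' t * ω (t + h) * ω (t + k) * ω (t + h + k) + ω t * ω' (t + h) * ω (t + k) * ω (t + h + k) +
        ω t * ω (t + h) * ω' (t + k) * ω (t + h + k)) (ω t * ω (t + h) * ω (t + k) * ω' (t + h + k))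
    have a2 := abs_add_le (ω' t * ω (t + h) * ω (t + k) * ω (t + h + k) + ω t * ω' (t + h) * ω (t + k) * ω (t + h + k))
        (ω t * ω (t + h) * ω' (t + k) * ω (t + h + k))
    have a3 := abs_add_le (ω' t * ω (t + h) * ω (t + k) * ω (t + h + k)) (ω t * ω' (t + h) * ω (t + k) * ω (t + h + k))
    linarith
  have hgi := int_g hc a
  have hgi1 := int_g1 hc a
  -- the oscillating factor
  set F : ℝ → ℂ := fun t => Complex.exp (2 * Real.pi * Complex.I * ((lam * Real.exp t : ℝ) : ℂ)) with hF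
  have hFn : ∀ t, ‖F t‖ = 1 := by
    intro t
    have : (2 * Real.pi * Complex.I * ((lam * Real.exp t : ℝ) : ℂ)) = ((2 * Real.pi * (lam * Real.exp t) : ℝ) : ℂ) * Complex.I := by
      push_cast; ring
    rw [hF]; simp only []
    rw [this, Complex.norm_exp_ofReal_mul_I]
  have hFd : ∀ t, HasDerivAt F (F t * (2 * Real.pi * Complex.I * ((lam * Real.exp t : ℝ) : ℂ))) t := by
    intro t
    have h1 : HasDerivAt (fun t : ℝ => ((lam * Real.exp t : ℝ) : ℂ)) ((lam * Real.exp t : ℝ) : ℂ) t :=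
      ((Real.hasDerivAt_exp t).const_mul lam).ofReal_comp
    have h2 := (h1.const_mul (2 * (Real.pi : ℂ) * Complex.I)).cexp
    exact h2
  have hFc : Continuous F := continuous_iff_continuousAt.2 fun t => (hFd t).continuousAt
  -- first bound
  set I : ℂ := ∫ t : ℝ, ((p t : ℝ) : ℂ) * F t with hI
  have hpF : Integrable (fun t : ℝ => ((p t : ℝ) : ℂ) * F t) := by
    refine Integrable.mono' (hgi.1.const_mul E) ?_ (Filter.Eventually.of_forall fun t => ?_)
    · exact ((Complex.continuous_ofReal.comp hpc).mul hFc).aestronglyMeasurable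
    · rw [norm_mul, hFn, mul_one, Complex.norm_real, Real.norm_eq_abs]
      exact hpb t
  have hA : ‖I‖ ≤ E * J0 := by
    calc ‖I‖ ≤ ∫ t : ℝ, E * g t := by
          refine norm_integral_le_of_norm_le (hgi.1.const_mul E) (Filter.Eventually.of_forall fun t => ?_)
          rw [norm_mul, hFn, mul_one, Complex.norm_real, Real.norm_eq_abs]
          exact hpb t
      _ = E * J0 := by rw [integral_const_mul, hgi.2]
  -- second bound
  set u : ℝ → ℂ := fun t => ((p t * Real.exp (-t) : ℝ) : ℂ) with hu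
  set u' : ℝ → ℂ := fun t => ((p' t * Real.exp (-t) + p t * (Real.exp (-t) * (-1)) : ℝ) : ℂ) with hu'
  have hud : ∀ t, HasDerivAt u (u' t) t := by
    intro t
    have h1 : HasDerivAt (fun t : ℝ => Real.exp (-t)) (Real.exp (-t) * (-1)) t := (hasDerivAt_neg t).exp
    exact ((hpd t).mul h1).ofReal_comp
  have huc : Continuous u := continuous_iff_continuousAt.2 fun t => (hud t).continuousAt
  have hu'c : Continuous u' := by
    rw [hu']
    refine Complex.continuous_ofReal.comp ?_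
    fun_prop
  have hu'b : ∀ t, ‖u' t‖ ≤ 5 * E * (g t * Real.exp (-t)) := by
    intro t
    rw [hu']; simp only []
    rw [Complex.norm_real, Real.norm_eq_abs]
    have e : p' t * Real.exp (-t) + p t * (Real.exp (-t) * (-1)) = (p' t - p t) * Real.exp (-t) := by ring
    rw [e, abs_mul, abs_of_pos (Real.exp_pos (-t))]
    have h1 : |p' t - p t| ≤ 5 * (E * g t) := by
      have := abs_sub (p' t) (p t)
      have := hpb t
      have := hp'b t
      linarith
    calc |p' t - p t| * Real.exp (-t) ≤ 5 * (E * g t) * Real.exp (-t) :=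
          mul_le_mul_of_nonneg_right h1 (Real.exp_pos _).le
      _ = 5 * E * (g t * Real.exp (-t)) := by ring
  have hub : ∀ t, ‖u t‖ ≤ E * (g t * Real.exp (-t)) := by
    intro t
    rw [hu]; simp only []
    rw [Complex.norm_real, Real.norm_eq_abs, abs_mul, abs_of_pos (Real.exp_pos (-t))]
    calc |p t| * Real.exp (-t) ≤ (E * g t) * Real.exp (-t) := mul_le_mul_of_nonneg_right (hpb t) (Real.exp_pos _).le
      _ = E * (g t * Real.exp (-t)) := by ring
  have huv : ∀ t, u t * (F t * (2 * Real.pi * Complex.I * ((lam * Real.exp t : ℝ) : ℂ))) =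
      (2 * Real.pi * Complex.I * (lam : ℂ)) * (((p t : ℝ) : ℂ) * F t) := by
    intro t
    have h1 : ((Real.exp (-t) : ℝ) : ℂ) * ((Real.exp t : ℝ) : ℂ) = 1 := by
      rw [← Complex.ofReal_mul, ← Real.exp_add]; simp
    have e1 : u t = ((p t : ℝ) : ℂ) * ((Real.exp (-t) : ℝ) : ℂ) := Complex.ofReal_mul _ _
    have e2 : ((lam * Real.exp t : ℝ) : ℂ) = (lam : ℂ) * ((Real.exp t : ℝ) : ℂ) := Complex.ofReal_mul _ _
    rw [e1, e2]
    linear_combination (2 * Real.pi * Complex.I * (lam : ℂ)) * (((p t : ℝ) : ℂ) * F t) * h1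
  have hibp : ∫ t : ℝ, u t * (F t * (2 * Real.pi * Complex.I * ((lam * Real.exp t : ℝ) : ℂ))) = - ∫ t : ℝ, u' t * F t := by
    refine integral_mul_deriv_eq_deriv_mul_of_integrable (fun x _ => hud x) (fun x _ => hFd x) ?_ ?_ ?_
    · have : (u * fun t => F t * (2 * Real.pi * Complex.I * ((lam * Real.exp t : ℝ) : ℂ))) =
          fun t => (2 * Real.pi * Complex.I * (lam : ℂ)) * (((p t : ℝ) : ℂ) * F t) := by
        funext t
        exact huv t
      rw [this]
      exact hpF.const_mul _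
    · refine Integrable.mono' (hgi1.1.const_mul (5 * E)) (hu'c.mul hFc).aestronglyMeasurable (Filter.Eventually.of_forall fun t => ?_)
      show ‖u' t * F t‖ ≤ _
      rw [norm_mul, hFn, mul_one]
      exact hu'b t
    · refine Integrable.mono' (hgi1.1.const_mul E) (huc.mul hFc).aestronglyMeasurable (Filter.Eventually.of_forall fun t => ?_)
      show ‖u t * F t‖ ≤ _
      rw [norm_mul, hFn, mul_one]
      exact hub t
  have hB : 2 * Real.pi * |lam| * ‖I‖ ≤ 5 * E * (Real.exp (-a) * J1) := by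
    have h1 : (2 * Real.pi * Complex.I * (lam : ℂ)) * I = - ∫ t : ℝ, u' t * F t := by
      rw [← hibp, hI, ← integral_const_mul]
      exact integral_congr_ae (Filter.Eventually.of_forall fun t => (huv t).symm)
    have h2 : ‖(2 * Real.pi * Complex.I * (lam : ℂ)) * I‖ = 2 * Real.pi * |lam| * ‖I‖ := by
      rw [norm_mul, norm_mul, norm_mul, norm_mul, Complex.norm_I, Complex.norm_real, Complex.norm_real]
      simp [abs_of_pos Real.pi_pos]
    rw [← h2, h1, norm_neg]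
    calc ‖∫ t : ℝ, u' t * F t‖ ≤ ∫ t : ℝ, 5 * E * (g t * Real.exp (-t)) := by
          refine norm_integral_le_of_norm_le (hgi1.1.const_mul (5 * E)) (Filter.Eventually.of_forall fun t => ?_)
          rw [norm_mul, hFn, mul_one]
          exact hu'b t
      _ = 5 * E * (Real.exp (-a) * J1) := by rw [integral_const_mul, hgi1.2]
  -- lower bound of lam
  have hNp : 0 < |N| := abs_pos.2 hN
  have hhp : 0 < |h| := abs_pos.2 hh
  have hkp : 0 < |k| := abs_pos.2 hk
  have hlamb : |N| * |h| * |k| * Real.exp (-(|h| + |k|)) ≤ |lam| := by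
    rw [hlam, abs_mul, abs_mul]
    have h1 := expm1_lb h
    have h2 := expm1_lb k
    have h3 : Real.exp (-(|h| + |k|)) = Real.exp (-|h|) * Real.exp (-|k|) := by rw [← Real.exp_add]; congr 1; ring
    rw [h3]
    calc |N| * |h| * |k| * (Real.exp (-|h|) * Real.exp (-|k|)) = |N| * (|h| * Real.exp (-|h|)) * (|k| * Real.exp (-|k|)) := by ring
      _ ≤ |N| * |Real.exp h - 1| * |Real.exp k - 1| := by gcongr
  set M : ℝ := |N| * Real.exp u0 * |h| * |k| with hM
  have hMp : 0 < M := by positivity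
  have hIn : 0 ≤ ‖I‖ := norm_nonneg _
  -- the square
  have hsq : M * ‖I‖ ^ 2 ≤ y * Real.exp (-(h ^ 2 + k ^ 2) / (2 * s ^ 2)) := by
    -- first step
    have h1 : 2 * Real.pi * |lam| * ‖I‖ ^ 2 ≤ 5 * E * (Real.exp (-a) * J1) * (E * J0) := by
      calc 2 * Real.pi * |lam| * ‖I‖ ^ 2 = (2 * Real.pi * |lam| * ‖I‖) * ‖I‖ := by ring
        _ ≤ (5 * E * (Real.exp (-a) * J1)) * (E * J0) := by
            refine mul_le_mul hB hA hIn ?_
            positivity
    have h2 : 2 * Real.pi * (|N| * |h| * |k| * Real.exp (-(|h| + |k|))) * ‖I‖ ^ 2 ≤ 2 * Real.pi * |lam| * ‖I‖ ^ 2 := by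
      gcongr
    have h3 : Real.exp (-a) ≤ Real.exp (-u0) * Real.exp ((|h| + |k|) / 2) := by
      rw [← Real.exp_add]
      apply Real.exp_le_exp.2
      have := le_abs_self h
      have := le_abs_self k
      rw [ha]
      linarith
    have e1 : Real.exp (-(|h| + |k|)) * Real.exp (|h| + |k|) = 1 := by rw [← Real.exp_add]; simp
    have e2 : Real.exp (-u0) * Real.exp u0 = 1 := by rw [← Real.exp_add]; simp
    have h4 : M * ‖I‖ ^ 2 = (2 * Real.pi)⁻¹ * Real.exp u0 * Real.exp (|h| + |k|) *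
        (2 * Real.pi * (|N| * |h| * |k| * Real.exp (-(|h| + |k|))) * ‖I‖ ^ 2) := by
      have hpi : (2 * Real.pi)⁻¹ * (2 * Real.pi) = 1 := by
        rw [inv_mul_cancel₀]; positivity
      calc M * ‖I‖ ^ 2 = 1 * 1 * (M * ‖I‖ ^ 2) := by ring
        _ = ((2 * Real.pi)⁻¹ * (2 * Real.pi)) * (Real.exp (-(|h| + |k|)) * Real.exp (|h| + |k|)) * (M * ‖I‖ ^ 2) := by rw [hpi, e1]
        _ = _ := by rw [hM]; ring
    have h5 : E * E * Real.exp ((3 / 2) * (|h| + |k|)) ≤ Real.exp (9 * s ^ 2 / 4) * Real.exp (-(h ^ 2 + k ^ 2) / (2 * s ^ 2)) := by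
      rw [hE, ← Real.exp_add, ← Real.exp_add, ← Real.exp_add]
      apply Real.exp_le_exp.2
      have k1 : ∀ x : ℝ, (3 / 2) * |x| - x ^ 2 / (2 * s ^ 2) ≤ 9 * s ^ 2 / 8 := by
        intro x
        have : 9 * s ^ 2 / 8 - ((3 / 2) * |x| - x ^ 2 / (2 * s ^ 2)) = (|x| - 3 / 2 * s ^ 2) ^ 2 / (2 * s ^ 2) := by
          rw [← sq_abs x]
          field_simp
          ring
        have h6 : 0 ≤ (|x| - 3 / 2 * s ^ 2) ^ 2 / (2 * s ^ 2) := by positivity
        linarith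
      have k2 := k1 h
      have k3 := k1 k
      have k4 : -(h ^ 2 + k ^ 2) / (2 * s ^ 2) = -(h ^ 2 / (2 * s ^ 2)) - k ^ 2 / (2 * s ^ 2) := by ring
      rw [k4]
      linarith
    calc M * ‖I‖ ^ 2 = (2 * Real.pi)⁻¹ * Real.exp u0 * Real.exp (|h| + |k|) *
        (2 * Real.pi * (|N| * |h| * |k| * Real.exp (-(|h| + |k|))) * ‖I‖ ^ 2) := h4
      _ ≤ (2 * Real.pi)⁻¹ * Real.exp u0 * Real.exp (|h| + |k|) * (5 * E * (Real.exp (-a) * J1) * (E * J0)) := by
          refine mul_le_mul_of_nonneg_left (h2.trans h1) ?_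
          positivity
      _ ≤ (2 * Real.pi)⁻¹ * Real.exp u0 * Real.exp (|h| + |k|) * (5 * E * ((Real.exp (-u0) * Real.exp ((|h| + |k|) / 2)) * J1) * (E * J0)) := by
          gcongr
      _ = (2 * Real.pi)⁻¹ * 5 * J0 * J1 * (Real.exp (-u0) * Real.exp u0) * (E * E * (Real.exp (|h| + |k|) * Real.exp ((|h| + |k|) / 2))) := by ring
      _ = (2 * Real.pi)⁻¹ * 5 * J0 * J1 * (E * E * Real.exp ((3 / 2) * (|h| + |k|))) := by
          have e5 : Real.exp (|h| + |k|) * Real.exp ((|h| + |k|) / 2) = Real.exp ((3 / 2) * (|h| + |k|)) := by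
            rw [← Real.exp_add]; congr 1; ring
          rw [e2, e5]
          ring
      _ ≤ (2 * Real.pi)⁻¹ * 5 * J0 * J1 * (Real.exp (9 * s ^ 2 / 4) * Real.exp (-(h ^ 2 + k ^ 2) / (2 * s ^ 2))) := by
          gcongr
      _ = y * Real.exp (-(h ^ 2 + k ^ 2) / (2 * s ^ 2)) := by rw [hy]; ring
  -- conclusion
  have hfin : ‖I‖ ^ 2 ≤ ((1 + y) * Real.exp (-(h ^ 2 + k ^ 2) / (4 * s ^ 2)) * M ^ (-(1 / 2) : ℝ)) ^ 2 := by
    have e3 : (M ^ (-(1 / 2) : ℝ)) ^ 2 = M⁻¹ := by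
      rw [← Real.rpow_natCast, ← Real.rpow_mul hMp.le]
      norm_num
      exact Real.rpow_neg_one M
    have e4 : (Real.exp (-(h ^ 2 + k ^ 2) / (4 * s ^ 2))) ^ 2 = Real.exp (-(h ^ 2 + k ^ 2) / (2 * s ^ 2)) := by
      rw [← Real.exp_nat_mul]
      congr 1
      push_cast
      field_simp
      ring
    rw [mul_pow, mul_pow, e3, e4]
    have h6 : y ≤ (1 + y) ^ 2 := by nlinarith
    have h7 : ‖I‖ ^ 2 ≤ y * Real.exp (-(h ^ 2 + k ^ 2) / (2 * s ^ 2)) * M⁻¹ := by
      rw [← div_eq_mul_inv, le_div_iff₀ hMp]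
      linarith
    refine h7.trans ?_
    gcongr
  have hr : 0 ≤ (1 + y) * Real.exp (-(h ^ 2 + k ^ 2) / (4 * s ^ 2)) * M ^ (-(1 / 2) : ℝ) := by positivity
  exact (pow_le_pow_iff_left₀ hIn hr (by norm_num)).1 hfin

end HLA
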