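import Mathlib

/-!
# HLA.Planch2: Gaussian Plancherel identity for finite measures on the plane

PROOF. As `Pool/Agent/ASI/Planch.lean` (copy; dimension one), in two dimensions. Let
`k x y = π δ² exp(-|x-y|²/(4δ²))` (`x y : ℝ × ℝ`, `|z|² = z.1² + z.2²`), then `∫ exp(-|x-p|²/(2δ²)) exp(-|y-p|²/(2δ²)) dp = k x y` and
`∫ exp(-δ²|τ|²) exp(-i τ·x) conj(exp(-i τ·y)) dτ = k x y / δ⁴` (products of the one dimensional formulas; `integral_prod_mul`). Expand the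
squares, Fubini.
-/

namespace HLA

open MeasureTheory

private noncomputable def gK1 (δ x y : ℝ) : ℝ :=
  δ * Real.sqrt Real.pi * Real.exp (-(x - y) ^ 2 / (4 * δ ^ 2))

private noncomputable def gK (δ : ℝ) (x y : ℝ × ℝ) : ℝ :=
  gK1 δ x.1 y.1 * gK1 δ x.2 y.2

private lemma planch_A0 {δ : ℝ} (hδ : 0 < δ) (x y : ℝ) :
    Integrable (fun u : ℝ => Real.exp (-(x - u) ^ 2 / (2 * δ ^ 2)) *
      Real.exp (-(y - u) ^ 2 / (2 * δ ^ 2))) ∧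
    ∫ u : ℝ, Real.exp (-(x - u) ^ 2 / (2 * δ ^ 2)) * Real.exp (-(y - u) ^ 2 / (2 * δ ^ 2)) =
      gK1 δ x y := by
  have e1 : (fun u : ℝ => Real.exp (-(x - u) ^ 2 / (2 * δ ^ 2)) *
      Real.exp (-(y - u) ^ 2 / (2 * δ ^ 2))) =
      fun u : ℝ => Real.exp (-(1 / δ ^ 2) * (u - (x + y) / 2) ^ 2) *
        Real.exp (-(x - y) ^ 2 / (4 * δ ^ 2)) := by
    funext u
    rw [← Real.exp_add, ← Real.exp_add]
    congr 1
    field_simp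
    ring
  have hb : (0 : ℝ) < 1 / δ ^ 2 := by positivity
  rw [e1]
  constructor
  · exact ((integrable_exp_neg_mul_sq hb).comp_sub_right ((x + y) / 2)).mul_const _
  · rw [integral_mul_const, integral_sub_right_eq_self
      (fun u : ℝ => Real.exp (-(1 / δ ^ 2) * u ^ 2)) ((x + y) / 2), integral_gaussian]
    unfold gK1
    congr 1
    rw [show Real.pi / (1 / δ ^ 2) = δ ^ 2 * Real.pi by field_simp,
      Real.sqrt_mul (by positivity), Real.sqrt_sq hδ.le]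

private noncomputable def ge (δ : ℝ) (x u : ℝ × ℝ) : ℝ :=
  Real.exp (-((x.1 - u.1) ^ 2 + (x.2 - u.2) ^ 2) / (2 * δ ^ 2))

private lemma ge_mul (δ : ℝ) (x y u : ℝ × ℝ) : ge δ x u * ge δ y u =
    (Real.exp (-(x.1 - u.1) ^ 2 / (2 * δ ^ 2)) * Real.exp (-(y.1 - u.1) ^ 2 / (2 * δ ^ 2))) *
    (Real.exp (-(x.2 - u.2) ^ 2 / (2 * δ ^ 2)) * Real.exp (-(y.2 - u.2) ^ 2 / (2 * δ ^ 2))) := by
  unfold ge
  rw [← Real.exp_add, ← Real.exp_add, ← Real.exp_add, ← Real.exp_add]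
  congr 1
  ring

private lemma planch_A1 {δ : ℝ} (hδ : 0 < δ) (x y : ℝ × ℝ) :
    Integrable (fun u : ℝ × ℝ => ge δ x u * ge δ y u) ∧
    ∫ u : ℝ × ℝ, ge δ x u * ge δ y u = gK δ x y := by
  obtain ⟨h1, v1⟩ := planch_A0 hδ x.1 y.1
  obtain ⟨h2, v2⟩ := planch_A0 hδ x.2 y.2
  have e1 : (fun u : ℝ × ℝ => ge δ x u * ge δ y u) = fun u : ℝ × ℝ =>
      (fun a : ℝ => Real.exp (-(x.1 - a) ^ 2 / (2 * δ ^ 2)) *
        Real.exp (-(y.1 - a) ^ 2 / (2 * δ ^ 2))) u.1 *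
      (fun a : ℝ => Real.exp (-(x.2 - a) ^ 2 / (2 * δ ^ 2)) *
        Real.exp (-(y.2 - a) ^ 2 / (2 * δ ^ 2))) u.2 := by
    funext u
    exact ge_mul δ x y u
  rw [e1, Measure.volume_eq_prod]
  refine ⟨h1.mul_prod h2, ?_⟩
  refine (integral_prod_mul (μ := volume) (ν := volume)
    (fun a : ℝ => Real.exp (-(x.1 - a) ^ 2 / (2 * δ ^ 2)) *
        Real.exp (-(y.1 - a) ^ 2 / (2 * δ ^ 2)))
    (fun a : ℝ => Real.exp (-(x.2 - a) ^ 2 / (2 * δ ^ 2)) *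
        Real.exp (-(y.2 - a) ^ 2 / (2 * δ ^ 2)))).trans ?_
  rw [v1, v2]
  rfl

private lemma planch_A2 (μ ν : Measure (ℝ × ℝ)) [IsFiniteMeasure μ] [IsFiniteMeasure ν] {δ : ℝ}
    (hδ : 0 < δ) :
    Integrable (fun p : (ℝ × ℝ) × ((ℝ × ℝ) × (ℝ × ℝ)) => ge δ p.2.1 p.1 *
      ge δ p.2.2 p.1) (volume.prod (μ.prod ν)) := by
  have hm : AEStronglyMeasurable (fun p : (ℝ × ℝ) × ((ℝ × ℝ) × (ℝ × ℝ)) =>
      ge δ p.2.1 p.1 * ge δ p.2.2 p.1) (volume.prod (μ.prod ν)) := by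
    apply Continuous.aestronglyMeasurable
    unfold ge
    fun_prop
  rw [integrable_prod_iff' hm]
  refine ⟨Filter.Eventually.of_forall (fun z => (planch_A1 hδ z.1 z.2).1), ?_⟩
  have e1 : (fun z : (ℝ × ℝ) × (ℝ × ℝ) => ∫ u : ℝ × ℝ, ‖ge δ z.1 u * ge δ z.2 u‖) =
      fun z => gK δ z.1 z.2 := by
    funext z
    rw [← (planch_A1 hδ z.1 z.2).2]
    refine integral_congr_ae (Filter.Eventually.of_forall (fun u => ?_))
    simp only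
    rw [Real.norm_of_nonneg (by unfold ge; positivity)]
  show Integrable (fun z : (ℝ × ℝ) × (ℝ × ℝ) => ∫ u : ℝ × ℝ, ‖ge δ z.1 u * ge δ z.2 u‖)
    (μ.prod ν)
  rw [e1]
  refine Integrable.of_bound (C := (δ * Real.sqrt Real.pi) * (δ * Real.sqrt Real.pi)) ?_ ?_
  · apply Continuous.aestronglyMeasurable
    unfold gK gK1
    fun_prop
  · refine Filter.Eventually.of_forall (fun z => ?_)
    have h0 : ∀ a b : ℝ, 0 ≤ gK1 δ a b := by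
      intro a b
      unfold gK1
      positivity
    have h1 : ∀ a b : ℝ, gK1 δ a b ≤ δ * Real.sqrt Real.pi := by
      intro a b
      unfold gK1
      have h1 : Real.exp (-(a - b) ^ 2 / (4 * δ ^ 2)) ≤ 1 := by
        rw [Real.exp_le_one_iff]
        apply div_nonpos_of_nonpos_of_nonneg
        · nlinarith [sq_nonneg (a - b)]
        · positivity
      calc δ * Real.sqrt Real.pi * Real.exp (-(a - b) ^ 2 / (4 * δ ^ 2))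
          ≤ δ * Real.sqrt Real.pi * 1 := mul_le_mul_of_nonneg_left h1 (by positivity)
        _ = _ := by ring
    unfold gK
    rw [Real.norm_of_nonneg (mul_nonneg (h0 _ _) (h0 _ _))]
    exact mul_le_mul (h1 _ _) (h1 _ _) (h0 _ _) (by positivity)

private lemma planch_A3 (μ ν : Measure (ℝ × ℝ)) [IsFiniteMeasure μ] [IsFiniteMeasure ν] {δ : ℝ}
    (hδ : 0 < δ) :
    Integrable (fun u : ℝ × ℝ => (∫ x, ge δ x u ∂μ) * (∫ x, ge δ x u ∂ν)) ∧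
    ∫ u : ℝ × ℝ, (∫ x, ge δ x u ∂μ) * (∫ x, ge δ x u ∂ν) =
      ∫ z, gK δ z.1 z.2 ∂(μ.prod ν) := by
  have e1 : (fun u : ℝ × ℝ => (∫ x, ge δ x u ∂μ) * (∫ x, ge δ x u ∂ν)) =
      fun u : ℝ × ℝ => ∫ z : (ℝ × ℝ) × (ℝ × ℝ), ge δ z.1 u * ge δ z.2 u ∂(μ.prod ν) := by
    funext u
    exact (integral_prod_mul (fun x : ℝ × ℝ => ge δ x u) (fun x : ℝ × ℝ => ge δ x u)).symm
  have h2 := planch_A2 μ ν hδ
  rw [e1]
  refine ⟨h2.integral_prod_left, ?_⟩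
  have h3 := integral_integral_swap (f := fun (u : ℝ × ℝ) (z : (ℝ × ℝ) × (ℝ × ℝ)) =>
    ge δ z.1 u * ge δ z.2 u)
    (μ := volume) (ν := μ.prod ν) h2
  rw [h3]
  refine integral_congr_ae (Filter.Eventually.of_forall (fun z => ?_))
  exact (planch_A1 hδ z.1 z.2).2

/-- the character -/
private noncomputable def gc (τ x : ℝ × ℝ) : ℂ :=
  Complex.exp (-((τ.1 * x.1 + τ.2 * x.2) * Complex.I))

/-- the Fourier transform of a measure. -/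
private noncomputable def gH (μ : Measure (ℝ × ℝ)) (τ : ℝ × ℝ) : ℂ := ∫ x, gc τ x ∂μ

private lemma planch_B0 {δ : ℝ} (hδ : 0 < δ) (x y : ℝ) :
    ∫ τ : ℝ, (Real.exp (-(δ ^ 2 * τ ^ 2)) : ℂ) * (Complex.exp (-(τ * x * Complex.I)) *
      (starRingEnd ℂ) (Complex.exp (-(τ * y * Complex.I)))) = ((gK1 δ x y / δ ^ 2 : ℝ) : ℂ) := by
  have hb : 0 < ((δ ^ 2 : ℝ) : ℂ).re := by
    rw [Complex.ofReal_re]; positivity
  have h1 := fourierIntegral_gaussian hb ((y - x : ℝ) : ℂ)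
  have e1 : (fun τ : ℝ => (Real.exp (-(δ ^ 2 * τ ^ 2)) : ℂ) * (Complex.exp (-(τ * x * Complex.I)) *
      (starRingEnd ℂ) (Complex.exp (-(τ * y * Complex.I))))) =
      fun τ : ℝ => Complex.exp (Complex.I * ((y - x : ℝ) : ℂ) * τ) *
        Complex.exp (-((δ ^ 2 : ℝ) : ℂ) * (τ : ℂ) ^ 2) := by
    funext τ
    rw [← Complex.exp_conj, ← Complex.exp_add, ← Complex.exp_add, Complex.ofReal_exp,
      ← Complex.exp_add]
    congr 1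
    simp only [map_neg, map_mul, Complex.conj_ofReal, Complex.conj_I]
    push_cast
    ring
  rw [e1, h1]
  have e2 : ((Real.pi : ℂ) / ((δ ^ 2 : ℝ) : ℂ)) ^ (1 / 2 : ℂ) =
      ((Real.sqrt Real.pi / δ : ℝ) : ℂ) := by
    rw [← Complex.ofReal_div, show (1 / 2 : ℂ) = ((1 / 2 : ℝ) : ℂ) by push_cast; ring,
      ← Complex.ofReal_cpow (by positivity), ← Real.sqrt_eq_rpow, Real.sqrt_div (by positivity),
      Real.sqrt_sq hδ.le]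
  rw [e2]
  have e3 : -((y - x : ℝ) : ℂ) ^ 2 / (4 * ((δ ^ 2 : ℝ) : ℂ)) =
      ((-(x - y) ^ 2 / (4 * δ ^ 2) : ℝ) : ℂ) := by
    push_cast; ring
  rw [e3, ← Complex.ofReal_exp, ← Complex.ofReal_mul]
  congr 1
  unfold gK1
  field_simp

private lemma planch_B1 {δ : ℝ} (hδ : 0 < δ) (x y : ℝ × ℝ) :
    ∫ τ : ℝ × ℝ, (Real.exp (-(δ ^ 2 * (τ.1 ^ 2 + τ.2 ^ 2))) : ℂ) * (gc τ x *
      (starRingEnd ℂ) (gc τ y)) = ((gK δ x y / δ ^ 4 : ℝ) : ℂ) := by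
  have e1 : (fun τ : ℝ × ℝ => (Real.exp (-(δ ^ 2 * (τ.1 ^ 2 + τ.2 ^ 2))) : ℂ) * (gc τ x *
      (starRingEnd ℂ) (gc τ y))) = fun τ : ℝ × ℝ =>
      (fun a : ℝ => (Real.exp (-(δ ^ 2 * a ^ 2)) : ℂ) * (Complex.exp (-(a * x.1 * Complex.I)) *
        (starRingEnd ℂ) (Complex.exp (-(a * y.1 * Complex.I))))) τ.1 *
      (fun a : ℝ => (Real.exp (-(δ ^ 2 * a ^ 2)) : ℂ) * (Complex.exp (-(a * x.2 * Complex.I)) *
        (starRingEnd ℂ) (Complex.exp (-(a * y.2 * Complex.I))))) τ.2 := by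
    funext τ
    simp only
    unfold gc
    rw [← Complex.exp_conj, ← Complex.exp_conj, ← Complex.exp_conj, ← Complex.exp_add,
      ← Complex.exp_add, ← Complex.exp_add, Complex.ofReal_exp, Complex.ofReal_exp,
      Complex.ofReal_exp, ← Complex.exp_add, ← Complex.exp_add, ← Complex.exp_add,
      ← Complex.exp_add]
    congr 1
    simp only [map_neg, map_mul, map_add, Complex.conj_ofReal, Complex.conj_I]
    push_cast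
    ring
  rw [e1, Measure.volume_eq_prod]
  refine (integral_prod_mul (μ := volume) (ν := volume)
    (fun a : ℝ => (Real.exp (-(δ ^ 2 * a ^ 2)) : ℂ) * (Complex.exp (-(a * x.1 * Complex.I)) *
        (starRingEnd ℂ) (Complex.exp (-(a * y.1 * Complex.I)))))
    (fun a : ℝ => (Real.exp (-(δ ^ 2 * a ^ 2)) : ℂ) * (Complex.exp (-(a * x.2 * Complex.I)) *
        (starRingEnd ℂ) (Complex.exp (-(a * y.2 * Complex.I)))))).trans ?_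
  rw [planch_B0 hδ, planch_B0 hδ, ← Complex.ofReal_mul]
  congr 1
  unfold gK
  field_simp

private lemma norm_gc (τ x : ℝ × ℝ) : ‖gc τ x‖ = 1 := by
  unfold gc
  rw [show -(((τ.1 : ℂ) * x.1 + τ.2 * x.2) * Complex.I) =
    ((-(τ.1 * x.1 + τ.2 * x.2) : ℝ) : ℂ) * Complex.I by push_cast; ring]
  exact Complex.norm_exp_ofReal_mul_I _

private lemma planch_g {δ : ℝ} (hδ : 0 < δ) :
    Integrable (fun τ : ℝ × ℝ => Real.exp (-(δ ^ 2 * (τ.1 ^ 2 + τ.2 ^ 2)))) := by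
  have hg : Integrable (fun τ : ℝ => Real.exp (-(δ ^ 2 * τ ^ 2))) := by
    have := integrable_exp_neg_mul_sq (by positivity : (0 : ℝ) < δ ^ 2)
    simpa only [neg_mul] using this
  have e1 : (fun τ : ℝ × ℝ => Real.exp (-(δ ^ 2 * (τ.1 ^ 2 + τ.2 ^ 2)))) =
      fun τ : ℝ × ℝ => (fun a : ℝ => Real.exp (-(δ ^ 2 * a ^ 2))) τ.1 *
        (fun a : ℝ => Real.exp (-(δ ^ 2 * a ^ 2))) τ.2 := by
    funext τ
    simp only
    rw [← Real.exp_add]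
    congr 1
    ring
  rw [e1, Measure.volume_eq_prod]
  exact hg.mul_prod hg

private lemma planch_B2 (μ ν : Measure (ℝ × ℝ)) [IsFiniteMeasure μ] [IsFiniteMeasure ν] {δ : ℝ}
    (hδ : 0 < δ) :
    Integrable (fun p : (ℝ × ℝ) × ((ℝ × ℝ) × (ℝ × ℝ)) =>
      (Real.exp (-(δ ^ 2 * (p.1.1 ^ 2 + p.1.2 ^ 2))) : ℂ) *
      (gc p.1 p.2.1 * (starRingEnd ℂ) (gc p.1 p.2.2))) (volume.prod (μ.prod ν)) := by
  have hg := planch_g hδ
  have h1 : Integrable (fun p : (ℝ × ℝ) × ((ℝ × ℝ) × (ℝ × ℝ)) =>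
      Real.exp (-(δ ^ 2 * (p.1.1 ^ 2 + p.1.2 ^ 2))) * (1 : ℝ))
      (volume.prod (μ.prod ν)) := hg.mul_prod (integrable_const (1 : ℝ))
  refine h1.mono' ?_ ?_
  · apply Continuous.aestronglyMeasurable
    unfold gc
    refine Continuous.mul ?_ (Continuous.mul ?_ ?_)
    · exact Complex.continuous_ofReal.comp (by fun_prop)
    · fun_prop
    · exact Complex.continuous_conj.comp (by fun_prop)
  · refine Filter.Eventually.of_forall (fun p => ?_)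
    rw [norm_mul, norm_mul, RCLike.norm_conj, norm_gc, norm_gc, Complex.norm_real,
      Real.norm_of_nonneg (Real.exp_pos _).le]
    simp

private lemma planch_B3 (μ ν : Measure (ℝ × ℝ)) [IsFiniteMeasure μ] [IsFiniteMeasure ν] {δ : ℝ}
    (hδ : 0 < δ) :
    Integrable (fun τ : ℝ × ℝ => (Real.exp (-(δ ^ 2 * (τ.1 ^ 2 + τ.2 ^ 2))) : ℂ) *
      (gH μ τ * (starRingEnd ℂ) (gH ν τ))) ∧
    ∫ τ : ℝ × ℝ, (Real.exp (-(δ ^ 2 * (τ.1 ^ 2 + τ.2 ^ 2))) : ℂ) *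
      (gH μ τ * (starRingEnd ℂ) (gH ν τ)) =
      (((∫ z, gK δ z.1 z.2 ∂(μ.prod ν)) / δ ^ 4 : ℝ) : ℂ) := by
  have e1 : (fun τ : ℝ × ℝ => (Real.exp (-(δ ^ 2 * (τ.1 ^ 2 + τ.2 ^ 2))) : ℂ) *
      (gH μ τ * (starRingEnd ℂ) (gH ν τ))) =
      fun τ : ℝ × ℝ => ∫ z : (ℝ × ℝ) × (ℝ × ℝ),
        (Real.exp (-(δ ^ 2 * (τ.1 ^ 2 + τ.2 ^ 2))) : ℂ) *
        (gc τ z.1 * (starRingEnd ℂ) (gc τ z.2)) ∂(μ.prod ν) := by
    funext τ
    rw [integral_const_mul]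
    congr 1
    rw [integral_prod_mul (fun x : ℝ × ℝ => gc τ x)
      (fun x : ℝ × ℝ => (starRingEnd ℂ) (gc τ x))]
    unfold gH
    congr 1
    exact integral_conj.symm
  have h2 := planch_B2 μ ν hδ
  rw [e1]
  refine ⟨h2.integral_prod_left, ?_⟩
  have h3 := integral_integral_swap (f := fun (τ : ℝ × ℝ) (z : (ℝ × ℝ) × (ℝ × ℝ)) =>
    (Real.exp (-(δ ^ 2 * (τ.1 ^ 2 + τ.2 ^ 2))) : ℂ) *
        (gc τ z.1 * (starRingEnd ℂ) (gc τ z.2)))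
    (μ := volume) (ν := μ.prod ν) h2
  rw [h3, ← integral_div, ← integral_complex_ofReal]
  refine integral_congr_ae (Filter.Eventually.of_forall (fun z => ?_))
  exact planch_B1 hδ z.1 z.2

private lemma planch_symm (μ ν : Measure (ℝ × ℝ)) [IsFiniteMeasure μ] [IsFiniteMeasure ν]
    (δ : ℝ) :
    ∫ z, gK δ z.1 z.2 ∂(ν.prod μ) = ∫ z, gK δ z.1 z.2 ∂(μ.prod ν) := by
  rw [← integral_prod_swap]
  refine integral_congr_ae (Filter.Eventually.of_forall (fun z => ?_))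
  simp only [Prod.fst_swap, Prod.snd_swap, gK, gK1]
  rw [show (z.2.1 - z.1.1) ^ 2 = (z.1.1 - z.2.1) ^ 2 by ring,
    show (z.2.2 - z.1.2) ^ 2 = (z.1.2 - z.2.2) ^ 2 by ring]

private lemma planch_c3 {f g h : ℝ × ℝ → ℝ} (hf : Integrable f) (hg : Integrable g)
    (hh : Integrable h) : ∫ u, (f u - 2 * g u + h u) = (∫ u, f u) - 2 * (∫ u, g u) + ∫ u, h u := by
  have h1 : Integrable (fun u => 2 * g u) := hg.const_mul 2
  have h2 : Integrable (fun u => f u - 2 * g u) := hf.sub h1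
  rw [integral_add h2 hh, integral_sub hf h1, integral_const_mul]

private lemma planch_c4 {f g h k : ℝ × ℝ → ℂ} (hf : Integrable f) (hg : Integrable g)
    (hh : Integrable h) (hk : Integrable k) : ∫ u, (f u - g u - h u + k u) =
      (∫ u, f u) - (∫ u, g u) - (∫ u, h u) + ∫ u, k u := by
  have h2 : Integrable (fun u => f u - g u) := hf.sub hg
  have h3 : Integrable (fun u => f u - g u - h u) := h2.sub hh
  rw [integral_add h3 hk, integral_sub h2 hh, integral_sub hf hg]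

theorem planch2 (μ1 μ2 : Measure (ℝ × ℝ)) [IsFiniteMeasure μ1] [IsFiniteMeasure μ2] {δ : ℝ} (hδ : 0 < δ) :
    ∫ p : ℝ × ℝ, ((∫ x, Real.exp (-((x.1 - p.1) ^ 2 + (x.2 - p.2) ^ 2) / (2 * δ ^ 2)) ∂μ1) -
      (∫ x, Real.exp (-((x.1 - p.1) ^ 2 + (x.2 - p.2) ^ 2) / (2 * δ ^ 2)) ∂μ2)) ^ 2 =
    δ ^ 4 * ∫ τ : ℝ × ℝ, Real.exp (-(δ ^ 2 * (τ.1 ^ 2 + τ.2 ^ 2))) *
      ‖(∫ x, Complex.exp (-((τ.1 * x.1 + τ.2 * x.2) * Complex.I)) ∂μ1) -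
        (∫ x, Complex.exp (-((τ.1 * x.1 + τ.2 * x.2) * Complex.I)) ∂μ2)‖ ^ 2 := by
  obtain ⟨i11, v11⟩ := planch_A3 μ1 μ1 hδ
  obtain ⟨i12, v12⟩ := planch_A3 μ1 μ2 hδ
  obtain ⟨i22, v22⟩ := planch_A3 μ2 μ2 hδ
  obtain ⟨j11, w11⟩ := planch_B3 μ1 μ1 hδ
  obtain ⟨j12, w12⟩ := planch_B3 μ1 μ2 hδ
  obtain ⟨j21, w21⟩ := planch_B3 μ2 μ1 hδ
  obtain ⟨j22, w22⟩ := planch_B3 μ2 μ2 hδ
  have hL : ∫ u : ℝ × ℝ, ((∫ x, ge δ x u ∂μ1) - (∫ x, ge δ x u ∂μ2)) ^ 2 =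
      (∫ z, gK δ z.1 z.2 ∂(μ1.prod μ1)) - 2 * (∫ z, gK δ z.1 z.2 ∂(μ1.prod μ2)) +
        ∫ z, gK δ z.1 z.2 ∂(μ2.prod μ2) := by
    rw [← v11, ← v12, ← v22, ← planch_c3 i11 i12 i22]
    refine integral_congr_ae (Filter.Eventually.of_forall (fun u => ?_))
    simp only
    ring
  have hR : ((∫ τ : ℝ × ℝ, Real.exp (-(δ ^ 2 * (τ.1 ^ 2 + τ.2 ^ 2))) *
      ‖gH μ1 τ - gH μ2 τ‖ ^ 2 : ℝ) : ℂ) =
      ((((∫ z, gK δ z.1 z.2 ∂(μ1.prod μ1)) - 2 * (∫ z, gK δ z.1 z.2 ∂(μ1.prod μ2)) +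
        ∫ z, gK δ z.1 z.2 ∂(μ2.prod μ2)) / δ ^ 4 : ℝ) : ℂ) := by
    rw [← integral_complex_ofReal]
    have e1 : (fun τ : ℝ × ℝ => ((Real.exp (-(δ ^ 2 * (τ.1 ^ 2 + τ.2 ^ 2))) *
          ‖gH μ1 τ - gH μ2 τ‖ ^ 2 : ℝ) : ℂ)) =
        fun τ : ℝ × ℝ => ((Real.exp (-(δ ^ 2 * (τ.1 ^ 2 + τ.2 ^ 2))) : ℂ) *
            (gH μ1 τ * (starRingEnd ℂ) (gH μ1 τ)) -
          (Real.exp (-(δ ^ 2 * (τ.1 ^ 2 + τ.2 ^ 2))) : ℂ) *
            (gH μ1 τ * (starRingEnd ℂ) (gH μ2 τ)) -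
          (Real.exp (-(δ ^ 2 * (τ.1 ^ 2 + τ.2 ^ 2))) : ℂ) *
            (gH μ2 τ * (starRingEnd ℂ) (gH μ1 τ))) +
          (Real.exp (-(δ ^ 2 * (τ.1 ^ 2 + τ.2 ^ 2))) : ℂ) *
            (gH μ2 τ * (starRingEnd ℂ) (gH μ2 τ)) := by
      funext τ
      rw [Complex.ofReal_mul, Complex.ofReal_pow, ← Complex.mul_conj', map_sub]
      ring
    rw [e1, planch_c4 j11 j12 j21 j22, w11, w12, w21, w22, planch_symm μ1 μ2 δ]
    push_cast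
    ring
  have hR' := Complex.ofReal_injective hR
  have e3 : (∫ p : ℝ × ℝ, ((∫ x, Real.exp (-((x.1 - p.1) ^ 2 + (x.2 - p.2) ^ 2) /
      (2 * δ ^ 2)) ∂μ1) -
      (∫ x, Real.exp (-((x.1 - p.1) ^ 2 + (x.2 - p.2) ^ 2) / (2 * δ ^ 2)) ∂μ2)) ^ 2) =
      ∫ u : ℝ × ℝ, ((∫ x, ge δ x u ∂μ1) - (∫ x, ge δ x u ∂μ2)) ^ 2 := rfl
  rw [e3, hL]
  have e4 : (∫ τ : ℝ × ℝ, Real.exp (-(δ ^ 2 * (τ.1 ^ 2 + τ.2 ^ 2))) *
      ‖(∫ x, Complex.exp (-((τ.1 * x.1 + τ.2 * x.2) * Complex.I)) ∂μ1) -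
        (∫ x, Complex.exp (-((τ.1 * x.1 + τ.2 * x.2) * Complex.I)) ∂μ2)‖ ^ 2) =
      ∫ τ : ℝ × ℝ, Real.exp (-(δ ^ 2 * (τ.1 ^ 2 + τ.2 ^ 2))) *
        ‖gH μ1 τ - gH μ2 τ‖ ^ 2 := rfl
  rw [e4, hR']
  field_simp

/-- Integrability of the two sides. -/
theorem planch2_int (μ1 μ2 : Measure (ℝ × ℝ)) [IsFiniteMeasure μ1] [IsFiniteMeasure μ2] {δ : ℝ} (hδ : 0 < δ) :
    Integrable (fun p : ℝ × ℝ => ((∫ x, Real.exp (-((x.1 - p.1) ^ 2 + (x.2 - p.2) ^ 2) / (2 * δ ^ 2)) ∂μ1) -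
      (∫ x, Real.exp (-((x.1 - p.1) ^ 2 + (x.2 - p.2) ^ 2) / (2 * δ ^ 2)) ∂μ2)) ^ 2) ∧
    Integrable (fun τ : ℝ × ℝ => Real.exp (-(δ ^ 2 * (τ.1 ^ 2 + τ.2 ^ 2))) *
      ‖(∫ x, Complex.exp (-((τ.1 * x.1 + τ.2 * x.2) * Complex.I)) ∂μ1) -
        (∫ x, Complex.exp (-((τ.1 * x.1 + τ.2 * x.2) * Complex.I)) ∂μ2)‖ ^ 2) := by
  constructor
  · obtain ⟨i11, -⟩ := planch_A3 μ1 μ1 hδ
    obtain ⟨i12, -⟩ := planch_A3 μ1 μ2 hδ
    obtain ⟨i22, -⟩ := planch_A3 μ2 μ2 hδ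
    refine ((i11.sub (i12.const_mul 2)).add i22).congr
      (Filter.Eventually.of_forall (fun u => ?_))
    simp only [Pi.add_apply, Pi.sub_apply]
    unfold ge
    ring
  · obtain ⟨j11, -⟩ := planch_B3 μ1 μ1 hδ
    obtain ⟨j12, -⟩ := planch_B3 μ1 μ2 hδ
    obtain ⟨j21, -⟩ := planch_B3 μ2 μ1 hδ
    obtain ⟨j22, -⟩ := planch_B3 μ2 μ2 hδ
    have h := ((j11.sub j12).sub j21).add j22
    have h2 := h.re
    refine h2.congr (Filter.Eventually.of_forall (fun τ => ?_))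
    have e1 : (((Real.exp (-(δ ^ 2 * (τ.1 ^ 2 + τ.2 ^ 2))) *
          ‖gH μ1 τ - gH μ2 τ‖ ^ 2 : ℝ)) : ℂ) =
        ((Real.exp (-(δ ^ 2 * (τ.1 ^ 2 + τ.2 ^ 2))) : ℂ) *
            (gH μ1 τ * (starRingEnd ℂ) (gH μ1 τ)) -
          (Real.exp (-(δ ^ 2 * (τ.1 ^ 2 + τ.2 ^ 2))) : ℂ) *
            (gH μ1 τ * (starRingEnd ℂ) (gH μ2 τ)) -
          (Real.exp (-(δ ^ 2 * (τ.1 ^ 2 + τ.2 ^ 2))) : ℂ) *
            (gH μ2 τ * (starRingEnd ℂ) (gH μ1 τ))) +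
          (Real.exp (-(δ ^ 2 * (τ.1 ^ 2 + τ.2 ^ 2))) : ℂ) *
            (gH μ2 τ * (starRingEnd ℂ) (gH μ2 τ)) := by
      rw [Complex.ofReal_mul, Complex.ofReal_pow, ← Complex.mul_conj', map_sub]
      ring
    simp only [Pi.add_apply, Pi.sub_apply]
    rw [← e1]
    exact Complex.ofReal_re _

end HLA
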