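import Mathlib

/-!
# HLA.Poi: Poisson summation for `∑ Θ(log n)/n`, integrated by parts twice

PROOF. `f t = Θ(log t)/t` for `t > 0`, `f t = 0` for `t ≤ 0`. `f` is continuous and `|f t| ≤ C (1 + |t|)^(-2)` (Gaussian decay in `log t` beats all powers, at `0` and at `∞`).
`f' t = (Θ1 - Θ)(log t)/t²`, `f'' t = (Θ2 - 3 Θ1 + 2 Θ)(log t)/t³`, also with Gaussian decay in `log t`. For real `ξ ≠ 0` two integrations by parts:
`∫ f(t) e(-ξt) dt = -(1/(4π²ξ²)) ∫ f''(t) e(-ξt) dt = -(1/(4π²ξ²)) ∫ exp(-2u) (Θ2 - 3Θ1 + 2Θ)(u) e(-ξ e^u) du`; `∫ f = ∫ Θ`. So the Fourier transform is `O((1+ξ²)^(-1))` and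
Poisson's formula (`Real.tsum_eq_tsum_fourier_of_rpow_decay`) gives `∑_n f(n) = ∑_k f^(k)`; `f(n) = 0` for `n ≤ 0`, `f^(0) = ∫ Θ`, and
`∑_{k≠0} 1/(4π²k²) = 1/12 ≤ 1`.
-/

namespace HLA

open MeasureTheory

/-- the function `g (log t) / t ^ j` on the positive half line, zero elsewhere -/
noncomputable def poiF (g : ℝ → ℂ) (j : ℕ) (t : ℝ) : ℂ :=
  if 0 < t then g (Real.log t) / (t : ℂ) ^ j else 0

theorem poi_exp_bound {g : ℝ → ℂ} {u0 s M : ℝ} (hs : 0 < s)
    (hb : ∀ u, ‖g u‖ ≤ M * Real.exp (-(u - u0) ^ 2 / (2 * s ^ 2))) (a : ℝ) :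
    ∃ C : ℝ, 0 ≤ C ∧ ∀ u, ‖g u‖ ≤ C * Real.exp (a * u) := by
  have hM : 0 ≤ M := by
    have h := (norm_nonneg _).trans (hb u0)
    simpa using h
  refine ⟨M * Real.exp (a ^ 2 * s ^ 2 / 2 - a * u0), by positivity, fun u => (hb u).trans ?_⟩
  rw [mul_assoc, ← Real.exp_add]
  refine mul_le_mul_of_nonneg_left (Real.exp_le_exp.2 ?_) hM
  rw [div_le_iff₀ (by positivity)]
  nlinarith [sq_nonneg ((u - u0) + a * s ^ 2)]

theorem poi_pow_bound {g : ℝ → ℂ} (hg : ∀ a : ℝ, ∃ C : ℝ, 0 ≤ C ∧ ∀ u, ‖g u‖ ≤ C * Real.exp (a * u))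
    (k : ℤ) : ∃ C : ℝ, 0 ≤ C ∧ ∀ t : ℝ, 0 < t → ‖g (Real.log t)‖ ≤ C * t ^ k := by
  obtain ⟨C, hC, h⟩ := hg k
  refine ⟨C, hC, fun t ht => (h _).trans (le_of_eq ?_)⟩
  rw [mul_comm (k : ℝ), ← Real.rpow_def_of_pos ht, Real.rpow_intCast]

theorem poiF_small {g : ℝ → ℂ} (hg : ∀ a : ℝ, ∃ C : ℝ, 0 ≤ C ∧ ∀ u, ‖g u‖ ≤ C * Real.exp (a * u))
    (j : ℕ) : ∃ C : ℝ, 0 ≤ C ∧ ∀ t : ℝ, ‖poiF g j t‖ ≤ C * t ^ 2 := by
  obtain ⟨C, hC, h⟩ := poi_pow_bound hg (j + 2)
  refine ⟨C, hC, fun t => ?_⟩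
  unfold poiF
  split_ifs with ht
  · rw [norm_div, norm_pow, Complex.norm_real, Real.norm_of_nonneg ht.le, div_le_iff₀ (by positivity)]
    refine (h t ht).trans (le_of_eq ?_)
    rw [zpow_add₀ ht.ne', zpow_natCast]
    norm_cast
    ring
  · rw [norm_zero]; positivity

theorem poiF_large {g : ℝ → ℂ} (hg : ∀ a : ℝ, ∃ C : ℝ, 0 ≤ C ∧ ∀ u, ‖g u‖ ≤ C * Real.exp (a * u))
    (j : ℕ) : ∃ C : ℝ, 0 ≤ C ∧ ∀ t : ℝ, ‖poiF g j t‖ ≤ C * (1 + t ^ 2)⁻¹ := by
  obtain ⟨C1, hC1, h1⟩ := poi_pow_bound hg j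
  obtain ⟨C2, hC2, h2⟩ := poi_pow_bound hg (j - 2)
  refine ⟨C1 + C2, by positivity, fun t => ?_⟩
  unfold poiF
  split_ifs with ht
  · rw [norm_div, norm_pow, Complex.norm_real, Real.norm_of_nonneg ht.le, ← div_eq_mul_inv,
      div_le_div_iff₀ (by positivity) (by positivity)]
    have e1 := h1 t ht
    have e2 := h2 t ht
    rw [zpow_sub₀ ht.ne', zpow_natCast] at e2
    rw [zpow_natCast] at e1
    have e3 : ‖g (Real.log t)‖ * t ^ 2 ≤ C2 * t ^ j := by
      have := mul_le_mul_of_nonneg_right e2 (by positivity : (0 : ℝ) ≤ t ^ 2)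
      refine this.trans (le_of_eq ?_)
      have ht2 : (t : ℝ) ^ (2 : ℤ) = t ^ 2 := by norm_cast
      rw [ht2]
      field_simp
    nlinarith
  · rw [norm_zero]; positivity

theorem poiF_integrable {g : ℝ → ℂ} (hc : Continuous g)
    (hg : ∀ a : ℝ, ∃ C : ℝ, 0 ≤ C ∧ ∀ u, ‖g u‖ ≤ C * Real.exp (a * u)) (j : ℕ) :
    Integrable (poiF g j) := by
  obtain ⟨C, hC, h⟩ := poiF_large hg j
  refine Integrable.mono' (integrable_inv_one_add_sq.const_mul C) ?_ (Filter.Eventually.of_forall h)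
  refine Measurable.aestronglyMeasurable ?_
  refine Measurable.ite measurableSet_Ioi ?_ measurable_const
  exact (hc.measurable.comp Real.measurable_log).div
    ((Complex.measurable_ofReal).pow_const j)

theorem poiF_hasDerivAt {g g1 : ℝ → ℂ} (hd : ∀ u, HasDerivAt g (g1 u) u)
    (hg : ∀ a : ℝ, ∃ C : ℝ, 0 ≤ C ∧ ∀ u, ‖g u‖ ≤ C * Real.exp (a * u)) (j : ℕ) (t : ℝ) :
    HasDerivAt (poiF g j) (poiF (fun u => g1 u - j * g u) (j + 1) t) t := by
  rcases lt_trichotomy t 0 with ht | ht | ht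
  · have e : poiF (fun u => g1 u - j * g u) (j + 1) t = 0 := by
      unfold poiF; rw [if_neg (not_lt.2 ht.le)]
    rw [e]
    have : poiF g j =ᶠ[nhds t] fun _ => (0 : ℂ) := by
      filter_upwards [Iio_mem_nhds ht] with x hx
      unfold poiF; rw [if_neg (not_lt.2 (le_of_lt hx))]
    exact (hasDerivAt_const t (0 : ℂ)).congr_of_eventuallyEq this
  · subst ht
    have e : poiF (fun u => g1 u - j * g u) (j + 1) 0 = 0 := by
      unfold poiF; rw [if_neg (lt_irrefl _)]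
    rw [e]
    obtain ⟨C, hC, h⟩ := poiF_small hg j
    have e0 : poiF g j 0 = 0 := by
      unfold poiF; rw [if_neg (lt_irrefl _)]
    rw [hasDerivAt_iff_isLittleO, e0]
    simp only [sub_zero, smul_zero]
    refine (Asymptotics.IsBigO.of_bound C (Filter.Eventually.of_forall fun x => ?_) :
      (fun x => poiF g j x) =O[nhds 0] fun x : ℝ => x ^ 2).trans_isLittleO ?_
    · refine (h x).trans (le_of_eq ?_)
      rw [Real.norm_of_nonneg (by positivity)]
    · exact Asymptotics.isLittleO_pow_id one_lt_two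
  · have e : poiF g j =ᶠ[nhds t] fun x => g (Real.log x) / (x : ℂ) ^ j := by
      filter_upwards [Ioi_mem_nhds ht] with x hx
      unfold poiF; rw [if_pos (Set.mem_Ioi.1 hx)]
    refine HasDerivAt.congr_of_eventuallyEq ?_ e
    have htc : (t : ℂ) ≠ 0 := by exact_mod_cast ht.ne'
    have d1 : HasDerivAt (fun x : ℝ => g (Real.log x)) (t⁻¹ • g1 (Real.log t)) t :=
      HasDerivAt.scomp t (hd _) (Real.hasDerivAt_log ht.ne')
    have d2 : HasDerivAt (fun x : ℝ => (x : ℂ) ^ j) ((j : ℂ) * (t : ℂ) ^ (j - 1) * 1) t :=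
      (hasDerivAt_pow j (t : ℂ)).comp_ofReal.congr_deriv (by ring)
    have d3 := d1.div d2 (pow_ne_zero j htc)
    refine d3.congr_deriv ?_
    unfold poiF
    rw [if_pos ht]
    rcases j with _ | j
    · simp
      field_simp
    · simp only [Nat.add_sub_cancel, Complex.real_smul, Complex.ofReal_inv]
      push_cast
      field_simp
      ring

theorem poi_sub {g h : ℝ → ℂ} (c : ℂ)
    (hg : ∀ a : ℝ, ∃ C : ℝ, 0 ≤ C ∧ ∀ u, ‖g u‖ ≤ C * Real.exp (a * u))
    (hh : ∀ a : ℝ, ∃ C : ℝ, 0 ≤ C ∧ ∀ u, ‖h u‖ ≤ C * Real.exp (a * u)) (a : ℝ) :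
    ∃ C : ℝ, 0 ≤ C ∧ ∀ u, ‖g u - c * h u‖ ≤ C * Real.exp (a * u) := by
  obtain ⟨C1, hC1, h1⟩ := hg a
  obtain ⟨C2, hC2, h2⟩ := hh a
  refine ⟨C1 + ‖c‖ * C2, by positivity, fun u => (norm_sub_le _ _).trans ?_⟩
  rw [norm_mul, add_mul, mul_assoc]
  exact add_le_add (h1 u) (mul_le_mul_of_nonneg_left (h2 u) (norm_nonneg c))

/-- change of variables `t = exp u` -/
theorem poi_cov (F : ℝ → ℂ) (hF : ∀ t, t ≤ 0 → F t = 0) :
    ∫ t, F t = ∫ u, (Real.exp u : ℂ) * F (Real.exp u) := by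
  have h := integral_image_eq_integral_abs_deriv_smul (s := Set.univ) (f := Real.exp)
    (f' := Real.exp) MeasurableSet.univ (fun x _ => (Real.hasDerivAt_exp x).hasDerivWithinAt)
    (fun x _ y _ hxy => Real.exp_injective hxy) F
  rw [Set.image_univ, Real.range_exp] at h
  rw [← setIntegral_eq_integral_of_forall_compl_eq_zero (s := Set.Ioi (0 : ℝ))
    (fun t ht => hF t (not_lt.1 ht)), h, setIntegral_univ]
  refine integral_congr_ae (Filter.Eventually.of_forall fun u => ?_)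
  simp only [abs_of_pos (Real.exp_pos u), Complex.real_smul]

theorem poi_sum : HasSum (fun n : ℤ => 1 / (n : ℝ) ^ 2) (Real.pi ^ 2 / 3) := by
  have h := hasSum_zeta_two
  have h' : HasSum (fun n : ℕ => 1 / ((n + 1 : ℕ) : ℝ) ^ 2) (Real.pi ^ 2 / 6) := by
    have := (hasSum_nat_add_iff' (f := fun n : ℕ => 1 / (n : ℝ) ^ 2) 1).2 h
    simpa using this
  have hs2 : HasSum (fun n : ℕ => 1 / (((-((n : ℤ) + 1) : ℤ)) : ℝ) ^ 2) (Real.pi ^ 2 / 6) := by
    have e : (fun n : ℕ => 1 / (((-((n : ℤ) + 1) : ℤ)) : ℝ) ^ 2) =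
        fun n : ℕ => 1 / ((n + 1 : ℕ) : ℝ) ^ 2 := by
      funext n
      push_cast
      ring
    rw [e]; exact h'
  have e := HasSum.of_nat_of_neg_add_one (f := fun n : ℤ => 1 / (n : ℝ) ^ 2) (m := Real.pi ^ 2 / 6)
    (m' := Real.pi ^ 2 / 6) (by simpa using h) hs2
  have e2 : Real.pi ^ 2 / 3 = Real.pi ^ 2 / 6 + Real.pi ^ 2 / 6 := by ring
  rw [e2]; exact e

theorem poi {Θ Θ1 Θ2 : ℝ → ℂ} {u0 s M R : ℝ} (hs : 0 < s) (h1 : ∀ u, HasDerivAt Θ (Θ1 u) u)
    (h2 : ∀ u, HasDerivAt Θ1 (Θ2 u) u) (hc : Continuous Θ2) (hR0 : 0 ≤ R)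
    (hb0 : ∀ u, ‖Θ u‖ ≤ M * Real.exp (-(u - u0) ^ 2 / (2 * s ^ 2)))
    (hb1 : ∀ u, ‖Θ1 u‖ ≤ M * Real.exp (-(u - u0) ^ 2 / (2 * s ^ 2)))
    (hb2 : ∀ u, ‖Θ2 u‖ ≤ M * Real.exp (-(u - u0) ^ 2 / (2 * s ^ 2)))
    (hR : ∀ k : ℤ, k ≠ 0 → ‖∫ u : ℝ, ((Real.exp (-2 * u) : ℝ) : ℂ) * (Θ2 u - 3 * Θ1 u + 2 * Θ u) *
      Complex.exp (2 * Real.pi * Complex.I * (((k : ℝ) * Real.exp u : ℝ) : ℂ))‖ ≤ R) :
    Summable (fun n : ℕ => Θ (Real.log n) / (n : ℂ)) ∧
      ‖(∑' n : ℕ, Θ (Real.log n) / (n : ℂ)) - ∫ u, Θ u‖ ≤ R := by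
  have g0 := poi_exp_bound hs hb0
  have g1 := poi_exp_bound hs hb1
  have g2 := poi_exp_bound hs hb2
  have c0 : Continuous Θ := continuous_iff_continuousAt.2 fun u => (h1 u).continuousAt
  have c1 : Continuous Θ1 := continuous_iff_continuousAt.2 fun u => (h2 u).continuousAt
  -- the function and its derivatives
  set f : ℝ → ℂ := poiF Θ 1 with hf
  set p1 : ℝ → ℂ := fun u => Θ1 u - ((1 : ℕ) : ℂ) * Θ u with hp1
  set f1 : ℝ → ℂ := poiF p1 2 with hf1
  set p1' : ℝ → ℂ := fun u => Θ2 u - ((1 : ℕ) : ℂ) * Θ1 u with hp1'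
  set p2 : ℝ → ℂ := fun u => p1' u - ((2 : ℕ) : ℂ) * p1 u with hp2
  set f2 : ℝ → ℂ := poiF p2 3 with hf2
  have gp1 := poi_sub ((1 : ℕ) : ℂ) g1 g0
  have gp1' := poi_sub ((1 : ℕ) : ℂ) g2 g1
  have gp2 := poi_sub ((2 : ℕ) : ℂ) gp1' gp1
  have cp1 : Continuous p1 := by fun_prop
  have cp1' : Continuous p1' := by fun_prop
  have cp2 : Continuous p2 := by fun_prop
  have d1 : ∀ t, HasDerivAt f (f1 t) t := fun t => poiF_hasDerivAt h1 g0 1 t
  have dp1 : ∀ u, HasDerivAt p1 (p1' u) u := fun u => (h2 u).sub ((h1 u).const_mul _)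
  have d2 : ∀ t, HasDerivAt f1 (f2 t) t := fun t => poiF_hasDerivAt dp1 gp1 2 t
  have i0 : Integrable f := poiF_integrable c0 g0 1
  have i1 : Integrable f1 := poiF_integrable cp1 gp1 2
  have i2 : Integrable f2 := poiF_integrable cp2 gp2 3
  have e1 : deriv f = f1 := funext fun t => (d1 t).deriv
  have e2 : deriv f1 = f2 := funext fun t => (d2 t).deriv
  have F1 : FourierTransform.fourier f1 = fun x : ℝ => (2 * Real.pi * Complex.I * x) • (FourierTransform.fourier f x) := by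
    rw [← e1]
    exact Real.fourier_deriv i0 (fun t => (d1 t).differentiableAt) (by rw [e1]; exact i1)
  have F2 : FourierTransform.fourier f2 = fun x : ℝ => (2 * Real.pi * Complex.I * x) • (FourierTransform.fourier f1 x) := by
    rw [← e2]
    exact Real.fourier_deriv i1 (fun t => (d2 t).differentiableAt) (by rw [e2]; exact i2)
  have cf : Continuous f := continuous_iff_continuousAt.2 fun t => (d1 t).continuousAt
  have F3 : ∀ x : ℝ, x ≠ 0 → FourierTransform.fourier f x =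
      -(1 / (4 * Real.pi ^ 2 * x ^ 2) : ℝ) * FourierTransform.fourier f2 x := by
    intro x hx
    rw [F2, F1]
    have hx' : (x : ℂ) ≠ 0 := by exact_mod_cast hx
    have hpi : (Real.pi : ℂ) ≠ 0 := by exact_mod_cast Real.pi_ne_zero
    simp only [smul_eq_mul]
    push_cast
    field_simp
    rw [Complex.I_sq]
    ring
  have F4 : ∀ k : ℤ, k ≠ 0 → ‖FourierTransform.fourier f2 (k : ℝ)‖ ≤ R := by
    intro k hk
    refine le_trans (le_of_eq ?_) (hR (-k) (neg_ne_zero.2 hk))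
    congr 1
    rw [Real.fourier_real_eq_integral_exp_smul, poi_cov _ (fun t ht => by
      rw [hf2]; unfold poiF; rw [if_neg (not_lt.2 ht), smul_zero])]
    refine integral_congr_ae (Filter.Eventually.of_forall fun u => ?_)
    simp only [hf2, poiF, if_pos (Real.exp_pos u), Real.log_exp, hp2, hp1, hp1', smul_eq_mul]
    have hE : (Real.exp u : ℂ) ≠ 0 := by exact_mod_cast (Real.exp_pos u).ne'
    have hE2 : ((Real.exp (-2 * u) : ℝ) : ℂ) = 1 / (Real.exp u : ℂ) ^ 2 := by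
      rw [show -2 * u = -(u + u) by ring, Real.exp_neg, Real.exp_add]
      push_cast
      field_simp
    rw [hE2, show ((-2 * Real.pi * Real.exp u * k : ℝ) : ℂ) * Complex.I =
      2 * Real.pi * Complex.I * (((((-k : ℤ) : ℝ)) * Real.exp u : ℝ) : ℂ) by push_cast; ring]
    field_simp
    push_cast
    ring
  have F0 : FourierTransform.fourier f 0 = ∫ u, Θ u := by
    rw [Real.fourier_real_eq_integral_exp_smul, poi_cov _ (fun t ht => by
      rw [hf]; unfold poiF; rw [if_neg (not_lt.2 ht), smul_zero])]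
    refine integral_congr_ae (Filter.Eventually.of_forall fun u => ?_)
    have hE : (Real.exp u : ℂ) ≠ 0 := by exact_mod_cast (Real.exp_pos u).ne'
    simp only [hf, poiF, if_pos (Real.exp_pos u), Real.log_exp, smul_eq_mul]
    simp
    field_simp
  have B : ∀ k : ℤ, ‖(if k = 0 then (0 : ℂ) else FourierTransform.fourier f (k : ℝ))‖ ≤
      R / (4 * Real.pi ^ 2) * (1 / (k : ℝ) ^ 2) := by
    intro k
    split_ifs with hk
    · rw [norm_zero]; positivity
    · have hk' : (k : ℝ) ≠ 0 := by exact_mod_cast hk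
      rw [F3 _ hk', norm_mul, norm_neg, Complex.norm_real, Real.norm_of_nonneg (by positivity)]
      refine (mul_le_mul_of_nonneg_left (F4 k hk) (by positivity)).trans (le_of_eq ?_)
      field_simp
  have S0 : HasSum (fun k : ℤ => R / (4 * Real.pi ^ 2) * (1 / (k : ℝ) ^ 2))
      (R / (4 * Real.pi ^ 2) * (Real.pi ^ 2 / 3)) := poi_sum.mul_left _
  have S1 : Summable (fun k : ℤ => if k = 0 then (0 : ℂ) else FourierTransform.fourier f (k : ℝ)) :=
    Summable.of_norm_bounded S0.summable B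
  have S2 : Summable (fun k : ℤ => FourierTransform.fourier f (k : ℝ)) := by
    refine (summable_congr_cofinite ?_).1 S1
    have : ({0}ᶜ : Set ℤ) ∈ Filter.cofinite := (Set.finite_singleton 0).compl_mem_cofinite
    filter_upwards [this] with k hk
    rw [if_neg (show ¬ k = 0 from hk)]
  have N1 : ‖∑' k : ℤ, (if k = 0 then (0 : ℂ) else FourierTransform.fourier f (k : ℝ))‖ ≤ R := by
    refine (tsum_of_norm_bounded S0 B).trans ?_
    have hpi := Real.pi_pos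
    have : R / (4 * Real.pi ^ 2) * (Real.pi ^ 2 / 3) = R / 12 := by field_simp; ring
    rw [this]; linarith
  obtain ⟨C, hC, hCb⟩ := poiF_large g0 1
  have O1 : f =O[Filter.cocompact ℝ] fun x : ℝ => |x| ^ (-(2 : ℝ)) := by
    refine Asymptotics.IsBigO.of_bound C ?_
    have : ({0}ᶜ : Set ℝ) ∈ Filter.cocompact ℝ := isCompact_singleton.compl_mem_cocompact
    filter_upwards [this] with t ht
    have ht' : t ≠ 0 := ht
    refine (hCb t).trans (mul_le_mul_of_nonneg_left ?_ hC)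
    rw [Real.norm_of_nonneg (by positivity), Real.rpow_neg (abs_nonneg t)]
    have : |t| ^ (2 : ℝ) = t ^ 2 := by
      rw [Real.rpow_two, sq_abs]
    rw [this]
    have ht2 : 0 < t ^ 2 := by positivity
    exact inv_anti₀ ht2 (by linarith)
  have P := Real.tsum_eq_tsum_fourier_of_rpow_decay_of_summable cf one_lt_two O1 S2 0
  simp only [zero_add] at P
  have P2 : ∑' n : ℤ, FourierTransform.fourier f (n : ℝ) * fourier n ((0 : ℝ) : UnitAddCircle) =
      ∑' n : ℤ, FourierTransform.fourier f (n : ℝ) := by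
    refine tsum_congr fun n => ?_
    simp
  rw [P2, S2.tsum_eq_add_tsum_ite 0] at P
  have P3 : ∑' n : ℤ, f (n : ℝ) = ∑' n : ℕ, Θ (Real.log n) / (n : ℂ) := by
    rw [← Function.Injective.tsum_eq (g := fun n : ℕ => (n : ℤ)) Nat.cast_injective]
    · refine tsum_congr fun n => ?_
      rcases Nat.eq_zero_or_pos n with hn | hn
      · subst hn; simp [hf, poiF]
      · have : (0 : ℝ) < n := by exact_mod_cast hn
        simp [hf, poiF, hn]
    · intro k hk
      by_contra hc'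
      refine hk ?_
      have hk0 : k < 0 := by
        by_contra h0
        exact hc' ⟨k.toNat, Int.toNat_of_nonneg (not_lt.1 h0)⟩
      have : (k : ℝ) ≤ 0 := by exact_mod_cast hk0.le
      simp only [hf, poiF, if_neg (not_lt.2 this)]
  refine ⟨?_, ?_⟩
  · refine Summable.of_norm_bounded ((Real.summable_one_div_nat_pow.2 one_lt_two).mul_left C) fun n => ?_
    rcases Nat.eq_zero_or_pos n with hn | hn
    · subst hn; simp
    · have hn' : (0 : ℝ) < n := by exact_mod_cast hn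
      have := hCb n
      simp only [poiF, if_pos hn', pow_one, Complex.ofReal_natCast] at this
      refine this.trans (mul_le_mul_of_nonneg_left ?_ hC)
      rw [one_div]
      exact inv_anti₀ (by positivity) (by linarith)
  · rw [← P3, P]
    simp only [Int.cast_zero, F0, add_sub_cancel_left]
    exact N1

end HLA
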