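import Pool.Agent.HLA.OT
import Pool.Agent.HLA.AdmP

/-!
# HLA.Slot: the orthogonality theorem for a smoothed measure

PROOF. `D = DD ..`. For a finite measure `μ`: `gsm δ (up w h μ) x = e^w ∫ exp(-(x-h-z)²/(2δ²)) dμ(z)` (`gsm_up`), Fubini and `x = z + h + δ s`:
`∫ D(x) gsm δ (up w h μ) x dx = δ e^w ∫ exp(-s²/2) (∫ D(z + h + δ s) dμ(z)) ds`. For every `s` the function `z ↦ D(z + h + δ s)` is by `dd_shift`, `adm_map` again a `DD` with the same bounds, so by `ot`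
(with `A + 1`) the difference of the inner integrals for `μ = muP σ c` and `μ = muL σ c` is at most `w^(-A-1)`; `δ e^w √(2π) ≤ 3 e^E`.
-/

namespace HLA

open MeasureTheory ArithmeticFunction SMC

private theorem slot_int1 {δ : ℝ} (hδ : 0 < δ) (h : ℝ) (μ : Measure ℝ) [IsFiniteMeasure μ] :
    Integrable (fun q : ℝ × ℝ => Real.exp (-(q.1 - h - q.2) ^ 2 / (2 * δ ^ 2))) (volume.prod μ) := by
  have hc : Continuous fun q : ℝ × ℝ => Real.exp (-(q.1 - h - q.2) ^ 2 / (2 * δ ^ 2)) := by fun_prop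
  have hf : ∀ x : ℝ, (fun y : ℝ => Real.exp (-(y - h - x) ^ 2 / (2 * δ ^ 2))) = WW δ (h + x) := by
    intro x
    funext y
    unfold WW
    rw [show y - h - x = y - (h + x) by ring]
  rw [integrable_prod_iff' hc.aestronglyMeasurable]
  constructor
  · refine Filter.Eventually.of_forall fun x => ?_
    show Integrable (fun y : ℝ => Real.exp (-(y - h - x) ^ 2 / (2 * δ ^ 2)))
    rw [hf]
    exact (WW_int hδ (h + x)).1
  · have h1 : (fun x : ℝ => ∫ y : ℝ, ‖Real.exp (-((y, x).1 - h - (y, x).2) ^ 2 / (2 * δ ^ 2))‖) =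
        fun _ => Real.sqrt (2 * Real.pi) * δ := by
      funext x
      have h2 : (fun y : ℝ => ‖Real.exp (-((y, x).1 - h - (y, x).2) ^ 2 / (2 * δ ^ 2))‖) = WW δ (h + x) := by
        rw [← hf]
        funext y
        rw [Real.norm_eq_abs, abs_of_pos (Real.exp_pos _)]
      rw [h2]
      exact (WW_int hδ (h + x)).2
    rw [h1]
    exact integrable_const _

private theorem slot_id {δ : ℝ} (hδ : 0 < δ) (w h : ℝ) (μ : Measure ℝ) [IsFiniteMeasure μ] {D : ℝ → ℝ} (hD : Continuous D)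
    {B : ℝ} (hB : ∀ x, |D x| ≤ B) :
    Integrable (fun s : ℝ => Real.exp (-s ^ 2 / 2) * ∫ z, D (z + (h + δ * s)) ∂μ) ∧
    ∫ x, D x * gsm δ (up w h μ) x =
      δ * Real.exp w * ∫ s : ℝ, Real.exp (-s ^ 2 / 2) * ∫ z, D (z + (h + δ * s)) ∂μ := by
  have hB0 : 0 ≤ B := (abs_nonneg _).trans (hB 0)
  have hG : Integrable (fun s : ℝ => Real.exp (-s ^ 2 / 2)) := by
    have := integrable_exp_neg_mul_sq (by norm_num : (0 : ℝ) < 1 / 2)
    refine this.congr (Filter.Eventually.of_forall fun s => ?_)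
    show Real.exp (-(1 / 2) * s ^ 2) = Real.exp (-s ^ 2 / 2)
    congr 1
    ring
  -- the second double integral
  have hI2 : Integrable (fun q : ℝ × ℝ => Real.exp (-q.1 ^ 2 / 2) * D (q.2 + (h + δ * q.1))) (volume.prod μ) := by
    have h1 : Integrable (fun q : ℝ × ℝ => Real.exp (-q.1 ^ 2 / 2) * B) (volume.prod μ) :=
      hG.mul_prod (integrable_const B)
    refine h1.mono' ?_ (Filter.Eventually.of_forall fun q => ?_)
    · refine Continuous.aestronglyMeasurable ?_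
      fun_prop
    · rw [norm_mul, Real.norm_eq_abs, Real.norm_eq_abs, abs_of_pos (Real.exp_pos _)]
      exact mul_le_mul_of_nonneg_left (hB _) (Real.exp_pos _).le
  -- the first double integral
  have hI1 : Integrable (fun q : ℝ × ℝ => D q.1 * Real.exp (-(q.1 - h - q.2) ^ 2 / (2 * δ ^ 2))) (volume.prod μ) := by
    refine ((slot_int1 hδ h μ).const_mul B).mono' ?_ (Filter.Eventually.of_forall fun q => ?_)
    · refine Continuous.aestronglyMeasurable ?_
      fun_prop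
    · rw [norm_mul, Real.norm_eq_abs, Real.norm_eq_abs, abs_of_pos (Real.exp_pos _)]
      exact mul_le_mul_of_nonneg_right (hB _) (Real.exp_pos _).le
  constructor
  · have h1 := hI2.integral_prod_left
    refine h1.congr (Filter.Eventually.of_forall fun s => ?_)
    show ∫ z, Real.exp (-s ^ 2 / 2) * D (z + (h + δ * s)) ∂μ = _
    rw [integral_const_mul]
  · have e1 : ∫ x, D x * gsm δ (up w h μ) x =
        Real.exp w * ∫ x, ∫ z, D x * Real.exp (-(x - h - z) ^ 2 / (2 * δ ^ 2)) ∂μ := by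
      rw [← integral_const_mul]
      refine integral_congr_ae (Filter.Eventually.of_forall fun x => ?_)
      show D x * gsm δ (up w h μ) x =
        Real.exp w * ∫ z, D x * Real.exp (-(x - h - z) ^ 2 / (2 * δ ^ 2)) ∂μ
      rw [gsm_up, integral_const_mul]
      unfold gsm
      ring
    have e2 : ∫ x, ∫ z, D x * Real.exp (-(x - h - z) ^ 2 / (2 * δ ^ 2)) ∂μ =
        ∫ z, (∫ x, D x * Real.exp (-(x - h - z) ^ 2 / (2 * δ ^ 2))) ∂μ := integral_integral_swap hI1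
    have e3 : ∀ z : ℝ, ∫ x, D x * Real.exp (-(x - h - z) ^ 2 / (2 * δ ^ 2)) =
        δ * ∫ s : ℝ, Real.exp (-s ^ 2 / 2) * D (z + (h + δ * s)) := by
      intro z
      set g : ℝ → ℝ := fun x => D x * Real.exp (-(x - h - z) ^ 2 / (2 * δ ^ 2)) with hg
      have h1 : ∫ x, g x = ∫ x, g (x + (z + h)) := (integral_add_right_eq_self g (z + h)).symm
      have h2 : ∫ s, (fun x => g (x + (z + h))) (δ * s) = |δ⁻¹| • ∫ x, g (x + (z + h)) :=
        Measure.integral_comp_mul_left (fun x => g (x + (z + h))) δ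
      have h3 : (fun s => (fun x => g (x + (z + h))) (δ * s)) = fun s => Real.exp (-s ^ 2 / 2) * D (z + (h + δ * s)) := by
        funext s
        simp only [hg]
        have h4 : -(δ * s + (z + h) - h - z) ^ 2 / (2 * δ ^ 2) = -s ^ 2 / 2 := by
          field_simp
          ring
        rw [h4, show δ * s + (z + h) = z + (h + δ * s) by ring]
        ring
      rw [h3, abs_of_pos (inv_pos.2 hδ), smul_eq_mul] at h2
      rw [h1, h2, ← mul_assoc, mul_inv_cancel₀ hδ.ne', one_mul]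
    have e4 : ∫ z, (∫ s : ℝ, Real.exp (-s ^ 2 / 2) * D (z + (h + δ * s))) ∂μ =
        ∫ s : ℝ, (∫ z, Real.exp (-s ^ 2 / 2) * D (z + (h + δ * s)) ∂μ) := (integral_integral_swap hI2).symm
    rw [e1, e2]
    simp only [e3]
    rw [integral_const_mul, e4]
    simp only [integral_const_mul]
    ring

theorem slot {σ a1 b1 a2 b2 : ℝ} (E A : ℝ) (hσ : 0 < σ) (hσ1 : σ ≤ 1) (ha1 : a1 ≠ 0) (ha2 : a2 ≠ 0)
    (hd : a1 * b2 - a2 * b1 ≠ 0) : ∃ w0 : ℝ, 1 ≤ w0 ∧
    ∀ w c δ h : ℝ, w0 ≤ w → |c - w| ≤ E → Real.exp (-w - E) ≤ δ → δ ≤ Real.exp (-w + E) →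
    ∀ (μ1 μ2 : Measure ℝ) (K : ℝ → ℝ), Adm δ (w ^ E) μ1 → Adm δ (w ^ E) μ2 → AdmK (w ^ E) K →
    |(∫ x, DD δ μ1 μ2 K a1 b1 a2 b2 x * gsm δ (up w h (muP σ c)) x) -
      ∫ x, DD δ μ1 μ2 K a1 b1 a2 b2 x * gsm δ (up w h (muL σ c)) x| ≤ w ^ (-A) := by
  obtain ⟨w1, hw1, hot⟩ := ot E (A + 1) hσ hσ1 ha1 ha2 hd
  refine ⟨max w1 (3 * Real.exp E), le_max_of_le_left hw1, ?_⟩
  intro w c δ h hw hc hδ1 hδ2 μ1 μ2 K h1 h2 hK
  have hww1 : w1 ≤ w := (le_max_left _ _).trans hw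
  have hwE : 3 * Real.exp E ≤ w := (le_max_right _ _).trans hw
  have hw0 : 0 < w := by linarith
  have hδ : 0 < δ := (Real.exp_pos _).trans_le hδ1
  obtain ⟨C, -, hmass⟩ := muP_mass
  have fP : IsFiniteMeasure (muP σ c) := (hmass σ c hσ hσ1).1
  have fL : IsFiniteMeasure (muL σ c) := (muL_fin hσ c).1
  have hDc := dd_cont h1 h2 hK a1 b1 a2 b2
  have hwE0 : 0 ≤ w ^ E := (Real.rpow_pos_of_pos hw0 E).le
  have hDb := dd_bound hwE0 h1 h2 hK a1 b1 a2 b2
  obtain ⟨iP, eP⟩ := slot_id hδ w h (muP σ c) hDc hDb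
  obtain ⟨iL, eL⟩ := slot_id hδ w h (muL σ c) hDc hDb
  rw [eP, eL, ← mul_sub, ← integral_sub iP iL]
  have hG : Integrable (fun s : ℝ => Real.exp (-s ^ 2 / 2)) := by
    have := integrable_exp_neg_mul_sq (by norm_num : (0 : ℝ) < 1 / 2)
    refine this.congr (Filter.Eventually.of_forall fun s => ?_)
    show Real.exp (-(1 / 2) * s ^ 2) = Real.exp (-s ^ 2 / 2)
    congr 1
    ring
  have hGv : ∫ s : ℝ, Real.exp (-s ^ 2 / 2) = Real.sqrt (2 * Real.pi) := by
    have e0 : (fun s : ℝ => Real.exp (-s ^ 2 / 2)) = fun s : ℝ => Real.exp (-(1 / 2) * s ^ 2) := by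
      funext s
      congr 1
      ring
    rw [e0, integral_gaussian]
    congr 1
    ring
  have hpt : ∀ s : ℝ, ‖Real.exp (-s ^ 2 / 2) * (∫ z, DD δ μ1 μ2 K a1 b1 a2 b2 (z + (h + δ * s)) ∂(muP σ c)) -
      Real.exp (-s ^ 2 / 2) * ∫ z, DD δ μ1 μ2 K a1 b1 a2 b2 (z + (h + δ * s)) ∂(muL σ c)‖ ≤
      Real.exp (-s ^ 2 / 2) * w ^ (-(A + 1)) := by
    intro s
    rw [← mul_sub, norm_mul, Real.norm_eq_abs, Real.norm_eq_abs, abs_of_pos (Real.exp_pos _)]
    refine mul_le_mul_of_nonneg_left ?_ (Real.exp_pos _).le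
    simp only [dd_shift]
    exact hot w c δ hww1 hc hδ1 hδ2 _ _ K (adm_map h1 _) (adm_map h2 _) hK
  have hfin := norm_integral_le_of_norm_le (hG.mul_const (w ^ (-(A + 1)))) (Filter.Eventually.of_forall hpt)
  rw [integral_mul_const, hGv, Real.norm_eq_abs] at hfin
  rw [abs_mul, abs_of_pos (mul_pos hδ (Real.exp_pos w))]
  have hδw : δ * Real.exp w ≤ Real.exp E := by
    calc δ * Real.exp w ≤ Real.exp (-w + E) * Real.exp w := mul_le_mul_of_nonneg_right hδ2 (Real.exp_pos _).le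
      _ = Real.exp E := by rw [← Real.exp_add]; congr 1; ring
  have hs3 : Real.sqrt (2 * Real.pi) ≤ 3 := by
    rw [show (3 : ℝ) = Real.sqrt 9 by rw [show (9 : ℝ) = 3 ^ 2 by norm_num, Real.sqrt_sq (by norm_num)]]
    apply Real.sqrt_le_sqrt
    have := Real.pi_lt_d2
    linarith
  have hwA : 0 < w ^ (-(A + 1)) := Real.rpow_pos_of_pos hw0 _
  have hwA1 : w ^ (-(A + 1)) * w = w ^ (-A) := by
    nth_rewrite 2 [← Real.rpow_one w]
    rw [← Real.rpow_add hw0]
    congr 1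
    ring
  calc δ * Real.exp w * |∫ s : ℝ, (Real.exp (-s ^ 2 / 2) * (∫ z, DD δ μ1 μ2 K a1 b1 a2 b2 (z + (h + δ * s)) ∂(muP σ c)) -
        Real.exp (-s ^ 2 / 2) * ∫ z, DD δ μ1 μ2 K a1 b1 a2 b2 (z + (h + δ * s)) ∂(muL σ c))|
      ≤ Real.exp E * (Real.sqrt (2 * Real.pi) * w ^ (-(A + 1))) :=
        mul_le_mul hδw hfin (abs_nonneg _) (Real.exp_pos _).le
    _ ≤ Real.exp E * (3 * w ^ (-(A + 1))) := by
        refine mul_le_mul_of_nonneg_left ?_ (Real.exp_pos _).le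
        exact mul_le_mul_of_nonneg_right hs3 hwA.le
    _ = (3 * Real.exp E) * w ^ (-(A + 1)) := by ring
    _ ≤ w * w ^ (-(A + 1)) := mul_le_mul_of_nonneg_right hwE hwA.le
    _ = w ^ (-A) := by rw [mul_comm]; exact hwA1

end HLA
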