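import Pool.Agent.HLA.Gsm
import Pool.Agent.ASI.Planch

/-!
# HLA.Smp: replacing one measure by another one in a bilinear integral

PROOF. `H' t = ∫ exp(-2(t-m)²/δ²) dlam(m)`, `F^(τ) = ∫ F(z) exp(-iτz) dz`. Since `∫ exp(-2(x-t)²/δ²) exp(-2t²/δ²) dt = (δ√π/2) exp(-x²/δ²)`:
`exp(-(rz+su-m)²/δ²) = (2/(√π δ)) ∫ exp(-2(t-m)²/δ²) exp(-2(t-rz-su)²/δ²) dt`. So (Fubini) the difference is
`(2/(√π δ)) ∫ H'(t) S(t) dt`, `S(t) = gsm (δ/2) κ1 t - gsm (δ/2) κ2 t`, where `κ1`, `κ2` are the images of `(F dz) ⊗ ν`, `(F dz) ⊗ ρ` under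
`(z, u) ↦ r z + s u` (`F dz` = `volume.withDensity (ENNReal.ofReal ∘ F)`). Cauchy-Schwarz in `t`.
(1) `H' ≤ B2` (as `exp(-2x²/δ²) ≤ exp(-x²/δ²)`), `∫ H' = √(π/2) δ lam(univ) ≤ √(π/2) B2`: `∫ H'² ≤ √(π/2) B2²`.
(2) `ASI.planch` (with `δ/2`; note `(x - u)² = (u - x)²`): `∫ S² = (δ²/4) ∫ exp(-δ²τ²/4) |cf κ1 τ - cf κ2 τ|² dτ`, `cf κ1 τ = F^(rτ) cf ν (sτ)`, so the integrand is at
most `exp(-δ²τ²/8) |F^(rτ)|² (ε² + 4 B3² exp(-(δT)²/(8s²)))`: for `|sτ| ≤ T` use the hypothesis, for `|sτ| > T` use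
`exp(-δ²τ²/4) ≤ exp(-δ²τ²/8) exp(-(δT)²/(8s²))` and `‖cf‖ ≤ B3`.
(3) `∫ exp(-δ²τ²/8) |F^(rτ)|² dτ ≤ 2π B1²/|r|`: `ASI.planch` with the image `κ` of `F dz` under `z ↦ r z`, `μ2 = 0`, `δ' = δ/(2√2)`:
`δ'² ∫ exp(-δ'²τ²) |F^(rτ)|² = ∫ (gsm δ' κ)² ≤ (sup gsm δ' κ) ∫ gsm δ' κ ≤ (B1 √(2π) δ'/|r|) (√(2π) δ' B1)`.
Together `|difference| ≤ (2/(√π δ)) (√(π/2))^(1/2) B2 (δ/2) (2π/|r|)^(1/2) B1 (ε + 2 B3 exp(-(δT)²/(16 s²)))`.
(The integrability of the left side of `planch` is `ASI.planch_int`; the integrability of the right side is needed for the comparison in (2): it is bounded by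
`C exp(-δ²τ²/8)`, continuous.)
-/

namespace HLA

open MeasureTheory SMC

private theorem smp_A1 {δ : ℝ} (hδ : 0 < δ) (x y : ℝ) :
    Integrable (fun u : ℝ => Real.exp (-(u - x) ^ 2 / (2 * δ ^ 2)) *
      Real.exp (-(u - y) ^ 2 / (2 * δ ^ 2))) ∧
    ∫ u : ℝ, Real.exp (-(u - x) ^ 2 / (2 * δ ^ 2)) * Real.exp (-(u - y) ^ 2 / (2 * δ ^ 2)) =
      δ * Real.sqrt Real.pi * Real.exp (-(x - y) ^ 2 / (4 * δ ^ 2)) := by
  have e1 : (fun u : ℝ => Real.exp (-(u - x) ^ 2 / (2 * δ ^ 2)) *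
      Real.exp (-(u - y) ^ 2 / (2 * δ ^ 2))) =
      fun u : ℝ => Real.exp (-(1 / δ ^ 2) * (u - (x + y) / 2) ^ 2) *
        Real.exp (-(x - y) ^ 2 / (4 * δ ^ 2)) := by
    funext u
    rw [← Real.exp_add, ← Real.exp_add]
    congr 1
    field_simp
    ring
  have hb : (0 : ℝ) < 1 / δ ^ 2 := by positivity
  rw [e1]
  constructor
  · exact ((integrable_exp_neg_mul_sq hb).comp_sub_right ((x + y) / 2)).mul_const _
  · rw [integral_mul_const, integral_sub_right_eq_self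
      (fun u : ℝ => Real.exp (-(1 / δ ^ 2) * u ^ 2)) ((x + y) / 2), integral_gaussian]
    congr 1
    rw [show Real.pi / (1 / δ ^ 2) = δ ^ 2 * Real.pi by field_simp,
      Real.sqrt_mul (by positivity), Real.sqrt_sq hδ.le]

private theorem smp_A2 (μ ν : Measure ℝ) [IsFiniteMeasure μ] [IsFiniteMeasure ν] {δ : ℝ}
    (hδ : 0 < δ) :
    Integrable (fun p : ℝ × (ℝ × ℝ) => Real.exp (-(p.1 - p.2.1) ^ 2 / (2 * δ ^ 2)) *
      Real.exp (-(p.1 - p.2.2) ^ 2 / (2 * δ ^ 2))) (volume.prod (μ.prod ν)) := by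
  have hm : AEStronglyMeasurable (fun p : ℝ × (ℝ × ℝ) =>
      Real.exp (-(p.1 - p.2.1) ^ 2 / (2 * δ ^ 2)) *
      Real.exp (-(p.1 - p.2.2) ^ 2 / (2 * δ ^ 2))) (volume.prod (μ.prod ν)) := by
    apply Continuous.aestronglyMeasurable
    fun_prop
  rw [integrable_prod_iff' hm]
  refine ⟨Filter.Eventually.of_forall (fun z => (smp_A1 hδ z.1 z.2).1), ?_⟩
  have e1 : (fun z : ℝ × ℝ => ∫ u : ℝ, ‖Real.exp (-(u - z.1) ^ 2 / (2 * δ ^ 2)) *
      Real.exp (-(u - z.2) ^ 2 / (2 * δ ^ 2))‖) =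
      fun z => δ * Real.sqrt Real.pi * Real.exp (-(z.1 - z.2) ^ 2 / (4 * δ ^ 2)) := by
    funext z
    rw [← (smp_A1 hδ z.1 z.2).2]
    refine integral_congr_ae (Filter.Eventually.of_forall (fun u => ?_))
    simp only
    rw [Real.norm_of_nonneg (by positivity)]
  show Integrable (fun z : ℝ × ℝ => ∫ u : ℝ, ‖Real.exp (-(u - z.1) ^ 2 / (2 * δ ^ 2)) *
      Real.exp (-(u - z.2) ^ 2 / (2 * δ ^ 2))‖) (μ.prod ν)
  rw [e1]
  refine Integrable.of_bound (C := δ * Real.sqrt Real.pi) ?_ ?_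
  · apply Continuous.aestronglyMeasurable
    fun_prop
  · refine Filter.Eventually.of_forall (fun z => ?_)
    rw [Real.norm_of_nonneg (by positivity)]
    have h1 : Real.exp (-(z.1 - z.2) ^ 2 / (4 * δ ^ 2)) ≤ 1 := by
      rw [Real.exp_le_one_iff]
      apply div_nonpos_of_nonpos_of_nonneg
      · nlinarith [sq_nonneg (z.1 - z.2)]
      · positivity
    calc δ * Real.sqrt Real.pi * Real.exp (-(z.1 - z.2) ^ 2 / (4 * δ ^ 2))
        ≤ δ * Real.sqrt Real.pi * 1 := mul_le_mul_of_nonneg_left h1 (by positivity)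
      _ = _ := by ring

/-- The product of two smoothings. -/
private theorem smp_pair (μ ν : Measure ℝ) [IsFiniteMeasure μ] [IsFiniteMeasure ν] {δ : ℝ}
    (hδ : 0 < δ) :
    Integrable (fun u : ℝ => gsm δ μ u * gsm δ ν u) ∧
    ∫ u : ℝ, gsm δ μ u * gsm δ ν u =
      δ * Real.sqrt Real.pi * ∫ y, (∫ x, Real.exp (-(y - x) ^ 2 / (4 * δ ^ 2)) ∂μ) ∂ν := by
  have e1 : (fun u : ℝ => gsm δ μ u * gsm δ ν u) =
      fun u : ℝ => ∫ z : ℝ × ℝ, Real.exp (-(u - z.1) ^ 2 / (2 * δ ^ 2)) *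
        Real.exp (-(u - z.2) ^ 2 / (2 * δ ^ 2)) ∂(μ.prod ν) := by
    funext u
    exact (integral_prod_mul (fun x : ℝ => Real.exp (-(u - x) ^ 2 / (2 * δ ^ 2)))
      (fun x : ℝ => Real.exp (-(u - x) ^ 2 / (2 * δ ^ 2)))).symm
  have h2 := smp_A2 μ ν hδ
  rw [e1]
  refine ⟨h2.integral_prod_left, ?_⟩
  have h3 := integral_integral_swap (f := fun (u : ℝ) (z : ℝ × ℝ) =>
    Real.exp (-(u - z.1) ^ 2 / (2 * δ ^ 2)) * Real.exp (-(u - z.2) ^ 2 / (2 * δ ^ 2)))
    (μ := volume) (ν := μ.prod ν) h2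
  rw [h3]
  have h4 : ∀ z : ℝ × ℝ, ∫ u : ℝ, Real.exp (-(u - z.1) ^ 2 / (2 * δ ^ 2)) *
      Real.exp (-(u - z.2) ^ 2 / (2 * δ ^ 2)) =
      δ * Real.sqrt Real.pi * Real.exp (-(z.1 - z.2) ^ 2 / (4 * δ ^ 2)) := fun z => (smp_A1 hδ z.1 z.2).2
  simp only [h4]
  rw [integral_const_mul]
  congr 1
  have hI : Integrable (fun z : ℝ × ℝ => Real.exp (-(z.1 - z.2) ^ 2 / (4 * δ ^ 2))) (μ.prod ν) := by
    refine Integrable.of_bound (C := 1) ?_ ?_
    · apply Continuous.aestronglyMeasurable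
      fun_prop
    · refine Filter.Eventually.of_forall (fun z => ?_)
      rw [Real.norm_of_nonneg (by positivity), Real.exp_le_one_iff]
      apply div_nonpos_of_nonpos_of_nonneg
      · nlinarith [sq_nonneg (z.1 - z.2)]
      · positivity
  rw [integral_prod_symm _ hI]
  refine integral_congr_ae (Filter.Eventually.of_forall (fun y => ?_))
  refine integral_congr_ae (Filter.Eventually.of_forall (fun x => ?_))
  simp only
  rw [show (x - y) ^ 2 = (y - x) ^ 2 by ring]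

/-- Plancherel for the smoothings. -/
private theorem smp_planch (μ1 μ2 : Measure ℝ) [IsFiniteMeasure μ1] [IsFiniteMeasure μ2] {δ : ℝ} (hδ : 0 < δ) :
    Integrable (fun u : ℝ => (gsm δ μ1 u - gsm δ μ2 u) ^ 2) ∧
    ∫ u : ℝ, (gsm δ μ1 u - gsm δ μ2 u) ^ 2 =
    δ ^ 2 * ∫ τ : ℝ, Real.exp (-(δ ^ 2 * τ ^ 2)) * ‖cf μ1 τ - cf μ2 τ‖ ^ 2 := by
  have hg : ∀ (μ : Measure ℝ) (u : ℝ), ∫ x, Real.exp (-(x - u) ^ 2 / (2 * δ ^ 2)) ∂μ = gsm δ μ u := by
    intro μ u
    unfold gsm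
    refine integral_congr_ae (Filter.Eventually.of_forall (fun x => ?_))
    simp only
    rw [show (x - u) ^ 2 = (u - x) ^ 2 by ring]
  have h1 := ASI.planch μ1 μ2 hδ
  have h2 := ASI.planch_int μ1 μ2 hδ
  simp only [hg] at h1 h2
  exact ⟨h2, h1⟩

/-- The Fourier transform of the image of a product measure. -/
private theorem smp_cf (φ ν : Measure ℝ) [IsFiniteMeasure φ] [IsFiniteMeasure ν] (r s τ : ℝ) :
    cf ((φ.prod ν).map fun p : ℝ × ℝ => r * p.1 + s * p.2) τ = cf φ (r * τ) * cf ν (s * τ) := by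
  have hm : Measurable fun p : ℝ × ℝ => r * p.1 + s * p.2 := by fun_prop
  unfold cf
  rw [integral_map hm.aemeasurable (by
    apply Continuous.aestronglyMeasurable
    fun_prop)]
  rw [← integral_prod_mul (fun x : ℝ => Complex.exp (-(((r * τ : ℝ) : ℂ) * x * Complex.I)))
    (fun x : ℝ => Complex.exp (-(((s * τ : ℝ) : ℂ) * x * Complex.I)))]
  refine integral_congr_ae (Filter.Eventually.of_forall (fun p => ?_))
  simp only
  rw [← Complex.exp_add]
  congr 1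
  push_cast
  ring

/-- The measure with the density `F`. -/
private noncomputable def phF (F : ℝ → ℝ) : Measure ℝ := volume.withDensity fun z => ENNReal.ofReal (F z)

private theorem phF_fin {F : ℝ → ℝ} (h0 : ∀ z, 0 ≤ F z) (hI : Integrable F) :
    IsFiniteMeasure (phF F) ∧ (phF F Set.univ).toReal = ∫ z, F z := by
  have h1 : phF F Set.univ = ENNReal.ofReal (∫ z, F z) := by
    unfold phF
    rw [withDensity_apply _ MeasurableSet.univ, Measure.restrict_univ,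
      ofReal_integral_eq_lintegral_ofReal hI (Filter.Eventually.of_forall h0)]
  constructor
  · constructor
    rw [h1]
    exact ENNReal.ofReal_lt_top
  · rw [h1, ENNReal.toReal_ofReal (integral_nonneg h0)]

private theorem phF_int {F : ℝ → ℝ} (hF : Measurable F) (h0 : ∀ z, 0 ≤ F z) (g : ℝ → ℝ) :
    ∫ z, g z ∂(phF F) = ∫ z, F z * g z := by
  unfold phF
  rw [integral_withDensity_eq_integral_toReal_smul (by fun_prop)
    (Filter.Eventually.of_forall fun z => ENNReal.ofReal_lt_top)]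
  refine integral_congr_ae (Filter.Eventually.of_forall (fun z => ?_))
  simp only
  rw [ENNReal.toReal_ofReal (h0 z), smul_eq_mul]

private theorem phF_cf {F : ℝ → ℝ} (h0 : ∀ z, 0 ≤ F z) (hI : Integrable F) {B1 : ℝ} (hi : ∫ z, F z ≤ B1) (t : ℝ) :
    ‖cf (phF F) t‖ ≤ B1 := by
  obtain ⟨h1, h2⟩ := phF_fin h0 hI
  refine (cf_norm_le (phF F) t).trans ?_
  rw [h2]
  exact hi

private theorem smp_zero (δ : ℝ) (u : ℝ) : gsm δ (0 : Measure ℝ) u = 0 := by
  unfold gsm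
  rw [integral_zero_measure]

private theorem cf_zero' (t : ℝ) : cf (0 : Measure ℝ) t = 0 := by
  unfold cf
  rw [integral_zero_measure]

/-- Part (3) of the proof. -/
private theorem smp_F {r : ℝ} (hr : r ≠ 0) {δ B1 : ℝ} (hδ : 0 < δ) (hB1 : 0 ≤ B1) {F : ℝ → ℝ} (hF : Measurable F)
    (h0 : ∀ z, 0 ≤ F z) (hb : ∀ z, F z ≤ B1) (hI : Integrable F) (hi : ∫ z, F z ≤ B1) :
    ∫ τ : ℝ, Real.exp (-(δ ^ 2 * τ ^ 2)) * ‖cf (phF F) (r * τ)‖ ^ 2 ≤ 2 * Real.pi * B1 ^ 2 / |r| := by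
  obtain ⟨f1, f2⟩ := phF_fin h0 hI
  have hm : Measurable fun z : ℝ => r * z := by fun_prop
  have hr' : 0 < |r| := abs_pos.mpr hr
  have k1 : IsFiniteMeasure ((phF F).map fun z : ℝ => r * z) := inferInstance
  have hcf : ∀ τ, cf ((phF F).map fun z : ℝ => r * z) τ = cf (phF F) (r * τ) := by
    intro τ
    unfold cf
    rw [integral_map hm.aemeasurable (by
      apply Continuous.aestronglyMeasurable
      fun_prop)]
    refine integral_congr_ae (Filter.Eventually.of_forall (fun p => ?_))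
    simp only
    congr 1
    push_cast
    ring
  have hmass : (((phF F).map fun z : ℝ => r * z) Set.univ).toReal ≤ B1 := by
    rw [Measure.map_apply hm MeasurableSet.univ, Set.preimage_univ, f2]
    exact hi
  have hsup : ∀ u, gsm δ ((phF F).map fun z : ℝ => r * z) u ≤ B1 * (Real.sqrt (2 * Real.pi) * δ / |r|) := by
    intro u
    have e1 : gsm δ ((phF F).map fun z : ℝ => r * z) u = ∫ z, F z * WW δ u (r * z) := by
      unfold gsm
      rw [integral_map hm.aemeasurable (by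
        apply Continuous.aestronglyMeasurable
        fun_prop), phF_int hF h0]
      refine integral_congr_ae (Filter.Eventually.of_forall (fun z => ?_))
      simp only
      unfold WW
      rw [show (u - r * z) ^ 2 = (r * z - u) ^ 2 by ring]
    have e2 : ∫ z, WW δ u (r * z) = Real.sqrt (2 * Real.pi) * δ / |r| := by
      rw [Measure.integral_comp_mul_left (WW δ u) r, (WW_int hδ u).2, smul_eq_mul, abs_inv]
      field_simp
    have e3 : Integrable fun z : ℝ => WW δ u (r * z) := (WW_int hδ u).1.comp_mul_left' hr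
    rw [e1, ← e2, ← integral_const_mul]
    refine integral_mono_of_nonneg (Filter.Eventually.of_forall fun z => mul_nonneg (h0 z) (WW_nonneg _ _ _))
      (e3.const_mul B1) (Filter.Eventually.of_forall fun z => ?_)
    exact mul_le_mul_of_nonneg_right (hb z) (WW_nonneg _ _ _)
  obtain ⟨g1, g2⟩ := gsm_int hδ ((phF F).map fun z : ℝ => r * z)
  obtain ⟨p1, p2⟩ := smp_planch ((phF F).map fun z : ℝ => r * z) 0 hδ
  simp only [smp_zero, cf_zero', sub_zero, hcf] at p1 p2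
  have h5 : ∫ u : ℝ, gsm δ ((phF F).map fun z : ℝ => r * z) u ^ 2 ≤
      B1 * (Real.sqrt (2 * Real.pi) * δ / |r|) * (Real.sqrt (2 * Real.pi) * δ * B1) := by
    calc ∫ u : ℝ, gsm δ ((phF F).map fun z : ℝ => r * z) u ^ 2
        ≤ ∫ u : ℝ, B1 * (Real.sqrt (2 * Real.pi) * δ / |r|) * gsm δ ((phF F).map fun z : ℝ => r * z) u := by
          refine integral_mono_of_nonneg (Filter.Eventually.of_forall fun u => sq_nonneg _)
            (g1.const_mul _) (Filter.Eventually.of_forall fun u => ?_)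
          simp only
          rw [sq]
          exact mul_le_mul_of_nonneg_right (hsup u) (gsm_nonneg _ _ _)
      _ = B1 * (Real.sqrt (2 * Real.pi) * δ / |r|) * ∫ u : ℝ, gsm δ ((phF F).map fun z : ℝ => r * z) u :=
          integral_const_mul _ _
      _ ≤ _ := by
          rw [g2]
          refine mul_le_mul_of_nonneg_left ?_ (by positivity)
          exact mul_le_mul_of_nonneg_left hmass (by positivity)
  rw [p2] at h5
  have h6 : B1 * (Real.sqrt (2 * Real.pi) * δ / |r|) * (Real.sqrt (2 * Real.pi) * δ * B1) =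
      δ ^ 2 * (2 * Real.pi * B1 ^ 2 / |r|) := by
    have h7 : Real.sqrt (2 * Real.pi) * Real.sqrt (2 * Real.pi) = 2 * Real.pi :=
      Real.mul_self_sqrt (by positivity)
    calc B1 * (Real.sqrt (2 * Real.pi) * δ / |r|) * (Real.sqrt (2 * Real.pi) * δ * B1)
        = (Real.sqrt (2 * Real.pi) * Real.sqrt (2 * Real.pi)) * (δ ^ 2 * B1 ^ 2 / |r|) := by ring
      _ = _ := by rw [h7]; ring
  rw [h6] at h5
  exact le_of_mul_le_mul_left h5 (by positivity)

/-- Part (2) of the proof. -/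
private theorem smp_S {r s : ℝ} (hr : r ≠ 0) (hs : s ≠ 0) {δ T B1 B3 ε : ℝ} (hδ : 0 < δ) (hT : 0 ≤ T) (hB1 : 0 ≤ B1)
    (hB3 : 0 ≤ B3) (hε : 0 ≤ ε) {F : ℝ → ℝ} (hF : Measurable F)
    (h0 : ∀ z, 0 ≤ F z) (hb : ∀ z, F z ≤ B1) (hI : Integrable F) (hi : ∫ z, F z ≤ B1) (ν ρ : Measure ℝ)
    [IsFiniteMeasure ν] [IsFiniteMeasure ρ] (hν : (ν Set.univ).toReal ≤ B3) (hρ : (ρ Set.univ).toReal ≤ B3)
    (h : ∀ τ : ℝ, |τ| ≤ T → ‖cf ν τ - cf ρ τ‖ ≤ ε) :
    ∫ τ : ℝ, Real.exp (-((δ / 2) ^ 2 * τ ^ 2)) *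
      ‖cf (phF F) (r * τ) * cf ν (s * τ) - cf (phF F) (r * τ) * cf ρ (s * τ)‖ ^ 2 ≤
    (ε + 2 * B3 * Real.exp (-(δ * T) ^ 2 / (16 * s ^ 2))) ^ 2 * (2 * Real.pi * B1 ^ 2 / |r|) := by
  obtain ⟨f1, f2⟩ := phF_fin h0 hI
  have hsq : (0 : ℝ) < Real.sqrt 8 := by positivity
  have hδ' : 0 < δ / Real.sqrt 8 := by positivity
  have h8 : (δ / Real.sqrt 8) ^ 2 = δ ^ 2 / 8 := by
    rw [div_pow, Real.sq_sqrt (by norm_num : (0 : ℝ) ≤ 8)]
  have h1 := smp_F hr hδ' hB1 hF h0 hb hI hi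
  rw [h8] at h1
  set E : ℝ := Real.exp (-(δ * T) ^ 2 / (16 * s ^ 2)) with hE
  have hE0 : 0 < E := Real.exp_pos _
  have hcc : Continuous fun τ : ℝ => cf (phF F) (r * τ) := (cf_cont (phF F)).comp (by fun_prop)
  have hgI : Integrable fun τ : ℝ => Real.exp (-(δ ^ 2 / 8 * τ ^ 2)) * ‖cf (phF F) (r * τ)‖ ^ 2 := by
    have hg : Integrable (fun τ : ℝ => Real.exp (-(δ ^ 2 / 8 * τ ^ 2))) := by
      have := integrable_exp_neg_mul_sq (by positivity : (0 : ℝ) < δ ^ 2 / 8)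
      simpa only [neg_mul] using this
    refine (hg.mul_const (B1 ^ 2)).mono' ?_ ?_
    · apply Continuous.aestronglyMeasurable
      exact (by fun_prop : Continuous fun τ : ℝ => Real.exp (-(δ ^ 2 / 8 * τ ^ 2))).mul (hcc.norm.pow 2)
    · refine Filter.Eventually.of_forall fun τ => ?_
      rw [Real.norm_of_nonneg (by positivity)]
      refine mul_le_mul_of_nonneg_left ?_ (Real.exp_pos _).le
      exact pow_le_pow_left₀ (norm_nonneg _) (phF_cf h0 hI hi _) 2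
  have hmul : (ε + 2 * B3 * E) ^ 2 * (∫ τ : ℝ, Real.exp (-(δ ^ 2 / 8 * τ ^ 2)) * ‖cf (phF F) (r * τ)‖ ^ 2) ≤
      (ε + 2 * B3 * E) ^ 2 * (2 * Real.pi * B1 ^ 2 / |r|) :=
    mul_le_mul_of_nonneg_left h1 (sq_nonneg _)
  refine le_trans ?_ hmul
  rw [← integral_const_mul]
  refine integral_mono_of_nonneg (Filter.Eventually.of_forall fun τ => by positivity)
    (hgI.const_mul _) (Filter.Eventually.of_forall fun τ => ?_)
  simp only
  rw [← mul_sub, norm_mul, mul_pow]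
  have hsplit : Real.exp (-((δ / 2) ^ 2 * τ ^ 2)) =
      Real.exp (-(δ ^ 2 / 8 * τ ^ 2)) * Real.exp (-(δ ^ 2 / 16 * τ ^ 2)) ^ 2 := by
    rw [← Real.exp_nat_mul, ← Real.exp_add]
    congr 1
    push_cast
    ring
  have hle : Real.exp (-(δ ^ 2 / 16 * τ ^ 2)) * ‖cf ν (s * τ) - cf ρ (s * τ)‖ ≤ ε + 2 * B3 * E := by
    rcases le_or_gt |s * τ| T with hc | hc
    · have h3 := h _ hc
      have h4 : Real.exp (-(δ ^ 2 / 16 * τ ^ 2)) ≤ 1 := by
        rw [Real.exp_le_one_iff]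
        have : 0 ≤ δ ^ 2 / 16 * τ ^ 2 := by positivity
        linarith
      have h5 : 0 ≤ 2 * B3 * E := by positivity
      calc Real.exp (-(δ ^ 2 / 16 * τ ^ 2)) * ‖cf ν (s * τ) - cf ρ (s * τ)‖ ≤ 1 * ε :=
            mul_le_mul h4 h3 (norm_nonneg _) zero_le_one
        _ ≤ _ := by linarith
    · have h3 : ‖cf ν (s * τ) - cf ρ (s * τ)‖ ≤ 2 * B3 := by
        refine (norm_sub_le _ _).trans ?_
        have h4 := (cf_norm_le ν (s * τ)).trans hν
        have h5 := (cf_norm_le ρ (s * τ)).trans hρ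
        linarith
      have h4 : Real.exp (-(δ ^ 2 / 16 * τ ^ 2)) ≤ E := by
        rw [hE]
        apply Real.exp_le_exp.mpr
        have h5 : T ^ 2 ≤ s ^ 2 * τ ^ 2 := by
          rw [← mul_pow, ← sq_abs (s * τ)]
          exact pow_le_pow_left₀ hT hc.le 2
        have h6 : (δ * T) ^ 2 / (16 * s ^ 2) ≤ δ ^ 2 / 16 * τ ^ 2 := by
          rw [div_le_iff₀ (by positivity)]
          calc (δ * T) ^ 2 = δ ^ 2 * T ^ 2 := by ring
            _ ≤ δ ^ 2 * (s ^ 2 * τ ^ 2) := mul_le_mul_of_nonneg_left h5 (by positivity)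
            _ = _ := by ring
        rw [neg_div]
        linarith
      calc Real.exp (-(δ ^ 2 / 16 * τ ^ 2)) * ‖cf ν (s * τ) - cf ρ (s * τ)‖ ≤ E * (2 * B3) :=
            mul_le_mul h4 h3 (norm_nonneg _) hE0.le
        _ ≤ _ := by linarith
  rw [hsplit]
  calc Real.exp (-(δ ^ 2 / 8 * τ ^ 2)) * Real.exp (-(δ ^ 2 / 16 * τ ^ 2)) ^ 2 *
        (‖cf (phF F) (r * τ)‖ ^ 2 * ‖cf ν (s * τ) - cf ρ (s * τ)‖ ^ 2)
      = (Real.exp (-(δ ^ 2 / 16 * τ ^ 2)) * ‖cf ν (s * τ) - cf ρ (s * τ)‖) ^ 2 *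
        (Real.exp (-(δ ^ 2 / 8 * τ ^ 2)) * ‖cf (phF F) (r * τ)‖ ^ 2) := by ring
    _ ≤ (ε + 2 * B3 * E) ^ 2 * (Real.exp (-(δ ^ 2 / 8 * τ ^ 2)) * ‖cf (phF F) (r * τ)‖ ^ 2) := by
        refine mul_le_mul_of_nonneg_right ?_ (by positivity)
        exact pow_le_pow_left₀ (by positivity) hle 2

/-- Part (1) of the proof. -/
private theorem smp_H {δ B2 : ℝ} (hδ : 0 < δ) (hB2 : 0 ≤ B2) (lam : Measure ℝ) [IsFiniteMeasure lam]
    (h : ∀ x, ∫ m, Real.exp (-(x - m) ^ 2 / δ ^ 2) ∂lam ≤ B2) (hm : δ * (lam Set.univ).toReal ≤ B2) :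
    Integrable (fun t => gsm (δ / 2) lam t ^ 2) ∧
    ∫ t, gsm (δ / 2) lam t ^ 2 ≤ Real.sqrt (2 * Real.pi) / 2 * B2 ^ 2 := by
  have hsup : ∀ t, gsm (δ / 2) lam t ≤ B2 := by
    intro t
    refine le_trans ?_ (h t)
    unfold gsm
    have hI : Integrable (fun m => Real.exp (-(t - m) ^ 2 / δ ^ 2)) lam := by
      refine Integrable.mono' (integrable_const (1 : ℝ)) ?_ ?_
      · apply Continuous.aestronglyMeasurable
        fun_prop
      · refine Filter.Eventually.of_forall fun x => ?_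
        rw [Real.norm_eq_abs, abs_of_pos (Real.exp_pos _), Real.exp_le_one_iff]
        exact div_nonpos_of_nonpos_of_nonneg (neg_nonpos.mpr (sq_nonneg _)) (by positivity)
    refine integral_mono_of_nonneg (Filter.Eventually.of_forall fun m => (Real.exp_pos _).le) hI
      (Filter.Eventually.of_forall fun m => ?_)
    apply Real.exp_le_exp.mpr
    rw [neg_div, neg_div, neg_le_neg_iff, show 2 * (δ / 2) ^ 2 = δ ^ 2 / 2 by ring, div_div_eq_mul_div]
    have h1 : 0 ≤ (t - m) ^ 2 := sq_nonneg _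
    gcongr
    linarith
  obtain ⟨g1, g2⟩ := gsm_int (by positivity : (0 : ℝ) < δ / 2) lam
  have hle : ∀ t, gsm (δ / 2) lam t ^ 2 ≤ B2 * gsm (δ / 2) lam t := by
    intro t
    rw [sq]
    exact mul_le_mul_of_nonneg_right (hsup t) (gsm_nonneg _ _ _)
  constructor
  · refine (g1.const_mul B2).mono' ?_ ?_
    · exact ((gsm_cont (δ / 2) lam).pow 2).aestronglyMeasurable
    · refine Filter.Eventually.of_forall fun t => ?_
      rw [Real.norm_of_nonneg (sq_nonneg _)]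
      exact hle t
  · refine (integral_mono_of_nonneg (Filter.Eventually.of_forall fun t => sq_nonneg _) (g1.const_mul B2)
      (Filter.Eventually.of_forall hle)).trans ?_
    rw [integral_const_mul, g2]
    calc B2 * (Real.sqrt (2 * Real.pi) * (δ / 2) * (lam Set.univ).toReal)
        = Real.sqrt (2 * Real.pi) / 2 * B2 * (δ * (lam Set.univ).toReal) := by ring
      _ ≤ Real.sqrt (2 * Real.pi) / 2 * B2 * B2 := mul_le_mul_of_nonneg_left hm (by positivity)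
      _ = _ := by ring

/-- Cauchy-Schwarz. -/
private theorem smp_cs {f g : ℝ → ℝ} {A B : ℝ} (hA : 0 ≤ A) (hB : 0 ≤ B) (hf : Integrable fun t => f t ^ 2)
    (hg : Integrable fun t => g t ^ 2) (hfA : ∫ t, f t ^ 2 ≤ A ^ 2) (hgB : ∫ t, g t ^ 2 ≤ B ^ 2) :
    |∫ t, f t * g t| ≤ A * B := by
  have hη : ∀ η : ℝ, 0 < η → |∫ t, f t * g t| ≤ (A + η) * (B + η) := by
    intro η hη
    have hA' : 0 < A + η := by linarith
    have hB' : 0 < B + η := by linarith
    have h1 : |∫ t, f t * g t| ≤ ∫ t, ((B + η) / (2 * (A + η)) * f t ^ 2 + (A + η) / (2 * (B + η)) * g t ^ 2) := by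
      rw [← Real.norm_eq_abs]
      refine norm_integral_le_of_norm_le ((hf.const_mul _).add (hg.const_mul _)) (Filter.Eventually.of_forall fun t => ?_)
      rw [Real.norm_eq_abs, abs_le]
      have key : (B + η) / (2 * (A + η)) * f t ^ 2 + (A + η) / (2 * (B + η)) * g t ^ 2 =
          (((B + η) * f t) ^ 2 + ((A + η) * g t) ^ 2) / (2 * ((A + η) * (B + η))) := by
        field_simp
      have hpos : 0 < 2 * ((A + η) * (B + η)) := by positivity
      simp only [key]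
      constructor
      · rw [neg_le, ← sub_nonneg, ← neg_mul]
        have : (((B + η) * f t) ^ 2 + ((A + η) * g t) ^ 2) / (2 * ((A + η) * (B + η))) - -f t * g t =
          ((B + η) * f t + (A + η) * g t) ^ 2 / (2 * ((A + η) * (B + η))) := by
          field_simp
          ring
        rw [this]
        positivity
      · rw [← sub_nonneg]
        have : (((B + η) * f t) ^ 2 + ((A + η) * g t) ^ 2) / (2 * ((A + η) * (B + η))) - f t * g t =
          ((B + η) * f t - (A + η) * g t) ^ 2 / (2 * ((A + η) * (B + η))) := by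
          field_simp
          ring
        rw [this]
        positivity
    rw [integral_add (hf.const_mul _) (hg.const_mul _), integral_const_mul, integral_const_mul] at h1
    refine h1.trans ?_
    have h2 : (B + η) / (2 * (A + η)) * ∫ t, f t ^ 2 ≤ (B + η) / (2 * (A + η)) * (A + η) ^ 2 := by
      refine mul_le_mul_of_nonneg_left (hfA.trans ?_) (by positivity)
      exact pow_le_pow_left₀ hA (by linarith) 2
    have h3 : (A + η) / (2 * (B + η)) * ∫ t, g t ^ 2 ≤ (A + η) / (2 * (B + η)) * (B + η) ^ 2 := by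
      refine mul_le_mul_of_nonneg_left (hgB.trans ?_) (by positivity)
      exact pow_le_pow_left₀ hB (by linarith) 2
    have h4 : (B + η) / (2 * (A + η)) * (A + η) ^ 2 = (A + η) * (B + η) / 2 := by
      field_simp
    have h5 : (A + η) / (2 * (B + η)) * (B + η) ^ 2 = (A + η) * (B + η) / 2 := by
      field_simp
    linarith
  have hcont : Filter.Tendsto (fun η : ℝ => (A + η) * (B + η)) (nhdsWithin 0 (Set.Ioi 0)) (nhds (A * B)) := by
    have h1 : Continuous fun η : ℝ => (A + η) * (B + η) := by fun_prop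
    have h2 := h1.continuousWithinAt (s := Set.Ioi 0) (x := 0)
    unfold ContinuousWithinAt at h2
    simpa using h2
  exact ge_of_tendsto hcont (eventually_nhdsWithin_of_forall fun η h => hη η h)

/-- The formula with the smoothings. -/
private theorem smp_form {r s δ : ℝ} (hδ : 0 < δ) {F : ℝ → ℝ} (hF : Measurable F)
    (h0 : ∀ z, 0 ≤ F z) (hI : Integrable F) (lam ν : Measure ℝ) [IsFiniteMeasure lam] [IsFiniteMeasure ν] :
    ∫ u, (∫ z, F z * (∫ m, Real.exp (-(r * z + s * u - m) ^ 2 / δ ^ 2) ∂lam)) ∂ν =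
    2 / (δ * Real.sqrt Real.pi) *
      ∫ t, gsm (δ / 2) lam t * gsm (δ / 2) (((phF F).prod ν).map fun p : ℝ × ℝ => r * p.1 + s * p.2) t := by
  obtain ⟨f1, f2⟩ := phF_fin h0 hI
  have hm : Measurable fun p : ℝ × ℝ => r * p.1 + s * p.2 := by fun_prop
  have hH : Continuous fun x : ℝ => ∫ m, Real.exp (-(x - m) ^ 2 / δ ^ 2) ∂lam := by
    refine continuous_of_dominated (bound := fun _ => 1) ?_ ?_ (integrable_const (1 : ℝ)) ?_
    · intro y
      apply Continuous.aestronglyMeasurable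
      fun_prop
    · intro y
      refine Filter.Eventually.of_forall fun x => ?_
      rw [Real.norm_eq_abs, abs_of_pos (Real.exp_pos _), Real.exp_le_one_iff]
      exact div_nonpos_of_nonpos_of_nonneg (neg_nonpos.mpr (sq_nonneg _)) (by positivity)
    · refine Filter.Eventually.of_forall fun x => ?_
      fun_prop
  have hHb : ∀ x : ℝ, ‖∫ m, Real.exp (-(x - m) ^ 2 / δ ^ 2) ∂lam‖ ≤ (lam Set.univ).toReal := by
    intro x
    refine (norm_integral_le_of_norm_le (integrable_const (1 : ℝ)) (Filter.Eventually.of_forall fun m => ?_)).trans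
      (le_of_eq ?_)
    · rw [Real.norm_eq_abs, abs_of_pos (Real.exp_pos _), Real.exp_le_one_iff]
      exact div_nonpos_of_nonpos_of_nonneg (neg_nonpos.mpr (sq_nonneg _)) (by positivity)
    · rw [integral_const, smul_eq_mul, mul_one]
      rfl
  have h4 := (smp_pair lam (((phF F).prod ν).map fun p : ℝ × ℝ => r * p.1 + s * p.2)
    (by positivity : (0 : ℝ) < δ / 2)).2
  rw [show 4 * (δ / 2) ^ 2 = δ ^ 2 by ring] at h4
  rw [integral_map hm.aemeasurable hH.aestronglyMeasurable] at h4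
  have h5 : Integrable (fun p : ℝ × ℝ => ∫ m, Real.exp (-(r * p.1 + s * p.2 - m) ^ 2 / δ ^ 2) ∂lam)
      ((phF F).prod ν) := by
    refine Integrable.of_bound (C := (lam Set.univ).toReal) ?_ (Filter.Eventually.of_forall fun p => hHb _)
    exact (hH.comp (by fun_prop : Continuous fun p : ℝ × ℝ => r * p.1 + s * p.2)).aestronglyMeasurable
  rw [integral_prod_symm _ h5] at h4
  have h6 : ∀ u : ℝ, ∫ z, (∫ m, Real.exp (-(r * z + s * u - m) ^ 2 / δ ^ 2) ∂lam) ∂(phF F) =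
      ∫ z, F z * (∫ m, Real.exp (-(r * z + s * u - m) ^ 2 / δ ^ 2) ∂lam) := fun u => phF_int hF h0 _
  simp only [h6] at h4
  have hpi : 0 < Real.sqrt Real.pi := Real.sqrt_pos.mpr Real.pi_pos
  rw [h4, ← mul_assoc]
  have h7 : 2 / (δ * Real.sqrt Real.pi) * (δ / 2 * Real.sqrt Real.pi) = 1 := by
    field_simp
  rw [h7, one_mul]

theorem smp {r s : ℝ} (hr : r ≠ 0) (hs : s ≠ 0) : ∃ C : ℝ, 1 ≤ C ∧
    ∀ (δ T B1 B2 B3 ε : ℝ) (F : ℝ → ℝ) (lam ν ρ : Measure ℝ), 0 < δ → 0 ≤ T → 0 ≤ B1 → 0 ≤ B2 → 0 ≤ B3 → 0 ≤ ε →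
    Measurable F → (∀ z, 0 ≤ F z) → (∀ z, F z ≤ B1) → Integrable F → ∫ z, F z ≤ B1 →
    IsFiniteMeasure lam → (∀ x, ∫ m, Real.exp (-(x - m) ^ 2 / δ ^ 2) ∂lam ≤ B2) → δ * (lam Set.univ).toReal ≤ B2 →
    IsFiniteMeasure ν → IsFiniteMeasure ρ → (ν Set.univ).toReal ≤ B3 → (ρ Set.univ).toReal ≤ B3 →
    (∀ τ : ℝ, |τ| ≤ T → ‖cf ν τ - cf ρ τ‖ ≤ ε) →
    |(∫ u, (∫ z, F z * (∫ m, Real.exp (-(r * z + s * u - m) ^ 2 / δ ^ 2) ∂lam)) ∂ν) -
      ∫ u, (∫ z, F z * (∫ m, Real.exp (-(r * z + s * u - m) ^ 2 / δ ^ 2) ∂lam)) ∂ρ| ≤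
      C * B1 * B2 * (ε + B3 * Real.exp (-(δ * T) ^ 2 / C)) := by
  have hr' : 0 < |r| := abs_pos.mpr hr
  have hpi : 0 < Real.sqrt Real.pi := Real.sqrt_pos.mpr Real.pi_pos
  set c1 : ℝ := Real.sqrt (Real.sqrt (2 * Real.pi) / |r|) with hc1
  have hc1' : 0 ≤ c1 := Real.sqrt_nonneg _
  refine ⟨1 + 2 * c1 + 16 * s ^ 2, by nlinarith [sq_nonneg s], ?_⟩
  intro δ T B1 B2 B3 ε F lam ν ρ hδ hT hB1 hB2 hB3 hε hF h0 hb hI hi flam hlam hlm fν fρ hν hρ h
  obtain ⟨f1, f2⟩ := phF_fin h0 hI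
  have hδ2 : (0 : ℝ) < δ / 2 := by positivity
  have hS := smp_S hr hs hδ hT hB1 hB3 hε hF h0 hb hI hi ν ρ hν hρ h
  obtain ⟨p1, p2⟩ := smp_planch (((phF F).prod ν).map fun p : ℝ × ℝ => r * p.1 + s * p.2)
    (((phF F).prod ρ).map fun p : ℝ × ℝ => r * p.1 + s * p.2) hδ2
  have i1 := (smp_pair lam (((phF F).prod ν).map fun p : ℝ × ℝ => r * p.1 + s * p.2) hδ2).1
  have i2 := (smp_pair lam (((phF F).prod ρ).map fun p : ℝ × ℝ => r * p.1 + s * p.2) hδ2).1
  simp only [smp_cf] at p2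
  obtain ⟨q1, q2⟩ := smp_H hδ hB2 lam hlam hlm
  set E : ℝ := Real.exp (-(δ * T) ^ 2 / (16 * s ^ 2)) with hE
  have hE0 : 0 < E := Real.exp_pos _
  have hcs := smp_cs (A := Real.sqrt (Real.sqrt (2 * Real.pi) / 2) * B2)
    (B := δ / 2 * ((ε + 2 * B3 * E) * (Real.sqrt (2 * Real.pi / |r|) * B1))) (by positivity) (by positivity) q1 p1
    (by
      rw [mul_pow, Real.sq_sqrt (by positivity)]
      exact q2)
    (by
      rw [p2, mul_pow, mul_pow, mul_pow, Real.sq_sqrt (by positivity)]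
      refine mul_le_mul_of_nonneg_left (hS.trans (le_of_eq ?_)) (by positivity)
      ring)
  have hdiff : (∫ u, (∫ z, F z * (∫ m, Real.exp (-(r * z + s * u - m) ^ 2 / δ ^ 2) ∂lam)) ∂ν) -
      ∫ u, (∫ z, F z * (∫ m, Real.exp (-(r * z + s * u - m) ^ 2 / δ ^ 2) ∂lam)) ∂ρ =
      2 / (δ * Real.sqrt Real.pi) * ∫ t, gsm (δ / 2) lam t *
        (gsm (δ / 2) (((phF F).prod ν).map fun p : ℝ × ℝ => r * p.1 + s * p.2) t -
          gsm (δ / 2) (((phF F).prod ρ).map fun p : ℝ × ℝ => r * p.1 + s * p.2) t) := by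
    rw [smp_form hδ hF h0 hI lam ν, smp_form hδ hF h0 hI lam ρ, ← mul_sub, ← integral_sub i1 i2]
    congr 1
    refine integral_congr_ae (Filter.Eventually.of_forall fun t => ?_)
    simp only
    ring
  rw [hdiff, abs_mul, abs_of_pos (by positivity : 0 < 2 / (δ * Real.sqrt Real.pi))]
  have hroot : Real.sqrt (Real.sqrt (2 * Real.pi) / 2) * Real.sqrt (2 * Real.pi / |r|) = Real.sqrt Real.pi * c1 := by
    rw [hc1, ← Real.sqrt_mul (by positivity), ← Real.sqrt_mul (by positivity)]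
    congr 1
    field_simp
  have h1 : 2 / (δ * Real.sqrt Real.pi) * (Real.sqrt (Real.sqrt (2 * Real.pi) / 2) * B2 *
      (δ / 2 * ((ε + 2 * B3 * E) * (Real.sqrt (2 * Real.pi / |r|) * B1)))) =
      c1 * B1 * B2 * (ε + 2 * B3 * E) := by
    calc 2 / (δ * Real.sqrt Real.pi) * (Real.sqrt (Real.sqrt (2 * Real.pi) / 2) * B2 *
          (δ / 2 * ((ε + 2 * B3 * E) * (Real.sqrt (2 * Real.pi / |r|) * B1))))
        = (Real.sqrt (Real.sqrt (2 * Real.pi) / 2) * Real.sqrt (2 * Real.pi / |r|)) *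
          (2 / (δ * Real.sqrt Real.pi) * B2 * (δ / 2) * (ε + 2 * B3 * E) * B1) := by ring
      _ = Real.sqrt Real.pi * c1 * (2 / (δ * Real.sqrt Real.pi) * B2 * (δ / 2) * (ε + 2 * B3 * E) * B1) := by rw [hroot]
      _ = _ := by field_simp
  have h2 : E ≤ Real.exp (-(δ * T) ^ 2 / (1 + 2 * c1 + 16 * s ^ 2)) := by
    rw [hE]
    apply Real.exp_le_exp.mpr
    have hs2 : 0 < s ^ 2 := by positivity
    rw [neg_div, neg_div, neg_le_neg_iff]
    apply div_le_div_of_nonneg_left (sq_nonneg _) (by positivity)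
    linarith
  calc 2 / (δ * Real.sqrt Real.pi) * |∫ t, gsm (δ / 2) lam t *
        (gsm (δ / 2) (((phF F).prod ν).map fun p : ℝ × ℝ => r * p.1 + s * p.2) t -
          gsm (δ / 2) (((phF F).prod ρ).map fun p : ℝ × ℝ => r * p.1 + s * p.2) t)|
      ≤ 2 / (δ * Real.sqrt Real.pi) * (Real.sqrt (Real.sqrt (2 * Real.pi) / 2) * B2 *
          (δ / 2 * ((ε + 2 * B3 * E) * (Real.sqrt (2 * Real.pi / |r|) * B1)))) :=
        mul_le_mul_of_nonneg_left hcs (by positivity)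
    _ = B1 * B2 * (c1 * ε + 2 * c1 * (B3 * E)) := by rw [h1]; ring
    _ ≤ B1 * B2 * ((1 + 2 * c1 + 16 * s ^ 2) * ε + (1 + 2 * c1 + 16 * s ^ 2) *
          (B3 * Real.exp (-(δ * T) ^ 2 / (1 + 2 * c1 + 16 * s ^ 2)))) := by
        have hC1 : c1 ≤ 1 + 2 * c1 + 16 * s ^ 2 := by nlinarith [sq_nonneg s]
        have hC2 : 2 * c1 ≤ 1 + 2 * c1 + 16 * s ^ 2 := by nlinarith [sq_nonneg s]
        have h3 : B3 * E ≤ B3 * Real.exp (-(δ * T) ^ 2 / (1 + 2 * c1 + 16 * s ^ 2)) :=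
          mul_le_mul_of_nonneg_left h2 hB3
        refine mul_le_mul_of_nonneg_left (add_le_add ?_ ?_) (by positivity)
        · exact mul_le_mul_of_nonneg_right hC1 hε
        · exact mul_le_mul hC2 h3 (by positivity) (by positivity)
    _ = _ := by ring

end HLA
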