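import Pool.Agent.HLA.Smp

/-!
# HLA.T2a: the free variable of the type II sum is replaced by a continuous one

PROOF. Fix `u`, `u'`, `d = u' - u`, `G_i = gsm δ μi`. For fixed `v` substitute `z = a1 y + b1 (u + v)` in the integral over `y`: `a2 y + b2 (u + v) = r z + s (u + v)`,
`r = a2/a1`, `s = (a1 b2 - a2 b1)/a1`, both `≠ 0`. So the inner integral is `(1/|a1|) ∫ F(z) H(r z + s (u + v)) dz` with
`F z = G1(z) G1(z + b1 d)`, `H x = G2(x) G2(x + b2 d)`. `H x = ∫∫ exp(-(x-a)²/(2δ²)) exp(-(x+b2 d-a')²/(2δ²)) dμ2(a) dμ2(a')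
= ∫∫ exp(-(x-m)²/δ²) exp(-(a-a'+b2 d)²/(4δ²))`, `m = (a + a' - b2 d)/2`. So `H (r z + s (u + v)) = ∫ exp(-(r z + s v - m)²/δ²) dlam(m)`, where `lam` is the
image of `(μ2 ⊗ μ2).withDensity (exp(-(a-a'+b2 d)²/(4δ²)))` under `(a, a') ↦ (a + a' - b2 d)/2 - s u`. Bounds: `H ≤ B²`;
`lam(univ) = ∫ gsm (√2 δ) μ2 (a' - b2 d) dμ2(a') ≤ √2 B μ2(univ)` (`gsm_two`), so `δ lam(univ) ≤ √2 B²`; `0 ≤ F ≤ B²`, `∫ F ≤ B √(2π) B` (`adm_int`).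
`smp` with `B1 = √(2π) B²`, `B2 = √2 B²`, `B3 = B`.
-/

namespace HLA

open MeasureTheory SMC

/-- The measure with `∫ exp(-(x - m)²/δ²) dlam(m) = G(x + t) G(x + t + e)`. -/
private noncomputable def t2aM (δ : ℝ) (μ : Measure ℝ) (e t : ℝ) : Measure ℝ :=
  ((μ.prod μ).withDensity fun p : ℝ × ℝ => ENNReal.ofReal (Real.exp (-(p.1 - p.2 + e) ^ 2 / (4 * δ ^ 2)))).map
    (fun p : ℝ × ℝ => (p.1 + p.2 - e) / 2 - t)

private theorem t2a_dm (δ e : ℝ) : Measurable fun p : ℝ × ℝ =>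
    ENNReal.ofReal (Real.exp (-(p.1 - p.2 + e) ^ 2 / (4 * δ ^ 2))) := by
  have h : Continuous fun p : ℝ × ℝ => Real.exp (-(p.1 - p.2 + e) ^ 2 / (4 * δ ^ 2)) := by fun_prop
  exact h.measurable.ennreal_ofReal

private theorem t2a_dle (δ e : ℝ) (p : ℝ × ℝ) : Real.exp (-(p.1 - p.2 + e) ^ 2 / (4 * δ ^ 2)) ≤ 1 := by
  rw [Real.exp_le_one_iff]
  exact div_nonpos_of_nonpos_of_nonneg (neg_nonpos.mpr (sq_nonneg _)) (by positivity)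

private theorem t2a_di (δ : ℝ) (μ : Measure ℝ) [IsFiniteMeasure μ] (e : ℝ) :
    Integrable (fun p : ℝ × ℝ => Real.exp (-(p.1 - p.2 + e) ^ 2 / (4 * δ ^ 2))) (μ.prod μ) := by
  refine Integrable.of_bound (C := 1) (Continuous.aestronglyMeasurable (by fun_prop))
    (Filter.Eventually.of_forall fun p => ?_)
  rw [Real.norm_eq_abs, abs_of_pos (Real.exp_pos _)]
  exact t2a_dle δ e p

private theorem t2a_fin (δ : ℝ) (μ : Measure ℝ) [IsFiniteMeasure μ] (e t : ℝ) : IsFiniteMeasure (t2aM δ μ e t) := by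
  unfold t2aM
  have : IsFiniteMeasure ((μ.prod μ).withDensity fun p : ℝ × ℝ =>
      ENNReal.ofReal (Real.exp (-(p.1 - p.2 + e) ^ 2 / (4 * δ ^ 2)))) :=
    isFiniteMeasure_withDensity_ofReal (t2a_di δ μ e).2
  infer_instance

/-- Integrals with respect to `t2aM`. -/
private theorem t2a_int (δ : ℝ) (μ : Measure ℝ) [IsFiniteMeasure μ] (e t : ℝ) {g : ℝ → ℝ} (hg : Continuous g) :
    ∫ m, g m ∂(t2aM δ μ e t) = ∫ p : ℝ × ℝ, Real.exp (-(p.1 - p.2 + e) ^ 2 / (4 * δ ^ 2)) *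
      g ((p.1 + p.2 - e) / 2 - t) ∂(μ.prod μ) := by
  unfold t2aM
  have hm : Measurable fun p : ℝ × ℝ => (p.1 + p.2 - e) / 2 - t := by fun_prop
  rw [integral_map hm.aemeasurable hg.aestronglyMeasurable,
    integral_withDensity_eq_integral_toReal_smul (t2a_dm δ e)
      (Filter.Eventually.of_forall fun p => ENNReal.ofReal_lt_top)]
  refine integral_congr_ae (Filter.Eventually.of_forall fun p => ?_)
  simp only
  rw [ENNReal.toReal_ofReal (Real.exp_pos _).le, smul_eq_mul]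

/-- The product of the two smoothings. -/
private theorem t2a_H {δ : ℝ} (hδ : 0 < δ) (μ : Measure ℝ) [IsFiniteMeasure μ] (e t x : ℝ) :
    ∫ m, Real.exp (-(x - m) ^ 2 / δ ^ 2) ∂(t2aM δ μ e t) = gsm δ μ (x + t) * gsm δ μ (x + t + e) := by
  rw [t2a_int δ μ e t (g := fun m => Real.exp (-(x - m) ^ 2 / δ ^ 2)) (by fun_prop)]
  unfold gsm
  rw [← integral_prod_mul]
  refine integral_congr_ae (Filter.Eventually.of_forall fun p => ?_)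
  simp only
  rw [← Real.exp_add, ← Real.exp_add]
  congr 1
  field_simp
  ring

/-- The mass. -/
private theorem t2a_mass {δ B : ℝ} (hδ : 0 < δ) (hB : 0 ≤ B) {μ : Measure ℝ} (h : Adm δ B μ) (e t : ℝ) :
    δ * ((t2aM δ μ e t) Set.univ).toReal ≤ 2 * B ^ 2 := by
  obtain ⟨h1, h2, h3⟩ := h
  have h4 : ((t2aM δ μ e t) Set.univ).toReal = ∫ _m, (1 : ℝ) ∂(t2aM δ μ e t) := by
    rw [integral_const, smul_eq_mul, mul_one]
    rfl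
  have h5 : ∫ _m, (1 : ℝ) ∂(t2aM δ μ e t) = ∫ b, (∫ a, Real.exp (-(a - b + e) ^ 2 / (4 * δ ^ 2)) ∂μ) ∂μ := by
    rw [t2a_int δ μ e t (g := fun _ => (1 : ℝ)) continuous_const]
    simp only [mul_one]
    exact integral_prod_symm _ (t2a_di δ μ e)
  have h6 : ∀ b : ℝ, ∫ a, Real.exp (-(a - b + e) ^ 2 / (4 * δ ^ 2)) ∂μ = gsm (Real.sqrt 2 * δ) μ (b - e) := by
    intro b
    unfold gsm
    refine integral_congr_ae (Filter.Eventually.of_forall fun a => ?_)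
    simp only
    rw [mul_pow, Real.sq_sqrt (by norm_num : (0 : ℝ) ≤ 2)]
    congr 1
    ring
  have h7 : Real.sqrt 2 ≤ 2 := by
    rw [Real.sqrt_le_left (by norm_num)]
    norm_num
  have h8 : ∫ b, (∫ a, Real.exp (-(a - b + e) ^ 2 / (4 * δ ^ 2)) ∂μ) ∂μ ≤ 2 * B * (μ Set.univ).toReal := by
    have h9 : ∀ b : ℝ, ‖∫ a, Real.exp (-(a - b + e) ^ 2 / (4 * δ ^ 2)) ∂μ‖ ≤ 2 * B := by
      intro b
      rw [h6, Real.norm_eq_abs, abs_of_nonneg (gsm_nonneg _ _ _)]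
      exact (gsm_two hδ μ h2 _).trans (mul_le_mul_of_nonneg_right h7 hB)
    have h10 := norm_integral_le_of_norm_le_const (μ := μ) (Filter.Eventually.of_forall h9)
    exact (le_abs_self _).trans h10
  rw [h4, h5]
  calc δ * ∫ b, (∫ a, Real.exp (-(a - b + e) ^ 2 / (4 * δ ^ 2)) ∂μ) ∂μ ≤ δ * (2 * B * (μ Set.univ).toReal) :=
        mul_le_mul_of_nonneg_left h8 hδ.le
    _ = 2 * B * (δ * (μ Set.univ).toReal) := by ring
    _ ≤ 2 * B * B := mul_le_mul_of_nonneg_left h3 (by positivity)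
    _ = 2 * B ^ 2 := by ring

/-- The substitution. -/
private theorem t2a_sub {a1 b1 a2 b2 : ℝ} (ha1 : a1 ≠ 0) {δ : ℝ} (hδ : 0 < δ) (μ1 μ2 : Measure ℝ)
    [IsFiniteMeasure μ1] [IsFiniteMeasure μ2] (u u' v : ℝ) :
    ∫ y, gg δ μ1 μ2 a1 b1 a2 b2 y (u + v) * gg δ μ1 μ2 a1 b1 a2 b2 y (u' + v) =
    |a1⁻¹| * ∫ z, (gsm δ μ1 z * gsm δ μ1 (z + b1 * (u' - u))) *
      (∫ m, Real.exp (-(a2 / a1 * z + (a1 * b2 - a2 * b1) / a1 * v - m) ^ 2 / δ ^ 2)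
        ∂(t2aM δ μ2 (b2 * (u' - u)) ((a1 * b2 - a2 * b1) / a1 * u))) := by
  simp only [t2a_H hδ]
  have h1 := integral_add_right_eq_self (μ := (volume : Measure ℝ)) (fun z : ℝ => gsm δ μ1 z * gsm δ μ1 (z + b1 * (u' - u)) *
    (gsm δ μ2 (a2 / a1 * z + (a1 * b2 - a2 * b1) / a1 * v + (a1 * b2 - a2 * b1) / a1 * u) *
      gsm δ μ2 (a2 / a1 * z + (a1 * b2 - a2 * b1) / a1 * v + (a1 * b2 - a2 * b1) / a1 * u + b2 * (u' - u))))
    (b1 * (u + v))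
  rw [← h1]
  have h2 := Measure.integral_comp_mul_left (fun z : ℝ => gsm δ μ1 (z + b1 * (u + v)) *
    gsm δ μ1 (z + b1 * (u + v) + b1 * (u' - u)) *
    (gsm δ μ2 (a2 / a1 * (z + b1 * (u + v)) + (a1 * b2 - a2 * b1) / a1 * v + (a1 * b2 - a2 * b1) / a1 * u) *
      gsm δ μ2 (a2 / a1 * (z + b1 * (u + v)) + (a1 * b2 - a2 * b1) / a1 * v + (a1 * b2 - a2 * b1) / a1 * u +
        b2 * (u' - u)))) a1
  rw [smul_eq_mul] at h2
  rw [← h2]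
  refine integral_congr_ae (Filter.Eventually.of_forall fun y => ?_)
  simp only
  unfold gg
  have e1 : a2 / a1 * (a1 * y + b1 * (u + v)) + (a1 * b2 - a2 * b1) / a1 * v + (a1 * b2 - a2 * b1) / a1 * u =
      a2 * y + b2 * (u + v) := by
    field_simp
    ring
  have e2 : a1 * y + b1 * (u + v) + b1 * (u' - u) = a1 * y + b1 * (u' + v) := by ring
  have e3 : a2 * y + b2 * (u + v) + b2 * (u' - u) = a2 * y + b2 * (u' + v) := by ring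
  rw [e1, e2, e3]
  ring

theorem t2a {a1 b1 a2 b2 : ℝ} (ha1 : a1 ≠ 0) (ha2 : a2 ≠ 0) (hd : a1 * b2 - a2 * b1 ≠ 0) : ∃ C : ℝ, 1 ≤ C ∧
    ∀ (δ T B ε : ℝ) (μ1 μ2 ν ρ : Measure ℝ), 0 < δ → 0 ≤ T → 1 ≤ B → 0 ≤ ε → Adm δ B μ1 → Adm δ B μ2 →
    IsFiniteMeasure ν → IsFiniteMeasure ρ → (ν Set.univ).toReal ≤ B → (ρ Set.univ).toReal ≤ B →
    (∀ τ : ℝ, |τ| ≤ T → ‖cf ν τ - cf ρ τ‖ ≤ ε) → ∀ u u' : ℝ,
    |(∫ v, (∫ y, gg δ μ1 μ2 a1 b1 a2 b2 y (u + v) * gg δ μ1 μ2 a1 b1 a2 b2 y (u' + v)) ∂ν) -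
      ∫ v, (∫ y, gg δ μ1 μ2 a1 b1 a2 b2 y (u + v) * gg δ μ1 μ2 a1 b1 a2 b2 y (u' + v)) ∂ρ| ≤
      C * B ^ 5 * (ε + Real.exp (-(δ * T) ^ 2 / C)) := by
  have hr : a2 / a1 ≠ 0 := div_ne_zero ha2 ha1
  have hs : (a1 * b2 - a2 * b1) / a1 ≠ 0 := div_ne_zero hd ha1
  obtain ⟨C0, hC0, hsmp⟩ := smp hr hs
  refine ⟨C0 + 6 * C0 * |a1⁻¹|, by nlinarith [abs_nonneg a1⁻¹], ?_⟩
  intro δ T B ε μ1 μ2 ν ρ hδ hT hB hε hμ1 hμ2 fν fρ hν hρ h u u'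
  have hB0 : 0 ≤ B := by linarith
  have := hμ1.1
  have := hμ2.1
  simp only [t2a_sub ha1 hδ μ1 μ2 u u']
  rw [integral_const_mul, integral_const_mul, ← mul_sub, abs_mul, abs_abs]
  have hpi : Real.sqrt (2 * Real.pi) ≤ 3 := by
    rw [Real.sqrt_le_left (by norm_num)]
    nlinarith [Real.pi_lt_four]
  have hFc : Continuous fun z : ℝ => gsm δ μ1 z * gsm δ μ1 (z + b1 * (u' - u)) :=
    (gsm_cont δ μ1).mul ((gsm_cont δ μ1).comp (by fun_prop))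
  have hF0 : ∀ z : ℝ, 0 ≤ gsm δ μ1 z * gsm δ μ1 (z + b1 * (u' - u)) := fun z =>
    mul_nonneg (gsm_nonneg _ _ _) (gsm_nonneg _ _ _)
  have hFle : ∀ z : ℝ, gsm δ μ1 z * gsm δ μ1 (z + b1 * (u' - u)) ≤ gsm δ μ1 z * B := fun z =>
    mul_le_mul_of_nonneg_left (hμ1.2.1 _) (gsm_nonneg _ _ _)
  obtain ⟨hG1, hG2⟩ := adm_int hδ hμ1
  have hFi : Integrable fun z : ℝ => gsm δ μ1 z * gsm δ μ1 (z + b1 * (u' - u)) := by
    refine (hG1.mul_const B).mono' hFc.aestronglyMeasurable (Filter.Eventually.of_forall fun z => ?_)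
    rw [Real.norm_eq_abs, abs_of_nonneg (hF0 z)]
    exact hFle z
  have hFI : ∫ z : ℝ, gsm δ μ1 z * gsm δ μ1 (z + b1 * (u' - u)) ≤ 3 * B ^ 2 := by
    calc ∫ z : ℝ, gsm δ μ1 z * gsm δ μ1 (z + b1 * (u' - u)) ≤ ∫ z : ℝ, gsm δ μ1 z * B :=
          integral_mono hFi (hG1.mul_const B) hFle
      _ = (∫ z : ℝ, gsm δ μ1 z) * B := integral_mul_const _ _
      _ ≤ (Real.sqrt (2 * Real.pi) * B) * B := mul_le_mul_of_nonneg_right hG2 hB0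
      _ ≤ (3 * B) * B := by gcongr
      _ = 3 * B ^ 2 := by ring
  have hFb : ∀ z : ℝ, gsm δ μ1 z * gsm δ μ1 (z + b1 * (u' - u)) ≤ 3 * B ^ 2 := by
    intro z
    have h1 := (hFle z).trans (mul_le_mul_of_nonneg_right (hμ1.2.1 z) hB0)
    nlinarith
  have hHb : ∀ x : ℝ, ∫ m, Real.exp (-(x - m) ^ 2 / δ ^ 2)
      ∂(t2aM δ μ2 (b2 * (u' - u)) ((a1 * b2 - a2 * b1) / a1 * u)) ≤ 2 * B ^ 2 := by
    intro x
    rw [t2a_H hδ]
    have h1 := mul_le_mul (hμ2.2.1 (x + (a1 * b2 - a2 * b1) / a1 * u))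
      (hμ2.2.1 (x + (a1 * b2 - a2 * b1) / a1 * u + b2 * (u' - u))) (gsm_nonneg _ _ _) hB0
    nlinarith
  have key := hsmp δ T (3 * B ^ 2) (2 * B ^ 2) B ε (fun z => gsm δ μ1 z * gsm δ μ1 (z + b1 * (u' - u)))
    (t2aM δ μ2 (b2 * (u' - u)) ((a1 * b2 - a2 * b1) / a1 * u)) ν ρ hδ hT (by positivity) (by positivity) hB0 hε
    hFc.measurable hF0 hFb hFi hFI (t2a_fin _ _ _ _) hHb (t2a_mass hδ hB0 hμ2 _ _) fν fρ hν hρ h
  set C : ℝ := C0 + 6 * C0 * |a1⁻¹| with hC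
  have hA : 0 ≤ |a1⁻¹| := abs_nonneg _
  have hCC : C0 ≤ C := by
    rw [hC]
    nlinarith
  have hE : Real.exp (-(δ * T) ^ 2 / C0) ≤ Real.exp (-(δ * T) ^ 2 / C) := by
    apply Real.exp_le_exp.mpr
    rw [neg_div, neg_div, neg_le_neg_iff]
    exact div_le_div_of_nonneg_left (sq_nonneg _) (by linarith) hCC
  have hE0 : 0 ≤ Real.exp (-(δ * T) ^ 2 / C) := (Real.exp_pos _).le
  calc |a1⁻¹| * |(∫ v, (∫ z, (gsm δ μ1 z * gsm δ μ1 (z + b1 * (u' - u))) *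
      (∫ m, Real.exp (-(a2 / a1 * z + (a1 * b2 - a2 * b1) / a1 * v - m) ^ 2 / δ ^ 2)
        ∂(t2aM δ μ2 (b2 * (u' - u)) ((a1 * b2 - a2 * b1) / a1 * u)))) ∂ν) -
      ∫ v, (∫ z, (gsm δ μ1 z * gsm δ μ1 (z + b1 * (u' - u))) *
      (∫ m, Real.exp (-(a2 / a1 * z + (a1 * b2 - a2 * b1) / a1 * v - m) ^ 2 / δ ^ 2)
        ∂(t2aM δ μ2 (b2 * (u' - u)) ((a1 * b2 - a2 * b1) / a1 * u)))) ∂ρ|
      ≤ |a1⁻¹| * (C0 * (3 * B ^ 2) * (2 * B ^ 2) * (ε + B * Real.exp (-(δ * T) ^ 2 / C0))) :=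
        mul_le_mul_of_nonneg_left key hA
    _ ≤ |a1⁻¹| * (C0 * (3 * B ^ 2) * (2 * B ^ 2) * (B * (ε + Real.exp (-(δ * T) ^ 2 / C)))) := by
        have h1 : ε + B * Real.exp (-(δ * T) ^ 2 / C0) ≤ B * (ε + Real.exp (-(δ * T) ^ 2 / C)) := by
          nlinarith
        gcongr
    _ = (6 * C0 * |a1⁻¹|) * (B ^ 5 * (ε + Real.exp (-(δ * T) ^ 2 / C))) := by ring
    _ ≤ C * (B ^ 5 * (ε + Real.exp (-(δ * T) ^ 2 / C))) := by
        refine mul_le_mul_of_nonneg_right ?_ (by positivity)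
        rw [hC]
        linarith
    _ = C * B ^ 5 * (ε + Real.exp (-(δ * T) ^ 2 / C)) := by ring

end HLA
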