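import Pool.Agent.HLA.Gsm
import Pool.Agent.HLA.Planch2
import Pool.Agent.ASI.Planch

/-!
# HLA.T2b: the continuous type II expression

PROOF. `G_i = gsm δ μi`, `Δ = a1 b2 - a2 b1`. `JJ v y = ∫ G1(z + b1 u) G2(x + b2 u) d(μ - μ')(u)`, `z = a1 y + b1 v`, `x = a2 y + b2 v`; linear change of the variables
`(v, y) → (z, x)`, Jacobian `|Δ|` (`MeasureTheory.Measure.addHaar`/`LinearMap` determinant, or in two steps: for fixed `v`, ...). Now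
`G1(z + b1 u) G2(x + b2 u) = ∫∫ exp(-((z - (a - b1 u))² + (x - (b - b2 u))²)/(2δ²)) dμ1(a) dμ2(b)`, so `JJ = ∫ exp(-|x - p|²/(2δ²)) dM - ∫ .. dM'`, `p = (z, x)`, with
the images `M`, `M'` of `μ1 ⊗ μ2 ⊗ μ`, `μ1 ⊗ μ2 ⊗ μ'` under `(a, b, u) ↦ (a - b1 u, b - b2 u)`. `planch2`: the integral is
`(1/|Δ|) δ⁴ ∫∫ exp(-δ²(τ²+τ'²)) |cf μ1 τ|² |cf μ2 τ'|² |cf μ t - cf μ' t|² dτ dτ'`, `t = -(b1 τ + b2 τ')`.
If `|t| ≤ T`, the last factor is `≤ ε²`. Otherwise it is `≤ 4B²` (`cf_norm_le`) and `T² < t² ≤ (b1²+b2²)(τ²+τ'²)`, so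
`exp(-δ²(τ²+τ'²)) ≤ exp(-δ²(τ²+τ'²)/2) exp(-(δT)²/(2(b1²+b2²)))` (`(b1, b2) ≠ 0` as `Δ ≠ 0`). Finally `δ² ∫ exp(-δ²τ²/2) |cf μi τ|² dτ ≤ 2√π B²`: `ASI.planch` with
`μ2 = 0` and `δ/√2`: `(δ²/2) ∫ exp(-δ²τ²/2) |cf μi|² = ∫ (gsm (δ/√2) μi)² ≤ B ∫ gsm (δ/√2) μi = B √(2π) (δ/√2) μi(univ) ≤ √π B²`
(`gsm (δ/√2) ≤ gsm δ ≤ B`).
-/

namespace HLA

open MeasureTheory SMC

private noncomputable def t2bM (μ1 μ2 : Measure ℝ) (b1 b2 : ℝ) (ν : Measure ℝ) : Measure (ℝ × ℝ) :=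
  (ν.prod (μ1.prod μ2)).map (fun q : ℝ × ℝ × ℝ => (q.2.1 - b1 * q.1, q.2.2 - b2 * q.1))

private lemma t2b_meas (b1 b2 : ℝ) : Measurable (fun q : ℝ × ℝ × ℝ => (q.2.1 - b1 * q.1, q.2.2 - b2 * q.1)) := by
  fun_prop

private lemma t2b_fin (μ1 μ2 ν : Measure ℝ) [IsFiniteMeasure μ1] [IsFiniteMeasure μ2] [IsFiniteMeasure ν]
    (b1 b2 : ℝ) : IsFiniteMeasure (t2bM μ1 μ2 b1 b2 ν) := by
  unfold t2bM
  infer_instance

private lemma t2b_E (δ : ℝ) (μ1 μ2 ν : Measure ℝ) [IsFiniteMeasure μ1] [IsFiniteMeasure μ2] [IsFiniteMeasure ν]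
    (b1 b2 z x : ℝ) : ∫ w, Real.exp (-((w.1 - z) ^ 2 + (w.2 - x) ^ 2) / (2 * δ ^ 2)) ∂(t2bM μ1 μ2 b1 b2 ν) =
    ∫ u, gsm δ μ1 (z + b1 * u) * gsm δ μ2 (x + b2 * u) ∂ν := by
  unfold t2bM
  rw [integral_map (t2b_meas b1 b2).aemeasurable (Continuous.aestronglyMeasurable (by fun_prop))]
  rw [integral_prod]
  · refine integral_congr_ae (Filter.Eventually.of_forall fun u => ?_)
    simp only
    unfold gsm
    rw [← integral_prod_mul]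
    refine integral_congr_ae (Filter.Eventually.of_forall fun q => ?_)
    simp only
    rw [← Real.exp_add]
    congr 1
    ring
  · refine Integrable.mono' (integrable_const (1 : ℝ)) (Continuous.aestronglyMeasurable (by fun_prop))
      (Filter.Eventually.of_forall fun q => ?_)
    rw [Real.norm_eq_abs, abs_of_pos (Real.exp_pos _), Real.exp_le_one_iff]
    exact div_nonpos_of_nonpos_of_nonneg (by nlinarith [sq_nonneg (q.2.1 - b1 * q.1 - z), sq_nonneg (q.2.2 - b2 * q.1 - x)])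
      (by positivity)

private lemma t2b_F (μ1 μ2 ν : Measure ℝ) [IsFiniteMeasure μ1] [IsFiniteMeasure μ2] [IsFiniteMeasure ν]
    (b1 b2 : ℝ) (τ : ℝ × ℝ) : ∫ w, Complex.exp (-((τ.1 * w.1 + τ.2 * w.2) * Complex.I)) ∂(t2bM μ1 μ2 b1 b2 ν) =
    cf μ1 τ.1 * cf μ2 τ.2 * cf ν (-(b1 * τ.1 + b2 * τ.2)) := by
  unfold t2bM
  rw [integral_map (t2b_meas b1 b2).aemeasurable (Continuous.aestronglyMeasurable (by fun_prop))]
  have h1 : (fun q : ℝ × ℝ × ℝ => Complex.exp (-((τ.1 * ((q.2.1 - b1 * q.1 : ℝ) : ℂ) + τ.2 * ((q.2.2 - b2 * q.1 : ℝ) : ℂ)) * Complex.I))) =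
      fun q => (fun u : ℝ => Complex.exp (-(((-(b1 * τ.1 + b2 * τ.2) : ℝ) : ℂ) * u * Complex.I))) q.1 *
        (fun r : ℝ × ℝ => (fun a : ℝ => Complex.exp (-(τ.1 * a * Complex.I))) r.1 *
          (fun b : ℝ => Complex.exp (-(τ.2 * b * Complex.I))) r.2) q.2 := by
    funext q
    simp only
    rw [← Complex.exp_add, ← Complex.exp_add]
    congr 1
    push_cast
    ring
  simp only at h1 ⊢
  rw [h1]
  rw [integral_prod_mul (fun u : ℝ => Complex.exp (-(((-(b1 * τ.1 + b2 * τ.2) : ℝ) : ℂ) * u * Complex.I)))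
    (fun r : ℝ × ℝ => Complex.exp (-(τ.1 * r.1 * Complex.I)) * Complex.exp (-(τ.2 * r.2 * Complex.I)))]
  rw [integral_prod_mul (fun a : ℝ => Complex.exp (-(τ.1 * a * Complex.I)))
    (fun b : ℝ => Complex.exp (-(τ.2 * b * Complex.I)))]
  unfold cf
  ring

/-- The linear change of variables. -/
private lemma t2b_L {a1 b1 a2 b2 : ℝ} (hd : a1 * b2 - a2 * b1 ≠ 0) {F : ℝ × ℝ → ℝ} (hF : Integrable F) :
    Integrable (fun p : ℝ × ℝ => F (a1 * p.2 + b1 * p.1, a2 * p.2 + b2 * p.1)) ∧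
    ∫ p : ℝ × ℝ, F (a1 * p.2 + b1 * p.1, a2 * p.2 + b2 * p.1) = |a1 * b2 - a2 * b1|⁻¹ * ∫ q, F q := by
  set L : (ℝ × ℝ) →ₗ[ℝ] (ℝ × ℝ) := Matrix.toLin (Module.Basis.finTwoProd ℝ) (Module.Basis.finTwoProd ℝ) !![b1, a1; b2, a2] with hL
  have hLa : ∀ p : ℝ × ℝ, L p = (a1 * p.2 + b1 * p.1, a2 * p.2 + b2 * p.1) := by
    intro p
    rw [hL, Matrix.toLin_finTwoProd_apply]
    rw [add_comm (b1 * p.1), add_comm (b2 * p.1)]
  have hdet : LinearMap.det L = -(a1 * b2 - a2 * b1) := by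
    rw [hL, LinearMap.det_toLin, Matrix.det_fin_two_of]
    ring
  have hdet0 : LinearMap.det L ≠ 0 := by
    rw [hdet]
    exact neg_ne_zero.mpr hd
  have hmap := MeasureTheory.Measure.map_linearMap_addHaar_eq_smul_addHaar (volume : Measure (ℝ × ℝ)) hdet0
  have hm : Measurable (fun p : ℝ × ℝ => L p) := by
    simp only [hLa]
    fun_prop
  have hF2 : Integrable F (Measure.map (fun p : ℝ × ℝ => L p) volume) := by
    rw [show (Measure.map (fun p : ℝ × ℝ => L p) volume) = Measure.map L volume from rfl, hmap]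
    exact hF.smul_measure ENNReal.ofReal_ne_top
  have h1 : (fun p : ℝ × ℝ => F (a1 * p.2 + b1 * p.1, a2 * p.2 + b2 * p.1)) = F ∘ (fun p : ℝ × ℝ => L p) := by
    funext p
    simp only [Function.comp, hLa]
  constructor
  · rw [h1]
    exact hF2.comp_measurable hm
  · have h2 := integral_map (μ := (volume : Measure (ℝ × ℝ))) hm.aemeasurable hF2.1
    rw [show (Measure.map (fun p : ℝ × ℝ => L p) volume) = Measure.map L volume from rfl, hmap,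
      integral_smul_measure, hdet] at h2
    simp only [hLa] at h2
    rw [← h2, ENNReal.toReal_ofReal (abs_nonneg _), smul_eq_mul, abs_inv, abs_neg]

/-- The weighted square mean of the Fourier transform. -/
private lemma t2b_A {δ B : ℝ} (hδ : 0 < δ) (hB : 0 ≤ B) {μ : Measure ℝ} (h : Adm δ B μ) :
    Integrable (fun τ : ℝ => Real.exp (-(δ ^ 2 * τ ^ 2) / 2) * ‖cf μ τ‖ ^ 2) ∧
    δ ^ 2 * ∫ τ : ℝ, Real.exp (-(δ ^ 2 * τ ^ 2) / 2) * ‖cf μ τ‖ ^ 2 ≤ 2 * Real.sqrt Real.pi * B ^ 2 := by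
  obtain ⟨hf, h1, h2⟩ := h
  have hs2 : (0 : ℝ) < Real.sqrt 2 := by positivity
  have hδ' : 0 < δ / Real.sqrt 2 := by positivity
  have hsq : (δ / Real.sqrt 2) ^ 2 = δ ^ 2 / 2 := by
    rw [div_pow, Real.sq_sqrt (by norm_num)]
  constructor
  · have hg : Integrable (fun τ : ℝ => Real.exp (-(δ ^ 2 * τ ^ 2) / 2) * (μ Set.univ).toReal ^ 2) := by
      refine Integrable.mul_const ?_ _
      have := integrable_exp_neg_mul_sq (by positivity : (0 : ℝ) < δ ^ 2 / 2)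
      refine this.congr (Filter.Eventually.of_forall fun τ => ?_)
      simp only
      congr 1
      ring
    refine hg.mono' ?_ (Filter.Eventually.of_forall fun τ => ?_)
    · have := cf_cont μ
      exact Continuous.aestronglyMeasurable (by fun_prop)
    · rw [norm_mul, Real.norm_eq_abs, abs_of_pos (Real.exp_pos _), Real.norm_eq_abs, abs_of_nonneg (sq_nonneg _)]
      refine mul_le_mul_of_nonneg_left ?_ (Real.exp_pos _).le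
      exact pow_le_pow_left₀ (norm_nonneg _) (cf_norm_le μ τ) 2
  · have h3 := ASI.planch μ 0 hδ'
    simp only [integral_zero_measure, sub_zero] at h3
    rw [hsq] at h3
    have h4 : ∀ u : ℝ, (∫ x, Real.exp (-(x - u) ^ 2 / (2 * (δ ^ 2 / 2))) ∂μ) = gsm (δ / Real.sqrt 2) μ u := by
      intro u
      unfold gsm
      refine integral_congr_ae (Filter.Eventually.of_forall fun x => ?_)
      simp only
      rw [hsq]
      congr 1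
      ring
    simp only [h4] at h3
    have h5 : ∀ u : ℝ, gsm (δ / Real.sqrt 2) μ u ≤ B := by
      intro u
      refine le_trans ?_ (h1 u)
      unfold gsm
      refine integral_mono (gsm_intble _ μ u) (gsm_intble _ μ u) fun x => ?_
      simp only
      rw [Real.exp_le_exp, hsq, div_le_div_iff₀ (by positivity) (by positivity)]
      nlinarith [sq_nonneg (u - x), mul_nonneg (sq_nonneg (u - x)) (sq_nonneg δ)]
    obtain ⟨h6, h7⟩ := gsm_int hδ' μ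
    have h8 : ∫ u, gsm (δ / Real.sqrt 2) μ u ^ 2 ≤ B * (Real.sqrt (2 * Real.pi) * (δ / Real.sqrt 2) * (μ Set.univ).toReal) := by
      rw [← h7, ← integral_const_mul]
      refine integral_mono_of_nonneg (Filter.Eventually.of_forall fun u => sq_nonneg _) (h6.const_mul B)
        (Filter.Eventually.of_forall fun u => ?_)
      simp only
      rw [sq]
      exact mul_le_mul_of_nonneg_right (h5 u) (gsm_nonneg _ _ _)
    have h9 : Real.sqrt (2 * Real.pi) * (δ / Real.sqrt 2) * (μ Set.univ).toReal = Real.sqrt Real.pi * (δ * (μ Set.univ).toReal) := by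
      rw [Real.sqrt_mul (by norm_num)]
      field_simp
    have h10 : (fun τ : ℝ => Real.exp (-(δ ^ 2 / 2 * τ ^ 2)) * ‖∫ x, Complex.exp (-(τ * x * Complex.I)) ∂μ‖ ^ 2) =
        fun τ => Real.exp (-(δ ^ 2 * τ ^ 2) / 2) * ‖cf μ τ‖ ^ 2 := by
      funext τ
      unfold cf
      congr 2
      ring
    rw [h10] at h3
    rw [h9] at h8
    have h11 : B * (Real.sqrt Real.pi * (δ * (μ Set.univ).toReal)) ≤ B * (Real.sqrt Real.pi * B) :=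
      mul_le_mul_of_nonneg_left (mul_le_mul_of_nonneg_left h2 (Real.sqrt_nonneg _)) hB
    nlinarith [h3, h8, h11]

/-- The constants. -/
private lemma t2b_arith {Δ s δ T B ε P1 P2 K X : ℝ} (hΔ0 : 0 < Δ) (hs0 : 0 < s) (hδ : 0 < δ) (hB : 1 ≤ B)
    (hp1 : 0 ≤ P1) (hp2 : 0 ≤ P2) (n1 : δ ^ 2 * P1 ≤ 2 * Real.sqrt Real.pi * B ^ 2)
    (n2 : δ ^ 2 * P2 ≤ 2 * Real.sqrt Real.pi * B ^ 2)
    (hK : K = ε ^ 2 + 4 * B ^ 2 * Real.exp (-(δ * T) ^ 2 / (2 * s))) (hX : X ≤ P1 * P2 * K) :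
    Δ * (δ ^ 4 * X) ≤ (1 + 16 * Real.pi * Δ + 2 * s) * B ^ 6 *
      (ε ^ 2 + Real.exp (-(δ * T) ^ 2 / (1 + 16 * Real.pi * Δ + 2 * s))) := by
  have hpi := Real.pi_pos
  have hC1 : 0 ≤ 16 * Real.pi * Δ := by positivity
  have hK0 : 0 ≤ K := by
    rw [hK]
    positivity
  have hprod : (δ ^ 2 * P1) * (δ ^ 2 * P2) ≤ (2 * Real.sqrt Real.pi * B ^ 2) * (2 * Real.sqrt Real.pi * B ^ 2) :=
    mul_le_mul n1 n2 (by positivity) (by positivity)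
  have hsq : Real.sqrt Real.pi ^ 2 = Real.pi := Real.sq_sqrt hpi.le
  have hprod2 : δ ^ 4 * (P1 * P2) ≤ 4 * Real.pi * B ^ 4 := by
    calc δ ^ 4 * (P1 * P2) = (δ ^ 2 * P1) * (δ ^ 2 * P2) := by ring
      _ ≤ (2 * Real.sqrt Real.pi * B ^ 2) * (2 * Real.sqrt Real.pi * B ^ 2) := hprod
      _ = 4 * Real.sqrt Real.pi ^ 2 * B ^ 4 := by ring
      _ = 4 * Real.pi * B ^ 4 := by rw [hsq]
  set C : ℝ := 1 + 16 * Real.pi * Δ + 2 * s with hC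
  have hC0 : 0 < C := by
    rw [hC]
    linarith
  have hKb : K ≤ 4 * B ^ 2 * (ε ^ 2 + Real.exp (-(δ * T) ^ 2 / C)) := by
    have h1 : Real.exp (-(δ * T) ^ 2 / (2 * s)) ≤ Real.exp (-(δ * T) ^ 2 / C) := by
      rw [Real.exp_le_exp, div_le_div_iff₀ (by positivity) hC0]
      have h2 : 2 * s ≤ C := by
        rw [hC]
        linarith
      nlinarith [mul_le_mul_of_nonneg_left h2 (sq_nonneg (δ * T))]
    have h3 : 1 ≤ 4 * B ^ 2 := by nlinarith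
    have h4 : ε ^ 2 ≤ 4 * B ^ 2 * ε ^ 2 := by nlinarith [sq_nonneg ε]
    have h5 : 4 * B ^ 2 * Real.exp (-(δ * T) ^ 2 / (2 * s)) ≤ 4 * B ^ 2 * Real.exp (-(δ * T) ^ 2 / C) :=
      mul_le_mul_of_nonneg_left h1 (by positivity)
    rw [hK, mul_add]
    linarith
  have hX0 : 0 ≤ ε ^ 2 + Real.exp (-(δ * T) ^ 2 / C) := by positivity
  calc Δ * (δ ^ 4 * X) ≤ Δ * (δ ^ 4 * (P1 * P2 * K)) :=
        mul_le_mul_of_nonneg_left (mul_le_mul_of_nonneg_left hX (by positivity)) hΔ0.le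
    _ = Δ * (δ ^ 4 * (P1 * P2)) * K := by ring
    _ ≤ Δ * (4 * Real.pi * B ^ 4) * K :=
        mul_le_mul_of_nonneg_right (mul_le_mul_of_nonneg_left hprod2 hΔ0.le) hK0
    _ ≤ Δ * (4 * Real.pi * B ^ 4) * (4 * B ^ 2 * (ε ^ 2 + Real.exp (-(δ * T) ^ 2 / C))) :=
        mul_le_mul_of_nonneg_left hKb (by positivity)
    _ = 16 * Real.pi * Δ * (B ^ 6 * (ε ^ 2 + Real.exp (-(δ * T) ^ 2 / C))) := by ring
    _ ≤ C * (B ^ 6 * (ε ^ 2 + Real.exp (-(δ * T) ^ 2 / C))) := by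
        refine mul_le_mul_of_nonneg_right ?_ (by positivity)
        rw [hC]
        linarith
    _ = C * B ^ 6 * (ε ^ 2 + Real.exp (-(δ * T) ^ 2 / C)) := by ring

/-- The pointwise bound. -/
private lemma t2b_pt {δ T B ε b1 b2 : ℝ} (μ1 μ2 μ μ' : Measure ℝ) [IsFiniteMeasure μ] [IsFiniteMeasure μ']
    (hT : 0 ≤ T) (hs0 : 0 < b1 ^ 2 + b2 ^ 2)
    (hμ : (μ Set.univ).toReal ≤ B) (hμ' : (μ' Set.univ).toReal ≤ B)
    (hcf : ∀ t : ℝ, |t| ≤ T → ‖cf μ t - cf μ' t‖ ≤ ε) (x y : ℝ) :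
    Real.exp (-(δ ^ 2 * (x ^ 2 + y ^ 2))) *
      ‖cf μ1 x * cf μ2 y * cf μ (-(b1 * x + b2 * y)) - cf μ1 x * cf μ2 y * cf μ' (-(b1 * x + b2 * y))‖ ^ 2 ≤
      (Real.exp (-(δ ^ 2 * x ^ 2) / 2) * ‖cf μ1 x‖ ^ 2) * (Real.exp (-(δ ^ 2 * y ^ 2) / 2) * ‖cf μ2 y‖ ^ 2) *
        (ε ^ 2 + 4 * B ^ 2 * Real.exp (-(δ * T) ^ 2 / (2 * (b1 ^ 2 + b2 ^ 2)))) := by
  set t : ℝ := -(b1 * x + b2 * y) with ht
  rw [← mul_sub, norm_mul, norm_mul]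
  have e1 : Real.exp (-(δ ^ 2 * (x ^ 2 + y ^ 2))) * (‖cf μ1 x‖ * ‖cf μ2 y‖ * ‖cf μ t - cf μ' t‖) ^ 2 =
      (Real.exp (-(δ ^ 2 * x ^ 2) / 2) * ‖cf μ1 x‖ ^ 2) * (Real.exp (-(δ ^ 2 * y ^ 2) / 2) * ‖cf μ2 y‖ ^ 2) *
        (Real.exp (-(δ ^ 2 * (x ^ 2 + y ^ 2)) / 2) * ‖cf μ t - cf μ' t‖ ^ 2) := by
    have e2 : Real.exp (-(δ ^ 2 * (x ^ 2 + y ^ 2))) = Real.exp (-(δ ^ 2 * x ^ 2) / 2) *
        Real.exp (-(δ ^ 2 * y ^ 2) / 2) * Real.exp (-(δ ^ 2 * (x ^ 2 + y ^ 2)) / 2) := by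
      rw [← Real.exp_add, ← Real.exp_add]
      congr 1
      ring
    rw [e2]
    ring
  rw [e1]
  refine mul_le_mul_of_nonneg_left ?_ (by positivity)
  have hK1 : 0 ≤ 4 * B ^ 2 * Real.exp (-(δ * T) ^ 2 / (2 * (b1 ^ 2 + b2 ^ 2))) := by positivity
  rcases le_or_gt |t| T with h | h
  · have h1 : Real.exp (-(δ ^ 2 * (x ^ 2 + y ^ 2)) / 2) ≤ 1 := by
      rw [Real.exp_le_one_iff]
      exact div_nonpos_of_nonpos_of_nonneg (neg_nonpos.mpr (by positivity)) (by norm_num)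
    have h2 : ‖cf μ t - cf μ' t‖ ^ 2 ≤ ε ^ 2 := pow_le_pow_left₀ (norm_nonneg _) (hcf t h) 2
    calc Real.exp (-(δ ^ 2 * (x ^ 2 + y ^ 2)) / 2) * ‖cf μ t - cf μ' t‖ ^ 2 ≤ 1 * ε ^ 2 :=
          mul_le_mul h1 h2 (sq_nonneg _) (by norm_num)
      _ = ε ^ 2 := one_mul _
      _ ≤ _ := by linarith
  · have h1 : ‖cf μ t - cf μ' t‖ ≤ 2 * B := by
      have := norm_sub_le (cf μ t) (cf μ' t)
      have h3 := cf_norm_le μ t
      have h4 := cf_norm_le μ' t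
      linarith
    have h2 : ‖cf μ t - cf μ' t‖ ^ 2 ≤ 4 * B ^ 2 := by
      have := pow_le_pow_left₀ (norm_nonneg _) h1 2
      linarith
    have h3 : T ^ 2 ≤ (b1 ^ 2 + b2 ^ 2) * (x ^ 2 + y ^ 2) := by
      have h4 : T ^ 2 ≤ t ^ 2 := by
        rw [← sq_abs t]
        exact pow_le_pow_left₀ hT h.le 2
      have h5 : t ^ 2 ≤ (b1 ^ 2 + b2 ^ 2) * (x ^ 2 + y ^ 2) := by
        rw [ht]
        nlinarith [sq_nonneg (b1 * y - b2 * x)]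
      linarith
    have h6 : Real.exp (-(δ ^ 2 * (x ^ 2 + y ^ 2)) / 2) ≤
        Real.exp (-(δ * T) ^ 2 / (2 * (b1 ^ 2 + b2 ^ 2))) := by
      rw [Real.exp_le_exp, div_le_div_iff₀ (by norm_num) (by positivity)]
      have h7 := mul_le_mul_of_nonneg_left h3 (sq_nonneg δ)
      nlinarith [h7]
    calc Real.exp (-(δ ^ 2 * (x ^ 2 + y ^ 2)) / 2) * ‖cf μ t - cf μ' t‖ ^ 2 ≤
          Real.exp (-(δ * T) ^ 2 / (2 * (b1 ^ 2 + b2 ^ 2))) * (4 * B ^ 2) :=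
          mul_le_mul h6 h2 (sq_nonneg _) (Real.exp_pos _).le
      _ ≤ _ := by nlinarith [sq_nonneg ε]

theorem t2b {a1 b1 a2 b2 : ℝ} (hd : a1 * b2 - a2 * b1 ≠ 0) : ∃ C : ℝ, 1 ≤ C ∧
    ∀ (δ T B ε : ℝ) (μ1 μ2 μ μ' : Measure ℝ), 0 < δ → 0 ≤ T → 1 ≤ B → 0 ≤ ε → Adm δ B μ1 → Adm δ B μ2 →
    IsFiniteMeasure μ → IsFiniteMeasure μ' → (μ Set.univ).toReal ≤ B → (μ' Set.univ).toReal ≤ B →
    (∀ t : ℝ, |t| ≤ T → ‖cf μ t - cf μ' t‖ ≤ ε) →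
    Integrable (fun p : ℝ × ℝ => JJ δ μ1 μ2 a1 b1 a2 b2 μ μ' p.1 p.2 ^ 2) ∧
    ∫ p : ℝ × ℝ, JJ δ μ1 μ2 a1 b1 a2 b2 μ μ' p.1 p.2 ^ 2 ≤ C * B ^ 6 * (ε ^ 2 + Real.exp (-(δ * T) ^ 2 / C)) := by
  set Δ : ℝ := |a1 * b2 - a2 * b1|⁻¹ with hΔ
  have hΔ0 : 0 < Δ := inv_pos.mpr (abs_pos.mpr hd)
  have hs0 : 0 < b1 ^ 2 + b2 ^ 2 := by
    rcases eq_or_ne b1 0 with h | h
    · have h2 : b2 ≠ 0 := by
        rintro rfl
        apply hd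
        rw [h]
        ring
      positivity
    · positivity
  have hpi := Real.pi_pos
  have hC1 : 0 ≤ 16 * Real.pi * Δ := by positivity
  refine ⟨1 + 16 * Real.pi * Δ + 2 * (b1 ^ 2 + b2 ^ 2), by linarith, ?_⟩
  intro δ T B ε μ1 μ2 μ μ' hδ hT hB hε hA1 hA2 hfμ hfμ' hμ hμ' hcf
  have i1 := hA1.1
  have i2 := hA2.1
  have j1 := t2b_fin μ1 μ2 μ b1 b2
  have j2 := t2b_fin μ1 μ2 μ' b1 b2
  have hB0 : 0 ≤ B := by linarith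
  have hgg : ∀ (p : ℝ × ℝ) (ν : Measure ℝ), ∫ u, gg δ μ1 μ2 a1 b1 a2 b2 p.2 (u + p.1) ∂ν =
      ∫ u, gsm δ μ1 (a1 * p.2 + b1 * p.1 + b1 * u) * gsm δ μ2 (a2 * p.2 + b2 * p.1 + b2 * u) ∂ν := by
    intro p ν
    refine integral_congr_ae (Filter.Eventually.of_forall fun u => ?_)
    simp only
    unfold gg
    rw [show a1 * p.2 + b1 * (u + p.1) = a1 * p.2 + b1 * p.1 + b1 * u by ring,
      show a2 * p.2 + b2 * (u + p.1) = a2 * p.2 + b2 * p.1 + b2 * u by ring]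
  have hJ : (fun p : ℝ × ℝ => JJ δ μ1 μ2 a1 b1 a2 b2 μ μ' p.1 p.2 ^ 2) = fun p : ℝ × ℝ =>
      (fun q : ℝ × ℝ => ((∫ x, Real.exp (-((x.1 - q.1) ^ 2 + (x.2 - q.2) ^ 2) / (2 * δ ^ 2)) ∂(t2bM μ1 μ2 b1 b2 μ)) -
        (∫ x, Real.exp (-((x.1 - q.1) ^ 2 + (x.2 - q.2) ^ 2) / (2 * δ ^ 2)) ∂(t2bM μ1 μ2 b1 b2 μ'))) ^ 2)
        (a1 * p.2 + b1 * p.1, a2 * p.2 + b2 * p.1) := by
    funext p
    simp only
    rw [t2b_E, t2b_E, ← hgg, ← hgg]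
    rfl
  obtain ⟨k1, k2⟩ := planch2_int (t2bM μ1 μ2 b1 b2 μ) (t2bM μ1 μ2 b1 b2 μ') hδ
  have k3 := planch2 (t2bM μ1 μ2 b1 b2 μ) (t2bM μ1 μ2 b1 b2 μ') hδ
  obtain ⟨l1, l2⟩ := t2b_L hd k1
  rw [hJ]
  refine ⟨l1, ?_⟩
  rw [l2, k3, ← hΔ]
  simp only [t2b_F] at k2 ⊢
  obtain ⟨m1, n1⟩ := t2b_A hδ hB0 hA1
  obtain ⟨m2, n2⟩ := t2b_A hδ hB0 hA2
  obtain ⟨K, hK⟩ : ∃ K : ℝ, K = ε ^ 2 + 4 * B ^ 2 * Real.exp (-(δ * T) ^ 2 / (2 * (b1 ^ 2 + b2 ^ 2))) := ⟨_, rfl⟩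
  have hpt := fun τ : ℝ × ℝ => t2b_pt (δ := δ) μ1 μ2 μ μ' hT hs0 hμ hμ' hcf τ.1 τ.2
  rw [← hK] at hpt
  obtain ⟨A1, hA1d⟩ : ∃ A : ℝ → ℝ, A = fun τ => Real.exp (-(δ ^ 2 * τ ^ 2) / 2) * ‖cf μ1 τ‖ ^ 2 := ⟨_, rfl⟩
  obtain ⟨A2, hA2d⟩ : ∃ A : ℝ → ℝ, A = fun τ => Real.exp (-(δ ^ 2 * τ ^ 2) / 2) * ‖cf μ2 τ‖ ^ 2 := ⟨_, rfl⟩
  have hpt' : ∀ τ : ℝ × ℝ, Real.exp (-(δ ^ 2 * (τ.1 ^ 2 + τ.2 ^ 2))) *
      ‖cf μ1 τ.1 * cf μ2 τ.2 * cf μ (-(b1 * τ.1 + b2 * τ.2)) - cf μ1 τ.1 * cf μ2 τ.2 * cf μ' (-(b1 * τ.1 + b2 * τ.2))‖ ^ 2 ≤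
      A1 τ.1 * A2 τ.2 * K := by
    intro τ
    rw [hA1d, hA2d]
    exact hpt τ
  rw [← hA1d] at m1 n1
  rw [← hA2d] at m2 n2
  have hint : ∫ τ : ℝ × ℝ, Real.exp (-(δ ^ 2 * (τ.1 ^ 2 + τ.2 ^ 2))) *
      ‖cf μ1 τ.1 * cf μ2 τ.2 * cf μ (-(b1 * τ.1 + b2 * τ.2)) - cf μ1 τ.1 * cf μ2 τ.2 * cf μ' (-(b1 * τ.1 + b2 * τ.2))‖ ^ 2 ≤
      (∫ τ, A1 τ) * (∫ τ, A2 τ) * K := by
    have h1 : Integrable (fun τ : ℝ × ℝ => A1 τ.1 * A2 τ.2) := by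
      rw [Measure.volume_eq_prod]
      exact m1.mul_prod m2
    have h2 : ∫ τ : ℝ × ℝ, A1 τ.1 * A2 τ.2 * K = (∫ τ, A1 τ) * (∫ τ, A2 τ) * K := by
      rw [integral_mul_const, Measure.volume_eq_prod, integral_prod_mul]
    rw [← h2]
    exact integral_mono k2 (h1.mul_const K) hpt'
  have hp1 : 0 ≤ ∫ τ, A1 τ := integral_nonneg fun τ => by rw [hA1d]; positivity
  have hp2 : 0 ≤ ∫ τ, A2 τ := integral_nonneg fun τ => by rw [hA2d]; positivity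
  exact t2b_arith hΔ0 hs0 hδ hB hp1 hp2 n1 n2 (T := T) hK hint

end HLA
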