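import Pool.Agent.HLA.FourA
import Pool.Agent.HLA.FourB
import Pool.Agent.HLA.FourC

/-!
# HLA.T4L: asymptotic formula for the weighted number of prime quadruples nearly in geometric progression

PROOF. `m = log μ`. `tf_eq`, `tf_diff` (`A = 1`, so the difference tends to `0`), `tf_lim`: `κ √(2π/14) e^(2w) T4 → (√(2π) κ)³ 2πσ²/√20`, and
`(2π)^(3/2) κ³ 2πσ² / (√20 κ √(2π/14)) = 4π² κ² σ² √(14/20)`.
-/

namespace HLA

open MeasureTheory ArithmeticFunction SMC Filter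

theorem t4_lim {σ κ μ h1 h2 : ℝ} (hσ : 0 < σ) (hσ1 : σ ≤ 1) (hκ : 0 < κ) (hμ : 1 ≤ μ) :
    Tendsto (fun w : ℝ => Real.exp (2 * w) * T4 σ κ w μ h1 h2) atTop
      (nhds (4 * Real.pi ^ 2 * κ ^ 2 * σ ^ 2 * Real.sqrt (7 / 10))) := by
  have hμ0 : 0 < μ := lt_of_lt_of_le one_pos hμ
  set m : ℝ := Real.log μ with hm
  have hem : Real.exp m = μ := Real.exp_log hμ0
  -- the difference
  obtain ⟨w0, hw0, hd⟩ := tf_diff (σ := σ) (κ := κ) 0 m (2 * m) (3 * m) 0 (-h1) (-h2) 1 hσ hσ1 hκ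
  have hdiff : Tendsto (fun w : ℝ =>
      TF (κ * Real.exp (-w)) (muP σ (w + 0)) (up w (0 * Real.exp (-w)) (muP σ (w + m)))
        (up w (-h1 * Real.exp (-w)) (muP σ (w + 2 * m))) (up w (-h2 * Real.exp (-w)) (muP σ (w + 3 * m))) -
      TF (κ * Real.exp (-w)) (muL σ (w + 0)) (up w (0 * Real.exp (-w)) (muL σ (w + m)))
        (up w (-h1 * Real.exp (-w)) (muL σ (w + 2 * m))) (up w (-h2 * Real.exp (-w)) (muL σ (w + 3 * m)))) atTop
      (nhds 0) := by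
    refine squeeze_zero_norm' (a := fun w : ℝ => w ^ (-(1 : ℝ))) ?_ (tendsto_rpow_neg_atTop one_pos)
    filter_upwards [eventually_ge_atTop w0] with w hw
    rw [Real.norm_eq_abs]
    exact hd w hw
  have hL := tf_lim (σ := σ) (κ := κ) m 0 (-h1) (-h2) hσ hκ
  have hP : Tendsto (fun w : ℝ =>
      TF (κ * Real.exp (-w)) (muP σ (w + 0)) (up w (0 * Real.exp (-w)) (muP σ (w + m)))
        (up w (-h1 * Real.exp (-w)) (muP σ (w + 2 * m))) (up w (-h2 * Real.exp (-w)) (muP σ (w + 3 * m)))) atTop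
      (nhds ((Real.sqrt (2 * Real.pi) * κ) ^ 3 * (2 * Real.pi * σ ^ 2 / Real.sqrt 20))) := by
    have h := hdiff.add hL
    rw [zero_add] at h
    refine h.congr fun w => ?_
    ring
  have hc : κ * Real.sqrt (2 * Real.pi / 14) ≠ 0 :=
    mul_ne_zero hκ.ne' (Real.sqrt_ne_zero'.2 (by positivity))
  have hfin := hP.div_const (κ * Real.sqrt (2 * Real.pi / 14))
  have hval : (Real.sqrt (2 * Real.pi) * κ) ^ 3 * (2 * Real.pi * σ ^ 2 / Real.sqrt 20) /
      (κ * Real.sqrt (2 * Real.pi / 14)) = 4 * Real.pi ^ 2 * κ ^ 2 * σ ^ 2 * Real.sqrt (7 / 10) := by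
    have h1 : Real.sqrt (2 * Real.pi / 14) = Real.sqrt (2 * Real.pi) / Real.sqrt 14 :=
      Real.sqrt_div' _ (by norm_num)
    have h2 : Real.sqrt (7 / 10) = Real.sqrt 14 / Real.sqrt 20 := by
      rw [← Real.sqrt_div' _ (by norm_num : (0 : ℝ) ≤ 20)]
      congr 1
      norm_num
    have h3 : Real.sqrt (2 * Real.pi) ^ 2 = 2 * Real.pi := Real.sq_sqrt (by positivity)
    have h4 : Real.sqrt (2 * Real.pi) ≠ 0 := Real.sqrt_ne_zero'.2 (by positivity)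
    have h5 : Real.sqrt 14 ≠ 0 := Real.sqrt_ne_zero'.2 (by norm_num)
    have h6 : Real.sqrt 20 ≠ 0 := Real.sqrt_ne_zero'.2 (by norm_num)
    rw [h1, h2]
    have e : (Real.sqrt (2 * Real.pi) * κ) ^ 3 * (2 * Real.pi * σ ^ 2 / Real.sqrt 20) /
        (κ * (Real.sqrt (2 * Real.pi) / Real.sqrt 14)) =
        Real.sqrt (2 * Real.pi) ^ 2 * κ ^ 2 * (2 * Real.pi * σ ^ 2) * (Real.sqrt 14 / Real.sqrt 20) := by
      field_simp
    rw [e, h3]
    ring
  rw [hval] at hfin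
  refine hfin.congr fun w => ?_
  rw [tf_eq w m h1 h2 hσ hσ1 hκ, hem, mul_div_cancel_left₀ _ hc]

end HLA
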