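import Pool.Agent.HLA.T2a
import Pool.Agent.HLA.T2b

/-!
# HLA.TwoM: the abstract type II estimate

PROOF. Write `g y x = gg δ μ1 μ2 a1 b1 a2 b2 y x`: `0 ≤ g ≤ B²`, continuous, `∫ g y x dy ≤ C B²` for every `x` (substitution, `adm_int`, `a1 ≠ 0`).
`JJ v y ^ 2 = ∑_{i,j} ± ∫∫ g y (u+v) g y (u'+v) dμi(u) dμj(u')`, `μi, μj ∈ {μ, μ'}`. Fubini (everything is absolutely integrable on `ν ⊗ dy ⊗ μi ⊗ μj`):
`∫ (∫ JJ² dy) dν = ∑ ± ∫∫ I_ν(u,u') dμi dμj`, and the same for `ρ` instead of `ν`; `|I_ν - I_ρ| ≤ C B^5 (ε' + exp(-(δT)²/C))` by `t2a`, so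
`|∫ (∫ JJ² dy) dν - ∫ (∫ JJ² dy) dρ| ≤ 4 B² · C B^5 (..)`. As `ρ ≤ volume` and `JJ² ≥ 0`: `∫ (∫ JJ² dy) dρ ≤ ∫∫ JJ² dy dv`, and `t2b`.
Integrability w.r.t. `ν ⊗ dy`: `|JJ| ≤ 2 B³`, `∫ |JJ v y| dy ≤ 2 B C B²` for all `v`, and `ν` is finite.
-/

namespace HLA

open MeasureTheory SMC

private theorem twoM_cont (δ : ℝ) (μ1 μ2 : Measure ℝ) [IsFiniteMeasure μ1] [IsFiniteMeasure μ2] (a1 b1 a2 b2 : ℝ) :
    Continuous fun q : ℝ × ℝ => gg δ μ1 μ2 a1 b1 a2 b2 q.1 q.2 := by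
  have c1 := gsm_cont δ μ1
  have c2 := gsm_cont δ μ2
  unfold gg
  exact (c1.comp (by fun_prop)).mul (c2.comp (by fun_prop))

private theorem twoM_nonneg (δ : ℝ) (μ1 μ2 : Measure ℝ) (a1 b1 a2 b2 y x : ℝ) : 0 ≤ gg δ μ1 μ2 a1 b1 a2 b2 y x := by
  unfold gg
  exact mul_nonneg (gsm_nonneg _ _ _) (gsm_nonneg _ _ _)

private theorem twoM_le {δ B : ℝ} {μ1 μ2 : Measure ℝ} (h1 : Adm δ B μ1) (h2 : Adm δ B μ2) (a1 b1 a2 b2 y x : ℝ) :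
    gg δ μ1 μ2 a1 b1 a2 b2 y x ≤ B ^ 2 := by
  unfold gg
  rw [sq]
  exact mul_le_mul (h1.2.1 _) (h2.2.1 _) (gsm_nonneg _ _ _) ((gsm_nonneg _ _ _).trans (h1.2.1 0))

private theorem twoM_int {δ B : ℝ} (hδ : 0 < δ) (hB : 0 ≤ B) {μ1 μ2 : Measure ℝ} (h1 : Adm δ B μ1) (h2 : Adm δ B μ2)
    {a1 : ℝ} (ha1 : a1 ≠ 0) (b1 a2 b2 x : ℝ) : Integrable (fun y => gg δ μ1 μ2 a1 b1 a2 b2 y x) ∧
    ∫ y, gg δ μ1 μ2 a1 b1 a2 b2 y x ≤ |a1⁻¹| * (Real.sqrt (2 * Real.pi) * B) * B := by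
  have i1 := h1.1
  have i2 := h2.1
  obtain ⟨h3, h4⟩ := adm_int hδ h1
  have h5 : Integrable fun y => gsm δ μ1 (a1 * y + b1 * x) * B :=
    ((h3.comp_add_right (b1 * x)).comp_mul_left' ha1).mul_const B
  have h6 : ∀ y, gg δ μ1 μ2 a1 b1 a2 b2 y x ≤ gsm δ μ1 (a1 * y + b1 * x) * B := fun y => by
    unfold gg
    exact mul_le_mul_of_nonneg_left (h2.2.1 _) (gsm_nonneg _ _ _)
  have h7 : Integrable (fun y => gg δ μ1 μ2 a1 b1 a2 b2 y x) := by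
    refine h5.mono' ?_ (Filter.Eventually.of_forall fun y => ?_)
    · exact ((twoM_cont δ μ1 μ2 a1 b1 a2 b2).comp (by fun_prop : Continuous fun y : ℝ => (y, x))).aestronglyMeasurable
    · rw [Real.norm_eq_abs, abs_of_nonneg (twoM_nonneg _ _ _ _ _ _ _ _ _)]
      exact h6 y
  refine ⟨h7, (integral_mono h7 h5 h6).trans ?_⟩
  rw [integral_mul_const]
  refine mul_le_mul_of_nonneg_right ?_ hB
  have h8 : ∫ y, gsm δ μ1 (a1 * y + b1 * x) = |a1⁻¹| * ∫ y, gsm δ μ1 y := by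
    have h9 := Measure.integral_comp_mul_left (fun z => gsm δ μ1 (z + b1 * x)) a1
    rw [integral_add_right_eq_self (gsm δ μ1) (b1 * x), smul_eq_mul] at h9
    exact h9
  rw [h8]
  exact mul_le_mul_of_nonneg_left h4 (abs_nonneg _)

/-- The product of two kernels. -/
private noncomputable def twoMF (δ : ℝ) (μ1 μ2 : Measure ℝ) (a1 b1 a2 b2 v y : ℝ) (p : ℝ × ℝ) : ℝ :=
  gg δ μ1 μ2 a1 b1 a2 b2 y (p.1 + v) * gg δ μ1 μ2 a1 b1 a2 b2 y (p.2 + v)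

private theorem twoMF_cont (δ : ℝ) (μ1 μ2 : Measure ℝ) [IsFiniteMeasure μ1] [IsFiniteMeasure μ2] (a1 b1 a2 b2 : ℝ) :
    Continuous fun q : (ℝ × (ℝ × ℝ)) × ℝ => twoMF δ μ1 μ2 a1 b1 a2 b2 q.1.1 q.2 q.1.2 := by
  have c1 := twoM_cont δ μ1 μ2 a1 b1 a2 b2
  unfold twoMF
  exact (c1.comp (by fun_prop : Continuous fun q : (ℝ × (ℝ × ℝ)) × ℝ => (q.2, q.1.2.1 + q.1.1))).mul
    (c1.comp (by fun_prop : Continuous fun q : (ℝ × (ℝ × ℝ)) × ℝ => (q.2, q.1.2.2 + q.1.1)))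

private theorem twoMF_nonneg (δ : ℝ) (μ1 μ2 : Measure ℝ) (a1 b1 a2 b2 v y : ℝ) (p : ℝ × ℝ) :
    0 ≤ twoMF δ μ1 μ2 a1 b1 a2 b2 v y p := by
  unfold twoMF
  exact mul_nonneg (twoM_nonneg _ _ _ _ _ _ _ _ _) (twoM_nonneg _ _ _ _ _ _ _ _ _)

private theorem twoMF_int {δ B : ℝ} (hδ : 0 < δ) (hB : 0 ≤ B) {μ1 μ2 : Measure ℝ} (h1 : Adm δ B μ1) (h2 : Adm δ B μ2)
    {a1 : ℝ} (ha1 : a1 ≠ 0) (b1 a2 b2 v : ℝ) (p : ℝ × ℝ) : Integrable (fun y => twoMF δ μ1 μ2 a1 b1 a2 b2 v y p) ∧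
    ∫ y, twoMF δ μ1 μ2 a1 b1 a2 b2 v y p ≤ |a1⁻¹| * (Real.sqrt (2 * Real.pi) * B) * B * B ^ 2 := by
  have i1 := h1.1
  have i2 := h2.1
  obtain ⟨h3, h4⟩ := twoM_int hδ hB h1 h2 ha1 b1 a2 b2 (p.1 + v)
  have h6 : ∀ y, twoMF δ μ1 μ2 a1 b1 a2 b2 v y p ≤ gg δ μ1 μ2 a1 b1 a2 b2 y (p.1 + v) * B ^ 2 := fun y => by
    unfold twoMF
    exact mul_le_mul_of_nonneg_left (twoM_le h1 h2 _ _ _ _ _ _) (twoM_nonneg _ _ _ _ _ _ _ _ _)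
  have h5 := h3.mul_const (B ^ 2)
  have h7 : Integrable (fun y => twoMF δ μ1 μ2 a1 b1 a2 b2 v y p) := by
    refine h5.mono' ?_ (Filter.Eventually.of_forall fun y => ?_)
    · exact ((twoMF_cont δ μ1 μ2 a1 b1 a2 b2).comp
        (by fun_prop : Continuous fun y : ℝ => ((v, p), y))).aestronglyMeasurable
    · rw [Real.norm_eq_abs, abs_of_nonneg (twoMF_nonneg _ _ _ _ _ _ _ _ _ _)]
      exact h6 y
  refine ⟨h7, (integral_mono h7 h5 h6).trans ?_⟩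
  rw [integral_mul_const]
  exact mul_le_mul_of_nonneg_right h4 (sq_nonneg B)

/-- The inner integral over `y`. -/
private noncomputable def twoMG (δ : ℝ) (μ1 μ2 : Measure ℝ) (a1 b1 a2 b2 v : ℝ) (p : ℝ × ℝ) : ℝ :=
  ∫ y, twoMF δ μ1 μ2 a1 b1 a2 b2 v y p

private theorem twoMG_nonneg (δ : ℝ) (μ1 μ2 : Measure ℝ) (a1 b1 a2 b2 v : ℝ) (p : ℝ × ℝ) :
    0 ≤ twoMG δ μ1 μ2 a1 b1 a2 b2 v p := by
  unfold twoMG
  exact integral_nonneg fun y => twoMF_nonneg _ _ _ _ _ _ _ _ _ _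

private theorem twoMG_meas (δ : ℝ) (μ1 μ2 : Measure ℝ) [IsFiniteMeasure μ1] [IsFiniteMeasure μ2] (a1 b1 a2 b2 : ℝ) :
    StronglyMeasurable fun q : ℝ × (ℝ × ℝ) => twoMG δ μ1 μ2 a1 b1 a2 b2 q.1 q.2 := by
  unfold twoMG
  exact (twoMF_cont δ μ1 μ2 a1 b1 a2 b2).stronglyMeasurable.integral_prod_right'

private theorem twoMG_intble {δ B : ℝ} (hδ : 0 < δ) (hB : 0 ≤ B) {μ1 μ2 : Measure ℝ} (h1 : Adm δ B μ1)
    (h2 : Adm δ B μ2) {a1 : ℝ} (ha1 : a1 ≠ 0) (b1 a2 b2 : ℝ) (σ : Measure ℝ) (M : Measure (ℝ × ℝ)) [IsFiniteMeasure σ]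
    [IsFiniteMeasure M] : Integrable (fun q : ℝ × (ℝ × ℝ) => twoMG δ μ1 μ2 a1 b1 a2 b2 q.1 q.2) (σ.prod M) := by
  have i1 := h1.1
  have i2 := h2.1
  refine Integrable.mono' (integrable_const (|a1⁻¹| * (Real.sqrt (2 * Real.pi) * B) * B * B ^ 2))
    (twoMG_meas δ μ1 μ2 a1 b1 a2 b2).aestronglyMeasurable (Filter.Eventually.of_forall fun q => ?_)
  rw [Real.norm_eq_abs, abs_of_nonneg (twoMG_nonneg _ _ _ _ _ _ _ _ _)]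
  exact (twoMF_int hδ hB h1 h2 ha1 b1 a2 b2 q.1 q.2).2

/-- For fixed `v`. -/
private theorem twoMF_prod {δ B : ℝ} (hδ : 0 < δ) (hB : 0 ≤ B) {μ1 μ2 : Measure ℝ} (h1 : Adm δ B μ1)
    (h2 : Adm δ B μ2) {a1 : ℝ} (ha1 : a1 ≠ 0) (b1 a2 b2 v : ℝ) (M : Measure (ℝ × ℝ)) [IsFiniteMeasure M] :
    Integrable (fun q : ℝ × (ℝ × ℝ) => twoMF δ μ1 μ2 a1 b1 a2 b2 v q.1 q.2) (volume.prod M) := by
  have i1 := h1.1
  have i2 := h2.1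
  have hc : Continuous fun q : ℝ × (ℝ × ℝ) => twoMF δ μ1 μ2 a1 b1 a2 b2 v q.1 q.2 :=
    (twoMF_cont δ μ1 μ2 a1 b1 a2 b2).comp (by fun_prop : Continuous fun q : ℝ × (ℝ × ℝ) => ((v, q.2), q.1))
  rw [integrable_prod_iff' hc.aestronglyMeasurable]
  constructor
  · exact Filter.Eventually.of_forall fun p => (twoMF_int hδ hB h1 h2 ha1 b1 a2 b2 v p).1
  · have e1 : (fun p : ℝ × ℝ => ∫ y : ℝ, ‖twoMF δ μ1 μ2 a1 b1 a2 b2 v (y, p).1 (y, p).2‖) =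
        fun p => twoMG δ μ1 μ2 a1 b1 a2 b2 v p := by
      funext p
      unfold twoMG
      refine integral_congr_ae (Filter.Eventually.of_forall fun y => ?_)
      simp only
      rw [Real.norm_eq_abs, abs_of_nonneg (twoMF_nonneg _ _ _ _ _ _ _ _ _ _)]
    rw [e1]
    refine Integrable.mono' (integrable_const (|a1⁻¹| * (Real.sqrt (2 * Real.pi) * B) * B * B ^ 2))
      ((twoMG_meas δ μ1 μ2 a1 b1 a2 b2).comp_measurable (by fun_prop : Measurable fun p : ℝ × ℝ => (v, p))).aestronglyMeasurable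
      (Filter.Eventually.of_forall fun p => ?_)
    rw [Real.norm_eq_abs, abs_of_nonneg (twoMG_nonneg _ _ _ _ _ _ _ _ _)]
    exact (twoMF_int hδ hB h1 h2 ha1 b1 a2 b2 v p).2

/-- Smoothing of `g` by one measure. -/
private noncomputable def twoMP (δ : ℝ) (μ1 μ2 : Measure ℝ) (a1 b1 a2 b2 : ℝ) (m : Measure ℝ) (v y : ℝ) : ℝ :=
  ∫ u, gg δ μ1 μ2 a1 b1 a2 b2 y (u + v) ∂m

private theorem twoMP_mul (δ : ℝ) (μ1 μ2 : Measure ℝ) (a1 b1 a2 b2 : ℝ) (m m' : Measure ℝ) [SFinite m] [SFinite m']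
    (v y : ℝ) : twoMP δ μ1 μ2 a1 b1 a2 b2 m v y * twoMP δ μ1 μ2 a1 b1 a2 b2 m' v y =
      ∫ p, twoMF δ μ1 μ2 a1 b1 a2 b2 v y p ∂(m.prod m') := by
  unfold twoMP twoMF
  exact (integral_prod_mul (μ := m) (ν := m') (fun u => gg δ μ1 μ2 a1 b1 a2 b2 y (u + v))
    (fun u => gg δ μ1 μ2 a1 b1 a2 b2 y (u + v))).symm

private theorem twoMP_int {δ B : ℝ} (hδ : 0 < δ) (hB : 0 ≤ B) {μ1 μ2 : Measure ℝ} (h1 : Adm δ B μ1)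
    (h2 : Adm δ B μ2) {a1 : ℝ} (ha1 : a1 ≠ 0) (b1 a2 b2 v : ℝ) (m m' : Measure ℝ) [IsFiniteMeasure m]
    [IsFiniteMeasure m'] :
    Integrable (fun y => twoMP δ μ1 μ2 a1 b1 a2 b2 m v y * twoMP δ μ1 μ2 a1 b1 a2 b2 m' v y) ∧
    ∫ y, twoMP δ μ1 μ2 a1 b1 a2 b2 m v y * twoMP δ μ1 μ2 a1 b1 a2 b2 m' v y =
      ∫ p, twoMG δ μ1 μ2 a1 b1 a2 b2 v p ∂(m.prod m') := by
  have h3 := twoMF_prod hδ hB h1 h2 ha1 b1 a2 b2 v (m.prod m')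
  have e1 : (fun y => twoMP δ μ1 μ2 a1 b1 a2 b2 m v y * twoMP δ μ1 μ2 a1 b1 a2 b2 m' v y) =
      fun y => ∫ p, twoMF δ μ1 μ2 a1 b1 a2 b2 v y p ∂(m.prod m') := by
    funext y
    exact twoMP_mul δ μ1 μ2 a1 b1 a2 b2 m m' v y
  rw [e1]
  refine ⟨h3.integral_prod_left, ?_⟩
  unfold twoMG
  exact integral_integral_swap h3

/-- The integral over `v` of the mixed product. -/
private theorem twoMP_swap {δ B : ℝ} (hδ : 0 < δ) (hB : 0 ≤ B) {μ1 μ2 : Measure ℝ} (h1 : Adm δ B μ1)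
    (h2 : Adm δ B μ2) {a1 : ℝ} (ha1 : a1 ≠ 0) (b1 a2 b2 : ℝ) (m m' σ : Measure ℝ) [IsFiniteMeasure m]
    [IsFiniteMeasure m'] [IsFiniteMeasure σ] :
    Integrable (fun v => ∫ y, twoMP δ μ1 μ2 a1 b1 a2 b2 m v y * twoMP δ μ1 μ2 a1 b1 a2 b2 m' v y) σ ∧
    ∫ v, (∫ y, twoMP δ μ1 μ2 a1 b1 a2 b2 m v y * twoMP δ μ1 μ2 a1 b1 a2 b2 m' v y) ∂σ =
      ∫ p, (∫ v, twoMG δ μ1 μ2 a1 b1 a2 b2 v p ∂σ) ∂(m.prod m') := by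
  have h3 := twoMG_intble hδ hB h1 h2 ha1 b1 a2 b2 σ (m.prod m')
  have e1 : (fun v => ∫ y, twoMP δ μ1 μ2 a1 b1 a2 b2 m v y * twoMP δ μ1 μ2 a1 b1 a2 b2 m' v y) =
      fun v => ∫ p, twoMG δ μ1 μ2 a1 b1 a2 b2 v p ∂(m.prod m') := by
    funext v
    exact (twoMP_int hδ hB h1 h2 ha1 b1 a2 b2 v m m').2
  rw [e1]
  exact ⟨h3.integral_prod_left, integral_integral_swap h3⟩

private theorem twoM_JJ (δ : ℝ) (μ1 μ2 : Measure ℝ) (a1 b1 a2 b2 : ℝ) (μ μ' : Measure ℝ) (v y : ℝ) :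
    JJ δ μ1 μ2 a1 b1 a2 b2 μ μ' v y ^ 2 =
      twoMP δ μ1 μ2 a1 b1 a2 b2 μ v y * twoMP δ μ1 μ2 a1 b1 a2 b2 μ v y -
        2 * (twoMP δ μ1 μ2 a1 b1 a2 b2 μ v y * twoMP δ μ1 μ2 a1 b1 a2 b2 μ' v y) +
        twoMP δ μ1 μ2 a1 b1 a2 b2 μ' v y * twoMP δ μ1 μ2 a1 b1 a2 b2 μ' v y := by
  unfold JJ twoMP
  ring

private theorem twoM_lin {α : Type*} [MeasurableSpace α] {σ : Measure α} {f g h : α → ℝ} (hf : Integrable f σ)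
    (hg : Integrable g σ) (hh : Integrable h σ) : Integrable (fun x => f x - 2 * g x + h x) σ ∧
    ∫ x, (f x - 2 * g x + h x) ∂σ = (∫ x, f x ∂σ) - 2 * (∫ x, g x ∂σ) + ∫ x, h x ∂σ := by
  have i1 : Integrable (fun x => 2 * g x) σ := hg.const_mul 2
  have i2 : Integrable (fun x => f x - 2 * g x) σ := hf.sub i1
  refine ⟨i2.add hh, ?_⟩
  rw [integral_add i2 hh, integral_sub hf i1, integral_const_mul]

/-- The square of `JJ`: for fixed `v`. -/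
private theorem twoM_JJv {δ B : ℝ} (hδ : 0 < δ) (hB : 0 ≤ B) {μ1 μ2 : Measure ℝ} (h1 : Adm δ B μ1)
    (h2 : Adm δ B μ2) {a1 : ℝ} (ha1 : a1 ≠ 0) (b1 a2 b2 v : ℝ) (μ μ' : Measure ℝ) [IsFiniteMeasure μ]
    [IsFiniteMeasure μ'] :
    Integrable (fun y => JJ δ μ1 μ2 a1 b1 a2 b2 μ μ' v y ^ 2) ∧
    ∫ y, JJ δ μ1 μ2 a1 b1 a2 b2 μ μ' v y ^ 2 =
      (∫ y, twoMP δ μ1 μ2 a1 b1 a2 b2 μ v y * twoMP δ μ1 μ2 a1 b1 a2 b2 μ v y) -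
        2 * (∫ y, twoMP δ μ1 μ2 a1 b1 a2 b2 μ v y * twoMP δ μ1 μ2 a1 b1 a2 b2 μ' v y) +
        ∫ y, twoMP δ μ1 μ2 a1 b1 a2 b2 μ' v y * twoMP δ μ1 μ2 a1 b1 a2 b2 μ' v y := by
  have i1 := (twoMP_int hδ hB h1 h2 ha1 b1 a2 b2 v μ μ).1
  have i2 := (twoMP_int hδ hB h1 h2 ha1 b1 a2 b2 v μ μ').1
  have i3 := (twoMP_int hδ hB h1 h2 ha1 b1 a2 b2 v μ' μ').1
  simp only [twoM_JJ]
  exact twoM_lin i1 i2 i3

/-- The square of `JJ`: the integral over `v`. -/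
private theorem twoM_JJs {δ B : ℝ} (hδ : 0 < δ) (hB : 0 ≤ B) {μ1 μ2 : Measure ℝ} (h1 : Adm δ B μ1)
    (h2 : Adm δ B μ2) {a1 : ℝ} (ha1 : a1 ≠ 0) (b1 a2 b2 : ℝ) (μ μ' σ : Measure ℝ) [IsFiniteMeasure μ]
    [IsFiniteMeasure μ'] [IsFiniteMeasure σ] :
    Integrable (fun v => ∫ y, JJ δ μ1 μ2 a1 b1 a2 b2 μ μ' v y ^ 2) σ ∧
    ∫ v, (∫ y, JJ δ μ1 μ2 a1 b1 a2 b2 μ μ' v y ^ 2) ∂σ =
      (∫ p, (∫ v, twoMG δ μ1 μ2 a1 b1 a2 b2 v p ∂σ) ∂(μ.prod μ)) -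
        2 * (∫ p, (∫ v, twoMG δ μ1 μ2 a1 b1 a2 b2 v p ∂σ) ∂(μ.prod μ')) +
        ∫ p, (∫ v, twoMG δ μ1 μ2 a1 b1 a2 b2 v p ∂σ) ∂(μ'.prod μ') := by
  obtain ⟨i1, j1⟩ := twoMP_swap hδ hB h1 h2 ha1 b1 a2 b2 μ μ σ
  obtain ⟨i2, j2⟩ := twoMP_swap hδ hB h1 h2 ha1 b1 a2 b2 μ μ' σ
  obtain ⟨i3, j3⟩ := twoMP_swap hδ hB h1 h2 ha1 b1 a2 b2 μ' μ' σ
  have e1 : (fun v => ∫ y, JJ δ μ1 μ2 a1 b1 a2 b2 μ μ' v y ^ 2) = fun v =>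
      (∫ y, twoMP δ μ1 μ2 a1 b1 a2 b2 μ v y * twoMP δ μ1 μ2 a1 b1 a2 b2 μ v y) -
        2 * (∫ y, twoMP δ μ1 μ2 a1 b1 a2 b2 μ v y * twoMP δ μ1 μ2 a1 b1 a2 b2 μ' v y) +
        ∫ y, twoMP δ μ1 μ2 a1 b1 a2 b2 μ' v y * twoMP δ μ1 μ2 a1 b1 a2 b2 μ' v y := by
    funext v
    exact (twoM_JJv hδ hB h1 h2 ha1 b1 a2 b2 v μ μ').2
  rw [e1, ← j1, ← j2, ← j3]
  exact twoM_lin i1 i2 i3

/-- The change of the measure. -/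
private theorem twoM_diff {δ B D : ℝ} (hδ : 0 < δ) (hB : 0 ≤ B) {μ1 μ2 : Measure ℝ} (h1 : Adm δ B μ1)
    (h2 : Adm δ B μ2) {a1 : ℝ} (ha1 : a1 ≠ 0) (b1 a2 b2 : ℝ) (m m' ν ρ : Measure ℝ) [IsFiniteMeasure m]
    [IsFiniteMeasure m'] [IsFiniteMeasure ν] [IsFiniteMeasure ρ] (hm : (m Set.univ).toReal ≤ B)
    (hm' : (m' Set.univ).toReal ≤ B)
    (hD : ∀ p : ℝ × ℝ, |(∫ v, twoMG δ μ1 μ2 a1 b1 a2 b2 v p ∂ν) - ∫ v, twoMG δ μ1 μ2 a1 b1 a2 b2 v p ∂ρ| ≤ D) :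
    |(∫ p, (∫ v, twoMG δ μ1 μ2 a1 b1 a2 b2 v p ∂ν) ∂(m.prod m')) -
      ∫ p, (∫ v, twoMG δ μ1 μ2 a1 b1 a2 b2 v p ∂ρ) ∂(m.prod m')| ≤ D * B ^ 2 := by
  have hD0 : 0 ≤ D := (abs_nonneg _).trans (hD 0)
  have j1 := (twoMG_intble hδ hB h1 h2 ha1 b1 a2 b2 ν (m.prod m')).integral_prod_right
  have j2 := (twoMG_intble hδ hB h1 h2 ha1 b1 a2 b2 ρ (m.prod m')).integral_prod_right
  rw [← integral_sub j1 j2]
  have h3 := norm_integral_le_of_norm_le (integrable_const D) (μ := m.prod m') (Filter.Eventually.of_forall fun p =>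
    (show ‖(∫ v, twoMG δ μ1 μ2 a1 b1 a2 b2 v p ∂ν) - ∫ v, twoMG δ μ1 μ2 a1 b1 a2 b2 v p ∂ρ‖ ≤ D by
      rw [Real.norm_eq_abs]
      exact hD p))
  rw [Real.norm_eq_abs, integral_const, smul_eq_mul] at h3
  refine h3.trans ?_
  rw [mul_comm]
  refine mul_le_mul_of_nonneg_left ?_ hD0
  have h4 : (m.prod m').real Set.univ = (m Set.univ).toReal * (m' Set.univ).toReal := by
    rw [← Set.univ_prod_univ, measureReal_def, Measure.prod_prod, ENNReal.toReal_mul]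
  rw [h4, sq]
  exact mul_le_mul hm hm' ENNReal.toReal_nonneg hB

theorem t2 {a1 b1 a2 b2 : ℝ} (ha1 : a1 ≠ 0) (ha2 : a2 ≠ 0) (hd : a1 * b2 - a2 * b1 ≠ 0) : ∃ C : ℝ, 1 ≤ C ∧
    ∀ (δ T B ε ε' : ℝ) (μ1 μ2 μ μ' ν ρ : Measure ℝ), 0 < δ → 0 ≤ T → 1 ≤ B → 0 ≤ ε → 0 ≤ ε' → Adm δ B μ1 → Adm δ B μ2 →
    IsFiniteMeasure μ → IsFiniteMeasure μ' → IsFiniteMeasure ν → IsFiniteMeasure ρ →
    (μ Set.univ).toReal ≤ B → (μ' Set.univ).toReal ≤ B → (ν Set.univ).toReal ≤ B → (ρ Set.univ).toReal ≤ B → ρ ≤ volume →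
    (∀ t : ℝ, |t| ≤ T → ‖cf μ t - cf μ' t‖ ≤ ε) → (∀ t : ℝ, |t| ≤ T → ‖cf ν t - cf ρ t‖ ≤ ε') →
    Integrable (fun p : ℝ × ℝ => JJ δ μ1 μ2 a1 b1 a2 b2 μ μ' p.1 p.2 ^ 2) (ν.prod volume) ∧
    ∫ v, (∫ y, JJ δ μ1 μ2 a1 b1 a2 b2 μ μ' v y ^ 2) ∂ν ≤
      C * B ^ 7 * (ε ^ 2 + ε' + Real.exp (-(δ * T) ^ 2 / C)) := by
  obtain ⟨C1, hC1, H1⟩ := t2a ha1 ha2 hd
  obtain ⟨C2, hC2, H2⟩ := t2b hd
  refine ⟨4 * C1 + C2, by linarith, ?_⟩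
  intro δ T B ε ε' μ1 μ2 μ μ' ν ρ hδ hT hB hε hε' h1 h2 iμ iμ' iν iρ mμ mμ' mν mρ hρ hcf hcf'
  have i1 := h1.1
  have i2 := h2.1
  have hB0 : 0 ≤ B := by linarith
  obtain ⟨k1, k2⟩ := H2 δ T B ε μ1 μ2 μ μ' hδ hT hB hε h1 h2 iμ iμ' mμ mμ' hcf
  have k3 : ∀ p : ℝ × ℝ, |(∫ v, twoMG δ μ1 μ2 a1 b1 a2 b2 v p ∂ν) - ∫ v, twoMG δ μ1 μ2 a1 b1 a2 b2 v p ∂ρ| ≤
      C1 * B ^ 5 * (ε' + Real.exp (-(δ * T) ^ 2 / C1)) := fun p =>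
    H1 δ T B ε' μ1 μ2 ν ρ hδ hT hB hε' h1 h2 iν iρ mν mρ hcf' p.1 p.2
  obtain ⟨l1, l2⟩ := twoM_JJs hδ hB0 h1 h2 ha1 b1 a2 b2 μ μ' ν
  obtain ⟨l3, l4⟩ := twoM_JJs hδ hB0 h1 h2 ha1 b1 a2 b2 μ μ' ρ
  constructor
  · have hm : AEStronglyMeasurable (fun p : ℝ × ℝ => JJ δ μ1 μ2 a1 b1 a2 b2 μ μ' p.1 p.2 ^ 2) (ν.prod volume) := by
      have c1 := twoM_cont δ μ1 μ2 a1 b1 a2 b2
      have hP : ∀ (m : Measure ℝ) [IsFiniteMeasure m], StronglyMeasurable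
          (fun q : ℝ × ℝ => ∫ u, gg δ μ1 μ2 a1 b1 a2 b2 q.2 (u + q.1) ∂m) := by
        intro m im
        exact (c1.comp (by fun_prop : Continuous fun q : (ℝ × ℝ) × ℝ =>
          (q.1.2, q.2 + q.1.1))).stronglyMeasurable.integral_prod_right'
      unfold JJ
      exact (((hP μ).sub (hP μ')).pow 2).aestronglyMeasurable
    rw [integrable_prod_iff hm]
    refine ⟨Filter.Eventually.of_forall fun v => (twoM_JJv hδ hB0 h1 h2 ha1 b1 a2 b2 v μ μ').1, ?_⟩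
    refine l1.congr (Filter.Eventually.of_forall fun v => ?_)
    refine integral_congr_ae (Filter.Eventually.of_forall fun y => ?_)
    simp only
    rw [Real.norm_eq_abs, abs_of_nonneg (sq_nonneg _)]
  · have d1 := twoM_diff hδ hB0 h1 h2 ha1 b1 a2 b2 μ μ ν ρ mμ mμ k3
    have d2 := twoM_diff hδ hB0 h1 h2 ha1 b1 a2 b2 μ μ' ν ρ mμ mμ' k3
    have d3 := twoM_diff hδ hB0 h1 h2 ha1 b1 a2 b2 μ' μ' ν ρ mμ' mμ' k3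
    rw [abs_le] at d1 d2 d3
    have e1 : ∫ v, (∫ y, JJ δ μ1 μ2 a1 b1 a2 b2 μ μ' v y ^ 2) ∂ρ ≤
        C2 * B ^ 6 * (ε ^ 2 + Real.exp (-(δ * T) ^ 2 / C2)) := by
      have e2 : Integrable (fun v => ∫ y, JJ δ μ1 μ2 a1 b1 a2 b2 μ μ' v y ^ 2) := k1.integral_prod_left
      refine (integral_mono_measure hρ (Filter.Eventually.of_forall fun v => integral_nonneg fun y => sq_nonneg _)
        e2).trans (le_trans (le_of_eq ?_) k2)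
      exact (integral_prod _ k1).symm
    have f1 : Real.exp (-(δ * T) ^ 2 / C1) ≤ Real.exp (-(δ * T) ^ 2 / (4 * C1 + C2)) := by
      rw [Real.exp_le_exp, neg_div, neg_div, neg_le_neg_iff]
      exact div_le_div_of_nonneg_left (sq_nonneg _) (by linarith) (by linarith)
    have f2 : Real.exp (-(δ * T) ^ 2 / C2) ≤ Real.exp (-(δ * T) ^ 2 / (4 * C1 + C2)) := by
      rw [Real.exp_le_exp, neg_div, neg_div, neg_le_neg_iff]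
      exact div_le_div_of_nonneg_left (sq_nonneg _) (by linarith) (by linarith)
    set E := Real.exp (-(δ * T) ^ 2 / (4 * C1 + C2)) with hE
    have hE0 : 0 < E := Real.exp_pos _
    have g1 : C1 * B ^ 5 * (ε' + Real.exp (-(δ * T) ^ 2 / C1)) * B ^ 2 ≤ C1 * B ^ 7 * (ε' + E) := by
      calc C1 * B ^ 5 * (ε' + Real.exp (-(δ * T) ^ 2 / C1)) * B ^ 2 =
          C1 * B ^ 7 * (ε' + Real.exp (-(δ * T) ^ 2 / C1)) := by ring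
        _ ≤ C1 * B ^ 7 * (ε' + E) := by
          refine mul_le_mul_of_nonneg_left (by linarith) ?_
          have : 0 ≤ C1 := by linarith
          positivity
    have g2 : C2 * B ^ 6 * (ε ^ 2 + Real.exp (-(δ * T) ^ 2 / C2)) ≤ C2 * B ^ 7 * (ε ^ 2 + E) := by
      have hC20 : 0 ≤ C2 := by linarith
      refine mul_le_mul (mul_le_mul_of_nonneg_left (pow_le_pow_right₀ hB (by norm_num)) hC20) (by linarith)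
        (by positivity) (by positivity)
    have hC10 : 0 ≤ C1 := by linarith
    have hC20 : 0 ≤ C2 := by linarith
    have g3 : 0 ≤ C1 * B ^ 7 * ε ^ 2 := by positivity
    have g4 : 0 ≤ C2 * B ^ 7 * ε' := by positivity
    rw [l2]
    rw [l4] at e1
    have key : (4 * C1 + C2) * B ^ 7 * (ε ^ 2 + ε' + E) = 4 * (C1 * B ^ 7 * (ε' + E)) + C2 * B ^ 7 * (ε ^ 2 + E) +
        4 * (C1 * B ^ 7 * ε ^ 2) + C2 * B ^ 7 * ε' := by ring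
    rw [key]
    linarith [d1.1, d1.2, d2.1, d2.2, d3.1, d3.2]

end HLA
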