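import Pool.Agent.HLA.De
import Pool.Agent.HLA.TwoM
import Pool.Agent.HLA.Nu
import Pool.Agent.HLA.Bs

/-!
# HLA.TMain: the type II sum does not change if `D` is smoothed at the scale `w^(-N)`

PROOF. `η = w^(-N)`, `β = bM (w/200) s t`, `b = c - t`, `D x = ∫ K(y) g y x dy`, `g = gg δ μ1 μ2 a1 b1 a2 b2`. Let `β'` be the image of `β ⊗ (ga ds)` under `(u, s) ↦ u + η s`
(`ga ds = volume.withDensity (ENNReal.ofReal ∘ ga)`). Then `∫ D(u + v) dβ - ∫ De η D (u + v) dβ = ∫ K(y) JJ δ μ1 μ2 a1 b1 a2 b2 β β' v y dy` (Fubini), so by Cauchy-Schwarz (twice: for the sum over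
`k` and the integral over `y`)
`|TI D - TI (De η D)|² ≤ (∑_k bt(k)² k⁻¹ WW s b (log k)) (∫ K²) (∑_k k⁻¹ WW s b (log k) ∫ JJ(log k, y)² dy)`, and the last factor is `∫ (∫ JJ² dy) dν`, `ν = muS (fun k => k⁻¹) s b`
(`muS_int`). First factor `≤ C (1+|b|)^6` (`ASI.bt_le`, `ASI.div_gauss`, `w/400 ≤ b ≤ 2w`), second one `≤ w^(2E)`. Third one: `t2` with `ρ = muL s b` (`≤ volume`), `T = exp(2w)`, `B = w^(E1)`
(`E1 ≥ E` large enough for all the masses: `bM_mass`, `coef_sum`, `|t|, |b| ≤ 2w`; `adm_mono`), `ε' = sup |cf ν - cf ρ| ≤ b^(-A1) ≤ (w/400)^(-A1)` (`nu` with `K = 800`: `|τ| ≤ exp(2w) ≤ exp(800 b)`;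
`cf_muL`), `ε`: `cf β' τ = cf β τ · exp(-η²τ²/2)`; for `|τ| ≤ w`: `|cf β τ| (1 - exp(-η²τ²/2)) ≤ w^(E1) η² w²/2 ≤ w^(E1 + 2 - 2N)`; for `w ≤ |τ| ≤ exp(2w)`: `≤ w^(-A1)` (`bs` with `K = 2`).
`exp(-(δT)²/C) ≤ exp(-exp(2w - 2E)/C)`. `A1` and `N0` large in terms of `A`, `E`, `E1`.
-/

namespace HLA

open MeasureTheory ArithmeticFunction SMC

/-! ### the Gaussian measure and the smoothed measure -/

/-- The standard Gaussian measure. -/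
private noncomputable def tm_ga : Measure ℝ := ENNReal.ofReal (Real.sqrt (2 * Real.pi))⁻¹ • muL 1 0

private theorem tm_pos : 0 < Real.sqrt (2 * Real.pi) := Real.sqrt_pos.2 (by positivity)

private theorem tm_ga_fin : IsFiniteMeasure tm_ga ∧ (tm_ga Set.univ).toReal = 1 := by
  obtain ⟨h1, h2, h3⟩ := muL_fin (σ := 1) (by norm_num) 0
  have h4 : (tm_ga Set.univ).toReal = 1 := by
    unfold tm_ga
    rw [Measure.smul_apply, smul_eq_mul, ENNReal.toReal_mul, ENNReal.toReal_ofReal (inv_nonneg.2 tm_pos.le), h2,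
      mul_one, inv_mul_cancel₀ tm_pos.ne']
  refine ⟨⟨?_⟩, h4⟩
  unfold tm_ga
  rw [Measure.smul_apply, smul_eq_mul]
  exact ENNReal.mul_lt_top ENNReal.ofReal_lt_top (measure_lt_top _ _)

private theorem tm_WW (x : ℝ) : (Real.sqrt (2 * Real.pi))⁻¹ * WW 1 0 x = ga x := by
  unfold WW ga
  rw [sub_zero, one_pow, mul_one, div_eq_inv_mul (Real.exp (-x ^ 2 / 2))]

private theorem tm_ga_int {E : Type*} [NormedAddCommGroup E] [NormedSpace ℝ E] (f : ℝ → E) :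
    ∫ x, f x ∂tm_ga = ∫ x, ga x • f x := by
  unfold tm_ga
  rw [integral_smul_measure, ENNReal.toReal_ofReal (inv_nonneg.2 tm_pos.le), muL_int, ← integral_smul]
  refine integral_congr_ae (Filter.Eventually.of_forall fun x => ?_)
  simp only
  rw [smul_smul, tm_WW]

private theorem tm_ga_cf (t : ℝ) : cf tm_ga t = ((Real.exp (-t ^ 2 / 2) : ℝ) : ℂ) := by
  have h1 : cf tm_ga t = ((Real.sqrt (2 * Real.pi))⁻¹ : ℝ) • cf (muL 1 0) t := by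
    unfold cf tm_ga
    rw [integral_smul_measure, ENNReal.toReal_ofReal (inv_nonneg.2 tm_pos.le)]
  rw [h1, cf_muL (by norm_num) 0 t]
  unfold gm
  have h2 : Complex.exp (-(t * ((0 : ℝ) : ℂ) * Complex.I)) = 1 := by simp
  rw [h2, mul_one, mul_one, one_pow, one_mul, Complex.real_smul, ← Complex.ofReal_mul, ← mul_assoc,
    inv_mul_cancel₀ tm_pos.ne', one_mul, neg_div]

/-- The smoothed measure. -/
private noncomputable def tm_sm (η : ℝ) (β : Measure ℝ) : Measure ℝ := (β.prod tm_ga).map (fun p => p.1 + η * p.2)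

private theorem tm_meas (η : ℝ) : Measurable fun p : ℝ × ℝ => p.1 + η * p.2 := by fun_prop

private theorem tm_sm_fin (η : ℝ) (β : Measure ℝ) [IsFiniteMeasure β] :
    IsFiniteMeasure (tm_sm η β) ∧ (tm_sm η β Set.univ).toReal = (β Set.univ).toReal := by
  haveI := tm_ga_fin.1
  unfold tm_sm
  refine ⟨inferInstance, ?_⟩
  rw [Measure.map_apply (tm_meas η) MeasurableSet.univ, Set.preimage_univ, ← Set.univ_prod_univ, Measure.prod_prod,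
    ENNReal.toReal_mul, tm_ga_fin.2, mul_one]

private theorem tm_bdd_prod {β γ : Measure ℝ} [IsFiniteMeasure β] [IsFiniteMeasure γ] {E : Type*}
    [NormedAddCommGroup E] {f : ℝ × ℝ → E} {B : ℝ} (hf : AEStronglyMeasurable f (β.prod γ)) (hB : ∀ x, ‖f x‖ ≤ B) :
    Integrable f (β.prod γ) :=
  Integrable.mono' (integrable_const B) hf (Filter.Eventually.of_forall hB)

private theorem tm_sm_int (η : ℝ) (β : Measure ℝ) [IsFiniteMeasure β] {E : Type*} [NormedAddCommGroup E]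
    [NormedSpace ℝ E] [CompleteSpace E] [SecondCountableTopology E] {f : ℝ → E} {B : ℝ} (hf : Continuous f) (hB : ∀ x, ‖f x‖ ≤ B) :
    ∫ x, f x ∂(tm_sm η β) = ∫ s, (∫ x, f (x + η * s) ∂β) ∂tm_ga := by
  haveI := tm_ga_fin.1
  unfold tm_sm
  rw [integral_map (tm_meas η).aemeasurable hf.aestronglyMeasurable]
  rw [integral_prod_symm]
  refine tm_bdd_prod ?_ (fun p => hB _)
  exact (hf.comp (by fun_prop)).aestronglyMeasurable

private theorem tm_cexp_bd (t x : ℝ) : ‖Complex.exp (-(t * x * Complex.I))‖ ≤ 1 := by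
  have h : -((t : ℂ) * x * Complex.I) = ((-(t * x) : ℝ) : ℂ) * Complex.I := by push_cast; ring
  rw [h, Complex.norm_exp_ofReal_mul_I]

private theorem tm_sm_cf (η : ℝ) (β : Measure ℝ) [IsFiniteMeasure β] (t : ℝ) :
    cf (tm_sm η β) t = cf β t * ((Real.exp (-(η * t) ^ 2 / 2) : ℝ) : ℂ) := by
  rw [← tm_ga_cf]
  unfold cf
  rw [tm_sm_int η β (B := 1) (by fun_prop) (tm_cexp_bd t), ← integral_const_mul]
  refine integral_congr_ae (Filter.Eventually.of_forall fun s => ?_)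
  simp only
  rw [← integral_mul_const]
  refine integral_congr_ae (Filter.Eventually.of_forall fun x => ?_)
  simp only
  rw [← Complex.exp_add]
  congr 1
  push_cast
  ring

/-- The integral of the smoothed function. -/
private theorem tm_De {D : ℝ → ℝ} {B : ℝ} (hD : Continuous D) (hB : ∀ x, |D x| ≤ B) (η v : ℝ) (β : Measure ℝ)
    [IsFiniteMeasure β] : ∫ x, De η D (x + v) ∂β = ∫ x, D (x + v) ∂(tm_sm η β) := by
  rw [de_fub hD hB, tm_sm_int η β (B := B) (by fun_prop) (fun x => hB _), tm_ga_int]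
  refine integral_congr_ae (Filter.Eventually.of_forall fun s => ?_)
  simp only
  rw [smul_eq_mul]
  congr 1
  refine integral_congr_ae (Filter.Eventually.of_forall fun x => ?_)
  simp only
  congr 1
  ring

/-! ### Fubini -/

section fub

variable {δ B : ℝ} {μ1 μ2 : Measure ℝ} {K : ℝ → ℝ} (a1 b1 a2 b2 : ℝ)

private theorem tm_gg_cont [IsFiniteMeasure μ1] [IsFiniteMeasure μ2] :
    Continuous fun p : ℝ × ℝ => gg δ μ1 μ2 a1 b1 a2 b2 p.1 p.2 := by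
  have c1 := gsm_cont δ μ1
  have c2 := gsm_cont δ μ2
  unfold gg
  exact (c1.comp (by fun_prop)).mul (c2.comp (by fun_prop))

private theorem tm_gg_nonneg (y x : ℝ) : 0 ≤ gg δ μ1 μ2 a1 b1 a2 b2 y x :=
  mul_nonneg (gsm_nonneg _ _ _) (gsm_nonneg _ _ _)

private theorem tm_gg_le (h1 : Adm δ B μ1) (h2 : Adm δ B μ2) (y x : ℝ) : gg δ μ1 μ2 a1 b1 a2 b2 y x ≤ B ^ 2 := by
  unfold gg
  rw [sq]
  exact mul_le_mul (h1.2.1 _) (h2.2.1 _) (gsm_nonneg _ _ _) ((gsm_nonneg _ _ 0).trans (h1.2.1 0))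

/-- one convolution -/
private noncomputable def tm_A (δ : ℝ) (μ1 μ2 : Measure ℝ) (a1 b1 a2 b2 : ℝ) (μ : Measure ℝ) (v y : ℝ) : ℝ :=
  ∫ u, gg δ μ1 μ2 a1 b1 a2 b2 y (u + v) ∂μ

private theorem tm_gg_int (h1 : Adm δ B μ1) (h2 : Adm δ B μ2) (μ : Measure ℝ) [IsFiniteMeasure μ] (v y : ℝ) :
    Integrable (fun u => gg δ μ1 μ2 a1 b1 a2 b2 y (u + v)) μ := by
  haveI := h1.1
  haveI := h2.1
  have hc : Continuous fun u : ℝ => gg δ μ1 μ2 a1 b1 a2 b2 y (u + v) :=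
    (tm_gg_cont (δ := δ) (μ1 := μ1) (μ2 := μ2) a1 b1 a2 b2).comp (f := fun u : ℝ => (y, u + v)) (by fun_prop)
  refine Integrable.mono' (integrable_const (B ^ 2)) hc.aestronglyMeasurable (Filter.Eventually.of_forall fun u => ?_)
  rw [Real.norm_eq_abs, abs_of_nonneg (tm_gg_nonneg a1 b1 a2 b2 _ _)]
  exact tm_gg_le a1 b1 a2 b2 h1 h2 _ _

private theorem tm_A_nonneg (μ : Measure ℝ) (v y : ℝ) : 0 ≤ tm_A δ μ1 μ2 a1 b1 a2 b2 μ v y :=
  integral_nonneg fun _ => tm_gg_nonneg a1 b1 a2 b2 _ _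

private theorem tm_A_le (h1 : Adm δ B μ1) (h2 : Adm δ B μ2) (μ : Measure ℝ) [IsFiniteMeasure μ] (v y : ℝ) :
    tm_A δ μ1 μ2 a1 b1 a2 b2 μ v y ≤ B ^ 2 * (μ Set.univ).toReal := by
  unfold tm_A
  refine (integral_mono (tm_gg_int a1 b1 a2 b2 h1 h2 μ v y) (integrable_const (B ^ 2))
    fun u => tm_gg_le a1 b1 a2 b2 h1 h2 _ _).trans (le_of_eq ?_)
  rw [integral_const, smul_eq_mul, mul_comm]
  rfl

private theorem tm_A_cont (h1 : Adm δ B μ1) (h2 : Adm δ B μ2) (μ : Measure ℝ) [IsFiniteMeasure μ] (v : ℝ) :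
    Continuous (tm_A δ μ1 μ2 a1 b1 a2 b2 μ v) := by
  haveI := h1.1
  haveI := h2.1
  unfold tm_A
  refine continuous_of_dominated (bound := fun _ => B ^ 2) ?_ ?_ (integrable_const _) ?_
  · intro y
    exact (tm_gg_int a1 b1 a2 b2 h1 h2 μ v y).aestronglyMeasurable
  · intro y
    refine Filter.Eventually.of_forall fun u => ?_
    rw [Real.norm_eq_abs, abs_of_nonneg (tm_gg_nonneg a1 b1 a2 b2 _ _)]
    exact tm_gg_le a1 b1 a2 b2 h1 h2 _ _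
  · refine Filter.Eventually.of_forall fun u => ?_
    exact (tm_gg_cont (δ := δ) (μ1 := μ1) (μ2 := μ2) a1 b1 a2 b2).comp (f := fun y : ℝ => (y, u + v)) (by fun_prop)

private theorem tm_gg_prod (hδ : 0 < δ) (ha1 : a1 ≠ 0) (hB : 0 ≤ B) (h1 : Adm δ B μ1) (h2 : Adm δ B μ2) (μ : Measure ℝ)
    [IsFiniteMeasure μ] (v : ℝ) :
    Integrable (fun p : ℝ × ℝ => gg δ μ1 μ2 a1 b1 a2 b2 p.2 (p.1 + v)) (μ.prod volume) ∧
      ∀ u : ℝ, ∫ y, gg δ μ1 μ2 a1 b1 a2 b2 y (u + v) ≤ |a1|⁻¹ * (Real.sqrt (2 * Real.pi) * B) * B := by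
  haveI := h1.1
  haveI := h2.1
  have hc : Continuous fun p : ℝ × ℝ => gg δ μ1 μ2 a1 b1 a2 b2 p.2 (p.1 + v) :=
    (tm_gg_cont (δ := δ) (μ1 := μ1) (μ2 := μ2) a1 b1 a2 b2).comp (f := fun p : ℝ × ℝ => (p.2, p.1 + v)) (by fun_prop)
  obtain ⟨hi, hile⟩ := adm_int hδ h1
  have hi1 : ∀ c : ℝ, Integrable (fun y => gsm δ μ1 (a1 * y + c)) ∧
      ∫ y, gsm δ μ1 (a1 * y + c) ≤ |a1|⁻¹ * (Real.sqrt (2 * Real.pi) * B) := by
    intro c
    have e : (fun y => gsm δ μ1 (a1 * y + c)) = fun y => (fun z => gsm δ μ1 (z + c)) (a1 * y) := rfl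
    have hs : Integrable (fun z => gsm δ μ1 (z + c)) := hi.comp_add_right c
    refine ⟨?_, ?_⟩
    · rw [e]
      exact hs.comp_mul_left' ha1
    · rw [e, Measure.integral_comp_mul_left (fun z => gsm δ μ1 (z + c)) a1,
        integral_add_right_eq_self (fun z => gsm δ μ1 z) c, smul_eq_mul, abs_inv]
      exact mul_le_mul_of_nonneg_left hile (inv_nonneg.2 (abs_nonneg _))
  have hgl : ∀ u y, gg δ μ1 μ2 a1 b1 a2 b2 y (u + v) ≤ gsm δ μ1 (a1 * y + b1 * (u + v)) * B := by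
    intro u y
    unfold gg
    exact mul_le_mul_of_nonneg_left (h2.2.1 _) (gsm_nonneg _ _ _)
  have hyi : ∀ u : ℝ, Integrable (fun y => gg δ μ1 μ2 a1 b1 a2 b2 y (u + v)) := by
    intro u
    refine Integrable.mono' ((hi1 (b1 * (u + v))).1.mul_const B) ?_ (Filter.Eventually.of_forall fun y => ?_)
    · exact (hc.comp (f := fun y : ℝ => (u, y)) (by fun_prop)).aestronglyMeasurable
    · rw [Real.norm_eq_abs, abs_of_nonneg (tm_gg_nonneg a1 b1 a2 b2 _ _)]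
      exact hgl u y
  have hbd : ∀ u : ℝ, ∫ y, gg δ μ1 μ2 a1 b1 a2 b2 y (u + v) ≤ |a1|⁻¹ * (Real.sqrt (2 * Real.pi) * B) * B := by
    intro u
    calc ∫ y, gg δ μ1 μ2 a1 b1 a2 b2 y (u + v) ≤ ∫ y, gsm δ μ1 (a1 * y + b1 * (u + v)) * B :=
          integral_mono (hyi u) ((hi1 (b1 * (u + v))).1.mul_const B) fun y => hgl u y
      _ = (∫ y, gsm δ μ1 (a1 * y + b1 * (u + v))) * B := integral_mul_const _ _
      _ ≤ _ := mul_le_mul_of_nonneg_right (hi1 _).2 hB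
  refine ⟨?_, hbd⟩
  rw [integrable_prod_iff hc.aestronglyMeasurable]
  refine ⟨Filter.Eventually.of_forall fun u => hyi u, ?_⟩
  refine Integrable.mono' (integrable_const (|a1|⁻¹ * (Real.sqrt (2 * Real.pi) * B) * B)) ?_
    (Filter.Eventually.of_forall fun u => ?_)
  · exact (hc.norm.aestronglyMeasurable (μ := μ.prod volume)).integral_prod_right'
  · simp only
    rw [Real.norm_eq_abs, abs_of_nonneg (integral_nonneg fun y => norm_nonneg _)]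
    refine le_trans (le_of_eq ?_) (hbd u)
    refine integral_congr_ae (Filter.Eventually.of_forall fun y => ?_)
    simp only
    rw [Real.norm_eq_abs, abs_of_nonneg (tm_gg_nonneg a1 b1 a2 b2 _ _)]

private theorem tm_A_int (hδ : 0 < δ) (ha1 : a1 ≠ 0) (hB : 0 ≤ B) (h1 : Adm δ B μ1) (h2 : Adm δ B μ2) (μ : Measure ℝ)
    [IsFiniteMeasure μ] (v : ℝ) : Integrable (tm_A δ μ1 μ2 a1 b1 a2 b2 μ v) :=
  (tm_gg_prod a1 b1 a2 b2 hδ ha1 hB h1 h2 μ v).1.integral_prod_right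

private theorem tm_A_int_le (hδ : 0 < δ) (ha1 : a1 ≠ 0) (hB : 0 ≤ B) (h1 : Adm δ B μ1) (h2 : Adm δ B μ2)
    (μ : Measure ℝ) [IsFiniteMeasure μ] (v : ℝ) : ∫ y, tm_A δ μ1 μ2 a1 b1 a2 b2 μ v y ≤
      |a1|⁻¹ * (Real.sqrt (2 * Real.pi) * B) * B * (μ Set.univ).toReal := by
  obtain ⟨h3, h4⟩ := tm_gg_prod a1 b1 a2 b2 hδ ha1 hB h1 h2 μ v
  have h5 : ∫ y, tm_A δ μ1 μ2 a1 b1 a2 b2 μ v y = ∫ u, (∫ y, gg δ μ1 μ2 a1 b1 a2 b2 y (u + v)) ∂μ :=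
    (integral_integral_swap h3).symm
  rw [h5]
  refine (integral_mono h3.integral_prod_left (integrable_const _) h4).trans (le_of_eq ?_)
  rw [integral_const, smul_eq_mul, mul_comm]
  rfl

/-- `D` integrated against a finite measure -/
private theorem tm_DD (h1 : Adm δ B μ1) (h2 : Adm δ B μ2) (hK : AdmK B K) (μ : Measure ℝ) [IsFiniteMeasure μ]
    (v : ℝ) : ∫ u, DD δ μ1 μ2 K a1 b1 a2 b2 (u + v) ∂μ = ∫ y, K y * tm_A δ μ1 μ2 a1 b1 a2 b2 μ v y := by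
  haveI := h1.1
  haveI := h2.1
  have hc : Continuous fun p : ℝ × ℝ => gg δ μ1 μ2 a1 b1 a2 b2 p.2 (p.1 + v) :=
    (tm_gg_cont (δ := δ) (μ1 := μ1) (μ2 := μ2) a1 b1 a2 b2).comp (f := fun p : ℝ × ℝ => (p.2, p.1 + v)) (by fun_prop)
  have hmeas : AEStronglyMeasurable (fun p : ℝ × ℝ => K p.2 * gg δ μ1 μ2 a1 b1 a2 b2 p.2 (p.1 + v)) (μ.prod volume) :=
    ((hK.1.comp measurable_snd).aestronglyMeasurable).mul hc.aestronglyMeasurable
  have hle : ∀ u y, ‖K y * gg δ μ1 μ2 a1 b1 a2 b2 y (u + v)‖ ≤ |K y| * B ^ 2 := by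
    intro u y
    rw [norm_mul, Real.norm_eq_abs, Real.norm_eq_abs, abs_of_nonneg (tm_gg_nonneg a1 b1 a2 b2 _ _)]
    exact mul_le_mul_of_nonneg_left (tm_gg_le a1 b1 a2 b2 h1 h2 _ _) (abs_nonneg _)
  have hint : Integrable (fun p : ℝ × ℝ => K p.2 * gg δ μ1 μ2 a1 b1 a2 b2 p.2 (p.1 + v)) (μ.prod volume) := by
    have hb : Integrable (fun p : ℝ × ℝ => (1 : ℝ) * (|K p.2| * B ^ 2)) (μ.prod volume) :=
      (integrable_const (1 : ℝ)).mul_prod (hK.2.2.1.abs.mul_const (B ^ 2))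
    refine Integrable.mono' hb hmeas (Filter.Eventually.of_forall fun p => ?_)
    rw [one_mul]
    exact hle p.1 p.2
  have h3 : ∫ u, DD δ μ1 μ2 K a1 b1 a2 b2 (u + v) ∂μ =
      ∫ u, (∫ y, K y * gg δ μ1 μ2 a1 b1 a2 b2 y (u + v)) ∂μ := rfl
  rw [h3, integral_integral_swap hint]
  refine integral_congr_ae (Filter.Eventually.of_forall fun y => ?_)
  simp only
  rw [integral_const_mul]
  rfl

/-! ### the difference -/

private theorem tm_JJ (μ μ' : Measure ℝ) (v y : ℝ) : JJ δ μ1 μ2 a1 b1 a2 b2 μ μ' v y =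
    tm_A δ μ1 μ2 a1 b1 a2 b2 μ v y - tm_A δ μ1 μ2 a1 b1 a2 b2 μ' v y := rfl

private theorem tm_JJ_abs {M : ℝ} (h1 : Adm δ B μ1) (h2 : Adm δ B μ2) (μ μ' : Measure ℝ)
    [IsFiniteMeasure μ] [IsFiniteMeasure μ'] (hM : (μ Set.univ).toReal ≤ M) (hM' : (μ' Set.univ).toReal ≤ M) (v y : ℝ) :
    |JJ δ μ1 μ2 a1 b1 a2 b2 μ μ' v y| ≤ B ^ 2 * M := by
  rw [tm_JJ]
  have e1 := tm_A_nonneg (δ := δ) (μ1 := μ1) (μ2 := μ2) a1 b1 a2 b2 μ v y
  have e2 := tm_A_nonneg (δ := δ) (μ1 := μ1) (μ2 := μ2) a1 b1 a2 b2 μ' v y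
  have e3 := (tm_A_le a1 b1 a2 b2 h1 h2 μ v y).trans (mul_le_mul_of_nonneg_left hM (sq_nonneg B))
  have e4 := (tm_A_le a1 b1 a2 b2 h1 h2 μ' v y).trans (mul_le_mul_of_nonneg_left hM' (sq_nonneg B))
  rw [abs_le]
  constructor <;> linarith

private theorem tm_JJ_sq {M : ℝ} (hδ : 0 < δ) (ha1 : a1 ≠ 0) (hB : 0 ≤ B) (h1 : Adm δ B μ1) (h2 : Adm δ B μ2)
    (μ μ' : Measure ℝ) [IsFiniteMeasure μ] [IsFiniteMeasure μ'] (hM : (μ Set.univ).toReal ≤ M)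
    (hM' : (μ' Set.univ).toReal ≤ M) (v : ℝ) :
    Integrable (fun y => JJ δ μ1 μ2 a1 b1 a2 b2 μ μ' v y ^ 2) ∧
      ∫ y, JJ δ μ1 μ2 a1 b1 a2 b2 μ μ' v y ^ 2 ≤
        B ^ 2 * M * (2 * (|a1|⁻¹ * (Real.sqrt (2 * Real.pi) * B) * B * M)) := by
  have hM0 : 0 ≤ M := ENNReal.toReal_nonneg.trans hM
  have i1 := tm_A_int a1 b1 a2 b2 hδ ha1 hB h1 h2 μ v
  have i2 := tm_A_int a1 b1 a2 b2 hδ ha1 hB h1 h2 μ' v
  have c1 := tm_A_cont a1 b1 a2 b2 h1 h2 μ v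
  have c2 := tm_A_cont a1 b1 a2 b2 h1 h2 μ' v
  have hle : ∀ y, JJ δ μ1 μ2 a1 b1 a2 b2 μ μ' v y ^ 2 ≤
      B ^ 2 * M * (tm_A δ μ1 μ2 a1 b1 a2 b2 μ v y + tm_A δ μ1 μ2 a1 b1 a2 b2 μ' v y) := by
    intro y
    have e1 := tm_A_nonneg (δ := δ) (μ1 := μ1) (μ2 := μ2) a1 b1 a2 b2 μ v y
    have e2 := tm_A_nonneg (δ := δ) (μ1 := μ1) (μ2 := μ2) a1 b1 a2 b2 μ' v y
    have e3 := tm_JJ_abs a1 b1 a2 b2 h1 h2 μ μ' hM hM' v y
    have e4 : |JJ δ μ1 μ2 a1 b1 a2 b2 μ μ' v y| ≤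
        tm_A δ μ1 μ2 a1 b1 a2 b2 μ v y + tm_A δ μ1 μ2 a1 b1 a2 b2 μ' v y := by
      rw [tm_JJ, abs_le]
      constructor <;> linarith
    rw [← sq_abs, sq]
    exact mul_le_mul e3 e4 (abs_nonneg _) (by positivity)
  have hb : Integrable (fun y => B ^ 2 * M *
      (tm_A δ μ1 μ2 a1 b1 a2 b2 μ v y + tm_A δ μ1 μ2 a1 b1 a2 b2 μ' v y)) := (i1.add i2).const_mul _
  have hc : Continuous (fun y => JJ δ μ1 μ2 a1 b1 a2 b2 μ μ' v y ^ 2) := (c1.sub c2).pow 2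
  have hi : Integrable (fun y => JJ δ μ1 μ2 a1 b1 a2 b2 μ μ' v y ^ 2) :=
    Integrable.mono' hb hc.aestronglyMeasurable (Filter.Eventually.of_forall fun y => by
      rw [Real.norm_eq_abs, abs_of_nonneg (sq_nonneg _)]
      exact hle y)
  refine ⟨hi, ?_⟩
  refine (integral_mono hi hb hle).trans ?_
  rw [integral_const_mul, integral_add i1 i2]
  refine mul_le_mul_of_nonneg_left ?_ (by positivity)
  have f1 := tm_A_int_le a1 b1 a2 b2 hδ ha1 hB h1 h2 μ v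
  have f2 := tm_A_int_le a1 b1 a2 b2 hδ ha1 hB h1 h2 μ' v
  have hc0 : 0 ≤ |a1|⁻¹ * (Real.sqrt (2 * Real.pi) * B) * B := by positivity
  have g1 := mul_le_mul_of_nonneg_left hM hc0
  have g2 := mul_le_mul_of_nonneg_left hM' hc0
  linarith

/-- one term, by the inequality of the means -/
private theorem tm_term {M lam : ℝ} (hlam : 0 < lam) (hδ : 0 < δ) (ha1 : a1 ≠ 0) (hB : 0 ≤ B) (h1 : Adm δ B μ1)
    (h2 : Adm δ B μ2) (hK : AdmK B K) (μ μ' : Measure ℝ) [IsFiniteMeasure μ] [IsFiniteMeasure μ']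
    (hM : (μ Set.univ).toReal ≤ M) (hM' : (μ' Set.univ).toReal ≤ M) (v x : ℝ) :
    |x * ((∫ u, DD δ μ1 μ2 K a1 b1 a2 b2 (u + v) ∂μ) - ∫ u, DD δ μ1 μ2 K a1 b1 a2 b2 (u + v) ∂μ')| ≤
      lam / 2 * (x ^ 2 * B ^ 2) + 1 / (2 * lam) * ∫ y, JJ δ μ1 μ2 a1 b1 a2 b2 μ μ' v y ^ 2 := by
  have hM0 : 0 ≤ M := ENNReal.toReal_nonneg.trans hM
  have c1 := tm_A_cont a1 b1 a2 b2 h1 h2 μ v
  have c2 := tm_A_cont a1 b1 a2 b2 h1 h2 μ' v
  have hKA : ∀ (μ : Measure ℝ) [IsFiniteMeasure μ], Integrable (fun y => K y * tm_A δ μ1 μ2 a1 b1 a2 b2 μ v y) := by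
    intro μ _
    have c := tm_A_cont a1 b1 a2 b2 h1 h2 μ v
    refine Integrable.mono' (hK.2.2.1.abs.mul_const (B ^ 2 * (μ Set.univ).toReal))
      (hK.1.aestronglyMeasurable.mul c.aestronglyMeasurable) (Filter.Eventually.of_forall fun y => ?_)
    rw [norm_mul, Real.norm_eq_abs, Real.norm_eq_abs, abs_of_nonneg (tm_A_nonneg a1 b1 a2 b2 _ _ _)]
    exact mul_le_mul_of_nonneg_left (tm_A_le a1 b1 a2 b2 h1 h2 μ v y) (abs_nonneg _)
  have e1 : (∫ u, DD δ μ1 μ2 K a1 b1 a2 b2 (u + v) ∂μ) - ∫ u, DD δ μ1 μ2 K a1 b1 a2 b2 (u + v) ∂μ' =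
      ∫ y, K y * JJ δ μ1 μ2 a1 b1 a2 b2 μ μ' v y := by
    rw [tm_DD a1 b1 a2 b2 h1 h2 hK μ v, tm_DD a1 b1 a2 b2 h1 h2 hK μ' v, ← integral_sub (hKA μ) (hKA μ')]
    refine integral_congr_ae (Filter.Eventually.of_forall fun y => ?_)
    simp only
    rw [tm_JJ]
    ring
  have hKJ : Integrable (fun y => K y * JJ δ μ1 μ2 a1 b1 a2 b2 μ μ' v y) := by
    have h3 := (hKA μ).sub (hKA μ')
    refine h3.congr (Filter.Eventually.of_forall fun y => ?_)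
    simp only [Pi.sub_apply]
    rw [tm_JJ]
    ring
  have hK2 : Integrable (fun y => K y ^ 2) ∧ ∫ y, K y ^ 2 ≤ B ^ 2 := by
    have hle : ∀ y, K y ^ 2 ≤ B * |K y| := by
      intro y
      rw [← sq_abs, sq]
      exact mul_le_mul_of_nonneg_right (hK.2.1 y) (abs_nonneg _)
    have hb : Integrable (fun y => B * |K y|) := hK.2.2.1.abs.const_mul B
    have hi : Integrable (fun y => K y ^ 2) :=
      Integrable.mono' hb (hK.1.pow_const 2).aestronglyMeasurable (Filter.Eventually.of_forall fun y => by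
        rw [Real.norm_eq_abs, abs_of_nonneg (sq_nonneg _)]
        exact hle y)
    refine ⟨hi, (integral_mono hi hb hle).trans ?_⟩
    rw [integral_const_mul, sq]
    exact mul_le_mul_of_nonneg_left hK.2.2.2 hB
  obtain ⟨hJ2, -⟩ := tm_JJ_sq a1 b1 a2 b2 hδ ha1 hB h1 h2 μ μ' hM hM' v
  rw [e1, ← integral_const_mul]
  have hle : ∀ y, |x * (K y * JJ δ μ1 μ2 a1 b1 a2 b2 μ μ' v y)| ≤
      lam / 2 * (x ^ 2 * K y ^ 2) + 1 / (2 * lam) * JJ δ μ1 μ2 a1 b1 a2 b2 μ μ' v y ^ 2 := by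
    intro y
    set J := JJ δ μ1 μ2 a1 b1 a2 b2 μ μ' v y
    have h3 : 0 ≤ (lam * |x * K y| - |J|) ^ 2 / (2 * lam) := by positivity
    have h4 : (lam * |x * K y| - |J|) ^ 2 / (2 * lam) =
        lam / 2 * (x ^ 2 * K y ^ 2) + 1 / (2 * lam) * J ^ 2 - |x * K y| * |J| := by
      have h5 : |x * K y| ^ 2 = x ^ 2 * K y ^ 2 := by rw [sq_abs]; ring
      have h6 : |J| ^ 2 = J ^ 2 := sq_abs J
      have h7 : (lam * |x * K y| - |J|) ^ 2 = lam ^ 2 * |x * K y| ^ 2 - 2 * lam * (|x * K y| * |J|) + |J| ^ 2 := by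
        ring
      rw [h7, h5, h6]
      field_simp
      ring
    have h8 : |x * (K y * J)| = |x * K y| * |J| := by rw [← abs_mul]; congr 1; ring
    rw [h8]
    linarith
  refine (abs_integral_le_integral_abs).trans ?_
  have hi1 : Integrable (fun y => |x * (K y * JJ δ μ1 μ2 a1 b1 a2 b2 μ μ' v y)|) := (hKJ.const_mul x).abs
  have hi2 : Integrable (fun y => lam / 2 * (x ^ 2 * K y ^ 2)) := (hK2.1.const_mul _).const_mul _
  have hi3 : Integrable (fun y => 1 / (2 * lam) * JJ δ μ1 μ2 a1 b1 a2 b2 μ μ' v y ^ 2) := hJ2.const_mul _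
  refine (integral_mono hi1 (hi2.add hi3) hle).trans ?_
  refine (le_of_eq (integral_add hi2 hi3)).trans ?_
  rw [integral_const_mul, integral_const_mul, integral_const_mul]
  refine add_le_add ?_ le_rfl
  refine mul_le_mul_of_nonneg_left ?_ (by positivity)
  exact mul_le_mul_of_nonneg_left hK2.2 (sq_nonneg x)

end fub

/-! ### the sum over `k` -/

private theorem tm_coef_le {x : ℝ} {n : ℕ} (hx : n ≠ 0 → x ≤ (n.divisors.card : ℝ) ^ 2) :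
    x * (n : ℝ)⁻¹ ≤ (n.divisors.card : ℝ) ^ 2 * (1 + Real.log n) ^ 2 / n := by
  rcases Nat.eq_zero_or_pos n with h | h
  · subst h
    simp
  · have hn : (0 : ℝ) < n := by exact_mod_cast h
    have hl : 0 ≤ Real.log n := Real.log_natCast_nonneg n
    rw [← div_eq_mul_inv]
    refine div_le_div_of_nonneg_right ?_ hn.le
    refine (hx h.ne').trans ?_
    have h1 : (1 : ℝ) ≤ (1 + Real.log n) ^ 2 := by nlinarith
    exact le_mul_of_one_le_right (sq_nonneg _) h1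

private theorem tm_card_one {n : ℕ} (h : n ≠ 0) : (1 : ℝ) ≤ (n.divisors.card : ℝ) := by
  have : 0 < n.divisors.card := Finset.card_pos.2 ⟨1, Nat.mem_divisors.2 ⟨one_dvd n, h⟩⟩
  exact_mod_cast this

private theorem tm_sum {C1 : ℝ} (hC1 : ∀ (a : ℕ → ℝ) (σ c : ℝ), 0 < σ → σ ≤ 1 → (∀ n, 0 ≤ a n) →
    (∀ n : ℕ, a n ≤ (n.divisors.card : ℝ) ^ 2 * (1 + Real.log n) ^ 2 / n) →
    Summable (fun n : ℕ => a n * WW σ c (Real.log n)) ∧
      ∑' n : ℕ, a n * WW σ c (Real.log n) ≤ C1 * (1 + |c|) ^ 6)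
    {s b U δ B M lam : ℝ} {μ1 μ2 : Measure ℝ} {K : ℝ → ℝ} (a1 b1 a2 b2 : ℝ) (hs : 0 < s) (hs1 : s ≤ 1)
    (hlam : 0 < lam) (hδ : 0 < δ) (ha1 : a1 ≠ 0) (hB : 0 ≤ B) (h1 : Adm δ B μ1)
    (h2 : Adm δ B μ2) (hK : AdmK B K) (μ μ' : Measure ℝ) [IsFiniteMeasure μ] [IsFiniteMeasure μ']
    (hM : (μ Set.univ).toReal ≤ M) (hM' : (μ' Set.univ).toReal ≤ M)
    (hν : Integrable (fun p : ℝ × ℝ => JJ δ μ1 μ2 a1 b1 a2 b2 μ μ' p.1 p.2 ^ 2)
      ((muS (fun n => (n : ℝ)⁻¹) s b).prod volume)) :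
    |(∑' k : ℕ, ASI.bt U k * (k : ℝ)⁻¹ * WW s b (Real.log k) *
        ∫ u, DD δ μ1 μ2 K a1 b1 a2 b2 (u + Real.log k) ∂μ) -
      ∑' k : ℕ, ASI.bt U k * (k : ℝ)⁻¹ * WW s b (Real.log k) *
        ∫ u, DD δ μ1 μ2 K a1 b1 a2 b2 (u + Real.log k) ∂μ'| ≤
      lam / 2 * (B ^ 2 * (C1 * (1 + |b|) ^ 6)) + 1 / (2 * lam) *
        ∫ v, (∫ y, JJ δ μ1 μ2 a1 b1 a2 b2 μ μ' v y ^ 2) ∂(muS (fun n => (n : ℝ)⁻¹) s b) := by
  have hM0 : 0 ≤ M := ENNReal.toReal_nonneg.trans hM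
  -- coefficients
  have d2 : ∀ n : ℕ, n ≠ 0 → |ASI.bt U n| ≤ (n.divisors.card : ℝ) ^ 2 := by
    intro n hn
    have h3 := ASI.bt_le U n
    have h4 := tm_card_one hn
    nlinarith
  have dq : ∀ n : ℕ, n ≠ 0 → ASI.bt U n ^ 2 ≤ (n.divisors.card : ℝ) ^ 2 := by
    intro n _
    rw [← sq_abs]
    exact pow_le_pow_left₀ (abs_nonneg _) (ASI.bt_le U n) 2
  obtain ⟨sA, -⟩ := hC1 (fun n => |ASI.bt U n| * (n : ℝ)⁻¹) s b hs hs1
    (fun n => mul_nonneg (abs_nonneg _) (inv_nonneg.2 (Nat.cast_nonneg n))) (fun n => tm_coef_le (d2 n))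
  obtain ⟨sQ, tQ⟩ := hC1 (fun n => ASI.bt U n ^ 2 * (n : ℝ)⁻¹) s b hs hs1
    (fun n => mul_nonneg (sq_nonneg _) (inv_nonneg.2 (Nat.cast_nonneg n))) (fun n => tm_coef_le (dq n))
  obtain ⟨s1, -⟩ := hC1 (fun n => (1 : ℝ) * (n : ℝ)⁻¹) s b hs hs1
    (fun n => mul_nonneg zero_le_one (inv_nonneg.2 (Nat.cast_nonneg n)))
    (fun n => tm_coef_le fun hn => one_le_pow₀ (tm_card_one hn))
  simp only [one_mul] at s1
  have hW : ∀ n : ℕ, 0 ≤ (n : ℝ)⁻¹ * WW s b (Real.log n) := fun n =>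
    mul_nonneg (inv_nonneg.2 (Nat.cast_nonneg n)) (WW_nonneg _ _ _)
  -- the integrals
  have hI : ∀ (μ : Measure ℝ) [IsFiniteMeasure μ], (μ Set.univ).toReal ≤ M → ∀ v,
      |∫ u, DD δ μ1 μ2 K a1 b1 a2 b2 (u + v) ∂μ| ≤ B ^ 3 * M := by
    intro μ _ hμ v
    have h3 := norm_integral_le_of_norm_le_const (μ := μ) (f := fun u => DD δ μ1 μ2 K a1 b1 a2 b2 (u + v)) (C := B ^ 3)
      (Filter.Eventually.of_forall fun u => dd_bound hB h1 h2 hK a1 b1 a2 b2 (u + v))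
    rw [Real.norm_eq_abs] at h3
    exact h3.trans (mul_le_mul_of_nonneg_left hμ (by positivity))
  have hsum : ∀ (μ : Measure ℝ) [IsFiniteMeasure μ], (μ Set.univ).toReal ≤ M →
      Summable fun k : ℕ => ASI.bt U k * (k : ℝ)⁻¹ * WW s b (Real.log k) *
        ∫ u, DD δ μ1 μ2 K a1 b1 a2 b2 (u + Real.log k) ∂μ := by
    intro μ _ hμ
    refine Summable.of_norm_bounded (sA.mul_right (B ^ 3 * M)) fun k => ?_
    rw [norm_mul, norm_mul, norm_mul, Real.norm_eq_abs, Real.norm_eq_abs, Real.norm_eq_abs, Real.norm_eq_abs,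
      abs_of_nonneg (WW_nonneg _ _ _), abs_of_nonneg (inv_nonneg.2 (Nat.cast_nonneg k) : (0 : ℝ) ≤ (k : ℝ)⁻¹)]
    exact mul_le_mul_of_nonneg_left (hI μ hμ _)
      (mul_nonneg (mul_nonneg (abs_nonneg _) (inv_nonneg.2 (Nat.cast_nonneg k))) (WW_nonneg _ _ _))
  rw [← (hsum μ hM).tsum_sub (hsum μ' hM')]
  -- the square function
  set f : ℝ → ℝ := fun v => ∫ y, JJ δ μ1 μ2 a1 b1 a2 b2 μ μ' v y ^ 2 with hf
  have hf0 : ∀ v, 0 ≤ f v := fun v => integral_nonneg fun _ => sq_nonneg _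
  have hfb : ∀ v, f v ≤ B ^ 2 * M * (2 * (|a1|⁻¹ * (Real.sqrt (2 * Real.pi) * B) * B * M)) := fun v =>
    (tm_JJ_sq a1 b1 a2 b2 hδ ha1 hB h1 h2 μ μ' hM hM' v).2
  have sF : Summable fun k : ℕ => (k : ℝ)⁻¹ * WW s b (Real.log k) * f (Real.log k) := by
    refine Summable.of_norm_bounded (s1.mul_right
      (B ^ 2 * M * (2 * (|a1|⁻¹ * (Real.sqrt (2 * Real.pi) * B) * B * M)))) fun k => ?_
    rw [Real.norm_eq_abs, abs_of_nonneg (mul_nonneg (hW k) (hf0 _))]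
    exact mul_le_mul_of_nonneg_left (hfb _) (hW k)
  have hfin := muS_fin (σ := s) (c := b) (a := fun n : ℕ => (n : ℝ)⁻¹) (fun n => inv_nonneg.2 (Nat.cast_nonneg n)) s1
  haveI := hfin.1
  have eF : ∫ v, f v ∂(muS (fun n => (n : ℝ)⁻¹) s b) =
      ∑' k : ℕ, (k : ℝ)⁻¹ * WW s b (Real.log k) * f (Real.log k) := by
    rw [muS_int (fun n => inv_nonneg.2 (Nat.cast_nonneg n)) s1 hν.integral_prod_left]
    rfl
  have hS : HasSum (fun k : ℕ => lam / 2 * (B ^ 2 * (ASI.bt U k ^ 2 * (k : ℝ)⁻¹ * WW s b (Real.log k))) +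
      1 / (2 * lam) * ((k : ℝ)⁻¹ * WW s b (Real.log k) * f (Real.log k)))
      (lam / 2 * (B ^ 2 * ∑' k : ℕ, ASI.bt U k ^ 2 * (k : ℝ)⁻¹ * WW s b (Real.log k)) +
        1 / (2 * lam) * ∑' k : ℕ, (k : ℝ)⁻¹ * WW s b (Real.log k) * f (Real.log k)) :=
    ((sQ.hasSum.mul_left (B ^ 2)).mul_left (lam / 2)).add (sF.hasSum.mul_left (1 / (2 * lam)))
  have h5 := tsum_of_norm_bounded hS (f := fun k : ℕ => ASI.bt U k * (k : ℝ)⁻¹ * WW s b (Real.log k) *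
        (∫ u, DD δ μ1 μ2 K a1 b1 a2 b2 (u + Real.log k) ∂μ) -
      ASI.bt U k * (k : ℝ)⁻¹ * WW s b (Real.log k) *
        ∫ u, DD δ μ1 μ2 K a1 b1 a2 b2 (u + Real.log k) ∂μ') (fun k => by
      have h6 := tm_term (M := M) (lam := lam) a1 b1 a2 b2 hlam hδ ha1 hB h1 h2 hK μ μ' hM hM' (Real.log k)
        (ASI.bt U k)
      have h7 := mul_le_mul_of_nonneg_left h6 (hW k)
      rw [Real.norm_eq_abs]
      have e1 : ASI.bt U k * (k : ℝ)⁻¹ * WW s b (Real.log k) *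
          (∫ u, DD δ μ1 μ2 K a1 b1 a2 b2 (u + Real.log k) ∂μ) -
          ASI.bt U k * (k : ℝ)⁻¹ * WW s b (Real.log k) *
          (∫ u, DD δ μ1 μ2 K a1 b1 a2 b2 (u + Real.log k) ∂μ') = (k : ℝ)⁻¹ * WW s b (Real.log k) *
          (ASI.bt U k * ((∫ u, DD δ μ1 μ2 K a1 b1 a2 b2 (u + Real.log k) ∂μ) -
            ∫ u, DD δ μ1 μ2 K a1 b1 a2 b2 (u + Real.log k) ∂μ')) := by ring
      rw [e1, abs_mul, abs_of_nonneg (hW k)]
      refine h7.trans (le_of_eq ?_)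
      simp only [hf]
      ring)
  rw [Real.norm_eq_abs] at h5
  refine h5.trans ?_
  rw [eF]
  refine add_le_add ?_ le_rfl
  exact mul_le_mul_of_nonneg_left (mul_le_mul_of_nonneg_left tQ (sq_nonneg B)) (by positivity)

/-! ### elementary estimates -/

private theorem tm_mass {C w x E1 m : ℝ} (hC : 1 ≤ C) (hw : 1 ≤ w) (hw2 : 729 * C ≤ w) (hx : |x| ≤ 2 * w)
    (hE : 7 ≤ E1) (hm : m ≤ C * (1 + |x|) ^ 6) : m ≤ w ^ E1 := by
  have h0 : (1 + |x|) ^ 6 ≤ (3 * w) ^ 6 :=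
    pow_le_pow_left₀ (by positivity) (by linarith) 6
  have h1 : C * (1 + |x|) ^ 6 ≤ C * (3 * w) ^ 6 := mul_le_mul_of_nonneg_left h0 (by linarith)
  have h2 : C * (3 * w) ^ 6 = 729 * C * w ^ 6 := by ring
  have h3 : 729 * C * w ^ 6 ≤ w * w ^ 6 := mul_le_mul_of_nonneg_right hw2 (by positivity)
  have h4 : w * w ^ 6 = w ^ (7 : ℝ) := by
    rw [show (7 : ℝ) = ((7 : ℕ) : ℝ) by norm_num, Real.rpow_natCast]
    ring
  have h5 : w ^ (7 : ℝ) ≤ w ^ E1 := Real.rpow_le_rpow_of_exponent_le hw hE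
  exact hm.trans (h1.trans (h2.le.trans (h3.trans (h4.le.trans h5))))

private theorem tm_exp (E Q C : ℝ) (hC : 1 ≤ C) : ∃ w2 : ℝ, ∀ w : ℝ, w2 ≤ w →
    Real.exp (-(Real.exp (w - E)) ^ 2 / C) ≤ w ^ (-Q) := by
  -- eventually `exp (w - E)^2 / C ≥ w` and `exp (-w) ≤ w^(-Q)`
  have h1 : Filter.Tendsto (fun w : ℝ => w ^ Q * Real.exp (-w)) Filter.atTop (nhds 0) :=
    tendsto_rpow_mul_exp_neg_mul_atTop_nhds_zero Q 1 one_pos |>.congr fun w => by rw [neg_one_mul]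
  have h2 : Filter.Tendsto (fun w : ℝ => w * Real.exp (-w)) Filter.atTop (nhds 0) := by
    have := tendsto_rpow_mul_exp_neg_mul_atTop_nhds_zero 1 1 one_pos
    refine this.congr fun w => by rw [neg_one_mul, Real.rpow_one]
  have e1 : ∀ᶠ w : ℝ in Filter.atTop, w ^ Q * Real.exp (-w) < 1 := h1.eventually (gt_mem_nhds one_pos)
  have hpos : 0 < Real.exp (-(2 * E)) / C := by positivity
  have e2 : ∀ᶠ w : ℝ in Filter.atTop, w * Real.exp (-w) < Real.exp (-(2 * E)) / C :=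
    h2.eventually (gt_mem_nhds hpos)
  obtain ⟨w3, h3⟩ := Filter.eventually_atTop.1 (e1.and (e2.and (Filter.eventually_ge_atTop (1 : ℝ))))
  refine ⟨w3, fun w hw => ?_⟩
  obtain ⟨k1, k2, k3⟩ := h3 w hw
  have hw0 : 0 < w := by linarith
  have hC0 : 0 < C := by linarith
  have g1 : Real.exp (-w) ≤ w ^ (-Q) := by
    rw [Real.rpow_neg hw0.le, ← one_div, le_div_iff₀ (Real.rpow_pos_of_pos hw0 Q), mul_comm]
    exact k1.le
  refine le_trans (Real.exp_le_exp.2 ?_) g1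
  rw [neg_div, neg_le_neg_iff, le_div_iff₀ hC0]
  have g2 : Real.exp (w - E) ^ 2 = Real.exp (-(2 * E)) * (Real.exp w * Real.exp w) := by
    rw [sq, ← Real.exp_add, ← Real.exp_add, ← Real.exp_add]
    congr 1
    ring
  have g3 : w < Real.exp (-(2 * E)) / C * Real.exp w := by
    have := mul_lt_mul_of_pos_right k2 (Real.exp_pos w)
    rwa [mul_assoc, ← Real.exp_add, neg_add_cancel, Real.exp_zero, mul_one] at this
  have g4 : w * C < Real.exp (-(2 * E)) * Real.exp w := by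
    have := mul_lt_mul_of_pos_right g3 hC0
    have h5 : Real.exp (-(2 * E)) / C * Real.exp w * C = Real.exp (-(2 * E)) * Real.exp w := by
      field_simp
    rwa [h5] at this
  rw [g2]
  refine g4.le.trans ?_
  refine mul_le_mul_of_nonneg_left ?_ (Real.exp_pos _).le
  have : 1 ≤ Real.exp w := Real.one_le_exp hw0.le
  nlinarith

private theorem tm_cfdiff {β : Measure ℝ} [IsFiniteMeasure β] {w N Q E1 : ℝ} (hw : 1 ≤ w)
    (hM : (β Set.univ).toReal ≤ w ^ E1) (hN : E1 + 2 + Q ≤ 2 * N)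
    (hb : ∀ τ : ℝ, w ≤ |τ| → |τ| ≤ Real.exp (2 * w) → ‖cf β τ‖ ≤ w ^ (-Q)) (τ : ℝ) (hτ : |τ| ≤ Real.exp (2 * w)) :
    ‖cf β τ - cf (tm_sm (w ^ (-N)) β) τ‖ ≤ w ^ (-Q) := by
  have hw0 : 0 < w := by linarith
  rw [tm_sm_cf]
  set η : ℝ := w ^ (-N) with hη
  have e1 : cf β τ - cf β τ * ((Real.exp (-(η * τ) ^ 2 / 2) : ℝ) : ℂ) =
      cf β τ * ((1 - Real.exp (-(η * τ) ^ 2 / 2) : ℝ) : ℂ) := by
    push_cast
    ring
  have hx0 : -(η * τ) ^ 2 / 2 ≤ 0 := by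
    have := sq_nonneg (η * τ)
    linarith
  have hex : Real.exp (-(η * τ) ^ 2 / 2) ≤ 1 := Real.exp_le_one_iff.2 hx0
  have hex2 : 1 - Real.exp (-(η * τ) ^ 2 / 2) ≤ (η * τ) ^ 2 / 2 := by
    have := Real.add_one_le_exp (-(η * τ) ^ 2 / 2)
    linarith
  rw [e1, norm_mul, Complex.norm_real, Real.norm_eq_abs, abs_of_nonneg (by linarith)]
  rcases le_total w |τ| with h | h
  · have h1 := hb τ h hτ
    calc ‖cf β τ‖ * (1 - Real.exp (-(η * τ) ^ 2 / 2)) ≤ w ^ (-Q) * 1 :=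
          mul_le_mul h1 (by linarith [Real.exp_pos (-(η * τ) ^ 2 / 2)]) (by linarith) (Real.rpow_nonneg hw0.le _)
      _ = w ^ (-Q) := mul_one _
  · have h1 : ‖cf β τ‖ ≤ w ^ E1 := (cf_norm_le β τ).trans hM
    have h2 : (η * τ) ^ 2 / 2 ≤ w ^ (-(2 * N)) * w ^ (2 : ℝ) := by
      have h3 : τ ^ 2 ≤ w ^ 2 := by
        rw [← sq_abs]
        exact pow_le_pow_left₀ (abs_nonneg _) h 2
      have h4 : η ^ 2 = w ^ (-(2 * N)) := by
        rw [hη, ← Real.rpow_natCast, ← Real.rpow_mul hw0.le]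
        congr 1
        push_cast
        ring
      have h5 : w ^ (2 : ℝ) = w ^ 2 := by
        rw [show (2 : ℝ) = ((2 : ℕ) : ℝ) by norm_num, Real.rpow_natCast]
      rw [mul_pow, h4, h5]
      have h6 : 0 ≤ w ^ (-(2 * N)) := Real.rpow_nonneg hw0.le _
      have h7 : 0 ≤ w ^ (-(2 * N)) * w ^ 2 := by positivity
      have h8 := mul_le_mul_of_nonneg_left h3 h6
      linarith
    calc ‖cf β τ‖ * (1 - Real.exp (-(η * τ) ^ 2 / 2)) ≤ w ^ E1 * (w ^ (-(2 * N)) * w ^ (2 : ℝ)) :=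
          mul_le_mul h1 (hex2.trans h2) (by linarith) (Real.rpow_nonneg hw0.le _)
      _ = w ^ (E1 + (-(2 * N) + 2)) := by
          rw [← Real.rpow_add hw0, ← Real.rpow_add hw0]
      _ ≤ w ^ (-Q) := Real.rpow_le_rpow_of_exponent_le hw (by linarith)

theorem t4_main {s a1 b1 a2 b2 : ℝ} (E A : ℝ) (hs : 0 < s) (hs1 : s ≤ 1) (ha1 : a1 ≠ 0) (ha2 : a2 ≠ 0)
    (hd : a1 * b2 - a2 * b1 ≠ 0) : ∃ N0 : ℝ, ∀ N : ℝ, N0 ≤ N → ∃ w0 : ℝ, 1 ≤ w0 ∧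
    ∀ w c δ t : ℝ, w0 ≤ w → |c - w| ≤ E → Real.exp (-w - E) ≤ δ → δ ≤ Real.exp (-w + E) →
    w / 400 ≤ t → w / 400 ≤ c - t → ∀ (μ1 μ2 : Measure ℝ) (K : ℝ → ℝ),
    Adm δ (w ^ E) μ1 → Adm δ (w ^ E) μ2 → AdmK (w ^ E) K →
    |TI (w / 200) s c t (DD δ μ1 μ2 K a1 b1 a2 b2) -
      TI (w / 200) s c t (De (w ^ (-N)) (DD δ μ1 μ2 K a1 b1 a2 b2))| ≤ w ^ (-A) := by
  obtain ⟨C0, hC0, H0⟩ := bM_mass
  obtain ⟨C1, hC1, H1⟩ := coef_sum
  obtain ⟨C3, hC3, H3⟩ := t2 ha1 ha2 hd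
  obtain ⟨E1, hE1⟩ : ∃ E1 : ℝ, E1 = max E 7 := ⟨_, rfl⟩
  have hE7 : 7 ≤ E1 := by rw [hE1]; exact le_max_right _ _
  have hEE : E ≤ E1 := by rw [hE1]; exact le_max_left _ _
  obtain ⟨r, hr⟩ : ∃ r : ℝ, r = 3 * E1 + |A| := ⟨_, rfl⟩
  obtain ⟨Q, hQ⟩ : ∃ Q : ℝ, Q = 10 * E1 + 2 * |A| + 1 := ⟨_, rfl⟩
  have hA0 : 0 ≤ |A| := abs_nonneg _
  have hQ0 : 0 ≤ Q := by linarith
  obtain ⟨y0, hy0, Hν⟩ := nu 800 (Q + 1) hs hs1
  obtain ⟨w1, hw1, Hb⟩ := bs 2 Q hs hs1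
  obtain ⟨w2, Hx⟩ := tm_exp E Q C3 hC3
  refine ⟨(E1 + 2 + Q) / 2, fun N hN => ?_⟩
  have h400 : (0 : ℝ) < 400 ^ (Q + 1) := Real.rpow_pos_of_pos (by norm_num) _
  refine ⟨|E| + 3 + w1 + |w2| + 400 * y0 + 729 * C0 + 729 * C1 + 3 * C3 + 400 ^ (Q + 1), ?_, ?_⟩
  · have h1 := abs_nonneg E
    have h2 := abs_nonneg w2
    linarith
  intro w c δ t hw hc hδ1 hδ2 ht hb μ1 μ2 K hm1 hm2 hK
  have hEa := abs_nonneg E
  have hEl := le_abs_self E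
  have hw2a := abs_nonneg w2
  have hw2l := le_abs_self w2
  have gw : 3 ≤ w := by linarith
  have gwE : |E| ≤ w := by linarith
  have gw1 : w1 ≤ w := by linarith
  have gw2 : w2 ≤ w := by linarith
  have gy0 : 400 * y0 ≤ w := by linarith
  have gC0 : 729 * C0 ≤ w := by linarith
  have gC1 : 729 * C1 ≤ w := by linarith
  have gC3 : 3 * C3 ≤ w := by linarith
  have g400 : (400 : ℝ) ^ (Q + 1) ≤ w := by linarith
  have hw1' : 1 ≤ w := by linarith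
  have hw0 : 0 < w := by linarith
  have hδ : 0 < δ := (Real.exp_pos _).trans_le hδ1
  obtain ⟨hc1, hc2⟩ := abs_le.1 hc
  have hc3 : c ≤ 2 * w := by linarith
  obtain ⟨b, hbd⟩ : ∃ b : ℝ, b = c - t := ⟨_, rfl⟩
  have ht0 : 0 ≤ t := by linarith [div_nonneg hw0.le (by norm_num : (0 : ℝ) ≤ 400)]
  have hb0 : 0 ≤ b := by rw [hbd]; linarith [div_nonneg hw0.le (by norm_num : (0 : ℝ) ≤ 400)]
  have ht2 : |t| ≤ 2 * w := by rw [abs_of_nonneg ht0]; linarith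
  have hb2 : |b| ≤ 2 * w := by rw [abs_of_nonneg hb0]; linarith
  have hbw : w / 400 ≤ b := by rw [hbd]; exact hb
  -- the measures
  obtain ⟨B, hBd⟩ : ∃ B : ℝ, B = w ^ E1 := ⟨_, rfl⟩
  have hB1 : 1 ≤ B := by rw [hBd]; exact Real.one_le_rpow hw1' (by linarith)
  have hB0 : 0 ≤ B := by linarith
  have hEB : w ^ E ≤ B := by rw [hBd]; exact Real.rpow_le_rpow_of_exponent_le hw1' hEE
  have hm1' := adm_mono hm1 hEB
  have hm2' := adm_mono hm2 hEB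
  have hK' := admK_mono hK hEB
  obtain ⟨iβ, mβ⟩ := H0 (w / 200) s t hs hs1
  have mβ' : (bM (w / 200) s t Set.univ).toReal ≤ B := by rw [hBd]; exact tm_mass hC0 hw1' gC0 ht2 hE7 mβ
  obtain ⟨iβs, eβs⟩ := tm_sm_fin (w ^ (-N)) (bM (w / 200) s t)
  have mβs : (tm_sm (w ^ (-N)) (bM (w / 200) s t) Set.univ).toReal ≤ B := by rw [eβs]; exact mβ'
  have hn0 : ∀ n : ℕ, (0 : ℝ) ≤ (n : ℝ)⁻¹ := fun n => inv_nonneg.2 (Nat.cast_nonneg n)
  obtain ⟨s1, t1⟩ := H1 (fun n => (n : ℝ)⁻¹) s b hs hs1 hn0 (fun n => by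
    have := tm_coef_le (x := 1) (n := n) fun hn => one_le_pow₀ (tm_card_one hn)
    rwa [one_mul] at this)
  obtain ⟨iν, eν⟩ := muS_fin (σ := s) (c := b) (a := fun n : ℕ => (n : ℝ)⁻¹) hn0 s1
  have mν : (muS (fun n : ℕ => (n : ℝ)⁻¹) s b Set.univ).toReal ≤ B := by
    rw [eν, hBd]
    exact tm_mass hC1 hw1' gC1 hb2 hE7 t1
  obtain ⟨iρ, eρ, lρ⟩ := muL_fin hs b
  have hpi : Real.sqrt (2 * Real.pi) ≤ 3 := by
    rw [Real.sqrt_le_iff]
    refine ⟨by norm_num, ?_⟩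
    have := Real.pi_lt_four
    linarith
  have mρ : (muL s b Set.univ).toReal ≤ B := by
    rw [eρ]
    have h1 : Real.sqrt (2 * Real.pi) * s ≤ 3 * 1 := mul_le_mul hpi hs1 hs.le (by norm_num)
    have h2 : w ^ (1 : ℝ) ≤ w ^ E1 := Real.rpow_le_rpow_of_exponent_le hw1' (by linarith)
    rw [Real.rpow_one] at h2
    rw [hBd]
    linarith
  -- the transforms
  have hε : ∀ τ : ℝ, |τ| ≤ Real.exp (2 * w) →
      ‖cf (bM (w / 200) s t) τ - cf (tm_sm (w ^ (-N)) (bM (w / 200) s t)) τ‖ ≤ w ^ (-Q) := by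
    intro τ hτ
    refine tm_cfdiff hw1' (E1 := E1) (by rw [← hBd]; exact mβ') (by linarith) ?_ τ hτ
    intro τ h1 h2
    exact Hb w t τ gw1 ht h1 h2
  have hε' : ∀ τ : ℝ, |τ| ≤ Real.exp (2 * w) →
      ‖cf (muS (fun n : ℕ => (n : ℝ)⁻¹) s b) τ - cf (muL s b) τ‖ ≤ w ^ (-Q) := by
    intro τ hτ
    rw [cf_muL hs]
    have h1 : |τ| ≤ Real.exp (800 * b) := hτ.trans (Real.exp_le_exp.2 (by linarith))
    refine (Hν b τ (by linarith) h1).trans ?_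
    have h2 : b ^ (-(Q + 1)) ≤ (w / 400) ^ (-(Q + 1)) :=
      Real.rpow_le_rpow_of_nonpos (by positivity) hbw (by linarith)
    refine h2.trans ?_
    rw [Real.div_rpow hw0.le (by norm_num), Real.rpow_neg (by norm_num : (0 : ℝ) ≤ 400), div_inv_eq_mul]
    have h3 : w ^ (-(Q + 1)) * 400 ^ (Q + 1) ≤ w ^ (-(Q + 1)) * w :=
      mul_le_mul_of_nonneg_left g400 (Real.rpow_nonneg hw0.le _)
    refine h3.trans (le_of_eq ?_)
    rw [← Real.rpow_add_one hw0.ne']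
    congr 1
    ring
  have hwQ0 : 0 ≤ w ^ (-Q) := Real.rpow_nonneg hw0.le _
  have hwQ1 : w ^ (-Q) ≤ 1 := Real.rpow_le_one_of_one_le_of_nonpos hw1' (by linarith)
  obtain ⟨J1, J2⟩ := H3 δ (Real.exp (2 * w)) B (w ^ (-Q)) (w ^ (-Q)) μ1 μ2 (bM (w / 200) s t)
    (tm_sm (w ^ (-N)) (bM (w / 200) s t)) (muS (fun n : ℕ => (n : ℝ)⁻¹) s b) (muL s b) hδ (Real.exp_pos _).le hB1
    hwQ0 hwQ0 hm1' hm2' iβ iβs iν iρ mβ' mβs mν mρ lρ hε hε'
  have hlast : Real.exp (-(δ * Real.exp (2 * w)) ^ 2 / C3) ≤ w ^ (-Q) := by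
    refine le_trans (Real.exp_le_exp.2 ?_) (Hx w gw2)
    rw [neg_div, neg_div, neg_le_neg_iff]
    refine div_le_div_of_nonneg_right ?_ (by linarith)
    refine pow_le_pow_left₀ (Real.exp_pos _).le ?_ 2
    calc Real.exp (w - E) = Real.exp (-w - E) * Real.exp (2 * w) := by
          rw [← Real.exp_add]
          congr 1
          ring
      _ ≤ δ * Real.exp (2 * w) := mul_le_mul_of_nonneg_right hδ1 (Real.exp_pos _).le
  -- the integral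
  obtain ⟨I, hI⟩ : ∃ I : ℝ, I = ∫ v, (∫ y, JJ δ μ1 μ2 a1 b1 a2 b2 (bM (w / 200) s t)
    (tm_sm (w ^ (-N)) (bM (w / 200) s t)) v y ^ 2) ∂(muS (fun n : ℕ => (n : ℝ)⁻¹) s b) := ⟨_, rfl⟩
  have hI1 : I ≤ 3 * C3 * (w ^ (7 * E1) * w ^ (-Q)) := by
    rw [hI]
    refine J2.trans ?_
    have h1 : (w ^ (-Q)) ^ 2 + w ^ (-Q) + Real.exp (-(δ * Real.exp (2 * w)) ^ 2 / C3) ≤ 3 * w ^ (-Q) := by
      have h2 : (w ^ (-Q)) ^ 2 ≤ w ^ (-Q) := by
        rw [sq]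
        exact mul_le_of_le_one_left hwQ0 hwQ1
      linarith
    have h3 : B ^ 7 = w ^ (7 * E1) := by
      rw [hBd, ← Real.rpow_natCast, ← Real.rpow_mul hw0.le]
      congr 1
      push_cast
      ring
    have h4 : 0 ≤ C3 * B ^ 7 := by positivity
    refine (mul_le_mul_of_nonneg_left h1 h4).trans (le_of_eq ?_)
    rw [h3]
    ring
  -- the sum
  obtain ⟨lam, hlam⟩ : ∃ lam : ℝ, lam = w ^ (-r) := ⟨_, rfl⟩
  have hlam0 : 0 < lam := by rw [hlam]; exact Real.rpow_pos_of_pos hw0 _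
  have hsum := tm_sum (M := B) (lam := lam) (U := w / 200) H1 a1 b1 a2 b2 hs hs1 hlam0 hδ ha1 hB0 hm1' hm2' hK'
    (bM (w / 200) s t) (tm_sm (w ^ (-N)) (bM (w / 200) s t)) mβ' mβs J1
  rw [← hI] at hsum
  have hD : Continuous (DD δ μ1 μ2 K a1 b1 a2 b2) := dd_cont hm1' hm2' hK' a1 b1 a2 b2
  have hDB : ∀ x, |DD δ μ1 μ2 K a1 b1 a2 b2 x| ≤ B ^ 3 := fun x => dd_bound hB0 hm1' hm2' hK' a1 b1 a2 b2 x
  have eT : TI (w / 200) s c t (De (w ^ (-N)) (DD δ μ1 μ2 K a1 b1 a2 b2)) =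
      ∑' k : ℕ, ASI.bt (w / 200) k * (k : ℝ)⁻¹ * WW s b (Real.log k) *
        ∫ u, DD δ μ1 μ2 K a1 b1 a2 b2 (u + Real.log k) ∂(tm_sm (w ^ (-N)) (bM (w / 200) s t)) := by
    unfold TI
    rw [← hbd]
    refine tsum_congr fun k => ?_
    rw [tm_De hD hDB]
  have eT' : TI (w / 200) s c t (DD δ μ1 μ2 K a1 b1 a2 b2) =
      ∑' k : ℕ, ASI.bt (w / 200) k * (k : ℝ)⁻¹ * WW s b (Real.log k) *
        ∫ u, DD δ μ1 μ2 K a1 b1 a2 b2 (u + Real.log k) ∂(bM (w / 200) s t) := by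
    unfold TI
    rw [← hbd]
  rw [eT, eT']
  refine hsum.trans ?_
  -- first part
  have p1 : lam / 2 * (B ^ 2 * (C1 * (1 + |b|) ^ 6)) ≤ w ^ (-A) / 2 := by
    have h1 : C1 * (1 + |b|) ^ 6 ≤ B := by rw [hBd]; exact tm_mass hC1 hw1' gC1 hb2 hE7 le_rfl
    have h2 : B ^ 2 * (C1 * (1 + |b|) ^ 6) ≤ B ^ 2 * B := mul_le_mul_of_nonneg_left h1 (sq_nonneg B)
    have h3 : B ^ 2 * B = w ^ (3 * E1) := by
      rw [← pow_succ, hBd, ← Real.rpow_natCast, ← Real.rpow_mul hw0.le]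
      congr 1
      push_cast
      ring
    have h4 : lam * w ^ (3 * E1) = w ^ (-|A|) := by
      rw [hlam, ← Real.rpow_add hw0]
      congr 1
      rw [hr]
      ring
    have h5 : w ^ (-|A|) ≤ w ^ (-A) := Real.rpow_le_rpow_of_exponent_le hw1' (neg_le_neg (le_abs_self A))
    have h6 : lam * (B ^ 2 * (C1 * (1 + |b|) ^ 6)) ≤ lam * w ^ (3 * E1) := by
      rw [← h3]
      exact mul_le_mul_of_nonneg_left h2 hlam0.le
    have h7 : lam / 2 * (B ^ 2 * (C1 * (1 + |b|) ^ 6)) = lam * (B ^ 2 * (C1 * (1 + |b|) ^ 6)) / 2 := by ring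
    rw [h7]
    linarith
  have p2 : 1 / (2 * lam) * I ≤ w ^ (-A) / 2 := by
    have h1 : 1 / (2 * lam) = w ^ r / 2 := by
      rw [hlam, Real.rpow_neg hw0.le]
      field_simp
    have h2 : 0 ≤ w ^ r := Real.rpow_nonneg hw0.le _
    have h3 : w ^ r * (3 * C3 * (w ^ (7 * E1) * w ^ (-Q))) ≤ w ^ (-|A|) := by
      have h4 : w ^ r * (3 * C3 * (w ^ (7 * E1) * w ^ (-Q))) = 3 * C3 * (w ^ r * (w ^ (7 * E1) * w ^ (-Q))) := by ring
      have h5 : w ^ r * (w ^ (7 * E1) * w ^ (-Q)) = w ^ (-|A| - 1) := by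
        rw [← Real.rpow_add hw0, ← Real.rpow_add hw0]
        congr 1
        rw [hr, hQ]
        ring
      rw [h4, h5, Real.rpow_sub_one hw0.ne']
      have h6 : 0 ≤ w ^ (-|A|) / w := by positivity
      refine (mul_le_mul_of_nonneg_right gC3 h6).trans (le_of_eq ?_)
      field_simp
    have h5 : w ^ (-|A|) ≤ w ^ (-A) := Real.rpow_le_rpow_of_exponent_le hw1' (neg_le_neg (le_abs_self A))
    have h6 : w ^ r * I ≤ w ^ r * (3 * C3 * (w ^ (7 * E1) * w ^ (-Q))) := mul_le_mul_of_nonneg_left hI1 h2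
    rw [h1]
    linarith
  linarith

end HLA
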