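import Pool.Agent.HLA.De
import Pool.Agent.ASI.Div

/-!
# HLA.TTail: the tails of the separated type II sum

PROOF. `U = w/200`, `|TI| ≤ B · M(t) · N(t)`, `M(t) = bM U s t (univ) = ∑ tw(m) hL U (log m) WW s t (log m)`, `N(t) = ∑ |bt U k| k⁻¹ WW s (c-t) (log k)`; always `M(t) ≤ C (1+|t|)^6`,
`N(t) ≤ C (1 + |c-t|)^6` (`coef_sum`, `ASI.bt_le`).
(1) `t < w/400`: `M(t) ≤ C exp(-κ(w²+t²))`: `hL U x ≤ exp(-(U-x)²/4)` for `x ≤ U` (proof as `hL_tail`); for `x ≤ 3U/4`: `hL ≤ exp(-U²/64)`, for `x > 3U/4`: `|x - t| ≥ U/4`, so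
`WW s t x ≤ exp(-(x-t)²/(4s²)) exp(-U²/(64 s²))`; in both cases there remains a sum as in `coef_sum`; and if `t < 0`, then `(log m - t)² ≥ t²` gives another factor
`exp(-t²/(4s²))` (take `WW s t x = (WW s t x)^(1/2) (WW s t x)^(1/2)`). For `0 ≤ t < w/400`: `t² ≤ w²`.
(2) `c - t < w/400`: the same for `N(t)`: `|bt U k| ≤ ∑_{d∣k} hM U (log d)`, `hM U x ≤ exp(-(U-x)²/8)` for `x ≤ U`; with `y = c - t`; if `y < 0`
then a factor `exp(-y²/(4s²))`; and `t = c - y`, `t² ≤ 2c² + 2y²`, `c ≤ w + E`.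
-/

namespace HLA

open MeasureTheory ArithmeticFunction SMC

/-- The bound for the two cutoffs. -/
private noncomputable def hb (U x : ℝ) : ℝ := Real.exp (-(max (U - x) 0) ^ 2 / 8)

private theorem hb_pos (U x : ℝ) : 0 < hb U x := Real.exp_pos _

private theorem tg_int {c : ℝ} (hc : 0 < c) (x : ℝ) :
    ∫ w : ℝ, Real.exp (-(x - w) ^ 2 / c) = Real.sqrt (c * Real.pi) := by
  have h := MeasureTheory.integral_sub_left_eq_self (fun w : ℝ => Real.exp (-w ^ 2 / c))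
    (MeasureTheory.volume) x
  rw [h]
  have h2 := integral_gaussian (1 / c)
  have h3 : (fun w : ℝ => Real.exp (-w ^ 2 / c)) = fun w : ℝ => Real.exp (-(1 / c) * w ^ 2) := by
    funext w
    congr 1
    ring
  rw [h3, h2]
  congr 1
  field_simp

private theorem tg_itb {c : ℝ} (hc : 0 < c) (x : ℝ) :
    Integrable (fun w : ℝ => Real.exp (-(x - w) ^ 2 / c)) := by
  have h := (integrable_exp_neg_mul_sq (b := 1 / c) (by positivity)).comp_sub_left x
  refine h.congr (Filter.Eventually.of_forall fun w => ?_)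
  simp only
  congr 1
  ring

private theorem tg_low {c : ℝ} (hc : 0 < c) {U x : ℝ} (h : x ≤ U) :
    (1 / Real.sqrt (c * Real.pi)) * ∫ w in Set.Ioi U, Real.exp (-(x - w) ^ 2 / c) ≤
      Real.exp (-(U - x) ^ 2 / c) := by
  have hs : 0 < Real.sqrt (c * Real.pi) := Real.sqrt_pos.2 (by positivity)
  have h1 : ∫ w in Set.Ioi U, Real.exp (-(x - w) ^ 2 / c) ≤
      ∫ w in Set.Ioi U, Real.exp (-(U - x) ^ 2 / c) * Real.exp (-(U - w) ^ 2 / c) := by
    refine MeasureTheory.setIntegral_mono_on (tg_itb hc x).integrableOn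
      ((tg_itb hc U).const_mul _).integrableOn measurableSet_Ioi ?_
    intro w hw
    rw [← Real.exp_add]
    apply Real.exp_le_exp.2
    rw [← add_div]
    apply div_le_div_of_nonneg_right _ hc.le
    have hw' : U < w := hw
    nlinarith [mul_nonneg (sub_nonneg.2 h) (sub_nonneg.2 hw'.le)]
  have h2 : ∫ w in Set.Ioi U, Real.exp (-(x - w) ^ 2 / c) ≤
      Real.exp (-(U - x) ^ 2 / c) * Real.sqrt (c * Real.pi) := by
    refine h1.trans ?_
    rw [MeasureTheory.integral_const_mul]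
    apply mul_le_mul_of_nonneg_left _ (Real.exp_pos _).le
    rw [← tg_int hc U]
    exact MeasureTheory.setIntegral_le_integral (tg_itb hc U)
      (Filter.Eventually.of_forall fun w => (Real.exp_pos _).le)
  calc (1 / Real.sqrt (c * Real.pi)) * ∫ w in Set.Ioi U, Real.exp (-(x - w) ^ 2 / c)
      ≤ (1 / Real.sqrt (c * Real.pi)) * (Real.exp (-(U - x) ^ 2 / c) * Real.sqrt (c * Real.pi)) :=
        mul_le_mul_of_nonneg_left h2 (by positivity)
    _ = Real.exp (-(U - x) ^ 2 / c) := by field_simp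

private theorem hL_hb (U x : ℝ) : ASI.hL U x ≤ hb U x := by
  unfold hb
  rcases le_total x U with h | h
  · rw [max_eq_left (sub_nonneg.2 h)]
    refine (tg_low (by norm_num : (0 : ℝ) < 4) h).trans ?_
    apply Real.exp_le_exp.2
    nlinarith [sq_nonneg (U - x)]
  · rw [max_eq_right (sub_nonpos.2 h)]
    simpa using ASI.hL_le U x

private theorem hM_hb (U : ℝ) {x y : ℝ} (hxy : x ≤ y) : ASI.hM U x ≤ hb U y := by
  unfold hb
  rcases le_total y U with h | h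
  · rw [max_eq_left (sub_nonneg.2 h)]
    refine (tg_low (by norm_num : (0 : ℝ) < 8) (hxy.trans h)).trans ?_
    apply Real.exp_le_exp.2
    have h1 : 0 ≤ U - y := sub_nonneg.2 h
    have h2 : U - y ≤ U - x := by linarith
    have h3 : (U - y) ^ 2 ≤ (U - x) ^ 2 := pow_le_pow_left₀ h1 h2 2
    linarith
  · rw [max_eq_right (sub_nonpos.2 h)]
    simpa using ASI.hM_le U x

private theorem bt_hb (U : ℝ) (k : ℕ) : |ASI.bt U k| ≤ (k.divisors.card : ℝ) * hb U (Real.log k) := by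
  unfold ASI.bt
  calc |∑ d ∈ k.divisors, (moebius d : ℝ) * ASI.hM U (Real.log d)|
      ≤ ∑ d ∈ k.divisors, |(moebius d : ℝ) * ASI.hM U (Real.log d)| := Finset.abs_sum_le_sum_abs _ _
    _ ≤ ∑ d ∈ k.divisors, hb U (Real.log k) := by
        apply Finset.sum_le_sum
        intro d hd
        rw [abs_mul, abs_of_nonneg (ASI.hM_nonneg U _)]
        have h1 : |(moebius d : ℝ)| ≤ 1 := by exact_mod_cast abs_moebius_le_one
        have hk : 0 < k := Nat.pos_of_ne_zero (Nat.mem_divisors.1 hd).2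
        have hdk : d ∣ k := (Nat.mem_divisors.1 hd).1
        have hd0 : 0 < d := Nat.pos_of_dvd_of_pos hdk hk
        have h2 : Real.log d ≤ Real.log k :=
          Real.log_le_log (by exact_mod_cast hd0) (by exact_mod_cast Nat.le_of_dvd hk hdk)
        calc |(moebius d : ℝ)| * ASI.hM U (Real.log d) ≤ 1 * ASI.hM U (Real.log d) :=
              mul_le_mul_of_nonneg_right h1 (ASI.hM_nonneg U _)
          _ ≤ hb U (Real.log k) := by
              rw [one_mul]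
              exact hM_hb U h2
    _ = (k.divisors.card : ℝ) * hb U (Real.log k) := by
        rw [Finset.sum_const, nsmul_eq_mul]

private theorem tail_ineq {U x y : ℝ} (hU : 0 ≤ U) (hx : 0 ≤ x) (hy : y < U / 2) :
    (U ^ 2 + y ^ 2) / 200 ≤ (max (U - x) 0) ^ 2 / 8 + 7 / 16 * (x - y) ^ 2 := by
  rcases le_total x (3 / 4 * U) with h | h
  · have h1 : U / 4 ≤ max (U - x) 0 := le_max_of_le_left (by linarith)
    have h2 : (U / 4) ^ 2 ≤ (max (U - x) 0) ^ 2 := pow_le_pow_left₀ (by positivity) h1 2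
    rcases le_total 0 y with h3 | h3
    · have h4 : y ^ 2 ≤ (U / 2) ^ 2 := pow_le_pow_left₀ h3 hy.le 2
      nlinarith [sq_nonneg (x - y)]
    · have h4 : y ^ 2 ≤ (x - y) ^ 2 := by nlinarith
      nlinarith [sq_nonneg U, sq_nonneg y]
  · have h2 : 0 ≤ (max (U - x) 0) ^ 2 := sq_nonneg _
    rcases le_total 0 y with h3 | h3
    · have h4 : y ^ 2 ≤ (U / 2) ^ 2 := pow_le_pow_left₀ h3 hy.le 2
      have h5 : U / 4 ≤ x - y := by linarith
      have h6 : (U / 4) ^ 2 ≤ (x - y) ^ 2 := pow_le_pow_left₀ (by positivity) h5 2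
      nlinarith
    · have h5 : (3 / 4 * U) ^ 2 ≤ x ^ 2 := pow_le_pow_left₀ (by positivity) h 2
      have h4 : x ^ 2 + y ^ 2 ≤ (x - y) ^ 2 := by nlinarith
      nlinarith [sq_nonneg U, sq_nonneg y]

private theorem term_le {U s y : ℝ} (hU : 0 ≤ U) (hs : 0 < s) (hs1 : s ≤ 1) (hy : y < U / 2) {x : ℝ} (hx : 0 ≤ x) :
    hb U x * WW s y x ≤ Real.exp (-((U ^ 2 + y ^ 2) / 200)) * Real.exp (-(x - y) ^ 2 / 16) := by
  have h1 : WW s y x ≤ Real.exp (-(x - y) ^ 2 / 2) := by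
    unfold WW
    apply Real.exp_le_exp.2
    have h2 : s ^ 2 ≤ 1 := pow_le_one₀ hs.le hs1
    have h3 : 0 < s ^ 2 := by positivity
    rw [neg_div, neg_div]
    apply neg_le_neg
    apply div_le_div_of_nonneg_left (sq_nonneg _) (by positivity)
    linarith
  calc hb U x * WW s y x ≤ hb U x * Real.exp (-(x - y) ^ 2 / 2) :=
        mul_le_mul_of_nonneg_left h1 (hb_pos U x).le
    _ ≤ Real.exp (-((U ^ 2 + y ^ 2) / 200)) * Real.exp (-(x - y) ^ 2 / 16) := by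
        unfold hb
        rw [← Real.exp_add, ← Real.exp_add]
        apply Real.exp_le_exp.2
        have := tail_ineq hU hx hy
        nlinarith

private theorem tail_sum : ∃ C : ℝ, 1 ≤ C ∧ ∀ (a : ℕ → ℝ) (U s y : ℝ), 0 ≤ U → 0 < s → s ≤ 1 → (∀ n, 0 ≤ a n) →
    (∀ n : ℕ, a n ≤ (n.divisors.card : ℝ) ^ 2 * (1 + Real.log n) ^ 2 / n * hb U (Real.log n)) →
    Summable (fun n : ℕ => a n * WW s y (Real.log n)) ∧
      ∑' n : ℕ, a n * WW s y (Real.log n) ≤ C * (1 + |y|) ^ 6 ∧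
      (y < U / 2 → ∑' n : ℕ, a n * WW s y (Real.log n) ≤
        C * (1 + |y|) ^ 6 * Real.exp (-((U ^ 2 + y ^ 2) / 200))) := by
  obtain ⟨C, hC1, hC⟩ := ASI.div_gauss
  refine ⟨C, hC1, fun a U s y hU hs hs1 h0 ha => ?_⟩
  have hw0 : ∀ n : ℕ, 0 ≤ (n.divisors.card : ℝ) ^ 2 * (1 + Real.log n) ^ 2 / n := fun n => by positivity
  have hb1 : ∀ x : ℝ, hb U x ≤ 1 := fun x => by
    unfold hb
    apply Real.exp_le_one_iff.2
    have : 0 ≤ (max (U - x) 0) ^ 2 := sq_nonneg _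
    linarith
  have hle : ∀ n : ℕ, a n * WW s y (Real.log n) ≤
      (n.divisors.card : ℝ) ^ 2 * (1 + Real.log n) ^ 2 / n *
        Real.exp (-(Real.log n - y) ^ 2 / 16) := by
    intro n
    have h1 : a n ≤ (n.divisors.card : ℝ) ^ 2 * (1 + Real.log n) ^ 2 / n :=
      (ha n).trans (mul_le_of_le_one_right (hw0 n) (hb1 _))
    unfold WW
    exact mul_le_mul h1 (exp_le16 hs hs1 _) (Real.exp_pos _).le (hw0 n)
  have hsum : Summable (fun n : ℕ => a n * WW s y (Real.log n)) :=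
    Summable.of_nonneg_of_le (fun n => mul_nonneg (h0 n) (WW_nonneg _ _ _)) hle (hC y).1
  refine ⟨hsum, (hsum.tsum_le_tsum hle (hC y).1).trans (hC y).2.1, fun hy => ?_⟩
  have hle2 : ∀ n : ℕ, a n * WW s y (Real.log n) ≤
      Real.exp (-((U ^ 2 + y ^ 2) / 200)) * ((n.divisors.card : ℝ) ^ 2 * (1 + Real.log n) ^ 2 / n *
        Real.exp (-(Real.log n - y) ^ 2 / 16)) := by
    intro n
    have h2 := term_le hU hs hs1 hy (Real.log_natCast_nonneg n)
    calc a n * WW s y (Real.log n)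
        ≤ ((n.divisors.card : ℝ) ^ 2 * (1 + Real.log n) ^ 2 / n * hb U (Real.log n)) * WW s y (Real.log n) :=
          mul_le_mul_of_nonneg_right (ha n) (WW_nonneg _ _ _)
      _ = (n.divisors.card : ℝ) ^ 2 * (1 + Real.log n) ^ 2 / n * (hb U (Real.log n) * WW s y (Real.log n)) := by ring
      _ ≤ (n.divisors.card : ℝ) ^ 2 * (1 + Real.log n) ^ 2 / n *
          (Real.exp (-((U ^ 2 + y ^ 2) / 200)) * Real.exp (-(Real.log n - y) ^ 2 / 16)) :=
          mul_le_mul_of_nonneg_left h2 (hw0 n)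
      _ = _ := by ring
  calc ∑' n : ℕ, a n * WW s y (Real.log n)
      ≤ ∑' n : ℕ, Real.exp (-((U ^ 2 + y ^ 2) / 200)) * ((n.divisors.card : ℝ) ^ 2 * (1 + Real.log n) ^ 2 / n *
        Real.exp (-(Real.log n - y) ^ 2 / 16)) := hsum.tsum_le_tsum hle2 ((hC y).1.mul_left _)
    _ = Real.exp (-((U ^ 2 + y ^ 2) / 200)) * ∑' n : ℕ, (n.divisors.card : ℝ) ^ 2 * (1 + Real.log n) ^ 2 / n *
        Real.exp (-(Real.log n - y) ^ 2 / 16) := tsum_mul_left
    _ ≤ Real.exp (-((U ^ 2 + y ^ 2) / 200)) * (C * (1 + |y|) ^ 6) :=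
        mul_le_mul_of_nonneg_left (hC y).2.1 (Real.exp_pos _).le
    _ = C * (1 + |y|) ^ 6 * Real.exp (-((U ^ 2 + y ^ 2) / 200)) := by ring

private theorem card_ge {k : ℕ} (hk : 0 < k) : (1 : ℝ) ≤ (k.divisors.card : ℝ) := by
  have : 0 < k.divisors.card := Finset.card_pos.mpr ⟨1, Nat.one_mem_divisors.mpr hk.ne'⟩
  exact_mod_cast this

private theorem aM_le (U : ℝ) (n : ℕ) : tw n * ASI.hL U (Real.log n) ≤
    (n.divisors.card : ℝ) ^ 2 * (1 + Real.log n) ^ 2 / n * hb U (Real.log n) := by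
  have h1 : tw n ≤ (n.divisors.card : ℝ) ^ 2 * (1 + Real.log n) ^ 2 / n := by
    unfold tw
    exact div_le_div_of_nonneg_right (vm_le n) (Nat.cast_nonneg n)
  exact mul_le_mul h1 (hL_hb U _) (ASI.hL_nonneg U _) (by positivity)

private theorem aN_le (U : ℝ) (k : ℕ) : |ASI.bt U k| * (k : ℝ)⁻¹ ≤
    (k.divisors.card : ℝ) ^ 2 * (1 + Real.log k) ^ 2 / k * hb U (Real.log k) := by
  rcases Nat.eq_zero_or_pos k with rfl | hk
  · simp
  have h1 := bt_hb U k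
  have h2 := card_ge hk
  have h3 : 0 ≤ Real.log k := Real.log_natCast_nonneg k
  have h4 : (k.divisors.card : ℝ) ≤ (k.divisors.card : ℝ) ^ 2 * (1 + Real.log k) ^ 2 := by
    have h5 : (1 : ℝ) ≤ (1 + Real.log k) ^ 2 := one_le_pow₀ (by linarith)
    have h6 : (k.divisors.card : ℝ) ≤ (k.divisors.card : ℝ) ^ 2 := by nlinarith
    calc (k.divisors.card : ℝ) ≤ (k.divisors.card : ℝ) ^ 2 * 1 := by linarith
      _ ≤ (k.divisors.card : ℝ) ^ 2 * (1 + Real.log k) ^ 2 := mul_le_mul_of_nonneg_left h5 (by positivity)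
  have hk0 : 0 ≤ (k : ℝ)⁻¹ := by positivity
  calc |ASI.bt U k| * (k : ℝ)⁻¹ ≤ ((k.divisors.card : ℝ) * hb U (Real.log k)) * (k : ℝ)⁻¹ :=
        mul_le_mul_of_nonneg_right h1 hk0
    _ ≤ ((k.divisors.card : ℝ) ^ 2 * (1 + Real.log k) ^ 2 * hb U (Real.log k)) * (k : ℝ)⁻¹ :=
        mul_le_mul_of_nonneg_right (mul_le_mul_of_nonneg_right h4 (hb_pos U _).le) hk0
    _ = (k.divisors.card : ℝ) ^ 2 * (1 + Real.log k) ^ 2 / k * hb U (Real.log k) := by ring

private theorem ti_le {U s c t B : ℝ} {D : ℝ → ℝ} (hM : Summable (fun n : ℕ => tw n * ASI.hL U (Real.log n) * WW s t (Real.log n)))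
    (hN : Summable (fun k : ℕ => |ASI.bt U k| * (k : ℝ)⁻¹ * WW s (c - t) (Real.log k))) (hB : ∀ x, |D x| ≤ B) :
    |TI U s c t D| ≤ (∑' k : ℕ, |ASI.bt U k| * (k : ℝ)⁻¹ * WW s (c - t) (Real.log k)) *
      (B * ∑' n : ℕ, tw n * ASI.hL U (Real.log n) * WW s t (Real.log n)) := by
  have h0 : ∀ n : ℕ, 0 ≤ tw n * ASI.hL U (Real.log n) := fun n => mul_nonneg (tw_nonneg n) (ASI.hL_nonneg U _)
  obtain ⟨hf, hm⟩ := muS_fin (σ := s) (c := t) h0 hM
  have hf2 : IsFiniteMeasure (bM U s t) := hf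
  unfold TI
  rw [← Real.norm_eq_abs]
  refine tsum_of_norm_bounded (hN.hasSum.mul_right _) fun k => ?_
  rw [norm_mul, norm_mul, norm_mul, Real.norm_eq_abs, Real.norm_eq_abs, Real.norm_eq_abs,
    abs_of_nonneg (WW_nonneg s (c - t) _), abs_of_nonneg (inv_nonneg.2 (Nat.cast_nonneg k) : (0 : ℝ) ≤ (k : ℝ)⁻¹)]
  refine mul_le_mul_of_nonneg_left ?_ (mul_nonneg (mul_nonneg (abs_nonneg _) (by positivity)) (WW_nonneg _ _ _))
  have h1 := norm_integral_le_of_norm_le_const (μ := bM U s t) (f := fun u => D (u + Real.log k)) (C := B)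
    (ae_of_all _ fun x => hB _)
  refine h1.trans (le_of_eq ?_)
  rw [← hm]
  rfl

private theorem poly_exp (K κ : ℝ) (hK : 0 < K) (hκ : 0 < κ) : ∃ z0 : ℝ, 1 ≤ z0 ∧ ∀ z : ℝ, z0 ≤ z →
    K * z ^ 6 ≤ Real.exp (κ * z) := by
  have h := (isLittleO_pow_exp_pos_mul_atTop (k := 6) hκ).def (c := 1 / K) (by positivity)
  rw [Filter.eventually_atTop] at h
  obtain ⟨z1, h1⟩ := h
  refine ⟨max 1 z1, le_max_left _ _, fun z hz => ?_⟩
  have h2 := h1 z ((le_max_right _ _).trans hz)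
  rw [Real.norm_eq_abs, Real.norm_eq_abs, abs_of_pos (Real.exp_pos _)] at h2
  have h3 : z ^ 6 ≤ 1 / K * Real.exp (κ * z) := (le_abs_self _).trans h2
  calc K * z ^ 6 ≤ K * (1 / K * Real.exp (κ * z)) := mul_le_mul_of_nonneg_left h3 hK.le
    _ = Real.exp (κ * z) := by field_simp

theorem t4_tail {s : ℝ} (E : ℝ) (hs : 0 < s) (hs1 : s ≤ 1) : ∃ κ w0 : ℝ, 0 < κ ∧ 1 ≤ w0 ∧ ∀ (w c t B : ℝ) (D : ℝ → ℝ),
    w0 ≤ w → |c - w| ≤ E → (t < w / 400 ∨ c - t < w / 400) → Continuous D → (∀ x, |D x| ≤ B) →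
    |TI (w / 200) s c t D| ≤ B * Real.exp (-(κ * (w ^ 2 + t ^ 2))) := by
  obtain ⟨C, hC1, hC⟩ := tail_sum
  obtain ⟨z0, hz0, hz⟩ := poly_exp (C ^ 2 * 46656) (1 / 200000000) (by positivity) (by norm_num)
  refine ⟨1 / 200000000, max z0 |E|, by norm_num, hz0.trans (le_max_left _ _), fun w c t B D hw hc ht _ hB => ?_⟩
  have hw1 : z0 ≤ w := (le_max_left _ _).trans hw
  have hwE : E ≤ w := (le_abs_self E).trans ((le_max_right _ _).trans hw)
  have hwo : 1 ≤ w := hz0.trans hw1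
  have hB0 : 0 ≤ B := (abs_nonneg _).trans (hB 0)
  have hU : 0 ≤ w / 200 := by linarith
  have h0M : ∀ n : ℕ, 0 ≤ tw n * ASI.hL (w / 200) (Real.log n) := fun n => mul_nonneg (tw_nonneg n) (ASI.hL_nonneg _ _)
  have h0N : ∀ k : ℕ, 0 ≤ |ASI.bt (w / 200) k| * (k : ℝ)⁻¹ := fun k => mul_nonneg (abs_nonneg _) (by positivity)
  obtain ⟨m1, m2, m3⟩ := hC (fun n : ℕ => tw n * ASI.hL (w / 200) (Real.log n)) (w / 200) s t hU hs hs1 h0M
    (fun n => aM_le _ n)
  obtain ⟨n1, n2, n3⟩ := hC (fun k : ℕ => |ASI.bt (w / 200) k| * (k : ℝ)⁻¹) (w / 200) s (c - t) hU hs hs1 h0N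
    (fun k => aN_le _ k)
  have hTI := ti_le (U := w / 200) (s := s) (c := c) (t := t) (D := D) m1 n1 hB
  set M := ∑' n : ℕ, tw n * ASI.hL (w / 200) (Real.log n) * WW s t (Real.log n) with hM
  set N := ∑' k : ℕ, |ASI.bt (w / 200) k| * (k : ℝ)⁻¹ * WW s (c - t) (Real.log k) with hN
  have hM0 : 0 ≤ M := tsum_nonneg fun n => mul_nonneg (h0M n) (WW_nonneg _ _ _)
  have hN0 : 0 ≤ N := tsum_nonneg fun n => mul_nonneg (h0N n) (WW_nonneg _ _ _)
  -- the product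
  have hcw : |c| ≤ 2 * w := by
    have h1 : |c| ≤ |c - w| + |w| := by
      have := abs_add_le (c - w) w
      rwa [sub_add_cancel] at this
    rw [abs_of_nonneg (by linarith : 0 ≤ w)] at h1
    linarith
  have hy2 : t ^ 2 ≤ 8 * w ^ 2 + 2 * (c - t) ^ 2 := by
    have h1 : c ^ 2 ≤ (2 * w) ^ 2 := by
      rw [← sq_abs c]
      exact pow_le_pow_left₀ (abs_nonneg c) hcw 2
    nlinarith [sq_nonneg (c + (c - t)), sq_nonneg (2 * c - t)]
  have hexp : M * N ≤ C ^ 2 * ((1 + |t|) ^ 6 * (1 + |c - t|) ^ 6) * Real.exp (-((w ^ 2 + t ^ 2) / 100000000)) := by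
    rcases ht with ht | ht
    · have h1 := m3 (by linarith)
      have h2 : Real.exp (-(((w / 200) ^ 2 + t ^ 2) / 200)) ≤ Real.exp (-((w ^ 2 + t ^ 2) / 100000000)) := by
        apply Real.exp_le_exp.2
        nlinarith [sq_nonneg w, sq_nonneg t]
      calc M * N ≤ (C * (1 + |t|) ^ 6 * Real.exp (-(((w / 200) ^ 2 + t ^ 2) / 200))) * (C * (1 + |c - t|) ^ 6) :=
            mul_le_mul h1 n2 hN0 (by positivity)
        _ = C ^ 2 * ((1 + |t|) ^ 6 * (1 + |c - t|) ^ 6) * Real.exp (-(((w / 200) ^ 2 + t ^ 2) / 200)) := by ring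
        _ ≤ _ := mul_le_mul_of_nonneg_left h2 (by positivity)
    · have h1 := n3 (by linarith)
      have h2 : Real.exp (-(((w / 200) ^ 2 + (c - t) ^ 2) / 200)) ≤ Real.exp (-((w ^ 2 + t ^ 2) / 100000000)) := by
        apply Real.exp_le_exp.2
        nlinarith [sq_nonneg w, sq_nonneg (c - t)]
      calc M * N ≤ (C * (1 + |t|) ^ 6) * (C * (1 + |c - t|) ^ 6 * Real.exp (-(((w / 200) ^ 2 + (c - t) ^ 2) / 200))) :=
            mul_le_mul m2 h1 hN0 (by positivity)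
        _ = C ^ 2 * ((1 + |t|) ^ 6 * (1 + |c - t|) ^ 6) * Real.exp (-(((w / 200) ^ 2 + (c - t) ^ 2) / 200)) := by ring
        _ ≤ _ := mul_le_mul_of_nonneg_left h2 (by positivity)
  have hz1 : z0 ≤ w ^ 2 + t ^ 2 := by nlinarith [sq_nonneg t]
  have hpoly : (1 + |t|) ^ 6 * (1 + |c - t|) ^ 6 ≤ 46656 * (w ^ 2 + t ^ 2) ^ 6 := by
    have ha : 0 ≤ |t| := abs_nonneg t
    have h1 : 1 + |t| ≤ w + |t| := by linarith
    have h2 : 1 + |c - t| ≤ 3 * (w + |t|) := by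
      have := abs_sub c t
      linarith
    have h3 : (w + |t|) ^ 2 ≤ 2 * (w ^ 2 + t ^ 2) := by
      rw [← sq_abs t]
      nlinarith [sq_nonneg (w - |t|)]
    calc (1 + |t|) ^ 6 * (1 + |c - t|) ^ 6 ≤ (w + |t|) ^ 6 * (3 * (w + |t|)) ^ 6 :=
          mul_le_mul (pow_le_pow_left₀ (by positivity) h1 6) (pow_le_pow_left₀ (by positivity) h2 6)
            (by positivity) (by positivity)
      _ = 729 * ((w + |t|) ^ 2) ^ 6 := by ring
      _ ≤ 729 * (2 * (w ^ 2 + t ^ 2)) ^ 6 :=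
          mul_le_mul_of_nonneg_left (pow_le_pow_left₀ (by positivity) h3 6) (by norm_num)
      _ = 46656 * (w ^ 2 + t ^ 2) ^ 6 := by ring
  have hfin : M * N ≤ Real.exp (-(1 / 200000000 * (w ^ 2 + t ^ 2))) := by
    calc M * N ≤ C ^ 2 * ((1 + |t|) ^ 6 * (1 + |c - t|) ^ 6) * Real.exp (-((w ^ 2 + t ^ 2) / 100000000)) := hexp
      _ ≤ C ^ 2 * (46656 * (w ^ 2 + t ^ 2) ^ 6) * Real.exp (-((w ^ 2 + t ^ 2) / 100000000)) :=
          mul_le_mul_of_nonneg_right (mul_le_mul_of_nonneg_left hpoly (by positivity)) (Real.exp_pos _).le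
      _ = (C ^ 2 * 46656 * (w ^ 2 + t ^ 2) ^ 6) * Real.exp (-((w ^ 2 + t ^ 2) / 100000000)) := by ring
      _ ≤ Real.exp (1 / 200000000 * (w ^ 2 + t ^ 2)) * Real.exp (-((w ^ 2 + t ^ 2) / 100000000)) :=
          mul_le_mul_of_nonneg_right (hz _ hz1) (Real.exp_pos _).le
      _ = Real.exp (-(1 / 200000000 * (w ^ 2 + t ^ 2))) := by
          rw [← Real.exp_add]
          congr 1
          ring
  calc |TI (w / 200) s c t D| ≤ N * (B * M) := hTI
    _ = B * (M * N) := by ring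
    _ ≤ B * Real.exp (-(1 / 200000000 * (w ^ 2 + t ^ 2))) := mul_le_mul_of_nonneg_left hfin hB0

end HLA
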