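import Pool.Agent.HLA.TSep
import Pool.Agent.HLA.TTail
import Pool.Agent.HLA.TMain

/-!
# HLA.TFour: the type II part

PROOF. `t4_sep` for `D` and `De η D` (`|D| ≤ w^(3E)`, `dd_bound`, `dd_cont`, `de_bd`, `de_cont`), the difference of the integrands is at most `w^(-A-2)` for `t ∈ [w/400, c - w/400]` (`t4_main` with
`A + 2`; length `≤ 2w`) and at most `2 w^(3E) exp(-κ(w²+t²))` otherwise (`t4_tail`, `∫ exp(-κt²) dt < ∞`).
-/

namespace HLA

open MeasureTheory ArithmeticFunction SMC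

/-- the bound for the integral of the difference -/
private theorem t4d_int {κ w c B M E : ℝ} (hκ : 0 < κ) (hw : 1 ≤ w) (hcw : |c - w| ≤ E) (hE : E ≤ w) (hB : 0 ≤ B)
    (hM : 0 ≤ M) {f g : ℝ → ℝ} (hf : Integrable f) (hg : Integrable g)
    (h1 : ∀ t, w / 400 ≤ t → w / 400 ≤ c - t → |f t - g t| ≤ M)
    (h2 : ∀ t, (t < w / 400 ∨ c - t < w / 400) → |f t| ≤ B * Real.exp (-(κ * (w ^ 2 + t ^ 2))))
    (h3 : ∀ t, (t < w / 400 ∨ c - t < w / 400) → |g t| ≤ B * Real.exp (-(κ * (w ^ 2 + t ^ 2)))) :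
    |(∫ t, f t) - ∫ t, g t| ≤ 2 * w * M + 2 * B * Real.exp (-(κ * w ^ 2)) * Real.sqrt (Real.pi / κ) := by
  rw [← integral_sub hf hg]
  have hI1 : Integrable ((Set.Icc (w / 400) (c - w / 400)).indicator fun _ : ℝ => M) :=
    (integrable_indicator_iff measurableSet_Icc).2 (integrableOn_const (by simp))
  have hI2 : Integrable fun t : ℝ => 2 * B * Real.exp (-(κ * w ^ 2)) * Real.exp (-κ * t ^ 2) :=
    (integrable_exp_neg_mul_sq hκ).const_mul _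
  have hpt : ∀ t, ‖f t - g t‖ ≤ (Set.Icc (w / 400) (c - w / 400)).indicator (fun _ : ℝ => M) t +
      2 * B * Real.exp (-(κ * w ^ 2)) * Real.exp (-κ * t ^ 2) := by
    intro t
    rw [Real.norm_eq_abs]
    have hnn : 0 ≤ 2 * B * Real.exp (-(κ * w ^ 2)) * Real.exp (-κ * t ^ 2) := by positivity
    by_cases ht : w / 400 ≤ t ∧ w / 400 ≤ c - t
    · have hmem : t ∈ Set.Icc (w / 400) (c - w / 400) := ⟨ht.1, by linarith [ht.2]⟩
      rw [Set.indicator_of_mem hmem]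
      linarith [h1 t ht.1 ht.2]
    · have ht' : t < w / 400 ∨ c - t < w / 400 := by
        by_contra hcon
        push Not at hcon
        exact ht hcon
      have hnn2 : 0 ≤ (Set.Icc (w / 400) (c - w / 400)).indicator (fun _ : ℝ => M) t :=
        Set.indicator_nonneg (fun _ _ => hM) t
      have h4 := h2 t ht'
      have h5 := h3 t ht'
      have h6 := abs_sub (f t) (g t)
      have h7 : Real.exp (-(κ * (w ^ 2 + t ^ 2))) = Real.exp (-(κ * w ^ 2)) * Real.exp (-κ * t ^ 2) := by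
        rw [← Real.exp_add]
        congr 1
        ring
      rw [h7] at h4 h5
      linarith
  have hmain := norm_integral_le_of_norm_le (hI1.add hI2) (Filter.Eventually.of_forall hpt)
  rw [Real.norm_eq_abs] at hmain
  refine hmain.trans ?_
  have hadd : ∫ t, ((Set.Icc (w / 400) (c - w / 400)).indicator (fun _ : ℝ => M) + fun t : ℝ =>
      2 * B * Real.exp (-(κ * w ^ 2)) * Real.exp (-κ * t ^ 2)) t =
      (∫ t, (Set.Icc (w / 400) (c - w / 400)).indicator (fun _ : ℝ => M) t) +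
      ∫ t : ℝ, 2 * B * Real.exp (-(κ * w ^ 2)) * Real.exp (-κ * t ^ 2) := integral_add hI1 hI2
  rw [hadd]
  refine add_le_add ?_ ?_
  · rw [integral_indicator measurableSet_Icc, setIntegral_const, smul_eq_mul]
    refine mul_le_mul_of_nonneg_right ?_ hM
    rw [Measure.real, Real.volume_Icc, ENNReal.toReal_ofReal']
    rw [abs_le] at hcw
    exact max_le (by linarith [hcw.2]) (by linarith)
  · rw [integral_const_mul, integral_gaussian]

theorem t4d {σ a1 b1 a2 b2 : ℝ} (E A : ℝ) (hσ : 0 < σ) (hσ1 : σ ≤ 1) (ha1 : a1 ≠ 0) (ha2 : a2 ≠ 0)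
    (hd : a1 * b2 - a2 * b1 ≠ 0) : ∃ N0 : ℝ, ∀ N : ℝ, N0 ≤ N → ∃ w0 : ℝ, 1 ≤ w0 ∧
    ∀ w c δ : ℝ, w0 ≤ w → |c - w| ≤ E → Real.exp (-w - E) ≤ δ → δ ≤ Real.exp (-w + E) →
    ∀ (μ1 μ2 : Measure ℝ) (K : ℝ → ℝ), Adm δ (w ^ E) μ1 → Adm δ (w ^ E) μ2 → AdmK (w ^ E) K →
    |S4 (w / 200) (ph σ c (DD δ μ1 μ2 K a1 b1 a2 b2)) -
      S4 (w / 200) (ph σ c (De (w ^ (-N)) (DD δ μ1 μ2 K a1 b1 a2 b2)))| ≤ w ^ (-A) := by
  have h2 : (1 : ℝ) ≤ Real.sqrt 2 := by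
    rw [Real.one_le_sqrt]
    norm_num
  have hs : 0 < σ / Real.sqrt 2 := by positivity
  have hs1 : σ / Real.sqrt 2 ≤ 1 := by
    rw [div_le_one (by positivity)]
    linarith
  obtain ⟨N1, hN1⟩ := t4_main E (A + 2) hs hs1 ha1 ha2 hd
  obtain ⟨κ, w2, hκ, hw2, htail⟩ := t4_tail E hs hs1
  refine ⟨N1, fun N hN => ?_⟩
  obtain ⟨w1, hw1, hmain⟩ := hN1 N hN
  set Cs : ℝ := (σ * Real.sqrt (Real.pi / 2))⁻¹ with hCs
  have hCs0 : 0 < Cs := by positivity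
  set Q : ℝ := Real.sqrt (Real.pi / κ) with hQ
  have hQ0 : 0 < Q := by positivity
  have hT := tendsto_rpow_mul_exp_neg_mul_atTop_nhds_zero (E * 3 + A) κ hκ
  obtain ⟨w3, hw3⟩ := Filter.eventually_atTop.1
    (hT.eventually_lt_const (show 0 < (4 * Cs * Q)⁻¹ by positivity))
  refine ⟨max (max w1 w2) (max w3 (max E (4 * Cs))), hw1.trans ((le_max_left _ _).trans (le_max_left _ _)), ?_⟩
  intro w c δ hw hcw hδ1 hδ2 μ1 μ2 K hμ1 hμ2 hK
  have hww1 : w1 ≤ w := ((le_max_left _ _).trans (le_max_left _ _)).trans hw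
  have hww2 : w2 ≤ w := ((le_max_right _ _).trans (le_max_left _ _)).trans hw
  have hww3 : w3 ≤ w := ((le_max_left _ _).trans (le_max_right _ _)).trans hw
  have hwE : E ≤ w := (((le_max_left _ _).trans (le_max_right _ _)).trans (le_max_right _ _)).trans hw
  have hwC : 4 * Cs ≤ w := (((le_max_right _ _).trans (le_max_right _ _)).trans (le_max_right _ _)).trans hw
  have hw0 : 1 ≤ w := hw1.trans hww1
  have hwpos : 0 < w := by linarith
  have hBE : 0 ≤ w ^ E := Real.rpow_nonneg hwpos.le _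
  have hB : ∀ x, |DD δ μ1 μ2 K a1 b1 a2 b2 x| ≤ (w ^ E) ^ 3 := fun x => dd_bound hBE hμ1 hμ2 hK a1 b1 a2 b2 x
  have hD : Continuous (DD δ μ1 μ2 K a1 b1 a2 b2) := dd_cont hμ1 hμ2 hK a1 b1 a2 b2
  have hB' : ∀ x, |De (w ^ (-N)) (DD δ μ1 μ2 K a1 b1 a2 b2) x| ≤ (w ^ E) ^ 3 := fun x => (de_bd hD hB _ x).1
  have hD' : Continuous (De (w ^ (-N)) (DD δ μ1 μ2 K a1 b1 a2 b2)) := de_cont hD hB _
  obtain ⟨hI, hS⟩ := t4_sep (U := w / 200) hσ hσ1 c hD hB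
  obtain ⟨hI', hS'⟩ := t4_sep (U := w / 200) hσ hσ1 c hD' hB'
  rw [hS, hS', ← mul_sub, abs_mul, ← hCs, abs_of_pos hCs0]
  have h3 := t4d_int (M := w ^ (-(A + 2))) hκ hw0 hcw hwE (show 0 ≤ (w ^ E) ^ 3 by positivity)
    (Real.rpow_nonneg hwpos.le _) hI hI'
    (fun t ht1 ht2 => hmain w c δ t hww1 hcw hδ1 hδ2 ht1 ht2 μ1 μ2 K hμ1 hμ2 hK)
    (fun t ht => htail w c t _ _ hww2 hcw ht hD hB)
    (fun t ht => htail w c t _ _ hww2 hcw ht hD' hB')
  refine (mul_le_mul_of_nonneg_left h3 hCs0.le).trans ?_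
  have hA0 : 0 < w ^ (-A) := Real.rpow_pos_of_pos hwpos _
  have e1 : w ^ (-(A + 2)) = w ^ (-A) * (w ^ 2)⁻¹ := by
    rw [show -(A + 2) = -A + -(2 : ℝ) by ring, Real.rpow_add hwpos, Real.rpow_neg hwpos.le 2]
    norm_num
  have h4 : Cs * (2 * w * w ^ (-(A + 2))) ≤ w ^ (-A) / 2 := by
    rw [e1]
    have : Cs * (2 * w * (w ^ (-A) * (w ^ 2)⁻¹)) = w ^ (-A) * (2 * Cs / w) := by
      field_simp
    rw [this]
    have h10 : 2 * Cs / w ≤ 1 / 2 := by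
      rw [div_le_iff₀ hwpos]
      linarith
    have h11 := mul_le_mul_of_nonneg_left h10 hA0.le
    linarith
  have h5 : Cs * (2 * (w ^ E) ^ 3 * Real.exp (-(κ * w ^ 2)) * Q) ≤ w ^ (-A) / 2 := by
    have h6 := (hw3 w hww3).le
    have h7 : Real.exp (-(κ * w ^ 2)) ≤ Real.exp (-κ * w) := by
      rw [Real.exp_le_exp]
      nlinarith [mul_nonneg hκ.le (mul_nonneg hwpos.le (sub_nonneg.2 hw0))]
    have e2 : (w ^ E) ^ 3 = w ^ (E * 3 + A) * w ^ (-A) := by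
      rw [← Real.rpow_add hwpos, ← Real.rpow_natCast, ← Real.rpow_mul hwpos.le]
      congr 1
      push_cast
      ring
    rw [e2]
    have h8 : Cs * (2 * (w ^ (E * 3 + A) * w ^ (-A)) * Real.exp (-(κ * w ^ 2)) * Q) ≤
        2 * Cs * Q * w ^ (-A) * (w ^ (E * 3 + A) * Real.exp (-κ * w)) := by
      have h9 : 0 ≤ 2 * Cs * Q * w ^ (-A) * w ^ (E * 3 + A) := by positivity
      calc Cs * (2 * (w ^ (E * 3 + A) * w ^ (-A)) * Real.exp (-(κ * w ^ 2)) * Q)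
          = 2 * Cs * Q * w ^ (-A) * w ^ (E * 3 + A) * Real.exp (-(κ * w ^ 2)) := by ring
        _ ≤ 2 * Cs * Q * w ^ (-A) * w ^ (E * 3 + A) * Real.exp (-κ * w) :=
            mul_le_mul_of_nonneg_left h7 h9
        _ = _ := by ring
    refine h8.trans ?_
    calc 2 * Cs * Q * w ^ (-A) * (w ^ (E * 3 + A) * Real.exp (-κ * w))
        ≤ 2 * Cs * Q * w ^ (-A) * (4 * Cs * Q)⁻¹ := mul_le_mul_of_nonneg_left h6 (by positivity)
      _ = w ^ (-A) / 2 := by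
          field_simp
          norm_num
  calc Cs * (2 * w * w ^ (-(A + 2)) + 2 * (w ^ E) ^ 3 * Real.exp (-(κ * w ^ 2)) * Q)
      = Cs * (2 * w * w ^ (-(A + 2))) + Cs * (2 * (w ^ E) ^ 3 * Real.exp (-(κ * w ^ 2)) * Q) := by ring
    _ ≤ w ^ (-A) / 2 + w ^ (-A) / 2 := add_le_add h4 h5
    _ = w ^ (-A) := by ring

end HLA
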