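import Pool.Agent.HLA.GsmD
import Pool.Agent.HLA.Osc
import Pool.Agent.HLA.Poi

/-!
# HLA.TOne: the basic type I sum

PROOF. `u0 = c - l ≥ 0`, `D x = DD δ μ1 μ2 K a1 b1 a2 b2 x = Dg (gsm δ μ1) (gsm δ μ2) K ..`, `Θ u = u^j WW σ c (l+u) D(l+u)`; `WW σ c (l + u) = exp(-(u-u0)²/(2σ²))`. By `dg_deriv`
(twice) `D' = b1 D10 + b2 D01`, `D'' = b1² D20 + 2 b1 b2 D11 + b2² D02`, `D_ij = Dg (i-th derivative of gsm δ μ1) (j-th derivative of gsm δ μ2) K`. With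
`ω0 u = u^j exp(-(u-u0)²/(2σ²))`: `Θ = ω0 D`, `Θ1 = ω0' D + ω0 D'`, `Θ2 = ω0'' D + 2 ω0' D' + ω0 D''` (all at `l + u` in `D`). So
`exp(-2u) (Θ2 - 3Θ1 + 2Θ)` is a sum of boundedly many terms `const · exp(-2u) ω0^(m)(u) · D_ij(l+u)`, `m ≤ 2`, `i + j ≤ 2`. Put `s = √2 σ`: the functions `ω = exp(-2u) ω0^(m)(u)` and `ω'`
are at most `C (1+u0) exp(-2u0) exp(-(u-u0)²/(2s²))` (`exp(-2u) = exp(-2u0) exp(-2(u-u0))`, `|u|^j ≤ (1+u0)(1+|u-u0|)`). `D_ij(l+u) = ∫ K(y) g1(a1 y + b1 u) g2(a2 y + b2 u) dy` with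
shifted derivatives `g1 = gsm_i δ μ1 (· + b1 l)`, which are bounded and have `L¹` norm at most `C B δ^(-i)` (`gsm_deriv_bd`, `adm_int`). Divide by the bounds and apply `osc` with
`N = k` (`|k| e^{u0} ≥ 1`): every term is at most `C (1+u0) exp(-2u0) B³ δ^(-2) exp(-u0/8)` (`δ ≤ 1`). Then `poi` (its bounds `hb0`, `hb1`, `hb2` hold with some `M`).
-/

namespace HLA

open MeasureTheory ArithmeticFunction SMC

/-- polynomial times Gaussian -/
private noncomputable def HH (σ u0 c0 c1 c2 c3 u : ℝ) : ℝ :=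
  (c0 + c1 * (u - u0) + c2 * (u - u0) ^ 2 + c3 * (u - u0) ^ 3) * Real.exp (-(u - u0) ^ 2 / (2 * σ ^ 2))

private theorem E_deriv {σ : ℝ} (hσ : 0 < σ) (u0 u : ℝ) :
    HasDerivAt (fun u => Real.exp (-(u - u0) ^ 2 / (2 * σ ^ 2)))
      (-((u - u0) / σ ^ 2) * Real.exp (-(u - u0) ^ 2 / (2 * σ ^ 2))) u := by
  have h1 : HasDerivAt (fun u : ℝ => -(u - u0) ^ 2 / (2 * σ ^ 2)) (-((u - u0) / σ ^ 2)) u := by
    have h2 : HasDerivAt (fun u : ℝ => u - u0) 1 u := (hasDerivAt_id u).sub_const u0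
    have h3 := ((h2.pow 2).neg).div_const (2 * σ ^ 2)
    refine h3.congr_deriv ?_
    field_simp
    push_cast
    ring
  have h2 := h1.exp
  refine h2.congr_deriv ?_
  ring

private theorem HH_deriv {σ : ℝ} (hσ : 0 < σ) (u0 c0 c1 c2 u : ℝ) :
    HasDerivAt (HH σ u0 c0 c1 c2 0)
      (HH σ u0 c1 (2 * c2 - c0 / σ ^ 2) (-c1 / σ ^ 2) (-c2 / σ ^ 2) u) u := by
  have h2 : HasDerivAt (fun u : ℝ => u - u0) 1 u := (hasDerivAt_id u).sub_const u0
  have h3 : HasDerivAt (fun u : ℝ => c0 + c1 * (u - u0) + c2 * (u - u0) ^ 2 + 0 * (u - u0) ^ 3)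
      (c1 + 2 * c2 * (u - u0)) u := by
    have h4 := (((h2.const_mul c1).const_add c0).add ((h2.pow 2).const_mul c2)).add
      ((h2.pow 3).const_mul 0)
    refine h4.congr_deriv ?_
    simp
    ring
  have h4 := h3.mul (E_deriv hσ u0 u)
  unfold HH
  refine h4.congr_deriv ?_
  generalize Real.exp (-(u - u0) ^ 2 / (2 * σ ^ 2)) = E
  field_simp
  ring

/-- the weight in `osc` -/
private noncomputable def GW (σ u0 c0 c1 c2 c3 u : ℝ) : ℝ := Real.exp (-2 * u) * HH σ u0 c0 c1 c2 c3 u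

private noncomputable def GW' (σ u0 c0 c1 c2 c3 u : ℝ) : ℝ :=
  Real.exp (-2 * u) * ((-2 - (u - u0) / σ ^ 2) *
    ((c0 + c1 * (u - u0) + c2 * (u - u0) ^ 2 + c3 * (u - u0) ^ 3) * Real.exp (-(u - u0) ^ 2 / (2 * σ ^ 2))) +
    (c1 + 2 * c2 * (u - u0) + 3 * c3 * (u - u0) ^ 2) * Real.exp (-(u - u0) ^ 2 / (2 * σ ^ 2)))

private theorem GW_deriv {σ : ℝ} (hσ : 0 < σ) (u0 c0 c1 c2 c3 u : ℝ) :
    HasDerivAt (GW σ u0 c0 c1 c2 c3) (GW' σ u0 c0 c1 c2 c3 u) u := by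
  have h2 : HasDerivAt (fun u : ℝ => u - u0) 1 u := (hasDerivAt_id u).sub_const u0
  have h3 : HasDerivAt (fun u : ℝ => c0 + c1 * (u - u0) + c2 * (u - u0) ^ 2 + c3 * (u - u0) ^ 3)
      (c1 + 2 * c2 * (u - u0) + 3 * c3 * (u - u0) ^ 2) u := by
    have h4 := (((h2.const_mul c1).const_add c0).add ((h2.pow 2).const_mul c2)).add
      ((h2.pow 3).const_mul c3)
    refine h4.congr_deriv ?_
    simp
    ring
  have h4 := h3.mul (E_deriv hσ u0 u)
  have h5 : HasDerivAt (fun u : ℝ => Real.exp (-2 * u)) (Real.exp (-2 * u) * (-2)) u := by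
    have h6 : HasDerivAt (fun u : ℝ => -2 * u) (-2) u := by
      have := (hasDerivAt_id u).const_mul (-2 : ℝ)
      simpa using this
    exact h6.exp
  have h6 := h5.mul h4
  unfold GW HH
  refine h6.congr_deriv ?_
  unfold GW'
  simp only [Pi.mul_apply]
  generalize Real.exp (-(u - u0) ^ 2 / (2 * σ ^ 2)) = E
  ring

private theorem HH_cont (σ u0 c0 c1 c2 c3 : ℝ) : Continuous (HH σ u0 c0 c1 c2 c3) := by
  unfold HH
  fun_prop

private theorem GW_cont (σ u0 c0 c1 c2 c3 : ℝ) : Continuous (GW σ u0 c0 c1 c2 c3) := by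
  unfold GW HH
  fun_prop

private theorem GW'_cont (σ u0 c0 c1 c2 c3 : ℝ) : Continuous (GW' σ u0 c0 c1 c2 c3) := by
  unfold GW'
  fun_prop

/-- the basic inequality -/
private theorem pw_bd {σ : ℝ} (hσ : 0 < σ) (v : ℝ) (k : ℕ) (hk : k ≤ 4) :
    |v| ^ k * (Real.exp (2 * |v|) * Real.exp (-v ^ 2 / (2 * σ ^ 2))) ≤
      24 * Real.exp (9 * σ ^ 2) * Real.exp (-v ^ 2 / (2 * (Real.sqrt 2 * σ) ^ 2)) := by
  have h1 : |v| ^ k ≤ 24 * Real.exp |v| := by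
    have h2 := Real.pow_div_factorial_le_exp |v| (abs_nonneg v) k
    have h3 : (0 : ℝ) < (k.factorial : ℝ) := by exact_mod_cast Nat.factorial_pos k
    rw [div_le_iff₀ h3] at h2
    refine h2.trans ?_
    rw [mul_comm]
    refine mul_le_mul_of_nonneg_right ?_ (Real.exp_pos _).le
    have h4 : k.factorial ≤ (4 : ℕ).factorial := Nat.factorial_le hk
    have h5 : (4 : ℕ).factorial = 24 := rfl
    rw [h5] at h4
    exact_mod_cast h4
  have h2 : Real.exp |v| * (Real.exp (2 * |v|) * Real.exp (-v ^ 2 / (2 * σ ^ 2))) ≤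
      Real.exp (9 * σ ^ 2) * Real.exp (-v ^ 2 / (2 * (Real.sqrt 2 * σ) ^ 2)) := by
    rw [← Real.exp_add, ← Real.exp_add, ← Real.exp_add]
    apply Real.exp_le_exp.mpr
    rw [mul_pow, Real.sq_sqrt (by norm_num : (0 : ℝ) ≤ 2)]
    have h3 : 0 ≤ (|v| / (2 * σ) - 3 * σ) ^ 2 := sq_nonneg _
    have h4 : (|v| / (2 * σ) - 3 * σ) ^ 2 = v ^ 2 / (4 * σ ^ 2) - 3 * |v| + 9 * σ ^ 2 := by
      rw [← sq_abs v]
      field_simp
      ring
    rw [h4] at h3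
    have h5 : -v ^ 2 / (2 * σ ^ 2) = -(v ^ 2 / (4 * σ ^ 2)) + -v ^ 2 / (2 * (2 * σ ^ 2)) := by
      field_simp
      ring
    rw [h5]
    linarith
  calc |v| ^ k * (Real.exp (2 * |v|) * Real.exp (-v ^ 2 / (2 * σ ^ 2)))
      ≤ 24 * Real.exp |v| * (Real.exp (2 * |v|) * Real.exp (-v ^ 2 / (2 * σ ^ 2))) :=
        mul_le_mul_of_nonneg_right h1 (by positivity)
    _ = 24 * (Real.exp |v| * (Real.exp (2 * |v|) * Real.exp (-v ^ 2 / (2 * σ ^ 2)))) := by ring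
    _ ≤ 24 * (Real.exp (9 * σ ^ 2) * Real.exp (-v ^ 2 / (2 * (Real.sqrt 2 * σ) ^ 2))) :=
        mul_le_mul_of_nonneg_left h2 (by norm_num)
    _ = _ := by ring

private theorem poly_bd {M c0 c1 c2 c3 : ℝ} (h0 : |c0| ≤ M) (h1 : |c1| ≤ M) (h2 : |c2| ≤ M) (h3 : |c3| ≤ M)
    (v : ℝ) : |c0 + c1 * v + c2 * v ^ 2 + c3 * v ^ 3| ≤ M * (|v| ^ 0 + |v| ^ 1 + |v| ^ 2 + |v| ^ 3) := by
  calc |c0 + c1 * v + c2 * v ^ 2 + c3 * v ^ 3| ≤ |c0| + |c1 * v| + |c2 * v ^ 2| + |c3 * v ^ 3| := by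
        refine (abs_add_le _ _).trans (add_le_add_left ((abs_add_le _ _).trans (add_le_add_left (abs_add_le _ _) _)) _)
    _ = |c0| + |c1| * |v| + |c2| * |v| ^ 2 + |c3| * |v| ^ 3 := by
        rw [abs_mul, abs_mul, abs_mul, abs_pow, abs_pow]
    _ ≤ M + M * |v| + M * |v| ^ 2 + M * |v| ^ 3 := by
        have := abs_nonneg v
        gcongr
    _ = _ := by ring

private theorem HH_bd {σ : ℝ} (hσ : 0 < σ) : ∃ C : ℝ, 1 ≤ C ∧ ∀ u0 M c0 c1 c2 c3 : ℝ, |c0| ≤ M → |c1| ≤ M →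
    |c2| ≤ M → |c3| ≤ M → ∀ u, |HH σ u0 c0 c1 c2 c3 u| ≤
      C * M * Real.exp (-(u - u0) ^ 2 / (2 * (Real.sqrt 2 * σ) ^ 2)) := by
  refine ⟨4 * (24 * Real.exp (9 * σ ^ 2)), ?_, ?_⟩
  · have := Real.one_le_exp (by positivity : (0 : ℝ) ≤ 9 * σ ^ 2)
    linarith
  intro u0 M c0 c1 c2 c3 h0 h1 h2 h3 u
  have hM : 0 ≤ M := (abs_nonneg _).trans h0
  set v := u - u0 with hv
  set G := Real.exp (-v ^ 2 / (2 * (Real.sqrt 2 * σ) ^ 2)) with hG
  set E := Real.exp (-v ^ 2 / (2 * σ ^ 2)) with hE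
  set C0 := 24 * Real.exp (9 * σ ^ 2) with hC0
  have hx : ∀ k : ℕ, k ≤ 4 → |v| ^ k * E ≤ C0 * G := by
    intro k hk
    refine le_trans ?_ (pw_bd hσ v k hk)
    refine mul_le_mul_of_nonneg_left ?_ (by positivity)
    have : 1 ≤ Real.exp (2 * |v|) := Real.one_le_exp (by positivity)
    have hE0 : 0 ≤ E := (Real.exp_pos _).le
    nlinarith
  unfold HH
  rw [abs_mul, abs_of_pos (Real.exp_pos _)]
  calc |c0 + c1 * (u - u0) + c2 * (u - u0) ^ 2 + c3 * (u - u0) ^ 3| * E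
      ≤ (M * (|v| ^ 0 + |v| ^ 1 + |v| ^ 2 + |v| ^ 3)) * E :=
        mul_le_mul_of_nonneg_right (poly_bd h0 h1 h2 h3 v) (Real.exp_pos _).le
    _ = M * (|v| ^ 0 * E + |v| ^ 1 * E + |v| ^ 2 * E + |v| ^ 3 * E) := by ring
    _ ≤ M * (C0 * G + C0 * G + C0 * G + C0 * G) := by
        refine mul_le_mul_of_nonneg_left ?_ hM
        have := hx 0 (by norm_num)
        have := hx 1 (by norm_num)
        have := hx 2 (by norm_num)
        have := hx 3 (by norm_num)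
        linarith
    _ = _ := by ring

private theorem GW_bd {σ : ℝ} (hσ : 0 < σ) : ∃ C : ℝ, 1 ≤ C ∧ ∀ u0 M c0 c1 c2 c3 : ℝ, |c0| ≤ M → |c1| ≤ M →
    |c2| ≤ M → |c3| ≤ M → ∀ u, |GW σ u0 c0 c1 c2 c3 u| ≤
      C * M * Real.exp (-2 * u0) * Real.exp (-(u - u0) ^ 2 / (2 * (Real.sqrt 2 * σ) ^ 2)) ∧
      |GW' σ u0 c0 c1 c2 c3 u| ≤
      C * M * Real.exp (-2 * u0) * Real.exp (-(u - u0) ^ 2 / (2 * (Real.sqrt 2 * σ) ^ 2)) := by
  refine ⟨(24 * Real.exp (9 * σ ^ 2)) * (14 + 4 / σ ^ 2), ?_, ?_⟩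
  · have h1 := Real.one_le_exp (by positivity : (0 : ℝ) ≤ 9 * σ ^ 2)
    have h2 : 0 ≤ 4 / σ ^ 2 := by positivity
    nlinarith
  intro u0 M c0 c1 c2 c3 h0 h1 h2 h3 u
  have hM : 0 ≤ M := (abs_nonneg _).trans h0
  have hexp : Real.exp (-2 * u) = Real.exp (-2 * u0) * Real.exp (-2 * (u - u0)) := by
    rw [← Real.exp_add]; congr 1; ring
  set v := u - u0 with hv
  set G := Real.exp (-v ^ 2 / (2 * (Real.sqrt 2 * σ) ^ 2)) with hG
  set E := Real.exp (-v ^ 2 / (2 * σ ^ 2)) with hE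
  set C0 := 24 * Real.exp (9 * σ ^ 2) with hC0
  have hE0 : 0 < E := Real.exp_pos _
  have hG0 : 0 < G := Real.exp_pos _
  have hC00 : 0 < C0 := by positivity
  have hx : ∀ k : ℕ, k ≤ 4 → |v| ^ k * (Real.exp (-2 * v) * E) ≤ C0 * G := by
    intro k hk
    refine le_trans ?_ (pw_bd hσ v k hk)
    refine mul_le_mul_of_nonneg_left ?_ (by positivity)
    refine mul_le_mul_of_nonneg_right ?_ hE0.le
    apply Real.exp_le_exp.mpr
    have := neg_abs_le v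
    linarith
  have x0 := hx 0 (by norm_num)
  have x1 := hx 1 (by norm_num)
  have x2 := hx 2 (by norm_num)
  have x3 := hx 3 (by norm_num)
  have x4 := hx 4 (by norm_num)
  have hq := poly_bd h0 h1 h2 h3 v
  have hσ2 : 0 ≤ 1 / σ ^ 2 := by positivity
  constructor
  · unfold GW HH
    rw [hexp, abs_mul, abs_of_pos (by positivity), abs_mul, abs_of_pos (Real.exp_pos _)]
    rw [← hv, ← hE]
    calc Real.exp (-2 * u0) * Real.exp (-2 * v) * (|c0 + c1 * v + c2 * v ^ 2 + c3 * v ^ 3| * E)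
        ≤ Real.exp (-2 * u0) * Real.exp (-2 * v) * ((M * (|v| ^ 0 + |v| ^ 1 + |v| ^ 2 + |v| ^ 3)) * E) := by
          refine mul_le_mul_of_nonneg_left ?_ (by positivity)
          exact mul_le_mul_of_nonneg_right hq hE0.le
      _ = Real.exp (-2 * u0) * (M * (|v| ^ 0 * (Real.exp (-2 * v) * E) + |v| ^ 1 * (Real.exp (-2 * v) * E) +
            |v| ^ 2 * (Real.exp (-2 * v) * E) + |v| ^ 3 * (Real.exp (-2 * v) * E))) := by ring
      _ ≤ Real.exp (-2 * u0) * (M * (C0 * G * (14 + 4 / σ ^ 2))) := by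
          refine mul_le_mul_of_nonneg_left (mul_le_mul_of_nonneg_left ?_ hM) (Real.exp_pos _).le
          have : 0 ≤ C0 * G * (4 / σ ^ 2) := by positivity
          nlinarith [mul_pos hC00 hG0]
      _ = _ := by ring
  · unfold GW'
    rw [hexp, abs_mul, abs_of_pos (by positivity)]
    rw [← hv, ← hE]
    have hA : |(-2 - v / σ ^ 2) * ((c0 + c1 * v + c2 * v ^ 2 + c3 * v ^ 3) * E) +
        (c1 + 2 * c2 * v + 3 * c3 * v ^ 2) * E| ≤
        (2 + |v| / σ ^ 2) * ((M * (|v| ^ 0 + |v| ^ 1 + |v| ^ 2 + |v| ^ 3)) * E) +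
          (M * (|v| ^ 0 + 2 * |v| ^ 1 + 3 * |v| ^ 2)) * E := by
      refine (abs_add_le _ _).trans (add_le_add ?_ ?_)
      · rw [abs_mul]
        refine mul_le_mul ?_ ?_ (abs_nonneg _) (by positivity)
        · refine (abs_sub _ _).trans (le_of_eq ?_)
          rw [abs_div, abs_of_pos (by positivity : 0 < σ ^ 2)]
          norm_num
        · rw [abs_mul, abs_of_pos hE0]
          exact mul_le_mul_of_nonneg_right hq hE0.le
      · rw [abs_mul, abs_of_pos hE0]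
        refine mul_le_mul_of_nonneg_right ?_ hE0.le
        calc |c1 + 2 * c2 * v + 3 * c3 * v ^ 2| ≤ |c1| + |2 * c2 * v| + |3 * c3 * v ^ 2| :=
              (abs_add_le _ _).trans (add_le_add_left (abs_add_le _ _) _)
          _ = |c1| + 2 * |c2| * |v| + 3 * |c3| * |v| ^ 2 := by
              rw [abs_mul, abs_mul, abs_mul, abs_mul, abs_pow]
              norm_num
          _ ≤ M + 2 * M * |v| + 3 * M * |v| ^ 2 := by
              have := abs_nonneg v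
              gcongr
          _ = _ := by ring
    calc Real.exp (-2 * u0) * Real.exp (-2 * v) * |(-2 - v / σ ^ 2) * ((c0 + c1 * v + c2 * v ^ 2 + c3 * v ^ 3) * E) +
        (c1 + 2 * c2 * v + 3 * c3 * v ^ 2) * E|
        ≤ Real.exp (-2 * u0) * Real.exp (-2 * v) *
          ((2 + |v| / σ ^ 2) * ((M * (|v| ^ 0 + |v| ^ 1 + |v| ^ 2 + |v| ^ 3)) * E) +
          (M * (|v| ^ 0 + 2 * |v| ^ 1 + 3 * |v| ^ 2)) * E) := mul_le_mul_of_nonneg_left hA (by positivity)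
      _ = Real.exp (-2 * u0) * (M * (3 * (|v| ^ 0 * (Real.exp (-2 * v) * E)) + 4 * (|v| ^ 1 * (Real.exp (-2 * v) * E)) +
            5 * (|v| ^ 2 * (Real.exp (-2 * v) * E)) + 2 * (|v| ^ 3 * (Real.exp (-2 * v) * E)) +
            (1 / σ ^ 2) * (|v| ^ 1 * (Real.exp (-2 * v) * E) + |v| ^ 2 * (Real.exp (-2 * v) * E) +
              |v| ^ 3 * (Real.exp (-2 * v) * E) + |v| ^ 4 * (Real.exp (-2 * v) * E)))) := by ring
      _ ≤ Real.exp (-2 * u0) * (M * (3 * (C0 * G) + 4 * (C0 * G) + 5 * (C0 * G) + 2 * (C0 * G) +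
            (1 / σ ^ 2) * (C0 * G + C0 * G + C0 * G + C0 * G))) := by
          refine mul_le_mul_of_nonneg_left (mul_le_mul_of_nonneg_left ?_ hM) (Real.exp_pos _).le
          refine add_le_add (by linarith) (mul_le_mul_of_nonneg_left (by linarith) hσ2)
      _ = _ := by ring

/-- continuous integrable functions with sup and integral at most `X` -/
private def Nice (X : ℝ) (g : ℝ → ℝ) : Prop :=
  Continuous g ∧ Integrable g ∧ (∀ y, |g y| ≤ X) ∧ ∫ y, |g y| ≤ X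

private theorem nice_shift {X : ℝ} {g : ℝ → ℝ} (h : Nice X g) (t : ℝ) : Nice X (fun z => g (z + t)) := by
  refine ⟨h.1.comp (by fun_prop), h.2.1.comp_add_right t, fun y => h.2.2.1 _, ?_⟩
  rw [integral_add_right_eq_self (fun y => |g y|) t]
  exact h.2.2.2

private theorem nice_mono {X X' : ℝ} {g : ℝ → ℝ} (h : Nice X g) (hX : X ≤ X') : Nice X' g :=
  ⟨h.1, h.2.1, fun y => (h.2.2.1 y).trans hX, h.2.2.2.trans hX⟩

/-- `osc` with constants -/
private theorem oscB {s a1 b1 a2 b2 : ℝ} (hs : 0 < s) (ha1 : a1 ≠ 0) (ha2 : a2 ≠ 0) : ∃ C : ℝ, 1 ≤ C ∧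
    ∀ (u0 N Mw BK B1 B2 : ℝ) (ω ω' K g1 g2 : ℝ → ℝ), 0 < Mw → 0 < BK → 0 < B1 → 0 < B2 →
    1 ≤ |N| * Real.exp u0 →
    (∀ t, HasDerivAt ω (ω' t) t) → Continuous ω' →
    (∀ t, |ω t| ≤ Mw * Real.exp (-(t - u0) ^ 2 / (2 * s ^ 2))) →
    (∀ t, |ω' t| ≤ Mw * Real.exp (-(t - u0) ^ 2 / (2 * s ^ 2))) →
    AdmK BK K → Nice B1 g1 → Nice B2 g2 →
    ‖∫ t : ℝ, ((ω t * ∫ y, K y * (g1 (a1 * y + b1 * t) * g2 (a2 * y + b2 * t)) : ℝ) : ℂ) *
      Complex.exp (2 * Real.pi * Complex.I * ((N * Real.exp t : ℝ) : ℂ))‖ ≤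
      C * (Mw * BK * B1 * B2) * (|N| * Real.exp u0) ^ (-(1 / 8) : ℝ) := by
  obtain ⟨C, hC, h⟩ := osc (b1 := b1) (b2 := b2) hs ha1 ha2
  refine ⟨C, hC, ?_⟩
  intro u0 N Mw BK B1 B2 ω ω' K g1 g2 hM hBK hB1 hB2 hN hω hω' h1 h2 hK hg1 hg2
  have key := h u0 N (fun t => ω t / Mw) (fun t => ω' t / Mw) (fun y => K y / BK) (fun y => g1 y / B1)
    (fun y => g2 y / B2) hN (fun t => (hω t).div_const Mw) (hω'.div_const Mw)
    (fun t => by
      rw [abs_div, abs_of_pos hM, div_le_iff₀ hM, mul_comm]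
      exact h1 t)
    (fun t => by
      rw [abs_div, abs_of_pos hM, div_le_iff₀ hM, mul_comm]
      exact h2 t)
    (hK.1.div_const BK) (hK.2.2.1.div_const BK)
    (fun y => by
      rw [abs_div, abs_of_pos hBK, div_le_one hBK]
      exact hK.2.1 y)
    (by
      simp only [abs_div, abs_of_pos hBK]
      rw [integral_div, div_le_one hBK]
      exact hK.2.2.2)
    (hg1.1.measurable.div_const B1) (hg1.2.1.div_const B1)
    (fun y => by
      rw [abs_div, abs_of_pos hB1, div_le_one hB1]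
      exact hg1.2.2.1 y)
    (by
      simp only [abs_div, abs_of_pos hB1]
      rw [integral_div, div_le_one hB1]
      exact hg1.2.2.2)
    (hg2.1.measurable.div_const B2) (hg2.2.1.div_const B2)
    (fun y => by
      rw [abs_div, abs_of_pos hB2, div_le_one hB2]
      exact hg2.2.2.1 y)
    (by
      simp only [abs_div, abs_of_pos hB2]
      rw [integral_div, div_le_one hB2]
      exact hg2.2.2.2)
  have hP : 0 < Mw * BK * B1 * B2 := by positivity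
  have e : (∫ t : ℝ, ((ω t * ∫ y, K y * (g1 (a1 * y + b1 * t) * g2 (a2 * y + b2 * t)) : ℝ) : ℂ) *
      Complex.exp (2 * Real.pi * Complex.I * ((N * Real.exp t : ℝ) : ℂ))) =
      ((Mw * BK * B1 * B2 : ℝ) : ℂ) * ∫ t : ℝ, ((ω t / Mw * ∫ y, K y / BK * (g1 (a1 * y + b1 * t) / B1 *
        (g2 (a2 * y + b2 * t) / B2)) : ℝ) : ℂ) *
      Complex.exp (2 * Real.pi * Complex.I * ((N * Real.exp t : ℝ) : ℂ)) := by
    rw [← integral_const_mul]
    refine integral_congr_ae (Filter.Eventually.of_forall fun t => ?_)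
    simp only
    have e1 : (∫ y, K y / BK * (g1 (a1 * y + b1 * t) / B1 * (g2 (a2 * y + b2 * t) / B2))) =
        (BK * B1 * B2)⁻¹ * ∫ y, K y * (g1 (a1 * y + b1 * t) * g2 (a2 * y + b2 * t)) := by
      rw [← integral_const_mul]
      refine integral_congr_ae (Filter.Eventually.of_forall fun y => ?_)
      simp only
      field_simp
    rw [e1, ← mul_assoc, ← Complex.ofReal_mul]
    generalize (∫ y, K y * (g1 (a1 * y + b1 * t) * g2 (a2 * y + b2 * t))) = I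
    congr 2
    field_simp
  rw [e, norm_mul, Complex.norm_real, Real.norm_eq_abs, abs_of_pos hP]
  calc Mw * BK * B1 * B2 * _ ≤ Mw * BK * B1 * B2 * (C * (|N| * Real.exp u0) ^ (-(1 / 8) : ℝ)) :=
        mul_le_mul_of_nonneg_left key hP.le
    _ = _ := by ring

/-- integrable with the oscillating factor, integral at most `R` -/
private def Gd (k : ℤ) (R : ℝ) (F : ℝ → ℝ) : Prop :=
  Integrable (fun t : ℝ => ((F t : ℝ) : ℂ) * Complex.exp (2 * Real.pi * Complex.I * (((k : ℝ) * Real.exp t : ℝ) : ℂ))) ∧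
  ‖∫ t : ℝ, ((F t : ℝ) : ℂ) * Complex.exp (2 * Real.pi * Complex.I * (((k : ℝ) * Real.exp t : ℝ) : ℂ))‖ ≤ R

private theorem Gd_add {k : ℤ} {R1 R2 : ℝ} {F1 F2 : ℝ → ℝ} (h1 : Gd k R1 F1) (h2 : Gd k R2 F2) :
    Gd k (R1 + R2) (fun t => F1 t + F2 t) := by
  have e : (fun t : ℝ => ((F1 t + F2 t : ℝ) : ℂ) *
      Complex.exp (2 * Real.pi * Complex.I * (((k : ℝ) * Real.exp t : ℝ) : ℂ))) =
      fun t => ((F1 t : ℝ) : ℂ) * Complex.exp (2 * Real.pi * Complex.I * (((k : ℝ) * Real.exp t : ℝ) : ℂ)) +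
        ((F2 t : ℝ) : ℂ) * Complex.exp (2 * Real.pi * Complex.I * (((k : ℝ) * Real.exp t : ℝ) : ℂ)) := by
    funext t
    rw [Complex.ofReal_add, add_mul]
  unfold Gd
  rw [e]
  refine ⟨h1.1.add h2.1, ?_⟩
  rw [integral_add h1.1 h2.1]
  exact (norm_add_le _ _).trans (add_le_add h1.2 h2.2)

private theorem Gd_smul {k : ℤ} {R : ℝ} {F : ℝ → ℝ} (h : Gd k R F) (a : ℝ) :
    Gd k (|a| * R) (fun t => a * F t) := by
  have e : (fun t : ℝ => ((a * F t : ℝ) : ℂ) *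
      Complex.exp (2 * Real.pi * Complex.I * (((k : ℝ) * Real.exp t : ℝ) : ℂ))) =
      fun t => (a : ℂ) * (((F t : ℝ) : ℂ) *
        Complex.exp (2 * Real.pi * Complex.I * (((k : ℝ) * Real.exp t : ℝ) : ℂ))) := by
    funext t
    rw [Complex.ofReal_mul, mul_assoc]
  unfold Gd
  rw [e]
  refine ⟨h.1.const_mul _, ?_⟩
  rw [integral_const_mul, norm_mul, Complex.norm_real, Real.norm_eq_abs]
  exact mul_le_mul_of_nonneg_left h.2 (abs_nonneg _)

private theorem norm_osc (x : ℝ) : ‖Complex.exp (2 * Real.pi * Complex.I * (x : ℂ))‖ = 1 := by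
  have e : 2 * (Real.pi : ℂ) * Complex.I * (x : ℂ) = ((2 * Real.pi * x : ℝ) : ℂ) * Complex.I := by
    push_cast; ring
  rw [e, Complex.norm_exp_ofReal_mul_I]

private theorem Dg_bd {X1 X2 B : ℝ} {g1 g2 K : ℝ → ℝ} (h1 : ∀ y, |g1 y| ≤ X1) (h2 : ∀ y, |g2 y| ≤ X2) (hK : AdmK B K)
    (a1 b1 a2 b2 x : ℝ) : |Dg g1 g2 K a1 b1 a2 b2 x| ≤ B * (X1 * X2) := by
  have hX1 : 0 ≤ X1 := (abs_nonneg _).trans (h1 0)
  have hX2 : 0 ≤ X2 := (abs_nonneg _).trans (h2 0)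
  unfold Dg
  have h3 := norm_integral_le_of_norm_le (f := fun y => K y * (g1 (a1 * y + b1 * x) * g2 (a2 * y + b2 * x)))
    (hK.2.2.1.abs.mul_const (X1 * X2)) (Filter.Eventually.of_forall fun y => by
      rw [norm_mul, norm_mul, Real.norm_eq_abs, Real.norm_eq_abs, Real.norm_eq_abs]
      exact mul_le_mul_of_nonneg_left (mul_le_mul (h1 _) (h2 _) (abs_nonneg _) hX1) (abs_nonneg _))
  rw [Real.norm_eq_abs] at h3
  refine h3.trans ?_
  rw [integral_mul_const]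
  exact mul_le_mul_of_nonneg_right hK.2.2.2 (by positivity)

private theorem Dg_shift (g1 g2 K : ℝ → ℝ) (a1 b1 a2 b2 l u : ℝ) :
    Dg g1 g2 K a1 b1 a2 b2 (l + u) =
      ∫ y, K y * ((fun z => g1 (z + b1 * l)) (a1 * y + b1 * u) * (fun z => g2 (z + b2 * l)) (a2 * y + b2 * u)) := by
  unfold Dg
  refine integral_congr_ae (Filter.Eventually.of_forall fun y => ?_)
  simp only
  have e1 : a1 * y + b1 * (l + u) = a1 * y + b1 * u + b1 * l := by ring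
  have e2 : a2 * y + b2 * (l + u) = a2 * y + b2 * u + b2 * l := by ring
  rw [e1, e2]

/-- one term -/
private theorem term_bd {σ a1 b1 a2 b2 : ℝ} (hσ : 0 < σ) (ha1 : a1 ≠ 0) (ha2 : a2 ≠ 0) : ∃ C : ℝ, 1 ≤ C ∧
    ∀ (k : ℤ) (u0 l M BK X1 X2 c0 c1 c2 c3 : ℝ) (K g1 g2 : ℝ → ℝ), k ≠ 0 → 0 ≤ u0 → 0 < M → 0 < BK → 0 < X1 → 0 < X2 →
    |c0| ≤ M → |c1| ≤ M → |c2| ≤ M → |c3| ≤ M → AdmK BK K → Nice X1 g1 → Nice X2 g2 →
    Gd k (C * (M * BK * (X1 * X2)) * Real.exp (-(17 / 8) * u0))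
      (fun u => GW σ u0 c0 c1 c2 c3 u * Dg g1 g2 K a1 b1 a2 b2 (l + u)) := by
  have hs : 0 < Real.sqrt 2 * σ := by positivity
  obtain ⟨C1, hC1, h1⟩ := oscB (b1 := b1) (b2 := b2) hs ha1 ha2
  obtain ⟨C2, hC2, h2⟩ := GW_bd hσ
  refine ⟨C1 * C2, by nlinarith, ?_⟩
  intro k u0 l M BK X1 X2 c0 c1 c2 c3 K g1 g2 hk hu0 hM hBK hX1 hX2 hc0 hc1 hc2 hc3 hK hg1 hg2
  have hG := h2 u0 M c0 c1 c2 c3 hc0 hc1 hc2 hc3
  have hk1 : (1 : ℝ) ≤ |(k : ℝ)| := by
    have : (1 : ℤ) ≤ |k| := Int.one_le_abs hk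
    exact_mod_cast this
  have hN : 1 ≤ |(k : ℝ)| * Real.exp u0 := by
    have := Real.one_le_exp hu0
    nlinarith
  constructor
  · -- integrability
    have hI := (WW_int hs u0).1
    have hc : Continuous (fun u : ℝ => Dg g1 g2 K a1 b1 a2 b2 (l + u)) := by
      have := dg_cont (M := max X1 X2) hK.2.2.1 hg1.1 hg2.1 (fun y => (hg1.2.2.1 y).trans (le_max_left _ _))
        (fun y => (hg2.2.2.1 y).trans (le_max_right _ _)) a1 b1 a2 b2
      exact this.comp (by fun_prop)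
    refine Integrable.mono' (hI.const_mul (C2 * M * Real.exp (-2 * u0) * (BK * (X1 * X2)))) ?_ ?_
    · refine Continuous.aestronglyMeasurable ?_
      refine Continuous.mul ?_ (by fun_prop)
      exact Complex.continuous_ofReal.comp ((GW_cont σ u0 c0 c1 c2 c3).mul hc)
    · refine Filter.Eventually.of_forall fun u => ?_
      rw [norm_mul, norm_osc, mul_one, Complex.norm_real, Real.norm_eq_abs, abs_mul]
      have hD := Dg_bd hg1.2.2.1 hg2.2.2.1 hK a1 b1 a2 b2 (l + u)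
      calc |GW σ u0 c0 c1 c2 c3 u| * |Dg g1 g2 K a1 b1 a2 b2 (l + u)|
          ≤ (C2 * M * Real.exp (-2 * u0) * Real.exp (-(u - u0) ^ 2 / (2 * (Real.sqrt 2 * σ) ^ 2))) *
            (BK * (X1 * X2)) := mul_le_mul (hG u).1 hD (abs_nonneg _) (by positivity)
        _ = _ := by unfold WW; ring
  · have key := h1 u0 k (C2 * M * Real.exp (-2 * u0)) BK X1 X2 (GW σ u0 c0 c1 c2 c3) (GW' σ u0 c0 c1 c2 c3) K
      (fun z => g1 (z + b1 * l)) (fun z => g2 (z + b2 * l)) (by positivity) hBK hX1 hX2 hN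
      (fun t => GW_deriv hσ u0 c0 c1 c2 c3 t) (GW'_cont σ u0 c0 c1 c2 c3) (fun t => (hG t).1) (fun t => (hG t).2)
      hK (nice_shift hg1 _) (nice_shift hg2 _)
    have e : (fun t : ℝ => ((GW σ u0 c0 c1 c2 c3 t * Dg g1 g2 K a1 b1 a2 b2 (l + t) : ℝ) : ℂ) *
        Complex.exp (2 * Real.pi * Complex.I * (((k : ℝ) * Real.exp t : ℝ) : ℂ))) =
        fun t : ℝ => ((GW σ u0 c0 c1 c2 c3 t * ∫ y, K y * ((fun z => g1 (z + b1 * l)) (a1 * y + b1 * t) *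
          (fun z => g2 (z + b2 * l)) (a2 * y + b2 * t)) : ℝ) : ℂ) *
        Complex.exp (2 * Real.pi * Complex.I * (((k : ℝ) * Real.exp t : ℝ) : ℂ)) := by
      funext t
      rw [Dg_shift]
    rw [e]
    refine key.trans ?_
    have h3 : (|(k : ℝ)| * Real.exp u0) ^ (-(1 / 8) : ℝ) ≤ Real.exp (-(1 / 8) * u0) := by
      have h4 : Real.exp u0 ≤ |(k : ℝ)| * Real.exp u0 := by
        have := Real.exp_pos u0
        nlinarith
      calc (|(k : ℝ)| * Real.exp u0) ^ (-(1 / 8) : ℝ) ≤ (Real.exp u0) ^ (-(1 / 8) : ℝ) :=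
            Real.rpow_le_rpow_of_nonpos (Real.exp_pos _) h4 (by norm_num)
        _ = _ := by rw [← Real.exp_mul]; congr 1; ring
    calc C1 * (C2 * M * Real.exp (-2 * u0) * BK * X1 * X2) * (|(k : ℝ)| * Real.exp u0) ^ (-(1 / 8) : ℝ)
        ≤ C1 * (C2 * M * Real.exp (-2 * u0) * BK * X1 * X2) * Real.exp (-(1 / 8) * u0) :=
          mul_le_mul_of_nonneg_left h3 (by positivity)
      _ = C1 * C2 * (M * BK * (X1 * X2)) * (Real.exp (-2 * u0) * Real.exp (-(1 / 8) * u0)) := by ring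
      _ = _ := by
          rw [← Real.exp_add]
          congr 2
          ring

/-- the functions `gsm`, `gsm1`, `gsm2` -/
private theorem nice_gsm : ∃ C : ℝ, 1 ≤ C ∧ ∀ (δ B : ℝ) (μ : Measure ℝ), 0 < δ → δ ≤ 1 → 1 ≤ B → Adm δ B μ →
    Nice (C * B) (gsm δ μ) ∧ Nice (C * B / δ) (gsm1 δ μ) ∧ Nice (C * B / δ ^ 2) (gsm2 δ μ) := by
  obtain ⟨C, hC, h⟩ := gsm_deriv_bd
  refine ⟨C + Real.sqrt (2 * Real.pi), by have := Real.sqrt_nonneg (2 * Real.pi); linarith, ?_⟩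
  intro δ B μ hδ hδ1 hB hμ
  have i1 := hμ.1
  obtain ⟨d1, d2, d3, d4⟩ := gsm_deriv hδ μ
  obtain ⟨e1, e2, e3, e4, e5, e6⟩ := h δ B μ hδ hμ
  obtain ⟨f1, f2⟩ := adm_int hδ hμ
  have hp := Real.sqrt_nonneg (2 * Real.pi)
  have hle : C * B ≤ (C + Real.sqrt (2 * Real.pi)) * B := by nlinarith
  refine ⟨⟨gsm_cont δ μ, f1, fun y => ?_, ?_⟩, nice_mono ⟨d3, e3, e1, e4⟩ ?_, nice_mono ⟨d4, e5, e2, e6⟩ ?_⟩
  · rw [abs_of_nonneg (gsm_nonneg _ _ _)]
    refine (hμ.2.1 y).trans ?_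
    nlinarith
  · simp only [abs_of_nonneg (gsm_nonneg _ _ _)]
    refine f2.trans ?_
    nlinarith
  · exact div_le_div_of_nonneg_right hle hδ.le
  · exact div_le_div_of_nonneg_right hle (by positivity)

private theorem Gd_mono {k : ℤ} {R R' : ℝ} {F : ℝ → ℝ} (h : Gd k R F) (hR : R ≤ R') : Gd k R' F :=
  ⟨h.1, h.2.trans hR⟩

private theorem Dg_deriv_shift {X B : ℝ} {g1 g1' g2 g2' K : ℝ → ℝ} (hK : AdmK B K)
    (h1 : ∀ y, HasDerivAt g1 (g1' y) y) (h2 : ∀ y, HasDerivAt g2 (g2' y) y) (n1 : Nice X g1) (n1' : Nice X g1')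
    (n2 : Nice X g2) (n2' : Nice X g2') (a1 b1 a2 b2 l u : ℝ) :
    HasDerivAt (fun u => Dg g1 g2 K a1 b1 a2 b2 (l + u))
      (b1 * Dg g1' g2 K a1 b1 a2 b2 (l + u) + b2 * Dg g1 g2' K a1 b1 a2 b2 (l + u)) u := by
  have h := dg_deriv hK.2.2.1 h1 h2 n1'.1 n2'.1 n1.2.2.1 n2.2.2.1 n1'.2.2.1 n2'.2.2.1 a1 b1 a2 b2 (l + u)
  have h' : HasDerivAt (fun u : ℝ => l + u) 1 u := by simpa using (hasDerivAt_id u).const_add l
  have h3 := h.comp u h'
  rw [mul_one] at h3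
  exact h3

/-- the final estimate of the three functions -/
private theorem final_bd {C M Y G L : ℝ} {x0 x1 x2 d w z : ℝ} (hC : 0 ≤ C * M * G) (hY : 0 ≤ Y) (hL : 0 ≤ L)
    (h0 : |x0| ≤ C * M * G) (h1 : |x1| ≤ C * M * G) (h2 : |x2| ≤ C * M * G) (hd : |d| ≤ Y) (hw : |w| ≤ L * Y)
    (hz : |z| ≤ L ^ 2 * Y) :
    |x0 * d| ≤ (C * M * Y * (1 + L) ^ 2) * G ∧ |x1 * d + x0 * w| ≤ (C * M * Y * (1 + L) ^ 2) * G ∧
      |(x2 * d + x1 * w) + (x1 * w + x0 * z)| ≤ (C * M * Y * (1 + L) ^ 2) * G := by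
  have a0 : |x0 * d| ≤ (C * M * G) * Y := by rw [abs_mul]; exact mul_le_mul h0 hd (abs_nonneg _) hC
  have a1 : |x1 * d| ≤ (C * M * G) * Y := by rw [abs_mul]; exact mul_le_mul h1 hd (abs_nonneg _) hC
  have a2 : |x2 * d| ≤ (C * M * G) * Y := by rw [abs_mul]; exact mul_le_mul h2 hd (abs_nonneg _) hC
  have w0 : |x0 * w| ≤ (C * M * G) * (L * Y) := by rw [abs_mul]; exact mul_le_mul h0 hw (abs_nonneg _) hC
  have w1 : |x1 * w| ≤ (C * M * G) * (L * Y) := by rw [abs_mul]; exact mul_le_mul h1 hw (abs_nonneg _) hC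
  have z0 : |x0 * z| ≤ (C * M * G) * (L ^ 2 * Y) := by rw [abs_mul]; exact mul_le_mul h0 hz (abs_nonneg _) hC
  have p0 : 0 ≤ (C * M * G) * Y := by positivity
  have p1 : 0 ≤ (C * M * G) * Y * L := by positivity
  have p2 : 0 ≤ (C * M * G) * Y * L ^ 2 := by positivity
  have e : (C * M * Y * (1 + L) ^ 2) * G = (C * M * G) * Y + 2 * ((C * M * G) * Y * L) + (C * M * G) * Y * L ^ 2 := by
    ring
  rw [e]
  refine ⟨by linarith, ?_, ?_⟩
  · have := abs_add_le (x1 * d) (x0 * w)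
    have e1 : (C * M * G) * (L * Y) = (C * M * G) * Y * L := by ring
    linarith
  · have := abs_add_le (x2 * d + x1 * w) (x1 * w + x0 * z)
    have := abs_add_le (x2 * d) (x1 * w)
    have := abs_add_le (x1 * w) (x0 * z)
    have e1 : (C * M * G) * (L * Y) = (C * M * G) * Y * L := by ring
    have e2 : (C * M * G) * (L ^ 2 * Y) = (C * M * G) * Y * L ^ 2 := by ring
    linarith

private theorem t1core {σ a1 b1 a2 b2 : ℝ} (hσ : 0 < σ) (ha1 : a1 ≠ 0) (ha2 : a2 ≠ 0) : ∃ C : ℝ, 1 ≤ C ∧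
    ∀ (δ B c l α β : ℝ) (μ1 μ2 : Measure ℝ) (K : ℝ → ℝ), 0 < δ → δ ≤ 1 → 1 ≤ B → Adm δ B μ1 → Adm δ B μ2 →
    AdmK B K → 0 ≤ α → α ≤ 1 → 0 ≤ β → β ≤ 1 → 0 ≤ c - l →
    Summable (fun e : ℕ => (α + β * Real.log e) * (e : ℝ)⁻¹ *
      (WW σ c (l + Real.log e) * DD δ μ1 μ2 K a1 b1 a2 b2 (l + Real.log e))) ∧
    |(∑' e : ℕ, (α + β * Real.log e) * (e : ℝ)⁻¹ *
      (WW σ c (l + Real.log e) * DD δ μ1 μ2 K a1 b1 a2 b2 (l + Real.log e))) -
      ∫ v, (α + β * v) * (WW σ c (l + v) * DD δ μ1 μ2 K a1 b1 a2 b2 (l + v))| ≤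
      C * (1 + (c - l)) * B ^ 3 / δ ^ 2 * Real.exp (-(17 / 8) * (c - l)) := by
  obtain ⟨Ct, hCt, hterm⟩ := term_bd (b1 := b1) (b2 := b2) hσ ha1 ha2
  obtain ⟨Cg, hCg, hgsm⟩ := nice_gsm
  obtain ⟨Ch, hCh, hHH⟩ := HH_bd hσ
  -- the size of the coefficients
  set i2 := 1 / σ ^ 2 with hi2
  set i4 := 1 / σ ^ 4 with hi4
  have hs2 : 0 < i2 := by positivity
  have hs4 : 0 < i4 := by positivity
  set S := 6 * (1 + i2 + i4) with hS
  have hS1 : 1 ≤ S := by rw [hS]; linarith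
  have hSpos : 0 < S := by linarith
  set L := |b1| + |b2| with hL
  have hL0 : 0 ≤ L := by positivity
  refine ⟨Ct * S * Cg ^ 2 * (1 + L) ^ 2, ?_, ?_⟩
  · have t1 : 1 ≤ Ct * S := one_le_mul_of_one_le_of_one_le hCt hS1
    have t2 : 1 ≤ Cg ^ 2 := one_le_pow₀ hCg
    have t3 : 1 ≤ (1 + L) ^ 2 := one_le_pow₀ (by linarith)
    exact one_le_mul_of_one_le_of_one_le (one_le_mul_of_one_le_of_one_le t1 t2) t3
  intro δ B c l α β μ1 μ2 K hδ hδ1 hB hμ1 hμ2 hK hα0 hα1 hβ0 hβ1 hcl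
  have i1 := hμ1.1
  have i1' := hμ2.1
  set u0 := c - l with hu0
  set p0 := α + β * u0 with hp0
  set M := S * (1 + u0) with hM
  have hMpos : 0 < M := by positivity
  have hBpos : 0 < B := by linarith
  have hCgpos : 0 < Cg := by linarith
  obtain ⟨n10, n11, n12⟩ := hgsm δ B μ1 hδ hδ1 hB hμ1
  obtain ⟨n20, n21, n22⟩ := hgsm δ B μ2 hδ hδ1 hB hμ2
  obtain ⟨d10, d11, _, _⟩ := gsm_deriv hδ μ1
  obtain ⟨d20, d21, _, _⟩ := gsm_deriv hδ μ2
  -- uniform bounds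
  have hδ2 : δ ^ 2 ≤ δ := by nlinarith
  have hδ21 : δ ^ 2 ≤ 1 := by nlinarith
  have hδ2pos : 0 < δ ^ 2 := by positivity
  set X := Cg * B / δ ^ 2 with hX
  have hXpos : 0 < X := by positivity
  have le0 : Cg * B ≤ X := by
    rw [hX, le_div_iff₀ hδ2pos]
    have : 0 < Cg * B := by positivity
    nlinarith
  have le1 : Cg * B / δ ≤ X := by
    rw [hX]
    exact div_le_div_of_nonneg_left (by positivity) hδ2pos hδ2
  have m10 := nice_mono n10 le0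
  have m11 := nice_mono n11 le1
  have m20 := nice_mono n20 le0
  have m21 := nice_mono n21 le1
  -- the functions
  let D00 : ℝ → ℝ := fun u => Dg (gsm δ μ1) (gsm δ μ2) K a1 b1 a2 b2 (l + u)
  let D10 : ℝ → ℝ := fun u => Dg (gsm1 δ μ1) (gsm δ μ2) K a1 b1 a2 b2 (l + u)
  let D01 : ℝ → ℝ := fun u => Dg (gsm δ μ1) (gsm1 δ μ2) K a1 b1 a2 b2 (l + u)
  let D20 : ℝ → ℝ := fun u => Dg (gsm2 δ μ1) (gsm δ μ2) K a1 b1 a2 b2 (l + u)
  let D11 : ℝ → ℝ := fun u => Dg (gsm1 δ μ1) (gsm1 δ μ2) K a1 b1 a2 b2 (l + u)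
  let D02 : ℝ → ℝ := fun u => Dg (gsm δ μ1) (gsm2 δ μ2) K a1 b1 a2 b2 (l + u)
  have e00 : ∀ u, HasDerivAt D00 (b1 * D10 u + b2 * D01 u) u := fun u =>
    Dg_deriv_shift hK d10 d20 m10 m11 m20 m21 a1 b1 a2 b2 l u
  have e10 : ∀ u, HasDerivAt D10 (b1 * D20 u + b2 * D11 u) u := fun u =>
    Dg_deriv_shift hK d11 d20 m11 n12 m20 m21 a1 b1 a2 b2 l u
  have e01 : ∀ u, HasDerivAt D01 (b1 * D11 u + b2 * D02 u) u := fun u =>
    Dg_deriv_shift hK d10 d21 m10 m11 m21 n22 a1 b1 a2 b2 l u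
  have c0 : Continuous D00 := continuous_iff_continuousAt.mpr fun u => (e00 u).continuousAt
  have c10 : Continuous D10 := continuous_iff_continuousAt.mpr fun u => (e10 u).continuousAt
  have c01 : Continuous D01 := continuous_iff_continuousAt.mpr fun u => (e01 u).continuousAt
  have c20 : Continuous D20 := by
    have := dg_cont hK.2.2.1 n12.1 m20.1 n12.2.2.1 m20.2.2.1 a1 b1 a2 b2
    exact this.comp (by fun_prop)
  have c11 : Continuous D11 := by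
    have := dg_cont hK.2.2.1 m11.1 m21.1 m11.2.2.1 m21.2.2.1 a1 b1 a2 b2
    exact this.comp (by fun_prop)
  have c02 : Continuous D02 := by
    have := dg_cont hK.2.2.1 m10.1 n22.1 m10.2.2.1 n22.2.2.1 a1 b1 a2 b2
    exact this.comp (by fun_prop)
  let w : ℝ → ℝ := fun u => b1 * D10 u + b2 * D01 u
  let z : ℝ → ℝ := fun u => b1 * (b1 * D20 u + b2 * D11 u) + b2 * (b1 * D11 u + b2 * D02 u)
  have ew : ∀ u, HasDerivAt w (z u) u := fun u => ((e10 u).const_mul b1).add ((e01 u).const_mul b2)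
  let H0 : ℝ → ℝ := HH σ u0 p0 β 0 0
  let H1 : ℝ → ℝ := HH σ u0 β (-(p0 * i2)) (-(β * i2)) 0
  let H2 : ℝ → ℝ := HH σ u0 (-(p0 * i2)) (-(3 * β * i2)) (p0 * i4) (β * i4)
  have eH0 : ∀ u, HasDerivAt H0 (H1 u) u := by
    intro u
    refine (HH_deriv hσ u0 p0 β 0 u).congr_deriv ?_
    show _ = HH σ u0 β (-(p0 * i2)) (-(β * i2)) 0 u
    congr 1 <;> try simp only [hi2]
    all_goals ring
  have eH1 : ∀ u, HasDerivAt H1 (H2 u) u := by
    intro u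
    refine (HH_deriv hσ u0 β (-(p0 * i2)) (-(β * i2)) u).congr_deriv ?_
    show _ = HH σ u0 (-(p0 * i2)) (-(3 * β * i2)) (p0 * i4) (β * i4) u
    congr 1
    · rw [hi2]; ring
    · rw [hi2, hi4]; field_simp
    · rw [hi2, hi4]; field_simp
  let T0 : ℝ → ℝ := fun u => H0 u * D00 u
  let T1 : ℝ → ℝ := fun u => H1 u * D00 u + H0 u * w u
  let T2 : ℝ → ℝ := fun u => (H2 u * D00 u + H1 u * w u) + (H1 u * w u + H0 u * z u)
  have eT0 : ∀ u, HasDerivAt T0 (T1 u) u := fun u => (eH0 u).mul (e00 u)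
  have eT1 : ∀ u, HasDerivAt T1 (T2 u) u := fun u => ((eH1 u).mul (e00 u)).add ((eH0 u).mul (ew u))
  have cT2 : Continuous T2 := by
    have k0 : Continuous H0 := HH_cont _ _ _ _ _ _
    have k1 : Continuous H1 := HH_cont _ _ _ _ _ _
    have k2 : Continuous H2 := HH_cont _ _ _ _ _ _
    have kw : Continuous w := (c10.const_mul b1).add (c01.const_mul b2)
    have kz : Continuous z := (((c20.const_mul b1).add (c11.const_mul b2)).const_mul b1).add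
      (((c11.const_mul b1).add (c02.const_mul b2)).const_mul b2)
    exact ((k2.mul c0).add (k1.mul kw)).add ((k1.mul kw).add (k0.mul kz))
  -- sizes of the coefficients
  have hp0b : |p0| ≤ 1 + u0 := by
    rw [hp0, abs_of_nonneg (by positivity)]
    nlinarith
  have hβb : |β| ≤ 1 + u0 := by
    rw [abs_of_nonneg hβ0]
    linarith
  have hp0' := abs_le.mp hp0b
  have hβ' := abs_le.mp hβb
  set U := 1 + u0 with hU
  have hU0 : 0 < U := by rw [hU]; linarith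
  have hUi2 : 0 ≤ U * i2 := by positivity
  have hUi4 : 0 ≤ U * i4 := by positivity
  have hpi2 : |p0 * i2| ≤ U * i2 := by
    rw [abs_mul, abs_of_pos hs2]
    exact mul_le_mul_of_nonneg_right hp0b hs2.le
  have hpi4 : |p0 * i4| ≤ U * i4 := by
    rw [abs_mul, abs_of_pos hs4]
    exact mul_le_mul_of_nonneg_right hp0b hs4.le
  have hbi2 : |β * i2| ≤ U * i2 := by
    rw [abs_mul, abs_of_pos hs2]
    exact mul_le_mul_of_nonneg_right hβb hs2.le
  have hbi4 : |β * i4| ≤ U * i4 := by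
    rw [abs_mul, abs_of_pos hs4]
    exact mul_le_mul_of_nonneg_right hβb hs4.le
  have hpi2' := abs_le.mp hpi2
  have hpi4' := abs_le.mp hpi4
  have hbi2' := abs_le.mp hbi2
  have hbi4' := abs_le.mp hbi4
  have hMe : M = 6 * U + 6 * (U * i2) + 6 * (U * i4) := by rw [hM, hS]; ring
  -- bounds for the functions
  have hY : ∀ {g1 g2 : ℝ → ℝ}, Nice X g1 → Nice X g2 → ∀ u, |Dg g1 g2 K a1 b1 a2 b2 (l + u)| ≤ B * (X * X) :=
    fun h1 h2 u => Dg_bd h1.2.2.1 h2.2.2.1 hK a1 b1 a2 b2 (l + u)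
  set Y := B * (X * X) with hYdef
  have hY0 : 0 ≤ Y := by positivity
  have hwb : ∀ u, |w u| ≤ L * Y := by
    intro u
    have h1 := hY m11 m20 u
    have h2 := hY m10 m21 u
    calc |w u| ≤ |b1 * D10 u| + |b2 * D01 u| := abs_add_le _ _
      _ = |b1| * |D10 u| + |b2| * |D01 u| := by rw [abs_mul, abs_mul]
      _ ≤ |b1| * Y + |b2| * Y := add_le_add (mul_le_mul_of_nonneg_left h1 (abs_nonneg _))
          (mul_le_mul_of_nonneg_left h2 (abs_nonneg _))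
      _ = L * Y := by rw [hL]; ring
  have hzb : ∀ u, |z u| ≤ L ^ 2 * Y := by
    intro u
    have h1 := hY n12 m20 u
    have h2 := hY m11 m21 u
    have h3 := hY m10 n22 u
    have s1 : |b1 * D20 u + b2 * D11 u| ≤ L * Y := by
      calc |b1 * D20 u + b2 * D11 u| ≤ |b1 * D20 u| + |b2 * D11 u| := abs_add_le _ _
        _ = |b1| * |D20 u| + |b2| * |D11 u| := by rw [abs_mul, abs_mul]
        _ ≤ |b1| * Y + |b2| * Y := add_le_add (mul_le_mul_of_nonneg_left h1 (abs_nonneg _))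
            (mul_le_mul_of_nonneg_left h2 (abs_nonneg _))
        _ = L * Y := by rw [hL]; ring
    have s2 : |b1 * D11 u + b2 * D02 u| ≤ L * Y := by
      calc |b1 * D11 u + b2 * D02 u| ≤ |b1 * D11 u| + |b2 * D02 u| := abs_add_le _ _
        _ = |b1| * |D11 u| + |b2| * |D02 u| := by rw [abs_mul, abs_mul]
        _ ≤ |b1| * Y + |b2| * Y := add_le_add (mul_le_mul_of_nonneg_left h2 (abs_nonneg _))
            (mul_le_mul_of_nonneg_left h3 (abs_nonneg _))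
        _ = L * Y := by rw [hL]; ring
    calc |z u| ≤ |b1 * (b1 * D20 u + b2 * D11 u)| + |b2 * (b1 * D11 u + b2 * D02 u)| := abs_add_le _ _
      _ = |b1| * |b1 * D20 u + b2 * D11 u| + |b2| * |b1 * D11 u + b2 * D02 u| := by rw [abs_mul, abs_mul]
      _ ≤ |b1| * (L * Y) + |b2| * (L * Y) := add_le_add (mul_le_mul_of_nonneg_left s1 (abs_nonneg _))
            (mul_le_mul_of_nonneg_left s2 (abs_nonneg _))
      _ = L ^ 2 * Y := by rw [hL]; ring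
  have hall : ∀ u, |T0 u| ≤ (Ch * M * Y * (1 + L) ^ 2) * Real.exp (-(u - u0) ^ 2 / (2 * (Real.sqrt 2 * σ) ^ 2)) ∧
      |T1 u| ≤ (Ch * M * Y * (1 + L) ^ 2) * Real.exp (-(u - u0) ^ 2 / (2 * (Real.sqrt 2 * σ) ^ 2)) ∧
      |T2 u| ≤ (Ch * M * Y * (1 + L) ^ 2) * Real.exp (-(u - u0) ^ 2 / (2 * (Real.sqrt 2 * σ) ^ 2)) := by
    intro u
    refine final_bd (by positivity) hY0 hL0 ?_ ?_ ?_ (hY m10 m20 u) (hwb u) (hzb u)
    · refine hHH u0 M p0 β 0 0 ?_ ?_ ?_ ?_ u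
      · rw [hMe, abs_le]; constructor <;> linarith
      · rw [hMe, abs_le]; constructor <;> linarith
      · rw [abs_zero]; exact hMpos.le
      · rw [abs_zero]; exact hMpos.le
    · refine hHH u0 M β (-(p0 * i2)) (-(β * i2)) 0 ?_ ?_ ?_ ?_ u
      · rw [hMe, abs_le]; constructor <;> linarith
      · rw [hMe, abs_le]; constructor <;> linarith
      · rw [hMe, abs_le]; constructor <;> linarith
      · rw [abs_zero]; exact hMpos.le
    · refine hHH u0 M (-(p0 * i2)) (-(3 * β * i2)) (p0 * i4) (β * i4) ?_ ?_ ?_ ?_ u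
      · rw [hMe, abs_le]; constructor <;> linarith
      · rw [hMe, abs_le]; constructor <;> linarith
      · rw [hMe, abs_le]; constructor <;> linarith
      · rw [hMe, abs_le]; constructor <;> linarith
  -- the oscillating integral
  set E := Real.exp (-(17 / 8) * u0) with hE
  have hE0 : 0 < E := Real.exp_pos _
  set R0 := Ct * S * Cg ^ 2 * (1 + u0) * B ^ 3 / δ ^ 2 * E with hR0
  have hR00 : 0 ≤ R0 := by positivity
  have hosc : ∀ k : ℤ, k ≠ 0 → Gd k ((1 + L) ^ 2 * R0)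
      (fun u => Real.exp (-2 * u) * (T2 u - 3 * T1 u + 2 * T0 u)) := by
    intro k hk
    have f00 := hterm k u0 l M B (Cg * B) (Cg * B) (-(p0 * i2) - 3 * β + 2 * p0)
      (-(3 * β * i2) + 3 * (p0 * i2) + 2 * β) (p0 * i4 + 3 * (β * i2)) (β * i4) K (gsm δ μ1) (gsm δ μ2) hk hcl hMpos hBpos
      (by positivity) (by positivity) (by rw [hMe, abs_le]; constructor <;> linarith)
      (by rw [hMe, abs_le]; constructor <;> linarith) (by rw [hMe, abs_le]; constructor <;> linarith)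
      (by rw [hMe, abs_le]; constructor <;> linarith) hK n10 n20
    have f10 := hterm k u0 l M B (Cg * B / δ) (Cg * B) (2 * β - 3 * p0) (-(2 * (p0 * i2)) - 3 * β) (-(2 * (β * i2))) 0 K
      (gsm1 δ μ1) (gsm δ μ2) hk hcl hMpos hBpos
      (by positivity) (by positivity) (by rw [hMe, abs_le]; constructor <;> linarith)
      (by rw [hMe, abs_le]; constructor <;> linarith) (by rw [hMe, abs_le]; constructor <;> linarith)
      (by rw [abs_zero]; exact hMpos.le) hK n11 n20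
    have f01 := hterm k u0 l M B (Cg * B) (Cg * B / δ) (2 * β - 3 * p0) (-(2 * (p0 * i2)) - 3 * β) (-(2 * (β * i2))) 0 K
      (gsm δ μ1) (gsm1 δ μ2) hk hcl hMpos hBpos
      (by positivity) (by positivity) (by rw [hMe, abs_le]; constructor <;> linarith)
      (by rw [hMe, abs_le]; constructor <;> linarith) (by rw [hMe, abs_le]; constructor <;> linarith)
      (by rw [abs_zero]; exact hMpos.le) hK n10 n21
    have f20 := hterm k u0 l M B (Cg * B / δ ^ 2) (Cg * B) p0 β 0 0 K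
      (gsm2 δ μ1) (gsm δ μ2) hk hcl hMpos hBpos
      (by positivity) (by positivity) (by rw [hMe, abs_le]; constructor <;> linarith)
      (by rw [hMe, abs_le]; constructor <;> linarith) (by rw [abs_zero]; exact hMpos.le)
      (by rw [abs_zero]; exact hMpos.le) hK n12 n20
    have f11 := hterm k u0 l M B (Cg * B / δ) (Cg * B / δ) p0 β 0 0 K
      (gsm1 δ μ1) (gsm1 δ μ2) hk hcl hMpos hBpos
      (by positivity) (by positivity) (by rw [hMe, abs_le]; constructor <;> linarith)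
      (by rw [hMe, abs_le]; constructor <;> linarith) (by rw [abs_zero]; exact hMpos.le)
      (by rw [abs_zero]; exact hMpos.le) hK n11 n21
    have f02 := hterm k u0 l M B (Cg * B) (Cg * B / δ ^ 2) p0 β 0 0 K
      (gsm δ μ1) (gsm2 δ μ2) hk hcl hMpos hBpos
      (by positivity) (by positivity) (by rw [hMe, abs_le]; constructor <;> linarith)
      (by rw [hMe, abs_le]; constructor <;> linarith) (by rw [abs_zero]; exact hMpos.le)
      (by rw [abs_zero]; exact hMpos.le) hK n10 n22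
    have hQ : 0 ≤ Ct * M * Cg ^ 2 * B ^ 3 * E := by positivity
    have hd2 : 1 ≤ 1 / δ ^ 2 := by rw [le_div_iff₀ hδ2pos]; linarith
    have hd1 : 1 / δ ≤ 1 / δ ^ 2 := one_div_le_one_div_of_le hδ2pos hδ2
    have hR0e : R0 = (Ct * M * Cg ^ 2 * B ^ 3 * E) * (1 / δ ^ 2) := by rw [hR0, hM]; ring
    have g00 := Gd_mono f00 (R' := R0) (by
      rw [hR0e]
      calc _ = (Ct * M * Cg ^ 2 * B ^ 3 * E) * 1 := by ring
        _ ≤ _ := mul_le_mul_of_nonneg_left hd2 hQ)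
    have g10 := Gd_mono f10 (R' := R0) (by
      rw [hR0e]
      calc _ = (Ct * M * Cg ^ 2 * B ^ 3 * E) * (1 / δ) := by ring
        _ ≤ _ := mul_le_mul_of_nonneg_left hd1 hQ)
    have g01 := Gd_mono f01 (R' := R0) (by
      rw [hR0e]
      calc _ = (Ct * M * Cg ^ 2 * B ^ 3 * E) * (1 / δ) := by ring
        _ ≤ _ := mul_le_mul_of_nonneg_left hd1 hQ)
    have g20 := Gd_mono f20 (R' := R0) (by
      rw [hR0e]
      refine le_of_eq ?_
      ring)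
    have g11 := Gd_mono f11 (R' := R0) (by
      rw [hR0e, ← hE]
      refine le_of_eq ?_
      field_simp)
    have g02 := Gd_mono f02 (R' := R0) (by
      rw [hR0e]
      refine le_of_eq ?_
      ring)
    have tot := Gd_add (Gd_add (Gd_add g00 (Gd_smul g10 b1)) (Gd_smul g01 b2))
      (Gd_add (Gd_add (Gd_smul g20 (b1 * b1)) (Gd_smul g11 (2 * (b1 * b2)))) (Gd_smul g02 (b2 * b2)))
    have tot' := Gd_mono tot (R' := (1 + L) ^ 2 * R0) (by
      rw [abs_mul b1 b1, abs_mul b2 b2, abs_mul 2 (b1 * b2), abs_mul b1 b2, abs_two]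
      have e1 : (1 + L) ^ 2 * R0 = (R0 + |b1| * R0 + |b2| * R0 + (|b1| * |b1| * R0 + 2 * (|b1| * |b2|) * R0 +
        |b2| * |b2| * R0)) + (|b1| * R0 + |b2| * R0) := by rw [hL]; ring
      rw [e1]
      have e2 : 0 ≤ |b1| * R0 + |b2| * R0 := by positivity
      linarith)
    refine (?_ : (fun u => Real.exp (-2 * u) * (T2 u - 3 * T1 u + 2 * T0 u)) = _) ▸ tot'
    funext u
    show Real.exp (-2 * u) * (((HH σ u0 (-(p0 * i2)) (-(3 * β * i2)) (p0 * i4) (β * i4) u *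
        Dg (gsm δ μ1) (gsm δ μ2) K a1 b1 a2 b2 (l + u) + HH σ u0 β (-(p0 * i2)) (-(β * i2)) 0 u *
        (b1 * Dg (gsm1 δ μ1) (gsm δ μ2) K a1 b1 a2 b2 (l + u) + b2 * Dg (gsm δ μ1) (gsm1 δ μ2) K a1 b1 a2 b2 (l + u))) +
        (HH σ u0 β (-(p0 * i2)) (-(β * i2)) 0 u *
        (b1 * Dg (gsm1 δ μ1) (gsm δ μ2) K a1 b1 a2 b2 (l + u) + b2 * Dg (gsm δ μ1) (gsm1 δ μ2) K a1 b1 a2 b2 (l + u)) +
        HH σ u0 p0 β 0 0 u * (b1 * (b1 * Dg (gsm2 δ μ1) (gsm δ μ2) K a1 b1 a2 b2 (l + u) +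
          b2 * Dg (gsm1 δ μ1) (gsm1 δ μ2) K a1 b1 a2 b2 (l + u)) +
          b2 * (b1 * Dg (gsm1 δ μ1) (gsm1 δ μ2) K a1 b1 a2 b2 (l + u) +
          b2 * Dg (gsm δ μ1) (gsm2 δ μ2) K a1 b1 a2 b2 (l + u))))) -
        3 * (HH σ u0 β (-(p0 * i2)) (-(β * i2)) 0 u * Dg (gsm δ μ1) (gsm δ μ2) K a1 b1 a2 b2 (l + u) +
          HH σ u0 p0 β 0 0 u *
        (b1 * Dg (gsm1 δ μ1) (gsm δ μ2) K a1 b1 a2 b2 (l + u) + b2 * Dg (gsm δ μ1) (gsm1 δ μ2) K a1 b1 a2 b2 (l + u))) +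
        2 * (HH σ u0 p0 β 0 0 u * Dg (gsm δ μ1) (gsm δ μ2) K a1 b1 a2 b2 (l + u))) = _
    unfold GW HH
    generalize Dg (gsm δ μ1) (gsm δ μ2) K a1 b1 a2 b2 (l + u) = x00
    generalize Dg (gsm1 δ μ1) (gsm δ μ2) K a1 b1 a2 b2 (l + u) = x10
    generalize Dg (gsm δ μ1) (gsm1 δ μ2) K a1 b1 a2 b2 (l + u) = x01
    generalize Dg (gsm2 δ μ1) (gsm δ μ2) K a1 b1 a2 b2 (l + u) = x20
    generalize Dg (gsm1 δ μ1) (gsm1 δ μ2) K a1 b1 a2 b2 (l + u) = x11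
    generalize Dg (gsm δ μ1) (gsm2 δ μ2) K a1 b1 a2 b2 (l + u) = x02
    generalize Real.exp (-(u - u0) ^ 2 / (2 * σ ^ 2)) = y1
    generalize Real.exp (-2 * u) = y2
    ring
  -- Poisson
  have hT : ∀ u, T0 u = (α + β * u) * (WW σ c (l + u) * DD δ μ1 μ2 K a1 b1 a2 b2 (l + u)) := by
    intro u
    show HH σ u0 p0 β 0 0 u * Dg (gsm δ μ1) (gsm δ μ2) K a1 b1 a2 b2 (l + u) =
      (α + β * u) * (WW σ c (l + u) * Dg (gsm δ μ1) (gsm δ μ2) K a1 b1 a2 b2 (l + u))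
    unfold HH WW
    rw [hp0, hu0]
    have e1 : l + u - c = u - (c - l) := by ring
    rw [e1]
    ring
  have key := poi (Θ := fun u => ((T0 u : ℝ) : ℂ)) (Θ1 := fun u => ((T1 u : ℝ) : ℂ)) (Θ2 := fun u => ((T2 u : ℝ) : ℂ))
    (u0 := u0) (s := Real.sqrt 2 * σ) (M := Ch * M * Y * (1 + L) ^ 2) (R := (1 + L) ^ 2 * R0) (by positivity)
    (fun u => (eT0 u).ofReal_comp) (fun u => (eT1 u).ofReal_comp) (Complex.continuous_ofReal.comp cT2) (by positivity)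
    (fun u => by rw [Complex.norm_real]; exact (hall u).1) (fun u => by rw [Complex.norm_real]; exact (hall u).2.1)
    (fun u => by rw [Complex.norm_real]; exact (hall u).2.2)
    (fun k hk => by
      refine le_trans (le_of_eq ?_) (hosc k hk).2
      congr 1
      refine integral_congr_ae (Filter.Eventually.of_forall fun u => ?_)
      simp only
      push_cast
      ring)
  have ef : (fun n : ℕ => ((T0 (Real.log n) : ℝ) : ℂ) / (n : ℂ)) = fun n : ℕ =>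
      (((α + β * Real.log n) * (n : ℝ)⁻¹ *
      (WW σ c (l + Real.log n) * DD δ μ1 μ2 K a1 b1 a2 b2 (l + Real.log n)) : ℝ) : ℂ) := by
    funext n
    rw [hT]
    push_cast
    ring
  have eg : (fun u : ℝ => ((T0 u : ℝ) : ℂ)) = fun u : ℝ =>
      (((α + β * u) * (WW σ c (l + u) * DD δ μ1 μ2 K a1 b1 a2 b2 (l + u)) : ℝ) : ℂ) := by
    funext u
    rw [hT]
  rw [ef] at key
  have eg' : (∫ u : ℝ, ((T0 u : ℝ) : ℂ)) =
      ((∫ u : ℝ, (α + β * u) * (WW σ c (l + u) * DD δ μ1 μ2 K a1 b1 a2 b2 (l + u)) : ℝ) : ℂ) := by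
    rw [eg]
    exact integral_ofReal
  rw [eg', ← Complex.ofReal_tsum, ← Complex.ofReal_sub, Complex.norm_real, Real.norm_eq_abs] at key
  refine ⟨Complex.summable_ofReal.mp key.1, key.2.trans (le_of_eq ?_)⟩
  rw [hR0, hE]
  ring

theorem t1 {σ a1 b1 a2 b2 : ℝ} (hσ : 0 < σ) (ha1 : a1 ≠ 0) (ha2 : a2 ≠ 0) : ∃ C : ℝ, 1 ≤ C ∧
    ∀ (δ B c l : ℝ) (μ1 μ2 : Measure ℝ) (K : ℝ → ℝ) (j : ℕ), 0 < δ → δ ≤ 1 → 1 ≤ B → Adm δ B μ1 → Adm δ B μ2 →
    AdmK B K → j ≤ 1 → 0 ≤ c - l →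
    Summable (fun e : ℕ => Real.log e ^ j * (e : ℝ)⁻¹ *
      (WW σ c (l + Real.log e) * DD δ μ1 μ2 K a1 b1 a2 b2 (l + Real.log e))) ∧
    |(∑' e : ℕ, Real.log e ^ j * (e : ℝ)⁻¹ *
      (WW σ c (l + Real.log e) * DD δ μ1 μ2 K a1 b1 a2 b2 (l + Real.log e))) -
      ∫ v, v ^ j * (WW σ c (l + v) * DD δ μ1 μ2 K a1 b1 a2 b2 (l + v))| ≤
      C * (1 + (c - l)) * B ^ 3 / δ ^ 2 * Real.exp (-(17 / 8) * (c - l)) := by
  obtain ⟨C, hC, h⟩ := t1core (b1 := b1) (b2 := b2) hσ ha1 ha2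
  refine ⟨C, hC, ?_⟩
  intro δ B c l μ1 μ2 K j hδ hδ1 hB hμ1 hμ2 hK hj hcl
  interval_cases j
  · have := h δ B c l 1 0 μ1 μ2 K hδ hδ1 hB hμ1 hμ2 hK zero_le_one le_rfl le_rfl zero_le_one hcl
    simpa only [zero_mul, add_zero, pow_zero] using this
  · have := h δ B c l 0 1 μ1 μ2 K hδ hδ1 hB hμ1 hμ2 hK le_rfl zero_le_one zero_le_one le_rfl hcl
    simpa only [one_mul, zero_add, pow_one] using this

end HLA
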