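import Pool.Agent.HLA.TOne
import Pool.Agent.HLA.Vau
import Pool.Agent.ASI.Div

/-!
# HLA.TOneF: the type I sums of Vaughan's identity

PROOF. `U = w/200`, `D = DD ..`, `|D| ≤ w^(3E)` (`dd_bound`), `φ = ph σ c D`, so `φ(d e) = (1/(d e)) WW σ c (log d + log e) D(log d + log e)` (`d, e ≥ 1`; both sides vanish
otherwise). Notation `G d = μ(d)(1 - hM U (log d))`, `F a = Λ(a)(1 - hL U (log a))`.
(0) Trivial bound: for all real `l`, `j ≤ 1`: `∑_e |log e|^j/e · WW σ c (l + log e) ≤ C (1 + |c - l|)` and the same for the integral. (i) `t1`: for `l ≤ w/34` and `c ≥ w - E` the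
difference of sum and integral is at most `w^M exp(2w) exp(-(17/8)(w - l))`, with `l = w/34`: `w^M exp(-w/8 + w/16) = w^M exp(-w/16)`.
(1) `S2 = ∑_d (G d/d) ∑_e (log e/e) (WW·D)(log d + log e)`, main term `∑_d (G d/d) ∫ v (WW·D)(log d + v) dv = ∫ (x s0 - s1) WW σ c x D x dx`,
`s0 = ∑ G d/d`, `s1 = ∑ G d log d/d`. Error: `d` with `log d ≤ w/34`: `∑ 1/d ≤ w`, times (i). `d` with `log d > w/34`: `|1 - hM| ≤ exp(-(log d - U)²/8)` (`ASI.hM_tail`) and
`log d - U ≥ w (1/34 - 1/200)`, so `∑_d (1/d) exp(-(log d - U)²/8) (trivial bound (0)) ≤ w^M exp(-κ w²)` (use `exp(-x²/8) ≤ exp(-x²/16) exp(-x²/16)` and `Mu.coef_sum`/`ASI.div_gauss`).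
(2) `S3`: the same with `l = log a + log b`, both cutoffs, `j = 0`, `s2 = ∑_{a,b} F a G b/(a b)`; if `log a + log b > w/34` then one of them is `> w/68 > U`.
(3) `S1`: `|F n φ n| ≤ (Λ n/n)(1 - hL U (log n)) WW σ c (log n) w^(3E)`, and `(1 - hL U x) WW σ c x ≤ exp(-κ w²) exp(-(x-c)²/4)` (for `x ≥ w/2` the first factor is `≤ exp(-(x-U)²/4)`,
for `x < w/2` use half of the Gaussian `WW`, `σ ≤ 1`).
`p = s0`, `q = -s1 - s2`; `∑_d (1/d)(1 - hM U (log d))(1 + log d)^2 ≤ C (1+U)^4` and similarly for `hL` give `|p|, |q| ≤ w^M` (only these bounds are needed; `p`, `q` depend on `w` only).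
-/

namespace HLA

open MeasureTheory ArithmeticFunction SMC

/-- the properties of the cutoffs -/
private def TF_Cut (U : ℝ) (h : ℝ → ℝ) : Prop :=
  (∀ x, 0 ≤ 1 - h x) ∧ (∀ x, 1 - h x ≤ 1) ∧ (∀ x, U ≤ x → 1 - h x ≤ Real.exp (-(x - U) ^ 2 / 8))

private theorem TF_cutM (U : ℝ) : TF_Cut U (ASI.hM U) :=
  ⟨fun x => by linarith [ASI.hM_le U x], fun x => by linarith [ASI.hM_nonneg U x], fun _ hx => ASI.hM_tail hx⟩

private theorem TF_cutL (U : ℝ) : TF_Cut U (ASI.hL U) :=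
  ⟨fun x => by linarith [ASI.hL_le U x], fun x => by linarith [ASI.hL_nonneg U x], fun x hx =>
    (ASI.hL_tail hx).trans (Real.exp_le_exp.2 (by nlinarith [sq_nonneg (x - U)]))⟩

/-- majorant of the cutoffs -/
private noncomputable def TF_mj (U l : ℝ) : ℝ :=
  Real.exp (-(l - U) ^ 2 / 16) + ∑ y ∈ Finset.range (⌈U⌉₊ + 1), Real.exp 1 * Real.exp (-(l - y) ^ 2 / 16)

private theorem TF_mj_ge (U l : ℝ) : Real.exp (-(l - U) ^ 2 / 16) ≤ TF_mj U l := by
  unfold TF_mj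
  have : 0 ≤ ∑ y ∈ Finset.range (⌈U⌉₊ + 1), Real.exp 1 * Real.exp (-(l - y) ^ 2 / 16) :=
    Finset.sum_nonneg fun y _ => by positivity
  linarith

private theorem TF_mj_pos (U l : ℝ) : 0 < TF_mj U l := (Real.exp_pos _).trans_le (TF_mj_ge U l)

private theorem TF_mj_one {U l : ℝ} (hl : 0 ≤ l) (hU : l ≤ U) : 1 ≤ TF_mj U l := by
  have hmem : ⌊l⌋₊ ∈ Finset.range (⌈U⌉₊ + 1) := by
    rw [Finset.mem_range]
    have h1 : (⌊l⌋₊ : ℝ) ≤ (⌈U⌉₊ : ℝ) := (Nat.floor_le hl).trans (hU.trans (Nat.le_ceil U))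
    have h2 : ⌊l⌋₊ ≤ ⌈U⌉₊ := by exact_mod_cast h1
    omega
  have h1 : Real.exp 1 * Real.exp (-(l - (⌊l⌋₊ : ℝ)) ^ 2 / 16) ≤
      ∑ y ∈ Finset.range (⌈U⌉₊ + 1), Real.exp 1 * Real.exp (-(l - y) ^ 2 / 16) :=
    Finset.single_le_sum (f := fun y : ℕ => Real.exp 1 * Real.exp (-(l - y) ^ 2 / 16))
      (fun y _ => by positivity) hmem
  have h2 : 1 ≤ Real.exp 1 * Real.exp (-(l - (⌊l⌋₊ : ℝ)) ^ 2 / 16) := by
    rw [← Real.exp_add]
    apply Real.one_le_exp
    have h3 := Nat.floor_le hl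
    have h4 := (Nat.lt_floor_add_one l).le
    nlinarith
  unfold TF_mj
  have := Real.exp_pos (-(l - U) ^ 2 / 16)
  linarith

private theorem TF_cut_m {U l : ℝ} {h : ℝ → ℝ} (hh : TF_Cut U h) (hl : 0 ≤ l) : 1 - h l ≤ TF_mj U l := by
  rcases le_total l U with h1 | h1
  · exact (hh.2.1 l).trans (TF_mj_one hl h1)
  · refine (hh.2.2 l h1).trans (le_trans (Real.exp_le_exp.2 ?_) (TF_mj_ge U l))
    nlinarith [sq_nonneg (l - U)]

private theorem TF_pow6 (l : ℝ) (hl : 0 ≤ l) : (1 + l) ^ 6 ≤ 720 * Real.exp 26 * Real.exp (l ^ 2 / 100) := by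
  have h1 := Real.pow_div_factorial_le_exp (1 + l) (by linarith) 6
  have h2 : ((6 : ℕ).factorial : ℝ) = 720 := by norm_num [Nat.factorial]
  rw [h2] at h1
  have h3 : Real.exp (1 + l) ≤ Real.exp 26 * Real.exp (l ^ 2 / 100) := by
    rw [← Real.exp_add]
    apply Real.exp_le_exp.2
    nlinarith [sq_nonneg (l / 10 - 5)]
  have h4 : (1 + l) ^ 6 ≤ 720 * Real.exp (1 + l) := by
    rw [div_le_iff₀ (by norm_num)] at h1
    linarith
  calc (1 + l) ^ 6 ≤ 720 * Real.exp (1 + l) := h4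
    _ ≤ 720 * (Real.exp 26 * Real.exp (l ^ 2 / 100)) := by linarith
    _ = _ := by ring

/-- far from the cutoff -/
private theorem TF_far {w l : ℝ} {h : ℝ → ℝ} (hw : 0 ≤ w) (hh : TF_Cut (w / 200) h) (hl : w / 68 < l) :
    (1 - h l) * (1 + l) ^ 6 ≤ 720 * Real.exp 26 * Real.exp (-(w ^ 2 / 1000000)) * TF_mj (w / 200) l := by
  have hl0 : 0 ≤ l := by linarith [div_nonneg hw (by norm_num : (0 : ℝ) ≤ 68)]
  have h1 := hh.2.2 l (by linarith)
  have h2 := TF_pow6 l hl0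
  have h3 : Real.exp (-(l - w / 200) ^ 2 / 8) * Real.exp (l ^ 2 / 100) ≤
      Real.exp (-(w ^ 2 / 1000000)) * Real.exp (-(l - w / 200) ^ 2 / 16) := by
    rw [← Real.exp_add, ← Real.exp_add]
    apply Real.exp_le_exp.2
    have h5 : 0.66 * l ≤ l - w / 200 := by linarith
    have h6 : (0.66 * l) ^ 2 ≤ (l - w / 200) ^ 2 := pow_le_pow_left₀ (by positivity) h5 2
    have h7 : (w / 68) ^ 2 ≤ l ^ 2 := pow_le_pow_left₀ (by positivity) hl.le 2
    nlinarith
  calc (1 - h l) * (1 + l) ^ 6 ≤ Real.exp (-(l - w / 200) ^ 2 / 8) * (720 * Real.exp 26 * Real.exp (l ^ 2 / 100)) :=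
        mul_le_mul h1 h2 (by positivity) (Real.exp_pos _).le
    _ = 720 * Real.exp 26 * (Real.exp (-(l - w / 200) ^ 2 / 8) * Real.exp (l ^ 2 / 100)) := by ring
    _ ≤ 720 * Real.exp 26 * (Real.exp (-(w ^ 2 / 1000000)) * Real.exp (-(l - w / 200) ^ 2 / 16)) :=
        mul_le_mul_of_nonneg_left h3 (by positivity)
    _ ≤ 720 * Real.exp 26 * (Real.exp (-(w ^ 2 / 1000000)) * TF_mj (w / 200) l) := by
        apply mul_le_mul_of_nonneg_left _ (by positivity)
        exact mul_le_mul_of_nonneg_left (TF_mj_ge _ _) (Real.exp_pos _).le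
    _ = _ := by ring

private theorem TF_all {w l : ℝ} {h : ℝ → ℝ} (hw : 0 ≤ w) (hh : TF_Cut (w / 200) h) (hl : 0 ≤ l) :
    (1 - h l) * (1 + l) ^ 6 ≤ 720 * Real.exp 26 * (1 + w) ^ 6 * TF_mj (w / 200) l := by
  have hE : (1 : ℝ) ≤ Real.exp 26 := Real.one_le_exp (by norm_num)
  have hW : (1 : ℝ) ≤ (1 + w) ^ 6 := one_le_pow₀ (by linarith)
  rcases le_or_gt l w with h1 | h1
  · have h2 := TF_cut_m hh hl
    calc (1 - h l) * (1 + l) ^ 6 ≤ TF_mj (w / 200) l * (1 + w) ^ 6 :=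
          mul_le_mul h2 (pow_le_pow_left₀ (by linarith) (by linarith) 6) (by positivity) (TF_mj_pos _ _).le
      _ = 1 * (1 + w) ^ 6 * TF_mj (w / 200) l := by ring
      _ ≤ _ := by
          apply mul_le_mul_of_nonneg_right _ (TF_mj_pos _ _).le
          apply mul_le_mul_of_nonneg_right _ (by positivity)
          linarith
  · refine (TF_far hw hh (by linarith)).trans ?_
    apply mul_le_mul_of_nonneg_right _ (TF_mj_pos _ _).le
    apply mul_le_mul_of_nonneg_left _ (by positivity)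
    refine le_trans (Real.exp_le_one_iff.2 ?_) hW
    have : 0 ≤ w ^ 2 / 1000000 := by positivity
    linarith

/-- the weight of the sums over the short variables -/
private noncomputable def TF_k (U : ℝ) (n : ℕ) : ℝ := (1 + Real.log n) ^ 2 / n * TF_mj U (Real.log n)

private theorem TF_k_nonneg (U : ℝ) (n : ℕ) : 0 ≤ TF_k U n := by
  unfold TF_k
  have := (TF_mj_pos U (Real.log n)).le
  positivity

/-- `div_gauss` without the divisor function -/
private theorem TF_dg : ∃ C : ℝ, 1 ≤ C ∧ ∀ y : ℝ,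
    Summable (fun n : ℕ => (1 + Real.log n) ^ 2 / n * Real.exp (-(Real.log n - y) ^ 2 / 16)) ∧
    ∑' n : ℕ, (1 + Real.log n) ^ 2 / n * Real.exp (-(Real.log n - y) ^ 2 / 16) ≤ C * (1 + |y|) ^ 6 := by
  obtain ⟨C, hC, h⟩ := ASI.div_gauss
  refine ⟨C, hC, fun y => ?_⟩
  obtain ⟨h1, h2, -⟩ := h y
  have h3 : ∀ n : ℕ, (1 + Real.log n) ^ 2 / n * Real.exp (-(Real.log n - y) ^ 2 / 16) ≤
      (n.divisors.card : ℝ) ^ 2 * (1 + Real.log n) ^ 2 / n * Real.exp (-(Real.log n - y) ^ 2 / 16) := by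
    intro n
    apply mul_le_mul_of_nonneg_right _ (Real.exp_pos _).le
    rcases Nat.eq_zero_or_pos n with h | h
    · subst h; simp
    · have hd : (1 : ℝ) ≤ (n.divisors.card : ℝ) ^ 2 := by
        have h4 : 1 ≤ n.divisors.card := Finset.card_pos.2 ⟨1, by simp [h.ne']⟩
        have h5 : (1 : ℝ) ≤ (n.divisors.card : ℝ) := by exact_mod_cast h4
        nlinarith
      apply div_le_div_of_nonneg_right _ (Nat.cast_nonneg n)
      nlinarith [sq_nonneg (1 + Real.log n)]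
  have h4 : Summable (fun n : ℕ => (1 + Real.log n) ^ 2 / n * Real.exp (-(Real.log n - y) ^ 2 / 16)) :=
    Summable.of_nonneg_of_le (fun n => by positivity) h3 h1
  exact ⟨h4, (h4.tsum_le_tsum h3 h1).trans h2⟩

private theorem TF_ksum : ∃ C : ℝ, 1 ≤ C ∧ ∀ U : ℝ, 0 ≤ U → Summable (TF_k U) ∧ ∑' n, TF_k U n ≤ C * (1 + U) ^ 7 := by
  obtain ⟨C, hC, h⟩ := TF_dg
  have hE1 : (1 : ℝ) ≤ Real.exp 1 := Real.one_le_exp (by norm_num)
  refine ⟨C + 128 * Real.exp 1 * C, by nlinarith, fun U hU => ?_⟩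
  have e : ∀ n : ℕ, TF_k U n = (1 + Real.log n) ^ 2 / n * Real.exp (-(Real.log n - U) ^ 2 / 16) +
      ∑ y ∈ Finset.range (⌈U⌉₊ + 1), Real.exp 1 *
        ((1 + Real.log n) ^ 2 / n * Real.exp (-(Real.log n - y) ^ 2 / 16)) := by
    intro n
    unfold TF_k TF_mj
    rw [mul_add, Finset.mul_sum]
    congr 1
    refine Finset.sum_congr rfl fun y _ => ?_
    ring
  have hs2 : ∀ y ∈ Finset.range (⌈U⌉₊ + 1), Summable (fun n : ℕ => Real.exp 1 *
      ((1 + Real.log n) ^ 2 / n * Real.exp (-(Real.log n - y) ^ 2 / 16))) := fun y _ => (h y).1.mul_left _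
  have hsum : Summable (TF_k U) := by
    have h1 := (h U).1.add (summable_sum hs2)
    exact h1.congr fun n => (e n).symm
  refine ⟨hsum, ?_⟩
  have e2 : ∑' n, TF_k U n = (∑' n : ℕ, (1 + Real.log n) ^ 2 / n * Real.exp (-(Real.log n - U) ^ 2 / 16)) +
      ∑ y ∈ Finset.range (⌈U⌉₊ + 1), Real.exp 1 *
        ∑' n : ℕ, ((1 + Real.log n) ^ 2 / n * Real.exp (-(Real.log n - y) ^ 2 / 16)) := by
    rw [tsum_congr e, (h U).1.tsum_add (summable_sum hs2), Summable.tsum_finsetSum hs2]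
    congr 1
    exact Finset.sum_congr rfl fun y _ => tsum_mul_left
  rw [e2]
  have h3 : ∀ y ∈ Finset.range (⌈U⌉₊ + 1), Real.exp 1 *
      ∑' n : ℕ, ((1 + Real.log n) ^ 2 / n * Real.exp (-(Real.log n - y) ^ 2 / 16)) ≤
      64 * Real.exp 1 * C * (1 + U) ^ 6 := by
    intro y hy
    have h4 : (y : ℝ) ≤ 1 + U := by
      have h5 : y ≤ ⌈U⌉₊ := by
        have := Finset.mem_range.1 hy
        omega
      have h6 : (y : ℝ) ≤ (⌈U⌉₊ : ℝ) := by exact_mod_cast h5
      have h7 := (Nat.ceil_lt_add_one hU).le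
      linarith
    have h5 : (1 + |(y : ℝ)|) ^ 6 ≤ (2 * (1 + U)) ^ 6 := by
      apply pow_le_pow_left₀ (by positivity)
      rw [abs_of_nonneg (Nat.cast_nonneg y)]
      linarith
    calc Real.exp 1 * ∑' n : ℕ, ((1 + Real.log n) ^ 2 / n * Real.exp (-(Real.log n - y) ^ 2 / 16))
        ≤ Real.exp 1 * (C * (1 + |(y : ℝ)|) ^ 6) := mul_le_mul_of_nonneg_left (h y).2 (Real.exp_pos _).le
      _ ≤ Real.exp 1 * (C * (2 * (1 + U)) ^ 6) := by
          apply mul_le_mul_of_nonneg_left _ (Real.exp_pos _).le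
          exact mul_le_mul_of_nonneg_left h5 (by linarith)
      _ = _ := by ring
  have h4 := Finset.sum_le_sum h3
  rw [Finset.sum_const, Finset.card_range, nsmul_eq_mul] at h4
  have h5 : ((⌈U⌉₊ + 1 : ℕ) : ℝ) ≤ 2 * (1 + U) := by
    push_cast
    have h7 := (Nat.ceil_lt_add_one hU).le
    linarith
  have h6 : ((⌈U⌉₊ + 1 : ℕ) : ℝ) * (64 * Real.exp 1 * C * (1 + U) ^ 6) ≤
      2 * (1 + U) * (64 * Real.exp 1 * C * (1 + U) ^ 6) :=
    mul_le_mul_of_nonneg_right h5 (by positivity)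
  have h7 := (h U).2
  rw [abs_of_nonneg hU] at h7
  have h8 : C * (1 + U) ^ 6 ≤ C * (1 + U) ^ 7 := by
    apply mul_le_mul_of_nonneg_left _ (by linarith)
    exact pow_le_pow_right₀ (by linarith) (by norm_num)
  calc _ ≤ C * (1 + U) ^ 7 + 2 * (1 + U) * (64 * Real.exp 1 * C * (1 + U) ^ 6) := by linarith
    _ = _ := by ring

end HLA

namespace HLA

open MeasureTheory ArithmeticFunction SMC

private theorem TF_WW {σ : ℝ} (hσ : 0 < σ) (hσ1 : σ ≤ 1) (c x : ℝ) : WW σ c x ≤ Real.exp (-(x - c) ^ 2 / 2) := by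
  unfold WW
  apply Real.exp_le_exp.2
  rw [neg_div, neg_div, neg_le_neg_iff]
  apply div_le_div_of_nonneg_left (sq_nonneg _) (by positivity)
  nlinarith

/-- the trivial bound for the sum -/
private theorem TF_H : ∃ C : ℝ, 1 ≤ C ∧ ∀ (σ c l B : ℝ) (D : ℝ → ℝ) (j : ℕ), 0 < σ → σ ≤ 1 → (∀ x, |D x| ≤ B) → j ≤ 1 →
    Summable (fun e : ℕ => Real.log e ^ j * (e : ℝ)⁻¹ * (WW σ c (l + Real.log e) * D (l + Real.log e))) ∧
    |∑' e : ℕ, Real.log e ^ j * (e : ℝ)⁻¹ * (WW σ c (l + Real.log e) * D (l + Real.log e))| ≤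
      B * (C * (1 + |c - l|) ^ 6) := by
  obtain ⟨C, hC, hd⟩ := TF_dg
  refine ⟨C, hC, fun σ c l B D j hσ hσ1 hD hj => ?_⟩
  obtain ⟨h1, h2⟩ := hd (c - l)
  have hB : 0 ≤ B := (abs_nonneg _).trans (hD 0)
  have h3 : ∀ e : ℕ, ‖Real.log e ^ j * (e : ℝ)⁻¹ * (WW σ c (l + Real.log e) * D (l + Real.log e))‖ ≤
      B * ((1 + Real.log e) ^ 2 / e * Real.exp (-(Real.log e - (c - l)) ^ 2 / 16)) := by
    intro e
    have hl : 0 ≤ Real.log (e : ℝ) := Real.log_natCast_nonneg e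
    have h4 : |Real.log (e : ℝ) ^ j| ≤ (1 + Real.log e) ^ 2 := by
      rw [abs_of_nonneg (by positivity)]
      interval_cases j
      · rw [pow_zero]; nlinarith
      · rw [pow_one]; nlinarith
    have h5 : WW σ c (l + Real.log e) ≤ Real.exp (-(Real.log e - (c - l)) ^ 2 / 16) := by
      refine (TF_WW hσ hσ1 _ _).trans (Real.exp_le_exp.2 ?_)
      nlinarith [sq_nonneg (l + Real.log e - c)]
    rw [norm_mul, norm_mul, norm_mul, Real.norm_eq_abs, Real.norm_eq_abs, Real.norm_eq_abs, Real.norm_eq_abs,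
      abs_of_nonneg (WW_nonneg _ _ _), abs_of_nonneg (by positivity : 0 ≤ (e : ℝ)⁻¹)]
    calc |Real.log (e : ℝ) ^ j| * (e : ℝ)⁻¹ * (WW σ c (l + Real.log e) * |D (l + Real.log e)|)
        ≤ (1 + Real.log e) ^ 2 * (e : ℝ)⁻¹ * (Real.exp (-(Real.log e - (c - l)) ^ 2 / 16) * B) := by
          apply mul_le_mul
          · exact mul_le_mul_of_nonneg_right h4 (by positivity)
          · exact mul_le_mul h5 (hD _) (abs_nonneg _) (Real.exp_pos _).le
          · exact mul_nonneg (WW_nonneg _ _ _) (abs_nonneg _)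
          · positivity
      _ = _ := by rw [div_eq_mul_inv]; ring
  have h6 : Summable (fun e : ℕ => B * ((1 + Real.log e) ^ 2 / e * Real.exp (-(Real.log e - (c - l)) ^ 2 / 16))) :=
    h1.mul_left _
  refine ⟨Summable.of_norm_bounded h6 h3, ?_⟩
  rw [← Real.norm_eq_abs]
  refine (tsum_of_norm_bounded h6.hasSum h3).trans ?_
  rw [tsum_mul_left]
  exact mul_le_mul_of_nonneg_left h2 hB

private theorem TF_J {σ c B : ℝ} {D : ℝ → ℝ} (hσ : 0 < σ) (hσ1 : σ ≤ 1) (hc : Continuous D) (hD : ∀ x, |D x| ≤ B) :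
    Integrable (fun x => WW σ c x * D x) ∧ |∫ x, WW σ c x * D x| ≤ 3 * B ∧
    Integrable (fun x => x * (WW σ c x * D x)) ∧ |∫ x, x * (WW σ c x * D x)| ≤ B * (3 * |c| + 4) := by
  have hB : 0 ≤ B := (abs_nonneg _).trans (hD 0)
  obtain ⟨i1, i2⟩ := WW_int hσ c
  have hs2 : 0 < Real.sqrt 2 := by positivity
  obtain ⟨i3, i4⟩ := WW_int hs2 c
  have hpi := Real.pi_pos
  have hpi4 := Real.pi_lt_d2
  have b1 : Real.sqrt (2 * Real.pi) * σ ≤ 3 := by
    have : Real.sqrt (2 * Real.pi) ≤ 3 := by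
      rw [Real.sqrt_le_left (by norm_num)]
      linarith
    have h0 : 0 ≤ Real.sqrt (2 * Real.pi) := Real.sqrt_nonneg _
    nlinarith
  have b2 : Real.sqrt (2 * Real.pi) * Real.sqrt 2 ≤ 4 := by
    rw [← Real.sqrt_mul (by positivity)]
    rw [Real.sqrt_le_left (by norm_num)]
    linarith
  have hm : AEStronglyMeasurable (fun x => WW σ c x * D x) volume := ((WW_cont σ c).mul hc).aestronglyMeasurable
  have hm1 : AEStronglyMeasurable (fun x => x * (WW σ c x * D x)) volume :=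
    (continuous_id.mul ((WW_cont σ c).mul hc)).aestronglyMeasurable
  have h1 : ∀ x, ‖WW σ c x * D x‖ ≤ B * WW σ c x := by
    intro x
    rw [norm_mul, Real.norm_eq_abs, Real.norm_eq_abs, abs_of_nonneg (WW_nonneg _ _ _), mul_comm]
    exact mul_le_mul_of_nonneg_right (hD x) (WW_nonneg _ _ _)
  have h2 : ∀ x, ‖x * (WW σ c x * D x)‖ ≤ B * (|c| * WW σ c x + WW (Real.sqrt 2) c x) := by
    intro x
    have hW : |x - c| * WW σ c x ≤ WW (Real.sqrt 2) c x := by
      have e1 : WW (Real.sqrt 2) c x = Real.exp (-(x - c) ^ 2 / 4) := by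
        unfold WW
        rw [Real.sq_sqrt (by norm_num)]
        norm_num
      have e2 : |x - c| ≤ Real.exp ((x - c) ^ 2 / 4) := by
        have := Real.add_one_le_exp ((x - c) ^ 2 / 4)
        have h3 : |x - c| ^ 2 = (x - c) ^ 2 := sq_abs _
        nlinarith [sq_nonneg (|x - c| / 2 - 1)]
      rw [e1]
      calc |x - c| * WW σ c x ≤ Real.exp ((x - c) ^ 2 / 4) * Real.exp (-(x - c) ^ 2 / 2) :=
            mul_le_mul e2 (TF_WW hσ hσ1 c x) (WW_nonneg _ _ _) (Real.exp_pos _).le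
        _ = Real.exp (-(x - c) ^ 2 / 4) := by
            rw [← Real.exp_add]
            congr 1
            ring
    have hx : |x| ≤ |c| + |x - c| := by
      have := abs_add_le c (x - c)
      rwa [add_sub_cancel] at this
    rw [norm_mul, Real.norm_eq_abs]
    calc |x| * ‖WW σ c x * D x‖ ≤ |x| * (B * WW σ c x) := mul_le_mul_of_nonneg_left (h1 x) (abs_nonneg _)
      _ ≤ (|c| + |x - c|) * (B * WW σ c x) := mul_le_mul_of_nonneg_right hx (mul_nonneg hB (WW_nonneg _ _ _))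
      _ = B * (|c| * WW σ c x + |x - c| * WW σ c x) := by ring
      _ ≤ B * (|c| * WW σ c x + WW (Real.sqrt 2) c x) := mul_le_mul_of_nonneg_left (by linarith) hB
  have j1 : Integrable (fun x => B * WW σ c x) := i1.const_mul B
  have j2 : Integrable (fun x => B * (|c| * WW σ c x + WW (Real.sqrt 2) c x)) := ((i1.const_mul _).add i3).const_mul B
  refine ⟨Integrable.mono' j1 hm (Filter.Eventually.of_forall h1), ?_, Integrable.mono' j2 hm1 (Filter.Eventually.of_forall h2), ?_⟩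
  · rw [← Real.norm_eq_abs]
    refine (norm_integral_le_of_norm_le j1 (Filter.Eventually.of_forall h1)).trans ?_
    rw [integral_const_mul, i2]
    nlinarith
  · rw [← Real.norm_eq_abs]
    refine (norm_integral_le_of_norm_le j2 (Filter.Eventually.of_forall h2)).trans ?_
    rw [integral_const_mul, integral_add (i1.const_mul _) i3, integral_const_mul, i2, i4]
    apply mul_le_mul_of_nonneg_left _ hB
    have := abs_nonneg c
    nlinarith

private theorem TF_I0 (σ c l : ℝ) (D : ℝ → ℝ) :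
    ∫ v, v ^ 0 * (WW σ c (l + v) * D (l + v)) = ∫ x, WW σ c x * D x := by
  rw [← integral_add_left_eq_self (fun x => WW σ c x * D x) l]
  refine integral_congr_ae (Filter.Eventually.of_forall fun v => ?_)
  simp

private theorem TF_I1 {σ c B : ℝ} (l : ℝ) {D : ℝ → ℝ} (hσ : 0 < σ) (hσ1 : σ ≤ 1) (hc : Continuous D)
    (hD : ∀ x, |D x| ≤ B) : ∫ v, v ^ 1 * (WW σ c (l + v) * D (l + v)) =
      (∫ x, x * (WW σ c x * D x)) - l * ∫ x, WW σ c x * D x := by
  obtain ⟨i1, -, i3, -⟩ := TF_J (c := c) hσ hσ1 hc hD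
  rw [← integral_const_mul, ← integral_sub i3 (i1.const_mul l),
    ← integral_add_left_eq_self (fun x => x * (WW σ c x * D x) - l * (WW σ c x * D x)) l]
  refine integral_congr_ae (Filter.Eventually.of_forall fun v => ?_)
  simp only
  ring

private theorem TF_Ib {σ c B l : ℝ} {D : ℝ → ℝ} {j : ℕ} (hσ : 0 < σ) (hσ1 : σ ≤ 1) (hc : Continuous D)
    (hD : ∀ x, |D x| ≤ B) (hj : j ≤ 1) (hl : 0 ≤ l) :
    |∫ v, v ^ j * (WW σ c (l + v) * D (l + v))| ≤ B * (4 * ((1 + |c|) * (1 + l))) := by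
  have hB : 0 ≤ B := (abs_nonneg _).trans (hD 0)
  obtain ⟨-, i2, -, i4⟩ := TF_J (c := c) hσ hσ1 hc hD
  have h0 := abs_nonneg c
  have h1 : 0 ≤ |c| * l := mul_nonneg h0 hl
  interval_cases j
  · rw [TF_I0]
    refine i2.trans ?_
    nlinarith [mul_nonneg hB h0, mul_nonneg hB hl, mul_nonneg hB h1]
  · rw [TF_I1 l hσ hσ1 hc hD]
    refine (abs_sub _ _).trans ?_
    rw [abs_mul, abs_of_nonneg hl]
    have h2 := mul_le_mul_of_nonneg_left i2 hl
    nlinarith [mul_nonneg hB h0, mul_nonneg hB hl, mul_nonneg hB h1]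

/-- the error in the replacement of the sum by the integral -/
private theorem TF_err {σ a1 b1 a2 b2 E : ℝ} (hE : 0 ≤ E) (hσ : 0 < σ) (hσ1 : σ ≤ 1) (ha1 : a1 ≠ 0) (ha2 : a2 ≠ 0) :
    ∃ C w1 : ℝ, 1 ≤ C ∧ 1 ≤ w1 ∧ ∀ w c δ : ℝ, w1 ≤ w → |c - w| ≤ E → Real.exp (-w - E) ≤ δ → δ ≤ Real.exp (-w + E) →
    ∀ (μ1 μ2 : Measure ℝ) (K : ℝ → ℝ) (j : ℕ) (l : ℝ), Adm δ (w ^ E) μ1 → Adm δ (w ^ E) μ2 → AdmK (w ^ E) K → j ≤ 1 →
    0 ≤ l →
    |(∑' e : ℕ, Real.log e ^ j * (e : ℝ)⁻¹ *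
      (WW σ c (l + Real.log e) * DD δ μ1 μ2 K a1 b1 a2 b2 (l + Real.log e))) -
      ∫ v, v ^ j * (WW σ c (l + v) * DD δ μ1 μ2 K a1 b1 a2 b2 (l + v))| ≤
      C * (w ^ E) ^ 3 * w ^ 6 * (1 + l) ^ 6 ∧
    (l ≤ w / 34 → |(∑' e : ℕ, Real.log e ^ j * (e : ℝ)⁻¹ *
      (WW σ c (l + Real.log e) * DD δ μ1 μ2 K a1 b1 a2 b2 (l + Real.log e))) -
      ∫ v, v ^ j * (WW σ c (l + v) * DD δ μ1 μ2 K a1 b1 a2 b2 (l + v))| ≤
      C * (w ^ E) ^ 3 * w ^ 6 * Real.exp (-(w / 16))) := by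
  obtain ⟨C1, hC1, ht⟩ := t1 (σ := σ) (a1 := a1) (b1 := b1) (a2 := a2) (b2 := b2) hσ ha1 ha2
  obtain ⟨C2, hC2, hH⟩ := TF_H
  refine ⟨(C2 + 4) * (2 + E) ^ 6 + C1 * (2 + E) * Real.exp (33 / 8 * E), 1 + 2 * E, ?_, by linarith, ?_⟩
  · have h1 : (1 : ℝ) ≤ (2 + E) ^ 6 := one_le_pow₀ (by linarith)
    have h2 : 0 ≤ C1 * (2 + E) * Real.exp (33 / 8 * E) := by positivity
    nlinarith
  intro w c δ hw hcw hδ1 hδ2 μ1 μ2 K j l hA1 hA2 hK hj hl
  have hw1 : 1 ≤ w := by linarith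
  have hB : 1 ≤ w ^ E := Real.one_le_rpow hw1 hE
  have hB3 : 1 ≤ (w ^ E) ^ 3 := one_le_pow₀ hB
  have hδ0 : 0 < δ := (Real.exp_pos _).trans_le hδ1
  have hδ11 : δ ≤ 1 := hδ2.trans (Real.exp_le_one_iff.2 (by linarith))
  have hDc := dd_cont hA1 hA2 hK a1 b1 a2 b2
  have hDb := fun x => dd_bound (by linarith : (0 : ℝ) ≤ w ^ E) hA1 hA2 hK a1 b1 a2 b2 x
  have hcw' := abs_le.1 hcw
  have hcpos : 0 ≤ c := by linarith
  have hc2 : 1 + |c| ≤ (2 + E) * w := by
    rw [abs_of_nonneg hcpos]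
    nlinarith
  have hX1 : 0 ≤ C1 * (2 + E) * Real.exp (33 / 8 * E) := by positivity
  have hX2 : 0 ≤ (C2 + 4) * (2 + E) ^ 6 := by positivity
  constructor
  · have e1 := (hH σ c l _ _ j hσ hσ1 hDb hj).2
    have e2 := TF_Ib (c := c) (j := j) (l := l) hσ hσ1 hDc hDb hj hl
    refine (abs_sub _ _).trans ((add_le_add e1 e2).trans ?_)
    have e3 : 1 + |c - l| ≤ (1 + |c|) * (1 + l) := by
      have := abs_sub c l
      rw [abs_of_nonneg hl] at this
      nlinarith [abs_nonneg c, mul_nonneg (abs_nonneg c) hl]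
    have e4 : (1 + |c - l|) ^ 6 ≤ ((1 + |c|) * (1 + l)) ^ 6 := pow_le_pow_left₀ (by positivity) e3 6
    have e5 : (1 + |c|) * (1 + l) ≤ ((1 + |c|) * (1 + l)) ^ 6 := by
      apply le_self_pow₀ _ (by norm_num)
      nlinarith [abs_nonneg c, mul_nonneg (abs_nonneg c) hl]
    have e6 : ((1 + |c|) * (1 + l)) ^ 6 ≤ (2 + E) ^ 6 * w ^ 6 * (1 + l) ^ 6 := by
      rw [mul_pow, ← mul_pow (2 + E)]
      exact mul_le_mul_of_nonneg_right (pow_le_pow_left₀ (by positivity) hc2 6) (by positivity)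
    calc (w ^ E) ^ 3 * (C2 * (1 + |c - l|) ^ 6) + (w ^ E) ^ 3 * (4 * ((1 + |c|) * (1 + l)))
        ≤ (w ^ E) ^ 3 * (C2 * ((1 + |c|) * (1 + l)) ^ 6) + (w ^ E) ^ 3 * (4 * ((1 + |c|) * (1 + l)) ^ 6) := by
          apply add_le_add
          · exact mul_le_mul_of_nonneg_left (mul_le_mul_of_nonneg_left e4 (by linarith)) (by linarith)
          · exact mul_le_mul_of_nonneg_left (mul_le_mul_of_nonneg_left e5 (by norm_num)) (by linarith)
      _ = (w ^ E) ^ 3 * (C2 + 4) * ((1 + |c|) * (1 + l)) ^ 6 := by ring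
      _ ≤ (w ^ E) ^ 3 * (C2 + 4) * ((2 + E) ^ 6 * w ^ 6 * (1 + l) ^ 6) :=
          mul_le_mul_of_nonneg_left e6 (by positivity)
      _ = ((C2 + 4) * (2 + E) ^ 6) * (w ^ E) ^ 3 * w ^ 6 * (1 + l) ^ 6 := by ring
      _ ≤ _ := by
          apply mul_le_mul_of_nonneg_right _ (by positivity)
          apply mul_le_mul_of_nonneg_right _ (by positivity)
          apply mul_le_mul_of_nonneg_right _ (by positivity)
          linarith
  · intro hlw
    have e1 := (ht δ (w ^ E) c l μ1 μ2 K j hδ0 hδ11 hB hA1 hA2 hK hj (by linarith)).2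
    refine e1.trans ?_
    have e2 : 1 + (c - l) ≤ (2 + E) * w := by
      rw [abs_of_nonneg hcpos] at hc2
      linarith
    have e3 : 1 / δ ^ 2 ≤ Real.exp (2 * w + 2 * E) := by
      rw [div_le_iff₀ (by positivity)]
      have h1 : Real.exp (-w - E) ^ 2 ≤ δ ^ 2 := pow_le_pow_left₀ (Real.exp_pos _).le hδ1 2
      have h2 : Real.exp (2 * w + 2 * E) * Real.exp (-w - E) ^ 2 = 1 := by
        rw [← Real.exp_nat_mul, ← Real.exp_add]
        rw [Real.exp_eq_one_iff]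
        push_cast
        ring
      rw [← h2]
      exact mul_le_mul_of_nonneg_left h1 (Real.exp_pos _).le
    have e4 : Real.exp (-(17 / 8) * (c - l)) ≤ Real.exp (-(17 / 8) * (w - E - w / 34)) := by
      apply Real.exp_le_exp.2
      linarith
    have e5 : Real.exp (2 * w + 2 * E) * Real.exp (-(17 / 8) * (w - E - w / 34)) =
        Real.exp (33 / 8 * E) * Real.exp (-(w / 16)) := by
      rw [← Real.exp_add, ← Real.exp_add]
      congr 1
      ring
    have hcl : 0 ≤ 1 + (c - l) := by linarith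
    have hw6 : w ≤ w ^ 6 := le_self_pow₀ hw1 (by norm_num)
    calc C1 * (1 + (c - l)) * (w ^ E) ^ 3 / δ ^ 2 * Real.exp (-(17 / 8) * (c - l))
        = C1 * (1 + (c - l)) * (w ^ E) ^ 3 * (1 / δ ^ 2 * Real.exp (-(17 / 8) * (c - l))) := by ring
      _ ≤ C1 * ((2 + E) * w) * (w ^ E) ^ 3 *
            (Real.exp (2 * w + 2 * E) * Real.exp (-(17 / 8) * (w - E - w / 34))) := by
          apply mul_le_mul
          · exact mul_le_mul_of_nonneg_right (mul_le_mul_of_nonneg_left e2 (by linarith)) (by positivity)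
          · exact mul_le_mul e3 e4 (Real.exp_pos _).le (Real.exp_pos _).le
          · positivity
          · positivity
      _ = (C1 * (2 + E) * Real.exp (33 / 8 * E)) * (w ^ E) ^ 3 * w * Real.exp (-(w / 16)) := by
          rw [e5]; ring
      _ ≤ (C1 * (2 + E) * Real.exp (33 / 8 * E)) * (w ^ E) ^ 3 * w ^ 6 * Real.exp (-(w / 16)) := by
          apply mul_le_mul_of_nonneg_right _ (Real.exp_pos _).le
          exact mul_le_mul_of_nonneg_left hw6 (by positivity)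
      _ ≤ _ := by
          apply mul_le_mul_of_nonneg_right _ (Real.exp_pos _).le
          apply mul_le_mul_of_nonneg_right _ (by positivity)
          apply mul_le_mul_of_nonneg_right _ (by positivity)
          linarith

end HLA

namespace HLA

open MeasureTheory ArithmeticFunction SMC

private noncomputable def TF_gM (U : ℝ) (d : ℕ) : ℝ := (moebius d : ℝ) * (1 - ASI.hM U (Real.log d)) / d

private noncomputable def TF_gL (U : ℝ) (a : ℕ) : ℝ := vonMangoldt a * (1 - ASI.hL U (Real.log a)) / a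

private theorem TF_core {ι : Type*} {g H I m : ι → ℝ} {ε : ℝ} (hm : Summable m)
    (hb : ∀ i, |g i| * |H i - I i| ≤ ε * m i) (hgH : Summable fun i => g i * H i) :
    Summable (fun i => g i * I i) ∧ |(∑' i, g i * H i) - ∑' i, g i * I i| ≤ ε * ∑' i, m i := by
  have h1 : ∀ i, ‖g i * H i - g i * I i‖ ≤ ε * m i := by
    intro i
    rw [← mul_sub, norm_mul, Real.norm_eq_abs, Real.norm_eq_abs]
    exact hb i
  have h2 : Summable (fun i => g i * H i - g i * I i) := Summable.of_norm_bounded (hm.mul_left ε) h1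
  have h3 : Summable (fun i => g i * I i) := by
    have := hgH.sub h2
    simpa using this
  refine ⟨h3, ?_⟩
  rw [← hgH.tsum_sub h3, ← Real.norm_eq_abs, ← tsum_mul_left]
  exact tsum_of_norm_bounded (hm.mul_left ε).hasSum h1

private theorem TF_gM_abs (U : ℝ) (d : ℕ) : |TF_gM U d| ≤ (1 - ASI.hM U (Real.log d)) / d := by
  unfold TF_gM
  have h1 : 0 ≤ 1 - ASI.hM U (Real.log d) := (TF_cutM U).1 _
  have h2 : |(moebius d : ℝ)| ≤ 1 := by
    have := abs_moebius_le_one (n := d)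
    exact_mod_cast this
  rw [abs_div, abs_mul, abs_of_nonneg h1, Nat.abs_cast]
  apply div_le_div_of_nonneg_right _ (Nat.cast_nonneg d)
  nlinarith

private theorem TF_gL_abs (U : ℝ) (a : ℕ) : |TF_gL U a| ≤ (1 + Real.log a) * (1 - ASI.hL U (Real.log a)) / a := by
  unfold TF_gL
  have h1 : 0 ≤ 1 - ASI.hL U (Real.log a) := (TF_cutL U).1 _
  rw [abs_div, abs_mul, abs_of_nonneg h1, Nat.abs_cast, abs_of_nonneg vonMangoldt_nonneg]
  apply div_le_div_of_nonneg_right _ (Nat.cast_nonneg a)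
  apply mul_le_mul_of_nonneg_right _ h1
  linarith [vonMangoldt_le_log (n := a)]

private theorem TF_gM_k (U : ℝ) (d : ℕ) : |TF_gM U d| * (1 + Real.log d) ≤ TF_k U d := by
  have hl : 0 ≤ Real.log (d : ℝ) := Real.log_natCast_nonneg d
  have h1 := TF_cut_m (TF_cutM U) hl
  have h0 := (TF_cutM U).1 (Real.log d)
  have hm := (TF_mj_pos U (Real.log d)).le
  calc |TF_gM U d| * (1 + Real.log d) ≤ (1 - ASI.hM U (Real.log d)) / d * (1 + Real.log d) :=
        mul_le_mul_of_nonneg_right (TF_gM_abs U d) (by linarith)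
    _ ≤ TF_mj U (Real.log d) / d * (1 + Real.log d) ^ 2 := by
        apply mul_le_mul _ _ (by linarith) (by positivity)
        · exact div_le_div_of_nonneg_right h1 (Nat.cast_nonneg d)
        · nlinarith
    _ = TF_k U d := by unfold TF_k; ring

private theorem TF_gL_k (U : ℝ) (a : ℕ) : |TF_gL U a| ≤ TF_k U a := by
  have hl : 0 ≤ Real.log (a : ℝ) := Real.log_natCast_nonneg a
  have h1 := TF_cut_m (TF_cutL U) hl
  have h0 := (TF_cutL U).1 (Real.log a)
  have hm := (TF_mj_pos U (Real.log a)).le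
  calc |TF_gL U a| ≤ (1 + Real.log a) * (1 - ASI.hL U (Real.log a)) / a := TF_gL_abs U a
    _ ≤ (1 + Real.log a) ^ 2 * TF_mj U (Real.log a) / a := by
        apply div_le_div_of_nonneg_right _ (Nat.cast_nonneg a)
        exact mul_le_mul (by nlinarith) h1 h0 (by positivity)
    _ = TF_k U a := by unfold TF_k; ring

private theorem TF_gM_k' (U : ℝ) (d : ℕ) : |TF_gM U d| ≤ TF_k U d := by
  have hl : 0 ≤ Real.log (d : ℝ) := Real.log_natCast_nonneg d
  refine le_trans ?_ (TF_gM_k U d)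
  nlinarith [abs_nonneg (TF_gM U d)]

/-- `S2` as an iterated sum -/
private theorem TF_S2 {U B σ c : ℝ} {D : ℝ → ℝ} (hU : 0 ≤ U)
    (hφ : ∀ n : ℕ, |ph σ c D n| ≤ B * (n : ℝ)⁻¹ * Real.exp (-(Real.log n - c) ^ 2 / 8)) :
    Summable (fun d : ℕ => TF_gM U d * ∑' e : ℕ, Real.log e ^ 1 * (e : ℝ)⁻¹ *
      (WW σ c (Real.log d + Real.log e) * D (Real.log d + Real.log e))) ∧
    S2 U (ph σ c D) = ∑' d : ℕ, TF_gM U d * ∑' e : ℕ, Real.log e ^ 1 * (e : ℝ)⁻¹ *
      (WW σ c (Real.log d + Real.log e) * D (Real.log d + Real.log e)) := by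
  have hs := (vau_summ (c := c) hU hφ).2.1
  have e : ∀ q : ℕ × ℕ, (moebius q.1 : ℝ) * (1 - ASI.hM U (Real.log q.1)) * Real.log q.2 * ph σ c D (q.1 * q.2) =
      TF_gM U q.1 * (Real.log q.2 ^ 1 * (q.2 : ℝ)⁻¹ *
      (WW σ c (Real.log q.1 + Real.log q.2) * D (Real.log q.1 + Real.log q.2))) := by
    rintro ⟨d, e⟩
    rcases Nat.eq_zero_or_pos d with h | h
    · subst h; simp [TF_gM]
    rcases Nat.eq_zero_or_pos e with h' | h'
    · subst h'; simp
    have hd : (d : ℝ) ≠ 0 := by exact_mod_cast h.ne'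
    have he : (e : ℝ) ≠ 0 := by exact_mod_cast h'.ne'
    unfold ph TF_gM
    simp only
    rw [Nat.cast_mul, Real.log_mul hd he, mul_inv]
    ring
  have hs' : Summable (fun q : ℕ × ℕ => TF_gM U q.1 * (Real.log q.2 ^ 1 * (q.2 : ℝ)⁻¹ *
      (WW σ c (Real.log q.1 + Real.log q.2) * D (Real.log q.1 + Real.log q.2)))) := hs.congr e
  have e2 : S2 U (ph σ c D) = ∑' q : ℕ × ℕ, TF_gM U q.1 * (Real.log q.2 ^ 1 * (q.2 : ℝ)⁻¹ *
      (WW σ c (Real.log q.1 + Real.log q.2) * D (Real.log q.1 + Real.log q.2))) := by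
    unfold S2
    exact tsum_congr e
  have h1 := hs'.prod
  simp only [tsum_mul_left] at h1
  refine ⟨h1, ?_⟩
  rw [e2, hs'.tsum_prod]
  exact tsum_congr fun d => by dsimp only; rw [tsum_mul_left]

/-- `S3` as an iterated sum -/
private theorem TF_S3 {U B σ c : ℝ} {D : ℝ → ℝ} (hU : 0 ≤ U)
    (hφ : ∀ n : ℕ, |ph σ c D n| ≤ B * (n : ℝ)⁻¹ * Real.exp (-(Real.log n - c) ^ 2 / 8)) :
    Summable (fun r : ℕ × ℕ => (TF_gL U r.1 * TF_gM U r.2) * ∑' e : ℕ, Real.log e ^ 0 * (e : ℝ)⁻¹ *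
      (WW σ c ((Real.log r.1 + Real.log r.2) + Real.log e) * D ((Real.log r.1 + Real.log r.2) + Real.log e))) ∧
    S3 U (ph σ c D) = ∑' r : ℕ × ℕ, (TF_gL U r.1 * TF_gM U r.2) * ∑' e : ℕ, Real.log e ^ 0 * (e : ℝ)⁻¹ *
      (WW σ c ((Real.log r.1 + Real.log r.2) + Real.log e) * D ((Real.log r.1 + Real.log r.2) + Real.log e)) := by
  have hs := (vau_summ (c := c) hU hφ).2.2.1
  have e : ∀ q : (ℕ × ℕ) × ℕ, vonMangoldt q.1.1 * (1 - ASI.hL U (Real.log q.1.1)) *
      ((moebius q.1.2 : ℝ) * (1 - ASI.hM U (Real.log q.1.2))) * ph σ c D (q.1.1 * (q.1.2 * q.2)) =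
      (TF_gL U q.1.1 * TF_gM U q.1.2) * (Real.log q.2 ^ 0 * (q.2 : ℝ)⁻¹ *
      (WW σ c ((Real.log q.1.1 + Real.log q.1.2) + Real.log q.2) *
        D ((Real.log q.1.1 + Real.log q.1.2) + Real.log q.2))) := by
    rintro ⟨⟨a, b⟩, e⟩
    rcases Nat.eq_zero_or_pos a with h | h
    · subst h; simp [TF_gL]
    rcases Nat.eq_zero_or_pos b with h' | h'
    · subst h'; simp [TF_gM]
    rcases Nat.eq_zero_or_pos e with h'' | h''
    · subst h''; simp [ph]
    have ha : (a : ℝ) ≠ 0 := by exact_mod_cast h.ne'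
    have hb : (b : ℝ) ≠ 0 := by exact_mod_cast h'.ne'
    have he : (e : ℝ) ≠ 0 := by exact_mod_cast h''.ne'
    unfold ph TF_gM TF_gL
    simp only
    rw [Nat.cast_mul, Nat.cast_mul, Real.log_mul ha (mul_ne_zero hb he), Real.log_mul hb he, mul_inv, mul_inv,
      ← add_assoc]
    ring
  have hs1 := (Equiv.prodAssoc ℕ ℕ ℕ).summable_iff.2 hs
  have hs' : Summable (fun q : (ℕ × ℕ) × ℕ => (TF_gL U q.1.1 * TF_gM U q.1.2) * (Real.log q.2 ^ 0 * (q.2 : ℝ)⁻¹ *
      (WW σ c ((Real.log q.1.1 + Real.log q.1.2) + Real.log q.2) *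
        D ((Real.log q.1.1 + Real.log q.1.2) + Real.log q.2)))) := hs1.congr e
  have e2 : S3 U (ph σ c D) = ∑' q : (ℕ × ℕ) × ℕ, (TF_gL U q.1.1 * TF_gM U q.1.2) * (Real.log q.2 ^ 0 * (q.2 : ℝ)⁻¹ *
      (WW σ c ((Real.log q.1.1 + Real.log q.1.2) + Real.log q.2) *
        D ((Real.log q.1.1 + Real.log q.1.2) + Real.log q.2))) := by
    unfold S3
    rw [← (Equiv.prodAssoc ℕ ℕ ℕ).tsum_eq]
    exact tsum_congr e
  have h1 := hs'.prod
  simp only [tsum_mul_left] at h1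
  refine ⟨h1, ?_⟩
  rw [e2, hs'.tsum_prod]
  exact tsum_congr fun d => by dsimp only; rw [tsum_mul_left]

/-- the coefficient estimate for `S1` -/
private theorem TF_S1c {σ c w E x : ℝ} (hσ : 0 < σ) (hσ1 : σ ≤ 1) (hE : 0 ≤ E) (hw : 1 + 4 * E ≤ w) (hc : |c - w| ≤ E) :
    (1 - ASI.hL (w / 200) x) * WW σ c x ≤ Real.exp (-(w / 1000000)) * Real.exp (-(x - c) ^ 2 / 16) := by
  have hc' := abs_le.1 hc
  have h0 := (TF_cutL (w / 200)).1 x
  have h1 := (TF_cutL (w / 200)).2.1 x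
  have hW := TF_WW hσ hσ1 c x
  have hww : w ≤ w ^ 2 := by nlinarith
  rcases le_or_gt (w / 2) x with h | h
  · have h2 := (TF_cutL (w / 200)).2.2 x (by linarith)
    calc _ ≤ Real.exp (-(x - w / 200) ^ 2 / 8) * Real.exp (-(x - c) ^ 2 / 2) :=
          mul_le_mul h2 hW (WW_nonneg _ _ _) (Real.exp_pos _).le
      _ ≤ _ := by
          apply mul_le_mul _ _ (Real.exp_pos _).le (Real.exp_pos _).le
          · apply Real.exp_le_exp.2
            have h3 : 0.495 * w ≤ x - w / 200 := by linarith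
            have h4 : (0.495 * w) ^ 2 ≤ (x - w / 200) ^ 2 := pow_le_pow_left₀ (by linarith) h3 2
            nlinarith
          · apply Real.exp_le_exp.2
            nlinarith [sq_nonneg (x - c)]
  · calc _ ≤ 1 * Real.exp (-(x - c) ^ 2 / 2) := mul_le_mul h1 hW (WW_nonneg _ _ _) zero_le_one
      _ ≤ _ := by
          rw [one_mul, ← Real.exp_add]
          apply Real.exp_le_exp.2
          have h3 : w / 4 ≤ c - x := by linarith
          have h4 : (w / 4) ^ 2 ≤ (c - x) ^ 2 := pow_le_pow_left₀ (by linarith) h3 2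
          nlinarith

/-- the elementary part of the estimate of the errors, one variable -/
private theorem TF_e1 {w X err : ℝ} {d : ℕ} (hw : 1 ≤ w) (hX : 0 ≤ X) (h0 : 0 ≤ err)
    (h1 : err ≤ X * (1 + Real.log d) ^ 6) (h2 : Real.log d ≤ w / 34 → err ≤ X * Real.exp (-(w / 16))) :
    |TF_gM (w / 200) d| * err ≤ (X * (720 * Real.exp 26) * Real.exp (-(w / 1000000))) * TF_k (w / 200) d := by
  have hl : 0 ≤ Real.log (d : ℝ) := Real.log_natCast_nonneg d
  have hK : (1 : ℝ) ≤ 720 * Real.exp 26 := by nlinarith [Real.one_le_exp (show (0 : ℝ) ≤ 26 by norm_num)]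
  have hg := TF_gM_abs (w / 200) d
  have hm := (TF_mj_pos (w / 200) (Real.log d)).le
  have hk : TF_mj (w / 200) (Real.log d) / d ≤ TF_k (w / 200) d := by
    unfold TF_k
    rw [div_mul_eq_mul_div]
    apply div_le_div_of_nonneg_right _ (Nat.cast_nonneg d)
    exact le_mul_of_one_le_left hm (by nlinarith)
  have hk0 := TF_k_nonneg (w / 200) d
  rcases le_or_gt (Real.log (d : ℝ)) (w / 34) with h | h
  · have h3 := TF_gM_k' (w / 200) d
    calc |TF_gM (w / 200) d| * err ≤ TF_k (w / 200) d * (X * Real.exp (-(w / 16))) :=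
          mul_le_mul h3 (h2 h) h0 hk0
      _ ≤ TF_k (w / 200) d * (X * Real.exp (-(w / 1000000))) := by
          apply mul_le_mul_of_nonneg_left _ hk0
          apply mul_le_mul_of_nonneg_left _ hX
          apply Real.exp_le_exp.2
          linarith
      _ = 1 * (TF_k (w / 200) d * (X * Real.exp (-(w / 1000000)))) := (one_mul _).symm
      _ ≤ (720 * Real.exp 26) * (TF_k (w / 200) d * (X * Real.exp (-(w / 1000000)))) :=
          mul_le_mul_of_nonneg_right hK (by positivity)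
      _ = _ := by ring
  · have h3 := TF_far (by linarith) (TF_cutM (w / 200)) (l := Real.log d) (by linarith)
    have hn : (0 : ℝ) ≤ d := Nat.cast_nonneg d
    calc |TF_gM (w / 200) d| * err ≤ (1 - ASI.hM (w / 200) (Real.log d)) / d * (X * (1 + Real.log d) ^ 6) :=
          mul_le_mul hg h1 h0 (le_trans (abs_nonneg _) hg)
      _ = X * (((1 - ASI.hM (w / 200) (Real.log d)) * (1 + Real.log d) ^ 6) / d) := by ring
      _ ≤ X * ((720 * Real.exp 26 * Real.exp (-(w ^ 2 / 1000000)) * TF_mj (w / 200) (Real.log d)) / d) := by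
          apply mul_le_mul_of_nonneg_left _ hX
          exact div_le_div_of_nonneg_right h3 hn
      _ = (X * (720 * Real.exp 26) * Real.exp (-(w ^ 2 / 1000000))) * (TF_mj (w / 200) (Real.log d) / d) := by ring
      _ ≤ (X * (720 * Real.exp 26) * Real.exp (-(w / 1000000))) * TF_k (w / 200) d := by
          apply mul_le_mul _ hk (by positivity) (by positivity)
          apply mul_le_mul_of_nonneg_left _ (by positivity)
          apply Real.exp_le_exp.2
          nlinarith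

/-- the same with two variables -/
private theorem TF_e2 {w X err : ℝ} {a b : ℕ} (hw : 1 ≤ w) (hX : 0 ≤ X) (h0 : 0 ≤ err)
    (h1 : err ≤ X * (1 + (Real.log a + Real.log b)) ^ 6)
    (h2 : Real.log a + Real.log b ≤ w / 34 → err ≤ X * Real.exp (-(w / 16))) :
    |TF_gL (w / 200) a * TF_gM (w / 200) b| * err ≤
      (X * (720 * Real.exp 26) ^ 2 * (1 + w) ^ 6 * Real.exp (-(w / 1000000))) *
        (TF_k (w / 200) a * TF_k (w / 200) b) := by
  have hla : 0 ≤ Real.log (a : ℝ) := Real.log_natCast_nonneg a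
  have hlb : 0 ≤ Real.log (b : ℝ) := Real.log_natCast_nonneg b
  have hK : (1 : ℝ) ≤ 720 * Real.exp 26 := by nlinarith [Real.one_le_exp (show (0 : ℝ) ≤ 26 by norm_num)]
  have hK2 : (1 : ℝ) ≤ (720 * Real.exp 26) ^ 2 * (1 + w) ^ 6 := by
    have h3 : (1 : ℝ) ≤ (720 * Real.exp 26) ^ 2 := one_le_pow₀ hK
    have h4 : (1 : ℝ) ≤ (1 + w) ^ 6 := one_le_pow₀ (by linarith)
    nlinarith
  have hka := TF_k_nonneg (w / 200) a
  have hkb := TF_k_nonneg (w / 200) b
  have hma := (TF_mj_pos (w / 200) (Real.log a)).le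
  have hmb := (TF_mj_pos (w / 200) (Real.log b)).le
  rw [abs_mul]
  rcases le_or_gt (Real.log (a : ℝ) + Real.log b) (w / 34) with h | h
  · calc |TF_gL (w / 200) a| * |TF_gM (w / 200) b| * err
        ≤ TF_k (w / 200) a * TF_k (w / 200) b * (X * Real.exp (-(w / 16))) := by
          apply mul_le_mul _ (h2 h) h0 (by positivity)
          exact mul_le_mul (TF_gL_k _ _) (TF_gM_k' _ _) (abs_nonneg _) hka
      _ ≤ TF_k (w / 200) a * TF_k (w / 200) b * (X * Real.exp (-(w / 1000000))) := by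
          apply mul_le_mul_of_nonneg_left _ (by positivity)
          apply mul_le_mul_of_nonneg_left _ hX
          apply Real.exp_le_exp.2
          linarith
      _ = 1 * (TF_k (w / 200) a * TF_k (w / 200) b * (X * Real.exp (-(w / 1000000)))) := (one_mul _).symm
      _ ≤ ((720 * Real.exp 26) ^ 2 * (1 + w) ^ 6) *
          (TF_k (w / 200) a * TF_k (w / 200) b * (X * Real.exp (-(w / 1000000)))) :=
          mul_le_mul_of_nonneg_right hK2 (by positivity)
      _ = _ := by ring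
  · -- the product of the two factors
    have hga := TF_gL_abs (w / 200) a
    have hgb := TF_gM_abs (w / 200) b
    have hLa := (TF_cutL (w / 200)).1 (Real.log a)
    have hMb := (TF_cutM (w / 200)).1 (Real.log b)
    have hexp : Real.exp (-(w ^ 2 / 1000000)) ≤ Real.exp (-(w / 1000000)) := by
      apply Real.exp_le_exp.2
      nlinarith
    have hprod : ((1 - ASI.hL (w / 200) (Real.log a)) * (1 + Real.log a) ^ 6) *
        ((1 - ASI.hM (w / 200) (Real.log b)) * (1 + Real.log b) ^ 6) ≤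
        ((720 * Real.exp 26) ^ 2 * (1 + w) ^ 6 * Real.exp (-(w / 1000000))) *
          (TF_mj (w / 200) (Real.log a) * TF_mj (w / 200) (Real.log b)) := by
      rcases le_or_gt (Real.log (a : ℝ)) (w / 68) with h' | h'
      · have h3 := TF_far (by linarith) (TF_cutM (w / 200)) (l := Real.log b) (by linarith)
        have h4 := TF_all (by linarith) (TF_cutL (w / 200)) hla
        calc _ ≤ (720 * Real.exp 26 * (1 + w) ^ 6 * TF_mj (w / 200) (Real.log a)) *
              (720 * Real.exp 26 * Real.exp (-(w ^ 2 / 1000000)) * TF_mj (w / 200) (Real.log b)) :=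
              mul_le_mul h4 h3 (by positivity) (by positivity)
          _ = ((720 * Real.exp 26) ^ 2 * (1 + w) ^ 6 * Real.exp (-(w ^ 2 / 1000000))) *
              (TF_mj (w / 200) (Real.log a) * TF_mj (w / 200) (Real.log b)) := by ring
          _ ≤ _ := by
              apply mul_le_mul_of_nonneg_right _ (by positivity)
              exact mul_le_mul_of_nonneg_left hexp (by positivity)
      · have h3 := TF_far (by linarith) (TF_cutL (w / 200)) (l := Real.log a) h'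
        have h4 := TF_all (by linarith) (TF_cutM (w / 200)) hlb
        calc _ ≤ (720 * Real.exp 26 * Real.exp (-(w ^ 2 / 1000000)) * TF_mj (w / 200) (Real.log a)) *
              (720 * Real.exp 26 * (1 + w) ^ 6 * TF_mj (w / 200) (Real.log b)) :=
              mul_le_mul h3 h4 (by positivity) (by positivity)
          _ = ((720 * Real.exp 26) ^ 2 * (1 + w) ^ 6 * Real.exp (-(w ^ 2 / 1000000))) *
              (TF_mj (w / 200) (Real.log a) * TF_mj (w / 200) (Real.log b)) := by ring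
          _ ≤ _ := by
              apply mul_le_mul_of_nonneg_right _ (by positivity)
              exact mul_le_mul_of_nonneg_left hexp (by positivity)
    have h6 : (1 + (Real.log (a : ℝ) + Real.log b)) ^ 6 ≤ (1 + Real.log a) ^ 6 * (1 + Real.log b) ^ 6 := by
      rw [← mul_pow]
      apply pow_le_pow_left₀ (by positivity)
      nlinarith [mul_nonneg hla hlb]
    have hk' : ((1 + Real.log (a : ℝ)) / a) * (1 / (b : ℝ)) *
        (TF_mj (w / 200) (Real.log a) * TF_mj (w / 200) (Real.log b)) ≤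
        TF_k (w / 200) a * TF_k (w / 200) b := by
      have h7 : (1 + Real.log (a : ℝ)) / a * TF_mj (w / 200) (Real.log a) ≤ TF_k (w / 200) a := by
        unfold TF_k
        apply mul_le_mul_of_nonneg_right _ hma
        apply div_le_div_of_nonneg_right _ (Nat.cast_nonneg a)
        nlinarith
      have h8 : 1 / (b : ℝ) * TF_mj (w / 200) (Real.log b) ≤ TF_k (w / 200) b := by
        unfold TF_k
        apply mul_le_mul_of_nonneg_right _ hmb
        apply div_le_div_of_nonneg_right _ (Nat.cast_nonneg b)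
        nlinarith
      calc _ = ((1 + Real.log (a : ℝ)) / a * TF_mj (w / 200) (Real.log a)) *
            (1 / (b : ℝ) * TF_mj (w / 200) (Real.log b)) := by ring
        _ ≤ _ := mul_le_mul h7 h8 (by positivity) hka
    calc |TF_gL (w / 200) a| * |TF_gM (w / 200) b| * err
        ≤ ((1 + Real.log a) * (1 - ASI.hL (w / 200) (Real.log a)) / a) *
            ((1 - ASI.hM (w / 200) (Real.log b)) / b) * (X * ((1 + Real.log a) ^ 6 * (1 + Real.log b) ^ 6)) := by
          apply mul_le_mul _ (h1.trans (mul_le_mul_of_nonneg_left h6 hX)) h0 (by positivity)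
          exact mul_le_mul hga hgb (abs_nonneg _) (le_trans (abs_nonneg _) hga)
      _ = (X * (((1 + Real.log a) / a) * (1 / b))) *
            (((1 - ASI.hL (w / 200) (Real.log a)) * (1 + Real.log a) ^ 6) *
            ((1 - ASI.hM (w / 200) (Real.log b)) * (1 + Real.log b) ^ 6)) := by ring
      _ ≤ (X * (((1 + Real.log a) / a) * (1 / b))) *
            (((720 * Real.exp 26) ^ 2 * (1 + w) ^ 6 * Real.exp (-(w / 1000000))) *
          (TF_mj (w / 200) (Real.log a) * TF_mj (w / 200) (Real.log b))) :=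
          mul_le_mul_of_nonneg_left hprod (by positivity)
      _ = (X * (720 * Real.exp 26) ^ 2 * (1 + w) ^ 6 * Real.exp (-(w / 1000000))) *
            (((1 + Real.log (a : ℝ)) / a) * (1 / (b : ℝ)) *
        (TF_mj (w / 200) (Real.log a) * TF_mj (w / 200) (Real.log b))) := by ring
      _ ≤ _ := mul_le_mul_of_nonneg_left hk' (by positivity)

end HLA

namespace HLA

open MeasureTheory ArithmeticFunction SMC

/-- `S1` is small -/
private theorem TF_S1 : ∃ C : ℝ, 1 ≤ C ∧ ∀ (σ c w E B : ℝ) (D : ℝ → ℝ), 0 < σ → σ ≤ 1 → 0 ≤ E → 1 + 4 * E ≤ w →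
    |c - w| ≤ E → (∀ x, |D x| ≤ B) →
    |S1 (w / 200) (ph σ c D)| ≤ B * Real.exp (-(w / 1000000)) * (C * (1 + |c|) ^ 6) := by
  obtain ⟨C, hC, hd⟩ := TF_dg
  refine ⟨C, hC, fun σ c w E B D hσ hσ1 hE hw hc hD => ?_⟩
  obtain ⟨h1, h2⟩ := hd c
  have hB : 0 ≤ B := (abs_nonneg _).trans (hD 0)
  have h3 : ∀ n : ℕ, ‖vonMangoldt n * (1 - ASI.hL (w / 200) (Real.log n)) * ph σ c D n‖ ≤
      (B * Real.exp (-(w / 1000000))) * ((1 + Real.log n) ^ 2 / n * Real.exp (-(Real.log n - c) ^ 2 / 16)) := by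
    intro n
    have hl : 0 ≤ Real.log (n : ℝ) := Real.log_natCast_nonneg n
    have hL := (TF_cutL (w / 200)).1 (Real.log n)
    have h4 := TF_S1c (x := Real.log n) hσ hσ1 hE hw hc
    have h5 : vonMangoldt n ≤ (1 + Real.log n) ^ 2 := by
      have := vonMangoldt_le_log (n := n)
      nlinarith
    unfold ph
    rw [norm_mul, norm_mul, norm_mul, norm_mul, Real.norm_eq_abs, Real.norm_eq_abs, Real.norm_eq_abs, Real.norm_eq_abs,
      Real.norm_eq_abs, abs_of_nonneg vonMangoldt_nonneg, abs_of_nonneg hL, abs_of_nonneg (WW_nonneg _ _ _),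
      abs_of_nonneg (by positivity : 0 ≤ (n : ℝ)⁻¹)]
    calc vonMangoldt n * (1 - ASI.hL (w / 200) (Real.log n)) * ((n : ℝ)⁻¹ * WW σ c (Real.log n) * |D (Real.log n)|)
        = (vonMangoldt n * (n : ℝ)⁻¹) * ((1 - ASI.hL (w / 200) (Real.log n)) * WW σ c (Real.log n)) *
            |D (Real.log n)| := by ring
      _ ≤ ((1 + Real.log n) ^ 2 * (n : ℝ)⁻¹) *
            (Real.exp (-(w / 1000000)) * Real.exp (-(Real.log n - c) ^ 2 / 16)) * B := by
          apply mul_le_mul _ (hD _) (abs_nonneg _) (by positivity)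
          apply mul_le_mul _ h4 (mul_nonneg hL (WW_nonneg _ _ _)) (by positivity)
          exact mul_le_mul_of_nonneg_right h5 (by positivity)
      _ = _ := by rw [div_eq_mul_inv]; ring
  have h6 : Summable (fun n : ℕ => (B * Real.exp (-(w / 1000000))) *
      ((1 + Real.log n) ^ 2 / n * Real.exp (-(Real.log n - c) ^ 2 / 16))) := h1.mul_left _
  unfold S1
  rw [← Real.norm_eq_abs]
  refine (tsum_of_norm_bounded h6.hasSum h3).trans ?_
  rw [tsum_mul_left]
  exact mul_le_mul_of_nonneg_left h2 (by positivity)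

private theorem TF_ph {σ c B : ℝ} {D : ℝ → ℝ} (hσ : 0 < σ) (hσ1 : σ ≤ 1) (hD : ∀ x, |D x| ≤ B) (n : ℕ) :
    |ph σ c D n| ≤ B * (n : ℝ)⁻¹ * Real.exp (-(Real.log n - c) ^ 2 / 8) := by
  have hB : 0 ≤ B := (abs_nonneg _).trans (hD 0)
  have hW : WW σ c (Real.log n) ≤ Real.exp (-(Real.log n - c) ^ 2 / 8) := by
    refine (TF_WW hσ hσ1 _ _).trans (Real.exp_le_exp.2 ?_)
    nlinarith [sq_nonneg (Real.log (n : ℝ) - c)]
  unfold ph
  rw [abs_mul, abs_mul, abs_of_nonneg (WW_nonneg _ _ _), abs_of_nonneg (by positivity : 0 ≤ (n : ℝ)⁻¹)]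
  calc (n : ℝ)⁻¹ * WW σ c (Real.log n) * |D (Real.log n)|
      ≤ (n : ℝ)⁻¹ * Real.exp (-(Real.log n - c) ^ 2 / 8) * B := by
        apply mul_le_mul _ (hD _) (abs_nonneg _) (by positivity)
        exact mul_le_mul_of_nonneg_left hW (by positivity)
    _ = _ := by ring

theorem t1f {σ a1 b1 a2 b2 : ℝ} (E A : ℝ) (hσ : 0 < σ) (hσ1 : σ ≤ 1) (ha1 : a1 ≠ 0) (ha2 : a2 ≠ 0) : ∃ w0 M : ℝ, 1 ≤ w0 ∧
    ∀ w : ℝ, w0 ≤ w → ∃ p q : ℝ, |p| ≤ w ^ M ∧ |q| ≤ w ^ M ∧ ∀ c δ : ℝ, |c - w| ≤ E →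
    Real.exp (-w - E) ≤ δ → δ ≤ Real.exp (-w + E) → ∀ (μ1 μ2 : Measure ℝ) (K : ℝ → ℝ),
    Adm δ (w ^ E) μ1 → Adm δ (w ^ E) μ2 → AdmK (w ^ E) K →
    |S1 (w / 200) (ph σ c (DD δ μ1 μ2 K a1 b1 a2 b2)) + S2 (w / 200) (ph σ c (DD δ μ1 μ2 K a1 b1 a2 b2)) -
      S3 (w / 200) (ph σ c (DD δ μ1 μ2 K a1 b1 a2 b2)) -
      ∫ x, (p * x + q) * (WW σ c x * DD δ μ1 μ2 K a1 b1 a2 b2 x)| ≤ w ^ (-A) := by
  rcases lt_or_ge E 0 with hE | hE
  · refine ⟨1, 0, le_rfl, fun w _ => ⟨0, 0, by simp, by simp, fun c δ hc => ?_⟩⟩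
    exact absurd (abs_nonneg (c - w)) (by linarith)
  obtain ⟨C1, w1, hC1, hw1, herr⟩ := TF_err (b1 := b1) (b2 := b2) hE hσ hσ1 ha1 ha2
  obtain ⟨C2, hC2, hks⟩ := TF_ksum
  obtain ⟨C3, hC3, hS1⟩ := TF_S1
  set K0 : ℝ := 720 * Real.exp 26 with hK0
  have hK01 : 1 ≤ K0 := by
    rw [hK0]
    nlinarith [Real.one_le_exp (show (0 : ℝ) ≤ 26 by norm_num)]
  set CC : ℝ := C3 * (2 + E) ^ 6 + 2 ^ 7 * (C1 * K0 * C2) + 2 ^ 20 * (C1 * K0 ^ 2 * C2 ^ 2) with hCC
  have hCC0 : 0 < CC := by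
    rw [hCC]
    have h1 : 0 < C1 := by linarith
    have h2 : 0 < C2 := by linarith
    have h3 : 0 < C3 := by linarith
    have h4 : 0 < K0 := by linarith
    positivity
  -- the final choice of `w0`
  have hlim := tendsto_rpow_mul_exp_neg_mul_atTop_nhds_zero (26 + 3 * E + A) (1 / 1000000) (by norm_num)
  have hev := hlim.eventually (gt_mem_nhds (by positivity : (0 : ℝ) < 1 / CC))
  obtain ⟨w2, hw2⟩ := Filter.eventually_atTop.1 hev
  refine ⟨max (max w1 w2) (max (1 + 4 * E) (2 ^ 15 * C2 ^ 2)), 15, ?_, ?_⟩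
  · exact le_trans hw1 ((le_max_left _ _).trans (le_max_left _ _))
  intro w hw
  have hww1 : w1 ≤ w := ((le_max_left _ _).trans (le_max_left _ _)).trans hw
  have hww2 : w2 ≤ w := ((le_max_right _ _).trans (le_max_left _ _)).trans hw
  have hww3 : 1 + 4 * E ≤ w := ((le_max_left _ _).trans (le_max_right _ _)).trans hw
  have hww4 : 2 ^ 15 * C2 ^ 2 ≤ w := ((le_max_right _ _).trans (le_max_right _ _)).trans hw
  have hw1' : 1 ≤ w := hw1.trans hww1
  have hw0 : 0 < w := by linarith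
  have hU : 0 ≤ w / 200 := by positivity
  obtain ⟨hk, hkS⟩ := hks (w / 200) hU
  set S : ℝ := ∑' n, TF_k (w / 200) n with hSdef
  have hS0 : 0 ≤ S := tsum_nonneg fun n => TF_k_nonneg _ n
  have hSle : S ≤ C2 * (1 + w) ^ 7 := by
    refine hkS.trans (mul_le_mul_of_nonneg_left ?_ (by linarith))
    exact pow_le_pow_left₀ (by positivity) (by linarith) 7
  have hkk : Summable (fun r : ℕ × ℕ => TF_k (w / 200) r.1 * TF_k (w / 200) r.2) :=
    hk.mul_of_nonneg hk (fun n => TF_k_nonneg _ n) (fun n => TF_k_nonneg _ n)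
  have hkkS : ∑' r : ℕ × ℕ, TF_k (w / 200) r.1 * TF_k (w / 200) r.2 = S ^ 2 := by
    rw [sq, hSdef]
    exact (tsum_mul_tsum_of_summable_norm hk.norm hk.norm).symm
  -- the coefficients
  have hgM : Summable (TF_gM (w / 200)) := Summable.of_norm_bounded hk fun d => by
    rw [Real.norm_eq_abs]; exact TF_gM_k' _ d
  have hgMl : Summable (fun d : ℕ => TF_gM (w / 200) d * Real.log d) := Summable.of_norm_bounded hk fun d => by
    have hl : 0 ≤ Real.log (d : ℝ) := Real.log_natCast_nonneg d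
    rw [norm_mul, Real.norm_eq_abs, Real.norm_eq_abs, abs_of_nonneg hl]
    refine le_trans ?_ (TF_gM_k _ d)
    exact mul_le_mul_of_nonneg_left (by linarith) (abs_nonneg _)
  have hgLM : Summable (fun r : ℕ × ℕ => TF_gL (w / 200) r.1 * TF_gM (w / 200) r.2) :=
    Summable.of_norm_bounded hkk fun r => by
      rw [norm_mul, Real.norm_eq_abs, Real.norm_eq_abs]
      exact mul_le_mul (TF_gL_k _ _) (TF_gM_k' _ _) (abs_nonneg _) (TF_k_nonneg _ _)
  have hs0 : |∑' d, TF_gM (w / 200) d| ≤ S := by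
    rw [← Real.norm_eq_abs]
    exact tsum_of_norm_bounded hk.hasSum fun d => by rw [Real.norm_eq_abs]; exact TF_gM_k' _ d
  have hs1 : |∑' d : ℕ, TF_gM (w / 200) d * Real.log d| ≤ S := by
    rw [← Real.norm_eq_abs]
    refine tsum_of_norm_bounded hk.hasSum fun d => ?_
    have hl : 0 ≤ Real.log (d : ℝ) := Real.log_natCast_nonneg d
    rw [norm_mul, Real.norm_eq_abs, Real.norm_eq_abs, abs_of_nonneg hl]
    refine le_trans ?_ (TF_gM_k _ d)
    exact mul_le_mul_of_nonneg_left (by linarith) (abs_nonneg _)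
  have hs2 : |∑' r : ℕ × ℕ, TF_gL (w / 200) r.1 * TF_gM (w / 200) r.2| ≤ S ^ 2 := by
    rw [← Real.norm_eq_abs, ← hkkS]
    refine tsum_of_norm_bounded hkk.hasSum fun r => ?_
    rw [norm_mul, Real.norm_eq_abs, Real.norm_eq_abs]
    exact mul_le_mul (TF_gL_k _ _) (TF_gM_k' _ _) (abs_nonneg _) (TF_k_nonneg _ _)
  have h2w : 1 + w ≤ 2 * w := by linarith
  have hSw : S ≤ C2 * (2 ^ 7 * w ^ 7) := by
    refine hSle.trans (mul_le_mul_of_nonneg_left ?_ (by linarith))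
    rw [← mul_pow]
    exact pow_le_pow_left₀ (by positivity) h2w 7
  have hS2w : S ^ 2 ≤ C2 ^ 2 * (2 ^ 14 * w ^ 14) := by
    calc S ^ 2 ≤ (C2 * (2 ^ 7 * w ^ 7)) ^ 2 := pow_le_pow_left₀ hS0 hSw 2
      _ = _ := by ring
  have hS1w : S ≤ C2 ^ 2 * (2 ^ 14 * w ^ 14) := by
    refine hSw.trans ?_
    apply mul_le_mul
    · nlinarith
    · have h3 : w ^ 7 ≤ w ^ 14 := pow_le_pow_right₀ hw1' (by norm_num)
      have h4 : (0 : ℝ) < w ^ 7 := by positivity
      nlinarith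
    · positivity
    · positivity
  have h15 : 2 * (C2 ^ 2 * (2 ^ 14 * w ^ 14)) ≤ w ^ (15 : ℝ) := by
    have e : w ^ (15 : ℝ) = w * w ^ 14 := by
      have : ((15 : ℕ) : ℝ) = 15 := by norm_num
      rw [← this, Real.rpow_natCast]
      ring
    rw [e]
    calc 2 * (C2 ^ 2 * (2 ^ 14 * w ^ 14)) = (2 ^ 15 * C2 ^ 2) * w ^ 14 := by ring
      _ ≤ w * w ^ 14 := mul_le_mul_of_nonneg_right hww4 (by positivity)
  refine ⟨∑' d, TF_gM (w / 200) d, -(∑' d : ℕ, TF_gM (w / 200) d * Real.log d) -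
    ∑' r : ℕ × ℕ, TF_gL (w / 200) r.1 * TF_gM (w / 200) r.2, ?_, ?_, ?_⟩
  · have h3 : 0 ≤ C2 ^ 2 * (2 ^ 14 * w ^ 14) := by positivity
    linarith
  · have h3 := abs_sub (-(∑' d : ℕ, TF_gM (w / 200) d * Real.log d))
      (∑' r : ℕ × ℕ, TF_gL (w / 200) r.1 * TF_gM (w / 200) r.2)
    rw [abs_neg] at h3
    linarith
  intro c δ hc hδ1 hδ2 μ1 μ2 K hA1 hA2 hK
  have hB1 : 1 ≤ w ^ E := Real.one_le_rpow hw1' hE
  set B : ℝ := (w ^ E) ^ 3 with hBdef
  have hB : 1 ≤ B := one_le_pow₀ hB1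
  set D : ℝ → ℝ := DD δ μ1 μ2 K a1 b1 a2 b2 with hDdef
  have hDc : Continuous D := dd_cont hA1 hA2 hK a1 b1 a2 b2
  have hDb : ∀ x, |D x| ≤ B := fun x => dd_bound (by linarith : (0 : ℝ) ≤ w ^ E) hA1 hA2 hK a1 b1 a2 b2 x
  have hφ := fun n : ℕ => TF_ph (c := c) hσ hσ1 hDb n
  obtain ⟨i1, -, i3, -⟩ := TF_J (c := c) hσ hσ1 hDc hDb
  set J0 : ℝ := ∫ x, WW σ c x * D x with hJ0
  set J1 : ℝ := ∫ x, x * (WW σ c x * D x) with hJ1
  -- `S2`
  obtain ⟨q1, q2⟩ := TF_S2 (c := c) hU hφ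
  have hX0 : 0 ≤ C1 * B * w ^ 6 := by positivity
  have r1 : ∀ d : ℕ, |TF_gM (w / 200) d| * |(∑' e : ℕ, Real.log e ^ 1 * (e : ℝ)⁻¹ *
      (WW σ c (Real.log d + Real.log e) * D (Real.log d + Real.log e))) -
      ∫ v, v ^ 1 * (WW σ c (Real.log d + v) * D (Real.log d + v))| ≤
      (C1 * B * w ^ 6 * K0 * Real.exp (-(w / 1000000))) * TF_k (w / 200) d := by
    intro d
    obtain ⟨t1, t2⟩ := herr w c δ hww1 hc hδ1 hδ2 μ1 μ2 K 1 (Real.log d) hA1 hA2 hK le_rfl (Real.log_natCast_nonneg d)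
    exact TF_e1 hw1' hX0 (abs_nonneg _) t1 t2
  obtain ⟨-, u2⟩ := TF_core hk r1 q1
  have v2 : ∑' d : ℕ, TF_gM (w / 200) d * ∫ v, v ^ 1 * (WW σ c (Real.log d + v) * D (Real.log d + v)) =
      (∑' d, TF_gM (w / 200) d) * J1 - (∑' d : ℕ, TF_gM (w / 200) d * Real.log d) * J0 := by
    rw [← tsum_mul_right, ← tsum_mul_right, ← (hgM.mul_right J1).tsum_sub (hgMl.mul_right J0)]
    refine tsum_congr fun d => ?_
    rw [TF_I1 (Real.log d) hσ hσ1 hDc hDb]
    ring
  -- `S3`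
  obtain ⟨q3, q4⟩ := TF_S3 (c := c) hU hφ
  have r3 : ∀ r : ℕ × ℕ, |TF_gL (w / 200) r.1 * TF_gM (w / 200) r.2| * |(∑' e : ℕ, Real.log e ^ 0 * (e : ℝ)⁻¹ *
      (WW σ c ((Real.log r.1 + Real.log r.2) + Real.log e) * D ((Real.log r.1 + Real.log r.2) + Real.log e))) -
      ∫ v, v ^ 0 * (WW σ c ((Real.log r.1 + Real.log r.2) + v) * D ((Real.log r.1 + Real.log r.2) + v))| ≤
      (C1 * B * w ^ 6 * K0 ^ 2 * (1 + w) ^ 6 * Real.exp (-(w / 1000000))) *
        (TF_k (w / 200) r.1 * TF_k (w / 200) r.2) := by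
    intro r
    obtain ⟨t1, t2⟩ := herr w c δ hww1 hc hδ1 hδ2 μ1 μ2 K 0 (Real.log r.1 + Real.log r.2) hA1 hA2 hK (by norm_num)
      (add_nonneg (Real.log_natCast_nonneg _) (Real.log_natCast_nonneg _))
    exact TF_e2 hw1' hX0 (abs_nonneg _) t1 t2
  obtain ⟨-, u4⟩ := TF_core hkk r3 q3
  have v4 : ∑' r : ℕ × ℕ, (TF_gL (w / 200) r.1 * TF_gM (w / 200) r.2) *
      ∫ v, v ^ 0 * (WW σ c ((Real.log r.1 + Real.log r.2) + v) * D ((Real.log r.1 + Real.log r.2) + v)) =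
      (∑' r : ℕ × ℕ, TF_gL (w / 200) r.1 * TF_gM (w / 200) r.2) * J0 := by
    rw [← tsum_mul_right]
    exact tsum_congr fun r => by rw [TF_I0]
  have v5 := hS1 σ c w E B D hσ hσ1 hE hww3 hc hDb
  -- the main term
  have v6 : ∫ x, ((∑' d, TF_gM (w / 200) d) * x + (-(∑' d : ℕ, TF_gM (w / 200) d * Real.log d) -
      ∑' r : ℕ × ℕ, TF_gL (w / 200) r.1 * TF_gM (w / 200) r.2)) * (WW σ c x * D x) =
      (∑' d, TF_gM (w / 200) d) * J1 + (-(∑' d : ℕ, TF_gM (w / 200) d * Real.log d) -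
      ∑' r : ℕ × ℕ, TF_gL (w / 200) r.1 * TF_gM (w / 200) r.2) * J0 := by
    rw [hJ0, hJ1, ← integral_const_mul, ← integral_const_mul, ← integral_add (i3.const_mul _) (i1.const_mul _)]
    refine integral_congr_ae (Filter.Eventually.of_forall fun x => ?_)
    simp only
    ring
  rw [q2.symm, v2] at u2
  rw [q4.symm, v4, hkkS] at u4
  rw [v6]
  -- collecting
  set s0 : ℝ := ∑' d, TF_gM (w / 200) d
  set s1 : ℝ := ∑' d : ℕ, TF_gM (w / 200) d * Real.log d
  set s2 : ℝ := ∑' r : ℕ × ℕ, TF_gL (w / 200) r.1 * TF_gM (w / 200) r.2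
  have htri : |S1 (w / 200) (ph σ c D) + S2 (w / 200) (ph σ c D) - S3 (w / 200) (ph σ c D) -
      (s0 * J1 + (-s1 - s2) * J0)| ≤ |S1 (w / 200) (ph σ c D)| + |S2 (w / 200) (ph σ c D) - (s0 * J1 - s1 * J0)| +
      |S3 (w / 200) (ph σ c D) - s2 * J0| := by
    have e : S1 (w / 200) (ph σ c D) + S2 (w / 200) (ph σ c D) - S3 (w / 200) (ph σ c D) -
      (s0 * J1 + (-s1 - s2) * J0) = S1 (w / 200) (ph σ c D) + (S2 (w / 200) (ph σ c D) - (s0 * J1 - s1 * J0)) -
      (S3 (w / 200) (ph σ c D) - s2 * J0) := by ring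
    rw [e]
    exact (abs_sub _ _).trans (add_le_add (abs_add_le _ _) le_rfl)
  refine htri.trans ((add_le_add (add_le_add v5 u2) u4).trans ?_)
  have hcw' := abs_le.1 hc
  have hc2 : (1 + |c|) ^ 6 ≤ (2 + E) ^ 6 * w ^ 6 := by
    rw [← mul_pow]
    apply pow_le_pow_left₀ (by positivity)
    rw [abs_of_nonneg (by linarith)]
    nlinarith
  have hexp0 := Real.exp_pos (-(w / 1000000))
  have x1 : B * Real.exp (-(w / 1000000)) * (C3 * (1 + |c|) ^ 6) ≤
      B * Real.exp (-(w / 1000000)) * (C3 * (2 + E) ^ 6 * w ^ 26) := by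
    apply mul_le_mul_of_nonneg_left _ (by positivity)
    have h3 : w ^ 6 ≤ w ^ 26 := pow_le_pow_right₀ hw1' (by norm_num)
    calc C3 * (1 + |c|) ^ 6 ≤ C3 * ((2 + E) ^ 6 * w ^ 6) := mul_le_mul_of_nonneg_left hc2 (by linarith)
      _ ≤ C3 * ((2 + E) ^ 6 * w ^ 26) := by
          apply mul_le_mul_of_nonneg_left _ (by linarith)
          exact mul_le_mul_of_nonneg_left h3 (by positivity)
      _ = _ := by ring
  have x2 : C1 * B * w ^ 6 * K0 * Real.exp (-(w / 1000000)) * S ≤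
      B * Real.exp (-(w / 1000000)) * (2 ^ 7 * (C1 * K0 * C2) * w ^ 26) := by
    have h3 : w ^ 13 ≤ w ^ 26 := pow_le_pow_right₀ hw1' (by norm_num)
    calc C1 * B * w ^ 6 * K0 * Real.exp (-(w / 1000000)) * S
        ≤ C1 * B * w ^ 6 * K0 * Real.exp (-(w / 1000000)) * (C2 * (2 ^ 7 * w ^ 7)) :=
          mul_le_mul_of_nonneg_left hSw (by positivity)
      _ = B * Real.exp (-(w / 1000000)) * (2 ^ 7 * (C1 * K0 * C2) * w ^ 13) := by ring
      _ ≤ _ := by
          apply mul_le_mul_of_nonneg_left _ (by positivity)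
          exact mul_le_mul_of_nonneg_left h3 (by positivity)
  have x3 : C1 * B * w ^ 6 * K0 ^ 2 * (1 + w) ^ 6 * Real.exp (-(w / 1000000)) * S ^ 2 ≤
      B * Real.exp (-(w / 1000000)) * (2 ^ 20 * (C1 * K0 ^ 2 * C2 ^ 2) * w ^ 26) := by
    have h3 : (1 + w) ^ 6 ≤ 2 ^ 6 * w ^ 6 := by
      rw [← mul_pow]
      exact pow_le_pow_left₀ (by positivity) h2w 6
    calc C1 * B * w ^ 6 * K0 ^ 2 * (1 + w) ^ 6 * Real.exp (-(w / 1000000)) * S ^ 2
        ≤ C1 * B * w ^ 6 * K0 ^ 2 * (2 ^ 6 * w ^ 6) * Real.exp (-(w / 1000000)) * (C2 ^ 2 * (2 ^ 14 * w ^ 14)) := by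
          apply mul_le_mul _ hS2w (by positivity) (by positivity)
          apply mul_le_mul_of_nonneg_right _ hexp0.le
          exact mul_le_mul_of_nonneg_left h3 (by positivity)
      _ = _ := by ring
  have hfin := hw2 w hww2
  have e1 : B = w ^ (3 * E) := by
    rw [hBdef, ← Real.rpow_natCast, ← Real.rpow_mul hw0.le]
    congr 1
    push_cast
    ring
  have e2 : B * w ^ 26 = w ^ (26 + 3 * E + A) * w ^ (-A) := by
    rw [e1, ← Real.rpow_natCast, ← Real.rpow_add hw0, ← Real.rpow_add hw0]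
    congr 1
    push_cast
    ring
  calc B * Real.exp (-(w / 1000000)) * (C3 * (1 + |c|) ^ 6) +
        C1 * B * w ^ 6 * K0 * Real.exp (-(w / 1000000)) * S +
        C1 * B * w ^ 6 * K0 ^ 2 * (1 + w) ^ 6 * Real.exp (-(w / 1000000)) * S ^ 2
      ≤ B * Real.exp (-(w / 1000000)) * (C3 * (2 + E) ^ 6 * w ^ 26) +
        B * Real.exp (-(w / 1000000)) * (2 ^ 7 * (C1 * K0 * C2) * w ^ 26) +
        B * Real.exp (-(w / 1000000)) * (2 ^ 20 * (C1 * K0 ^ 2 * C2 ^ 2) * w ^ 26) :=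
        add_le_add (add_le_add x1 x2) x3
    _ = CC * (B * w ^ 26) * Real.exp (-(w / 1000000)) := by rw [hCC]; ring
    _ = CC * (w ^ (26 + 3 * E + A) * Real.exp (-(1 / 1000000) * w)) * w ^ (-A) := by
        rw [e2]
        have : -(w / 1000000) = -(1 / 1000000) * w := by ring
        rw [this]
        ring
    _ ≤ 1 * w ^ (-A) := by
        apply mul_le_mul_of_nonneg_right _ (Real.rpow_pos_of_pos hw0 _).le
        have h3 : w ^ (26 + 3 * E + A) * Real.exp (-(1 / 1000000) * w) ≤ 1 / CC := hfin.le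
        rw [le_div_iff₀ hCC0] at h3
        linarith
    _ = w ^ (-A) := one_mul _

end HLA
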