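import Pool.Agent.HLA.De
import Pool.Agent.HLA.Vau

/-!
# HLA.TSep: separation of the weight in the type II sum

PROOF. `s = σ/√2`: `WW s t x = exp(-(x-t)²/σ²)`. `∫ exp(-(x-t)²/σ²) exp(-(y-c+t)²/σ²) dt = σ √(π/2) exp(-(x+y-c)²/(2σ²))`, i.e.
`WW σ c (x + y) = (σ√(π/2))⁻¹ ∫ WW s t x · WW s (c - t) y dt`. `S4 U (ph σ c D) = ∑_{m,k} Λ(m) hL bt(k) (mk)⁻¹ WW σ c (log m + log k) D(log m + log k)` (both sides vanish for
`m k = 0`); insert the formula, interchange the sum with the integral (`integral_tsum`/`hasSum_integral_of_summable_integral_norm`: the norms are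
`Λ(m) |bt k| (mk)⁻¹ B WW s t (log m) WW s (c-t) (log k)`, whose integrals over `t` are `σ√(π/2)` times the summable family of `vau_summ` for `φ = ph σ c B`, with `|bt|` instead of `bt`:
use `ASI.bt_le` and `ASI.div_gauss`), and for fixed `t` the double sum is `TI U s c t D` (`muS_int`).
-/

namespace HLA

open MeasureTheory ArithmeticFunction SMC

/-- Grouping an absolutely convergent sum. -/
private theorem tsep_group {ι : Type*} (pr : ι → ℕ) (S : ℕ → Finset ι) (f : ι → ℝ)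
    (h1 : ∀ n, ∀ i ∈ S n, pr i = n) (h2 : ∀ i, f i ≠ 0 → i ∈ S (pr i))
    (hs : Summable fun n => ∑ i ∈ S n, ‖f i‖) :
    Summable f ∧ ∑' i, f i = ∑' n, ∑ i ∈ S n, f i := by
  have hfib : ∀ (g : ι → ℝ) (_ : ∀ i, g i ≠ 0 → i ∈ S (pr i))
      (n : ℕ), Summable (fun i : {i // pr i = n} => g i) ∧
        ∑' i : {i // pr i = n}, g i = ∑ i ∈ S n, g i := by
    intro g hg n
    have e1 : ∀ i ∉ S n, ({i | pr i = n} : Set ι).indicator g i = 0 := by
      intro i hi
      by_cases hp : pr i = n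
      · rw [Set.indicator_of_mem (show i ∈ {i | pr i = n} from hp)]
        by_contra hne
        exact hi (hp ▸ hg i hne)
      · rw [Set.indicator_of_notMem (show i ∉ {i | pr i = n} from hp)]
    have e2 : HasSum (({i | pr i = n} : Set ι).indicator g)
        (∑ i ∈ S n, ({i | pr i = n} : Set ι).indicator g i) := hasSum_sum_of_ne_finset_zero e1
    have e3 : ∑ i ∈ S n, ({i | pr i = n} : Set ι).indicator g i = ∑ i ∈ S n, g i :=
      Finset.sum_congr rfl fun i hi =>
        Set.indicator_of_mem (show i ∈ {i | pr i = n} from h1 n i hi) g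
    rw [e3] at e2
    have e4 : HasSum (fun i : {i // pr i = n} => g i) (∑ i ∈ S n, g i) :=
      (hasSum_subtype_iff_indicator (s := {i | pr i = n})).mpr e2
    exact ⟨e4.summable, e4.tsum_eq⟩
  have hnorm : Summable fun x : Σ n, {i // pr i = n} => ‖f (x.2 : ι)‖ := by
    rw [summable_sigma_of_nonneg (fun _ => norm_nonneg _)]
    refine ⟨fun n => (hfib (fun i => ‖f i‖) (fun i hi => h2 i (by simpa using hi)) n).1, ?_⟩
    refine hs.congr fun n => ?_
    exact ((hfib (fun i => ‖f i‖) (fun i hi => h2 i (by simpa using hi)) n).2).symm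
  have hsum : Summable fun x : Σ n, {i // pr i = n} => f (x.2 : ι) := hnorm.of_norm
  have hsf : Summable f := by
    rw [← (Equiv.sigmaFiberEquiv pr).summable_iff]
    exact hsum
  refine ⟨hsf, ?_⟩
  rw [← (Equiv.sigmaFiberEquiv pr).tsum_eq f]
  have e5 : ∑' x : Σ n, {i // pr i = n}, f ((Equiv.sigmaFiberEquiv pr) x) =
      ∑' x : Σ n, {i // pr i = n}, f (x.2 : ι) := rfl
  rw [e5, hsum.tsum_sigma]
  exact tsum_congr fun n => (hfib f h2 n).2

private noncomputable def tsep_w (B c : ℝ) (n : ℕ) : ℝ := B * (n : ℝ)⁻¹ * Real.exp (-(Real.log n - c) ^ 2 / 8)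

private theorem tsep_B {B c : ℝ} {φ : ℕ → ℝ}
    (hφ : ∀ n : ℕ, |φ n| ≤ B * (n : ℝ)⁻¹ * Real.exp (-(Real.log n - c) ^ 2 / 8)) : 0 ≤ B := by
  have h1 := (abs_nonneg _).trans (hφ 1)
  rw [Nat.cast_one, inv_one, mul_one] at h1
  exact nonneg_of_mul_nonneg_left h1 (Real.exp_pos _)

private theorem tsep_zero {B c : ℝ} {φ : ℕ → ℝ}
    (hφ : ∀ n : ℕ, |φ n| ≤ B * (n : ℝ)⁻¹ * Real.exp (-(Real.log n - c) ^ 2 / 8)) : φ 0 = 0 := by
  have h1 := hφ 0
  rw [Nat.cast_zero, inv_zero, mul_zero, zero_mul] at h1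
  exact abs_nonpos_iff.1 h1

private theorem tsep_w_nonneg {B : ℝ} (hB : 0 ≤ B) (c : ℝ) (n : ℕ) : 0 ≤ tsep_w B c n := by
  unfold tsep_w
  positivity

private theorem tsep_sumc {B : ℝ} (hB : 0 ≤ B) (c : ℝ) : Summable (fun n : ℕ =>
    (n.divisors.card : ℝ) * (1 + Real.log n) * tsep_w B c n) := by
  obtain ⟨C, _, h⟩ := ASI.div_gauss
  refine Summable.of_nonneg_of_le ?_ ?_ ((h c).1.mul_left B)
  · intro n
    have h1 : 0 ≤ Real.log (n : ℝ) := Real.log_natCast_nonneg n
    have h2 := tsep_w_nonneg hB c n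
    positivity
  · intro n
    rcases Nat.eq_zero_or_pos n with rfl | hn
    · simp
    · have h1 : 0 ≤ Real.log (n : ℝ) := Real.log_natCast_nonneg n
      have hd : (1 : ℝ) ≤ n.divisors.card := by
        have : 0 < n.divisors.card := Finset.card_pos.mpr ⟨1, Nat.one_mem_divisors.mpr hn.ne'⟩
        exact_mod_cast this
      have hps : Real.exp (-(Real.log n - c) ^ 2 / 8) ≤ Real.exp (-(Real.log n - c) ^ 2 / 16) := by
        apply Real.exp_le_exp.mpr
        nlinarith [sq_nonneg (Real.log (n : ℝ) - c)]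
      have h3 : (n.divisors.card : ℝ) * (1 + Real.log n) ≤
          (n.divisors.card : ℝ) ^ 2 * (1 + Real.log n) ^ 2 := by
        have h4 : (1 : ℝ) ≤ (n.divisors.card : ℝ) * (1 + Real.log n) := by nlinarith
        nlinarith
      have hn0 : (0 : ℝ) < n := by exact_mod_cast hn
      calc (n.divisors.card : ℝ) * (1 + Real.log n) * tsep_w B c n
          ≤ ((n.divisors.card : ℝ) ^ 2 * (1 + Real.log n) ^ 2) * tsep_w B c n :=
            mul_le_mul_of_nonneg_right h3 (tsep_w_nonneg hB c n)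
        _ ≤ ((n.divisors.card : ℝ) ^ 2 * (1 + Real.log n) ^ 2) *
            (B * (n : ℝ)⁻¹ * Real.exp (-(Real.log n - c) ^ 2 / 16)) := by
            refine mul_le_mul_of_nonneg_left ?_ (by positivity)
            unfold tsep_w
            exact mul_le_mul_of_nonneg_left hps (by positivity)
        _ = _ := by
            rw [div_eq_mul_inv]
            ring

private theorem tsep_gen {ι : Type*} {B c : ℝ} {φ : ℕ → ℝ}
    (hφ : ∀ n : ℕ, |φ n| ≤ B * (n : ℝ)⁻¹ * Real.exp (-(Real.log n - c) ^ 2 / 8)) (pr : ι → ℕ)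
    (S : ℕ → Finset ι) (a : ι → ℝ) (f : ι → ℝ) (h1 : ∀ n, ∀ i ∈ S n, pr i = n)
    (h2 : ∀ i, f i ≠ 0 → i ∈ S (pr i)) (h3 : ∀ n, ∀ i ∈ S n, f i = a i * φ n)
    (hb : ∀ n, ∑ i ∈ S n, |a i| ≤ (n.divisors.card : ℝ) * (1 + Real.log n)) :
    Summable f ∧ Summable (fun n : ℕ => (∑ i ∈ S n, a i) * φ n) ∧
      ∑' i, f i = ∑' n : ℕ, (∑ i ∈ S n, a i) * φ n := by
  have hB := tsep_B hφ
  have hw0 : ∀ n : ℕ, 0 ≤ tsep_w B c n := tsep_w_nonneg hB c
  have hs : Summable fun n => ∑ i ∈ S n, ‖f i‖ := by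
    refine Summable.of_nonneg_of_le (fun n => Finset.sum_nonneg fun i _ => norm_nonneg _) ?_
      (tsep_sumc hB c)
    intro n
    have e1 : ∑ i ∈ S n, ‖f i‖ = (∑ i ∈ S n, |a i|) * |φ n| := by
      rw [Finset.sum_mul]
      refine Finset.sum_congr rfl fun i hi => ?_
      rw [h3 n i hi, Real.norm_eq_abs, abs_mul]
    rw [e1]
    refine mul_le_mul (hb n) (hφ n) (abs_nonneg _) ?_
    exact (Finset.sum_nonneg fun i _ => abs_nonneg _).trans (hb n)
  obtain ⟨h4, h5⟩ := tsep_group pr S f h1 h2 hs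
  have e2 : ∀ n, ∑ i ∈ S n, f i = (∑ i ∈ S n, a i) * φ n := by
    intro n
    rw [Finset.sum_mul]
    exact Finset.sum_congr rfl fun i hi => h3 n i hi
  refine ⟨h4, ?_, ?_⟩
  · refine Summable.of_norm_bounded (g := fun n : ℕ =>
      (n.divisors.card : ℝ) * (1 + Real.log n) * tsep_w B c n) (tsep_sumc hB c) ?_
    intro n
    rw [Real.norm_eq_abs, abs_mul]
    refine mul_le_mul ((Finset.abs_sum_le_sum_abs _ _).trans (hb n)) (hφ n) (abs_nonneg _) ?_
    exact (Finset.sum_nonneg fun i _ => abs_nonneg _).trans (hb n)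
  · rw [h5]
    exact tsum_congr e2

private theorem tsep_card (n : ℕ) : ∑ q ∈ n.divisorsAntidiagonal, vonMangoldt q.1 =
    Real.log n := by
  rw [← vonMangoldt_sum, Nat.sum_divisorsAntidiagonal (f := fun i _ => vonMangoldt i)]

private theorem tsep_div_le {k n : ℕ} (hk : k ∣ n) (hn : n ≠ 0) :
    (k.divisors.card : ℝ) ≤ n.divisors.card := by
  exact_mod_cast Finset.card_le_card (Nat.divisors_subset_of_dvd hn hk)

private theorem tsep_bound (c : ℕ → ℝ) (hc : ∀ k, c k ≤ (k.divisors.card : ℝ)) (n : ℕ) :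
    ∑ q ∈ n.divisorsAntidiagonal, vonMangoldt q.1 * c q.2 ≤
      (n.divisors.card : ℝ) * (1 + Real.log n) := by
  have hlog : 0 ≤ Real.log (n : ℝ) := Real.log_natCast_nonneg n
  calc ∑ q ∈ n.divisorsAntidiagonal, vonMangoldt q.1 * c q.2
      ≤ ∑ q ∈ n.divisorsAntidiagonal, vonMangoldt q.1 * (n.divisors.card : ℝ) := by
        refine Finset.sum_le_sum fun q hq => mul_le_mul_of_nonneg_left ?_ vonMangoldt_nonneg
        obtain ⟨h1, h2⟩ := Nat.mem_divisorsAntidiagonal.mp hq
        exact (hc _).trans (tsep_div_le ⟨q.1, by rw [← h1, mul_comm]⟩ h2)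
    _ = (n.divisors.card : ℝ) * Real.log n := by
        rw [← Finset.sum_mul, tsep_card, mul_comm]
    _ ≤ _ := by
        refine mul_le_mul_of_nonneg_left (by linarith) (by positivity)

/-- absolute convergence of the double sum -/
private theorem tsep_summ {σ : ℝ} (hσ : 0 < σ) (hσ1 : σ ≤ 1) (c : ℝ) :
    Summable (fun q : ℕ × ℕ => vonMangoldt q.1 * (q.2.divisors.card : ℝ) *
      (((q.1 * q.2 : ℕ) : ℝ)⁻¹ * WW σ c (Real.log ((q.1 * q.2 : ℕ) : ℝ)))) := by
  have hφ : ∀ n : ℕ, |(n : ℝ)⁻¹ * WW σ c (Real.log n)| ≤ 1 * (n : ℝ)⁻¹ * Real.exp (-(Real.log n - c) ^ 2 / 8) := by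
    intro n
    have h1 := WW_nonneg σ c (Real.log n)
    rw [abs_of_nonneg (by positivity), one_mul]
    refine mul_le_mul_of_nonneg_left ?_ (by positivity)
    unfold WW
    refine Real.exp_le_exp.mpr ?_
    rw [neg_div, neg_div]
    refine neg_le_neg ?_
    refine div_le_div_of_nonneg_left (sq_nonneg _) (by positivity) ?_
    nlinarith
  refine (tsep_gen hφ (fun q : ℕ × ℕ => q.1 * q.2) (fun n => n.divisorsAntidiagonal)
    (fun q => vonMangoldt q.1 * (q.2.divisors.card : ℝ)) _ ?_ ?_ ?_ ?_).1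
  · intro n q hq
    exact (Nat.mem_divisorsAntidiagonal.mp hq).1
  · intro q hq
    rw [Nat.mem_divisorsAntidiagonal]
    refine ⟨rfl, ?_⟩
    intro h0
    apply hq
    try dsimp only at h0 ⊢
    rw [h0]
    simp
  · intro n q hq
    obtain ⟨h1, _⟩ := Nat.mem_divisorsAntidiagonal.mp hq
    try dsimp only
    rw [h1]
  · intro n
    refine le_trans (le_of_eq ?_) (tsep_bound (fun k => (k.divisors.card : ℝ)) (fun k => le_rfl) n)
    refine Finset.sum_congr rfl fun q _ => ?_
    exact abs_of_nonneg (mul_nonneg vonMangoldt_nonneg (Nat.cast_nonneg _))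

/-- the product of the two weights -/
private theorem tsep_prod {σ : ℝ} (hσ : 0 < σ) (c x y t : ℝ) :
    WW (σ / Real.sqrt 2) t x * WW (σ / Real.sqrt 2) (c - t) y =
      WW σ c (x + y) * Real.exp (-(2 / σ ^ 2) * (t - (x - y + c) / 2) ^ 2) := by
  unfold WW
  rw [← Real.exp_add, ← Real.exp_add, div_pow, Real.sq_sqrt (by norm_num)]
  congr 1
  field_simp
  ring

private theorem tsep_le {σ : ℝ} (hσ : 0 < σ) (c x y t : ℝ) :
    WW (σ / Real.sqrt 2) t x * WW (σ / Real.sqrt 2) (c - t) y ≤ WW σ c (x + y) := by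
  rw [tsep_prod hσ]
  have h1 : Real.exp (-(2 / σ ^ 2) * (t - (x - y + c) / 2) ^ 2) ≤ 1 := by
    rw [Real.exp_le_one_iff, neg_mul]
    have : 0 ≤ 2 / σ ^ 2 * (t - (x - y + c) / 2) ^ 2 := by positivity
    linarith
  exact mul_le_of_le_one_right (WW_nonneg _ _ _) h1

private theorem tsep_gauss {σ : ℝ} (hσ : 0 < σ) (c x y : ℝ) :
    Integrable (fun t => WW (σ / Real.sqrt 2) t x * WW (σ / Real.sqrt 2) (c - t) y) ∧
    ∫ t, WW (σ / Real.sqrt 2) t x * WW (σ / Real.sqrt 2) (c - t) y =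
      σ * Real.sqrt (Real.pi / 2) * WW σ c (x + y) := by
  have hb : (0 : ℝ) < 2 / σ ^ 2 := by positivity
  simp only [tsep_prod hσ]
  have h1 : Integrable (fun t : ℝ => Real.exp (-(2 / σ ^ 2) * (t - (x - y + c) / 2) ^ 2)) :=
    (integrable_exp_neg_mul_sq hb).comp_sub_right ((x - y + c) / 2)
  refine ⟨h1.const_mul _, ?_⟩
  rw [integral_const_mul, integral_sub_right_eq_self (fun t : ℝ => Real.exp (-(2 / σ ^ 2) * t ^ 2)),
    integral_gaussian]
  have h2 : Real.sqrt (Real.pi / (2 / σ ^ 2)) = σ * Real.sqrt (Real.pi / 2) := by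
    rw [show Real.pi / (2 / σ ^ 2) = σ ^ 2 * (Real.pi / 2) by field_simp, Real.sqrt_mul (sq_nonneg σ),
      Real.sqrt_sq hσ.le]
  rw [h2]
  ring

private theorem tsep_cont {σ : ℝ} (c x y : ℝ) :
    Continuous (fun t => WW (σ / Real.sqrt 2) t x * WW (σ / Real.sqrt 2) (c - t) y) := by
  unfold WW
  fun_prop

/-- integrability of a sum -/
private theorem tsep_tsum {ι : Type*} [Countable ι] {F : ι → ℝ → ℝ} {b : ι → ℝ} (hF : ∀ i, Continuous (F i))
    (hb : ∀ i t, |F i t| ≤ b i) (hbs : Summable b) (hi : ∀ i, Integrable (F i))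
    (hs : Summable fun i => ∫ t, ‖F i t‖) : Integrable (fun t => ∑' i, F i t) := by
  refine ⟨(continuous_tsum hF hbs fun i t => hb i t).aestronglyMeasurable, ?_⟩
  unfold HasFiniteIntegral
  refine lt_of_le_of_lt (lintegral_mono fun t => enorm_tsum_le_tsum_enorm) ?_
  rw [lintegral_tsum (fun i => (hi i).1.enorm)]
  have h1 : ∀ i, ∫⁻ t, ‖F i t‖ₑ = ENNReal.ofReal (∫ t, ‖F i t‖) := fun i =>
    (ofReal_integral_norm_eq_lintegral_enorm (hi i)).symm
  rw [tsum_congr h1, ← ENNReal.ofReal_tsum_of_nonneg (fun i => integral_nonneg fun t => norm_nonneg _) hs]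
  exact ENNReal.ofReal_lt_top

theorem t4_sep {σ U B : ℝ} (hσ : 0 < σ) (hσ1 : σ ≤ 1) (c : ℝ) {D : ℝ → ℝ} (hD : Continuous D) (hB : ∀ x, |D x| ≤ B) :
    Integrable (fun t => TI U (σ / Real.sqrt 2) c t D) ∧
    S4 U (ph σ c D) = (σ * Real.sqrt (Real.pi / 2))⁻¹ * ∫ t, TI U (σ / Real.sqrt 2) c t D := by
  set s : ℝ := σ / Real.sqrt 2 with hs
  have hs0 : 0 < s := by positivity
  have hs1 : s ≤ 1 := by
    rw [hs, div_le_one (by positivity)]
    refine hσ1.trans ?_
    rw [Real.one_le_sqrt]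
    norm_num
  have hB0 : 0 ≤ B := (abs_nonneg _).trans (hB 0)
  set G : ℝ := σ * Real.sqrt (Real.pi / 2) with hG
  have hG0 : 0 < G := by
    have := Real.pi_pos
    positivity
  -- the coefficients
  set A : ℕ × ℕ → ℝ := fun q => vonMangoldt q.1 * ASI.hL U (Real.log q.1) * ASI.bt U q.2 *
    (((q.1 * q.2 : ℕ) : ℝ)⁻¹) * D (Real.log q.1 + Real.log q.2) with hA
  set F : ℕ × ℕ → ℝ → ℝ := fun q t => A q * (WW s t (Real.log q.1) * WW s (c - t) (Real.log q.2)) with hF
  set b : ℕ × ℕ → ℝ := fun q => B * (vonMangoldt q.1 * (q.2.divisors.card : ℝ) *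
      (((q.1 * q.2 : ℕ) : ℝ)⁻¹ * WW σ c (Real.log ((q.1 * q.2 : ℕ) : ℝ)))) with hb
  have hbs : Summable b := (tsep_summ hσ hσ1 c).mul_left B
  have hAb : ∀ q, |A q| * WW σ c (Real.log q.1 + Real.log q.2) ≤ b q := by
    intro q
    rcases Nat.eq_zero_or_pos (q.1 * q.2) with h0 | h0
    · have : A q = 0 := by
        simp only [hA, h0]
        simp
      rw [this, abs_zero, zero_mul]
      simp only [hb, h0]
      simp
    · have h1 : q.1 ≠ 0 := fun h => by rw [h, zero_mul] at h0; omega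
      have h2 : q.2 ≠ 0 := fun h => by rw [h, mul_zero] at h0; omega
      have h3 : Real.log ((q.1 * q.2 : ℕ) : ℝ) = Real.log q.1 + Real.log q.2 := by
        push_cast
        exact Real.log_mul (by exact_mod_cast h1) (by exact_mod_cast h2)
      have h4 : |A q| ≤ B * (vonMangoldt q.1 * (q.2.divisors.card : ℝ) * ((q.1 * q.2 : ℕ) : ℝ)⁻¹) := by
        simp only [hA]
        rw [abs_mul, abs_mul, abs_mul, abs_mul, abs_of_nonneg (vonMangoldt_nonneg (n := q.1)),
          abs_of_nonneg (ASI.hL_nonneg _ _), abs_of_nonneg (by positivity : (0 : ℝ) ≤ ((q.1 * q.2 : ℕ) : ℝ)⁻¹)]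
        have e1 : vonMangoldt q.1 * ASI.hL U (Real.log q.1) ≤ vonMangoldt q.1 :=
          mul_le_of_le_one_right vonMangoldt_nonneg (ASI.hL_le _ _)
        have e2 := ASI.bt_le U q.2
        have e3 := hB (Real.log q.1 + Real.log q.2)
        have e4 : vonMangoldt q.1 * ASI.hL U (Real.log q.1) * |ASI.bt U q.2| ≤
            vonMangoldt q.1 * (q.2.divisors.card : ℝ) :=
          mul_le_mul e1 e2 (abs_nonneg _) vonMangoldt_nonneg
        have e5 : (0 : ℝ) ≤ ((q.1 * q.2 : ℕ) : ℝ)⁻¹ := by positivity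
        have e6 := mul_le_mul_of_nonneg_right e4 e5
        have e7 : (0 : ℝ) ≤ vonMangoldt q.1 * (q.2.divisors.card : ℝ) * ((q.1 * q.2 : ℕ) : ℝ)⁻¹ :=
          mul_nonneg (mul_nonneg vonMangoldt_nonneg (Nat.cast_nonneg _)) e5
        calc _ ≤ (vonMangoldt q.1 * (q.2.divisors.card : ℝ) * ((q.1 * q.2 : ℕ) : ℝ)⁻¹) * B :=
              mul_le_mul e6 e3 (abs_nonneg _) e7
          _ = _ := mul_comm _ _
      simp only [hb]
      rw [h3]
      calc |A q| * WW σ c (Real.log q.1 + Real.log q.2) ≤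
          B * (vonMangoldt q.1 * (q.2.divisors.card : ℝ) * ((q.1 * q.2 : ℕ) : ℝ)⁻¹) *
            WW σ c (Real.log q.1 + Real.log q.2) := mul_le_mul_of_nonneg_right h4 (WW_nonneg _ _ _)
        _ = _ := by ring
  have hFc : ∀ q, Continuous (F q) := fun q => continuous_const.mul (tsep_cont c _ _)
  have hFb : ∀ q t, |F q t| ≤ b q := by
    intro q t
    simp only [hF]
    rw [abs_mul, abs_of_nonneg (mul_nonneg (WW_nonneg s _ _) (WW_nonneg s _ _))]
    exact (mul_le_mul_of_nonneg_left (tsep_le hσ c _ _ t) (abs_nonneg _)).trans (hAb q)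
  have hFi : ∀ q, Integrable (F q) := fun q => (tsep_gauss hσ c _ _).1.const_mul _
  have hFn : ∀ q, ∫ t, ‖F q t‖ = G * (|A q| * WW σ c (Real.log q.1 + Real.log q.2)) := by
    intro q
    have e : ∀ t, ‖F q t‖ = |A q| * (WW s t (Real.log q.1) * WW s (c - t) (Real.log q.2)) := by
      intro t
      simp only [hF]
      rw [Real.norm_eq_abs, abs_mul, abs_of_nonneg (mul_nonneg (WW_nonneg s _ _) (WW_nonneg s _ _))]
    simp only [e]
    rw [integral_const_mul, (tsep_gauss hσ c _ _).2]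
    ring
  have hFs : Summable fun q => ∫ t, ‖F q t‖ := by
    refine Summable.of_nonneg_of_le (fun q => integral_nonneg fun t => norm_nonneg _) (fun q => ?_)
      (hbs.mul_left G)
    rw [hFn]
    exact mul_le_mul_of_nonneg_left (hAb q) hG0.le
  -- the inner sum
  have hTI : ∀ t, TI U s c t D = ∑' q, F q t := by
    intro t
    have hsumt : Summable (fun q => F q t) := Summable.of_norm_bounded hbs (fun q => hFb q t)
    have h1 : ∑' q : ℕ × ℕ, F q t = ∑' k : ℕ, ∑' n : ℕ, F (n, k) t := by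
      rw [← (Equiv.prodComm ℕ ℕ).tsum_eq (fun q => F q t)]
      exact ((Equiv.prodComm ℕ ℕ).summable_iff.mpr hsumt).tsum_prod
    rw [h1]
    unfold TI
    refine tsum_congr fun k => ?_
    have hco : ∀ n : ℕ, 0 ≤ tw n * ASI.hL U (Real.log n) := fun n => mul_nonneg (tw_nonneg n) (ASI.hL_nonneg _ _)
    have hsm : Summable fun n : ℕ => tw n * ASI.hL U (Real.log n) * WW s t (Real.log n) := by
      refine Summable.of_nonneg_of_le (fun n => mul_nonneg (hco n) (WW_nonneg _ _ _)) (fun n => ?_)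
        (muP_summ hs0 hs1 t)
      exact mul_le_mul_of_nonneg_right (mul_le_of_le_one_right (tw_nonneg n) (ASI.hL_le _ _)) (WW_nonneg _ _ _)
    have hfin := (muS_fin hco hsm).1
    have hint : Integrable (fun u => D (u + Real.log k)) (muS (fun n => tw n * ASI.hL U (Real.log n)) s t) := by
      refine bdd_intble (B := B) ?_ (fun x => hB _)
      exact (hD.comp (continuous_add_const _)).stronglyMeasurable
    have h2 : ∫ u, D (u + Real.log k) ∂(bM U s t) = ∑' n : ℕ, (tw n * ASI.hL U (Real.log n) * WW s t (Real.log n)) •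
        D (Real.log n + Real.log k) := muS_int hco hsm hint
    rw [h2, ← tsum_mul_left]
    refine tsum_congr fun n => ?_
    simp only [hF, hA, smul_eq_mul]
    unfold tw
    push_cast
    rw [mul_inv]
    ring
  have hS4 : S4 U (ph σ c D) = ∑' q, G⁻¹ * ∫ t, F q t := by
    unfold S4
    refine tsum_congr fun q => ?_
    have e1 : ∫ t, F q t = A q * (G * WW σ c (Real.log q.1 + Real.log q.2)) := by
      simp only [hF]
      rw [integral_const_mul, (tsep_gauss hσ c _ _).2]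
    rw [e1]
    rcases Nat.eq_zero_or_pos (q.1 * q.2) with h0 | h0
    · have : A q = 0 := by
        simp only [hA, h0]
        simp
      rw [this]
      unfold ph
      rw [h0]
      simp
    · have h1 : q.1 ≠ 0 := fun h => by rw [h, zero_mul] at h0; omega
      have h2 : q.2 ≠ 0 := fun h => by rw [h, mul_zero] at h0; omega
      have h3 : Real.log ((q.1 * q.2 : ℕ) : ℝ) = Real.log q.1 + Real.log q.2 := by
        push_cast
        exact Real.log_mul (by exact_mod_cast h1) (by exact_mod_cast h2)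
      unfold ph
      rw [h3]
      simp only [hA]
      field_simp
  constructor
  · refine (tsep_tsum hFc hFb hbs hFi hFs).congr ?_
    exact Filter.Eventually.of_forall fun t => (hTI t).symm
  · rw [hS4, tsum_mul_left, integral_tsum_of_summable_integral_norm hFi hFs]
    congr 1
    exact integral_congr_ae (Filter.Eventually.of_forall fun t => (hTI t).symm)

end HLA
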