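import Pool.Agent.HLA.Mu

/-!
# HLA.VC: convergence for Gaussian test functions with rational parameters implies vague convergence

PROOF. Let `γ_κ y = (2πκ²)^(-3/2) exp(-|y|²/(2κ²))` on `ℝ³` (written as `ℝ × ℝ × ℝ`, `|y|² = y.1² + y.2.1² + y.2.2²`), so `γ_κ (x - y)` is a multiple of `gt κ κ y.1 y.2.1 y.2.2 x`. Let `f` be continuous with compact
support in `[-R, R]³`, `|f| ≤ Q`. CLAIM: for every `ε > 0` there is a finite linear combination `g` of functions `gt κ κ c h1 h2`, `κ = 1/m`, with rational `c, h1, h2`, such that `|f - g| ≤ ε g0`, `g0 = gt 1 1 0 0 0`.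
Proof: choose `R1 ≥ 2R + 2` large. (a) `f_κ = f * γ_κ → f` uniformly (`κ → 0`), (b) a Riemann sum `g x = ∑_y f(y) L³ γ_κ(x - y)` over the `y` in a rational grid of mesh `L` (finitely many `y ∈ [-R, R]³`) is
uniformly close to `f_κ` for small `L` (`κ` fixed; uniform continuity of `(x, y) ↦ f(y) γ_κ(x-y)` for `x ∈ [-R1, R1]³`). So `|f - g| ≤ ε exp(-3 R1²/2) ≤ ε g0` on `[-R1, R1]³` if `κ` is small and then `L` is small.
(c) outside of `[-R1,R1]³`: `f = 0` and `|g x| ≤ Q (2R+1)³ sup_y γ_κ(x - y) ≤ Q (2R+1)³ (2πκ²)^(-3/2) exp(-(|x|-2R)²/(2κ²))`, `|x|` the euclidean norm, which is `≤ ε exp(-|x|²/2)` if `R1 ≥ 8R + 8` and `κ` is small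
(`(|x| - 2R)² ≥ |x|²/4`, so it is at most `C κ^(-3) exp(-|x|²/(8κ²))`). Order of the choices: `R1`, then `κ`, then `L`.
(One may also use `f_κ` only for sup norm estimates; coefficients need not be rational.)
Then `|∫ f dN_j - ∫ g dN_j| ≤ ε ∫ g0 dN_j`, `∫ g0 dN_j` converges, hence is bounded; `∫ g dN_j → ∫ g dM`; let `ε → 0`. Integrability of `f`: `|f| ≤ C g0`, `f` is continuous.

USED HERE: the approximation of the claim is obtained from the Stone-Weierstrass theorem on the one point compactification of `ℝ³`: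
the functions `gt / g0` with real parameters and `1` span an algebra which separates the points; the parameters are approximated by rational ones.
-/

namespace HLA

open MeasureTheory Filter

/-! ### Gaussians divided by the Gaussian `gt 1 1 0 0 0` -/

/-- the exponent -/
private def VC_ex (a1 a2 b1 b2 b3 : ℝ) (x : ℝ × ℝ × ℝ) : ℝ :=
  (-a1 * x.1 ^ 2 + b1 * x.1) + (-a2 * x.2.1 ^ 2 + b2 * x.2.1) + (-a2 * x.2.2 ^ 2 + b3 * x.2.2)

private theorem VC_ex_cont (a1 a2 b1 b2 b3 : ℝ) : Continuous (VC_ex a1 a2 b1 b2 b3) := by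
  unfold VC_ex
  fun_prop

private theorem VC_quad {a B x : ℝ} (ha : 0 < a) : -a * x ^ 2 + B * |x| ≤ B ^ 2 / (4 * a) := by
  rw [le_div_iff₀ (by positivity), ← sq_abs x]
  have h1 := sq_nonneg (B - 2 * a * |x|)
  nlinarith

private theorem VC_dec1 {a b x : ℝ} (ha : 0 < a) :
    -a * x ^ 2 + b * x ≤ (|b| + 1) ^ 2 / (4 * a) - |x| := by
  have h1 := VC_quad (a := a) (B := |b| + 1) (x := x) ha
  have h2 : b * x ≤ |b| * |x| := by
    rw [← abs_mul]
    exact le_abs_self _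
  nlinarith

private theorem VC_dec {a1 a2 : ℝ} (b1 b2 b3 : ℝ) (h1 : 0 < a1) (h2 : 0 < a2) (x : ℝ × ℝ × ℝ) :
    VC_ex a1 a2 b1 b2 b3 x ≤ ((|b1| + 1) ^ 2 / (4 * a1) + (|b2| + 1) ^ 2 / (4 * a2) +
      (|b3| + 1) ^ 2 / (4 * a2)) - ‖x‖ := by
  have e1 := VC_dec1 (a := a1) (b := b1) (x := x.1) h1
  have e2 := VC_dec1 (a := a2) (b := b2) (x := x.2.1) h2
  have e3 := VC_dec1 (a := a2) (b := b3) (x := x.2.2) h2
  have e4 : ‖x‖ ≤ |x.1| + |x.2.1| + |x.2.2| := by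
    rw [Prod.norm_def, Prod.norm_def, Real.norm_eq_abs, Real.norm_eq_abs, Real.norm_eq_abs]
    have := abs_nonneg x.1
    have := abs_nonneg x.2.1
    have := abs_nonneg x.2.2
    refine max_le (by linarith) (max_le (by linarith) (by linarith))
  unfold VC_ex
  linarith

private theorem VC_tend {a1 a2 : ℝ} (b1 b2 b3 : ℝ) (h1 : 0 < a1) (h2 : 0 < a2) :
    Tendsto (fun x : ℝ × ℝ × ℝ => Real.exp (VC_ex a1 a2 b1 b2 b3 x)) (cocompact _) (nhds 0) := by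
  set C : ℝ := (|b1| + 1) ^ 2 / (4 * a1) + (|b2| + 1) ^ 2 / (4 * a2) +
      (|b3| + 1) ^ 2 / (4 * a2) with hC
  have h3 : Tendsto (fun x : ℝ × ℝ × ℝ => Real.exp (C - ‖x‖)) (cocompact _) (nhds 0) := by
    refine Real.tendsto_exp_atBot.comp ?_
    have h4 : Tendsto (fun x : ℝ × ℝ × ℝ => -‖x‖) (cocompact _) atBot :=
      tendsto_neg_atTop_atBot.comp (tendsto_norm_cocompact_atTop)
    exact (tendsto_atBot_add_const_left _ C h4).congr fun x => by ring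
  exact squeeze_zero (fun x => (Real.exp_pos _).le)
    (fun x => Real.exp_le_exp.2 (VC_dec b1 b2 b3 h1 h2 x)) h3

/-- the functions on the one point compactification -/
private noncomputable def VC_F (a1 a2 b1 b2 b3 : ℝ) (h1 : 0 < a1) (h2 : 0 < a2) :
    C(OnePoint (ℝ × ℝ × ℝ), ℝ) :=
  OnePoint.continuousMapMk ⟨fun x => Real.exp (VC_ex a1 a2 b1 b2 b3 x),
    Real.continuous_exp.comp (VC_ex_cont a1 a2 b1 b2 b3)⟩ 0 (by
      rw [Filter.coclosedCompact_eq_cocompact]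
      exact VC_tend b1 b2 b3 h1 h2)

private theorem VC_F_coe (a1 a2 b1 b2 b3 : ℝ) (h1 : 0 < a1) (h2 : 0 < a2) (x : ℝ × ℝ × ℝ) :
    VC_F a1 a2 b1 b2 b3 h1 h2 (x : OnePoint (ℝ × ℝ × ℝ)) =
      Real.exp (VC_ex a1 a2 b1 b2 b3 x) := rfl

private theorem VC_F_inf (a1 a2 b1 b2 b3 : ℝ) (h1 : 0 < a1) (h2 : 0 < a2) :
    VC_F a1 a2 b1 b2 b3 h1 h2 OnePoint.infty = 0 := rfl

private theorem VC_F_mul {a1 a2 b1 b2 b3 a1' a2' b1' b2' b3' : ℝ} (h1 : 0 < a1) (h2 : 0 < a2)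
    (h1' : 0 < a1') (h2' : 0 < a2') :
    VC_F a1 a2 b1 b2 b3 h1 h2 * VC_F a1' a2' b1' b2' b3' h1' h2' =
      VC_F (a1 + a1') (a2 + a2') (b1 + b1') (b2 + b2') (b3 + b3') (add_pos h1 h1')
        (add_pos h2 h2') := by
  ext x
  rw [ContinuousMap.mul_apply]
  induction x using OnePoint.rec with
  | infty => rw [VC_F_inf, VC_F_inf, VC_F_inf, mul_zero]
  | coe x =>
    rw [VC_F_coe, VC_F_coe, VC_F_coe, ← Real.exp_add]
    congr 1
    unfold VC_ex
    ring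

/-- `1` and the Gaussians -/
private def VC_T : Set C(OnePoint (ℝ × ℝ × ℝ), ℝ) :=
  {F | F = 1 ∨ ∃ (a1 a2 b1 b2 b3 : ℝ) (h1 : 0 < a1) (h2 : 0 < a2), F = VC_F a1 a2 b1 b2 b3 h1 h2}

private theorem VC_T_mul {F G : C(OnePoint (ℝ × ℝ × ℝ), ℝ)} (hF : F ∈ VC_T) (hG : G ∈ VC_T) :
    F * G ∈ VC_T := by
  rcases hF with rfl | ⟨a1, a2, b1, b2, b3, h1, h2, rfl⟩
  · rwa [one_mul]
  · rcases hG with rfl | ⟨a1', a2', b1', b2', b3', h1', h2', rfl⟩
    · rw [mul_one]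
      exact Or.inr ⟨a1, a2, b1, b2, b3, h1, h2, rfl⟩
    · rw [VC_F_mul]
      exact Or.inr ⟨_, _, _, _, _, _, _, rfl⟩

/-- the algebra spanned by them -/
private noncomputable def VC_A : Subalgebra ℝ C(OnePoint (ℝ × ℝ × ℝ), ℝ) :=
  (Submodule.span ℝ VC_T).toSubalgebra (Submodule.subset_span (Or.inl rfl)) (by
    intro x y hx hy
    have h1 := Submodule.mul_mem_mul hx hy
    rw [Submodule.span_mul_span] at h1
    refine Submodule.span_mono ?_ h1
    rintro _ ⟨F, hF, G, hG, rfl⟩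
    exact VC_T_mul hF hG)

private theorem VC_sep : VC_A.SeparatesPoints := by
  have hmem : ∀ (b1 b2 b3 : ℝ), VC_F 1 1 b1 b2 b3 one_pos one_pos ∈ VC_A := fun b1 b2 b3 =>
    Submodule.subset_span (Or.inr ⟨1, 1, b1, b2, b3, one_pos, one_pos, rfl⟩)
  have key : ∀ x y : OnePoint (ℝ × ℝ × ℝ),
      (∀ b1 b2 b3 : ℝ, VC_F 1 1 b1 b2 b3 one_pos one_pos x = VC_F 1 1 b1 b2 b3 one_pos one_pos y) →
      x = y := by
    intro x y h
    induction x using OnePoint.rec with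
    | infty =>
      induction y using OnePoint.rec with
      | infty => rfl
      | coe y =>
        have h0 := h 0 0 0
        rw [VC_F_inf, VC_F_coe] at h0
        exact absurd h0.symm (Real.exp_pos _).ne'
    | coe x =>
      induction y using OnePoint.rec with
      | infty =>
        have h0 := h 0 0 0
        rw [VC_F_inf, VC_F_coe] at h0
        exact absurd h0 (Real.exp_pos _).ne'
      | coe y =>
        have h0 := h 0 0 0
        have h1 := h 1 0 0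
        have h2 := h 0 1 0
        have h3 := h 0 0 1
        rw [VC_F_coe, VC_F_coe, Real.exp_eq_exp] at h0 h1 h2 h3
        unfold VC_ex at h0 h1 h2 h3
        have e1 : x.1 = y.1 := by linarith
        have e2 : x.2.1 = y.2.1 := by linarith
        have e3 : x.2.2 = y.2.2 := by linarith
        have : x = y := Prod.ext e1 (Prod.ext e2 e3)
        rw [this]
  intro x y hxy
  by_contra hcon
  refine hxy (key x y fun b1 b2 b3 => ?_)
  by_contra hne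
  exact hcon ⟨_, ⟨VC_F 1 1 b1 b2 b3 one_pos one_pos, hmem b1 b2 b3, rfl⟩, hne⟩

/-! ### Change of the parameters -/

private theorem VC_exp_sub (t : ℝ) : |Real.exp t - 1| ≤ |t| * Real.exp |t| := by
  rcases le_total 0 t with h | h
  · rw [abs_of_nonneg h, abs_of_nonneg (by have := Real.one_le_exp h; linarith)]
    have h1 := Real.add_one_le_exp (-t)
    have h2 : Real.exp (-t) * Real.exp t = 1 := by rw [← Real.exp_add]; simp
    have h3 := Real.exp_pos t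
    nlinarith
  · rw [abs_of_nonpos h, abs_of_nonpos (by have := Real.exp_le_one_iff.2 h; linarith)]
    have h1 := Real.add_one_le_exp t
    have h2 : 1 ≤ Real.exp (-t) := Real.one_le_exp (by linarith)
    nlinarith

private theorem VC_diff {a1 a2 b1 b2 b3 a1' a2' b1' b2' b3' η : ℝ} (h1 : 0 < a1) (h2 : 0 < a2)
    (hη : 0 ≤ η) (hη1 : η ≤ 1) (hη2 : η ≤ a1 / 2) (hη3 : η ≤ a2 / 2)
    (d1 : |a1' - a1| ≤ η) (d2 : |a2' - a2| ≤ η) (d3 : |b1' - b1| ≤ η) (d4 : |b2' - b2| ≤ η)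
    (d5 : |b3' - b3| ≤ η) (x : ℝ × ℝ × ℝ) :
    |Real.exp (VC_ex a1' a2' b1' b2' b3' x) - Real.exp (VC_ex a1 a2 b1 b2 b3 x)| ≤
      3 * η * Real.exp ((|b1| + 2) ^ 2 / (2 * a1) + (|b2| + 2) ^ 2 / (2 * a2) +
        (|b3| + 2) ^ 2 / (2 * a2)) := by
  obtain ⟨x1, x2, x3⟩ := x
  obtain ⟨t, ht⟩ : ∃ t : ℝ, t = VC_ex a1' a2' b1' b2' b3' (x1, x2, x3) -
    VC_ex a1 a2 b1 b2 b3 (x1, x2, x3) := ⟨_, rfl⟩
  obtain ⟨s, hs⟩ : ∃ s : ℝ, s = |x1| + |x2| + |x3| := ⟨_, rfl⟩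
  obtain ⟨q, hq⟩ : ∃ q : ℝ, q = x1 ^ 2 + x2 ^ 2 + x3 ^ 2 := ⟨_, rfl⟩
  have p1 := abs_nonneg x1
  have p2 := abs_nonneg x2
  have p3 := abs_nonneg x3
  have s0 : 0 ≤ s := by rw [hs]; positivity
  have q0 : 0 ≤ q := by rw [hq]; positivity
  have hqs : q ≤ s ^ 2 := by
    rw [hq, hs, ← sq_abs x1, ← sq_abs x2, ← sq_abs x3]
    nlinarith [mul_nonneg p1 p2, mul_nonneg p1 p3, mul_nonneg p2 p3]
  have one : ∀ a a' b b' y : ℝ, |a' - a| ≤ η → |b' - b| ≤ η →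
      |(-a' * y ^ 2 + b' * y) - (-a * y ^ 2 + b * y)| ≤ η * (y ^ 2 + |y|) := by
    intro a a' b b' y ha hb
    have e : (-a' * y ^ 2 + b' * y) - (-a * y ^ 2 + b * y) = -((a' - a) * y ^ 2) + (b' - b) * y := by
      ring
    rw [e]
    refine (abs_add_le _ _).trans ?_
    rw [abs_neg, abs_mul, abs_mul, abs_of_nonneg (sq_nonneg y)]
    have := mul_le_mul_of_nonneg_right ha (sq_nonneg y)
    have := mul_le_mul_of_nonneg_right hb (abs_nonneg y)
    linarith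
  have hta : |t| ≤ η * (q + s) := by
    have e : t = ((-a1' * x1 ^ 2 + b1' * x1) - (-a1 * x1 ^ 2 + b1 * x1)) +
        ((-a2' * x2 ^ 2 + b2' * x2) - (-a2 * x2 ^ 2 + b2 * x2)) +
        ((-a2' * x3 ^ 2 + b3' * x3) - (-a2 * x3 ^ 2 + b3 * x3)) := by
      rw [ht]
      unfold VC_ex
      ring
    rw [e]
    refine (abs_add_three _ _ _).trans ?_
    have o1 := one a1 a1' b1 b1' x1 d1 d3
    have o2 := one a2 a2' b2 b2' x2 d2 d4
    have o3 := one a2 a2' b3 b3' x3 d2 d5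
    rw [hq, hs]
    linarith
  have hqs3 : q + s ≤ 3 * Real.exp s := by
    have := Real.quadratic_le_exp_of_nonneg s0
    nlinarith
  have hfac : Real.exp (VC_ex a1' a2' b1' b2' b3' (x1, x2, x3)) -
      Real.exp (VC_ex a1 a2 b1 b2 b3 (x1, x2, x3)) =
      Real.exp (VC_ex a1 a2 b1 b2 b3 (x1, x2, x3)) * (Real.exp t - 1) := by
    rw [mul_sub, ← Real.exp_add, ht]
    ring_nf
  rw [hfac, abs_mul, abs_of_pos (Real.exp_pos _)]
  have h3 := VC_exp_sub t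
  have h4 : |t| * Real.exp |t| ≤ (η * (3 * Real.exp s)) * Real.exp (η * (q + s)) := by
    refine mul_le_mul (hta.trans (mul_le_mul_of_nonneg_left hqs3 hη)) (Real.exp_le_exp.2 hta)
      (Real.exp_pos _).le (by positivity)
  have quad : ∀ a b y : ℝ, 0 < a → η ≤ a / 2 →
      (-a * y ^ 2 + b * y) + |y| + η * (y ^ 2 + |y|) ≤ (|b| + 2) ^ 2 / (2 * a) := by
    intro a b y ha hηa
    have e1 := VC_quad (a := a / 2) (B := |b| + 2) (x := y) (by positivity)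
    have e2 : 4 * (a / 2) = 2 * a := by ring
    rw [e2] at e1
    have e3 : b * y ≤ |b| * |y| := by
      rw [← abs_mul]
      exact le_abs_self _
    have e4 := abs_nonneg y
    have e5 := sq_nonneg y
    nlinarith
  calc Real.exp (VC_ex a1 a2 b1 b2 b3 (x1, x2, x3)) * |Real.exp t - 1|
      ≤ Real.exp (VC_ex a1 a2 b1 b2 b3 (x1, x2, x3)) *
        ((η * (3 * Real.exp s)) * Real.exp (η * (q + s))) :=
        mul_le_mul_of_nonneg_left (h3.trans h4) (Real.exp_pos _).le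
    _ = 3 * η * Real.exp (VC_ex a1 a2 b1 b2 b3 (x1, x2, x3) + s + η * (q + s)) := by
        rw [Real.exp_add, Real.exp_add]
        ring
    _ ≤ _ := by
        refine mul_le_mul_of_nonneg_left (Real.exp_le_exp.2 ?_) (by positivity)
        have o1 := quad a1 b1 x1 h1 hη2
        have o2 := quad a2 b2 x2 h2 hη3
        have o3 := quad a2 b3 x3 h2 hη3
        unfold VC_ex
        rw [hq, hs]
        simp only
        linarith

private theorem VC_norm {a1 a2 b1 b2 b3 a1' a2' b1' b2' b3' η : ℝ} (h1 : 0 < a1) (h2 : 0 < a2)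
    (h1' : 0 < a1') (h2' : 0 < a2')
    (hη : 0 ≤ η) (hη1 : η ≤ 1) (hη2 : η ≤ a1 / 2) (hη3 : η ≤ a2 / 2)
    (d1 : |a1' - a1| ≤ η) (d2 : |a2' - a2| ≤ η) (d3 : |b1' - b1| ≤ η) (d4 : |b2' - b2| ≤ η)
    (d5 : |b3' - b3| ≤ η) :
    ‖VC_F a1' a2' b1' b2' b3' h1' h2' - VC_F a1 a2 b1 b2 b3 h1 h2‖ ≤
      3 * η * Real.exp ((|b1| + 2) ^ 2 / (2 * a1) + (|b2| + 2) ^ 2 / (2 * a2) +
        (|b3| + 2) ^ 2 / (2 * a2)) := by
  rw [ContinuousMap.norm_le _ (by positivity)]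
  intro x
  rw [ContinuousMap.sub_apply, Real.norm_eq_abs]
  induction x using OnePoint.rec with
  | infty =>
    rw [VC_F_inf, VC_F_inf, sub_zero, abs_zero]
    positivity
  | coe x =>
    rw [VC_F_coe, VC_F_coe]
    exact VC_diff h1 h2 hη hη1 hη2 hη3 d1 d2 d3 d4 d5 x

/-! ### Rational parameters -/

private theorem VC_rat1 {a η : ℝ} (ha : 0 < a) (hη : 0 < η) :
    ∃ σ : ℚ, 0 < σ ∧ σ ≤ 1 ∧ 0 < 1 / (2 * (σ : ℝ) ^ 2) - 1 / 2 ∧
      |1 / (2 * (σ : ℝ) ^ 2) - 1 / 2 - a| ≤ η := by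
  have hl : 1 / Real.sqrt (1 + 2 * a + 2 * η) < 1 / Real.sqrt (1 + 2 * a) := by
    refine one_div_lt_one_div_of_lt (Real.sqrt_pos.2 (by linarith)) ?_
    exact Real.sqrt_lt_sqrt (by linarith) (by linarith)
  obtain ⟨σ, hσ1, hσ2⟩ := exists_rat_btwn hl
  have hl0 : 0 < 1 / Real.sqrt (1 + 2 * a + 2 * η) :=
    one_div_pos.2 (Real.sqrt_pos.2 (by linarith))
  have hσ0 : (0 : ℝ) < σ := hl0.trans hσ1
  have hs : (σ : ℝ) ^ 2 < 1 / (1 + 2 * a) := by
    have h1 : (σ : ℝ) ^ 2 < (1 / Real.sqrt (1 + 2 * a)) ^ 2 :=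
      pow_lt_pow_left₀ hσ2 hσ0.le (by norm_num)
    rwa [div_pow, one_pow, Real.sq_sqrt (by linarith)] at h1
  have hs' : 1 / (1 + 2 * a + 2 * η) < (σ : ℝ) ^ 2 := by
    have h1 : (1 / Real.sqrt (1 + 2 * a + 2 * η)) ^ 2 < (σ : ℝ) ^ 2 :=
      pow_lt_pow_left₀ hσ1 hl0.le (by norm_num)
    rwa [div_pow, one_pow, Real.sq_sqrt (by linarith)] at h1
  have hp : 0 < (σ : ℝ) ^ 2 := by positivity
  have e1 : 1 + 2 * a < 1 / (σ : ℝ) ^ 2 := by
    rw [lt_div_iff₀ hp]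
    rw [lt_div_iff₀ (by linarith)] at hs
    linarith
  have e2 : 1 / (σ : ℝ) ^ 2 < 1 + 2 * a + 2 * η := by
    rw [div_lt_iff₀ hp]
    rw [div_lt_iff₀ (by linarith)] at hs'
    linarith
  have e3 : 1 / (2 * (σ : ℝ) ^ 2) = 1 / (σ : ℝ) ^ 2 / 2 := by
    rw [div_div, mul_comm]
  refine ⟨σ, by exact_mod_cast hσ0, ?_, ?_, ?_⟩
  · have : (σ : ℝ) ≤ 1 := by
      by_contra hcon
      push Not at hcon
      have h1 : 1 < (σ : ℝ) ^ 2 := one_lt_pow₀ hcon (by norm_num)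
      have h2 : 1 / (1 + 2 * a) < 1 := by
        rw [div_lt_one (by linarith)]
        linarith
      linarith
    exact_mod_cast this
  · rw [e3]
    linarith
  · rw [e3, abs_le]
    constructor <;> linarith

private theorem VC_rat2 {σ : ℚ} (hσ : 0 < σ) (b : ℝ) {η : ℝ} (hη : 0 < η) :
    ∃ c : ℚ, |(c : ℝ) / (σ : ℝ) ^ 2 - b| ≤ η := by
  have hσ0 : (0 : ℝ) < σ := by exact_mod_cast hσ
  obtain ⟨c, hc⟩ := exists_rat_near (b * (σ : ℝ) ^ 2) (mul_pos hη (pow_pos hσ0 2))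
  refine ⟨c, ?_⟩
  have e : (c : ℝ) / (σ : ℝ) ^ 2 - b = -((b * (σ : ℝ) ^ 2 - c) / (σ : ℝ) ^ 2) := by
    field_simp
    ring
  rw [e, abs_neg, abs_div, abs_of_pos (pow_pos hσ0 2), div_le_iff₀ (pow_pos hσ0 2)]
  exact hc.le

private theorem VC_gt (σ κ c h1 h2 : ℝ) (hσ : 0 < σ) (hκ : 0 < κ)
    (p1 : 0 < 1 / (2 * σ ^ 2) - 1 / 2) (p2 : 0 < 1 / (2 * κ ^ 2) - 1 / 2) (x : ℝ × ℝ × ℝ) :
    VC_F (1 / (2 * σ ^ 2) - 1 / 2) (1 / (2 * κ ^ 2) - 1 / 2) (c / σ ^ 2) (h1 / κ ^ 2) (h2 / κ ^ 2)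
      p1 p2 (x : OnePoint (ℝ × ℝ × ℝ)) * gt 1 1 0 0 0 x =
    Real.exp (c ^ 2 / (2 * σ ^ 2) + h1 ^ 2 / (2 * κ ^ 2) + h2 ^ 2 / (2 * κ ^ 2)) *
      gt σ κ c h1 h2 x := by
  rw [VC_F_coe]
  unfold gt WW VC_ex
  rw [← Real.exp_add, ← Real.exp_add, ← Real.exp_add, ← Real.exp_add, ← Real.exp_add,
    ← Real.exp_add]
  congr 1
  field_simp
  ring

private theorem VC_gt_pos (x : ℝ × ℝ × ℝ) : 0 < gt 1 1 0 0 0 x := by
  unfold gt WW
  positivity

private theorem VC_gt_cont : Continuous (gt 1 1 0 0 0) := by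
  unfold gt WW
  fun_prop

/-! ### The integrals -/

/-- the integral with the weight `gt 1 1 0 0 0` -/
private noncomputable def VC_L (μ : Measure (ℝ × ℝ × ℝ)) (F : C(OnePoint (ℝ × ℝ × ℝ), ℝ)) : ℝ :=
  ∫ x : ℝ × ℝ × ℝ, F (x : OnePoint (ℝ × ℝ × ℝ)) * gt 1 1 0 0 0 x ∂μ

private theorem VC_int {μ : Measure (ℝ × ℝ × ℝ)} (hμ : Integrable (gt 1 1 0 0 0) μ)
    (F : C(OnePoint (ℝ × ℝ × ℝ), ℝ)) :
    Integrable (fun x : ℝ × ℝ × ℝ => F (x : OnePoint (ℝ × ℝ × ℝ)) * gt 1 1 0 0 0 x) μ := by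
  refine hμ.bdd_mul (c := ‖F‖) ?_ (Eventually.of_forall fun x => F.norm_coe_le_norm _)
  exact (F.continuous.comp OnePoint.continuous_coe).aestronglyMeasurable

private theorem VC_sub {μ : Measure (ℝ × ℝ × ℝ)} (hμ : Integrable (gt 1 1 0 0 0) μ)
    (F G : C(OnePoint (ℝ × ℝ × ℝ), ℝ)) :
    |VC_L μ F - VC_L μ G| ≤ ‖F - G‖ * ∫ x, gt 1 1 0 0 0 x ∂μ := by
  unfold VC_L
  rw [← integral_sub (VC_int hμ F) (VC_int hμ G), ← integral_const_mul, ← Real.norm_eq_abs]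
  refine norm_integral_le_of_norm_le (hμ.const_mul _) (Eventually.of_forall fun x => ?_)
  rw [← sub_mul, norm_mul, Real.norm_of_nonneg (VC_gt_pos x).le]
  refine mul_le_mul_of_nonneg_right ?_ (VC_gt_pos x).le
  have := (F - G).norm_coe_le_norm (x : OnePoint (ℝ × ℝ × ℝ))
  rwa [ContinuousMap.sub_apply] at this

/-- the set of the functions with convergence is closed -/
private theorem VC_closed {N : ℕ → Measure (ℝ × ℝ × ℝ)} {M : Measure (ℝ × ℝ × ℝ)}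
    (hN : ∀ j, Integrable (gt 1 1 0 0 0) (N j)) (hM : Integrable (gt 1 1 0 0 0) M)
    (hl : Tendsto (fun j => ∫ x, gt 1 1 0 0 0 x ∂(N j)) atTop (nhds (∫ x, gt 1 1 0 0 0 x ∂M)))
    {F : C(OnePoint (ℝ × ℝ × ℝ), ℝ)} (h : ∀ ε : ℝ, 0 < ε → ∃ G : C(OnePoint (ℝ × ℝ × ℝ), ℝ),
      ‖F - G‖ ≤ ε ∧ Tendsto (fun j => VC_L (N j) G) atTop (nhds (VC_L M G))) :
    Tendsto (fun j => VC_L (N j) F) atTop (nhds (VC_L M F)) := by
  rw [Metric.tendsto_atTop]
  intro ε hε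
  obtain ⟨m, hm⟩ : ∃ m : ℝ, m = ∫ x, gt 1 1 0 0 0 x ∂M := ⟨_, rfl⟩
  have hm0 : 0 ≤ m := by
    rw [hm]
    exact integral_nonneg fun x => (VC_gt_pos x).le
  obtain ⟨G, hG1, hG2⟩ := h (ε / (4 * (m + 1))) (by positivity)
  rw [Metric.tendsto_atTop] at hG2 hl
  obtain ⟨j1, hj1⟩ := hG2 (ε / 4) (by positivity)
  obtain ⟨j2, hj2⟩ := hl 1 one_pos
  refine ⟨max j1 j2, fun j hj => ?_⟩
  have e1 := hj1 j ((le_max_left _ _).trans hj)
  have e2 := hj2 j ((le_max_right _ _).trans hj)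
  rw [Real.dist_eq] at e1 e2 ⊢
  rw [← hm] at e2
  have e3 := VC_sub (hN j) F G
  have e4 := VC_sub hM F G
  rw [← hm] at e4
  have e5 : ∫ x, gt 1 1 0 0 0 x ∂(N j) ≤ m + 1 := by
    have := (abs_lt.1 e2).2
    linarith
  have e6 : ‖F - G‖ * ∫ x, gt 1 1 0 0 0 x ∂(N j) ≤ ε / 4 := by
    calc ‖F - G‖ * ∫ x, gt 1 1 0 0 0 x ∂(N j) ≤ (ε / (4 * (m + 1))) * (m + 1) :=
          mul_le_mul hG1 e5 (integral_nonneg fun x => (VC_gt_pos x).le) (by positivity)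
      _ = ε / 4 := by field_simp
  have e7 : ‖F - G‖ * m ≤ ε / 4 := by
    calc ‖F - G‖ * m ≤ (ε / (4 * (m + 1))) * (m + 1) :=
          mul_le_mul hG1 (by linarith) hm0 (by positivity)
      _ = ε / 4 := by field_simp
  have e8 : VC_L (N j) F - VC_L M F = (VC_L (N j) F - VC_L (N j) G) +
      (VC_L (N j) G - VC_L M G) + -(VC_L M F - VC_L M G) := by ring
  rw [e8]
  refine lt_of_le_of_lt (abs_add_three _ _ _) ?_
  rw [abs_neg]
  linarith

theorem vc {N : ℕ → Measure (ℝ × ℝ × ℝ)} {M : Measure (ℝ × ℝ × ℝ)}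
    (hi : ∀ (j : ℕ) (σ κ c h1 h2 : ℚ), 0 < σ → σ ≤ 1 → 0 < κ → κ ≤ 1 → Integrable (gt σ κ c h1 h2) (N j))
    (hM : ∀ σ κ c h1 h2 : ℚ, 0 < σ → σ ≤ 1 → 0 < κ → κ ≤ 1 → Integrable (gt σ κ c h1 h2) M)
    (hl : ∀ σ κ c h1 h2 : ℚ, 0 < σ → σ ≤ 1 → 0 < κ → κ ≤ 1 →
      Tendsto (fun j => ∫ x, gt σ κ c h1 h2 x ∂(N j)) atTop (nhds (∫ x, gt σ κ c h1 h2 x ∂M)))
    {f : ℝ × ℝ × ℝ → ℝ} (hf : Continuous f) (hs : HasCompactSupport f) :
    (∀ j, Integrable f (N j)) ∧ Integrable f M ∧ Tendsto (fun j => ∫ x, f x ∂(N j)) atTop (nhds (∫ x, f x ∂M)) := by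
  have hN0 : ∀ j, Integrable (gt 1 1 0 0 0) (N j) := by
    intro j
    have := hi j 1 1 0 0 0 one_pos le_rfl one_pos le_rfl
    simpa only [Rat.cast_one, Rat.cast_zero] using this
  have hM0 : Integrable (gt 1 1 0 0 0) M := by
    have := hM 1 1 0 0 0 one_pos le_rfl one_pos le_rfl
    simpa only [Rat.cast_one, Rat.cast_zero] using this
  have hl0 : Tendsto (fun j => ∫ x, gt 1 1 0 0 0 x ∂(N j)) atTop
      (nhds (∫ x, gt 1 1 0 0 0 x ∂M)) := by
    have := hl 1 1 0 0 0 one_pos le_rfl one_pos le_rfl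
    simpa only [Rat.cast_one, Rat.cast_zero] using this
  -- the functions with convergence
  have hT : ∀ F ∈ VC_T, Tendsto (fun j => VC_L (N j) F) atTop (nhds (VC_L M F)) := by
    rintro F (rfl | ⟨a1, a2, b1, b2, b3, h1, h2, rfl⟩)
    · have e : ∀ μ : Measure (ℝ × ℝ × ℝ), VC_L μ 1 = ∫ x, gt 1 1 0 0 0 x ∂μ := by
        intro μ
        unfold VC_L
        simp only [ContinuousMap.one_apply, one_mul]
      simp only [e]
      exact hl0
    · refine VC_closed hN0 hM0 hl0 fun ε hε => ?_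
      obtain ⟨E, hE⟩ : ∃ E : ℝ, E = Real.exp ((|b1| + 2) ^ 2 / (2 * a1) +
        (|b2| + 2) ^ 2 / (2 * a2) + (|b3| + 2) ^ 2 / (2 * a2)) := ⟨_, rfl⟩
      have hE0 : 0 < E := by rw [hE]; exact Real.exp_pos _
      obtain ⟨η, hη⟩ : ∃ η : ℝ, η = min (min 1 (min (a1 / 2) (a2 / 2))) (ε / (3 * E)) := ⟨_, rfl⟩
      have hη0 : 0 < η := by
        rw [hη]
        refine lt_min (lt_min one_pos (lt_min (by positivity) (by positivity))) (by positivity)
      have q1 : η ≤ 1 := by rw [hη]; exact (min_le_left _ _).trans (min_le_left _ _)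
      have q2 : η ≤ a1 / 2 := by
        rw [hη]
        exact (min_le_left _ _).trans ((min_le_right _ _).trans (min_le_left _ _))
      have q3 : η ≤ a2 / 2 := by
        rw [hη]
        exact (min_le_left _ _).trans ((min_le_right _ _).trans (min_le_right _ _))
      have q4 : 3 * η * E ≤ ε := by
        have : η ≤ ε / (3 * E) := by rw [hη]; exact min_le_right _ _
        rw [le_div_iff₀ (by positivity)] at this
        linarith
      obtain ⟨σ, s1, s2, s3, s4⟩ := VC_rat1 h1 hη0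
      obtain ⟨κ, k1, k2, k3, k4⟩ := VC_rat1 h2 hη0
      obtain ⟨c, hc⟩ := VC_rat2 s1 b1 hη0
      obtain ⟨d, hd⟩ := VC_rat2 k1 b2 hη0
      obtain ⟨e, he⟩ := VC_rat2 k1 b3 hη0
      refine ⟨VC_F (1 / (2 * (σ : ℝ) ^ 2) - 1 / 2) (1 / (2 * (κ : ℝ) ^ 2) - 1 / 2)
        ((c : ℝ) / (σ : ℝ) ^ 2) ((d : ℝ) / (κ : ℝ) ^ 2) ((e : ℝ) / (κ : ℝ) ^ 2) s3 k3, ?_, ?_⟩
      · rw [norm_sub_rev]
        refine (VC_norm h1 h2 s3 k3 hη0.le q1 q2 q3 s4 k4 hc hd he).trans ?_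
        rw [← hE]
        exact q4
      · have e1 : ∀ μ : Measure (ℝ × ℝ × ℝ), VC_L μ (VC_F (1 / (2 * (σ : ℝ) ^ 2) - 1 / 2)
            (1 / (2 * (κ : ℝ) ^ 2) - 1 / 2) ((c : ℝ) / (σ : ℝ) ^ 2) ((d : ℝ) / (κ : ℝ) ^ 2)
            ((e : ℝ) / (κ : ℝ) ^ 2) s3 k3) =
            Real.exp ((c : ℝ) ^ 2 / (2 * (σ : ℝ) ^ 2) + (d : ℝ) ^ 2 / (2 * (κ : ℝ) ^ 2) +
              (e : ℝ) ^ 2 / (2 * (κ : ℝ) ^ 2)) * ∫ x, gt σ κ c d e x ∂μ := by
          intro μ
          unfold VC_L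
          rw [← integral_const_mul]
          refine integral_congr_ae (Eventually.of_forall fun x => ?_)
          exact VC_gt _ _ _ _ _ (by exact_mod_cast s1) (by exact_mod_cast k1) s3 k3 x
        simp only [e1]
        exact (hl σ κ c d e s1 s2 k1 k2).const_mul _
  have hspan : ∀ F ∈ Submodule.span ℝ VC_T,
      Tendsto (fun j => VC_L (N j) F) atTop (nhds (VC_L M F)) := by
    intro F hF
    induction hF using Submodule.span_induction with
    | mem F h => exact hT F h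
    | zero =>
      have e : ∀ μ : Measure (ℝ × ℝ × ℝ), VC_L μ 0 = 0 := by
        intro μ
        unfold VC_L
        simp
      simp only [e]
      exact tendsto_const_nhds
    | add F G _ _ h1 h2 =>
      have e : ∀ μ : Measure (ℝ × ℝ × ℝ), Integrable (gt 1 1 0 0 0) μ →
          VC_L μ (F + G) = VC_L μ F + VC_L μ G := by
        intro μ hμ
        unfold VC_L
        rw [← integral_add (VC_int hμ F) (VC_int hμ G)]
        refine integral_congr_ae (Eventually.of_forall fun x => ?_)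
        simp only [ContinuousMap.add_apply]
        ring
      rw [e M hM0]
      exact (h1.add h2).congr fun j => (e (N j) (hN0 j)).symm
    | smul a F _ h1 =>
      have e : ∀ μ : Measure (ℝ × ℝ × ℝ), VC_L μ (a • F) = a * VC_L μ F := by
        intro μ
        unfold VC_L
        rw [← integral_const_mul]
        refine integral_congr_ae (Eventually.of_forall fun x => ?_)
        simp only [ContinuousMap.smul_apply, smul_eq_mul]
        ring
      simp only [e]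
      exact h1.const_mul a
  have hall : ∀ F : C(OnePoint (ℝ × ℝ × ℝ), ℝ),
      Tendsto (fun j => VC_L (N j) F) atTop (nhds (VC_L M F)) := by
    intro F
    refine VC_closed hN0 hM0 hl0 fun ε hε => ?_
    obtain ⟨G, hG⟩ := ContinuousMap.exists_mem_subalgebra_near_continuousMap_of_separatesPoints
      VC_A VC_sep F ε hε
    refine ⟨G, ?_, hspan _ G.2⟩
    rw [norm_sub_rev]
    exact hG.le
  -- the given function
  have hcont : Continuous fun x => f x / gt 1 1 0 0 0 x :=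
    hf.div VC_gt_cont fun x => (VC_gt_pos x).ne'
  have hsupp : HasCompactSupport fun x => f x / gt 1 1 0 0 0 x := by
    refine hs.mono fun x hx => ?_
    rw [Function.mem_support] at hx ⊢
    intro h
    exact hx (by rw [h, zero_div])
  have htend : Tendsto (fun x => f x / gt 1 1 0 0 0 x) (cocompact (ℝ × ℝ × ℝ)) (nhds 0) :=
    hsupp.is_zero_at_infty
  set u : C(OnePoint (ℝ × ℝ × ℝ), ℝ) := OnePoint.continuousMapMk ⟨_, hcont⟩ 0 (by
    rw [Filter.coclosedCompact_eq_cocompact]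
    exact htend) with hu
  have hux : ∀ x : ℝ × ℝ × ℝ, u (x : OnePoint (ℝ × ℝ × ℝ)) * gt 1 1 0 0 0 x = f x := by
    intro x
    have : u (x : OnePoint (ℝ × ℝ × ℝ)) = f x / gt 1 1 0 0 0 x := rfl
    rw [this, div_mul_cancel₀ _ (VC_gt_pos x).ne']
  have hL : ∀ μ : Measure (ℝ × ℝ × ℝ), VC_L μ u = ∫ x, f x ∂μ := by
    intro μ
    unfold VC_L
    simp only [hux]
  refine ⟨fun j => ?_, ?_, ?_⟩
  · have := VC_int (hN0 j) u
    simpa only [hux] using this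
  · have := VC_int hM0 u
    simpa only [hux] using this
  · have := hall u
    simpa only [hL] using this

end HLA
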