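import Pool.Agent.HLA.VC
import Pool.Agent.HLA.TTl

/-!
# HLA.Vag: vague convergence of the weighted counting measures of triples and pairs for good `θ`

PROOF. `w = j/n`. `N_j = Measure.sum (fun q => ENNReal.ofReal (tw tw tw e^(2w) WW 1 w (log q1) WW 1 w (log q2)) • dirac (log q0 - w, e^w (log q0 + θ - log q1), e^w (log q0 + 2θ - log q2)))`,
`M = volume.withDensity (ENNReal.ofReal (WW 1 0 (x.1+θ) WW 1 0 (x.1+2θ)))`. `∫ gt σ κ c h1 h2 dN_j = P3 σ κ w θ c h1 h2` (`WW σ (w+c) x = WW σ c (x-w)`; integrals over sums of Dirac measures as in `muS_int`;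
`p3_summ`), `∫ gt dM = lim3 σ θ c · (√(2π) κ)²`. So `vc` gives `vag3` (`∫ f dN_j = V3 w θ f`).
Pairs: with `N2_j` on `ℝ × ℝ` (weights `tw tw e^w WW 1 w (log q1) WW 1 w (log q0 + 2θ)`, points `(log q0 - w, e^w (log q0 + θ - log q1))`) let `N_j` be the image of `N2_j ⊗ volume` in `ℝ × ℝ × ℝ`, the same `M`:
`∫ gt dN_j = P2 σ κ w θ c h1 · √(2π) κ → (√(2π) κ)² lim3`. Apply `vc` to `F(t, a, b) = f(t, a) WW 1 0 (t+2θ)⁻¹ χ(b)` with a fixed continuous `χ ≥ 0` with compact support and `∫ χ = 1`: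
`∫ F dN_j = V2 w θ f` (`WW 1 w (log q0 + 2θ) = WW 1 0 (t + 2θ)` for `t = log q0 - w`), `∫ F dM = ∫ f(t,a) WW 1 0 (t+θ)`.
-/

namespace HLA

open MeasureTheory ArithmeticFunction SMC Filter

private theorem vag_sum_int {ι X : Type*} [Countable ι] [MeasurableSpace X] {a : ι → ℝ}
    (ha : ∀ i, 0 ≤ a i) {μ : ι → Measure X} {f : X → ℝ} (hf : ∀ i, Integrable f (μ i))
    (hs : Summable fun i => a i * ∫ x, ‖f x‖ ∂(μ i)) :
    Integrable f (Measure.sum fun i => ENNReal.ofReal (a i) • μ i) := by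
  refine integrable_sum_measure (fun i => (hf i).smul_measure ENNReal.ofReal_ne_top) ?_
  refine hs.congr fun i => ?_
  rw [integral_smul_measure, ENNReal.toReal_ofReal (ha i), smul_eq_mul]

private theorem vag_sum_val {ι X : Type*} [MeasurableSpace X] {a : ι → ℝ}
    (ha : ∀ i, 0 ≤ a i) {μ : ι → Measure X} {f : X → ℝ}
    (hI : Integrable f (Measure.sum fun i => ENNReal.ofReal (a i) • μ i)) :
    ∫ x, f x ∂(Measure.sum fun i => ENNReal.ofReal (a i) • μ i) =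
      ∑' i, a i * ∫ x, f x ∂(μ i) := by
  rw [integral_sum_measure hI]
  refine tsum_congr fun i => ?_
  rw [integral_smul_measure, ENNReal.toReal_ofReal (ha i), smul_eq_mul]

private theorem vag_WW_shift (σ w c x : ℝ) : WW σ c (x - w) = WW σ (w + c) x := by
  unfold WW
  congr 2
  ring

private theorem vag_gt_nonneg (σ κ c h1 h2 : ℝ) (x : ℝ × ℝ × ℝ) : 0 ≤ gt σ κ c h1 h2 x :=
  mul_nonneg (WW_nonneg _ _ _) (mul_nonneg (WW_nonneg _ _ _) (WW_nonneg _ _ _))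

private theorem vag_gt_int {σ κ : ℝ} (hσ : 0 < σ) (hκ : 0 < κ) (c h1 h2 : ℝ) :
    Integrable (gt σ κ c h1 h2) :=
  (WW_int hσ c).1.mul_prod ((WW_int hκ h1).1.mul_prod (WW_int hκ h2).1)

/-- the limit measure -/
private noncomputable def vagM (θ : ℝ) : Measure (ℝ × ℝ × ℝ) :=
  volume.withDensity fun x => ENNReal.ofReal (WW 1 0 (x.1 + θ) * WW 1 0 (x.1 + 2 * θ))

private theorem vagM_le (θ : ℝ) : vagM θ ≤ volume := by
  have h : vagM θ ≤ (volume : Measure (ℝ × ℝ × ℝ)).withDensity 1 := by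
    refine withDensity_mono (Filter.Eventually.of_forall fun x => ?_)
    rw [Pi.one_apply, ← ENNReal.ofReal_one]
    exact ENNReal.ofReal_le_ofReal (mul_le_one₀ (WW_le_one _ _ _) (WW_nonneg _ _ _)
      (WW_le_one _ _ _))
  rwa [withDensity_one] at h

private theorem vagM_int (θ : ℝ) (f : ℝ × ℝ × ℝ → ℝ) : ∫ x, f x ∂(vagM θ) =
    ∫ x : ℝ × ℝ × ℝ, (WW 1 0 (x.1 + θ) * WW 1 0 (x.1 + 2 * θ)) * f x := by
  have hc := WW_cont 1 0
  unfold vagM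
  rw [integral_withDensity_eq_integral_toReal_smul]
  · refine integral_congr_ae (Filter.Eventually.of_forall fun x => ?_)
    simp only
    rw [ENNReal.toReal_ofReal (mul_nonneg (WW_nonneg _ _ _) (WW_nonneg _ _ _)), smul_eq_mul]
  · refine ENNReal.measurable_ofReal.comp (Continuous.measurable ?_)
    fun_prop
  · exact Filter.Eventually.of_forall fun x => ENNReal.ofReal_lt_top

private theorem vagM_gt {σ κ : ℝ} (θ c h1 h2 : ℝ) (hκ : 0 < κ) :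
    ∫ x, gt σ κ c h1 h2 x ∂(vagM θ) = 2 * Real.pi * κ ^ 2 * lim3 σ θ c := by
  rw [vagM_int]
  have e1 : ∀ x : ℝ × ℝ × ℝ, (WW 1 0 (x.1 + θ) * WW 1 0 (x.1 + 2 * θ)) * gt σ κ c h1 h2 x =
      (fun t : ℝ => WW σ c t * WW 1 0 (t + θ) * WW 1 0 (t + 2 * θ)) x.1 *
        (fun y : ℝ × ℝ => WW κ h1 y.1 * WW κ h2 y.2) x.2 := by
    intro x
    unfold gt
    simp only
    ring
  simp only [e1]
  rw [Measure.volume_eq_prod, integral_prod_mul (μ := (volume : Measure ℝ))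
    (ν := (volume : Measure (ℝ × ℝ))) (fun t : ℝ => WW σ c t * WW 1 0 (t + θ) * WW 1 0 (t + 2 * θ))
    (fun y : ℝ × ℝ => WW κ h1 y.1 * WW κ h2 y.2),
    Measure.volume_eq_prod, integral_prod_mul (μ := (volume : Measure ℝ))
    (ν := (volume : Measure ℝ)) (WW κ h1) (WW κ h2), (WW_int hκ h1).2, (WW_int hκ h2).2]
  unfold lim3
  have h2 : Real.sqrt (2 * Real.pi) * κ * (Real.sqrt (2 * Real.pi) * κ) =
      2 * Real.pi * κ ^ 2 := by
    have := Real.mul_self_sqrt (show (0 : ℝ) ≤ 2 * Real.pi by positivity)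
    linear_combination κ ^ 2 * this
  rw [h2]
  ring

/-! ### triples -/

private noncomputable def vagA (w : ℝ) (q : ℕ × ℕ × ℕ) : ℝ :=
  tw q.1 * tw q.2.1 * tw q.2.2 * Real.exp (2 * w) *
    (WW 1 w (Real.log q.2.1) * WW 1 w (Real.log q.2.2))

private noncomputable def vagP (w θ : ℝ) (q : ℕ × ℕ × ℕ) : ℝ × ℝ × ℝ :=
  (Real.log q.1 - w, Real.exp w * (Real.log q.1 + θ - Real.log q.2.1),
      Real.exp w * (Real.log q.1 + 2 * θ - Real.log q.2.2))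

private theorem vagA_nonneg (w : ℝ) (q : ℕ × ℕ × ℕ) : 0 ≤ vagA w q := by
  unfold vagA
  have := tw_nonneg q.1
  have := tw_nonneg q.2.1
  have := tw_nonneg q.2.2
  have := WW_nonneg 1 w (Real.log q.2.1)
  have := WW_nonneg 1 w (Real.log q.2.2)
  positivity

private noncomputable def vagN (w θ : ℝ) : Measure (ℝ × ℝ × ℝ) :=
  Measure.sum fun q : ℕ × ℕ × ℕ => ENNReal.ofReal (vagA w q) • Measure.dirac (vagP w θ q)

private theorem vagN_term (σ κ w θ c h1 h2 : ℝ) (q : ℕ × ℕ × ℕ) :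
    vagA w q * gt σ κ c h1 h2 (vagP w θ q) =
    tw q.1 * tw q.2.1 * tw q.2.2 * Real.exp (2 * w) *
    (WW σ (w + c) (Real.log q.1) * WW 1 w (Real.log q.2.1) * WW 1 w (Real.log q.2.2)) *
    (WW κ h1 (Real.exp w * (Real.log q.1 + θ - Real.log q.2.1)) *
      WW κ h2 (Real.exp w * (Real.log q.1 + 2 * θ - Real.log q.2.2))) := by
  unfold vagA gt vagP
  simp only
  rw [vag_WW_shift]
  ring

private theorem vagN_int {σ κ : ℝ} (w θ c h1 h2 : ℝ) (hσ : 0 < σ) (hσ1 : σ ≤ 1) (hκ : 0 < κ) :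
    Integrable (gt σ κ c h1 h2) (vagN w θ) := by
  refine vag_sum_int (vagA_nonneg w) (fun q => integrable_dirac (by simp)) ?_
  refine (p3_summ w θ c h1 h2 hσ hσ1 hκ).congr fun q => ?_
  rw [integral_dirac, Real.norm_of_nonneg (vag_gt_nonneg _ _ _ _ _ _), vagN_term]

private theorem vagN_val {w θ : ℝ} {f : ℝ × ℝ × ℝ → ℝ} (hf : Integrable f (vagN w θ)) :
    ∫ x, f x ∂(vagN w θ) = V3 w θ f := by
  unfold vagN at hf ⊢
  rw [vag_sum_val (vagA_nonneg w) hf]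
  unfold V3
  refine tsum_congr fun q => ?_
  rw [integral_dirac]
  rfl

theorem vag3 {θ : ℝ} (hθ : Good θ) {f : ℝ × ℝ × ℝ → ℝ} (hf : Continuous f) (hs : HasCompactSupport f) {n : ℕ} (hn : 1 ≤ n) :
    Tendsto (fun j : ℕ => V3 ((j : ℝ) / n) θ f) atTop
      (nhds (∫ x : ℝ × ℝ × ℝ, f x * (WW 1 0 (x.1 + θ) * WW 1 0 (x.1 + 2 * θ)))) := by
  have hpos : ∀ {s : ℚ}, 0 < s → (0 : ℝ) < s := fun h => by exact_mod_cast h
  have hone : ∀ {s : ℚ}, s ≤ 1 → (s : ℝ) ≤ 1 := fun h => by exact_mod_cast h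
  have h := vc (N := fun j : ℕ => vagN ((j : ℝ) / n) θ) (M := vagM θ)
    (fun j σ κ c h1 h2 hσ hσ1 hκ hκ1 => vagN_int _ _ _ _ _ (hpos hσ) (hone hσ1) (hpos hκ))
    (fun σ κ c h1 h2 hσ hσ1 hκ hκ1 => (vag_gt_int (hpos hσ) (hpos hκ) _ _ _).mono_measure
      (vagM_le θ))
    (fun σ κ c h1 h2 hσ hσ1 hκ hκ1 => by
      rw [vagM_gt θ _ _ _ (hpos hκ)]
      refine ((hθ n hn σ κ c h1 h2 hσ hσ1 hκ hκ1).1).congr fun j => ?_
      rw [vagN_val (vagN_int _ _ _ _ _ (hpos hσ) (hone hσ1) (hpos hκ))]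
      unfold P3 V3
      refine tsum_congr fun q => ?_
      rw [← vagN_term]
      rfl) hf hs
  obtain ⟨h1, h2, h3⟩ := h
  rw [vagM_int] at h3
  have e : ∫ x : ℝ × ℝ × ℝ, f x * (WW 1 0 (x.1 + θ) * WW 1 0 (x.1 + 2 * θ)) =
      ∫ x : ℝ × ℝ × ℝ, (WW 1 0 (x.1 + θ) * WW 1 0 (x.1 + 2 * θ)) * f x :=
    integral_congr_ae (Filter.Eventually.of_forall fun x => mul_comm _ _)
  rw [e]
  refine h3.congr fun j => ?_
  exact vagN_val (h1 j)

/-! ### pairs -/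

private noncomputable def vagB (w θ : ℝ) (q : ℕ × ℕ) : ℝ :=
  tw q.1 * tw q.2 * Real.exp w * (WW 1 w (Real.log q.2) * WW 1 w (Real.log q.1 + 2 * θ))

private theorem vagB_nonneg (w θ : ℝ) (q : ℕ × ℕ) : 0 ≤ vagB w θ q := by
  unfold vagB
  have := tw_nonneg q.1
  have := tw_nonneg q.2
  have := WW_nonneg 1 w (Real.log q.2)
  have := WW_nonneg 1 w (Real.log q.1 + 2 * θ)
  positivity

private noncomputable def vagE (w θ : ℝ) (q : ℕ × ℕ) (b : ℝ) : ℝ × ℝ × ℝ :=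
  (Real.log q.1 - w, Real.exp w * (Real.log q.1 + θ - Real.log q.2), b)

private theorem vagE_meas (w θ : ℝ) (q : ℕ × ℕ) : Measurable (vagE w θ q) := by
  unfold vagE
  fun_prop

private theorem vagE_emb (w θ : ℝ) (q : ℕ × ℕ) : MeasurableEmbedding (vagE w θ q) := by
  refine (vagE_meas w θ q).measurableEmbedding ?_
  intro b b' h
  unfold vagE at h
  simpa using h

private noncomputable def vagN2 (w θ : ℝ) : Measure (ℝ × ℝ × ℝ) :=
  Measure.sum fun q : ℕ × ℕ => ENNReal.ofReal (vagB w θ q) •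
    (volume : Measure ℝ).map (vagE w θ q)

private theorem vagN2_gt {σ κ : ℝ} (w θ c h1 h2 : ℝ) (hκ : 0 < κ) (q : ℕ × ℕ) :
    Integrable (gt σ κ c h1 h2) ((volume : Measure ℝ).map (vagE w θ q)) ∧
    vagB w θ q * ∫ x, gt σ κ c h1 h2 x ∂((volume : Measure ℝ).map (vagE w θ q)) =
    (tw q.1 * tw q.2 * Real.exp w *
    (WW σ (w + c) (Real.log q.1) * WW 1 w (Real.log q.2) * WW 1 w (Real.log q.1 + 2 * θ)) *
    WW κ h1 (Real.exp w * (Real.log q.1 + θ - Real.log q.2))) * (Real.sqrt (2 * Real.pi) * κ) := by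
  constructor
  · rw [(vagE_emb w θ q).integrable_map_iff]
    simp only [Function.comp_def, gt, vagE]
    exact ((WW_int hκ h2).1.const_mul _).const_mul _
  · rw [(vagE_emb w θ q).integral_map]
    unfold gt vagE vagB
    simp only
    rw [integral_const_mul, integral_const_mul, (WW_int hκ h2).2, vag_WW_shift]
    ring

private theorem vagN2_int {σ κ : ℝ} (w θ c h1 h2 : ℝ) (hσ : 0 < σ) (hσ1 : σ ≤ 1) (hκ : 0 < κ) :
    Integrable (gt σ κ c h1 h2) (vagN2 w θ) := by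
  refine vag_sum_int (vagB_nonneg w θ) (fun q => (vagN2_gt w θ c h1 h2 hκ q).1) ?_
  refine ((p2_summ w θ c h1 hσ hσ1 hκ).mul_right (Real.sqrt (2 * Real.pi) * κ)).congr fun q => ?_
  rw [← (vagN2_gt w θ c h1 h2 hκ q).2]
  congr 1
  refine integral_congr_ae (Filter.Eventually.of_forall fun x => ?_)
  exact (Real.norm_of_nonneg (vag_gt_nonneg _ _ _ _ _ _)).symm

private theorem vagN2_P2 {σ κ : ℝ} (w θ c h1 h2 : ℝ) (hσ : 0 < σ) (hσ1 : σ ≤ 1) (hκ : 0 < κ) :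
    ∫ x, gt σ κ c h1 h2 x ∂(vagN2 w θ) = P2 σ κ w θ c h1 * (Real.sqrt (2 * Real.pi) * κ) := by
  have h := vagN2_int w θ c h1 h2 hσ hσ1 hκ
  unfold vagN2 at h ⊢
  rw [vag_sum_val (vagB_nonneg w θ) h]
  unfold P2
  rw [← tsum_mul_right]
  exact tsum_congr fun q => (vagN2_gt w θ c h1 h2 hκ q).2

/-- the test function on `ℝ³` -/
private noncomputable def vagF (θ : ℝ) (f : ℝ × ℝ → ℝ) (χ : ℝ → ℝ) (x : ℝ × ℝ × ℝ) : ℝ :=
  f (x.1, x.2.1) * (WW 1 0 (x.1 + 2 * θ))⁻¹ * χ x.2.2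

private theorem vag_WW_pos (x : ℝ) : 0 < WW 1 0 x := Real.exp_pos _

private theorem vagF_cont {θ : ℝ} {f : ℝ × ℝ → ℝ} {χ : ℝ → ℝ} (hf : Continuous f)
    (hχ : Continuous χ) : Continuous (vagF θ f χ) := by
  have hc := WW_cont 1 0
  have h1 : Continuous fun x : ℝ × ℝ × ℝ => WW 1 0 (x.1 + 2 * θ) := by fun_prop
  have h2 : Continuous fun x : ℝ × ℝ × ℝ => (WW 1 0 (x.1 + 2 * θ))⁻¹ :=
    h1.inv₀ fun x => (vag_WW_pos _).ne'
  unfold vagF
  fun_prop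

private theorem vagF_supp {θ : ℝ} {f : ℝ × ℝ → ℝ} {χ : ℝ → ℝ} (hf : HasCompactSupport f)
    (hχ : HasCompactSupport χ) : HasCompactSupport (vagF θ f χ) := by
  have hK : IsCompact ((fun z : (ℝ × ℝ) × ℝ => ((z.1.1, z.1.2, z.2) : ℝ × ℝ × ℝ)) ''
      (tsupport f ×ˢ tsupport χ)) := by
    refine IsCompact.image (IsCompact.prod hf hχ) ?_
    fun_prop
  refine HasCompactSupport.intro hK fun x hx => ?_
  unfold vagF
  by_cases h1 : (x.1, x.2.1) ∈ tsupport f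
  · have h2 : x.2.2 ∉ tsupport χ := fun h2 => hx ⟨((x.1, x.2.1), x.2.2), ⟨h1, h2⟩, rfl⟩
    rw [image_eq_zero_of_notMem_tsupport h2, mul_zero]
  · rw [image_eq_zero_of_notMem_tsupport h1, zero_mul, zero_mul]

private theorem vagF_M {θ : ℝ} {f : ℝ × ℝ → ℝ} {χ : ℝ → ℝ} (hχ : ∫ b, χ b = 1) :
    ∫ x, vagF θ f χ x ∂(vagM θ) = ∫ x : ℝ × ℝ, f x * WW 1 0 (x.1 + θ) := by
  rw [vagM_int]
  have h := (volume_preserving_prodAssoc (α₁ := ℝ) (β₁ := ℝ) (γ₁ := ℝ)).integral_comp'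
    (fun x : ℝ × ℝ × ℝ => (WW 1 0 (x.1 + θ) * WW 1 0 (x.1 + 2 * θ)) * vagF θ f χ x)
  rw [← h]
  have e : ∀ z : (ℝ × ℝ) × ℝ, (WW 1 0 ((MeasurableEquiv.prodAssoc z : ℝ × ℝ × ℝ).1 + θ) *
      WW 1 0 ((MeasurableEquiv.prodAssoc z : ℝ × ℝ × ℝ).1 + 2 * θ)) *
      vagF θ f χ (MeasurableEquiv.prodAssoc z) =
      (fun x : ℝ × ℝ => f x * WW 1 0 (x.1 + θ)) z.1 * χ z.2 := by
    rintro ⟨⟨t, a⟩, b⟩
    have e2 : (MeasurableEquiv.prodAssoc ((t, a), b) : ℝ × ℝ × ℝ) = (t, a, b) := rfl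
    rw [e2]
    unfold vagF
    simp only
    have := (vag_WW_pos (t + 2 * θ)).ne'
    generalize WW 1 0 (t + 2 * θ) = u at this ⊢
    field_simp
  simp only [e]
  rw [Measure.volume_eq_prod (ℝ × ℝ) ℝ, integral_prod_mul (μ := (volume : Measure (ℝ × ℝ)))
    (ν := (volume : Measure ℝ)) (fun x : ℝ × ℝ => f x * WW 1 0 (x.1 + θ)) χ, hχ, mul_one]

private theorem vagF_N {w θ : ℝ} {f : ℝ × ℝ → ℝ} {χ : ℝ → ℝ} (hχ : ∫ b, χ b = 1)
    (hI : Integrable (vagF θ f χ) (vagN2 w θ)) :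
    ∫ x, vagF θ f χ x ∂(vagN2 w θ) = V2 w θ f := by
  unfold vagN2 at hI ⊢
  rw [vag_sum_val (vagB_nonneg w θ) hI]
  unfold V2
  refine tsum_congr fun q => ?_
  rw [(vagE_emb w θ q).integral_map]
  unfold vagF vagE vagB
  simp only
  rw [integral_const_mul, hχ, mul_one]
  have e1 : WW 1 w (Real.log q.1 + 2 * θ) = WW 1 0 (Real.log q.1 - w + 2 * θ) := by
    unfold WW
    congr 2
    ring
  rw [e1]
  have := (vag_WW_pos (Real.log q.1 - w + 2 * θ)).ne'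
  generalize WW 1 0 (Real.log q.1 - w + 2 * θ) = u at this ⊢
  field_simp

theorem vag2 {θ : ℝ} (hθ : Good θ) {f : ℝ × ℝ → ℝ} (hf : Continuous f) (hs : HasCompactSupport f) {n : ℕ} (hn : 1 ≤ n) :
    Tendsto (fun j : ℕ => V2 ((j : ℝ) / n) θ f) atTop (nhds (∫ x : ℝ × ℝ, f x * WW 1 0 (x.1 + θ))) := by
  have hpos : ∀ {s : ℚ}, 0 < s → (0 : ℝ) < s := fun h => by exact_mod_cast h
  have hone : ∀ {s : ℚ}, s ≤ 1 → (s : ℝ) ≤ 1 := fun h => by exact_mod_cast h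
  obtain ⟨χ, hχc, hχs, hχ1⟩ : ∃ χ : ℝ → ℝ, Continuous χ ∧ HasCompactSupport χ ∧ ∫ b, χ b = 1 := by
    let φ : ContDiffBump (0 : ℝ) := ⟨1, 2, one_pos, one_lt_two⟩
    exact ⟨φ.normed volume, φ.continuous_normed, φ.hasCompactSupport_normed, φ.integral_normed⟩
  have h := vc (N := fun j : ℕ => vagN2 ((j : ℝ) / n) θ) (M := vagM θ)
    (fun j σ κ c h1 h2 hσ hσ1 hκ hκ1 => vagN2_int _ _ _ _ _ (hpos hσ) (hone hσ1) (hpos hκ))
    (fun σ κ c h1 h2 hσ hσ1 hκ hκ1 => (vag_gt_int (hpos hσ) (hpos hκ) _ _ _).mono_measure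
      (vagM_le θ))
    (fun σ κ c h1 h2 hσ hσ1 hκ hκ1 => by
      rw [vagM_gt θ _ _ _ (hpos hκ)]
      have h3 := ((hθ n hn σ κ c h1 h2 hσ hσ1 hκ hκ1).2).mul_const
        (Real.sqrt (2 * Real.pi) * (κ : ℝ))
      have e3 : Real.sqrt (2 * Real.pi) * (κ : ℝ) * lim3 σ θ c * (Real.sqrt (2 * Real.pi) * κ) =
          2 * Real.pi * (κ : ℝ) ^ 2 * lim3 σ θ c := by
        have := Real.mul_self_sqrt (show (0 : ℝ) ≤ 2 * Real.pi by positivity)
        linear_combination (κ : ℝ) ^ 2 * lim3 σ θ c * this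
      rw [e3] at h3
      refine h3.congr fun j => ?_
      exact (vagN2_P2 _ _ _ _ _ (hpos hσ) (hone hσ1) (hpos hκ)).symm)
    (vagF_cont (θ := θ) hf hχc) (vagF_supp (θ := θ) hs hχs)
  obtain ⟨h1, h2, h3⟩ := h
  rw [vagF_M hχ1] at h3
  refine h3.congr fun j => ?_
  exact vagF_N hχ1 (h1 j)

end HLA
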